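import Pool.Agent.Lib.MP_940f24_an.VField

/-!
The area formula with multiplicity for equidimensional holomorphic maps.
-/

open Set Filter Topology MeasureTheory Metric Complex
open scoped ENNReal

namespace Pool.Agent.Lib.MP_940f24_an

variable {k : ℕ}

theorem abs_det_fderiv_real {g : (Fin k → ℂ) → (Fin k → ℂ)} {z : Fin k → ℂ} :
    |((fderiv ℂ g z).restrictScalars ℝ).det| = ‖(jac g z).det‖ ^ 2 := by
  have h : ((fderiv ℂ g z).restrictScalars ℝ).det = Complex.normSq (fderiv ℂ g z).det := by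
    rw [← Algebra.norm_complex_apply]
    exact LinearMap.det_restrictScalars (R := ℝ) (S := ℂ)
      (f := ((fderiv ℂ g z : (Fin k → ℂ) →L[ℂ] (Fin k → ℂ)) : (Fin k → ℂ) →ₗ[ℂ] (Fin k → ℂ)))
  rw [h, det_jac_eq, Complex.normSq_eq_norm_sq, abs_of_nonneg (sq_nonneg _)]

theorem hasStrictFDerivAt_equiv_of_det_ne_zero {g : (Fin k → ℂ) → (Fin k → ℂ)} {z : Fin k → ℂ}
    (hg : AnalyticAt ℂ g z) (hdet : (jac g z).det ≠ 0) :
    ∃ e : (Fin k → ℂ) ≃L[ℂ] (Fin k → ℂ),
      HasStrictFDerivAt g (e : (Fin k → ℂ) →L[ℂ] (Fin k → ℂ)) z := by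
  rw [det_jac_eq] at hdet
  refine ⟨(fderiv ℂ g z).toContinuousLinearEquivOfDetNeZero hdet, ?_⟩
  rw [ContinuousLinearMap.coe_toContinuousLinearEquivOfDetNeZero]
  exact hg.hasStrictFDerivAt

/-- A holomorphic map is open at a point where the Jacobian does not vanish. -/
theorem image_mem_nhds_of_det_ne_zero {g : (Fin k → ℂ) → (Fin k → ℂ)} {z : Fin k → ℂ}
    (hg : AnalyticAt ℂ g z) (hdet : (jac g z).det ≠ 0) {O : Set (Fin k → ℂ)} (hO : O ∈ 𝓝 z) :
    g '' O ∈ 𝓝 (g z) := by
  obtain ⟨e, he⟩ := hasStrictFDerivAt_equiv_of_det_ne_zero hg hdet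
  rw [← he.map_nhds_eq_of_equiv]
  exact image_mem_map hO

theorem hasFDerivWithinAt_real {g : (Fin k → ℂ) → (Fin k → ℂ)} {S : Set (Fin k → ℂ)}
    (hg : AnalyticOnNhd ℂ g S) :
    ∀ z ∈ S, HasFDerivWithinAt g ((fderiv ℂ g z).restrictScalars ℝ) S z := fun z hz =>
  ((hg z hz).differentiableAt.hasFDerivAt.restrictScalars ℝ).hasFDerivWithinAt

theorem volume_image_le {g : (Fin k → ℂ) → (Fin k → ℂ)} {S : Set (Fin k → ℂ)}
    (hS : MeasurableSet S) (hg : AnalyticOnNhd ℂ g S) :
    volume (g '' S) ≤ ∫⁻ z in S, ENNReal.ofReal (‖(jac g z).det‖ ^ 2) := by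
  have h := addHaar_image_le_lintegral_abs_det_fderiv volume hS (hasFDerivWithinAt_real hg)
  simpa only [abs_det_fderiv_real] using h

theorem volume_image_eq_of_injOn {g : (Fin k → ℂ) → (Fin k → ℂ)} {S : Set (Fin k → ℂ)}
    (hS : MeasurableSet S) (hg : AnalyticOnNhd ℂ g S) (hinj : InjOn g S) :
    volume (g '' S) = ∫⁻ z in S, ENNReal.ofReal (‖(jac g z).det‖ ^ 2) := by
  have h := lintegral_abs_det_fderiv_eq_addHaar_image volume hS (hasFDerivWithinAt_real hg) hinj
  simpa only [abs_det_fderiv_real] using h.symm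

theorem continuousOn_det_jac {g : (Fin k → ℂ) → (Fin k → ℂ)} {W : Set (Fin k → ℂ)}
    (hg : AnalyticOnNhd ℂ g W) : ContinuousOn (fun z => (jac g z).det) W := fun z hz =>
  (analyticAt_det_jac (hg z hz)).continuousAt.continuousWithinAt

theorem isOpen_det_jac_ne {g : (Fin k → ℂ) → (Fin k → ℂ)} {W : Set (Fin k → ℂ)}
    (hW : IsOpen W) (hg : AnalyticOnNhd ℂ g W) : IsOpen {z ∈ W | (jac g z).det ≠ 0} :=
  (continuousOn_det_jac hg).isOpen_inter_preimage hW (isOpen_ne (x := (0 : ℂ)))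

theorem exists_injOn_partition {g : (Fin k → ℂ) → (Fin k → ℂ)} {W : Set (Fin k → ℂ)}
    (hW : IsOpen W) (hg : AnalyticOnNhd ℂ g W) :
    ∃ O : ℕ → Set (Fin k → ℂ), (∀ j, MeasurableSet (O j)) ∧
      Pairwise (Function.onFun Disjoint O) ∧ (∀ j, InjOn g (O j)) ∧
        ⋃ j, O j = {z ∈ W | (jac g z).det ≠ 0} := by
  set W' : Set (Fin k → ℂ) := {z ∈ W | (jac g z).det ≠ 0} with hW'
  have hW'o : IsOpen W' := isOpen_det_jac_ne hW hg
  let 𝒰 : Set (Set (Fin k → ℂ)) := {U | IsOpen U ∧ U ⊆ W' ∧ InjOn g U}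
  obtain ⟨T, hTc, hT𝒰, hTU⟩ := TopologicalSpace.isOpen_sUnion_countable 𝒰 (fun U hU => hU.1)
  have hT' : (insert ∅ T).Countable := hTc.insert _
  obtain ⟨U, hU⟩ := hT'.exists_eq_range (insert_nonempty _ _)
  have hUm : ∀ j, U j ∈ 𝒰 := by
    intro j
    have : U j ∈ insert ∅ T := hU ▸ mem_range_self j
    rcases this with h | h
    · rw [h]
      exact ⟨isOpen_empty, empty_subset _, injOn_empty _⟩
    · exact hT𝒰 h
  refine ⟨disjointed U, fun j => MeasurableSet.disjointed (fun i => (hUm i).1.measurableSet) j,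
    disjoint_disjointed U, fun j => (hUm j).2.2.mono (disjointed_subset U j), ?_⟩
  rw [iUnion_disjointed]
  apply Subset.antisymm
  · exact iUnion_subset fun j => (hUm j).2.1
  · intro z hz
    obtain ⟨e, he⟩ := hasStrictFDerivAt_equiv_of_det_ne_zero (hg z hz.1) hz.2
    have hmem : (he.toOpenPartialHomeomorph g).source ∩ W' ∈ 𝒰 :=
      ⟨(he.toOpenPartialHomeomorph g).open_source.inter hW'o, inter_subset_right,
        (he.toOpenPartialHomeomorph g).injOn.mono inter_subset_left⟩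
    have hz' : z ∈ ⋃₀ T := by
      rw [hTU]
      exact ⟨_, hmem, he.mem_toOpenPartialHomeomorph_source, hz⟩
    obtain ⟨V, hV, hzV⟩ := hz'
    have : V ∈ range U := hU ▸ mem_insert_of_mem _ hV
    obtain ⟨j, rfl⟩ := this
    exact mem_iUnion.2 ⟨j, hzV⟩

/-- The noncritical points of the fibre of `g` over `w`. -/
def regFibre (g : (Fin k → ℂ) → (Fin k → ℂ)) (W : Set (Fin k → ℂ)) (w : Fin k → ℂ) :
    Set (Fin k → ℂ) :=
  {z ∈ W | (jac g z).det ≠ 0 ∧ g z = w}

theorem bijOn_regFibre {g : (Fin k → ℂ) → (Fin k → ℂ)} {W : Set (Fin k → ℂ)}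
    {O : ℕ → Set (Fin k → ℂ)} (hd : Pairwise (Function.onFun Disjoint O))
    (hinj : ∀ j, InjOn g (O j)) (hU : ⋃ j, O j = {z ∈ W | (jac g z).det ≠ 0}) (w : Fin k → ℂ) :
    BijOn (fun j => Function.invFunOn g (O j) w) {j | w ∈ g '' O j} (regFibre g W w) := by
  refine ⟨?_, ?_, ?_⟩
  · intro j hj
    have h1 := Function.invFunOn_pos (f := g) (s := O j) (b := w) hj
    have h2 : Function.invFunOn g (O j) w ∈ ⋃ j, O j := mem_iUnion.2 ⟨j, h1.1⟩
    rw [hU] at h2
    exact ⟨h2.1, h2.2, h1.2⟩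
  · intro i hi j hj hij
    by_contra hne
    have h1 := Function.invFunOn_pos (f := g) (s := O i) (b := w) hi
    have h2 := Function.invFunOn_pos (f := g) (s := O j) (b := w) hj
    have hij' : Function.invFunOn g (O i) w = Function.invFunOn g (O j) w := hij
    exact Set.disjoint_left.1 (hd hne) h1.1 (hij' ▸ h2.1)
  · intro z hz
    have h2 : z ∈ ⋃ j, O j := by
      rw [hU]
      exact ⟨hz.1, hz.2.1⟩
    obtain ⟨j, hj⟩ := mem_iUnion.1 h2
    have hw : w ∈ g '' O j := ⟨z, hj, hz.2.2⟩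
    have h1 := Function.invFunOn_pos (f := g) (s := O j) (b := w) hw
    exact ⟨j, hw, hinj j h1.1 hj (h1.2.trans hz.2.2.symm)⟩

theorem encard_regFibre_eq_tsum {g : (Fin k → ℂ) → (Fin k → ℂ)} {W : Set (Fin k → ℂ)}
    {O : ℕ → Set (Fin k → ℂ)} (hd : Pairwise (Function.onFun Disjoint O))
    (hinj : ∀ j, InjOn g (O j)) (hU : ⋃ j, O j = {z ∈ W | (jac g z).det ≠ 0}) (w : Fin k → ℂ) :
    ((regFibre g W w).encard : ℝ≥0∞) = ∑' j, (g '' O j).indicator (fun _ => (1 : ℝ≥0∞)) w := by
  have hb := bijOn_regFibre hd hinj hU w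
  rw [← hb.image_eq, hb.injOn.encard_image, ← ENNReal.tsum_set_one,
    tsum_subtype {j | w ∈ g '' O j} (fun _ => (1 : ℝ≥0∞))]
  refine tsum_congr fun j => ?_
  by_cases h : w ∈ g '' O j
  · rw [indicator_of_mem h, indicator_of_mem (show j ∈ {j | w ∈ g '' O j} from h)]
  · rw [indicator_of_notMem h, indicator_of_notMem (show j ∉ {j | w ∈ g '' O j} from h)]

theorem measurable_encard_regFibre {g : (Fin k → ℂ) → (Fin k → ℂ)} {W : Set (Fin k → ℂ)}
    (hW : IsOpen W) (hg : AnalyticOnNhd ℂ g W) :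
    Measurable fun w => ((regFibre g W w).encard : ℝ≥0∞) := by
  obtain ⟨O, hm, hd, hinj, hU⟩ := exists_injOn_partition hW hg
  have hsub : ∀ j, O j ⊆ W := fun j z hz => by
    have : z ∈ ⋃ j, O j := mem_iUnion.2 ⟨j, hz⟩
    rw [hU] at this
    exact this.1
  simp only [encard_regFibre_eq_tsum hd hinj hU]
  refine Measurable.tsum fun j => measurable_const.indicator ?_
  exact measurable_image_of_fderivWithin (hm j) (hasFDerivWithinAt_real (hg.mono (hsub j)))
    (hinj j)

/-- Area formula for the multiplicity function. -/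
theorem lintegral_encard_regFibre {g : (Fin k → ℂ) → (Fin k → ℂ)} {W : Set (Fin k → ℂ)}
    (hW : IsOpen W) (hg : AnalyticOnNhd ℂ g W) :
    ∫⁻ w, ((regFibre g W w).encard : ℝ≥0∞) =
      ∫⁻ z in W, ENNReal.ofReal (‖(jac g z).det‖ ^ 2) := by
  obtain ⟨O, hm, hd, hinj, hU⟩ := exists_injOn_partition hW hg
  have hsub : ∀ j, O j ⊆ W := fun j z hz => by
    have : z ∈ ⋃ j, O j := mem_iUnion.2 ⟨j, hz⟩
    rw [hU] at this
    exact this.1
  have hmi : ∀ j, MeasurableSet (g '' O j) := fun j =>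
    measurable_image_of_fderivWithin (hm j) (hasFDerivWithinAt_real (hg.mono (hsub j))) (hinj j)
  simp only [encard_regFibre_eq_tsum hd hinj hU]
  rw [lintegral_tsum fun j => (measurable_const.indicator (hmi j)).aemeasurable]
  have h1 : ∀ j, ∫⁻ w, (g '' O j).indicator (fun _ => (1 : ℝ≥0∞)) w =
      ∫⁻ z in O j, ENNReal.ofReal (‖(jac g z).det‖ ^ 2) := fun j => by
    rw [lintegral_indicator_const (hmi j), one_mul,
      volume_image_eq_of_injOn (hm j) (hg.mono (hsub j)) (hinj j)]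
  simp only [h1]
  rw [← lintegral_iUnion hm hd, hU]
  have hW' := (isOpen_det_jac_ne hW hg).measurableSet
  rw [← lintegral_indicator hW', ← lintegral_indicator hW.measurableSet]
  refine lintegral_congr fun z => ?_
  by_cases hz : z ∈ W
  · by_cases h0 : (jac g z).det = 0
    · rw [indicator_of_mem hz, indicator_of_notMem (fun h => h.2 h0), h0]
      simp
    · rw [indicator_of_mem hz, indicator_of_mem (show z ∈ {z ∈ W | (jac g z).det ≠ 0} from ⟨hz, h0⟩)]
  · rw [indicator_of_notMem hz, indicator_of_notMem (fun h => hz h.1)]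

theorem integrableOn_det_sq_iff {g : (Fin k → ℂ) → (Fin k → ℂ)} {W : Set (Fin k → ℂ)}
    (hW : IsOpen W) (hg : AnalyticOnNhd ℂ g W) :
    IntegrableOn (fun z => ‖(jac g z).det‖ ^ 2) W ↔
      ∫⁻ w, ((regFibre g W w).encard : ℝ≥0∞) ≠ ∞ := by
  rw [lintegral_encard_regFibre hW hg]
  have hc : ContinuousOn (fun z => ‖(jac g z).det‖ ^ 2) W := (continuousOn_det_jac hg).norm.pow 2
  exact (lintegral_ofReal_ne_top_iff_integrable (hc.aestronglyMeasurable hW.measurableSet)
    (Eventually.of_forall fun z => sq_nonneg _)).symm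

/-- Bounded multiplicity gives a square integrable Jacobian. -/
theorem integrableOn_det_sq_of_encard_le {g : (Fin k → ℂ) → (Fin k → ℂ)} {W : Set (Fin k → ℂ)}
    (hW : IsOpen W) (hg : AnalyticOnNhd ℂ g W) (hb : Bornology.IsBounded (g '' W)) {m : ℕ}
    (hm : ∀ w, (W ∩ g ⁻¹' {w}).encard ≤ m) :
    IntegrableOn (fun z => ‖(jac g z).det‖ ^ 2) W := by
  rw [integrableOn_det_sq_iff hW hg]
  have h1 : ∀ w, ((regFibre g W w).encard : ℝ≥0∞) ≤
      (closure (g '' W)).indicator (fun _ => (m : ℝ≥0∞)) w := by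
    intro w
    by_cases hw : w ∈ closure (g '' W)
    · rw [indicator_of_mem hw]
      have h2 : (regFibre g W w).encard ≤ m :=
        (encard_le_encard (show regFibre g W w ⊆ W ∩ g ⁻¹' {w} from
          fun z hz => ⟨hz.1, hz.2.2⟩)).trans (hm w)
      exact_mod_cast ENat.toENNReal_le.2 h2
    · have : regFibre g W w = ∅ := by
        rw [eq_empty_iff_forall_notMem]
        intro z hz
        exact hw (subset_closure ⟨z, hz.1, hz.2.2⟩)
      rw [this]
      simp
  refine ne_top_of_le_ne_top ?_ (lintegral_mono h1)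
  rw [lintegral_indicator_const isClosed_closure.measurableSet]
  exact ENNReal.mul_ne_top (ENNReal.natCast_ne_top m) hb.isCompact_closure.measure_lt_top.ne

theorem ae_finite_regFibre {g : (Fin k → ℂ) → (Fin k → ℂ)} {W : Set (Fin k → ℂ)}
    (hW : IsOpen W) (hg : AnalyticOnNhd ℂ g W)
    (hint : IntegrableOn (fun z => ‖(jac g z).det‖ ^ 2) W) :
    ∀ᵐ w, (regFibre g W w).Finite := by
  rw [integrableOn_det_sq_iff hW hg] at hint
  filter_upwards [ae_lt_top (measurable_encard_regFibre hW hg) hint] with w hw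
  rw [← encard_lt_top_iff]
  exact ENat.toENNReal_lt_top.1 hw

/-- Area formula. -/
theorem area_formula {g : (Fin k → ℂ) → (Fin k → ℂ)} {W : Set (Fin k → ℂ)}
    (hW : IsOpen W) (hg : AnalyticOnNhd ℂ g W)
    (hint : IntegrableOn (fun z => ‖(jac g z).det‖ ^ 2) W) {b : (Fin k → ℂ) → ℂ}
    (hb : ContinuousOn b W) {M : ℝ} (hM : ∀ z ∈ W, ‖b z‖ ≤ M) :
    Integrable (fun w => ∑ᶠ z ∈ regFibre g W w, b z) ∧
      ∫ w, (∑ᶠ z ∈ regFibre g W w, b z) =
        ∫ z in W, b z * ((‖(jac g z).det‖ ^ 2 : ℝ) : ℂ) := by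
  obtain ⟨O, hm, hd, hinj, hU⟩ := exists_injOn_partition hW hg
  have hsub : ∀ j, O j ⊆ W := fun j z hz => by
    have : z ∈ ⋃ j, O j := mem_iUnion.2 ⟨j, hz⟩
    rw [hU] at this
    exact this.1
  have hmi : ∀ j, MeasurableSet (g '' O j) := fun j =>
    measurable_image_of_fderivWithin (hm j) (hasFDerivWithinAt_real (hg.mono (hsub j))) (hinj j)
  -- the integrand on the source
  set φ : (Fin k → ℂ) → ℂ := fun z => b z * ((‖(jac g z).det‖ ^ 2 : ℝ) : ℂ) with hφ
  have hφint : IntegrableOn φ W := by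
    refine Integrable.bdd_mul (c := M) hint.ofReal (hb.aestronglyMeasurable hW.measurableSet) ?_
    filter_upwards [ae_restrict_mem hW.measurableSet] with z hz using hM z hz
  -- the branches
  set β : ℕ → (Fin k → ℂ) → ℂ := fun j w => b (Function.invFunOn g (O j) w) with hβ
  have hβφ : ∀ j, ∀ z ∈ O j, |((fderiv ℂ g z).restrictScalars ℝ).det| • β j (g z) = φ z := by
    intro j z hz
    simp only [hβ, hφ, abs_det_fderiv_real, (hinj j).leftInvOn_invFunOn hz, Complex.real_smul]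
    ring
  have hβint : ∀ j, IntegrableOn (β j) (g '' O j) := by
    intro j
    rw [integrableOn_image_iff_integrableOn_abs_det_fderiv_smul volume (hm j)
      (hasFDerivWithinAt_real (hg.mono (hsub j))) (hinj j)]
    exact (hφint.mono_set (hsub j)).congr_fun (fun z hz => (hβφ j z hz).symm) (hm j)
  have hβeq : ∀ j, ∫ w, (g '' O j).indicator (β j) w = ∫ z in O j, φ z := by
    intro j
    rw [integral_indicator (hmi j), integral_image_eq_integral_abs_det_fderiv_smul volume (hm j)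
      (hasFDerivWithinAt_real (hg.mono (hsub j))) (hinj j)]
    exact setIntegral_congr_fun (hm j) fun z hz => hβφ j z hz
  have hind : ∀ j, Integrable ((g '' O j).indicator (β j)) := fun j =>
    (integrable_indicator_iff (hmi j)).2 (hβint j)
  have hbd : ∀ j w, ‖(g '' O j).indicator (β j) w‖ₑ ≤
      ENNReal.ofReal M * (g '' O j).indicator (fun _ => (1 : ℝ≥0∞)) w := by
    intro j w
    by_cases hw : w ∈ g '' O j
    · rw [indicator_of_mem hw, indicator_of_mem hw, mul_one, ← ofReal_norm]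
      exact ENNReal.ofReal_le_ofReal
        (hM _ (hsub j (Function.invFunOn_pos (f := g) (s := O j) (b := w) hw).1))
    · rw [indicator_of_notMem hw, indicator_of_notMem hw]
      simp
  have hfin := (integrableOn_det_sq_iff hW hg).1 hint
  have hsum : ∫⁻ w, ∑' j, ‖(g '' O j).indicator (β j) w‖ₑ ≠ ∞ := by
    have h1 : ∀ w, ∑' j, ‖(g '' O j).indicator (β j) w‖ₑ ≤
        ENNReal.ofReal M * ((regFibre g W w).encard : ℝ≥0∞) := by
      intro w
      rw [encard_regFibre_eq_tsum hd hinj hU, ← ENNReal.tsum_mul_left]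
      exact ENNReal.tsum_le_tsum fun j => hbd j w
    refine ne_top_of_le_ne_top ?_ (lintegral_mono h1)
    rw [lintegral_const_mul _ (measurable_encard_regFibre hW hg)]
    exact ENNReal.mul_ne_top ENNReal.ofReal_ne_top hfin
  have hae : (fun w => ∑ᶠ z ∈ regFibre g W w, b z) =ᵐ[volume]
      fun w => ∑' j, (g '' O j).indicator (β j) w := by
    filter_upwards [ae_finite_regFibre hW hg hint] with w hw
    have hbij := bijOn_regFibre hd hinj hU w
    have hJ : {j | w ∈ g '' O j}.Finite := hbij.finite_iff_finite.2 hw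
    rw [← finsum_mem_eq_of_bijOn (f := fun j => β j w) _ hbij (fun j _ => rfl), finsum_mem_def,
      tsum_eq_finsum]
    · refine finsum_congr fun j => ?_
      by_cases h : w ∈ g '' O j
      · rw [indicator_of_mem h, indicator_of_mem (show j ∈ {j | w ∈ g '' O j} from h)]
      · rw [indicator_of_notMem h, indicator_of_notMem (show j ∉ {j | w ∈ g '' O j} from h)]
    · refine hJ.subset fun j hj => ?_
      by_contra h
      exact hj (indicator_of_notMem (show w ∉ g '' O j from h) _)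
  constructor
  · refine Integrable.congr ?_ hae.symm
    refine ⟨(AEMeasurable.tsum fun j => (hind j).1.aemeasurable).aestronglyMeasurable, ?_⟩
    refine lt_of_le_of_lt (lintegral_mono fun w => ?_) hsum.lt_top
    exact enorm_tsum_le_tsum_enorm
  · rw [integral_congr_ae hae, integral_tsum (fun j => (hind j).1)]
    · simp only [hβeq]
      rw [← integral_iUnion hm hd (hφint.mono_set (iUnion_subset hsub)), hU]
      symm
      refine setIntegral_eq_of_subset_of_forall_sdiff_eq_zero hW.measurableSet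
        (fun z hz => hz.1) ?_
      intro z hz
      have h0 : (jac g z).det = 0 := by
        by_contra h
        exact hz.2 ⟨hz.1, h⟩
      simp [h0]
    · rw [← lintegral_tsum fun j => (hind j).1.enorm]
      exact hsum

end Pool.Agent.Lib.MP_940f24_an
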