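import Pool.Agent.Lib.MP_940f24_an.Area

/-!
Lower bound for the volume in balls (monotonicity) and the Hausdorff dimension of the closure.
-/

open Set Filter Topology MeasureTheory Metric Complex
open scoped ENNReal ComplexConjugate Matrix

namespace Pool.Agent.Lib.MP_940f24_an

theorem mono_sum_sum_update {k : ℕ} {ι M : Type} [Fintype ι] [AddCommMonoid M]
    (f : (Fin k → ι) → M) (i : Fin k) :
    ∑ s : Fin k → ι, ∑ m : ι, f (Function.update s i m) =
      Fintype.card ι • ∑ s : Fin k → ι, f s := by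
  classical
  have h1 : ∑ s : Fin k → ι, ∑ m : ι, f (Function.update s i m) =
      ∑ p : (Fin k → ι) × ι, f (Function.update p.1 i p.2) := by
    rw [Fintype.sum_prod_type]
  have h2 : Fintype.card ι • ∑ s : Fin k → ι, f s = ∑ p : (Fin k → ι) × ι, f p.1 := by
    rw [Fintype.sum_prod_type, Finset.smul_sum]
    refine Finset.sum_congr rfl fun s _ => ?_
    simp
  rw [h1, h2]
  let e : ((Fin k → ι) × ι) ≃ ((Fin k → ι) × ι) :=
    { toFun := fun p => (Function.update p.1 i p.2, p.1 i)
      invFun := fun p => (Function.update p.1 i p.2, p.1 i)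
      left_inv := fun p => by simp
      right_inv := fun p => by simp }
  exact Fintype.sum_equiv e _ _ fun p => rfl

theorem sum_nsq_update {k : ℕ} {ι : Type} [Fintype ι] (T : (Fin k → ι) → ℂ) (i₀ : Fin k) :
    ∑ s : Fin k → ι, (nsq fun m => T (Function.update s i₀ m)) =
      Fintype.card ι * ∑ s : Fin k → ι, ‖T s‖ ^ 2 := by
  have := mono_sum_sum_update (fun s => ‖T s‖ ^ 2) i₀
  simpa [nsq] using this

/-- The contraction of `T` with `conj ξ` in the slot `i`. -/
noncomputable def mono_ctr {k : ℕ} {ι : Type} [Fintype ι] (T : (Fin k → ι) → ℂ) (ξ : ι → ℂ)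
    (i : Fin k) (s : Fin k → ι) : ℂ :=
  hdot ξ fun m => T (Function.update s i m)

theorem mono_ctr_update {k : ℕ} {ι : Type} [Fintype ι] (T : (Fin k → ι) → ℂ) (ξ : ι → ℂ)
    (i : Fin k) (s : Fin k → ι) (m : ι) : mono_ctr T ξ i (Function.update s i m) = mono_ctr T ξ i s := by
  simp [mono_ctr]

theorem mono_ctr_swap {k : ℕ} {ι : Type} [Fintype ι] (T : (Fin k → ι) → ℂ)
    (alt : ∀ s i j, i ≠ j → T (s ∘ Equiv.swap i j) = -T s) (ξ : ι → ℂ) {i j : Fin k}
    (hij : i ≠ j) (s : Fin k → ι) : mono_ctr T ξ i (s ∘ Equiv.swap i j) = -mono_ctr T ξ j s := by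
  unfold mono_ctr hdot
  rw [← Finset.sum_neg_distrib]
  refine Finset.sum_congr rfl fun m _ => ?_
  have : Function.update (s ∘ Equiv.swap i j) i m = (Function.update s j m) ∘ Equiv.swap i j := by
    funext l
    by_cases hl : l = i
    · subst hl
      simp
    · rw [Function.update_of_ne hl]
      simp only [Function.comp_apply]
      rw [Function.update_of_ne]
      intro h
      apply hl
      have := congrArg (Equiv.swap i j) h
      simpa using this
  simp only [this, alt _ i j hij]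
  ring

theorem mono_sum_ctr_sq {k : ℕ} {ι : Type} [Fintype ι] (T : (Fin k → ι) → ℂ)
    (alt : ∀ s i j, i ≠ j → T (s ∘ Equiv.swap i j) = -T s) (ξ : ι → ℂ) (i j : Fin k) :
    ∑ s : Fin k → ι, ‖mono_ctr T ξ i s‖ ^ 2 = ∑ s : Fin k → ι, ‖mono_ctr T ξ j s‖ ^ 2 := by
  by_cases hij : i = j
  · rw [hij]
  let e : (Fin k → ι) ≃ (Fin k → ι) :=
    { toFun := fun s => s ∘ Equiv.swap i j
      invFun := fun s => s ∘ Equiv.swap i j
      left_inv := fun s => by funext l; simp
      right_inv := fun s => by funext l; simp }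
  symm
  refine Fintype.sum_equiv e _ _ fun s => ?_
  change _ = ‖mono_ctr T ξ i (s ∘ Equiv.swap i j)‖ ^ 2
  rw [mono_ctr_swap T alt ξ hij, norm_neg]

theorem mono_ctr_ctr {k : ℕ} {ι : Type} [Fintype ι] (T : (Fin k → ι) → ℂ)
    (alt : ∀ s i j, i ≠ j → T (s ∘ Equiv.swap i j) = -T s) (ξ : ι → ℂ) {i j : Fin k}
    (hij : i ≠ j) (s : Fin k → ι) :
    ∑ m, conj (ξ m) * mono_ctr T ξ j (Function.update s i m) = 0 := by
  have key : ∀ a b, T (Function.update (Function.update s i a) j b) =
      -T (Function.update (Function.update s i b) j a) := by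
    intro a b
    rw [← alt _ i j hij]
    congr 1
    funext l
    by_cases hl : l = i
    · subst hl
      simp [Function.update_of_ne hij]
    · by_cases hl' : l = j
      · subst hl'
        simp [Function.update_of_ne hij]
      · simp [Function.update_of_ne hl, Function.update_of_ne hl',
          Equiv.swap_apply_of_ne_of_ne hl hl']
  set X : ℂ := ∑ m, conj (ξ m) * mono_ctr T ξ j (Function.update s i m) with hX
  have h1 : X = ∑ a, ∑ b, conj (ξ a) * conj (ξ b) *
      T (Function.update (Function.update s i a) j b) := by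
    rw [hX]
    refine Finset.sum_congr rfl fun a _ => ?_
    unfold mono_ctr hdot
    rw [Finset.mul_sum]
    refine Finset.sum_congr rfl fun b _ => ?_
    ring
  have h2 : X = -X := by
    conv_rhs => rw [h1, Finset.sum_comm]
    rw [h1, ← Finset.sum_neg_distrib]
    refine Finset.sum_congr rfl fun a _ => ?_
    rw [← Finset.sum_neg_distrib]
    refine Finset.sum_congr rfl fun b _ => ?_
    rw [key a b]
    ring
  have h3 : (2 : ℂ) * X = 0 := by linear_combination h2
  simpa using h3

theorem mono_ofReal_nsq {κ : Type} [Fintype κ] (v : κ → ℂ) : (nsq v : ℂ) = ∑ i, conj (v i) * v i := by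
  unfold nsq
  push_cast
  refine Finset.sum_congr rfl fun i _ => ?_
  rw [Complex.conj_mul']

/-- Contraction inequality for alternating tensors. -/
theorem tensor_ineq {k : ℕ} {ι : Type} [Fintype ι] (T : (Fin k → ι) → ℂ)
    (alt : ∀ s i j, i ≠ j → T (s ∘ Equiv.swap i j) = -T s) (ξ : ι → ℂ) (i₀ : Fin k) :
    k * ∑ s : Fin k → ι, ‖hdot ξ fun m => T (Function.update s i₀ m)‖ ^ 2 ≤
      nsq ξ * ∑ s : Fin k → ι, nsq fun m => T (Function.update s i₀ m) := by
  classical
  rw [sum_nsq_update]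
  change k * ∑ s : Fin k → ι, ‖mono_ctr T ξ i₀ s‖ ^ 2 ≤ _
  set B : ℝ := ∑ s : Fin k → ι, ‖mono_ctr T ξ i₀ s‖ ^ 2 with hB
  set N : ℝ := (Fintype.card ι : ℝ) with hN
  set u : ℝ := nsq ξ with hu
  set A : ℝ := ∑ s : Fin k → ι, ‖T s‖ ^ 2 with hA
  -- the vectors P i
  set P : Fin k → (Fin k → ι) → ℂ := fun i s => ξ (s i) * mono_ctr T ξ i s with hP
  have hBi : ∀ i, ∑ s : Fin k → ι, conj (mono_ctr T ξ i s) * mono_ctr T ξ i s = (B : ℂ) := by
    intro i
    rw [hB, ← mono_sum_ctr_sq T alt ξ i i₀]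
    push_cast
    refine Finset.sum_congr rfl fun s _ => ?_
    rw [Complex.conj_mul']
  have hPT : ∀ i, (N : ℂ) * ∑ s, conj (P i s) * T s = (B : ℂ) := by
    intro i
    have := mono_sum_sum_update (fun s => conj (P i s) * T s) i
    rw [nsmul_eq_mul] at this
    rw [hN]
    push_cast
    rw [← this, ← hBi i]
    refine Finset.sum_congr rfl fun s _ => ?_
    simp only [hP, mono_ctr_update, Function.update_self, map_mul]
    have hc : mono_ctr T ξ i s = ∑ m, conj (ξ m) * T (Function.update s i m) := rfl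
    calc _ = conj (mono_ctr T ξ i s) * ∑ m, conj (ξ m) * T (Function.update s i m) := by
          rw [Finset.mul_sum]
          refine Finset.sum_congr rfl fun m _ => ?_
          ring
      _ = _ := by rw [← hc]
  have hPP : ∀ i j, (N : ℂ) * ∑ s, conj (P i s) * P j s = if i = j then (u * B : ℂ) else 0 := by
    intro i j
    have := mono_sum_sum_update (fun s => conj (P i s) * P j s) i
    rw [nsmul_eq_mul] at this
    rw [hN]
    push_cast
    rw [← this]
    split_ifs with hij
    · subst hij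
      rw [← hBi i, Finset.mul_sum]
      refine Finset.sum_congr rfl fun s _ => ?_
      simp only [hP, mono_ctr_update, Function.update_self, map_mul]
      rw [hu, mono_ofReal_nsq, Finset.sum_mul]
      refine Finset.sum_congr rfl fun m _ => ?_
      ring
    · refine Finset.sum_eq_zero fun s _ => ?_
      simp only [hP, mono_ctr_update, Function.update_self, map_mul,
        Function.update_of_ne (Ne.symm hij)]
      have := mono_ctr_ctr T alt ξ hij s
      calc _ = conj (mono_ctr T ξ i s) * ξ (s j) *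
          ∑ m, conj (ξ m) * mono_ctr T ξ j (Function.update s i m) := by
            rw [Finset.mul_sum]
            refine Finset.sum_congr rfl fun m _ => ?_
            ring
        _ = 0 := by rw [this, mul_zero]
  have hTP : ∀ i, (N : ℂ) * ∑ s, conj (T s) * P i s = (B : ℂ) := by
    intro i
    have := congrArg conj (hPT i)
    simp only [map_mul, map_sum, Complex.conj_ofReal, Complex.conj_conj] at this
    rw [← this]
    congr 1
    refine Finset.sum_congr rfl fun s _ => ?_
    ring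
  have hTT : ∑ s, conj (T s) * T s = (A : ℂ) := by
    rw [hA]
    push_cast
    refine Finset.sum_congr rfl fun s _ => ?_
    rw [Complex.conj_mul']
  -- expand the square
  have hexp : ((N * nsq (fun s => u * T s - ∑ i, P i s) : ℝ) : ℂ) =
      ((u * (u * (N * A) - k * B) : ℝ) : ℂ) := by
    push_cast
    rw [mono_ofReal_nsq]
    have e1 : ∀ s, conj ((u : ℂ) * T s - ∑ i, P i s) * ((u : ℂ) * T s - ∑ i, P i s) =
        (u : ℂ) ^ 2 * (conj (T s) * T s) - u * ∑ i, conj (T s) * P i s -
          u * ∑ i, conj (P i s) * T s + ∑ i, ∑ j, conj (P i s) * P j s := by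
      intro s
      rw [← Finset.mul_sum, ← Finset.sum_mul, ← Finset.sum_mul_sum]
      simp only [map_sub, map_mul, map_sum, Complex.conj_ofReal]
      ring
    simp only [e1]
    rw [Finset.sum_add_distrib, Finset.sum_sub_distrib, Finset.sum_sub_distrib,
      ← Finset.mul_sum, ← Finset.mul_sum, ← Finset.mul_sum, hTT]
    have e2 : (N : ℂ) * ∑ s, ∑ i, conj (T s) * P i s = k * B := by
      rw [Finset.sum_comm, Finset.mul_sum]
      simp only [hTP]
      simp
    have e3 : (N : ℂ) * ∑ s, ∑ i, conj (P i s) * T s = k * B := by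
      rw [Finset.sum_comm, Finset.mul_sum]
      simp only [hPT]
      simp
    have e4 : (N : ℂ) * ∑ s, ∑ i, ∑ j, conj (P i s) * P j s = k * (u * B) := by
      rw [Finset.sum_comm, Finset.mul_sum]
      have : ∀ i, (N : ℂ) * ∑ s, ∑ j, conj (P i s) * P j s = u * B := by
        intro i
        rw [Finset.sum_comm, Finset.mul_sum]
        simp only [hPP]
        simp
      simp only [this]
      simp
    linear_combination (-(u : ℂ)) * e2 - (u : ℂ) * e3 + e4
  have hexp' : N * nsq (fun s => u * T s - ∑ i, P i s) = u * (u * (N * A) - k * B) := by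
    exact_mod_cast hexp
  have hN0 : 0 ≤ N := by rw [hN]; positivity
  have hu0 : 0 ≤ u := nsq_nonneg ξ
  have hnn : 0 ≤ u * (u * (N * A) - k * B) := by
    rw [← hexp']
    exact mul_nonneg hN0 (nsq_nonneg _)
  rcases hu0.eq_or_lt with h0 | hpos
  · have hξ : ξ = 0 := by
      have h1 := norm_sq_le_nsq ξ
      rw [← hu, ← h0] at h1
      have : ‖ξ‖ = 0 := by nlinarith [norm_nonneg ξ]
      exact norm_eq_zero.mp this
    have hB0 : B = 0 := by
      rw [hB]
      refine Finset.sum_eq_zero fun s _ => ?_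
      simp [mono_ctr, hdot, hξ]
    rw [hB0, ← h0]
    simp
  · linarith [(mul_nonneg_iff_of_pos_left hpos).mp hnn]

/-- Mass distribution: a uniform lower density bound for a finite measure bounds the Hausdorff
dimension of the closure. -/
theorem dimH_closure_le_of_density {V : Type} [MetricSpace V] [MeasurableSpace V] [BorelSpace V]
    [SecondCountableTopology V] (μ : Measure V) [IsFiniteMeasure μ] {S : Set V} {c r₀ : ℝ}
    (hc : 0 < c) (hr₀ : 0 < r₀) {d : ℕ}
    (h : ∀ a ∈ S, ∀ r : ℝ, 0 < r → r ≤ r₀ → ENNReal.ofReal (c * r ^ d) ≤ μ (closedBall a r)) :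
    dimH (closure S) ≤ d := by
  classical
  set ρ : ℕ → ℝ := fun n => r₀ / (n + 1) with hρ
  have hρpos : ∀ n, 0 < ρ n := fun n => by rw [hρ]; positivity
  have hρle : ∀ n, ρ n ≤ r₀ := fun n => by
    rw [hρ]
    exact div_le_self hr₀.le (by linarith [Nat.cast_nonneg (α := ℝ) n])
  have hV := fun n => Vitali.exists_disjoint_subfamily_covering_enlargement_closedBall S
    (fun a => a) (fun _ => ρ n) (ρ n) (fun _ _ => le_rfl) 5 (by norm_num)
  choose u huS hdisj hcov using hV
  have hcount : ∀ n, (u n).Countable := fun n =>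
    (hdisj n).countable_of_nonempty_interior fun a _ =>
      ⟨a, mem_interior_iff_mem_nhds.mpr (closedBall_mem_nhds a (hρpos n))⟩
  have : ∀ n, Countable (u n) := fun n => (hcount n).to_subtype
  have hdiam : ∀ n (a : V), ediam (closedBall a (5 * ρ n)) ≤ ENNReal.ofReal (10 * ρ n) := by
    intro n a
    refine ediam_le fun x hx y hy => ?_
    rw [edist_dist]
    refine ENNReal.ofReal_le_ofReal ?_
    have h1 := mem_closedBall.mp hx
    have h2 := mem_closedBall.mp hy
    have h3 := dist_triangle_right x y a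
    linarith
  have htend : Tendsto (fun n => ENNReal.ofReal (10 * ρ n)) atTop (𝓝 0) := by
    rw [← ENNReal.ofReal_zero]
    refine ENNReal.tendsto_ofReal ?_
    have h1 : Tendsto (fun n : ℕ => (10 * r₀) * (1 / ((n : ℝ) + 1))) atTop (𝓝 ((10 * r₀) * 0)) :=
      tendsto_one_div_add_atTop_nhds_zero_nat.const_mul _
    rw [mul_zero] at h1
    refine h1.congr fun n => ?_
    rw [hρ]
    ring
  have hle := Measure.hausdorffMeasure_le_liminf_tsum (ι := fun n => u n) (d : ℝ) (closure S)
    (l := atTop) (fun n => ENNReal.ofReal (10 * ρ n)) htend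
    (fun n a => closedBall (a : V) (5 * ρ n)) (Eventually.of_forall fun n a => hdiam n a)
    (Eventually.of_forall fun n => by
      intro y hy
      obtain ⟨a, ha, hya⟩ := Metric.mem_closure_iff.mp hy (ρ n) (hρpos n)
      obtain ⟨b, hb, hab⟩ := hcov n a ha
      exact mem_iUnion.mpr ⟨⟨b, hb⟩, hab (mem_closedBall.mpr hya.le)⟩)
  have hbound : ∀ n, ∑' a : u n, ediam (closedBall (a : V) (5 * ρ n)) ^ (d : ℝ) ≤
      ENNReal.ofReal (10 ^ d / c) * μ univ := by
    intro n
    have h1 : ∀ a : u n, ediam (closedBall (a : V) (5 * ρ n)) ^ (d : ℝ) ≤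
        ENNReal.ofReal (10 ^ d / c) * μ (closedBall (a : V) (ρ n)) := by
      intro a
      calc _ ≤ (ENNReal.ofReal (10 * ρ n)) ^ (d : ℝ) :=
            ENNReal.rpow_le_rpow (hdiam n a) (Nat.cast_nonneg d)
        _ = ENNReal.ofReal (10 ^ d / c) * ENNReal.ofReal (c * ρ n ^ d) := by
            rw [ENNReal.rpow_natCast, ← ENNReal.ofReal_pow (by have := hρpos n; positivity),
              ← ENNReal.ofReal_mul (by positivity)]
            congr 1
            rw [mul_pow]
            field_simp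
        _ ≤ _ := by
            gcongr
            exact h a (huS n a.2) _ (hρpos n) (hρle n)
    calc _ ≤ ∑' a : u n, ENNReal.ofReal (10 ^ d / c) * μ (closedBall (a : V) (ρ n)) :=
          ENNReal.tsum_le_tsum h1
      _ = ENNReal.ofReal (10 ^ d / c) * μ (⋃ a ∈ u n, closedBall a (ρ n)) := by
          rw [ENNReal.tsum_mul_left, measure_biUnion (hcount n) (hdisj n)
            fun a _ => measurableSet_closedBall]
      _ ≤ _ := by
          gcongr
          exact subset_univ _
  have hfin : μH[(d : ℝ)] (closure S) ≠ ∞ := by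
    refine ne_top_of_le_ne_top ?_ (hle.trans (liminf_le_of_frequently_le'
      (Frequently.of_forall hbound)))
    exact ENNReal.mul_ne_top ENNReal.ofReal_ne_top (measure_ne_top _ _)
  have := dimH_le_of_hausdorffMeasure_ne_top (s := closure S) (d := (d : NNReal))
    (by simpa using hfin)
  simpa using this

/-- Cramer: expansion of a vector in the cofactor vectors. -/
theorem mono_det_smul_eq_sum_vf {k : ℕ} (g : (Fin k → ℂ) → (Fin k → ℂ)) (z v : Fin k → ℂ) :
    (jac g z).det • v = ∑ i, (fderiv ℂ g z v) i • vf g i z := by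
  have h1 : (jac g z).adjugate *ᵥ (jac g z *ᵥ v) = (jac g z).det • v := by
    rw [Matrix.mulVec_mulVec, Matrix.adjugate_mul, Matrix.smul_mulVec, Matrix.one_mulVec]
  rw [← h1, jac_mulVec]
  funext l
  simp only [Matrix.mulVec, dotProduct, Finset.sum_apply, Pi.smul_apply, vf, smul_eq_mul]
  refine Finset.sum_congr rfl fun i _ => ?_
  ring

theorem mono_norm_fderiv_le_of_max_minor {k : ℕ} {ι : Type} [Fintype ι]
    {F : (Fin k → ℂ) → (ι → ℂ)} {z : Fin k → ℂ} (hF : DifferentiableAt ℂ F z) {s : Fin k → ι}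
    (hs : minor F s z ≠ 0) (hmax : ∀ s', ‖minor F s' z‖ ≤ ‖minor F s z‖) (v : Fin k → ℂ) :
    ‖fderiv ℂ F z v‖ ≤ k * ‖fderiv ℂ (sel s ∘ F) z v‖ := by
  have h1 := mono_det_smul_eq_sum_vf (sel s ∘ F) z v
  rw [det_jac_sel hF] at h1
  have h2 := congrArg (fderiv ℂ F z) h1
  rw [map_smul, map_sum] at h2
  have hpos : 0 < ‖minor F s z‖ := norm_pos_iff.mpr hs
  refine (pi_norm_le_iff_of_nonneg (by positivity)).mpr fun m => ?_
  have h3 := congrFun h2 m
  simp only [Pi.smul_apply, Finset.sum_apply, map_smul, smul_eq_mul, fderiv_vf_sel hF] at h3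
  have h4 : ‖minor F s z‖ * ‖fderiv ℂ F z v m‖ ≤
      ‖minor F s z‖ * (k * ‖fderiv ℂ (sel s ∘ F) z v‖) := by
    rw [← norm_mul, h3]
    calc _ ≤ ∑ i, ‖fderiv ℂ (sel s ∘ F) z v i * minor F (Function.update s i m) z‖ :=
          norm_sum_le _ _
      _ ≤ ∑ _i : Fin k, ‖fderiv ℂ (sel s ∘ F) z v‖ * ‖minor F s z‖ := by
          refine Finset.sum_le_sum fun i _ => ?_
          rw [norm_mul]
          exact mul_le_mul (norm_le_pi_norm _ i) (hmax _) (norm_nonneg _) (norm_nonneg _)
      _ = _ := by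
          simp
          ring
  exact le_of_mul_le_mul_left h4 hpos

theorem mono_exists_norm_le_fderiv {k : ℕ} {g : (Fin k → ℂ) → (Fin k → ℂ)} {z : Fin k → ℂ}
    (hdet : (jac g z).det ≠ 0) : ∃ C : ℝ, 0 < C ∧ ∀ v, ‖v‖ ≤ C * ‖fderiv ℂ g z v‖ := by
  have hpos : 0 < ‖(jac g z).det‖ := norm_pos_iff.mpr hdet
  refine ⟨(1 + ∑ i, ‖vf g i z‖) / ‖(jac g z).det‖, by positivity, fun v => ?_⟩
  have h1 := congrArg norm (mono_det_smul_eq_sum_vf g z v)
  rw [norm_smul] at h1
  have h2 : ‖∑ i, (fderiv ℂ g z v) i • vf g i z‖ ≤ (∑ i, ‖vf g i z‖) * ‖fderiv ℂ g z v‖ := by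
    refine (norm_sum_le _ _).trans ?_
    rw [Finset.sum_mul]
    refine Finset.sum_le_sum fun i _ => ?_
    rw [norm_smul, mul_comm]
    exact mul_le_mul_of_nonneg_left (norm_le_pi_norm _ i) (norm_nonneg _)
  rw [div_mul_eq_mul_div, le_div_iff₀ hpos]
  nlinarith [norm_nonneg (fderiv ℂ g z v)]

theorem mono_eventually_norm_sub_le {k : ℕ} {ι : Type} [Fintype ι]
    {F : (Fin k → ℂ) → (ι → ℂ)} {z₀ : Fin k → ℂ} (hF : DifferentiableAt ℂ F z₀) {s : Fin k → ι}
    (hs : minor F s z₀ ≠ 0) (hmax : ∀ s', ‖minor F s' z₀‖ ≤ ‖minor F s z₀‖) :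
    ∀ᶠ z in 𝓝 z₀, ‖F z - F z₀‖ ≤ (k + 1) * ‖(sel s ∘ F) z - (sel s ∘ F) z₀‖ := by
  set g := sel s ∘ F with hg
  have hgd : DifferentiableAt ℂ g z₀ := (sel s).differentiableAt.comp z₀ hF
  obtain ⟨C, hC, hCv⟩ := mono_exists_norm_le_fderiv (g := g) (z := z₀) (by rwa [hg, det_jac_sel hF])
  have hk : (0 : ℝ) ≤ k := Nat.cast_nonneg k
  set ε : ℝ := 1 / (2 * C * (k + 1)) with hε
  have hεpos : 0 < ε := by positivity
  have h1 := hF.hasFDerivAt.isLittleO.bound hεpos
  have h2 := hgd.hasFDerivAt.isLittleO.bound hεpos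
  filter_upwards [h1, h2] with z hz1 hz2
  set v := z - z₀
  set a := ‖F z - F z₀‖
  set b := ‖g z - g z₀‖
  have e1 : a ≤ ‖fderiv ℂ F z₀ v‖ + ε * ‖v‖ := by
    have := norm_add_le (F z - F z₀ - fderiv ℂ F z₀ v) (fderiv ℂ F z₀ v)
    rw [sub_add_cancel] at this
    linarith
  have e2 : ‖fderiv ℂ g z₀ v‖ ≤ b + ε * ‖v‖ := by
    have := norm_sub_le (g z - g z₀) (g z - g z₀ - fderiv ℂ g z₀ v)
    rw [sub_sub_cancel] at this
    linarith
  have e3 := mono_norm_fderiv_le_of_max_minor hF hs hmax v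
  have e4 := hCv v
  rw [← hg] at e3
  have hεC : ε * C * (k + 1) = 1 / 2 := by
    rw [hε]
    field_simp
  have hεC' : ε * C ≤ 1 / 2 := by nlinarith [mul_pos hεpos hC]
  have hv0 := norm_nonneg v
  have hb0 : 0 ≤ b := norm_nonneg _
  have e5 : ‖v‖ ≤ 2 * C * b := by
    have : ‖v‖ ≤ C * b + (ε * C) * ‖v‖ := by nlinarith
    nlinarith
  have e6 : a ≤ k * b + (k + 1) * (ε * ‖v‖) := by nlinarith
  have e7 : (k + 1) * (ε * ‖v‖) ≤ b := by
    calc (k + 1) * (ε * ‖v‖) ≤ (k + 1) * (ε * (2 * C * b)) := by gcongr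
      _ = 2 * (ε * C * (k + 1)) * b := by ring
      _ = b := by rw [hεC]; ring
  linarith

/-- Small scale lower bound at an immersed point. -/
theorem exists_small_density (k : ℕ) (ι : Type) [Fintype ι] :
    ∃ c : ℝ, 0 < c ∧ ∀ (F : (Fin k → ℂ) → (ι → ℂ)) (z₀ : Fin k → ℂ), AnalyticAt ℂ F z₀ →
      (∃ s, minor F s z₀ ≠ 0) → ∀ W ∈ 𝓝 z₀, ∀ᶠ r in 𝓝[>] (0 : ℝ),
        ENNReal.ofReal (c * r ^ (2 * k)) ≤
          ∫⁻ z in W ∩ F ⁻¹' closedBall (F z₀) r, ENNReal.ofReal (vol F z) := by
  classical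
  have hb0 : volume (ball (0 : Fin k → ℂ) 1) ≠ 0 := (measure_ball_pos _ _ one_pos).ne'
  have hbt : volume (ball (0 : Fin k → ℂ) 1) ≠ ∞ := measure_ball_lt_top.ne
  have hβ : 0 < (volume (ball (0 : Fin k → ℂ) 1)).toReal := ENNReal.toReal_pos hb0 hbt
  refine ⟨(volume (ball (0 : Fin k → ℂ) 1)).toReal / ((k : ℝ) + 1) ^ (2 * k), by positivity, ?_⟩
  rintro F z₀ hF ⟨s₀, hs₀⟩ W hW
  obtain ⟨s, -, hmax⟩ := Finset.exists_max_image (Finset.univ : Finset (Fin k → ι))
    (fun s => ‖minor F s z₀‖) ⟨s₀, Finset.mem_univ _⟩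
  have hmax' : ∀ s', ‖minor F s' z₀‖ ≤ ‖minor F s z₀‖ := fun s' => hmax s' (Finset.mem_univ _)
  have hs : minor F s z₀ ≠ 0 := by
    have := hmax' s₀
    have h0 : 0 < ‖minor F s₀ z₀‖ := norm_pos_iff.mpr hs₀
    exact norm_pos_iff.mp (h0.trans_le this)
  set g := sel s ∘ F with hg
  have hev := mono_eventually_norm_sub_le hF.differentiableAt hs hmax'
  rw [← hg] at hev
  obtain ⟨O, hOsub, hOo, hO⟩ := _root_.mem_nhds_iff.mp
    (inter_mem hW (inter_mem hev hF.eventually_analyticAt))
  have hFO : AnalyticOnNhd ℂ F O := fun z hz => (hOsub hz).2.2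
  have hgO : AnalyticOnNhd ℂ g O := fun z hz => ((sel s).analyticAt _).comp (hFO z hz)
  have him : g '' O ∈ 𝓝 (g z₀) := image_mem_nhds_of_det_ne_zero (hgO z₀ hO)
    (by rwa [hg, det_jac_sel hF.differentiableAt]) (hOo.mem_nhds hO)
  obtain ⟨ρ, hρ, hρsub⟩ := Metric.mem_nhds_iff.mp him
  have hk : (0 : ℝ) < (k : ℝ) + 1 := by positivity
  filter_upwards [Ioo_mem_nhdsGT hρ] with r hr
  set S := O ∩ F ⁻¹' closedBall (F z₀) r with hS
  have hSm : MeasurableSet S := by
    have h1 : IsOpen (O ∩ F ⁻¹' (closedBall (F z₀) r)ᶜ) :=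
      hFO.continuousOn.isOpen_inter_preimage hOo isClosed_closedBall.isOpen_compl
    have h2 : S = O \ (O ∩ F ⁻¹' (closedBall (F z₀) r)ᶜ) := by
      ext z
      simp only [hS, mem_inter_iff, mem_preimage, Set.mem_sdiff, mem_compl_iff]
      tauto
    rw [h2]
    exact hOo.measurableSet.diff h1.measurableSet
  have hsub : closedBall (g z₀) (r / (k + 1)) ⊆ g '' S := by
    intro w hw
    have hw' := mem_closedBall.mp hw
    have hlt : r / (k + 1) < ρ :=
      (div_le_self hr.1.le (by linarith [Nat.cast_nonneg (α := ℝ) k])).trans_lt hr.2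
    obtain ⟨z, hz, rfl⟩ := hρsub (mem_ball.mpr (hw'.trans_lt hlt))
    refine ⟨z, ⟨hz, ?_⟩, rfl⟩
    have h1 : ‖F z - F z₀‖ ≤ (k + 1) * ‖g z - g z₀‖ := (hOsub hz).2.1
    rw [dist_eq_norm, le_div_iff₀ hk] at hw'
    rw [mem_preimage, mem_closedBall, dist_eq_norm]
    linarith
  have hfr : Module.finrank ℝ (Fin k → ℂ) = 2 * k := by
    rw [Module.finrank_pi_fintype]
    simp [mul_comm]
  calc _ = volume (closedBall (g z₀) (r / (k + 1))) := by
        rw [Measure.addHaar_closedBall _ _ (div_pos hr.1 hk).le, hfr]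
        conv_rhs => rw [← ENNReal.ofReal_toReal hbt]
        rw [← ENNReal.ofReal_mul (pow_pos (div_pos hr.1 hk) _).le]
        congr 1
        rw [div_pow]
        ring
    _ ≤ volume (g '' S) := measure_mono hsub
    _ ≤ ∫⁻ z in S, ENNReal.ofReal (‖(jac g z).det‖ ^ 2) :=
        volume_image_le hSm (hgO.mono inter_subset_left)
    _ ≤ ∫⁻ z in S, ENNReal.ofReal (vol F z) := by
        refine setLIntegral_mono' hSm fun z hz => ENNReal.ofReal_le_ofReal ?_
        rw [hg, det_jac_sel (hFO z hz.1).differentiableAt]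
        exact Finset.single_le_sum (f := fun s => ‖minor F s z‖ ^ 2)
          (fun _ _ => by positivity) (Finset.mem_univ s)
    _ ≤ _ := lintegral_mono_set (inter_subset_inter_left _ fun z hz => (hOsub hz).1)

/-- The radial profile used in the monotonicity argument. -/
theorem mono_exists_profile {k : ℕ} (hk : 0 < k) {τ t : ℝ} (hτ : 0 < τ) (ht : 0 < t) :
    ∃ (p φ : ℝ → ℝ) (M : ℝ), 0 ≤ M ∧ ContDiff ℝ 1 p ∧ (∀ x, HasDerivAt p (φ x) x) ∧
      (∀ x, φ x ≤ 0) ∧ (∀ x, t ≤ x → p x = 0 ∧ φ x = 0) ∧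
      (∀ x ∈ Icc 0 t, |p x| ≤ M ∧ |φ x| ≤ M) ∧
      (∀ x ∈ Icc 0 t, τ / (x + τ) ^ (k + 1) - (k + 1) / t ^ k ≤ p x + x * φ x / k) := by
  obtain ⟨n, rfl⟩ : ∃ n, k = n + 1 := ⟨k - 1, by omega⟩
  set cl : ℝ → ℝ := fun x => max 0 (min x t) with hcl
  have hcl0 : ∀ x, 0 ≤ cl x := fun x => le_max_left _ _
  have hclt : ∀ x, cl x ≤ t := fun x => max_le ht.le (min_le_right _ _)
  have hclid : ∀ x ∈ Icc 0 t, cl x = x := fun x hx => by
    simp only [hcl]
    rw [min_eq_left hx.2, max_eq_right hx.1]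
  have hclc : Continuous cl := continuous_const.max (continuous_id.min continuous_const)
  set K : ℝ := ((n + 1 : ℕ) : ℝ) with hK
  have hKpos : 0 < K := by rw [hK]; positivity
  set φ : ℝ → ℝ := fun x => K / (t + τ) ^ (n + 2) - K / (cl x + τ) ^ (n + 2) with hφ
  have hφc : Continuous φ := by
    refine continuous_const.sub (continuous_const.div ((hclc.add continuous_const).pow _) ?_)
    intro x
    have := hcl0 x
    positivity
  have hφt : ∀ x, t ≤ x → φ x = 0 := fun x hx => by
    simp only [hφ, hcl]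
    rw [min_eq_right hx, max_eq_right ht.le, sub_self]
  set p : ℝ → ℝ := fun u => ∫ x in t..u, φ x with hp
  have hder : ∀ x, HasDerivAt p (φ x) x := fun x => (hφc.integral_hasStrictDerivAt t x).hasDerivAt
  have hpc : ContDiff ℝ 1 p := by
    rw [contDiff_one_iff_deriv]
    refine ⟨fun x => (hder x).differentiableAt, ?_⟩
    have : deriv p = φ := funext fun x => (hder x).deriv
    rwa [this]
  obtain ⟨M₁, hM₁⟩ := isCompact_Icc.exists_bound_of_continuousOn
    (hpc.continuous.continuousOn (s := Icc 0 t))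
  obtain ⟨M₂, hM₂⟩ := isCompact_Icc.exists_bound_of_continuousOn
    (hφc.continuousOn (s := Icc 0 t))
  refine ⟨p, φ, max 0 (max M₁ M₂), le_max_left _ _, hpc, hder, fun x => ?_, fun x hx => ⟨?_, hφt x hx⟩,
    fun x hx => ⟨?_, ?_⟩, fun x hx => ?_⟩
  · simp only [hφ]
    have h0 := hcl0 x
    have h1 := hclt x
    have : K / (t + τ) ^ (n + 2) ≤ K / (cl x + τ) ^ (n + 2) := by gcongr
    linarith
  · simp only [hp]
    rw [intervalIntegral.integral_congr (g := fun _ => 0)]
    · simp
    · intro y hy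
      rw [uIcc_of_le hx] at hy
      exact hφt y hy.1
  · exact (hM₁ x hx).trans ((le_max_left _ _).trans (le_max_right _ _))
  · exact (hM₂ x hx).trans ((le_max_right _ _).trans (le_max_right _ _))
  · have hP : ∀ y ∈ uIcc t x, HasDerivAt
        (fun y => ((y + τ) ^ (n + 1))⁻¹ + K / (t + τ) ^ (n + 2) * y) (φ y) y := by
      intro y hy
      rw [uIcc_of_ge hx.2] at hy
      have hy' : y ∈ Icc 0 t := ⟨hx.1.trans hy.1, hy.2⟩
      have hyτ : 0 < y + τ := by linarith [hy'.1]
      have h1 : HasDerivAt (fun y => (y + τ) ^ (n + 1)) (K * (y + τ) ^ n) y := by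
        have := ((hasDerivAt_id' y).add_const τ).fun_pow (n + 1)
        rw [mul_one, Nat.add_sub_cancel] at this
        exact this
      have h2 := (h1.inv (pow_pos hyτ _).ne').add
        ((hasDerivAt_id y).const_mul (K / (t + τ) ^ (n + 2)))
      have h3 : -(K * (y + τ) ^ n) / ((y + τ) ^ (n + 1)) ^ 2 + K / (t + τ) ^ (n + 2) * 1 = φ y := by
        simp only [hφ, hclid y hy']
        field_simp
        ring
      rw [h3] at h2
      exact h2
    have hpx : p x = (((x + τ) ^ (n + 1))⁻¹ + K / (t + τ) ^ (n + 2) * x) -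
        (((t + τ) ^ (n + 1))⁻¹ + K / (t + τ) ^ (n + 2) * t) :=
      intervalIntegral.integral_eq_sub_of_hasDerivAt hP (hφc.intervalIntegrable _ _)
    have hxτ : 0 < x + τ := by linarith [hx.1]
    have htτ : 0 < t + τ := by linarith
    have hφx : φ x = K / (t + τ) ^ (n + 2) - K / (x + τ) ^ (n + 2) := by
      simp only [hφ, hclid x hx]
    have e1 : ((x + τ) ^ (n + 1))⁻¹ - x * (K / (x + τ) ^ (n + 2)) / K =
        τ / (x + τ) ^ (n + 1 + 1) := by
      field_simp
      ring
    have e2 : ((t + τ) ^ (n + 1))⁻¹ ≤ 1 / t ^ (n + 1) := by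
      rw [← one_div]
      gcongr
      linarith
    have e3 : K / (t + τ) ^ (n + 2) * t ≤ K / t ^ (n + 1) := by
      calc K / (t + τ) ^ (n + 2) * t ≤ K / t ^ (n + 2) * t := by
            gcongr
            linarith
        _ = K / t ^ (n + 1) := by
            field_simp
            ring
    have e4 : 0 ≤ K / (t + τ) ^ (n + 2) * x := by
      have := hx.1
      positivity
    have e5 : 0 ≤ x * (K / (t + τ) ^ (n + 2)) / K := by
      have := hx.1
      positivity
    have e6 : (K + 1) / t ^ (n + 1) = K / t ^ (n + 1) + 1 / t ^ (n + 1) := by ring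
    rw [hpx, hφx, mul_sub, sub_div, e6, ← e1]
    linarith

theorem mono_minor_comp_swap {k : ℕ} {ι : Type} [Fintype ι] (F : (Fin k → ℂ) → (ι → ℂ))
    (z : Fin k → ℂ) (s : Fin k → ι) (i j : Fin k) (hij : i ≠ j) :
    minor F (s ∘ Equiv.swap i j) z = -minor F s z := by
  have h := Matrix.det_permute (Equiv.swap i j) ((jac F z).submatrix s id)
  rw [Equiv.Perm.sign_swap hij] at h
  unfold minor
  rw [Matrix.submatrix_submatrix] at h
  simpa using h

theorem mono_measurableSet_inter_preimage_closedBall {k : ℕ} {ι : Type} [Fintype ι]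
    {W : Set (Fin k → ℂ)} {F : (Fin k → ℂ) → (ι → ℂ)} (hW : IsOpen W) (hF : ContinuousOn F W)
    (y : ι → ℂ) (r : ℝ) : MeasurableSet (W ∩ F ⁻¹' closedBall y r) := by
  have h1 : IsOpen (W ∩ F ⁻¹' (closedBall y r)ᶜ) :=
    hF.isOpen_inter_preimage hW isClosed_closedBall.isOpen_compl
  have h2 : W ∩ F ⁻¹' closedBall y r = W \ (W ∩ F ⁻¹' (closedBall y r)ᶜ) := by
    ext z
    simp only [mem_inter_iff, mem_preimage, Set.mem_sdiff, mem_compl_iff]
    tauto
  rw [h2]
  exact hW.measurableSet.diff h1.measurableSet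

/-- The integrated identity given by the Stokes formula for one cofactor field. -/
theorem mono_stokes_profile {k : ℕ} {ι : Type} [Fintype ι] {W : Set (Fin k → ℂ)}
    {F : (Fin k → ℂ) → (ι → ℂ)} {𝒦 : Set (Fin k → ℂ) → Prop} (hW : IsOpen W)
    (hF : AnalyticOnNhd ℂ F W) (s : Fin k → ι) (i₀ : Fin k)
    (hSt : Stokes W (vf (sel s ∘ F) i₀) 𝒦) (hmono : ∀ S T, T ⊆ S → 𝒦 S → 𝒦 T)
    (y : ι → ℂ) {r : ℝ} (hr : 0 < r) (hK : 𝒦 (W ∩ F ⁻¹' closedBall y r))
    (hint : IntegrableOn (vol F) (W ∩ F ⁻¹' closedBall y r))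
    {p φ : ℝ → ℝ} {M : ℝ} (hM0 : 0 ≤ M) (hp : ContDiff ℝ 1 p) (hder : ∀ x, HasDerivAt p (φ x) x)
    (hzero : ∀ x, r ^ 2 ≤ x → p x = 0 ∧ φ x = 0)
    (hM : ∀ x ∈ Icc 0 (r ^ 2), |p x| ≤ M ∧ |φ x| ≤ M) :
    IntegrableOn (fun z => φ (nsq (F z - y)) *
        ‖hdot (F z - y) fun m => minor F (Function.update s i₀ m) z‖ ^ 2 +
        p (nsq (F z - y)) * nsq fun m => minor F (Function.update s i₀ m) z) W ∧
      ∫ z in W, (φ (nsq (F z - y)) *
        ‖hdot (F z - y) fun m => minor F (Function.update s i₀ m) z‖ ^ 2 +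
        p (nsq (F z - y)) * nsq fun m => minor F (Function.update s i₀ m) z) = 0 := by
  classical
  set S := W ∩ F ⁻¹' closedBall y r with hS
  have hSm : MeasurableSet S := mono_measurableSet_inter_preimage_closedBall hW hF.continuousOn y r
  set h : (Fin k → ℂ) → (ι → ℂ) := fun z => F z - y with hh
  set c := vf (sel s ∘ F) i₀ with hc
  have hhA : AnalyticOnNhd ℂ h W := fun z hz => (hF z hz).sub analyticAt_const
  have hcA : AnalyticOnNhd ℂ c W := fun z hz =>
    analyticAt_vf (((sel s).analyticAt _).comp (hF z hz)) i₀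
  have hX : ∀ z ∈ W, fderiv ℂ h z (c z) = fun m => minor F (Function.update s i₀ m) z := by
    intro z hz
    funext m
    rw [hh, fderiv_sub_const, hc, fderiv_vf_sel (hF z hz).differentiableAt]
  set b : (Fin k → ℂ) → ℂ := fun z => hdot (h z) (fderiv ℂ h z (c z)) with hb
  set a : (Fin k → ℂ) → ℂ := fun z => (p (nsq (h z)) : ℂ) * conj (b z) with ha
  set D : (Fin k → ℂ) → ℝ := fun z => φ (nsq (F z - y)) *
        ‖hdot (F z - y) fun m => minor F (Function.update s i₀ m) z‖ ^ 2 +
        p (nsq (F z - y)) * nsq fun m => minor F (Function.update s i₀ m) z with hD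
  have hu1 : ∀ z ∈ W, ContDiffAt ℝ 1 (fun z => nsq (h z)) z := fun z hz =>
    (contDiffAt_nsq (hhA z hz)).of_le (by exact_mod_cast le_top)
  have hpu1 : ∀ z ∈ W, ContDiffAt ℝ 1 (fun z => (p (nsq (h z)) : ℂ)) z := fun z hz =>
    ofRealCLM.contDiff.contDiffAt.comp z (hp.contDiffAt.comp z (hu1 z hz))
  have hb1 : ∀ z ∈ W, ContDiffAt ℝ 1 (fun z => conj (b z)) z := fun z hz =>
    (contDiffAt_conj_hdot (hhA z hz) (hcA z hz)).of_le (by exact_mod_cast le_top)
  have ha1 : ContDiffOn ℝ 1 a W := fun z hz => ((hpu1 z hz).mul (hb1 z hz)).contDiffWithinAt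
  have hdz : ∀ z ∈ W, dz a z (c z) = (D z : ℂ) := by
    intro z hz
    rw [ha, dz_mul ((hpu1 z hz).differentiableAt one_ne_zero)
      ((hb1 z hz).differentiableAt one_ne_zero),
      dz_comp_real (hder _) ((hu1 z hz).differentiableAt one_ne_zero), dz_nsq (hhA z hz),
      dz_conj_hdot (hhA z hz) (hcA z hz)]
    simp only [hD, hb, hX z hz]
    push_cast
    rw [mul_assoc, Complex.mul_conj']
  have hmem : ∀ z ∈ W, nsq (h z) ≤ r ^ 2 → z ∈ S := by
    intro z hz hle
    refine ⟨hz, ?_⟩
    rw [mem_preimage, mem_closedBall, dist_eq_norm]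
    have h1 := (norm_sq_le_nsq (h z)).trans hle
    exact (pow_le_pow_iff_left₀ (norm_nonneg _) hr.le two_ne_zero).mp h1
  set N : ℝ := (Fintype.card ι : ℝ) with hN
  have hN0 : 0 ≤ N := by rw [hN]; positivity
  have hXle : ∀ z, nsq (fun m => minor F (Function.update s i₀ m) z) ≤ N * vol F z := by
    intro z
    have h1 := sum_nsq_update (fun s => minor F s z) i₀
    have h2 : nsq (fun m => minor F (Function.update s i₀ m) z) ≤
        ∑ s : Fin k → ι, (nsq fun m => minor F (Function.update s i₀ m) z) :=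
      Finset.single_le_sum (f := fun s => nsq fun m => minor F (Function.update s i₀ m) z)
        (fun _ _ => nsq_nonneg _) (Finset.mem_univ s)
    rw [h1] at h2
    exact h2
  have hind : ∀ C : ℝ, IntegrableOn (fun z => C * S.indicator (vol F) z) W := fun C =>
    (((integrable_indicator_iff hSm).mpr hint).const_mul C).integrableOn
  have hbsq : ∀ z ∈ W, nsq (h z) ≤ r ^ 2 → ‖b z‖ ^ 2 ≤ r ^ 2 * (N * vol F z) := by
    intro z hz hle
    simp only [hb, hX z hz]
    exact (norm_hdot_sq_le _ _).trans (mul_le_mul hle (hXle z) (nsq_nonneg _) (by positivity))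
  have ha2 : IntegrableOn (fun z => ‖a z‖ ^ 2) W := by
    refine Integrable.mono' (hind (M ^ 2 * r ^ 2 * N))
      ((ha1.continuousOn.norm.pow 2).aestronglyMeasurable hW.measurableSet) ?_
    filter_upwards [ae_restrict_mem hW.measurableSet] with z hz
    rw [Real.norm_of_nonneg (by positivity)]
    rcases le_total (nsq (h z)) (r ^ 2) with hle | hle
    · rw [indicator_of_mem (hmem z hz hle)]
      simp only [ha, norm_mul, Complex.norm_real, Complex.norm_conj, mul_pow]
      have h1 : ‖p (nsq (h z))‖ ^ 2 ≤ M ^ 2 :=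
        pow_le_pow_left₀ (norm_nonneg _) (hM _ ⟨nsq_nonneg _, hle⟩).1 2
      calc _ ≤ M ^ 2 * (r ^ 2 * (N * vol F z)) :=
            mul_le_mul h1 (hbsq z hz hle) (by positivity) (by positivity)
        _ = _ := by ring
    · simp only [ha, (hzero _ hle).1]
      have := indicator_nonneg (s := S) (fun z _ => vol_nonneg F z) z
      simp only [Complex.ofReal_zero, zero_mul, norm_zero, ne_eq, OfNat.ofNat_ne_zero,
        not_false_eq_true, zero_pow]
      positivity
  have ha3 : IntegrableOn (fun z => dz a z (c z)) W := by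
    refine Integrable.mono' (hind (M * (r ^ 2 + 1) * N))
      ((continuousOn_dz hW ha1 hcA.continuousOn).aestronglyMeasurable hW.measurableSet) ?_
    filter_upwards [ae_restrict_mem hW.measurableSet] with z hz
    rw [hdz z hz, Complex.norm_real]
    rcases le_total (nsq (h z)) (r ^ 2) with hle | hle
    · rw [indicator_of_mem (hmem z hz hle)]
      have h1 := hbsq z hz hle
      simp only [hb, hX z hz] at h1
      have h2 := hM _ ⟨nsq_nonneg _, hle⟩
      have h3 := hXle z
      have h4 := nsq_nonneg (fun m => minor F (Function.update s i₀ m) z)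
      simp only [hD]
      refine (norm_add_le _ _).trans ?_
      rw [norm_mul, norm_mul, Real.norm_of_nonneg (sq_nonneg _), Real.norm_of_nonneg h4]
      calc _ ≤ M * (r ^ 2 * (N * vol F z)) + M * (N * vol F z) :=
            add_le_add (mul_le_mul h2.2 h1 (by positivity) hM0) (mul_le_mul h2.1 h3 h4 hM0)
        _ = _ := by ring
    · have hle' : r ^ 2 ≤ nsq (F z - y) := hle
      simp only [hD, (hzero _ hle').1, (hzero _ hle').2]
      have := indicator_nonneg (s := S) (fun z _ => vol_nonneg F z) z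
      simp only [zero_mul, add_zero, norm_zero]
      positivity
  have hsupp : 𝒦 {z ∈ W | a z ≠ 0} := by
    refine hmono _ _ (fun z hz => ?_) hK
    refine hmem z hz.1 (le_of_not_ge fun hle => hz.2 ?_)
    simp only [ha, (hzero _ hle).1]
    simp
  have hst := hSt a ha1 hsupp ha2 ha3
  rw [setIntegral_congr_fun hW.measurableSet hdz, integral_complex_ofReal] at hst
  refine ⟨?_, by exact_mod_cast hst⟩
  have h5 := (ha3.congr_fun hdz hW.measurableSet).re
  have h6 : Integrable (fun x => D x) (volume.restrict W) := by simpa using h5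
  exact h6

/-- Lower bound for the volume in balls. -/
theorem exists_density_lower (k : ℕ) (hk : 0 < k) (ι : Type) [Fintype ι] :
    ∃ c : ℝ, 0 < c ∧ ∀ (W : Set (Fin k → ℂ)) (F : (Fin k → ℂ) → (ι → ℂ))
      (𝒦 : Set (Fin k → ℂ) → Prop), IsOpen W → AnalyticOnNhd ℂ F W →
      (∀ s i₀, Stokes W (vf (sel s ∘ F) i₀) 𝒦) → (∀ S T, T ⊆ S → 𝒦 S → 𝒦 T) →
      ∀ z₀ ∈ W, (∃ s, minor F s z₀ ≠ 0) → ∀ r : ℝ, 0 < r →
        𝒦 (W ∩ F ⁻¹' closedBall (F z₀) r) →
        IntegrableOn (vol F) (W ∩ F ⁻¹' closedBall (F z₀) r) →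
        ENNReal.ofReal (c * r ^ (2 * k)) ≤
          ∫⁻ z in W ∩ F ⁻¹' closedBall (F z₀) r, ENNReal.ofReal (vol F z) := by
  classical
  obtain ⟨c₀, hc₀, hsmall⟩ := exists_small_density k ι
  set N : ℝ := (Fintype.card ι : ℝ) with hN
  have hN0 : 0 ≤ N := by rw [hN]; positivity
  refine ⟨c₀ / (2 ^ (k + 1) * (k + 1) * (N + 1) ^ k), by positivity, ?_⟩
  intro W F 𝒦 hW hF hSt hmono z₀ hz₀ himm r hr hK hint
  set i₀ : Fin k := ⟨0, hk⟩
  have hNpos : 0 < N := by
    obtain ⟨s, -⟩ := himm
    have : Nonempty ι := ⟨s i₀⟩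
    rw [hN]
    exact_mod_cast Fintype.card_pos
  have hev := hsmall F z₀ (hF z₀ hz₀) himm W (hW.mem_nhds hz₀)
  obtain ⟨ρ, hρs, hρ⟩ := (hev.and (Ioo_mem_nhdsGT (show 0 < r / (N + 1) by positivity))).exists
  have hρ0 : 0 < ρ := hρ.1
  have hρr : ρ * (N + 1) ≤ r := by
    have := hρ.2
    rw [lt_div_iff₀ (by positivity)] at this
    exact this.le
  have hρr' : ρ ≤ r := by nlinarith
  set τ : ℝ := (N + 1) * ρ ^ 2 with hτ
  have hτpos : 0 < τ := by positivity
  have hτt : τ ≤ r ^ 2 := by
    rw [hτ]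
    nlinarith
  obtain ⟨p, φ, M, hM0, hp, hder, hφ, hzero, hM, hlow⟩ :=
    mono_exists_profile hk hτpos (show 0 < r ^ 2 by positivity)
  set y := F z₀ with hy
  set S := W ∩ F ⁻¹' closedBall y r with hS
  set S' := W ∩ F ⁻¹' closedBall y ρ with hS'
  have hSm : MeasurableSet S := mono_measurableSet_inter_preimage_closedBall hW hF.continuousOn y r
  have hSm' : MeasurableSet S' := mono_measurableSet_inter_preimage_closedBall hW hF.continuousOn y ρ
  have hsub : S' ⊆ S :=
    inter_subset_inter_right _ (preimage_mono (closedBall_subset_closedBall hρr'))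
  have hint' : IntegrableOn (vol F) S' := hint.mono_set hsub
  have hst := fun s => mono_stokes_profile hW hF s i₀ (hSt s i₀) hmono y hr hK hint hM0 hp hder hzero hM
  set D : (Fin k → ι) → (Fin k → ℂ) → ℝ := fun s z => φ (nsq (F z - y)) *
        ‖hdot (F z - y) fun m => minor F (Function.update s i₀ m) z‖ ^ 2 +
        p (nsq (F z - y)) * nsq fun m => minor F (Function.update s i₀ m) z with hD
  have hsum : ∫ z in W, ∑ s, D s z = 0 := by
    rw [integral_finsetSum _ fun s _ => (hst s).1]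
    exact Finset.sum_eq_zero fun s _ => (hst s).2
  set α : ℝ := 1 / (2 ^ (k + 1) * τ ^ k) with hα
  set β : ℝ := (k + 1) / (r ^ 2) ^ k with hβ
  have hαpos : 0 < α := by positivity
  have hβpos : 0 < β := by positivity
  have hkR : (0 : ℝ) < k := by exact_mod_cast hk
  have hpt : ∀ z ∈ W, N * (α * S'.indicator (vol F) z - β * S.indicator (vol F) z) ≤
      ∑ s, D s z := by
    intro z hz
    have hv := vol_nonneg F z
    have hu0 := nsq_nonneg (F z - y)
    have hS'u : z ∈ S' → nsq (F z - y) ≤ τ := by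
      intro hz'
      have h1 : ‖F z - y‖ ≤ ρ := by
        have := hz'.2
        rwa [mem_preimage, mem_closedBall, dist_eq_norm] at this
      have h2 := nsq_le_card_mul (F z - y)
      have h3 : ‖F z - y‖ ^ 2 ≤ ρ ^ 2 := pow_le_pow_left₀ (norm_nonneg _) h1 2
      rw [← hN] at h2
      rw [hτ]
      nlinarith
    rcases le_or_gt (nsq (F z - y)) (r ^ 2) with hle | hlt
    · have hzS : z ∈ S := by
        refine ⟨hz, ?_⟩
        rw [mem_preimage, mem_closedBall, dist_eq_norm]
        have h1 := (norm_sq_le_nsq (F z - y)).trans hle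
        exact (pow_le_pow_iff_left₀ (norm_nonneg _) hr.le two_ne_zero).mp h1
      rw [indicator_of_mem hzS]
      have hT := tensor_ineq (fun s => minor F s z) (mono_minor_comp_swap F z) (F z - y) i₀
      have hU := sum_nsq_update (fun s => minor F s z) i₀
      rw [hU] at hT
      simp only [hD]
      rw [Finset.sum_add_distrib, ← Finset.mul_sum, ← Finset.mul_sum, hU]
      set u := nsq (F z - y) with hu
      set B := ∑ s : Fin k → ι, ‖hdot (F z - y) fun m => minor F (Function.update s i₀ m) z‖ ^ 2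
      change _ ≤ u * (N * vol F z) at hT
      change _ ≤ φ u * B + p u * (N * vol F z)
      have hB : B ≤ u * (N * vol F z) / k := by
        rw [le_div_iff₀ hkR]
        linarith
      have h1 : φ u * (u * (N * vol F z) / k) ≤ φ u * B := mul_le_mul_of_nonpos_left hB (hφ u)
      have h2 := hlow u ⟨hu0, hle⟩
      have h3 : α * S'.indicator (vol F) z ≤ τ / (u + τ) ^ (k + 1) * vol F z := by
        by_cases hz' : z ∈ S'
        · rw [indicator_of_mem hz']
          refine mul_le_mul_of_nonneg_right ?_ hv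
          have h4 := hS'u hz'
          calc α = τ / (2 * τ) ^ (k + 1) := by
                rw [hα, mul_pow 2 τ, pow_succ τ k]
                field_simp
            _ ≤ _ := by
                gcongr
                linarith
        · rw [indicator_of_notMem hz', mul_zero]
          positivity
      have h5 : (τ / (u + τ) ^ (k + 1) - β) * (N * vol F z) ≤
          (p u + u * φ u / k) * (N * vol F z) := mul_le_mul_of_nonneg_right h2 (by positivity)
      have h6 := mul_le_mul_of_nonneg_left h3 hN0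
      calc _ ≤ (τ / (u + τ) ^ (k + 1) - β) * (N * vol F z) := by linarith
        _ ≤ _ := h5
        _ = φ u * (u * (N * vol F z) / k) + p u * (N * vol F z) := by ring
        _ ≤ _ := by linarith
    · have hz' : z ∉ S' := fun hz' => by linarith [hS'u hz']
      rw [indicator_of_notMem hz']
      simp only [hD, (hzero _ hlt.le).1, (hzero _ hlt.le).2]
      have := indicator_nonneg (s := S) (fun z _ => vol_nonneg F z) z
      simp only [zero_mul, add_zero, Finset.sum_const_zero, mul_zero, zero_sub]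
      exact mul_nonpos_of_nonneg_of_nonpos hN0 (neg_nonpos.mpr (by positivity))
  have hi1 : Integrable (S'.indicator (vol F)) := (integrable_indicator_iff hSm').mpr hint'
  have hi2 : Integrable (S.indicator (vol F)) := (integrable_indicator_iff hSm).mpr hint
  have hle : ∫ z in W, N * (α * S'.indicator (vol F) z - β * S.indicator (vol F) z) ≤
      ∫ z in W, ∑ s, D s z :=
    setIntegral_mono_on (((hi1.const_mul α).sub (hi2.const_mul β)).const_mul N).integrableOn
      (integrable_finsetSum _ fun s _ => (hst s).1) hW.measurableSet hpt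
  rw [hsum, integral_const_mul, integral_sub (hi1.const_mul α).integrableOn
    (hi2.const_mul β).integrableOn, integral_const_mul, integral_const_mul,
    setIntegral_indicator hSm', setIntegral_indicator hSm,
    inter_eq_right.mpr (show S' ⊆ W from inter_subset_left),
    inter_eq_right.mpr (show S ⊆ W from inter_subset_left)] at hle
  have hle2 : α * ∫ z in S', vol F z ≤ β * ∫ z in S, vol F z := by
    by_contra hcon
    push Not at hcon
    nlinarith
  rw [← ofReal_integral_eq_lintegral_ofReal hint' (Eventually.of_forall (vol_nonneg F)),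
    ENNReal.ofReal_le_ofReal_iff (integral_nonneg (vol_nonneg F))] at hρs
  rw [← ofReal_integral_eq_lintegral_ofReal hint (Eventually.of_forall (vol_nonneg F))]
  refine ENNReal.ofReal_le_ofReal ?_
  have h7 : α * (c₀ * ρ ^ (2 * k)) ≤ β * ∫ z in S, vol F z :=
    (mul_le_mul_of_nonneg_left hρs hαpos.le).trans hle2
  have h8 : β * (c₀ / (2 ^ (k + 1) * (k + 1) * (N + 1) ^ k) * r ^ (2 * k)) =
      α * (c₀ * ρ ^ (2 * k)) := by
    rw [hα, hβ, hτ, pow_mul r, pow_mul ρ, mul_pow]
    field_simp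
  rw [← h8] at h7
  exact le_of_mul_le_mul_left h7 hβpos

end Pool.Agent.Lib.MP_940f24_an
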