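import Pool.Agent.Lib.MP_940f24_an.Defs

/-!
Generic planes and spheres avoid a compact set of small Hausdorff dimension.
-/

open Set Filter Topology MeasureTheory Metric Complex
open scoped ENNReal

namespace Pool.Agent.Lib.MP_940f24_an

/-- The pairs `(B, ρ)` such that the plane `z = B ζ` does not meet `S` on `‖ζ‖ = ρ`. -/
def goodPlanes {d N : ℕ} (S : Set ((Fin d → ℂ) × (Fin N → ℂ))) :
    Set (((Fin N → ℂ) →L[ℂ] (Fin d → ℂ)) × ℝ) :=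
  {p | 0 < p.2 ∧ ∀ x ∈ S, x.1 = p.1 x.2 → ‖x.2‖ ≠ p.2}

theorem isOpen_avoid {d N : ℕ} {S : Set ((Fin d → ℂ) × (Fin N → ℂ))} (hS : IsCompact S)
    {φ : (Fin N → ℂ) → ℝ} (hφ : Continuous φ) :
    IsOpen {p : ((Fin N → ℂ) →L[ℂ] (Fin d → ℂ)) × ℝ |
      ∀ x ∈ S, x.1 = p.1 x.2 → φ x.2 ≠ p.2} := by
  rw [isOpen_iff_mem_nhds]
  intro p hp
  refine hS.eventually_forall_of_forall_eventually
    (P := fun (q : ((Fin N → ℂ) →L[ℂ] (Fin d → ℂ)) × ℝ) (x : (Fin d → ℂ) × (Fin N → ℂ)) =>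
      x.1 = q.1 x.2 → φ x.2 ≠ q.2) ?_
  intro x hx
  have h1 : Continuous fun z : (((Fin N → ℂ) →L[ℂ] (Fin d → ℂ)) × ℝ) ×
      ((Fin d → ℂ) × (Fin N → ℂ)) => z.1.1 z.2.2 := by fun_prop
  have h2 : IsOpen {z : (((Fin N → ℂ) →L[ℂ] (Fin d → ℂ)) × ℝ) ×
      ((Fin d → ℂ) × (Fin N → ℂ)) | z.2.1 ≠ z.1.1 z.2.2} :=
    isOpen_ne_fun (by fun_prop) h1
  have h3 : IsOpen {z : (((Fin N → ℂ) →L[ℂ] (Fin d → ℂ)) × ℝ) ×
      ((Fin d → ℂ) × (Fin N → ℂ)) | φ z.2.2 ≠ z.1.2} :=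
    isOpen_ne_fun (by fun_prop) (by fun_prop)
  by_cases he : x.1 = p.1 x.2
  · filter_upwards [h3.mem_nhds (hp x hx he)] with z hz _ using hz
  · filter_upwards [h2.mem_nhds he] with z hz h using absurd h hz

theorem isOpen_goodPlanes {d N : ℕ} {S : Set ((Fin d → ℂ) × (Fin N → ℂ))} (hS : IsCompact S) :
    IsOpen (goodPlanes S) :=
  (isOpen_lt continuous_const continuous_snd).inter (isOpen_avoid hS continuous_norm)

theorem dense_avoid_coord {d N : ℕ} {S : Set ((Fin d → ℂ) × (Fin N → ℂ))}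
    (hdim : dimH S ≤ 2 * (d : ℝ≥0∞)) (m : Fin N) :
    Dense {p : ((Fin N → ℂ) →L[ℂ] (Fin d → ℂ)) × ℝ |
      ∀ x ∈ S, x.1 = p.1 x.2 → ‖x.2 m‖ ≠ p.2} := by
  rw [dense_iff_inter_open]
  rintro O hO ⟨⟨B, ρ⟩, hp⟩
  let φ : (Fin d → ℂ) × (Fin N → ℂ) → (Fin d → ℂ) × ℝ :=
    fun x => ((x.2 m)⁻¹ • (x.1 - B x.2), ‖x.2 m‖)
  have hT : dimH (φ '' (S ∩ {x | x.2 m ≠ 0})) ≤ 2 * (d : ℝ≥0∞) := by
    refine le_trans (dimH_image_le_of_locally_lipschitzOn ?_)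
      (le_trans (dimH_mono inter_subset_left) hdim)
    rintro x ⟨-, hx⟩
    have hx' : x.2 m ≠ 0 := hx
    have hc : ContDiffAt ℝ 1 φ x := by
      have hm : ContDiffAt ℝ 1 (fun y : (Fin d → ℂ) × (Fin N → ℂ) => y.2 m) x := by fun_prop
      have hB : ContDiffAt ℝ 1 (fun y : (Fin d → ℂ) × (Fin N → ℂ) => B y.2) x :=
        ((B.restrictScalars ℝ).contDiff.contDiffAt).comp x contDiffAt_snd
      exact ((hm.inv hx').smul (contDiffAt_fst.sub hB)).prodMk (hm.norm ℂ hx')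
    obtain ⟨K, t, ht, hK⟩ := hc.exists_lipschitzOnWith
    exact ⟨K, t, mem_nhdsWithin_of_mem_nhds ht, hK⟩
  have hrank : Module.finrank ℝ ((Fin d → ℂ) × ℝ) = 2 * d + 1 := by
    rw [Module.finrank_prod, Module.finrank_self, Module.finrank_pi_fintype]
    simp [Complex.finrank_real_complex, mul_comm]
  have hdense : Dense (φ '' (S ∩ {x | x.2 m ≠ 0}))ᶜ := by
    refine dense_compl_of_dimH_lt_finrank (lt_of_le_of_lt hT ?_)
    rw [hrank]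
    exact_mod_cast Nat.lt_succ_self (2 * d)
  let g : (Fin d → ℂ) × ℝ → ((Fin N → ℂ) →L[ℂ] (Fin d → ℂ)) × ℝ :=
    fun y => (B + (ContinuousLinearMap.proj m : (Fin N → ℂ) →L[ℂ] ℂ).smulRight y.1, y.2)
  have hg : Continuous g := by
    refine Continuous.prodMk (continuous_const.add ?_) continuous_snd
    exact ((ContinuousLinearMap.smulRightL ℂ (Fin N → ℂ) (Fin d → ℂ)
      (ContinuousLinearMap.proj m)).continuous).comp continuous_fst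
  have hO' : IsOpen (g ⁻¹' O) := hO.preimage hg
  have hmem : ((0 : Fin d → ℂ), ρ) ∈ g ⁻¹' O := by
    have : g (0, ρ) = (B, ρ) := by
      simp only [g, Prod.mk.injEq, and_true]
      ext v i
      simp
    simpa [this] using hp
  have hne : Dense {y : (Fin d → ℂ) × ℝ | y.2 ≠ 0} :=
    (dense_compl_singleton (0 : ℝ)).preimage isOpenMap_snd
  have hO'' : IsOpen (g ⁻¹' O ∩ {y : (Fin d → ℂ) × ℝ | y.2 ≠ 0}) :=
    hO'.inter (isOpen_ne_fun continuous_snd continuous_const)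
  obtain ⟨y, ⟨hyO, hy0⟩, hyT⟩ :=
    hdense.inter_open_nonempty _ hO'' (hne.inter_open_nonempty _ hO' ⟨_, hmem⟩)
  refine ⟨g y, hyO, ?_⟩
  intro x hx he hn
  have hn' : ‖x.2 m‖ = y.2 := hn
  have hx0 : x.2 m ≠ 0 := by
    intro h0
    apply hy0
    rw [← hn', h0, norm_zero]
  apply hyT
  refine ⟨x, ⟨hx, hx0⟩, Prod.ext ?_ hn'⟩
  have he' : x.1 = B x.2 + x.2 m • y.1 := he
  simp only [φ]
  rw [he', add_sub_cancel_left, smul_smul, inv_mul_cancel₀ hx0, one_smul]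

theorem subset_closure_goodPlanes {d N : ℕ} {S : Set ((Fin d → ℂ) × (Fin N → ℂ))}
    (hS : IsCompact S) (hdim : dimH S ≤ 2 * (d : ℝ≥0∞)) :
    {p | 0 < p.2} ⊆ closure (goodPlanes S) := by
  have hd : Dense (⋂ m : Fin N, {p : ((Fin N → ℂ) →L[ℂ] (Fin d → ℂ)) × ℝ |
      ∀ x ∈ S, x.1 = p.1 x.2 → ‖x.2 m‖ ≠ p.2}) :=
    dense_iInter_of_isOpen
      (fun m => isOpen_avoid hS (φ := fun v => ‖v m‖) (by fun_prop))
      (fun m => dense_avoid_coord hdim m)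
  have ho : IsOpen {p : ((Fin N → ℂ) →L[ℂ] (Fin d → ℂ)) × ℝ | 0 < p.2} :=
    isOpen_lt continuous_const continuous_snd
  refine (hd.open_subset_closure_inter ho).trans (closure_mono ?_)
  rintro p ⟨hp, hall⟩
  refine ⟨hp, fun x hx he hn => ?_⟩
  have hp' : 0 < p.2 := hp
  have hex : ∃ m, ‖x.2 m‖ = p.2 := by
    by_contra hcon
    have hlt : ‖x.2‖ < p.2 := by
      rw [pi_norm_lt_iff hp']
      intro m
      refine lt_of_le_of_ne (hn ▸ norm_le_pi_norm x.2 m) ?_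
      exact fun h => hcon ⟨m, h⟩
    exact absurd hn hlt.ne
  obtain ⟨m, hm⟩ := hex
  exact (mem_iInter.1 hall m) x hx he hm

/-- For an open interval of radii, the planes that admit a good radius in it are open and
dense. -/
theorem isOpen_dense_goodPlanes_radius {d N : ℕ} {S : Set ((Fin d → ℂ) × (Fin N → ℂ))}
    (hS : IsCompact S) (hdim : dimH S ≤ 2 * (d : ℝ≥0∞)) {r₁ r₂ : ℝ} (h₁ : 0 ≤ r₁)
    (h₂ : r₁ < r₂) :
    IsOpen {B | ∃ ρ ∈ Ioo r₁ r₂, (B, ρ) ∈ goodPlanes S} ∧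
      Dense {B | ∃ ρ ∈ Ioo r₁ r₂, (B, ρ) ∈ goodPlanes S} := by
  constructor
  · have he : {B | ∃ ρ ∈ Ioo r₁ r₂, (B, ρ) ∈ goodPlanes S} =
        Prod.fst '' (goodPlanes S ∩ univ ×ˢ Ioo r₁ r₂) := by
      ext B
      constructor
      · rintro ⟨ρ, h1, h2⟩
        exact ⟨(B, ρ), ⟨h2, mem_univ _, h1⟩, rfl⟩
      · rintro ⟨⟨B', ρ⟩, ⟨h2, -, h1⟩, rfl⟩
        exact ⟨ρ, h1, h2⟩
    rw [he]
    exact isOpenMap_fst _ ((isOpen_goodPlanes hS).inter (isOpen_univ.prod isOpen_Ioo))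
  · rw [dense_iff_inter_open]
    rintro O hO ⟨B, hB⟩
    have hm : (r₁ + r₂) / 2 ∈ Ioo r₁ r₂ := ⟨by linarith, by linarith⟩
    have hcl : (B, (r₁ + r₂) / 2) ∈ closure (goodPlanes S) :=
      subset_closure_goodPlanes hS hdim (show 0 < (r₁ + r₂) / 2 by linarith)
    obtain ⟨⟨B', ρ⟩, ⟨h1, h2⟩, h3⟩ :=
      mem_closure_iff.1 hcl (O ×ˢ Ioo r₁ r₂) (hO.prod isOpen_Ioo) ⟨hB, hm⟩
    exact ⟨B', h1, ρ, h2, h3⟩

end Pool.Agent.Lib.MP_940f24_an
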