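import Pool.Agent.Lib.MP_940f24_an.VField

/-!
Weyl lemma for the Cauchy-Riemann system.
-/

open Set Filter Topology MeasureTheory Metric Complex
open scoped ContDiff ComplexConjugate Convolution

namespace Pool.Agent.Lib.MP_940f24_an

/-- A real linear form which commutes with `I` on the basis vectors is complex linear. -/
theorem weyl_exists_complex_linear {k : ℕ} (D : (Fin k → ℂ) →L[ℝ] ℂ)
    (hD : ∀ i, D (I • (Pi.single i 1 : Fin k → ℂ)) = I * D (Pi.single i 1)) :
    ∃ D' : (Fin k → ℂ) →L[ℂ] ℂ, D'.restrictScalars ℝ = D := by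
  refine ⟨∑ i, (ContinuousLinearMap.proj i : (Fin k → ℂ) →L[ℂ] ℂ).smulRight
    (D (Pi.single i 1)), ?_⟩
  ext1 v
  have hv : v = ∑ i, ((v i).re • (Pi.single i 1 : Fin k → ℂ) +
      (v i).im • (I • (Pi.single i 1 : Fin k → ℂ))) := by
    funext j
    rw [Finset.sum_apply, Finset.sum_eq_single j]
    · simp
    · intro b _ hb
      simp [Pi.single_eq_of_ne (Ne.symm hb)]
    · simp
  have h2 : D v = ∑ i, v i * D (Pi.single i 1) := by
    conv_lhs => rw [hv]
    rw [map_sum]
    refine Finset.sum_congr rfl fun i _ => ?_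
    rw [map_add, map_smul, map_smul, hD i, real_smul, real_smul]
    conv_rhs => rw [← re_add_im (v i)]
    ring
  rw [h2]
  simp

/-- Convolution with a test function is holomorphic where the hypothesis applies. -/
theorem weyl_differentiableAt {k : ℕ} {Φ : (Fin k → ℂ) → ℂ} (hΦ : Integrable Φ)
    {c : Fin k → ℂ} {r : ℝ}
    (h : ∀ η : (Fin k → ℂ) → ℂ, ContDiff ℝ ∞ η → HasCompactSupport η → tsupport η ⊆ ball c r →
      ∀ i, ∫ w, conj (Φ w) * dz η w (Pi.single i 1) = 0)
    {g : (Fin k → ℂ) → ℂ} (hg : ContDiff ℝ ∞ g) (hc : HasCompactSupport g) (y : Fin k → ℂ)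
    {S : Set (Fin k → ℂ)} (hS : IsClosed S) (hSr : S ⊆ ball c r)
    (h0 : ∀ t, t ∉ S → g (y - t) = 0) :
    DifferentiableAt ℂ (Φ ⋆[ContinuousLinearMap.mul ℝ ℂ, volume] g) y := by
  have hg1 : ContDiff ℝ 1 g := hg.of_le (by exact_mod_cast le_top)
  have hder := hc.hasFDerivAt_convolution_right (ContinuousLinearMap.mul ℝ ℂ)
    hΦ.locallyIntegrable hg1 y
  set D := (Φ ⋆[(ContinuousLinearMap.mul ℝ ℂ).precompR (Fin k → ℂ), volume] fderiv ℝ g) y with hD
  have hcont : Continuous (fderiv ℝ g) := hg1.continuous_fderiv one_ne_zero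
  have hDv : ∀ v, D v = ∫ t, Φ t * fderiv ℝ g (y - t) v := by
    intro v
    rw [hD, convolution_precompR_apply _ hΦ.locallyIntegrable (hc.fderiv ℝ) hcont, convolution_def]
    rfl
  have hint : ∀ v, Integrable (fun t => Φ t * fderiv ℝ g (y - t) v) := by
    intro v
    have h1 : Continuous (fun x => fderiv ℝ g x v) := by fun_prop
    have h2 : HasCompactSupport (fun x => fderiv ℝ g x v) := hc.fderiv_apply ℝ v
    exact h2.convolutionExists_right (ContinuousLinearMap.mul ℝ ℂ) hΦ.locallyIntegrable h1 y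
  -- the test function
  set η : (Fin k → ℂ) → ℂ := fun t => conj (g (y - t)) with hη
  have hηs : ContDiff ℝ ∞ η := by
    have : ContDiff ℝ ∞ (fun t : Fin k → ℂ => g (y - t)) := hg.comp (by fun_prop)
    exact Complex.conjCLE.contDiff.comp this
  have hηsupp : tsupport η ⊆ S := by
    refine closure_minimal ?_ hS
    intro t ht
    by_contra hn
    exact ht (by simp [hη, h0 t hn])
  have hηc : HasCompactSupport η :=
    (isCompact_closedBall c r).of_isClosed_subset (isClosed_tsupport η)
      (hηsupp.trans (hSr.trans ball_subset_closedBall))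
  have hηd : ∀ t v, fderiv ℝ η t v = - conj (fderiv ℝ g (y - t) v) := by
    intro t v
    have h1 : HasFDerivAt (fun t : Fin k → ℂ => y - t)
        (-ContinuousLinearMap.id ℝ (Fin k → ℂ)) t := by
      simpa using (hasFDerivAt_id (𝕜 := ℝ) t).const_sub y
    have h2 : HasFDerivAt g (fderiv ℝ g (y - t)) (y - t) :=
      (hg1.differentiable one_ne_zero _).hasFDerivAt
    have h3 := (Complex.conjCLE.toContinuousLinearMap.hasFDerivAt).comp t (h2.comp t h1)
    have h4 : fderiv ℝ η t = _ := h3.fderiv
    rw [h4]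
    simp
  obtain ⟨D', hD'⟩ := weyl_exists_complex_linear D (by
    intro i
    have h1 := h η hηs hηc (hηsupp.trans hSr) i
    have h2 : ∀ w, conj (Φ w) * dz η w (Pi.single i 1) =
        conj ((-(I / 2)) * (Φ w * fderiv ℝ g (y - w) (I • (Pi.single i 1 : Fin k → ℂ)) -
          I * (Φ w * fderiv ℝ g (y - w) (Pi.single i 1)))) := by
      intro w
      rw [dz, hηd, hηd]
      simp only [map_mul, map_sub, map_neg, map_div₀, conj_I, map_ofNat]
      linear_combination
        (-(1 / 2 : ℂ) * conj (Φ w) * conj (fderiv ℝ g (y - w) (Pi.single i 1))) * I_mul_I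
    simp_rw [h2] at h1
    rw [integral_conj, map_eq_zero, integral_const_mul,
      integral_sub (hint _) ((hint _).const_mul I), integral_const_mul, ← hDv, ← hDv] at h1
    have h3 : (-(I / 2) : ℂ) ≠ 0 := by simp
    exact sub_eq_zero.mp ((mul_eq_zero.mp h1).resolve_left h3))
  exact (hasFDerivAt_of_restrictScalars ℝ hder hD').differentiableAt

theorem weyl_integral_rotate {k : ℕ} (s : ℂ) (hs : ‖s‖ = 1) (F : (Fin k → ℂ) → ℂ) :
    ∫ y, F (s • y) = ∫ y, F y := by
  let a : Circle := ⟨s, by simpa [Submonoid.unitSphere] using hs⟩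
  have h1 : MeasurePreserving (rotation a) (volume : Measure ℂ) volume :=
    (rotation a).measurePreserving
  have h2 : MeasurePreserving (fun (y : Fin k → ℂ) (i : Fin k) => rotation a (y i))
      volume volume :=
    measurePreserving_pi (fun _ => volume) (fun _ => volume) (fun _ => h1)
  have hs0 : s ≠ 0 := by
    rintro rfl
    simp at hs
  have h3 : MeasurableEmbedding (fun y : Fin k → ℂ => s • y) :=
    (Homeomorph.smulOfNeZero s hs0).measurableEmbedding
  exact MeasurePreserving.integral_comp (f := fun y : Fin k → ℂ => s • y) h2 h3 F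

/-- Mean value property against a circle invariant weight. -/
theorem weyl_mean_value {k : ℕ} {K ρ : (Fin k → ℂ) → ℂ} {R : ℝ} (hK : Continuous K)
    (hKd : ∀ y ∈ ball (0 : Fin k → ℂ) R, DifferentiableAt ℂ K y) (hρ : Continuous ρ)
    (hρc : HasCompactSupport ρ) (hρR : ∀ y, ρ y ≠ 0 → ‖y‖ < R)
    (hinv : ∀ s : ℂ, ‖s‖ = 1 → ∀ y, ρ (s • y) = ρ y) :
    ∫ y, ρ y * K y = (∫ y, ρ y) * K 0 := by
  obtain ⟨M, hM⟩ := (isCompact_closedBall (0 : Fin k → ℂ) R).exists_bound_of_continuousOn
    hK.continuousOn
  have hnorm : ∀ θ : ℝ, ‖circleMap 0 1 θ‖ = 1 := fun θ => by simp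
  have h1 : ∀ θ : ℝ, ∫ y, ρ y * K (circleMap 0 1 θ • y) = ∫ y, ρ y * K y := by
    intro θ
    rw [← weyl_integral_rotate (circleMap 0 1 θ) (hnorm θ) (fun y => ρ y * K y)]
    simp_rw [hinv _ (hnorm θ)]
  have hint : Integrable (Function.uncurry fun (θ : ℝ) (y : Fin k → ℂ) =>
      ρ y * K (circleMap 0 1 θ • y))
      ((volume.restrict (uIoc 0 (2 * Real.pi))).prod volume) := by
    have : IsFiniteMeasure (volume.restrict (uIoc (0 : ℝ) (2 * Real.pi))) :=
      ⟨by simp [uIoc]⟩
    have hb : Integrable (fun y => ‖ρ y‖ * M) :=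
      ((hρ.integrable_of_hasCompactSupport hρc).norm).mul_const M
    refine Integrable.mono' (hb.comp_snd _) ?_ (Eventually.of_forall ?_)
    · refine Continuous.aestronglyMeasurable ?_
      have : Continuous fun p : ℝ × (Fin k → ℂ) => circleMap 0 1 p.1 :=
        (continuous_circleMap 0 1).comp continuous_fst
      exact (hρ.comp continuous_snd).mul (hK.comp (this.smul continuous_snd))
    · rintro ⟨θ, y⟩
      simp only [Function.uncurry_apply_pair, norm_mul]
      by_cases hy : ρ y = 0
      · simp [hy]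
      · refine mul_le_mul_of_nonneg_left (hM _ ?_) (norm_nonneg _)
        rw [mem_closedBall_zero_iff, norm_smul, hnorm, one_mul]
        exact (hρR y hy).le
  have h2 := intervalIntegral_integral_swap hint
  have h3 : ∀ y, ∫ θ in (0 : ℝ)..(2 * Real.pi), ρ y * K (circleMap 0 1 θ • y) =
      (2 * Real.pi : ℝ) • (ρ y * K 0) := by
    intro y
    by_cases hy : ρ y = 0
    · simp [hy]
    · have hd : DiffContOnCl ℂ (fun t : ℂ => K (t • y)) (ball 0 |(1 : ℝ)|) := by
        refine ⟨fun t ht => ?_, (hK.comp (by fun_prop)).continuousOn⟩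
        have ht' : ‖t‖ < 1 := by simpa using ht
        have hmem : t • y ∈ ball (0 : Fin k → ℂ) R := by
          rw [mem_ball_zero_iff, norm_smul]
          have := hρR y hy
          nlinarith [norm_nonneg y, norm_nonneg t]
        exact ((hKd _ hmem).comp t (by fun_prop)).differentiableWithinAt
      have h4 := hd.circleAverage
      rw [Real.circleAverage_def] at h4
      rw [intervalIntegral.integral_const_mul]
      have hpi : (2 * Real.pi : ℝ) ≠ 0 := by positivity
      have h5 : ∫ θ in (0 : ℝ)..(2 * Real.pi), K (circleMap 0 1 θ • y) =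
          (2 * Real.pi : ℝ) • K 0 := by
        rw [zero_smul] at h4
        rw [← h4, smul_smul, mul_inv_cancel₀ hpi, one_smul]
      rw [h5, mul_smul_comm]
  simp_rw [h1, h3] at h2
  rw [intervalIntegral.integral_const, integral_smul, sub_zero, integral_mul_const] at h2
  have hpi : (2 * Real.pi : ℝ) ≠ 0 := by positivity
  exact smul_right_injective ℂ hpi h2

/-- A smooth circle invariant weight with small support and integral one. -/
theorem weyl_exists_weight (k : ℕ) {δ : ℝ} (hδ : 0 < δ) :
    ∃ ρ : (Fin k → ℂ) → ℂ, ContDiff ℝ ∞ ρ ∧ HasCompactSupport ρ ∧ (∀ y, ρ y ≠ 0 → ‖y‖ < δ) ∧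
      (∀ s : ℂ, ‖s‖ = 1 → ∀ y, ρ (s • y) = ρ y) ∧ ∫ y, ρ y = 1 := by
  let β : (Fin k → ℂ) → ℝ := fun y => expNegInvGlue (δ ^ 2 - ∑ i, ‖y i‖ ^ 2)
  have hβs : ContDiff ℝ ∞ β := by
    refine expNegInvGlue.contDiff.comp (contDiff_const.sub (ContDiff.sum fun i _ => ?_))
    exact (contDiff_norm_sq ℝ).comp (contDiff_apply ℝ ℂ i)
  have hβδ : ∀ y, β y ≠ 0 → ‖y‖ < δ := by
    intro y hy
    have h1 : 0 < δ ^ 2 - ∑ i, ‖y i‖ ^ 2 := by
      by_contra hn
      exact hy (expNegInvGlue.zero_of_nonpos (not_lt.mp hn))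
    rw [pi_norm_lt_iff hδ]
    intro i
    have h2 : ‖y i‖ ^ 2 ≤ ∑ i, ‖y i‖ ^ 2 :=
      Finset.single_le_sum (f := fun i => ‖y i‖ ^ 2) (fun _ _ => by positivity)
        (Finset.mem_univ i)
    exact lt_of_pow_lt_pow_left₀ 2 hδ.le (by linarith)
  have hβc : HasCompactSupport β :=
    HasCompactSupport.intro (isCompact_closedBall (0 : Fin k → ℂ) δ) fun y hy => by
      by_contra hn
      exact hy (mem_closedBall_zero_iff.mpr (hβδ y hn).le)
  have hpos : 0 < ∫ y, β y := by
    refine hβs.continuous.integral_pos_of_hasCompactSupport_nonneg_nonzero (x := 0) hβc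
      (fun y => expNegInvGlue.nonneg _) (ne_of_gt (expNegInvGlue.pos_of_pos ?_))
    simp [hδ]
  refine ⟨fun y => (((∫ y, β y)⁻¹ * β y : ℝ) : ℂ), ?_, ?_, ?_, ?_, ?_⟩
  · exact Complex.ofRealCLM.contDiff.comp (contDiff_const.mul hβs)
  · refine HasCompactSupport.intro (isCompact_closedBall (0 : Fin k → ℂ) δ) fun y hy => ?_
    have : β y = 0 := by
      by_contra hn
      exact hy (mem_closedBall_zero_iff.mpr (hβδ y hn).le)
    simp [this]
  · intro y hy
    refine hβδ y fun hn => hy ?_
    simp [hn]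
  · intro s hs y
    simp [β, hs]
  · beta_reduce
    rw [integral_complex_ofReal, integral_const_mul, inv_mul_cancel₀ hpos.ne']
    simp

theorem weyl {k : ℕ} {Φ : (Fin k → ℂ) → ℂ} (hΦ : Integrable Φ) {c : Fin k → ℂ} {r : ℝ}
    (hr : 0 < r)
    (h : ∀ η : (Fin k → ℂ) → ℂ, ContDiff ℝ ∞ η → HasCompactSupport η → tsupport η ⊆ ball c r →
      ∀ i, ∫ w, conj (Φ w) * dz η w (Pi.single i 1) = 0) :
    ∃ H : (Fin k → ℂ) → ℂ, AnalyticOnNhd ℂ H (ball c (r / 2)) ∧
      ∀ᵐ w, w ∈ ball c (r / 2) → Φ w = H w := by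
  obtain ⟨ρ, hρs, hρc, hρδ, hρinv, hρ1⟩ := weyl_exists_weight k (δ := r / 4) (by positivity)
  set H := Φ ⋆[ContinuousLinearMap.mul ℝ ℂ, volume] ρ with hH
  have hHc : Continuous H :=
    hρc.continuous_convolution_right _ hΦ.locallyIntegrable hρs.continuous
  refine ⟨H, analyticOnNhd_of_differentiableOn isOpen_ball fun w hw => ?_, ?_⟩
  · refine (weyl_differentiableAt hΦ h hρs hρc w (S := closedBall w (r / 4)) isClosed_closedBall
      ?_ ?_).differentiableWithinAt
    · refine closedBall_subset_ball' ?_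
      have := mem_ball.mp hw
      linarith
    · intro t ht
      by_contra hn
      refine ht ?_
      rw [mem_closedBall, dist_comm, dist_eq_norm]
      exact (hρδ _ hn).le
  have key : ∀ᵐ w, w ∈ ball c (r / 2) → Φ w - H w = 0 := by
    refine isOpen_ball.ae_eq_zero_of_integral_contDiff_smul_eq_zero
      ((hΦ.locallyIntegrable.sub hHc.locallyIntegrable).locallyIntegrableOn _) ?_
    intro g hgs hgc hgsupp
    set η : (Fin k → ℂ) → ℂ := fun x => (g (-x) : ℂ) with hη
    have hηs : ContDiff ℝ ∞ η := Complex.ofRealCLM.contDiff.comp (hgs.comp contDiff_neg)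
    have hη0 : ∀ x, -x ∉ closedBall c (r / 2) → η x = 0 := by
      intro x hx
      have : g (-x) = 0 := by
        by_contra hn
        exact hx (ball_subset_closedBall (hgsupp (subset_tsupport g hn)))
      simp [hη, this]
    have hηc : HasCompactSupport η := by
      refine HasCompactSupport.intro (isCompact_closedBall (-c) (r / 2)) fun x hx => hη0 x ?_
      intro hn
      refine hx ?_
      rw [mem_closedBall] at hn ⊢
      rwa [← dist_neg_neg, neg_neg]
    set K := Φ ⋆[ContinuousLinearMap.mul ℝ ℂ, volume] η with hK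
    have hKc : Continuous K :=
      hηc.continuous_convolution_right _ hΦ.locallyIntegrable hηs.continuous
    have hKd : ∀ y ∈ ball (0 : Fin k → ℂ) (r / 2), DifferentiableAt ℂ K y := by
      intro y hy
      have hy' := mem_ball_zero_iff.mp hy
      refine weyl_differentiableAt hΦ h hηs hηc y (S := closedBall c (r / 2 + ‖y‖))
        isClosed_closedBall (closedBall_subset_ball (by linarith)) fun t ht => hη0 _ ?_
      intro hn
      refine ht ?_
      rw [mem_closedBall, dist_eq_norm] at hn ⊢
      have : t - c = (-(y - t) - c) + y := by abel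
      rw [this]
      exact (norm_add_le _ _).trans (by linarith)
    have hmv := weyl_mean_value (K := fun y => K (-y)) (ρ := ρ) (R := r / 2)
      (hKc.comp continuous_neg)
      (fun y hy => (hKd (-y) (by simpa using hy)).comp y (by fun_prop)) hρs.continuous hρc
      (fun y hy => (hρδ y hy).trans (by linarith)) hρinv
    rw [hρ1, one_mul, neg_zero] at hmv
    obtain ⟨M, hM⟩ := hgs.continuous.bounded_above_of_compact_support hgc
    have hgm : Continuous fun x => (g x : ℂ) := Complex.continuous_ofReal.comp hgs.continuous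
    have hint : Integrable (Function.uncurry fun (w y : Fin k → ℂ) =>
        (g w : ℂ) * (ρ y * Φ (w - y))) (volume.prod volume) := by
      have h0 : Integrable ρ := hρs.continuous.integrable_of_hasCompactSupport hρc
      have h1 := h0.convolution_integrand (ContinuousLinearMap.mul ℝ ℂ) hΦ
      refine Integrable.bdd_mul (c := M) h1 (hgm.comp continuous_fst).aestronglyMeasurable
        (Eventually.of_forall fun p => ?_)
      simpa using hM p.1
    have hswap := integral_integral_swap hint
    have hL : ∀ w, ∫ y, (g w : ℂ) * (ρ y * Φ (w - y)) = g w * H w := by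
      intro w
      rw [integral_const_mul, hH, convolution_eq_swap]
      simp [mul_comm]
    have hR : ∀ y, ∫ w, (g w : ℂ) * (ρ y * Φ (w - y)) = ρ y * K (-y) := by
      intro y
      rw [hK, convolution_def, ← integral_const_mul,
        ← integral_add_right_eq_self (fun w => (g w : ℂ) * (ρ y * Φ (w - y))) y]
      refine integral_congr_ae (Eventually.of_forall fun t => ?_)
      have : -(-y - t) = t + y := by abel
      simp only [hη, this, add_sub_cancel_right, ContinuousLinearMap.mul_apply']
      ring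
    simp_rw [hL, hR] at hswap
    have hK0 : K 0 = ∫ t, (g t : ℂ) * Φ t := by
      rw [hK, convolution_def]
      simp [hη, mul_comm]
    have hi1 : Integrable fun t => (g t : ℂ) * Φ t :=
      hΦ.bdd_mul (c := M) hgm.aestronglyMeasurable
        (Eventually.of_forall fun p => by simpa using hM p)
    have hi2 : Integrable fun t => (g t : ℂ) * H t := by
      refine (hgm.mul hHc).integrable_of_hasCompactSupport ?_
      exact (hgc.comp_left (g := fun x : ℝ => (x : ℂ)) (by simp)).mul_right
    simp_rw [real_smul, mul_sub]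
    rw [integral_sub hi1 hi2, hswap, hmv, hK0, sub_self]
  filter_upwards [key] with w hw hmem
  exact sub_eq_zero.mp (hw hmem)

end Pool.Agent.Lib.MP_940f24_an
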