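import Pool.Agent.Lib.MP_940f24_an.Mixed
import Pool.Agent.Lib.MP_940f24_an.Mono
import Pool.Agent.Lib.MP_940f24_an.Proj
import Pool.Agent.Lib.MP_940f24_an.Weyl

/-!
Analyticity of the closure of the graph over the origin.
-/

open Set Filter Topology MeasureTheory Metric Complex
open scoped ContDiff ENNReal ComplexConjugate

namespace Pool.Agent.Lib.MP_940f24_an

variable {k N : ℕ} {W I : Set (Fin k → ℂ)} {U : Set (Fin N → ℂ)}
  {f : (Fin k → ℂ) → (Fin N → ℂ)}

theorem Setup.dimH_closure_le (H : Setup W I U f) {x : Fin k ⊕ Fin N → ℂ}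
    (hx : x ∈ omega2 k U) :
    ∃ V ∈ 𝓝 x, dimH (closure (gr f '' W) ∩ V) ≤ 2 * (k : ℝ≥0∞) := by
  obtain ⟨R, hR, hsub⟩ := Metric.nhds_basis_closedBall.mem_iff.1
    ((isOpen_omega2 H.isOpen_U).mem_nhds hx)
  obtain ⟨c, hc, hden⟩ := exists_density_lower k H.pos (Fin k ⊕ Fin N)
  have hQ : IsCompact (closedBall x R) := isCompact_closedBall x R
  have hmeas := H.measurableSet hQ.isClosed
  have hvol := H.integrableOn_vol₂ hQ hsub
  set ν : Measure (Fin k → ℂ) := (volume.restrict (W ∩ gr f ⁻¹' closedBall x R)).withDensity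
    fun z => ENNReal.ofReal (vol (gr f) z) with hν
  have hae : AEMeasurable (gr f) ν :=
    ((H.analyticOnNhd_gr.continuousOn.mono inter_subset_left).aemeasurable hmeas).mono_ac
      (withDensity_absolutelyContinuous _ _)
  have hfin : IsFiniteMeasure ν := isFiniteMeasure_withDensity_ofReal hvol.2
  have hdim := dimH_closure_le_of_density (ν.map (gr f)) (S := gr f '' W ∩ ball x (R / 2))
    hc (half_pos hR) (d := 2 * k) (by
      rintro _ ⟨⟨z, hz, rfl⟩, hzx⟩ r hr hrR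
      have hball : closedBall (gr f z) r ⊆ closedBall x R :=
        closedBall_subset_closedBall' (by have := mem_ball.1 hzx; linarith)
      rw [Measure.map_apply_of_aemeasurable hae measurableSet_closedBall, hν, withDensity_apply',
        Measure.restrict_restrict' hmeas]
      refine (hden W (gr f) (Adm f (omega2 k U)) H.isOpen_W H.analyticOnNhd_gr
        (fun s i₀ => H.stokes₂ (sel s) i₀) Adm.mono z hz
        ⟨Sum.inl, by rw [minor_gr_inl (H.analytic z hz).differentiableAt]; exact one_ne_zero⟩ r hr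
        ⟨_, hQ, hsub, fun y hy => hball hy.2⟩
        (hvol.mono_set (inter_subset_inter_right _ (preimage_mono hball)))).trans ?_
      exact lintegral_mono_set fun y hy => ⟨hy.2, hy.1, hball hy.2⟩)
  refine ⟨ball x (R / 2), ball_mem_nhds _ (half_pos hR), le_trans (dimH_mono ?_)
    (hdim.trans (by push_cast; exact le_rfl))⟩
  exact isOpen_ball.closure_inter

/-- The projection along the plane `z = B ζ`. -/
noncomputable def planeProj (B : (Fin N → ℂ) →L[ℂ] (Fin k → ℂ)) :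
    (Fin k ⊕ Fin N → ℂ) →L[ℂ] (Fin k → ℂ) :=
  (ContinuousLinearMap.fst ℂ _ _ - B.comp (ContinuousLinearMap.snd ℂ _ _)).comp
    (splitEquiv k N : (Fin k ⊕ Fin N → ℂ) →L[ℂ] _)

theorem planeProj_apply (B : (Fin N → ℂ) →L[ℂ] (Fin k → ℂ)) (y : Fin k ⊕ Fin N → ℂ) :
    planeProj B y = y ∘ Sum.inl - B (y ∘ Sum.inr) := rfl

theorem isOpen_dense_det_ne_zero {z : Fin k → ℂ} (hf : AnalyticAt ℂ f z) :
    IsOpen {B : (Fin N → ℂ) →L[ℂ] (Fin k → ℂ) | (jac (planeProj B ∘ gr f) z).det ≠ 0} ∧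
      Dense {B : (Fin N → ℂ) →L[ℂ] (Fin k → ℂ) | (jac (planeProj B ∘ gr f) z).det ≠ 0} := by
  have hent : ∀ (B : (Fin N → ℂ) →L[ℂ] (Fin k → ℂ)) i l, jac (planeProj B ∘ gr f) z i l =
      (Pi.single l 1 : Fin k → ℂ) i - B (fderiv ℂ f z (Pi.single l 1)) i := fun B i l => by
    have h1 := ((planeProj B).hasFDerivAt.comp z
      (analyticAt_gr hf).differentiableAt.hasFDerivAt).fderiv
    simp only [jac, Matrix.of_apply, h1, ContinuousLinearMap.comp_apply,
      fderiv_gr hf.differentiableAt, planeProj_apply]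
    rfl
  have han : AnalyticOnNhd ℂ (fun B : (Fin N → ℂ) →L[ℂ] (Fin k → ℂ) =>
      (jac (planeProj B ∘ gr f) z).det) univ := fun B _ => by
    refine analyticAt_det fun i l => ?_
    simp only [hent]
    exact analyticAt_const.sub (((ContinuousLinearMap.proj i).comp
      (ContinuousLinearMap.apply ℂ (Fin k → ℂ) (fderiv ℂ f z (Pi.single l 1)))).analyticAt B)
  refine ⟨isOpen_ne_fun (continuousOn_univ.1 han.continuousOn) continuous_const, fun B => ?_⟩
  have h0 : ¬ (fun B : (Fin N → ℂ) →L[ℂ] (Fin k → ℂ) =>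
      (jac (planeProj B ∘ gr f) z).det) =ᶠ[𝓝 0] 0 := fun h => by
    have h1 := h.self_of_nhds
    have h2 : jac (planeProj (0 : (Fin N → ℂ) →L[ℂ] (Fin k → ℂ)) ∘ gr f) z = 1 := by
      ext i l
      rw [hent]
      simp [Matrix.one_apply, Pi.single_apply]
    simp [h2] at h1
  have h1 := not_eventuallyEq_zero_of_preconnected isPreconnected_univ han (mem_univ 0)
    (mem_univ B) univ_mem h0
  rw [EventuallyEq, not_eventually] at h1
  exact mem_closure_iff_frequently.2 h1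

/-- A projection which is proper on the closure of the graph and generically unramified. -/
theorem Setup.exists_projection (H : Setup W I U f) {x : Fin k ⊕ Fin N → ℂ}
    (hx : x ∈ omega2 k U) :
    ∃ (p : (Fin k ⊕ Fin N → ℂ) →L[ℂ] (Fin k → ℂ)) (O K : Set (Fin k ⊕ Fin N → ℂ)) (r : ℝ),
      IsOpen O ∧ x ∈ O ∧ IsCompact K ∧ K ⊆ O ∧ O ⊆ omega2 k U ∧
      0 < r ∧ (∀ y ∈ closure (gr f '' W) ∩ O, p y ∈ ball (p x) r → y ∈ K) ∧
      W ⊆ closure {z ∈ W | (jac (p ∘ gr f) z).det ≠ 0} := by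
  obtain ⟨V, hV, hdim⟩ := H.dimH_closure_le hx
  obtain ⟨R, hR, hsub⟩ := Metric.nhds_basis_closedBall.mem_iff.1
    (inter_mem hV ((isOpen_omega2 H.isOpen_U).mem_nhds hx))
  set S₀ := closure (gr f '' W) ∩ closedBall x R
  have hS₀ : IsCompact S₀ := (isCompact_closedBall x R).inter_left isClosed_closure
  let T : (Fin k ⊕ Fin N → ℂ) → (Fin k → ℂ) × (Fin N → ℂ) := fun y => splitEquiv k N (y - x)
  obtain ⟨C, hT⟩ : ∃ C, LipschitzWith C T := by
    have h1 : LipschitzWith 1 fun y : Fin k ⊕ Fin N → ℂ => y - x :=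
      LipschitzWith.of_dist_le_mul fun a b => by simp
    exact ⟨_, (splitEquiv k N).lipschitz.comp h1⟩
  have hS : IsCompact (T '' S₀) := hS₀.image hT.continuous
  have hSdim : dimH (T '' S₀) ≤ 2 * (k : ℝ≥0∞) :=
    (hT.dimH_image_le _).trans ((dimH_mono (inter_subset_inter_right _
      (hsub.trans inter_subset_left))).trans hdim)
  obtain ⟨hUo, hUd⟩ := isOpen_dense_goodPlanes_radius hS hSdim le_rfl (half_pos hR)
  obtain ⟨t, htW, htc, hWt⟩ :=
    (TopologicalSpace.IsSeparable.of_separableSpace W).exists_countable_dense_subset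
  have hd := dense_biInter_of_isOpen
    (fun z hz => (isOpen_dense_det_ne_zero (H.analytic z (htW hz))).1) htc
    (fun z hz => (isOpen_dense_det_ne_zero (H.analytic z (htW hz))).2)
  obtain ⟨B, hB1, hB2, ρ, hρ, hgood⟩ := (hd.inter_of_isOpen_right hUd hUo).inter_open_nonempty
    (ball 0 (1 / 2)) isOpen_ball (nonempty_ball.2 (by norm_num))
  rw [mem_ball_zero_iff] at hB1
  have hcinr : Continuous fun y : Fin k ⊕ Fin N → ℂ => ‖(y - x) ∘ Sum.inr‖ :=
    (continuous_comp_inr.comp (continuous_id.sub continuous_const)).norm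
  have hcp : Continuous fun y : Fin k ⊕ Fin N → ℂ => ‖planeProj B (y - x)‖ :=
    ((planeProj B).continuous.comp (continuous_id.sub continuous_const)).norm
  obtain ⟨r₀, hr₀, hlow⟩ : ∃ r₀ : ℝ, 0 < r₀ ∧
      ∀ y ∈ S₀ ∩ {y | ‖(y - x) ∘ Sum.inr‖ = ρ}, r₀ ≤ ‖planeProj B (y - x)‖ := by
    refine (hS₀.inter_right (isClosed_eq hcinr continuous_const)).exists_forall_le'
      hcp.continuousOn fun y hy => norm_pos_iff.2 fun h0 => ?_
    rw [planeProj_apply, sub_eq_zero] at h0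
    exact hgood.2 (T y) (mem_image_of_mem _ hy.1) h0 hy.2
  refine ⟨planeProj B, ball x R ∩ {y | ‖(y - x) ∘ Sum.inr‖ < ρ},
    S₀ ∩ ({y | ‖(y - x) ∘ Sum.inr‖ ≤ ρ} ∩ {y | ‖planeProj B (y - x)‖ ≤ min (r₀ / 2) (R / 4)}),
    min (r₀ / 2) (R / 4), isOpen_ball.inter (isOpen_lt hcinr continuous_const),
    ⟨mem_ball_self hR, by simpa using hρ.1⟩,
    hS₀.inter_right ((isClosed_le hcinr continuous_const).inter (isClosed_le hcp continuous_const)),
    ?_, fun y hy => (hsub (ball_subset_closedBall hy.1)).2, by positivity, ?_, ?_⟩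
  · rintro y ⟨hy1, hy2, hy3⟩
    simp only [mem_ofPred_eq] at hy2 hy3
    have h1 : ‖(y - x) ∘ Sum.inr‖ < ρ := by
      refine lt_of_le_of_ne hy2 fun h => ?_
      have := (hlow y ⟨hy1, h⟩).trans (hy3.trans (min_le_left _ _))
      linarith
    refine ⟨?_, h1⟩
    have h2 : ‖(y - x) ∘ Sum.inl‖ < R := by
      have h3 : (y - x) ∘ Sum.inl = planeProj B (y - x) + B ((y - x) ∘ Sum.inr) := by
        rw [planeProj_apply, sub_add_cancel]
      have h4 : ‖B ((y - x) ∘ Sum.inr)‖ ≤ 1 / 2 * (R / 2) :=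
        (B.le_opNorm _).trans (mul_le_mul hB1.le (h1.le.trans hρ.2.le) (norm_nonneg _)
          (by norm_num))
      have h5 := hy3.trans (min_le_right _ _)
      rw [h3]
      exact (norm_add_le _ _).trans_lt (by linarith)
    rw [mem_ball_iff_norm, pi_norm_lt_iff hR]
    rintro (l | m)
    · exact (norm_le_pi_norm ((y - x) ∘ Sum.inl) l).trans_lt h2
    · exact (norm_le_pi_norm ((y - x) ∘ Sum.inr) m).trans_lt (by linarith [hρ.2])
  · rintro y ⟨hy1, hy2, hy3⟩ hy4
    have hy5 : ‖(y - x) ∘ Sum.inr‖ < ρ := hy3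
    refine ⟨⟨hy1, ball_subset_closedBall hy2⟩, hy5.le, ?_⟩
    rw [mem_ball_iff_norm, ← map_sub] at hy4
    exact hy4.le
  · refine hWt.trans (closure_mono fun z hz => ⟨htW hz, ?_⟩)
    exact mem_iInter₂.1 hB2 z hz

section cover
variable {p : (Fin k ⊕ Fin N → ℂ) →L[ℂ] (Fin k → ℂ)} {O K : Set (Fin k ⊕ Fin N → ℂ)}
  {D : Set (Fin k → ℂ)}

theorem Setup.isOpen_part (H : Setup W I U f) (hO : IsOpen O) (hD : IsOpen D) :
    IsOpen (W ∩ gr f ⁻¹' (O ∩ p ⁻¹' D)) :=
  H.analyticOnNhd_gr.continuousOn.isOpen_inter_preimage H.isOpen_W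
    (hO.inter (hD.preimage p.continuous))

theorem Setup.analyticOnNhd_proj (H : Setup W I U f) : AnalyticOnNhd ℂ (p ∘ gr f) W :=
  fun z hz => (p.analyticAt _).comp (H.analyticOnNhd_gr z hz)

theorem Setup.integrableOn_det (H : Setup W I U f) (hO : IsOpen O) (hD : IsOpen D)
    (hK : IsCompact K) (hKΩ : K ⊆ omega2 k U)
    (hprop : ∀ y ∈ closure (gr f '' W) ∩ O, p y ∈ D → y ∈ K) :
    IntegrableOn (fun z => ‖(jac (p ∘ gr f) z).det‖ ^ 2) (W ∩ gr f ⁻¹' (O ∩ p ⁻¹' D)) := by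
  obtain ⟨C, hC⟩ := exists_det_jac_comp_le p
  have hmeas := (H.isOpen_part (p := p) hO hD).measurableSet
  have hvol := (H.integrableOn_vol₂ hK hKΩ).mono_set
    (show W ∩ gr f ⁻¹' (O ∩ p ⁻¹' D) ⊆ _ from fun z hz =>
      ⟨hz.1, hprop _ ⟨subset_closure (mem_image_of_mem _ hz.1), hz.2.1⟩ hz.2.2⟩)
  refine Integrable.mono' (hvol.const_mul C) ?_ ?_
  · refine ContinuousOn.aestronglyMeasurable (fun z hz => ?_) hmeas
    exact ((analyticAt_det_jac (H.analyticOnNhd_proj z hz.1)).continuousAt.norm.pow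
      2).continuousWithinAt
  · refine (ae_restrict_iff' hmeas).2 (Eventually.of_forall fun z hz => ?_)
    rw [Real.norm_of_nonneg (by positivity)]
    exact hC _ z (H.analyticOnNhd_gr z hz.1).differentiableAt

/-- The Stokes formula gives weak holomorphy of the trace. -/
theorem Setup.integral_trace_eq_zero (H : Setup W I U f) (hO : IsOpen O) (hD : IsOpen D)
    (hK : IsCompact K) (hKO : K ⊆ O) (hKΩ : K ⊆ omega2 k U)
    (hprop : ∀ y ∈ closure (gr f '' W) ∩ O, p y ∈ D → y ∈ K)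
    {b : (Fin k ⊕ Fin N → ℂ) → ℂ} (hb : AnalyticOnNhd ℂ b univ) {η : (Fin k → ℂ) → ℂ}
    (hη : ContDiff ℝ ∞ η) (hηc : HasCompactSupport η) (hηD : tsupport η ⊆ D) (i : Fin k) :
    ∫ z in W ∩ gr f ⁻¹' (O ∩ p ⁻¹' D), conj (b (gr f z)) * dz η (p (gr f z)) (Pi.single i 1) *
      ((‖(jac (p ∘ gr f) z).det‖ ^ 2 : ℝ) : ℂ) = 0 := by
  have hW := H.isOpen_W
  set W₀ := W ∩ gr f ⁻¹' (O ∩ p ⁻¹' D) with hW₀
  have hmeas : MeasurableSet W₀ := (H.isOpen_part (p := p) hO hD).measurableSet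
  have hint := H.integrableOn_det hO hD hK hKΩ hprop
  have hη1 : ContDiff ℝ 1 η := hη.of_le (by exact_mod_cast le_top)
  obtain ⟨Mb, hMb⟩ := hK.exists_bound_of_continuousOn (hb.continuousOn.mono (subset_univ K))
  obtain ⟨Mη, hMη⟩ := hη.continuous.bounded_above_of_compact_support hηc
  obtain ⟨L, hL⟩ := (hη1.continuous_fderiv one_ne_zero).bounded_above_of_compact_support
    (hηc.fderiv ℝ)
  have hK₀ : ∀ z ∈ W₀, gr f z ∈ K := fun z hz =>
    hprop _ ⟨subset_closure (mem_image_of_mem _ hz.1), hz.2.1⟩ hz.2.2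
  let β : (Fin k → ℂ) → ℂ := fun z => b (gr f z) * (jac (p ∘ gr f) z).det
  have hβ : AnalyticOnNhd ℂ β W := fun z hz =>
    ((hb _ trivial).comp (H.analyticOnNhd_gr z hz)).mul
      (analyticAt_det_jac (H.analyticOnNhd_proj z hz))
  let a₀ : (Fin k → ℂ) → ℂ := fun z => η (p (gr f z)) * conj (β z)
  let a : (Fin k → ℂ) → ℂ := (gr f ⁻¹' O).indicator a₀
  let e : (Fin k → ℂ) → ℂ := fun z => conj (b (gr f z)) * dz η (p (gr f z)) (Pi.single i 1) *
      ((‖(jac (p ∘ gr f) z).det‖ ^ 2 : ℝ) : ℂ)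
  have hsupp : ∀ z ∈ W, a z ≠ 0 → z ∈ W₀ := fun z hz h => by
    have h1 : z ∈ gr f ⁻¹' O := mem_of_indicator_ne_zero h
    simp only [a, indicator_of_mem h1] at h
    exact ⟨hz, h1, hηD (subset_tsupport _ (left_ne_zero_of_mul h))⟩
  have haK : MapsTo (gr f) {z ∈ W | a z ≠ 0} K := fun z hz => hK₀ z (hsupp z hz.1 hz.2)
  have hin : ∀ z ∈ W, gr f z ∈ O → a =ᶠ[𝓝 z] a₀ := fun z hz h => by
    filter_upwards [(H.analyticOnNhd_gr z hz).continuousAt.preimage_mem_nhds (hO.mem_nhds h)]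
      with y hy using indicator_of_mem hy _
  have hout : ∀ z ∈ W, gr f z ∉ O → a =ᶠ[𝓝 z] fun _ => 0 := fun z hz h => by
    filter_upwards [hW.mem_nhds hz, (H.analyticOnNhd_gr z hz).continuousAt.preimage_mem_nhds
      (hK.isClosed.isOpen_compl.mem_nhds fun h' => h (hKO h'))] with y hy1 hy2
    by_contra h'
    exact hy2 (haK ⟨hy1, h'⟩)
  have hηg : ∀ z ∈ W, ContDiffAt ℝ 1 (fun y => η (p (gr f y))) z := fun z hz =>
    hη1.contDiffAt.comp z ((H.analyticOnNhd_proj z hz).contDiffAt.restrict_scalars ℝ)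
  have hβc : ∀ z ∈ W, ContDiffAt ℝ 1 (fun y => conj (β y)) z := fun z hz =>
    contDiffAt_conj ((hβ z hz).contDiffAt.restrict_scalars ℝ)
  have ha : ContDiffOn ℝ 1 a W := fun z hz => by
    refine ContDiffAt.contDiffWithinAt ?_
    by_cases h : gr f z ∈ O
    · exact ((hηg z hz).mul (hβc z hz)).congr_of_eventuallyEq (hin z hz h)
    · exact contDiffAt_const.congr_of_eventuallyEq (hout z hz h)
  have hdz : ∀ z ∈ W, dz a z (vf (p ∘ gr f) i z) = W₀.indicator e z := fun z hz => by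
    by_cases h : gr f z ∈ O
    · have h1 : dz a z (vf (p ∘ gr f) i z) = e z := by
        rw [dz_congr (hin z hz h), dz_mul ((hηg z hz).differentiableAt one_ne_zero)
          ((hβc z hz).differentiableAt one_ne_zero), dz_conj_holo (hβ z hz).differentiableAt,
          mul_zero, add_zero]
        have h2 := dz_comp_holo (G := p ∘ gr f) (z := z) (hη1.differentiable one_ne_zero _)
          (H.analyticOnNhd_proj z hz).differentiableAt (vf (p ∘ gr f) i z)
        simp only [Function.comp_apply] at h2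
        rw [h2, fderiv_vf_self, dz_smul_vec]
        simp only [e, β, map_mul, ofReal_pow, ← Complex.mul_conj']
        ring
      rw [h1]
      by_cases h3 : p (gr f z) ∈ D
      · rw [indicator_of_mem (show z ∈ W₀ from ⟨hz, h, h3⟩)]
      · rw [indicator_of_notMem (fun h4 => h3 h4.2.2)]
        have h4 : η =ᶠ[𝓝 (p (gr f z))] fun _ => 0 :=
          notMem_tsupport_iff_eventuallyEq.1 fun h5 => h3 (hηD h5)
        simp only [e]
        rw [dz_congr h4, dz_const, mul_zero, zero_mul]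
    · rw [dz_congr (hout z hz h), dz_const, indicator_of_notMem (fun h4 => h h4.2.1)]
  have hMb0 : ∀ z ∈ W₀, ‖b (gr f z)‖ ≤ Mb := fun z hz => hMb _ (hK₀ z hz)
  have h2 : IntegrableOn (fun z => ‖a z‖ ^ 2) W := by
    refine IntegrableOn.of_forall_sdiff_eq_zero (s := W₀) ?_ hW.measurableSet fun z hz => ?_
    · refine Integrable.mono' (hint.const_mul ((Mη * Mb) ^ 2))
        (((ha.continuousOn.mono inter_subset_left).norm.pow 2).aestronglyMeasurable hmeas) ?_
      refine (ae_restrict_iff' hmeas).2 (Eventually.of_forall fun z hz => ?_)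
      rw [Real.norm_of_nonneg (by positivity), ← mul_pow]
      have h3 : a z = a₀ z := indicator_of_mem (show z ∈ gr f ⁻¹' O from hz.2.1) _
      have h4 := hMb0 z hz
      have h5 := hMη (p (gr f z))
      have h6 : 0 ≤ Mη := (norm_nonneg _).trans h5
      rw [h3]
      simp only [a₀, β, norm_mul, Complex.norm_conj, mul_assoc]
      gcongr
    · have : a z = 0 := by
        by_contra h
        exact hz.2 (hsupp z hz.1 h)
      rw [this]; simp
  have he : IntegrableOn e W₀ := by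
    refine Integrable.mono' (hint.const_mul (Mb * L)) ?_ ?_
    · refine AEStronglyMeasurable.congr
        (((continuousOn_dz hW ha (H.analyticOnNhd_vf p i).continuousOn).mono
          inter_subset_left).aestronglyMeasurable hmeas) ?_
      refine (ae_restrict_iff' hmeas).2 (Eventually.of_forall fun z hz => ?_)
      exact (hdz z hz.1).trans (indicator_of_mem hz _)
    · refine (ae_restrict_iff' hmeas).2 (Eventually.of_forall fun z hz => ?_)
      have h4 := hMb0 z hz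
      have h5 : ‖dz η (p (gr f z)) (Pi.single i 1)‖ ≤ L := by
        refine (norm_dz_le _ _ _).trans ?_
        rw [Pi.norm_single, norm_one, mul_one]
        exact hL _
      have h6 : 0 ≤ Mb := (norm_nonneg _).trans h4
      simp only [e, norm_mul, Complex.norm_conj, Complex.norm_real]
      rw [Real.norm_of_nonneg (by positivity)]
      gcongr
  have h1 : IntegrableOn (fun z => dz a z (vf (p ∘ gr f) i z)) W :=
    (((integrable_indicator_iff hmeas).2 he).integrableOn).congr_fun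
      (fun z hz => (hdz z hz).symm) hW.measurableSet
  have h0 := H.stokes₂ p i a ha ⟨K, hK, hKΩ, haK⟩ h2 h1
  rw [setIntegral_congr_fun hW.measurableSet hdz, setIntegral_indicator hmeas,
    inter_eq_self_of_subset_right inter_subset_left] at h0
  exact h0

/-- The trace of a holomorphic function is holomorphic. -/
theorem Setup.exists_trace (H : Setup W I U f) {w₀ : Fin k → ℂ} {r : ℝ} (hr : 0 < r)
    (hO : IsOpen O) (hK : IsCompact K) (hKO : K ⊆ O) (hKΩ : K ⊆ omega2 k U)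
    (hprop : ∀ y ∈ closure (gr f '' W) ∩ O, p y ∈ ball w₀ r → y ∈ K)
    {b : (Fin k ⊕ Fin N → ℂ) → ℂ} (hb : AnalyticOnNhd ℂ b univ) :
    ∃ G : (Fin k → ℂ) → ℂ, AnalyticOnNhd ℂ G (ball w₀ (r / 2)) ∧ ∀ᵐ w, w ∈ ball w₀ (r / 2) →
      (∑ᶠ z ∈ regFibre (p ∘ gr f) (W ∩ gr f ⁻¹' (O ∩ p ⁻¹' ball w₀ r)) w, b (gr f z)) = G w := by
  set W₀ := W ∩ gr f ⁻¹' (O ∩ p ⁻¹' ball w₀ r) with hW₀
  have hW₀o : IsOpen W₀ := H.isOpen_part (p := p) hO isOpen_ball
  have hint := H.integrableOn_det hO isOpen_ball hK hKΩ hprop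
  have hg : AnalyticOnNhd ℂ (p ∘ gr f) W₀ := H.analyticOnNhd_proj.mono inter_subset_left
  obtain ⟨Mb, hMb⟩ := hK.exists_bound_of_continuousOn (hb.continuousOn.mono (subset_univ K))
  have hMb0 : ∀ z ∈ W₀, ‖b (gr f z)‖ ≤ Mb := fun z hz =>
    hMb _ (hprop _ ⟨subset_closure (mem_image_of_mem _ hz.1), hz.2.1⟩ hz.2.2)
  have hbc : ContinuousOn (fun z => b (gr f z)) W₀ := fun z hz =>
    ((hb _ trivial).comp (H.analyticOnNhd_gr z hz.1)).continuousAt.continuousWithinAt
  refine weyl (area_formula hW₀o hg hint hbc hMb0).1 hr fun η hη hηc hηD i => ?_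
  have hη1 : ContDiff ℝ 1 η := hη.of_le (by exact_mod_cast le_top)
  obtain ⟨L, hL⟩ := (hη1.continuous_fderiv one_ne_zero).bounded_above_of_compact_support
    (hηc.fderiv ℝ)
  have hdc : Continuous fun w => dz η w (Pi.single i 1) :=
    continuousOn_univ.1 (continuousOn_dz isOpen_univ hη1.contDiffOn continuousOn_const)
  have h1 := (area_formula hW₀o hg hint
    (b := fun z => conj (b (gr f z)) * dz η (p (gr f z)) (Pi.single i 1))
    ((continuous_conj.comp_continuousOn hbc).mul (hdc.comp_continuousOn hg.continuousOn))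
    (M := Mb * L) (fun z hz => by
      have h4 := hMb0 z hz
      have h5 : ‖dz η (p (gr f z)) (Pi.single i 1)‖ ≤ L := by
        refine (norm_dz_le _ _ _).trans ?_
        rw [Pi.norm_single, norm_one, mul_one]
        exact hL _
      have h6 : 0 ≤ Mb := (norm_nonneg _).trans h4
      rw [norm_mul, Complex.norm_conj]
      gcongr)).2
  rw [H.integral_trace_eq_zero hO isOpen_ball hK hKO hKΩ hprop hb hη hηc hηD i] at h1
  rw [← h1]
  refine integral_congr_ae ?_
  filter_upwards [ae_finite_regFibre hW₀o hg hint] with w hw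
  rw [finsum_mem_eq_finite_toFinset_sum _ hw, finsum_mem_eq_finite_toFinset_sum _ hw, map_sum,
    Finset.sum_mul]
  refine Finset.sum_congr rfl fun z hz => ?_
  have : p (gr f z) = w := (hw.mem_toFinset.1 hz).2.2
  rw [this]

end cover

theorem subset_closure_of_ae {D : Set (Fin k → ℂ)} (hD : IsOpen D) {P : (Fin k → ℂ) → Prop}
    (h : ∀ᵐ w, w ∈ D → P w) : D ⊆ closure {w ∈ D | P w} :=
  ((Measure.dense_of_ae h).open_subset_closure_inter hD).trans
    (closure_mono fun _ hw => ⟨hw.1, hw.2 hw.1⟩)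

theorem exists_const_nat {D : Set (Fin k → ℂ)} (hD : IsPreconnected D) {G : (Fin k → ℂ) → ℂ}
    (hG : ContinuousOn G D) (h : D ⊆ closure {w ∈ D | G w ∈ range (Nat.cast : ℕ → ℂ)}) :
    ∃ m : ℕ, ∀ w ∈ D, G w = m := by
  have hce : IsClosedEmbedding (Nat.cast : ℕ → ℂ) :=
    Complex.isometry_ofReal.isClosedEmbedding.comp Nat.isClosedEmbedding_coe_real
  have hmaps : MapsTo G D (range (Nat.cast : ℕ → ℂ)) := fun w hw => by
    have h1 := ((hG w hw).mono (sep_subset _ _)).mem_closure_image (h hw)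
    refine hce.isClosed_range.closure_subset (closure_mono ?_ h1)
    rintro _ ⟨y, hy, rfl⟩
    exact hy.2
  obtain ⟨_, ⟨m, rfl⟩, hm⟩ := hD.eqOn_const_of_mapsTo hce.isEmbedding.isDiscrete_range hG hmaps
    (range_nonempty _)
  exact ⟨m, hm⟩

theorem Setup.anAt_closure (H : Setup W I U f) {x : Fin k ⊕ Fin N → ℂ} (hx : x ∈ omega2 k U) :
    AnAt (closure (gr f '' W)) x := by
  obtain ⟨p, O, K, r, hO, hxO, hK, hKO, hOΩ, hr, hprop, hdense⟩ := H.exists_projection hx
  have hKΩ := hKO.trans hOΩ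
  set W₀ := W ∩ gr f ⁻¹' (O ∩ p ⁻¹' ball (p x) r) with hW₀
  set D := ball (p x) (r / 2) with hD
  have hW₀o : IsOpen W₀ := H.isOpen_part (p := p) hO isOpen_ball
  have hint := H.integrableOn_det hO isOpen_ball hK hKΩ hprop
  have hg : AnalyticOnNhd ℂ (p ∘ gr f) W₀ := H.analyticOnNhd_proj.mono inter_subset_left
  have hfin := ae_finite_regFibre hW₀o hg hint
  obtain ⟨G₀, hG₀, hG₀ae⟩ := H.exists_trace hr hO hK hKO hKΩ hprop (b := fun _ => 1)
    fun _ _ => analyticAt_const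
  have hcard : ∀ᵐ w, w ∈ D → ∀ hw : (regFibre (p ∘ gr f) W₀ w).Finite,
      G₀ w = hw.toFinset.card := by
    filter_upwards [hG₀ae] with w hw hwD hf
    rw [← hw hwD, finsum_mem_eq_finite_toFinset_sum _ hf]
    simp
  obtain ⟨m, hm⟩ := exists_const_nat (convex_ball (p x) (r / 2)).isPreconnected hG₀.continuousOn
    (subset_closure_of_ae isOpen_ball (by
      filter_upwards [hcard, hfin] with w h1 h2 h3
      exact ⟨_, (h1 h3 h2).symm⟩))
  obtain ⟨L, hL⟩ := exists_separating_family (Fin k ⊕ Fin N → ℂ) m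
  have htr : ∀ (l : (Fin k ⊕ Fin N → ℂ) →L[ℂ] ℂ) (j : ℕ), _ := fun l j =>
    H.exists_trace hr hO hK hKO hKΩ hprop (b := fun y => l y ^ j)
      fun y _ => (l.analyticAt y).pow j
  choose G hG hGae using htr
  let P : (Fin k → ℂ) → Prop := fun w => ∃ hw : (regFibre (p ∘ gr f) W₀ w).Finite,
    hw.toFinset.card = m ∧
      ∀ l ∈ L, ∀ j, (∑ᶠ z ∈ regFibre (p ∘ gr f) W₀ w, l (gr f z) ^ j) = G l j w
  have hPae : ∀ᵐ w, w ∈ D → P w := by
    have h1 : ∀ᵐ w, ∀ l ∈ L, ∀ j, w ∈ D →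
        (∑ᶠ z ∈ regFibre (p ∘ gr f) W₀ w, l (gr f z) ^ j) = G l j w :=
      (ae_ball_iff L.countable_toSet).2 fun l _ => ae_all_iff.2 fun j => hGae l j
    filter_upwards [hcard, hfin, h1] with w h2 h3 h4 h5
    refine ⟨h3, ?_, fun l hl j => h4 l hl j h5⟩
    have := (h2 h5 h3).symm.trans (hm w h5)
    exact_mod_cast this
  have hGd := subset_closure_of_ae isOpen_ball hPae
  classical
  let Z : (Fin k → ℂ) → Multiset (Fin k ⊕ Fin N → ℂ) := fun w =>
    if hw : (regFibre (p ∘ gr f) W₀ w).Finite then hw.toFinset.val.map (gr f) else 0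
  have hZ : ∀ w, P w → ∀ y, y ∈ Z w ↔ ∃ z ∈ regFibre (p ∘ gr f) W₀ w, gr f z = y := by
    rintro w ⟨hw, -⟩ y
    simp [Z, dif_pos hw]
  have hmain := anAt_closure_of_psum (p := p) (G := {w ∈ D | P w}) isOpen_ball (sep_subset _ _)
    hGd (m := m) Z (by
      rintro w ⟨-, hw, h1, -⟩
      simp [Z, dif_pos hw, h1])
    (by
      rintro w hw y hy
      obtain ⟨z, hz, rfl⟩ := (hZ w hw.2 y).1 hy
      exact hz.2.2) hK
    (by
      rintro w hw y hy
      obtain ⟨z, hz, rfl⟩ := (hZ w hw.2 y).1 hy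
      exact hprop _ ⟨subset_closure (mem_image_of_mem _ hz.1.1), hz.1.2.1⟩ hz.1.2.2) hL
    (fun l hl j => ⟨G l j, hG l j, by
      rintro w ⟨-, hw, -, h1⟩
      rw [← h1 l hl j, finsum_mem_eq_finite_toFinset_sum _ hw]
      simp only [Z, dif_pos hw, Multiset.map_map]
      rfl⟩) x (mem_ball_self (half_pos hr))
  refine hmain.congr ?_
  have hO' : IsOpen (O ∩ p ⁻¹' D) := hO.inter (isOpen_ball.preimage p.continuous)
  filter_upwards [hO'.mem_nhds ⟨hxO, mem_ball_self (half_pos hr)⟩] with y hy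
  constructor
  · refine fun h => closure_mono ?_ h
    rintro y ⟨w, hw, hy⟩
    obtain ⟨z, hz, rfl⟩ := (hZ w hw.2 y).1 hy
    exact mem_image_of_mem _ hz.1.1
  · intro h
    refine closure_minimal ?_ isClosed_closure (hO'.inter_closure ⟨hy, h⟩)
    rintro _ ⟨hzO, z, hz, rfl⟩
    have h1 : z ∈ closure {z' | z' ∈ W₀ ∧ (jac (p ∘ gr f) z').det ≠ 0 ∧
        p (gr f z') ∈ {w ∈ D | P w}} := by
      rw [_root_.mem_closure_iff]
      intro S hS hzS
      have hW₁ : IsOpen (W ∩ gr f ⁻¹' (O ∩ p ⁻¹' D)) := H.isOpen_part (p := p) hO isOpen_ball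
      obtain ⟨z₁, ⟨hz₁S, hz₁W⟩, -, hz₁d⟩ := _root_.mem_closure_iff.1 (hdense hz) _
        (hS.inter hW₁) ⟨hzS, hz, hzO⟩
      have hz₁a := H.analyticOnNhd_proj (p := p) z₁ hz₁W.1
      have hn : S ∩ (W ∩ gr f ⁻¹' (O ∩ p ⁻¹' D)) ∩ {z' | (jac (p ∘ gr f) z').det ≠ 0} ∈ 𝓝 z₁ :=
        inter_mem ((hS.inter hW₁).mem_nhds ⟨hz₁S, hz₁W⟩)
          ((analyticAt_det_jac hz₁a).continuousAt.eventually_ne hz₁d)
      obtain ⟨_, ⟨z₂, ⟨⟨h₁, h₂⟩, h₃⟩, rfl⟩, h₄⟩ := mem_closure_iff_nhds.1 (hGd hz₁W.2.2) _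
        (image_mem_nhds_of_det_ne_zero hz₁a hz₁d hn)
      exact ⟨z₂, h₁, ⟨h₂.1, h₂.2.1, ball_subset_ball (half_le_self hr.le) h₂.2.2⟩, h₃, h₄⟩
    refine closure_mono ?_ (mem_closure_image (H.analyticOnNhd_gr z hz).continuousAt h1)
    rintro _ ⟨z', ⟨h₁, h₂, h₃⟩, rfl⟩
    exact ⟨_, h₃, (hZ _ h₃.2 _).2 ⟨z', ⟨h₁, h₂, rfl⟩, rfl⟩⟩

end Pool.Agent.Lib.MP_940f24_an
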