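import Pool.Agent.Lib.MP_940f24_an.VField

/-!
Caccioppoli inequality and removal of the zero set of a holomorphic map in the Stokes formula.
-/

open Set Filter Topology MeasureTheory Metric Complex
open scoped ContDiff ComplexConjugate

namespace Pool.Agent.Lib.MP_940f24_an

variable {k : ℕ} {κ : Type} [Fintype κ]

/-- Data for removing the set `h = 0`. -/
structure CutData (W : Set (Fin k → ℂ)) (c : (Fin k → ℂ) → (Fin k → ℂ))
    (𝒦 : Set (Fin k → ℂ) → Prop) (h : (Fin k → ℂ) → (κ → ℂ)) (ψ : (Fin k → ℂ) → ℝ) : Prop where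
  isOpen : IsOpen W
  hc : AnalyticOnNhd ℂ c W
  stokes : Stokes W c 𝒦
  mono : ∀ S T, T ⊆ S → 𝒦 S → 𝒦 T
  hh : AnalyticOnNhd ℂ h W
  ne_zero : ∀ z ∈ W, h z ≠ 0
  le_one : ∀ z ∈ W, nsq (h z) ≤ 1
  energy : ∀ S, MeasurableSet S → S ⊆ W → 𝒦 S →
    IntegrableOn (fun z => nsq (fderiv ℂ h z (c z))) S
  hψ : ContDiffOn ℝ 1 ψ W
  bdd : ∀ z ∈ W, |ψ z| ≤ 1
  supp : ∀ δ : ℝ, 0 < δ → 𝒦 {z ∈ W | ψ z ≠ 0 ∧ δ ≤ nsq (h z)}
  ψenergy : IntegrableOn (fun z => ‖dz (fun y => (ψ y : ℂ)) z (c z)‖ ^ 2) W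

/-! ### The logarithmic cutoff -/

/-- Logarithmic cutoff function. -/
noncomputable def lcut (n : ℕ) (t : ℝ) : ℝ := Real.smoothTransition (Real.log t / (n + 1) + 2)

theorem lcut_nonneg (n : ℕ) (t : ℝ) : 0 ≤ lcut n t := Real.smoothTransition.nonneg _

theorem lcut_le_one (n : ℕ) (t : ℝ) : lcut n t ≤ 1 := Real.smoothTransition.le_one _

theorem contDiffAt_lcut (n : ℕ) {t : ℝ} (ht : 0 < t) : ContDiffAt ℝ 1 (lcut n) t := by
  have h1 : ContDiffAt ℝ 1 (fun s : ℝ => Real.log s / (n + 1) + 2) t :=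
    ((Real.contDiffAt_log.2 ht.ne').div_const _).add contDiffAt_const
  exact (Real.smoothTransition.contDiffAt (n := 1)).comp t h1

theorem deriv_lcut (n : ℕ) {t : ℝ} (ht : 0 < t) :
    deriv (lcut n) t =
      deriv Real.smoothTransition (Real.log t / (n + 1) + 2) * (t⁻¹ / (n + 1)) := by
  have h1 : HasDerivAt (fun s : ℝ => Real.log s / (n + 1) + 2) (t⁻¹ / (n + 1)) t :=
    ((Real.hasDerivAt_log ht.ne').div_const _).add_const _
  have h2 : HasDerivAt Real.smoothTransition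
      (deriv Real.smoothTransition (Real.log t / (n + 1) + 2)) (Real.log t / (n + 1) + 2) :=
    ((Real.smoothTransition.contDiffAt (n := 1)).differentiableAt (by simp)).hasDerivAt
  exact (h2.comp t h1).deriv

theorem deriv_lcut_nonneg (n : ℕ) {t : ℝ} (ht : 0 < t) : 0 ≤ deriv (lcut n) t := by
  rw [deriv_lcut n ht]
  exact mul_nonneg Real.smoothTransition.monotone.deriv_nonneg (by positivity)

theorem lcut_eq_zero (n : ℕ) {t : ℝ} (ht : t ∈ Ioo 0 (Real.exp (-2 * (n + 1)))) :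
    lcut n t = 0 := by
  apply Real.smoothTransition.zero_of_nonpos
  have h1 : Real.log t < -2 * (n + 1) := (Real.log_lt_iff_lt_exp ht.1).2 ht.2
  have h2 : Real.log t / (n + 1) < -2 := by
    rw [div_lt_iff₀ (by positivity)]
    exact h1
  linarith

theorem deriv_smoothTransition_neg {s : ℝ} (hs : s < 0) : deriv Real.smoothTransition s = 0 := by
  have : Real.smoothTransition =ᶠ[𝓝 s] fun _ => 0 := by
    filter_upwards [Iio_mem_nhds hs] with y hy using Real.smoothTransition.zero_of_nonpos hy.le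
  rw [this.deriv_eq, deriv_const]

theorem deriv_smoothTransition_gt {s : ℝ} (hs : 1 < s) : deriv Real.smoothTransition s = 0 := by
  have : Real.smoothTransition =ᶠ[𝓝 s] fun _ => 1 := by
    filter_upwards [Ioi_mem_nhds hs] with y hy using Real.smoothTransition.one_of_one_le hy.le
  rw [this.deriv_eq, deriv_const]

theorem eventually_lcut {t : ℝ} (ht : 0 < t) :
    ∀ᶠ n : ℕ in atTop, lcut n t = 1 ∧ deriv (lcut n) t = 0 := by
  obtain ⟨m, hm⟩ := exists_nat_gt (-Real.log t)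
  filter_upwards [eventually_ge_atTop m] with n hn
  have hn' : (m : ℝ) ≤ n := by exact_mod_cast hn
  have h1 : 1 < Real.log t / (n + 1) + 2 := by
    have : -1 < Real.log t / (n + 1) := by
      rw [lt_div_iff₀ (by positivity)]
      linarith
    linarith
  refine ⟨Real.smoothTransition.one_of_one_le h1.le, ?_⟩
  rw [deriv_lcut n ht, deriv_smoothTransition_gt h1, zero_mul]

/-- The logarithmic weight. -/
noncomputable def lwt (t : ℝ) : ℝ := (t * (1 - Real.log t))⁻¹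

theorem one_le_one_sub_log {t : ℝ} (ht : t ∈ Ioc (0 : ℝ) 1) : 1 ≤ 1 - Real.log t := by
  have := Real.log_nonpos ht.1.le ht.2
  linarith

theorem lwt_pos {t : ℝ} (ht : t ∈ Ioc (0 : ℝ) 1) : 0 < lwt t := by
  have h1 := one_le_one_sub_log ht
  have h2 := ht.1
  unfold lwt
  positivity

theorem contDiffAt_lwt {t : ℝ} (ht : t ∈ Ioc (0 : ℝ) 1) : ContDiffAt ℝ 1 lwt t := by
  have h1 := one_le_one_sub_log ht
  have h2 := ht.1
  exact (contDiffAt_id.mul (contDiffAt_const.sub (Real.contDiffAt_log.2 h2.ne'))).inv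
    (by positivity : t * (1 - Real.log t) ≠ 0)

theorem deriv_lwt {t : ℝ} (ht : t ∈ Ioc (0 : ℝ) 1) :
    deriv lwt t = lwt t ^ 2 - lwt t / t := by
  have h1 := one_le_one_sub_log ht
  have h2 := ht.1
  have h3 : HasDerivAt (fun s : ℝ => s * (1 - Real.log s))
      (1 * (1 - Real.log t) + t * (0 - t⁻¹)) t :=
    (hasDerivAt_id t).mul ((hasDerivAt_const t (1 : ℝ)).sub (Real.hasDerivAt_log h2.ne'))
  have h4 : HasDerivAt lwt _ t := h3.inv (by positivity : t * (1 - Real.log t) ≠ 0)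
  rw [h4.deriv]
  unfold lwt
  have h5 : 1 - Real.log t ≠ 0 := by positivity
  field_simp
  ring

theorem exists_deriv_lcut_le : ∃ L : ℝ, ∀ (n : ℕ), ∀ t ∈ Ioc (0 : ℝ) 1,
    deriv (lcut n) t ≤ L * lwt t := by
  have hc : Continuous (deriv Real.smoothTransition) :=
    (Real.smoothTransition.contDiff (n := 1)).continuous_deriv (by simp)
  obtain ⟨L, hL⟩ := (isCompact_Icc (a := (0 : ℝ)) (b := 2)).exists_bound_of_continuousOn
    hc.continuousOn
  have hL0 : 0 ≤ L := (norm_nonneg _).trans (hL 0 ⟨le_rfl, by norm_num⟩)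
  refine ⟨3 * L, fun n t ht => ?_⟩
  have h1 := one_le_one_sub_log ht
  have h2 := ht.1
  have hw := lwt_pos ht
  rw [deriv_lcut n h2]
  rcases lt_or_ge (Real.log t / (n + 1) + 2) 0 with hs | hs
  · rw [deriv_smoothTransition_neg hs, zero_mul]
    positivity
  · have hn : (0 : ℝ) < n + 1 := by positivity
    have h3 : Real.log t / (n + 1) ≤ 0 := div_nonpos_of_nonpos_of_nonneg (by linarith) hn.le
    have h4 := hL _ ⟨hs, by linarith⟩
    have h5 : deriv Real.smoothTransition (Real.log t / (n + 1) + 2) ≤ L :=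
      (le_abs_self _).trans h4
    have h6 : -2 * (n + 1) ≤ Real.log t := by
      have : -2 ≤ Real.log t / (n + 1) := by linarith
      rwa [le_div_iff₀ hn] at this
    have h7 : t⁻¹ / (n + 1) ≤ 3 * lwt t := by
      have hn0 : (0 : ℝ) ≤ n := Nat.cast_nonneg n
      have h8 : 1 / ((n : ℝ) + 1) ≤ 3 / (1 - Real.log t) := by
        rw [div_le_div_iff₀ hn (by linarith)]
        linarith
      calc t⁻¹ / (n + 1) = t⁻¹ * (1 / (n + 1)) := by ring
        _ ≤ t⁻¹ * (3 / (1 - Real.log t)) := by gcongr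
        _ = 3 * lwt t := by
          unfold lwt
          rw [mul_inv]
          ring
    calc _ ≤ L * (t⁻¹ / (n + 1)) := by gcongr
      _ ≤ L * (3 * lwt t) := by gcongr
      _ = 3 * L * lwt t := by ring

theorem continuousAt_deriv_of_contDiffAt {p : ℝ → ℝ} {t : ℝ} (hp : ContDiffAt ℝ 1 p t) :
    ContinuousAt (deriv p) t := by
  have h1 : ContinuousAt (fderiv ℝ p) t := hp.continuousAt_fderiv (by simp)
  have h2 : ContinuousAt (fun s => fderiv ℝ p s 1) t := h1.clm_apply continuousAt_const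
  exact h2

/-! ### The basic identity -/

namespace CutData

variable {W : Set (Fin k → ℂ)} {c : (Fin k → ℂ) → (Fin k → ℂ)}
  {𝒦 : Set (Fin k → ℂ) → Prop} {h : (Fin k → ℂ) → (κ → ℂ)} {ψ : (Fin k → ℂ) → ℝ}

theorem nsq_mem (H : CutData W c 𝒦 h ψ) {z : Fin k → ℂ} (hz : z ∈ W) :
    nsq (h z) ∈ Ioc (0 : ℝ) 1 := by
  refine ⟨?_, H.le_one z hz⟩
  have h1 : 0 < ‖h z‖ := norm_pos_iff.2 (H.ne_zero z hz)
  exact lt_of_lt_of_le (by positivity) (norm_sq_le_nsq (h z))

theorem contDiffAt_u (H : CutData W c 𝒦 h ψ) {z : Fin k → ℂ} (hz : z ∈ W) :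
    ContDiffAt ℝ 1 (fun y => nsq (h y)) z :=
  (contDiffAt_nsq (H.hh z hz)).of_le (by simp)

theorem contDiffAt_psi (H : CutData W c 𝒦 h ψ) {z : Fin k → ℂ} (hz : z ∈ W) :
    ContDiffAt ℝ 1 (fun y => (ψ y : ℂ)) z :=
  Complex.ofRealCLM.contDiff.contDiffAt.comp z (H.hψ.contDiffAt (H.isOpen.mem_nhds hz))

theorem contDiffAt_pu (H : CutData W c 𝒦 h ψ) {p : ℝ → ℝ}
    (hp : ∀ t ∈ Ioc (0 : ℝ) 1, ContDiffAt ℝ 1 p t) {z : Fin k → ℂ} (hz : z ∈ W) :
    ContDiffAt ℝ 1 (fun y => (p (nsq (h y)) : ℂ)) z :=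
  Complex.ofRealCLM.contDiff.contDiffAt.comp z
    ((hp _ (H.nsq_mem hz)).comp z (H.contDiffAt_u hz))

theorem contDiffAt_cb (H : CutData W c 𝒦 h ψ) {z : Fin k → ℂ} (hz : z ∈ W) :
    ContDiffAt ℝ 1 (fun y => conj (hdot (h y) (fderiv ℂ h y (c y)))) z :=
  (contDiffAt_conj_hdot (H.hh z hz) (H.hc z hz)).of_le (by simp)

theorem dz_pu (H : CutData W c 𝒦 h ψ) {p : ℝ → ℝ}
    (hp : ∀ t ∈ Ioc (0 : ℝ) 1, ContDiffAt ℝ 1 p t) {z : Fin k → ℂ} (hz : z ∈ W) :
    dz (fun y => (p (nsq (h y)) : ℂ)) z (c z) =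
      (deriv p (nsq (h z)) : ℝ) * hdot (h z) (fderiv ℂ h z (c z)) := by
  rw [← dz_nsq (H.hh z hz)]
  exact dz_comp_real (u := fun y => nsq (h y))
    ((hp _ (H.nsq_mem hz)).differentiableAt (by simp)).hasDerivAt
    ((H.contDiffAt_u hz).differentiableAt (by simp)) (c z)

theorem continuousOn_u (H : CutData W c 𝒦 h ψ) : ContinuousOn (fun y => nsq (h y)) W :=
  fun _ hz => (H.contDiffAt_u hz).continuousAt.continuousWithinAt

theorem continuousOn_comp_u (H : CutData W c 𝒦 h ψ) {p : ℝ → ℝ}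
    (hp : ∀ t ∈ Ioc (0 : ℝ) 1, ContinuousAt p t) : ContinuousOn (fun y => p (nsq (h y))) W :=
  fun _ hz => (ContinuousAt.comp (f := fun y => nsq (h y)) (hp _ (H.nsq_mem hz))
    (H.contDiffAt_u hz).continuousAt).continuousWithinAt

theorem continuousOn_e (H : CutData W c 𝒦 h ψ) :
    ContinuousOn (fun z => nsq (fderiv ℂ h z (c z))) W := by
  intro z hz
  have h1 : ContinuousAt (fun y => fderiv ℂ h y (c y)) z :=
    (H.hh z hz).fderiv.continuousAt.clm_apply (H.hc z hz).continuousAt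
  have h2 : Continuous (nsq : (κ → ℂ) → ℝ) := by
    unfold nsq
    fun_prop
  exact (h2.continuousAt.comp h1).continuousWithinAt

theorem continuousOn_nb (H : CutData W c 𝒦 h ψ) :
    ContinuousOn (fun z => ‖hdot (h z) (fderiv ℂ h z (c z))‖) W := by
  have h1 : ContinuousOn (fun y => ‖conj (hdot (h y) (fderiv ℂ h y (c y)))‖) W :=
    fun _ hz => (H.contDiffAt_cb hz).continuousAt.norm.continuousWithinAt
  simpa only [Complex.norm_conj] using h1

theorem continuousOn_Xpsi (H : CutData W c 𝒦 h ψ) :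
    ContinuousOn (fun z => dz (fun y => (ψ y : ℂ)) z (c z)) W :=
  continuousOn_dz H.isOpen (fun _ hz => (H.contDiffAt_psi hz).contDiffWithinAt) H.hc.continuousOn

theorem nb_sq_le (H : CutData W c 𝒦 h ψ) {z : Fin k → ℂ} (hz : z ∈ W) :
    ‖hdot (h z) (fderiv ℂ h z (c z))‖ ^ 2 ≤ nsq (fderiv ℂ h z (c z)) :=
  (norm_hdot_sq_le _ _).trans
    (mul_le_of_le_one_left (nsq_nonneg _) (H.le_one z hz))

/-- The energy density is integrable on the part of the support of `ψ` away from `h = 0`. -/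
theorem exists_majorant (H : CutData W c 𝒦 h ψ) {δ : ℝ} (hδ : 0 < δ) :
    ∃ e : (Fin k → ℂ) → ℝ, IntegrableOn e W ∧ (∀ z, 0 ≤ e z) ∧
      ∀ z ∈ W, ψ z ≠ 0 → δ ≤ nsq (h z) → e z = nsq (fderiv ℂ h z (c z)) := by
  set S := {z ∈ W | ψ z ≠ 0 ∧ δ ≤ nsq (h z)} with hS
  have hSm : MeasurableSet S := by
    have h1 : IsOpen (W ∩ ψ ⁻¹' {0}ᶜ) :=
      H.hψ.continuousOn.isOpen_inter_preimage H.isOpen isOpen_compl_singleton
    have h2 : IsOpen (W ∩ (fun y => nsq (h y)) ⁻¹' Iio δ) :=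
      H.continuousOn_u.isOpen_inter_preimage H.isOpen isOpen_Iio
    have h3 : S = (W ∩ ψ ⁻¹' {0}ᶜ) \ (W ∩ (fun y => nsq (h y)) ⁻¹' Iio δ) := by
      ext z
      simp only [hS, mem_ofPred_eq, Set.mem_sdiff, mem_inter_iff, mem_preimage, mem_compl_iff,
        mem_singleton_iff, mem_Iio, not_and, not_lt]
      tauto
    rw [h3]
    exact h1.measurableSet.diff h2.measurableSet
  have hi := H.energy S hSm (fun z hz => hz.1) (H.supp δ hδ)
  refine ⟨S.indicator fun z => nsq (fderiv ℂ h z (c z)),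
    (hi.integrable_indicator hSm).integrableOn,
    fun z => indicator_nonneg (fun y _ => nsq_nonneg _) z, fun z hz h1 h2 => ?_⟩
  exact indicator_of_mem (show z ∈ S from ⟨hz, h1, h2⟩) _

theorem key (H : CutData W c 𝒦 h ψ) {p : ℝ → ℝ}
    (hp : ∀ t ∈ Ioc (0 : ℝ) 1, ContDiffAt ℝ 1 p t) {δ : ℝ} (hδ : 0 < δ)
    (h0 : ∀ t ∈ Ioo 0 δ, p t = 0) :
    IntegrableOn (fun z => ψ z ^ 2 * (p (nsq (h z)) * nsq (fderiv ℂ h z (c z)) +
      deriv p (nsq (h z)) * ‖hdot (h z) (fderiv ℂ h z (c z))‖ ^ 2)) W ∧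
    ∀ R : (Fin k → ℂ) → ℝ, IntegrableOn R W →
      (∀ z ∈ W, 2 * |ψ z| * |p (nsq (h z))| * ‖dz (fun y => (ψ y : ℂ)) z (c z)‖ *
        ‖hdot (h z) (fderiv ℂ h z (c z))‖ ≤ R z) →
      ∫ z in W, ψ z ^ 2 * (p (nsq (h z)) * nsq (fderiv ℂ h z (c z)) +
        deriv p (nsq (h z)) * ‖hdot (h z) (fderiv ℂ h z (c z))‖ ^ 2) ≤ ∫ z in W, R z := by
  have hW := H.isOpen.measurableSet
  obtain ⟨e, hei, he0, he⟩ := H.exists_majorant hδ
  have h0' : ∀ t ∈ Ioo 0 δ, deriv p t = 0 := by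
    intro t ht
    have : p =ᶠ[𝓝 t] fun _ => 0 := by
      filter_upwards [Ioo_mem_nhds ht.1 ht.2] with y hy using h0 y hy
    rw [this.deriv_eq, deriv_const]
  have hsub : Icc δ 1 ⊆ Ioc (0 : ℝ) 1 := fun t ht => ⟨hδ.trans_le ht.1, ht.2⟩
  obtain ⟨M₁, hM₁⟩ := (isCompact_Icc (a := δ) (b := 1)).exists_bound_of_continuousOn
    (f := p) fun t ht => (hp t (hsub ht)).continuousAt.continuousWithinAt
  obtain ⟨M₂, hM₂⟩ := (isCompact_Icc (a := δ) (b := 1)).exists_bound_of_continuousOn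
    (f := deriv p) fun t ht =>
      (continuousAt_deriv_of_contDiffAt (hp t (hsub ht))).continuousWithinAt
  set M := max (max M₁ M₂) 0 with hM
  have hM0 : 0 ≤ M := le_max_right _ _
  -- the three alternatives at a point of `W`
  have alt : ∀ z ∈ W, ψ z = 0 ∨ (p (nsq (h z)) = 0 ∧ deriv p (nsq (h z)) = 0) ∨
      (ψ z ≠ 0 ∧ δ ≤ nsq (h z) ∧ |p (nsq (h z))| ≤ M ∧ |deriv p (nsq (h z))| ≤ M) := by
    intro z hz
    by_cases h1 : ψ z = 0
    · exact Or.inl h1
    have hu := H.nsq_mem hz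
    rcases lt_or_ge (nsq (h z)) δ with h2 | h2
    · exact Or.inr (Or.inl ⟨h0 _ ⟨hu.1, h2⟩, h0' _ ⟨hu.1, h2⟩⟩)
    · exact Or.inr (Or.inr ⟨h1, h2,
        (hM₁ _ ⟨h2, hu.2⟩).trans ((le_max_left _ _).trans (le_max_left _ _)),
        (hM₂ _ ⟨h2, hu.2⟩).trans ((le_max_right _ _).trans (le_max_left _ _))⟩)
  set T₁ : (Fin k → ℂ) → ℝ := fun z => ψ z ^ 2 * (p (nsq (h z)) * nsq (fderiv ℂ h z (c z)) +
      deriv p (nsq (h z)) * ‖hdot (h z) (fderiv ℂ h z (c z))‖ ^ 2) with hT₁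
  set T₂ : (Fin k → ℂ) → ℂ := fun z => 2 * (ψ z : ℂ) * (p (nsq (h z)) : ℂ) *
      dz (fun y => (ψ y : ℂ)) z (c z) * conj (hdot (h z) (fderiv ℂ h z (c z))) with hT₂
  set a : (Fin k → ℂ) → ℂ := fun z => (ψ z : ℂ) * (ψ z : ℂ) * (p (nsq (h z)) : ℂ) *
      conj (hdot (h z) (fderiv ℂ h z (c z))) with ha
  have hnT₂ : ∀ z, ‖T₂ z‖ = 2 * |ψ z| * |p (nsq (h z))| * ‖dz (fun y => (ψ y : ℂ)) z (c z)‖ *
      ‖hdot (h z) (fderiv ℂ h z (c z))‖ := by
    intro z
    simp only [hT₂, norm_mul, Complex.norm_conj, Complex.norm_real, Real.norm_eq_abs,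
      Complex.norm_ofNat]
  have hna : ∀ z, ‖a z‖ = |ψ z| * |ψ z| * |p (nsq (h z))| *
      ‖hdot (h z) (fderiv ℂ h z (c z))‖ := by
    intro z
    simp only [ha, norm_mul, Complex.norm_conj, Complex.norm_real, Real.norm_eq_abs]
  have hpc : ContinuousOn (fun y => p (nsq (h y))) W :=
    H.continuousOn_comp_u fun t ht => (hp t ht).continuousAt
  have hpc' : ContinuousOn (fun y => deriv p (nsq (h y))) W :=
    H.continuousOn_comp_u fun t ht => continuousAt_deriv_of_contDiffAt (hp t ht)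
  have hac : ∀ z ∈ W, ContDiffAt ℝ 1 a z := fun z hz =>
    (((H.contDiffAt_psi hz).mul (H.contDiffAt_psi hz)).mul (H.contDiffAt_pu hp hz)).mul
      (H.contDiffAt_cb hz)
  have hXa : ∀ z ∈ W, dz a z (c z) = (T₁ z : ℂ) + T₂ z := by
    intro z hz
    have d1 := (H.contDiffAt_psi hz).differentiableAt (by simp)
    have d2 := (H.contDiffAt_pu hp hz).differentiableAt (by simp)
    have d3 := (H.contDiffAt_cb hz).differentiableAt (by simp)
    have e1 := dz_mul ((d1.mul d1).mul d2) d3 (c z)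
    have e2 := dz_mul (d1.mul d1) d2 (c z)
    have e3 := dz_mul d1 d1 (c z)
    simp only [Pi.mul_apply, Pi.mul_def] at e1 e2
    rw [ha, e1, e2, e3, H.dz_pu hp hz, dz_conj_hdot (H.hh z hz) (H.hc z hz)]
    have e4 : ((‖hdot (h z) (fderiv ℂ h z (c z))‖ : ℂ)) ^ 2 =
        hdot (h z) (fderiv ℂ h z (c z)) * conj (hdot (h z) (fderiv ℂ h z (c z))) := by
      rw [Complex.mul_conj, Complex.normSq_eq_norm_sq]
      push_cast
      rfl
    simp only [hT₁, hT₂]
    push_cast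
    rw [e4]
    ring
  have hψ2 : ∀ z ∈ W, ψ z ^ 2 ≤ 1 := fun z hz => by
    rw [← sq_abs]
    exact pow_le_one₀ (abs_nonneg _) (H.bdd z hz)
  have hT₁i : IntegrableOn T₁ W := by
    have hc : ContinuousOn T₁ W :=
      (H.hψ.continuousOn.pow 2).mul ((hpc.mul H.continuousOn_e).add
        (hpc'.mul (H.continuousOn_nb.pow 2)))
    refine Integrable.mono' (hei.const_mul (2 * M)) (hc.aestronglyMeasurable hW) ?_
    refine (ae_restrict_iff' hW).2 (Eventually.of_forall fun z hz => ?_)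
    have hez := he0 z
    rcases alt z hz with h1 | ⟨h1, h2⟩ | ⟨h1, h2, h3, h4⟩
    · simp only [hT₁, h1]
      simp
      positivity
    · simp only [hT₁, h1, h2]
      simp
      positivity
    · rw [he z hz h1 h2]
      have h5 := H.nb_sq_le hz
      have h6 := nsq_nonneg (fderiv ℂ h z (c z))
      have h7 : |p (nsq (h z)) * nsq (fderiv ℂ h z (c z)) +
          deriv p (nsq (h z)) * ‖hdot (h z) (fderiv ℂ h z (c z))‖ ^ 2| ≤
          2 * M * nsq (fderiv ℂ h z (c z)) := by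
        refine (abs_add_le _ _).trans ?_
        rw [abs_mul, abs_mul, abs_of_nonneg h6,
          abs_of_nonneg (sq_nonneg ‖hdot (h z) (fderiv ℂ h z (c z))‖)]
        have h8 := mul_le_mul_of_nonneg_right h3 h6
        have h9 := mul_le_mul h4 h5 (sq_nonneg _) hM0
        linarith
      simp only [hT₁, Real.norm_eq_abs]
      rw [abs_mul, abs_of_nonneg (sq_nonneg _)]
      exact (mul_le_of_le_one_left (abs_nonneg _) (hψ2 z hz)).trans h7
  have hT₂i : IntegrableOn T₂ W := by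
    have hc : ContinuousOn T₂ W := by
      refine ContinuousOn.mul (ContinuousOn.mul (ContinuousOn.mul (continuousOn_const.mul ?_) ?_)
        H.continuousOn_Xpsi) ?_
      · exact fun _ hz => (H.contDiffAt_psi hz).continuousAt.continuousWithinAt
      · exact fun _ hz => (H.contDiffAt_pu hp hz).continuousAt.continuousWithinAt
      · exact fun _ hz => (H.contDiffAt_cb hz).continuousAt.continuousWithinAt
    refine Integrable.mono' ((H.ψenergy.add hei).const_mul M) (hc.aestronglyMeasurable hW) ?_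
    refine (ae_restrict_iff' hW).2 (Eventually.of_forall fun z hz => ?_)
    have hez := he0 z
    rw [hnT₂]
    simp only [Pi.add_apply]
    rcases alt z hz with h1 | ⟨h1, h2⟩ | ⟨h1, h2, h3, h4⟩
    · rw [h1]
      simp
      positivity
    · rw [h1]
      simp
      positivity
    · rw [he z hz h1 h2]
      have h5 := H.nb_sq_le hz
      have h6 := H.bdd z hz
      set A := ‖dz (fun y => (ψ y : ℂ)) z (c z)‖
      set B := ‖hdot (h z) (fderiv ℂ h z (c z))‖
      have hA : 0 ≤ A := norm_nonneg _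
      have hB : 0 ≤ B := norm_nonneg _
      calc 2 * |ψ z| * |p (nsq (h z))| * A * B ≤ 2 * 1 * M * A * B := by gcongr
        _ = M * (2 * A * B) := by ring
        _ ≤ M * (A ^ 2 + nsq (fderiv ℂ h z (c z))) := by
          gcongr
          nlinarith [sq_nonneg (A - B)]
  have hai : IntegrableOn (fun z => ‖a z‖ ^ 2) W := by
    have hc : ContinuousOn (fun z => ‖a z‖ ^ 2) W :=
      fun _ hz => ((hac _ hz).continuousAt.norm.pow 2).continuousWithinAt
    refine Integrable.mono' (hei.const_mul (M ^ 2)) (hc.aestronglyMeasurable hW) ?_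
    refine (ae_restrict_iff' hW).2 (Eventually.of_forall fun z hz => ?_)
    have hez := he0 z
    rw [Real.norm_eq_abs, abs_of_nonneg (sq_nonneg _), hna]
    rcases alt z hz with h1 | ⟨h1, h2⟩ | ⟨h1, h2, h3, h4⟩
    · rw [h1]
      simp
      positivity
    · rw [h1]
      simp
      positivity
    · rw [he z hz h1 h2]
      have h5 := H.nb_sq_le hz
      have h6 := H.bdd z hz
      set B := ‖hdot (h z) (fderiv ℂ h z (c z))‖
      have hB : 0 ≤ B := norm_nonneg _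
      calc (|ψ z| * |ψ z| * |p (nsq (h z))| * B) ^ 2 ≤ (1 * 1 * M * B) ^ 2 := by gcongr
        _ = M ^ 2 * B ^ 2 := by ring
        _ ≤ _ := by gcongr
  have hK : 𝒦 {z ∈ W | a z ≠ 0} := by
    refine H.mono _ _ ?_ (H.supp δ hδ)
    rintro z ⟨hz, hz'⟩
    rcases alt z hz with h1 | ⟨h1, h2⟩ | ⟨h1, h2, -⟩
    · exact absurd (by simp [ha, h1]) hz'
    · exact absurd (by simp [ha, h1]) hz'
    · exact ⟨hz, h1, h2⟩
  have hT₁c : IntegrableOn (fun z => (T₁ z : ℂ)) W := hT₁i.ofReal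
  have hsum : IntegrableOn (fun z => (T₁ z : ℂ) + T₂ z) W := hT₁c.add hT₂i
  have hst := H.stokes a (fun z hz => (hac z hz).contDiffWithinAt) hK hai
    (hsum.congr_fun (fun z hz => (hXa z hz).symm) hW)
  rw [setIntegral_congr_fun hW hXa, integral_add hT₁c hT₂i, integral_complex_ofReal]
    at hst
  refine ⟨hT₁i, fun R hR hle => ?_⟩
  have h1 : ((∫ z in W, T₁ z : ℝ) : ℂ) = -∫ z in W, T₂ z := eq_neg_of_add_eq_zero_left hst
  calc ∫ z in W, T₁ z ≤ ‖((∫ z in W, T₁ z : ℝ) : ℂ)‖ := by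
        rw [Complex.norm_real]
        exact le_abs_self _
    _ = ‖∫ z in W, T₂ z‖ := by rw [h1, norm_neg]
    _ ≤ ∫ z in W, ‖T₂ z‖ := norm_integral_le_integral_norm _
    _ ≤ ∫ z in W, R z := by
      refine setIntegral_mono_on hT₂i.norm hR hW fun z hz => ?_
      rw [hnT₂]
      exact hle z hz

/-- Weighted Caccioppoli inequality. -/
theorem weighted (H : CutData W c 𝒦 h ψ) {g : ℝ → ℝ}
    (hg : ∀ t ∈ Ioc (0 : ℝ) 1, ContDiffAt ℝ 1 g t) (hg0 : ∀ t ∈ Ioc (0 : ℝ) 1, 0 ≤ g t)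
    (hΦ : ∀ z ∈ W, g (nsq (h z)) ^ 2 * ‖hdot (h z) (fderiv ℂ h z (c z))‖ ^ 2 ≤
      g (nsq (h z)) * nsq (fderiv ℂ h z (c z)) +
        deriv g (nsq (h z)) * ‖hdot (h z) (fderiv ℂ h z (c z))‖ ^ 2) :
    IntegrableOn (fun z => ψ z ^ 2 * (g (nsq (h z)) * nsq (fderiv ℂ h z (c z)) +
      deriv g (nsq (h z)) * ‖hdot (h z) (fderiv ℂ h z (c z))‖ ^ 2)) W := by
  have hW := H.isOpen.measurableSet
  set Φ : (Fin k → ℂ) → ℝ := fun z => ψ z ^ 2 * (g (nsq (h z)) * nsq (fderiv ℂ h z (c z)) +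
      deriv g (nsq (h z)) * ‖hdot (h z) (fderiv ℂ h z (c z))‖ ^ 2) with hΦd
  have hΦc : ContinuousOn Φ W :=
    (H.hψ.continuousOn.pow 2).mul
      (((H.continuousOn_comp_u fun t ht => (hg t ht).continuousAt).mul H.continuousOn_e).add
        ((H.continuousOn_comp_u fun t ht => continuousAt_deriv_of_contDiffAt (hg t ht)).mul
          (H.continuousOn_nb.pow 2)))
  have hΦ0 : ∀ z ∈ W, 0 ≤ Φ z := fun z hz =>
    mul_nonneg (sq_nonneg _) (le_trans (by positivity) (hΦ z hz))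
  set f : ℕ → (Fin k → ℂ) → ℝ := fun n z => lcut n (nsq (h z)) * Φ z with hf
  have hfc : ∀ n, ContinuousOn (f n) W := fun n =>
    (H.continuousOn_comp_u fun t ht => (contDiffAt_lcut n ht.1).continuousAt).mul hΦc
  have hf0 : ∀ n, ∀ z ∈ W, 0 ≤ f n z := fun n z hz => mul_nonneg (lcut_nonneg _ _) (hΦ0 z hz)
  set C : ℝ := ∫ z in W, ‖dz (fun y => (ψ y : ℂ)) z (c z)‖ ^ 2 with hC
  have hbound : ∀ n, IntegrableOn (f n) W ∧ ∫ z in W, f n z ≤ 4 * C := by
    intro n
    obtain ⟨hi, hle⟩ := H.key (p := fun t => lcut n t * g t)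
      (fun t ht => (contDiffAt_lcut n ht.1).mul (hg t ht)) (Real.exp_pos (-2 * (n + 1)))
      (fun t ht => by rw [lcut_eq_zero n ht, zero_mul])
    have hfle : ∀ z ∈ W, f n z ≤ ψ z ^ 2 * (lcut n (nsq (h z)) * g (nsq (h z)) *
        nsq (fderiv ℂ h z (c z)) + deriv (fun t => lcut n t * g t) (nsq (h z)) *
          ‖hdot (h z) (fderiv ℂ h z (c z))‖ ^ 2) := by
      intro z hz
      have hu := H.nsq_mem hz
      rw [deriv_fun_mul ((contDiffAt_lcut n hu.1).differentiableAt (by simp))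
        ((hg _ hu).differentiableAt (by simp))]
      have h1 : 0 ≤ ψ z ^ 2 * (deriv (lcut n) (nsq (h z)) * g (nsq (h z)) *
          ‖hdot (h z) (fderiv ℂ h z (c z))‖ ^ 2) :=
        mul_nonneg (sq_nonneg _) (mul_nonneg (mul_nonneg (deriv_lcut_nonneg n hu.1) (hg0 _ hu))
          (sq_nonneg _))
      simp only [hf, hΦd]
      linarith
    have hfi : IntegrableOn (f n) W := by
      refine Integrable.mono' hi ((hfc n).aestronglyMeasurable hW) ?_
      refine (ae_restrict_iff' hW).2 (Eventually.of_forall fun z hz => ?_)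
      rw [Real.norm_eq_abs, abs_of_nonneg (hf0 n z hz)]
      exact hfle z hz
    refine ⟨hfi, ?_⟩
    have h1 := hle (fun z => 1 / 2 * f n z + 2 * ‖dz (fun y => (ψ y : ℂ)) z (c z)‖ ^ 2)
      (Integrable.fun_add (hfi.const_mul (1 / 2)) (H.ψenergy.const_mul 2)) (by
        intro z hz
        have hu := H.nsq_mem hz
        have hq0 := lcut_nonneg n (nsq (h z))
        have hq1 := lcut_le_one n (nsq (h z))
        have hgz := hg0 _ hu
        have h2 := hΦ z hz
        rw [abs_of_nonneg (mul_nonneg hq0 hgz)]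
        simp only [hf, hΦd]
        set A := ‖dz (fun y => (ψ y : ℂ)) z (c z)‖
        set B := ‖hdot (h z) (fderiv ℂ h z (c z))‖
        set q := lcut n (nsq (h z))
        set G := g (nsq (h z))
        set P := G * nsq (fderiv ℂ h z (c z)) + deriv g (nsq (h z)) * B ^ 2
        have h3 : 2 * |ψ z| * G * A * B ≤ 1 / 2 * (ψ z ^ 2 * (G ^ 2 * B ^ 2)) + 2 * A ^ 2 := by
          rw [← sq_abs (ψ z)]
          nlinarith [sq_nonneg (|ψ z| * G * B - 2 * A)]
        have h4 : ψ z ^ 2 * (G ^ 2 * B ^ 2) ≤ ψ z ^ 2 * P := by gcongr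
        calc 2 * |ψ z| * (q * G) * A * B = q * (2 * |ψ z| * G * A * B) := by ring
          _ ≤ q * (1 / 2 * (ψ z ^ 2 * P) + 2 * A ^ 2) := by
            gcongr
            linarith
          _ = 1 / 2 * (q * (ψ z ^ 2 * P)) + q * (2 * A ^ 2) := by ring
          _ ≤ 1 / 2 * (q * (ψ z ^ 2 * P)) + 2 * A ^ 2 := by
            have := mul_le_of_le_one_left (by positivity : 0 ≤ 2 * A ^ 2) hq1
            linarith)
    rw [integral_add (hfi.const_mul _) (H.ψenergy.const_mul _), integral_const_mul,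
      integral_const_mul] at h1
    have h2 := setIntegral_mono_on hfi hi hW hfle
    linarith
  refine ⟨hΦc.aestronglyMeasurable hW, ?_⟩
  have hlim : ∀ z ∈ W, ‖Φ z‖ₑ = liminf (fun n => ‖f n z‖ₑ) atTop := by
    intro z hz
    symm
    apply Tendsto.liminf_eq
    refine tendsto_const_nhds.congr' ?_
    filter_upwards [eventually_lcut (H.nsq_mem hz).1] with n hn
    simp only [hf, hn.1, one_mul]
  have hle : ∀ n, ∫⁻ z in W, ‖f n z‖ₑ ≤ ENNReal.ofReal (4 * C) := by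
    intro n
    rw [← ofReal_integral_norm_eq_lintegral_enorm (hbound n).1]
    refine ENNReal.ofReal_le_ofReal (le_trans (le_of_eq ?_) (hbound n).2)
    exact setIntegral_congr_fun hW fun z hz => by
      simp only [Real.norm_eq_abs, abs_of_nonneg (hf0 n z hz)]
  unfold HasFiniteIntegral
  calc ∫⁻ z in W, ‖Φ z‖ₑ = ∫⁻ z in W, liminf (fun n => ‖f n z‖ₑ) atTop :=
        setLIntegral_congr_fun hW hlim
    _ ≤ liminf (fun n => ∫⁻ z in W, ‖f n z‖ₑ) atTop :=
        lintegral_liminf_le' fun n => ((hfc n).aestronglyMeasurable hW).enorm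
    _ ≤ ENNReal.ofReal (4 * C) :=
        liminf_le_of_frequently_le' (Frequently.of_forall hle)
    _ < ⊤ := ENNReal.ofReal_lt_top

/-- The logarithmic energy is finite. -/
theorem log_energy (H : CutData W c 𝒦 h ψ) :
    IntegrableOn (fun z => ψ z ^ 2 * (lwt (nsq (h z)) ^ 2 *
      ‖hdot (h z) (fderiv ℂ h z (c z))‖ ^ 2)) W := by
  have hW := H.isOpen.measurableSet
  have hΦ : ∀ z ∈ W, lwt (nsq (h z)) ^ 2 * ‖hdot (h z) (fderiv ℂ h z (c z))‖ ^ 2 ≤
      lwt (nsq (h z)) * nsq (fderiv ℂ h z (c z)) +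
        deriv lwt (nsq (h z)) * ‖hdot (h z) (fderiv ℂ h z (c z))‖ ^ 2 := by
    intro z hz
    have hu := H.nsq_mem hz
    rw [deriv_lwt hu]
    have h1 : ‖hdot (h z) (fderiv ℂ h z (c z))‖ ^ 2 / nsq (h z) ≤ nsq (fderiv ℂ h z (c z)) := by
      rw [div_le_iff₀' hu.1]
      exact norm_hdot_sq_le _ _
    have h2 := mul_le_mul_of_nonneg_left h1 (lwt_pos hu).le
    have h3 : lwt (nsq (h z)) * (‖hdot (h z) (fderiv ℂ h z (c z))‖ ^ 2 / nsq (h z)) =
        lwt (nsq (h z)) / nsq (h z) * ‖hdot (h z) (fderiv ℂ h z (c z))‖ ^ 2 := by ring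
    linarith
  have hi := H.weighted (g := lwt) (fun t ht => contDiffAt_lwt ht)
    (fun t ht => (lwt_pos ht).le) hΦ
  have hc : ContinuousOn (fun z => ψ z ^ 2 * (lwt (nsq (h z)) ^ 2 *
      ‖hdot (h z) (fderiv ℂ h z (c z))‖ ^ 2)) W :=
    (H.hψ.continuousOn.pow 2).mul
      (((H.continuousOn_comp_u fun t ht => (contDiffAt_lwt ht).continuousAt).pow 2).mul
        (H.continuousOn_nb.pow 2))
  refine Integrable.mono' hi (hc.aestronglyMeasurable hW) ?_
  refine (ae_restrict_iff' hW).2 (Eventually.of_forall fun z hz => ?_)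
  rw [Real.norm_eq_abs, abs_of_nonneg (by positivity)]
  exact mul_le_mul_of_nonneg_left (hΦ z hz) (sq_nonneg _)

end CutData

/-- Caccioppoli inequality. -/
theorem CutData.caccioppoli {W : Set (Fin k → ℂ)} {c : (Fin k → ℂ) → (Fin k → ℂ)}
    {𝒦 : Set (Fin k → ℂ) → Prop} {h : (Fin k → ℂ) → (κ → ℂ)} {ψ : (Fin k → ℂ) → ℝ}
    (H : CutData W c 𝒦 h ψ) :
    IntegrableOn (fun z => ψ z ^ 2 * nsq (fderiv ℂ h z (c z))) W := by
  have hi := H.weighted (g := fun _ => 1) (fun _ _ => contDiffAt_const) (fun _ _ => zero_le_one)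
    (fun z hz => by simpa using H.nb_sq_le hz)
  simpa using hi

/-- Stokes formula across the set `h = 0`. -/
theorem CutData.stokes_step {W : Set (Fin k → ℂ)} {c : (Fin k → ℂ) → (Fin k → ℂ)}
    {𝒦 : Set (Fin k → ℂ) → Prop} {h : (Fin k → ℂ) → (κ → ℂ)} {ψ : (Fin k → ℂ) → ℝ}
    (H : CutData W c 𝒦 h ψ) {a : (Fin k → ℂ) → ℂ} (ha : ContDiffOn ℝ 1 a W)
    (hψa : ∀ z ∈ W, a z ≠ 0 → ψ z = 1) (h2 : IntegrableOn (fun z => ‖a z‖ ^ 2) W)
    (h1 : IntegrableOn (fun z => dz a z (c z)) W) : ∫ z in W, dz a z (c z) = 0 := by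
  have hW := H.isOpen.measurableSet
  obtain ⟨L, hL⟩ := exists_deriv_lcut_le
  have hq : ∀ n, ∀ t ∈ Ioc (0 : ℝ) 1, ContDiffAt ℝ 1 (lcut n) t :=
    fun n t ht => contDiffAt_lcut n ht.1
  set A : ℕ → (Fin k → ℂ) → ℂ := fun n z => (lcut n (nsq (h z)) : ℂ) * a z with hA
  have hAc : ∀ n, ContDiffOn ℝ 1 (A n) W := fun n z hz =>
    (H.contDiffAt_pu (hq n) hz).contDiffWithinAt.mul (ha z hz)
  have hXA : ∀ n, ∀ z ∈ W, dz (A n) z (c z) =
      (deriv (lcut n) (nsq (h z)) : ℝ) * hdot (h z) (fderiv ℂ h z (c z)) * a z +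
        (lcut n (nsq (h z)) : ℂ) * dz a z (c z) := by
    intro n z hz
    rw [← H.dz_pu (hq n) hz]
    exact dz_mul ((H.contDiffAt_pu (hq n) hz).differentiableAt (by simp))
      ((ha.contDiffAt (H.isOpen.mem_nhds hz)).differentiableAt (by simp)) (c z)
  set R : (Fin k → ℂ) → ℝ := fun z => L ^ 2 * (ψ z ^ 2 * (lwt (nsq (h z)) ^ 2 *
      ‖hdot (h z) (fderiv ℂ h z (c z))‖ ^ 2)) + ‖a z‖ ^ 2 + ‖dz a z (c z)‖ with hR
  have hRi : IntegrableOn R W := ((H.log_energy.const_mul _).add h2).add h1.norm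
  have hle : ∀ n, ∀ z ∈ W, ‖dz (A n) z (c z)‖ ≤ R z := by
    intro n z hz
    have hu := H.nsq_mem hz
    rw [hXA n z hz]
    refine (norm_add_le _ _).trans (add_le_add ?_ ?_)
    · by_cases h0 : a z = 0
      · simp only [h0, mul_zero, norm_zero]
        positivity
      · rw [hψa z hz h0, norm_mul, norm_mul, Complex.norm_real, Real.norm_eq_abs,
          abs_of_nonneg (deriv_lcut_nonneg n hu.1)]
        have h3 := hL n _ hu
        set B := ‖hdot (h z) (fderiv ℂ h z (c z))‖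
        have hB : 0 ≤ B := norm_nonneg _
        have h4 : deriv (lcut n) (nsq (h z)) * B * ‖a z‖ ≤ L * lwt (nsq (h z)) * B * ‖a z‖ := by
          gcongr
        nlinarith [sq_nonneg (L * lwt (nsq (h z)) * B - ‖a z‖),
          sq_nonneg (L * lwt (nsq (h z)) * B), sq_nonneg ‖a z‖]
    · rw [norm_mul, Complex.norm_real, Real.norm_eq_abs, abs_of_nonneg (lcut_nonneg _ _)]
      exact mul_le_of_le_one_left (norm_nonneg _) (lcut_le_one _ _)
  have hmeas : ∀ n, AEStronglyMeasurable (fun z => dz (A n) z (c z)) (volume.restrict W) :=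
    fun n => (continuousOn_dz H.isOpen (hAc n) H.hc.continuousOn).aestronglyMeasurable hW
  have hle' : ∀ n, ∀ᵐ z ∂(volume.restrict W), ‖dz (A n) z (c z)‖ ≤ R z :=
    fun n => (ae_restrict_iff' hW).2 (Eventually.of_forall (hle n))
  have hzero : ∀ n, ∫ z in W, dz (A n) z (c z) = 0 := by
    intro n
    refine H.stokes (A n) (hAc n) ?_ ?_ (Integrable.mono' hRi (hmeas n) (hle' n))
    · refine H.mono _ _ ?_ (H.supp _ (Real.exp_pos (-2 * (n + 1))))
      rintro z ⟨hz, hz'⟩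
      have h3 : a z ≠ 0 := right_ne_zero_of_mul hz'
      have h4 : (lcut n (nsq (h z)) : ℂ) ≠ 0 := left_ne_zero_of_mul hz'
      refine ⟨hz, by rw [hψa z hz h3]; exact one_ne_zero, ?_⟩
      by_contra h5
      exact h4 (by rw [lcut_eq_zero n ⟨(H.nsq_mem hz).1, not_le.1 h5⟩, Complex.ofReal_zero])
    · refine Integrable.mono' h2 (((hAc n).continuousOn.norm.pow 2).aestronglyMeasurable hW) ?_
      refine Eventually.of_forall fun z => ?_
      rw [Real.norm_eq_abs, abs_of_nonneg (sq_nonneg _)]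
      simp only [hA]
      rw [norm_mul, Complex.norm_real, Real.norm_eq_abs, abs_of_nonneg (lcut_nonneg _ _)]
      have h3 := mul_le_of_le_one_left (norm_nonneg (a z)) (lcut_le_one n (nsq (h z)))
      have h4 := mul_nonneg (lcut_nonneg n (nsq (h z))) (norm_nonneg (a z))
      gcongr
  have hlim : Tendsto (fun n => ∫ z in W, dz (A n) z (c z)) atTop
      (𝓝 (∫ z in W, dz a z (c z))) := by
    refine tendsto_integral_of_dominated_convergence R hmeas hRi hle' ?_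
    refine (ae_restrict_iff' hW).2 (Eventually.of_forall fun z hz => ?_)
    refine tendsto_const_nhds.congr' ?_
    filter_upwards [eventually_lcut (H.nsq_mem hz).1] with n hn
    rw [hXA n z hz, hn.1, hn.2]
    simp
  simp only [hzero] at hlim
  exact tendsto_nhds_unique hlim tendsto_const_nhds

end Pool.Agent.Lib.MP_940f24_an
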