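import Mathlib

/-!
Definitions used in the statement: analytic subsets, reduced complex spaces (given by an atlas
of local embeddings), Hermitian metric forms, meromorphic mappings and the volume of the image.
-/

open Set Filter Topology MeasureTheory
open scoped ContDiff ComplexOrder Matrix ENNReal

namespace Pool.Agent.Lib.MP_940f24_an

universe u

/-- `A` is analytic at the point `a`: near `a` it is the common zero set of finitely many
holomorphic functions. -/
def AnAt {E : Type} [NormedAddCommGroup E] [NormedSpace ℂ E] (A : Set E) (a : E) : Prop :=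
  ∃ (r : ℕ) (g : E → (Fin r → ℂ)), AnalyticAt ℂ g a ∧ ∀ᶠ x in 𝓝 a, (x ∈ A ↔ g x = 0)

/-- `A` is an analytic subset of the open set `Ω`. -/
def IsAnalyticSubset {E : Type} [NormedAddCommGroup E] [NormedSpace ℂ E] (Ω A : Set E) : Prop :=
  A ⊆ Ω ∧ ∀ a ∈ Ω, AnAt A a

/-- A structure of reduced complex space on `X`: an atlas of homeomorphisms of open subsets of
`X` onto analytic subsets of open subsets of `ℂ ^ n`, whose transition maps are holomorphic
(locally restrictions of holomorphic maps of the ambient spaces). -/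
structure ComplexAtlas (X : Type u) [TopologicalSpace X] where
  ι : Type u
  dim : ι → ℕ
  source : ι → Set X
  ambient : (i : ι) → Set (Fin (dim i) → ℂ)
  chart : (i : ι) → X → (Fin (dim i) → ℂ)
  chartAt : X → ι
  mem_source_chartAt : ∀ x, x ∈ source (chartAt x)
  isOpen_source : ∀ i, IsOpen (source i)
  isOpen_ambient : ∀ i, IsOpen (ambient i)
  isEmbedding : ∀ i, IsEmbedding (fun x : source i => chart i x)
  analytic_image : ∀ i, IsAnalyticSubset (ambient i) (chart i '' source i)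
  transition : ∀ i j, ∀ x ∈ source i ∩ source j,
    ∃ τ : (Fin (dim i) → ℂ) → (Fin (dim j) → ℂ), AnalyticAt ℂ τ (chart i x) ∧
      ∀ᶠ y in 𝓝 x, τ (chart i y) = chart j y

variable {X : Type u} [TopologicalSpace X]

/-- `f` is a holomorphic map from the open set `U` to the complex space `X`. -/
def ComplexAtlas.Holomorphic (𝒜 : ComplexAtlas X) {E : Type} [NormedAddCommGroup E]
    [NormedSpace ℂ E] (U : Set E) (f : E → X) : Prop :=
  ContinuousOn f U ∧ ∀ i, ∀ z ∈ U, f z ∈ 𝒜.source i → AnalyticAt ℂ (𝒜.chart i ∘ f) z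

/-- The part of `S ⊆ ℂ ^ k × X` lying over the chart `i`, read in that chart. -/
def ComplexAtlas.chartImage (𝒜 : ComplexAtlas X) {k : ℕ} (i : 𝒜.ι)
    (S : Set ((Fin k → ℂ) × X)) : Set ((Fin k → ℂ) × (Fin (𝒜.dim i) → ℂ)) :=
  {p | ∃ x ∈ 𝒜.source i, (p.1, x) ∈ S ∧ 𝒜.chart i x = p.2}

/-- `S` is an analytic subset of the complex space `D × X`. -/
def ComplexAtlas.IsAnalyticProd (𝒜 : ComplexAtlas X) {k : ℕ} (D : Set (Fin k → ℂ))
    (S : Set ((Fin k → ℂ) × X)) : Prop :=
  S ⊆ D ×ˢ univ ∧ ∀ i, IsAnalyticSubset (D ×ˢ 𝒜.ambient i) (𝒜.chartImage i S)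

/-- A Hermitian metric form on `X`: in every chart a smooth field of positive definite Hermitian
matrices on the ambient open set; on overlaps the fields give the same length to the tangent
vector of every holomorphic disc in `X`. -/
structure HermitianForm (𝒜 : ComplexAtlas X) where
  h : (i : 𝒜.ι) → (Fin (𝒜.dim i) → ℂ) → Matrix (Fin (𝒜.dim i)) (Fin (𝒜.dim i)) ℂ
  smooth : ∀ i a b, ContDiffOn ℝ ∞ (fun y => h i y a b) (𝒜.ambient i)
  posDef : ∀ i, ∀ y ∈ 𝒜.ambient i, (h i y).PosDef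
  compat : ∀ i j (γ : ℂ → X) (r : ℝ), 0 < r → 𝒜.Holomorphic (Metric.ball 0 r) γ →
    γ 0 ∈ 𝒜.source i → γ 0 ∈ 𝒜.source j →
    star (deriv (𝒜.chart i ∘ γ) 0) ⬝ᵥ (h i (𝒜.chart i (γ 0)) *ᵥ deriv (𝒜.chart i ∘ γ) 0) =
      star (deriv (𝒜.chart j ∘ γ) 0) ⬝ᵥ (h j (𝒜.chart j (γ 0)) *ᵥ deriv (𝒜.chart j ∘ γ) 0)

/-- The complex Jacobian matrix of `F : ℂ ^ k → ℂ ^ ι` at `z`. -/
noncomputable def jac {k : ℕ} {ι : Type} [Fintype ι] (F : (Fin k → ℂ) → (ι → ℂ))
    (z : Fin k → ℂ) : Matrix ι (Fin k) ℂ :=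
  Matrix.of fun m l => fderiv ℂ F z (Pi.single l 1) m

/-- The Hermitian matrix of the pulled back form `f^* ω` at `z`, computed in the chart `i`. -/
noncomputable def HermitianForm.pullback {𝒜 : ComplexAtlas X} (om : HermitianForm 𝒜) {k : ℕ}
    (i : 𝒜.ι) (f : (Fin k → ℂ) → X) (z : Fin k → ℂ) : Matrix (Fin k) (Fin k) ℂ :=
  (jac (𝒜.chart i ∘ f) z)ᴴ * om.h i (𝒜.chart i (f z)) * jac (𝒜.chart i ∘ f) z

/-- `∫_U (f^* ω) ^ k`: the density of `(f^* ω) ^ k` with respect to Lebesgue measure is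
`k! * det` of the pulled back Hermitian matrix. -/
noncomputable def HermitianForm.imageVolume {𝒜 : ComplexAtlas X} (om : HermitianForm 𝒜) {k : ℕ}
    (U : Set (Fin k → ℂ)) (f : (Fin k → ℂ) → X) : ℝ≥0∞ :=
  ∫⁻ z in U, ENNReal.ofReal (k.factorial * (om.pullback (𝒜.chartAt (f z)) f z).det.re)

/-- The closure in `D × X` of the graph of `f` over `D \ I`. -/
def graphClosure {k : ℕ} (D I : Set (Fin k → ℂ)) (f : (Fin k → ℂ) → X) :
    Set ((Fin k → ℂ) × X) :=
  closure {p | p.1 ∈ D \ I ∧ p.2 = f p.1} ∩ D ×ˢ univ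

/-- `f` is a meromorphic mapping from the open set `D ⊆ ℂ ^ k` to `X` with indeterminacy set
`I`: `I` is an analytic subset of `D` of codimension at least two (zero `(2k-2)`-dimensional
Hausdorff measure), `f` is holomorphic on `D \ I`, and the closure of its graph is an
irreducible analytic subset of `D × X`. -/
structure ComplexAtlas.IsMeromorphic (𝒜 : ComplexAtlas X) {k : ℕ} (D I : Set (Fin k → ℂ))
    (f : (Fin k → ℂ) → X) : Prop where
  analytic_indet : IsAnalyticSubset D I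
  codim_two : μH[2 * (k : ℝ) - 2] I = 0
  holomorphic : 𝒜.Holomorphic (D \ I) f
  analytic_graph : 𝒜.IsAnalyticProd D (graphClosure D I f)
  irreducible : ∀ A₁ A₂, 𝒜.IsAnalyticProd D A₁ → 𝒜.IsAnalyticProd D A₂ →
    graphClosure D I f = A₁ ∪ A₂ → graphClosure D I f = A₁ ∨ graphClosure D I f = A₂

/-- The open unit polydisk of `ℂ ^ k`. -/
def polydisk (k : ℕ) : Set (Fin k → ℂ) := {z | ∀ i, ‖z i‖ < 1}

end Pool.Agent.Lib.MP_940f24_an
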