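import Pool.Agent.Lib.MP_940f24_an.Symm

/-!
The argument principle with weights and elimination of one variable.
-/

open Set Filter Topology MeasureTheory Metric Complex Polynomial
open scoped Real

namespace Pool.Agent.Lib.MP_940f24_an

/-- The multiset `Z` lists the zeros of `f` in the disc and computes the weighted logarithmic
integrals over the circle. -/
def ZerosSpec (f : ℂ → ℂ) (c : ℂ) (ρ : ℝ) (Z : Multiset ℂ) : Prop :=
  (∀ t, t ∈ Z ↔ t ∈ ball c ρ ∧ f t = 0) ∧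
    ∀ h : ℂ → ℂ, AnalyticOnNhd ℂ h (closedBall c ρ) →
      (∮ t in C(c, ρ), h t * (deriv f t / f t)) = 2 * π * I * (Z.map h).sum

theorem zerosSpec_of_ne {f : ℂ → ℂ} {c : ℂ} {ρ : ℝ} (hρ : 0 < ρ)
    (hf : AnalyticOnNhd ℂ f (closedBall c ρ)) (hne : ∀ t ∈ closedBall c ρ, f t ≠ 0) :
    ZerosSpec f c ρ 0 := by
  refine ⟨fun t => ⟨fun h => absurd h (Multiset.notMem_zero t),
    fun h => absurd h.2 (hne t (ball_subset_closedBall h.1))⟩, fun h hh => ?_⟩
  have ha : AnalyticOnNhd ℂ (fun t => h t * (deriv f t / f t)) (closedBall c ρ) :=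
    fun t ht => (hh t ht).mul ((hf t ht).deriv.div (hf t ht) (hne t ht))
  rw [circleIntegral_eq_zero_of_differentiable_on_off_countable hρ.le countable_empty
    ha.continuousOn fun z hz => (ha z (ball_subset_closedBall hz.1)).differentiableAt]
  simp

theorem ZerosSpec.mul_sub {f : ℂ → ℂ} {c : ℂ} {ρ : ℝ} (hρ : 0 < ρ)
    (hf : AnalyticOnNhd ℂ f (closedBall c ρ)) (hne : ∀ t ∈ sphere c ρ, f t ≠ 0)
    {Z : Multiset ℂ} (hZ : ZerosSpec f c ρ Z) {z : ℂ} (hz : z ∈ ball c ρ) :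
    ZerosSpec (fun t => (t - z) * f t) c ρ (z ::ₘ Z) := by
  refine ⟨fun t => ?_, fun h hh => ?_⟩
  · rw [Multiset.mem_cons, hZ.1, mul_eq_zero, sub_eq_zero]
    constructor
    · rintro (rfl | h)
      · exact ⟨hz, Or.inl rfl⟩
      · exact ⟨h.1, Or.inr h.2⟩
    · rintro ⟨h1, h2 | h2⟩
      · exact Or.inl h2
      · exact Or.inr ⟨h1, h2⟩
  · have hzs : ∀ t ∈ sphere c ρ, t - z ≠ 0 := fun t ht =>
      sub_ne_zero.2 (ne_of_mem_of_not_mem ht (ne_of_lt hz))
    have he : EqOn (fun t => h t * (deriv (fun t => (t - z) * f t) t / ((t - z) * f t)))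
        (fun t => (t - z)⁻¹ • h t + h t * (deriv f t / f t)) (sphere c ρ) := by
      intro t ht
      have hd : HasDerivAt (fun t => (t - z) * f t) (1 * f t + (t - z) * deriv f t) t :=
        ((hasDerivAt_id t).sub_const z).mul
          (hf t (sphere_subset_closedBall ht)).differentiableAt.hasDerivAt
      have h1 := hzs t ht
      have h2 := hne t ht
      simp only [hd.deriv, smul_eq_mul]
      field_simp
    have hc1 : ContinuousOn (fun t => (t - z)⁻¹ • h t) (sphere c ρ) :=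
      ((continuousOn_id.sub continuousOn_const).inv₀ hzs).smul
        (hh.continuousOn.mono sphere_subset_closedBall)
    have hc2 : ContinuousOn (fun t => h t * (deriv f t / f t)) (sphere c ρ) := fun t ht =>
      have ht' := sphere_subset_closedBall ht
      ((hh t ht').mul ((hf t ht').deriv.div (hf t ht') (hne t ht))).continuousAt.continuousWithinAt
    rw [circleIntegral.integral_congr hρ.le he,
      circleIntegral.integral_add (hc1.circleIntegrable hρ.le) (hc2.circleIntegrable hρ.le),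
      circleIntegral_sub_inv_smul_of_differentiable_on_off_countable countable_empty hz
        hh.continuousOn (fun w hw => (hh w (ball_subset_closedBall hw.1)).differentiableAt),
      hZ.2 h hh, Multiset.map_cons, Multiset.sum_cons, smul_eq_mul, mul_add]

theorem ZerosSpec.pow_mul {f : ℂ → ℂ} {c : ℂ} {ρ : ℝ} (hρ : 0 < ρ)
    (hf : AnalyticOnNhd ℂ f (closedBall c ρ)) (hne : ∀ t ∈ sphere c ρ, f t ≠ 0)
    {Z : Multiset ℂ} (hZ : ZerosSpec f c ρ Z) {z : ℂ} (hz : z ∈ ball c ρ) (n : ℕ) :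
    ∃ Z', ZerosSpec (fun t => (t - z) ^ n * f t) c ρ Z' := by
  have hzs : ∀ t ∈ sphere c ρ, t - z ≠ 0 := fun t ht =>
    sub_ne_zero.2 (ne_of_mem_of_not_mem ht (ne_of_lt hz))
  induction n with
  | zero => exact ⟨Z, by simpa using hZ⟩
  | succ n ih =>
    obtain ⟨Z', hZ'⟩ := ih
    have ha : AnalyticOnNhd ℂ (fun t => (t - z) ^ n * f t) (closedBall c ρ) := fun t ht =>
      ((analyticAt_id.sub analyticAt_const).pow n).mul (hf t ht)
    refine ⟨z ::ₘ Z', ?_⟩
    have e : (fun t => (t - z) ^ (n + 1) * f t) = fun t => (t - z) * ((t - z) ^ n * f t) := by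
      funext t
      ring
    rw [e]
    exact hZ'.mul_sub hρ ha (fun t ht => mul_ne_zero (pow_ne_zero _ (hzs t ht)) (hne t ht)) hz

theorem not_eventually_zero_of_sphere {f : ℂ → ℂ} {c : ℂ} {ρ : ℝ} (hρ : 0 < ρ)
    (hf : AnalyticOnNhd ℂ f (closedBall c ρ)) (hne : ∀ t ∈ sphere c ρ, f t ≠ 0) {z : ℂ}
    (hz : z ∈ closedBall c ρ) : ¬ ∀ᶠ t in 𝓝 z, f t = 0 := by
  intro h
  obtain ⟨t, ht⟩ : (sphere c ρ).Nonempty := NormedSpace.sphere_nonempty.2 hρ.le
  exact hne t ht (hf.eqOn_zero_of_preconnected_of_eventuallyEq_zero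
    (convex_closedBall c ρ).isPreconnected hz h (sphere_subset_closedBall ht))

theorem exists_zerosSpec_of_subset {c : ℂ} {ρ : ℝ} (hρ : 0 < ρ) (S : Finset ℂ) :
    ∀ f : ℂ → ℂ, AnalyticOnNhd ℂ f (closedBall c ρ) → (∀ t ∈ sphere c ρ, f t ≠ 0) →
      (∀ t ∈ closedBall c ρ, f t = 0 → t ∈ S) → ∃ Z, ZerosSpec f c ρ Z := by
  classical
  induction S using Finset.induction_on with
  | empty =>
    intro f hf _ hS
    exact ⟨0, zerosSpec_of_ne hρ hf fun t ht h0 => by simpa using hS t ht h0⟩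
  | insert z S _ ih =>
    intro f hf hne hS
    by_cases hz : z ∈ ball c ρ
    · obtain ⟨n, g, hg, hg0, hfg⟩ := (hf z (ball_subset_closedBall hz))
        |>.exists_eventuallyEq_pow_smul_nonzero_iff.2
          (not_eventually_zero_of_sphere hρ hf hne (ball_subset_closedBall hz))
      let f₁ : ℂ → ℂ := fun t => if t = z then g z else f t / (t - z) ^ n
      have hf₁ : ∀ t, f t = (t - z) ^ n * f₁ t := by
        intro t
        by_cases ht : t = z
        · subst ht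
          simpa [f₁] using hfg.self_of_nhds
        · have : (t - z) ^ n ≠ 0 := pow_ne_zero _ (sub_ne_zero.2 ht)
          simp only [f₁, ht, if_false]
          field_simp
      have ha : AnalyticOnNhd ℂ f₁ (closedBall c ρ) := by
        intro t ht
        by_cases htz : t = z
        · subst htz
          refine hg.congr ?_
          filter_upwards [hfg] with w hw
          by_cases hwt : w = t
          · simp [f₁, hwt]
          · have : (w - t) ^ n ≠ 0 := pow_ne_zero _ (sub_ne_zero.2 hwt)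
            simp only [f₁, hwt, if_false, hw, smul_eq_mul]
            field_simp
        · have h1 : AnalyticAt ℂ (fun w => f w / (w - z) ^ n) t :=
            (hf t ht).div ((analyticAt_id.sub analyticAt_const).pow n)
              (pow_ne_zero _ (sub_ne_zero.2 htz))
          refine h1.congr ?_
          filter_upwards [eventually_ne_nhds htz] with w hw
          simp [f₁, hw]
      have hne₁ : ∀ t ∈ sphere c ρ, f₁ t ≠ 0 := fun t ht h0 =>
        hne t ht (by rw [hf₁ t, h0, mul_zero])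
      obtain ⟨Z, hZ⟩ := ih f₁ ha hne₁ fun t ht h0 => by
        have h1 := hS t ht (by rw [hf₁ t, h0, mul_zero])
        rcases Finset.mem_insert.1 h1 with rfl | h1
        · exact absurd (by simpa [f₁] using h0) hg0
        · exact h1
      obtain ⟨Z', hZ'⟩ := hZ.pow_mul hρ ha hne₁ hz n
      exact ⟨Z', by rw [funext hf₁]; exact hZ'⟩
    · refine ih f hf hne fun t ht h0 => ?_
      rcases Finset.mem_insert.1 (hS t ht h0) with rfl | h1
      · exact absurd h0 (hne t (by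
          rw [mem_sphere]
          exact le_antisymm ht (not_lt.1 hz)))
      · exact h1

/-- Argument principle with a holomorphic weight. -/
theorem exists_multiset_zeros {f : ℂ → ℂ} {c : ℂ} {ρ : ℝ} (hρ : 0 < ρ)
    (hf : AnalyticOnNhd ℂ f (closedBall c ρ)) (hne : ∀ t ∈ sphere c ρ, f t ≠ 0) :
    ∃ Z : Multiset ℂ, (∀ t, t ∈ Z ↔ t ∈ ball c ρ ∧ f t = 0) ∧
      ∀ h : ℂ → ℂ, AnalyticOnNhd ℂ h (closedBall c ρ) →
        (∮ t in C(c, ρ), h t * (deriv f t / f t)) = 2 * π * I * (Z.map h).sum := by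
  have hfin : {t ∈ closedBall c ρ | f t = 0}.Finite := by
    by_contra hinf
    obtain ⟨z, hz, hacc⟩ := Set.Infinite.exists_accPt_of_subset_isCompact hinf
      (isCompact_closedBall c ρ) (fun t ht => ht.1)
    rcases (hf z hz).eventually_eq_zero_or_eventually_ne_zero with h | h
    · exact not_eventually_zero_of_sphere hρ hf hne hz h
    · rw [accPt_iff_frequently_nhdsNE] at hacc
      obtain ⟨t, ht1, ht2⟩ := (hacc.and_eventually h).exists
      exact ht2 ht1.2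
  exact exists_zerosSpec_of_subset hρ hfin.toFinset f hf hne fun t ht h0 =>
    hfin.mem_toFinset.2 ⟨ht, h0⟩

variable {E : Type} [NormedAddCommGroup E] [NormedSpace ℂ E] [FiniteDimensional ℂ E]

/-- Sums of a holomorphic weight over the zeros depend holomorphically on parameters. -/
theorem exists_analytic_sum_zeros {q : E × ℂ → ℂ} {D : Set E} (hD : IsOpen D) {c : ℂ} {ρ : ℝ}
    (hρ : 0 < ρ) (hq : AnalyticOnNhd ℂ q (D ×ˢ closedBall c ρ))
    (hne : ∀ w ∈ D, ∀ t ∈ sphere c ρ, q (w, t) ≠ 0) {Z : E → Multiset ℂ}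
    (hZ : ∀ w ∈ D, ZerosSpec (fun t => q (w, t)) c ρ (Z w)) {G : E × ℂ → ℂ}
    (hG : AnalyticOnNhd ℂ G (D ×ˢ closedBall c ρ)) :
    ∃ H : E → ℂ, AnalyticOnNhd ℂ H D ∧ ∀ w ∈ D, H w = ((Z w).map fun t => G (w, t)).sum := by
  let Φ : E × ℂ → ℂ := fun x => G x * (fderiv ℂ q x (0, 1) / q x)
  have hΦ : AnalyticOnNhd ℂ Φ (D ×ˢ sphere c ρ) := by
    intro x hx
    have hx' : x ∈ D ×ˢ closedBall c ρ := ⟨hx.1, sphere_subset_closedBall hx.2⟩
    have h1 : AnalyticAt ℂ (fun y => fderiv ℂ q y (0, 1)) x :=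
      ((ContinuousLinearMap.apply ℂ ℂ ((0, 1) : E × ℂ)).analyticAt _).comp (hq x hx').fderiv
    exact (hG x hx').mul (h1.div (hq x hx') (hne x.1 hx.1 x.2 hx.2))
  refine ⟨fun w => (2 * π * I : ℂ)⁻¹ * ∮ t in C(c, ρ), Φ (w, t),
    analyticOnNhd_const.mul (analyticOnNhd_circleIntegral hD hρ.le hΦ), fun w hw => ?_⟩
  have hpair : ∀ t : ℂ, AnalyticAt ℂ (fun s : ℂ => ((w, s) : E × ℂ)) t := fun t =>
    analyticAt_const.prod analyticAt_id
  have hGw : AnalyticOnNhd ℂ (fun t => G (w, t)) (closedBall c ρ) := fun t ht =>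
    AnalyticAt.comp (g := G) (hG (w, t) ⟨hw, ht⟩) (hpair t)
  have he : EqOn (fun t => Φ (w, t))
      (fun t => G (w, t) * (deriv (fun s => q (w, s)) t / q (w, t))) (sphere c ρ) := by
    intro t ht
    have h1 : HasDerivAt (fun s : ℂ => ((w, s) : E × ℂ)) (0, 1) t :=
      (hasDerivAt_const t w).prodMk (hasDerivAt_id t)
    have h2 : HasDerivAt (fun s => q (w, s)) (fderiv ℂ q (w, t) (0, 1)) t :=
      HasFDerivAt.comp_hasDerivAt (l := q) t
        (hq (w, t) ⟨hw, sphere_subset_closedBall ht⟩).differentiableAt.hasFDerivAt h1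
    simp only [Φ, h2.deriv]
  have h2 : (2 * π * I : ℂ) ≠ 0 := by simp [Real.pi_ne_zero, I_ne_zero]
  change _ * _ = _
  rw [circleIntegral.integral_congr hρ.le he, (hZ w hw).2 _ hGw, ← mul_assoc,
    inv_mul_cancel₀ h2, one_mul]

/-- Elimination of one variable. -/
theorem elim_step {A : Set (E × ℂ)} {a : E × ℂ} (hA : AnAt A a) (hg : Good A a Prod.fst) :
    ∃ V ∈ 𝓝 a, AnAt (Prod.fst '' (A ∩ V)) a.1 ∧
      (∀ V' ∈ 𝓝 a, ∀ᶠ w in 𝓝 a.1, ∀ x ∈ A ∩ V, x.1 = w → x ∈ V') ∧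
      ∃ D ∈ 𝓝 a.1, ∃ (m : ℕ) (P : E → ℂ[X]), HolMonic D m P ∧
        (∀ x ∈ A ∩ V, (P x.1).eval x.2 = 0) ∧ ∀ t, (P a.1).eval t = 0 → t = a.2 := by
  classical
  obtain ⟨b, c⟩ := a
  obtain ⟨r, g, hga, hAg⟩ := hA
  have hpair : ∀ (w : E) (t : ℂ), AnalyticAt ℂ (fun s : ℂ => ((w, s) : E × ℂ)) t := fun w t =>
    analyticAt_const.prod analyticAt_id
  have htend : Tendsto (fun s : ℂ => ((b, s) : E × ℂ)) (𝓝 c) (𝓝 (b, c)) :=
    (hpair b c).continuousAt.tendsto
  have hne : ¬ (fun s : ℂ => g (b, s)) =ᶠ[𝓝 c] 0 := by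
    intro h0
    have h1 : ∀ᶠ s in 𝓝 c, s = c := by
      filter_upwards [h0, htend.eventually hAg, htend.eventually hg] with s hs h1 h2
      exact congrArg Prod.snd (h2 (h1.2 hs) rfl)
    obtain ⟨s, hs1, hs2⟩ := ((h1.filter_mono (nhdsWithin_le_nhds (s := {c}ᶜ))).and
      self_mem_nhdsWithin).exists
    exact hs2 hs1
  obtain ⟨i, hi⟩ := exists_comp_not_eventuallyEq_zero hne
  let q : E × ℂ → ℂ := fun x => g x i
  have hqa : ∀ x, AnalyticAt ℂ g x → AnalyticAt ℂ q x := fun x hx => analyticAt_pi_iff.1 hx i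
  have hq1 : ∀ᶠ s in 𝓝[≠] c, q (b, s) ≠ 0 :=
    (AnalyticAt.comp (g := q) (hqa _ hga) (hpair b c)).eventually_eq_zero_or_eventually_ne_zero
      |>.resolve_left hi
  obtain ⟨ρ, hρ, hρ1, hρ2⟩ : ∃ ρ > 0, (∀ s ∈ closedBall c ρ, s ≠ c → q (b, s) ≠ 0) ∧
      ∀ x ∈ closedBall ((b, c) : E × ℂ) ρ, AnalyticAt ℂ g x ∧ (x ∈ A ↔ g x = 0) := by
    obtain ⟨ρ₁, h₁, hs₁⟩ := nhds_basis_closedBall.eventually_iff.1
      (eventually_nhdsWithin_iff.1 hq1)
    obtain ⟨ρ₂, h₂, hs₂⟩ := nhds_basis_closedBall.eventually_iff.1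
      (hga.eventually_analyticAt.and hAg)
    exact ⟨min ρ₁ ρ₂, lt_min h₁ h₂,
      fun s hs => hs₁ (closedBall_subset_closedBall (min_le_left _ _) hs),
      fun x hx => hs₂ (closedBall_subset_closedBall (min_le_right _ _) hx)⟩
  have hbox : ∀ w ∈ ball b ρ, ∀ s ∈ closedBall c ρ,
      AnalyticAt ℂ g (w, s) ∧ ((w, s) ∈ A ↔ g (w, s) = 0) := fun w hw s hs =>
    hρ2 _ (by rw [← closedBall_prod_same]; exact ⟨ball_subset_closedBall hw, hs⟩)
  have hb : b ∈ ball b ρ := mem_ball_self hρ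
  have hsc : ∀ s ∈ sphere c ρ, s ≠ c := fun s hs => ne_of_mem_sphere hs hρ.ne'
  have htube : ∀ᶠ w in 𝓝 b, ∀ s ∈ sphere c ρ, q (w, s) ≠ 0 := by
    refine (isCompact_sphere c ρ).eventually_forall_of_forall_eventually
      (P := fun w s => q (w, s) ≠ 0) fun s hs => ?_
    have hs' := sphere_subset_closedBall hs
    exact (hqa _ (hbox b hb s hs').1).continuousAt.eventually_ne (hρ1 s hs' (hsc s hs))
  obtain ⟨D₀, hD₀, hD₀o, hbD₀⟩ := _root_.eventually_nhds_iff.1 (htube.and (ball_mem_nhds b hρ))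
  have hg₀ : AnalyticOnNhd ℂ g (D₀ ×ˢ closedBall c ρ) := fun x hx =>
    (hbox x.1 (hD₀ _ hx.1).2 x.2 hx.2).1
  have hq₀ : AnalyticOnNhd ℂ q (D₀ ×ˢ closedBall c ρ) := fun x hx => hqa x (hg₀ x hx)
  have hZex : ∀ w ∈ D₀, ∃ Z, ZerosSpec (fun t => q (w, t)) c ρ Z := fun w hw =>
    exists_multiset_zeros hρ
      (fun t ht => AnalyticAt.comp (g := q) (hq₀ (w, t) ⟨hw, ht⟩) (hpair w t)) (hD₀ w hw).1
  choose! Z hZ using hZex
  have hsum : ∀ G : E × ℂ → ℂ, AnalyticOnNhd ℂ G (D₀ ×ˢ closedBall c ρ) →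
      ∃ H : E → ℂ, AnalyticOnNhd ℂ H D₀ ∧ ∀ w ∈ D₀, H w = ((Z w).map fun t => G (w, t)).sum :=
    fun G hG => exists_analytic_sum_zeros hD₀o hρ hq₀ (fun w hw => (hD₀ w hw).1) hZ hG
  set m := Multiset.card (Z b) with hm
  have hcard : ∀ᶠ w in 𝓝 b, Multiset.card (Z w) = m := by
    obtain ⟨H, hH, hHZ⟩ := hsum (fun _ => 1) analyticOnNhd_const
    have h1 : ∀ᶠ w in 𝓝 b, dist (H w) (H b) < 1 :=
      Metric.tendsto_nhds.1 (hH b hbD₀).continuousAt.tendsto 1 one_pos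
    filter_upwards [h1, hD₀o.mem_nhds hbD₀] with w hw hwD
    rw [hHZ w hwD, hHZ b hbD₀] at hw
    simp only [Multiset.map_const', Multiset.sum_replicate, nsmul_eq_mul, mul_one] at hw
    rw [← ofReal_natCast, ← ofReal_natCast, dist_of_im_eq (by simp), ofReal_re, ofReal_re,
      Real.dist_eq, abs_lt] at hw
    have h2 : (Multiset.card (Z w) : ℝ) < (m + 1 : ℕ) := by push_cast; linarith [hw.2]
    have h3 : (m : ℝ) < (Multiset.card (Z w) + 1 : ℕ) := by push_cast; linarith [hw.1]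
    have h4 := Nat.cast_lt.1 h2
    have h5 := Nat.cast_lt.1 h3
    omega
  obtain ⟨D, hD, hDo, hbD⟩ := _root_.eventually_nhds_iff.1 (hcard.and (hD₀o.mem_nhds hbD₀))
  have hDD₀ : D ⊆ D₀ := fun w hw => (hD w hw).2
  have hpoly : ∀ G : E × ℂ → ℂ, AnalyticOnNhd ℂ G (D₀ ×ˢ closedBall c ρ) →
      ∃ P : E → ℂ[X], HolMonic D m P ∧
        ∀ w ∈ D, ∀ s, (P w).eval s = 0 ↔ ∃ t ∈ Z w, G (w, t) = s := by
    intro G hG
    obtain ⟨P, hP, hPZ⟩ := exists_holMonic_of_psum (D := D) (G := D) (m := m)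
      (fun w => (Z w).map fun t => G (w, t))
      (fun w hw => by rw [Multiset.card_map, (hD w hw).1]) fun j => by
        obtain ⟨H, hH, hHZ⟩ := hsum (fun x => G x ^ j) (hG.pow j)
        exact ⟨H, hH.mono hDD₀, fun w hw => by rw [hHZ w (hDD₀ hw), Multiset.map_map]; rfl⟩
    refine ⟨P, hP, fun w hw s => ?_⟩
    rw [hPZ w hw, eval_multiset_prod, Multiset.prod_eq_zero_iff]
    simp only [Multiset.map_map, Function.comp_def, eval_sub, eval_X, eval_C, Multiset.mem_map,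
      sub_eq_zero]
    exact ⟨fun ⟨t, h1, h2⟩ => ⟨t, h1, h2.symm⟩, fun ⟨t, h1, h2⟩ => ⟨t, h1, h2.symm⟩⟩
  have hAV : ∀ x ∈ A ∩ D ×ˢ ball c ρ, g x = 0 ∧ x.2 ∈ Z x.1 := by
    intro x hx
    have hw := hDD₀ hx.2.1
    have h0 : g x = 0 :=
      (hbox x.1 (hD₀ _ hw).2 x.2 (ball_subset_closedBall hx.2.2)).2.1 hx.1
    exact ⟨h0, ((hZ x.1 hw).1 x.2).2 ⟨hx.2.2, congrFun h0 i⟩⟩
  refine ⟨D ×ˢ ball c ρ, prod_mem_nhds (hDo.mem_nhds hbD) (ball_mem_nhds c hρ), ?_, ?_,
    D, hDo.mem_nhds hbD, m, ?_⟩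
  · obtain ⟨L, hL⟩ := exists_separating_family (Fin r → ℂ) m
    have hPl : ∀ l : (Fin r → ℂ) →L[ℂ] ℂ, ∃ P : E → ℂ[X], HolMonic D m P ∧
        ∀ w ∈ D, ∀ s, (P w).eval s = 0 ↔ ∃ t ∈ Z w, l (g (w, t)) = s := fun l =>
      hpoly (fun x => l (g x)) fun x hx => (l.analyticAt _).comp (hg₀ x hx)
    choose P hP hPZ using hPl
    refine AnAt.of_finiteDimensional (Y := L → ℂ)
      (g := fun w (l : L) => (P l.1 w).eval 0) ?_ ?_
    · exact analyticAt_pi_iff.2 fun l =>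
        (hP l.1).analyticAt_eval (φ := fun w => w) analyticAt_id analyticAt_const hbD
    · filter_upwards [hDo.mem_nhds hbD] with w hw
      rw [funext_iff]
      constructor
      · rintro ⟨x, hx, rfl⟩ l
        refine (hPZ l.1 x.1 hw 0).2 ⟨x.2, (hAV x hx).2, ?_⟩
        rw [(hAV x hx).1, map_zero]
      · intro h
        have h0 : (0 : Fin r → ℂ) ∈ (Z w).map fun t => g (w, t) := by
          by_contra hn
          obtain ⟨l, hl, hl0⟩ := hL _ (by rw [Multiset.card_map, (hD w hw).1]) hn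
          obtain ⟨t, ht, ht0⟩ := (hPZ l w hw 0).1 (h ⟨l, hl⟩)
          exact hl0 _ (Multiset.mem_map_of_mem _ ht) ht0
        obtain ⟨t, ht, ht0⟩ := Multiset.mem_map.1 h0
        have htb := (((hZ w (hDD₀ hw)).1 t).1 ht).1
        exact ⟨(w, t), ⟨(hbox w (hD₀ _ (hDD₀ hw)).2 t (ball_subset_closedBall htb)).2.2 ht0,
          hw, htb⟩, rfl⟩
  · intro V' hV'
    have h1 : ∀ᶠ w in 𝓝 b, ∀ s ∈ closedBall c ρ, q (w, s) = 0 → (w, s) ∈ V' := by
      refine (isCompact_closedBall c ρ).eventually_forall_of_forall_eventually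
        (P := fun w s => q (w, s) = 0 → (w, s) ∈ V') fun s hs => ?_
      by_cases hsc' : s = c
      · subst hsc'
        filter_upwards [hV'] with z hz _ using hz
      · filter_upwards [(hqa _ (hbox b hb s hs).1).continuousAt.eventually_ne (hρ1 s hs hsc')]
          with z hz h0 using absurd h0 hz
    filter_upwards [h1] with w hw x hx hxw
    subst hxw
    exact hw x.2 (ball_subset_closedBall hx.2.2) (congrFun (hAV x hx).1 i)
  · obtain ⟨P, hP, hPZ⟩ := hpoly Prod.snd fun x _ => analyticAt_snd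
    refine ⟨P, hP, fun x hx => (hPZ x.1 hx.2.1 x.2).2 ⟨x.2, (hAV x hx).2, rfl⟩, fun t ht => ?_⟩
    obtain ⟨s, hs, rfl⟩ := (hPZ b hbD t).1 ht
    have h1 := ((hZ b hbD₀).1 s).1 hs
    by_contra hn
    exact hρ1 s (ball_subset_closedBall h1.1) hn h1.2

end Pool.Agent.Lib.MP_940f24_an
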