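import Pool.Agent.Lib.MP_940f24_an.Elim

/-!
The finite mapping theorem and its consequences.
-/

open Set Filter Topology MeasureTheory Metric Complex Polynomial
open scoped ENNReal

namespace Pool.Agent.Lib.MP_940f24_an

/-- Counting through a map with bounded fibres. -/
theorem encard_le_mul_of_fibres {α β : Type} {s : Set α} {t : Set β} {f : α → β} {m₁ m₂ : ℕ}
    (hf : MapsTo f s t) (ht : t.encard ≤ m₂) (hs : ∀ b, (s ∩ f ⁻¹' {b}).encard ≤ m₁) :
    s.encard ≤ (m₁ * m₂ : ℕ) := by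
  classical
  have htf : t.Finite := finite_of_encard_le_coe ht
  have hsf : s.Finite := by
    have hsub : s ⊆ ⋃ b ∈ t, (s ∩ f ⁻¹' {b}) := by
      intro x hx
      simp only [mem_iUnion]
      exact ⟨f x, hf hx, hx, rfl⟩
    exact (htf.biUnion fun b _ => finite_of_encard_le_coe (hs b)).subset hsub
  have h1 : hsf.toFinset.card ≤ m₁ * htf.toFinset.card := by
    apply Finset.card_le_mul_card_image_of_maps_to (f := f)
    · intro x hx
      simpa using hf (by simpa using hx)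
    · intro b _
      have h2 := hs b
      have h3 : (s ∩ f ⁻¹' {b}) = ((hsf.toFinset.filter fun x => f x = b : Finset α) : Set α) := by
        ext x
        simp
      rw [h3, encard_coe_eq_coe_finsetCard] at h2
      exact_mod_cast h2
  have h4 : htf.toFinset.card ≤ m₂ := by
    rw [htf.encard_eq_coe_toFinset_card] at ht
    exact_mod_cast ht
  rw [hsf.encard_eq_coe_toFinset_card]
  exact_mod_cast h1.trans (Nat.mul_le_mul_left _ h4)

/-- Splitting off a line. -/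
theorem exists_equiv_prod {E : Type} [NormedAddCommGroup E] [NormedSpace ℂ E]
    [FiniteDimensional ℂ E] {v : E} (hv : v ≠ 0) :
    ∃ (S : Submodule ℂ E) (e : E ≃L[ℂ] S × ℂ), Module.finrank ℂ S < Module.finrank ℂ E ∧
      ∀ z : S × ℂ, e.symm z = (z.1 : E) + z.2 • v := by
  obtain ⟨l, hl⟩ := SeparatingDual.exists_eq_one (R := ℂ) hv
  have hmem : ∀ x : E, x - l x • v ∈ LinearMap.ker (l : E →ₗ[ℂ] ℂ) := by
    intro x
    simp [hl]
  let π : E →L[ℂ] LinearMap.ker (l : E →ₗ[ℂ] ℂ) :=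
    (ContinuousLinearMap.id ℂ E - l.smulRight v).codRestrict _ (fun x => by simpa using hmem x)
  have hπ : ∀ x, (π x : E) = x - l x • v := fun x => by simp [π]
  let f : E →L[ℂ] LinearMap.ker (l : E →ₗ[ℂ] ℂ) × ℂ := π.prod l
  let g : (LinearMap.ker (l : E →ₗ[ℂ] ℂ) × ℂ) →L[ℂ] E :=
    (LinearMap.ker (l : E →ₗ[ℂ] ℂ)).subtypeL.comp (ContinuousLinearMap.fst ℂ _ _) +
      (ContinuousLinearMap.snd ℂ _ _).smulRight v
  have hg : ∀ z, g z = (z.1 : E) + z.2 • v := fun z => by simp [g]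
  refine ⟨_, ContinuousLinearEquiv.equivOfInverse f g ?_ ?_, ?_, ?_⟩
  · intro x
    rw [hg]
    simp [f, hπ]
  · rintro ⟨y, t⟩
    have hy : l y = 0 := by simp
    apply Prod.ext
    · apply Subtype.ext
      simp [f, hπ, hg, hy, hl]
    · simp [f, hg, hy, hl]
  · apply Submodule.finrank_lt
    intro h
    have : v ∈ LinearMap.ker (l : E →ₗ[ℂ] ℂ) := by rw [h]; trivial
    simp [hl] at this
  · intro z
    exact hg z

theorem finite_map_aux {Y : Type} [NormedAddCommGroup Y] [NormedSpace ℂ Y]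
    [FiniteDimensional ℂ Y] (n : ℕ) :
    ∀ (E : Type) [NormedAddCommGroup E] [NormedSpace ℂ E] [FiniteDimensional ℂ E],
      Module.finrank ℂ E ≤ n → ∀ (A : Set E) (a : E) (p : E →L[ℂ] Y), AnAt A a → Good A a p →
      ∃ V ∈ 𝓝 a, AnAt (p '' (A ∩ V)) (p a) ∧
        (∀ V' ∈ 𝓝 a, ∀ᶠ w in 𝓝 (p a), ∀ x ∈ A ∩ V, p x = w → x ∈ V') ∧
        ∃ m : ℕ, ∀ w, (A ∩ V ∩ p ⁻¹' {w}).encard ≤ m := by
  have base : ∀ (E : Type) [NormedAddCommGroup E] [NormedSpace ℂ E] [FiniteDimensional ℂ E]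
      (A : Set E) (a : E) (p : E →L[ℂ] Y), AnAt A a → Function.Injective p →
      ∃ V ∈ 𝓝 a, AnAt (p '' (A ∩ V)) (p a) ∧
        (∀ V' ∈ 𝓝 a, ∀ᶠ w in 𝓝 (p a), ∀ x ∈ A ∩ V, p x = w → x ∈ V') ∧
        ∃ m : ℕ, ∀ w, (A ∩ V ∩ p ⁻¹' {w}).encard ≤ m := by
    intro E _ _ _ A a p hA hp
    obtain ⟨σ₀, hσ₀⟩ := (p : E →ₗ[ℂ] Y).exists_leftInverse_of_injective
      (LinearMap.ker_eq_bot.2 hp)
    let σ : Y →L[ℂ] E := LinearMap.toContinuousLinearMap σ₀
    have hσ : ∀ x, σ (p x) = x := fun x => by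
      simpa [σ] using LinearMap.congr_fun hσ₀ x
    refine ⟨univ, univ_mem, ?_, ?_, 1, ?_⟩
    · have h1 : AnAt {y : Y | p (σ y) - y = 0} (p a) := by
        refine AnAt.of_finiteDimensional (g := fun y => p (σ y) - y) ?_ ?_
        · exact ((p.comp σ - ContinuousLinearMap.id ℂ Y).analyticAt (p a))
        · exact Eventually.of_forall fun y => Iff.rfl
      have h2 : AnAt (σ ⁻¹' A) (p a) :=
        AnAt.preimage (σ.analyticAt _) (by rw [hσ]; exact hA)
      refine (h1.inter h2).congr (Eventually.of_forall fun y => ?_)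
      constructor
      · rintro ⟨hy1, hy2⟩
        exact ⟨σ y, ⟨hy2, trivial⟩, sub_eq_zero.1 hy1⟩
      · rintro ⟨x, ⟨hx, -⟩, rfl⟩
        refine ⟨?_, ?_⟩
        · simp [hσ]
        · simpa [hσ] using hx
    · intro V' hV'
      have : σ ⁻¹' V' ∈ 𝓝 (p a) := σ.continuous.continuousAt.preimage_mem_nhds (by rwa [hσ])
      filter_upwards [this] with w hw x _ hx
      rw [← hx] at hw
      simpa [hσ] using hw
    · intro w
      rw [Nat.cast_one, encard_le_one_iff]
      intro x y hx hy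
      exact hp (hx.2.trans hy.2.symm)
  induction n with
  | zero =>
    intro E _ _ _ hE A a p hA _
    have : Subsingleton E := Module.finrank_zero_iff.1 (Nat.le_zero.1 hE)
    exact base E A a p hA (fun x y _ => Subsingleton.elim x y)
  | succ n ih =>
    intro E _ _ _ hE A a p hA hg
    by_cases hp : Function.Injective p
    · exact base E A a p hA hp
    obtain ⟨v, hv0, hpv⟩ : ∃ v : E, v ≠ 0 ∧ p v = 0 := by
      by_contra hcon
      push Not at hcon
      apply hp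
      rw [injective_iff_map_eq_zero]
      intro x hx
      by_contra hx0
      exact hcon x hx0 hx
    obtain ⟨S, e, hS, he⟩ := exists_equiv_prod hv0
    let p' : S →L[ℂ] Y := p.comp S.subtypeL
    have hp' : ∀ x, p' (e x).1 = p x := by
      intro x
      have h1 := he (e x)
      rw [e.symm_apply_apply] at h1
      conv_rhs => rw [h1]
      simp [p', hpv]
    have hA' : AnAt (e '' A) (e a) := hA.image_equiv e
    have hpull : ∀ {W : Set E}, W ∈ 𝓝 a → e.symm ⁻¹' W ∈ 𝓝 (e a) := fun hW =>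
      e.symm.continuous.continuousAt.preimage_mem_nhds (by rwa [e.symm_apply_apply])
    have hgood : ∀ᶠ z in 𝓝 (e a), z ∈ e '' A → p' z.1 = p a → z = e a := by
      filter_upwards [hpull hg] with z hz
      rintro ⟨x, hx, rfl⟩ hpx
      rw [hp'] at hpx
      have hz' : x ∈ A → p x = p a → x = a := by simpa using hz
      rw [hz' hx hpx]
    have hg' : Good (e '' A) (e a) Prod.fst := by
      filter_upwards [hgood] with z hz hzA hz1
      exact hz hzA (by rw [hz1, hp'])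
    obtain ⟨V₁, hV₁, hA₁, h4, D, -, m₁, P, hP, hroot, -⟩ := elim_step hA' hg'
    have hg₁ : Good (Prod.fst '' (e '' A ∩ V₁)) (e a).1 p' := by
      filter_upwards [h4 _ hgood] with w hw
      rintro ⟨z, hz, rfl⟩ hpz
      rw [hw z hz rfl hz.1 (by rw [hpz, hp'])]
    obtain ⟨V₂, hV₂, hA₂, h4', m₂, hm₂⟩ := ih S (by omega) _ _ p' hA₁ hg₁
    rw [hp'] at hA₂ h4'
    refine ⟨e ⁻¹' (V₁ ∩ Prod.fst ⁻¹' V₂), ?_, ?_, ?_, m₁ * m₂, ?_⟩
    · exact e.continuous.continuousAt.preimage_mem_nhds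
        (inter_mem hV₁ (continuous_fst.continuousAt.preimage_mem_nhds hV₂))
    · refine hA₂.congr (Eventually.of_forall fun y => ?_)
      constructor
      · rintro ⟨w, ⟨⟨z, ⟨⟨x, hx, rfl⟩, hz⟩, rfl⟩, hw⟩, rfl⟩
        exact ⟨x, ⟨hx, hz, hw⟩, (hp' x).symm⟩
      · rintro ⟨x, ⟨hx, hz, hw⟩, rfl⟩
        exact ⟨(e x).1, ⟨⟨e x, ⟨⟨x, hx, rfl⟩, hz⟩, rfl⟩, hw⟩, hp' x⟩
    · intro V' hV'
      filter_upwards [h4' _ (h4 _ (hpull hV'))] with y hy x hx hxy
      have h1 := hy (e x).1 ⟨⟨e x, ⟨⟨x, hx.1, rfl⟩, hx.2.1⟩, rfl⟩, hx.2.2⟩ (by rw [hp', hxy])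
      simpa using h1 (e x) ⟨⟨x, hx.1, rfl⟩, hx.2.1⟩ rfl
    · intro y
      refine encard_le_mul_of_fibres (f := fun x => (e x).1) ?_ (hm₂ y) ?_
      · rintro x ⟨hx, hxy⟩
        exact ⟨⟨⟨e x, ⟨⟨x, hx.1, rfl⟩, hx.2.1⟩, rfl⟩, hx.2.2⟩, by
          simpa [hp'] using hxy⟩
      · intro w
        classical
        have hinj : InjOn (fun x => (e x).2)
            (A ∩ e ⁻¹' (V₁ ∩ Prod.fst ⁻¹' V₂) ∩ p ⁻¹' {y} ∩ (fun x => (e x).1) ⁻¹' {w}) := by
          intro x hx x' hx' hxx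
          apply e.injective
          exact Prod.ext (hx.2.trans hx'.2.symm) hxx
        rw [← hinj.encard_image]
        have hsub : (fun x => (e x).2) ''
            (A ∩ e ⁻¹' (V₁ ∩ Prod.fst ⁻¹' V₂) ∩ p ⁻¹' {y} ∩ (fun x => (e x).1) ⁻¹' {w}) ⊆
            ((P w).roots.toFinset : Set ℂ) := by
          rintro t ⟨x, hx, rfl⟩
          have h1 := hroot (e x) ⟨⟨x, hx.1.1.1, rfl⟩, hx.1.1.2.1⟩
          have h2 : (e x).1 = w := hx.2
          rw [h2] at h1
          simp [(hP.monic w).ne_zero, h1]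
        refine (encard_le_encard hsub).trans ?_
        rw [encard_coe_eq_coe_finsetCard]
        have h3 := (Multiset.toFinset_card_le (P w).roots).trans (card_roots' (P w))
        rw [hP.natDegree] at h3
        exact_mod_cast h3

variable {E Y : Type} [NormedAddCommGroup E] [NormedSpace ℂ E] [FiniteDimensional ℂ E]
  [NormedAddCommGroup Y] [NormedSpace ℂ Y] [FiniteDimensional ℂ Y]

/-- Local finite mapping theorem. -/
theorem finite_map {A : Set E} {a : E} {p : E →L[ℂ] Y} (hA : AnAt A a) (hg : Good A a p)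
    {V₀ : Set E} (hV₀ : V₀ ∈ 𝓝 a) :
    ∃ V ∈ 𝓝 a, V ⊆ V₀ ∧ AnAt (p '' (A ∩ V)) (p a) ∧
      (∀ V' ∈ 𝓝 a, ∀ᶠ w in 𝓝 (p a), ∀ x ∈ A ∩ V, p x = w → x ∈ V') ∧
      ∃ m : ℕ, ∀ w, (A ∩ V ∩ p ⁻¹' {w}).encard ≤ m := by
  obtain ⟨V, hV, hB, h4, m, hm⟩ := finite_map_aux _ E le_rfl A a p hA hg
  refine ⟨V ∩ V₀, inter_mem hV hV₀, inter_subset_right, ?_, ?_, m, ?_⟩
  · refine hB.congr ?_
    filter_upwards [h4 _ hV₀] with w hw
    constructor
    · rintro ⟨x, hx, rfl⟩
      exact ⟨x, ⟨hx.1, hx.2, hw x hx rfl⟩, rfl⟩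
    · rintro ⟨x, hx, rfl⟩
      exact ⟨x, ⟨hx.1, hx.2.1⟩, rfl⟩
  · intro V' hV'
    filter_upwards [h4 _ hV'] with w hw x hx hxw
    exact hw x ⟨hx.1, hx.2.1⟩ hxw
  · intro w
    refine (encard_le_encard ?_).trans (hm w)
    rintro x ⟨hx, hxw⟩
    exact ⟨⟨hx.1, hx.2.1⟩, hxw⟩

theorem Good.eventually {A : Set E} {a : E} {p : E →L[ℂ] Y} (hA : AnAt A a) (hg : Good A a p) :
    ∀ᶠ x in 𝓝 a, Good A x p := by
  obtain ⟨V, hV, -, -, -, m, hm⟩ := finite_map hA hg univ_mem
  filter_upwards [eventually_mem_nhds_iff.2 hV] with x hx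
  exact good_of_finite hx (finite_of_encard_le_coe (hm (p x)))

/-- Holomorphic functions on `A` are integral over the base of a good projection. -/
theorem integral_of_good {A : Set E} {a : E} {p : E →L[ℂ] Y} (hA : AnAt A a) (hg : Good A a p)
    {h : E → ℂ} (hh : AnalyticAt ℂ h a) :
    ∃ D ∈ 𝓝 (p a), ∃ (m : ℕ) (P : Y → ℂ[X]), HolMonic D m P ∧
      (∀ᶠ x in 𝓝 a, x ∈ A → (P (p x)).eval (h x) = 0) ∧
      ∀ t, (P (p a)).eval t = 0 → t = h a := by
  let Γ : Set (E × ℂ) := {z | z.1 ∈ A ∧ z.2 = h z.1}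
  let π : (E × ℂ) →L[ℂ] (Y × ℂ) := p.prodMap (ContinuousLinearMap.id ℂ ℂ)
  have hπ : ∀ z : E × ℂ, π z = (p z.1, z.2) := fun z => rfl
  have hΓ : AnAt Γ (a, h a) := hA.graph hh
  have hfst : ∀ᶠ z : E × ℂ in 𝓝 (a, h a), z.1 ∈ A → p z.1 = p a → z.1 = a :=
    (continuous_fst.tendsto (a, h a)).eventually hg
  have hfst' : ∀ᶠ z : E × ℂ in 𝓝 (a, h a), z ∈ Γ → p z.1 = p a → z = (a, h a) := by
    filter_upwards [hfst] with z hz hzΓ hzp
    have h1 := hz hzΓ.1 hzp
    exact Prod.ext h1 (by rw [hzΓ.2, h1])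
  have hgΓ : Good Γ (a, h a) π := by
    filter_upwards [hfst'] with z hz hzΓ hzp
    exact hz hzΓ (congrArg Prod.fst hzp)
  obtain ⟨V, hV, -, hB, h4, -⟩ := finite_map hΓ hgΓ univ_mem
  have hgB : Good (π '' (Γ ∩ V)) (π (a, h a)) Prod.fst := by
    filter_upwards [h4 _ hfst'] with w hw
    rintro ⟨z, hz, rfl⟩ hzp
    rw [hw z hz rfl hz.1 hzp]
  obtain ⟨V₁, hV₁, -, -, D, hD, m, P, hP, hroot, hroot'⟩ := elim_step hB hgB
  refine ⟨D, hD, m, P, hP, ?_, hroot'⟩
  have hc : ContinuousAt (fun x => ((x, h x) : E × ℂ)) a :=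
    continuousAt_id.prodMk hh.continuousAt
  have hc' : ContinuousAt (fun x => π (x, h x)) a := π.continuous.continuousAt.comp hc
  filter_upwards [hc.preimage_mem_nhds hV, hc'.preimage_mem_nhds hV₁] with x hx hx' hxA
  exact hroot (π (x, h x)) ⟨⟨(x, h x), ⟨⟨hxA, rfl⟩, hx⟩, rfl⟩, hx'⟩

/-- A nowhere dense hypersurface section has thin image. -/
theorem thin_of_good {A : Set E} {a : E} {p : E →L[ℂ] Y} (hA : AnAt A a) (hg : Good A a p)
    {h : E → ℂ} (hh : AnalyticAt ℂ h a)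
    (hd : ∀ᶠ x in 𝓝 a, x ∈ A → x ∈ closure (A ∩ {y | h y ≠ 0})) :
    ∃ q : Y → ℂ, AnalyticAt ℂ q (p a) ∧ ¬ q =ᶠ[𝓝 (p a)] 0 ∧
      ∀ᶠ x in 𝓝 a, x ∈ A → h x = 0 → q (p x) = 0 := by
  classical
  obtain ⟨D, hD, m, P, hP, hrel, -⟩ := integral_of_good hA hg hh
  have hex : ∃ j, ¬ (fun w => (P w).coeff j) =ᶠ[𝓝 (p a)] 0 := by
    refine ⟨m, fun hcon => ?_⟩
    have h1 := hcon.eq_of_nhds
    have h2 : (P (p a)).coeff m = 1 := by
      rw [← hP.natDegree (p a)]
      exact (hP.monic (p a)).coeff_natDegree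
    simp [h2] at h1
  let j := Nat.find hex
  have hcoef : ∀ i, AnalyticAt ℂ (fun w => (P w).coeff i) (p a) := fun i =>
    hP.coeff i _ (mem_of_mem_nhds hD)
  refine ⟨fun w => (P w).coeff j, hcoef j, Nat.find_spec hex, ?_⟩
  have hlow : ∀ᶠ w in 𝓝 (p a), ∀ i ∈ Finset.range j, (P w).coeff i = 0 := by
    rw [Finset.eventually_all]
    intro i hi
    have h1 := Nat.find_min hex (Finset.mem_range.1 hi)
    exact not_not.1 h1
  have hlow' : ∀ᶠ x in 𝓝 a, ∀ i ∈ Finset.range j, (P (p x)).coeff i = 0 :=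
    p.continuous.continuousAt.tendsto.eventually hlow
  let R : E → ℂ := fun x => ∑ i ∈ Finset.range (m + 1), (P (p x)).coeff (j + i) * h x ^ i
  have hR : AnalyticAt ℂ R a := by
    apply Finset.analyticAt_fun_sum
    intro i _
    exact ((hcoef (j + i)).comp (p.analyticAt a)).mul (hh.pow i)
  have hzero : ∀ᶠ x in 𝓝 a, x ∈ A ∩ {y | h y ≠ 0} → R x = 0 := by
    filter_upwards [hrel, hlow'] with x hx1 hx2 hx
    have h1 := hx1 hx.1
    rw [eval_eq_sum_range' (n := j + (m + 1)) (by rw [hP.natDegree]; omega),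
      Finset.sum_range_add, Finset.sum_eq_zero (fun i hi => by rw [hx2 i hi, zero_mul]),
      zero_add] at h1
    have h2 : h x ^ j * R x = 0 := by
      rw [← h1, Finset.mul_sum]
      refine Finset.sum_congr rfl fun i _ => ?_
      ring
    exact (mul_eq_zero.1 h2).resolve_left (pow_ne_zero _ hx.2)
  filter_upwards [hd, eventually_eventually_nhds.2 hzero, hR.eventually_continuousAt]
    with x hx1 hx2 hx3 hxA hx0
  have h1 : R x = 0 := by
    have h2 : ∃ᶠ y in 𝓝 x, R y = 0 :=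
      ((mem_closure_iff_frequently.1 (hx1 hxA)).and_eventually hx2).mono fun y hy => hy.2 hy.1
    by_contra hne
    exact h2 (hx3.eventually_ne hne)
  simpa [R, Finset.sum_range_succ', hx0] using h1

theorem exists_good_near_aux {A : Set E} {a : E} (hA : AnAt A a) {h : E → ℂ}
    (hh : AnalyticAt ℂ h a) (hd : ∀ᶠ x in 𝓝 a, x ∈ A → x ∈ closure (A ∩ {y | h y ≠ 0}))
    {k : ℕ} (hdim : ∃ U ∈ 𝓝 a, dimH (A ∩ {y | h y ≠ 0} ∩ U) ≤ 2 * (k : ℝ≥0∞)) (j : ℕ) :
    ∀ (r : E →L[ℂ] (Fin k → ℂ) × (Fin j → ℂ)), Good A a r → ∀ ε : ℝ, 0 < ε →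
      ∃ p : E →L[ℂ] (Fin k → ℂ), ‖p - (ContinuousLinearMap.fst ℂ _ _).comp r‖ < ε ∧
        Good A a p := by
  induction j with
  | zero =>
    intro r hr ε hε
    refine ⟨(ContinuousLinearMap.fst ℂ _ _).comp r, by simpa using hε, ?_⟩
    exact hr.comp_injective (l := Prod.fst) fun x y hxy => Prod.ext hxy (Subsingleton.elim _ _)
  | succ j ih =>
    intro r hr ε hε
    obtain ⟨U, hU, hdimU⟩ := hdim
    let l : ((Fin k → ℂ) × (Fin (j + 1) → ℂ)) →L[ℂ] ((Fin k → ℂ) × (Fin j → ℂ)) × ℂ :=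
      ((ContinuousLinearMap.fst ℂ _ _).prod
        (ContinuousLinearMap.pi fun i : Fin j =>
          (ContinuousLinearMap.proj i.succ).comp (ContinuousLinearMap.snd ℂ _ _))).prod
        ((ContinuousLinearMap.proj 0).comp (ContinuousLinearMap.snd ℂ _ _))
    have hl : Function.Injective l := by
      intro x y hxy
      have h1 : x.1 = y.1 := congrArg (fun z => z.1.1) hxy
      have h2 : ∀ i : Fin j, x.2 i.succ = y.2 i.succ := fun i =>
        congrArg (fun z => z.1.2 i) hxy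
      have h3 : x.2 0 = y.2 0 := congrArg (fun z => z.2) hxy
      refine Prod.ext h1 (funext fun i => ?_)
      exact Fin.cases h3 h2 i
    let s : E →L[ℂ] ((Fin k → ℂ) × (Fin j → ℂ)) × ℂ := l.comp r
    have hs : Good A a s := hr.comp_injective hl
    obtain ⟨q, hq, hqne, hq0⟩ := thin_of_good hA hs hh hd
    obtain ⟨V, hV, hVsub, ⟨n, b, hb, hbB⟩, -, -⟩ := finite_map hA hs (inter_mem hU hq0)
    have hbne : ¬ b =ᶠ[𝓝 (s a)] 0 := by
      intro hcon
      have hO : s '' (A ∩ V) ∈ 𝓝 (s a) := by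
        filter_upwards [hbB, hcon] with y hy1 hy2
        exact hy1.2 hy2
      have hfr : ∃ᶠ y in 𝓝 (s a), q y ≠ 0 := by
        intro hc
        apply hqne
        filter_upwards [hc] with y hy
        simpa using hy
      obtain ⟨y, hy0, hyO, hyc⟩ := (hfr.and_eventually
        ((eventually_mem_nhds_iff.2 hO).and hq.eventually_continuousAt)).exists
      have hnh : s '' (A ∩ {y | h y ≠ 0} ∩ U) ∈ 𝓝 y := by
        filter_upwards [hyO, hyc.eventually_ne hy0] with w hw hw0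
        obtain ⟨x, hx, rfl⟩ := hw
        have hx' := hVsub hx.2
        exact ⟨x, ⟨⟨hx.1, fun h0 => hw0 (hx'.2 hx.1 h0)⟩, hx'.1⟩, rfl⟩
      have h1 := Real.dimH_of_mem_nhds hnh
      have h2 := (s.lipschitz.dimH_image_le (A ∩ {y | h y ≠ 0} ∩ U)).trans hdimU
      rw [h1] at h2
      have h3 : Module.finrank ℝ (((Fin k → ℂ) × (Fin j → ℂ)) × ℂ) = 2 * k + 2 * j + 2 := by
        simp [Module.finrank_prod, Module.finrank_pi_fintype, mul_comm]
      rw [h3] at h2
      have h4 : 2 * k + 2 * j + 2 ≤ 2 * k := by exact_mod_cast h2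
      omega
    obtain ⟨i, hi⟩ := exists_comp_not_eventuallyEq_zero hbne
    have hbi : AnalyticAt ℂ (fun y => b y i) (s a) := analyticAt_pi_iff.1 hb i
    let s₂ : E →L[ℂ] ℂ := (ContinuousLinearMap.snd ℂ _ _).comp s
    have hpos : 0 < ε / 2 / (‖s₂‖ + 1) := by positivity
    obtain ⟨v, hv, hgv⟩ := hs.drop_small hbi hi hpos
    let r' : E →L[ℂ] (Fin k → ℂ) × (Fin j → ℂ) :=
      (ContinuousLinearMap.fst ℂ _ _).comp s - s₂.smulRight v
    have hr' : Good A a r' := by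
      refine Good.mono hgv ?_
      filter_upwards [hV, s.continuous.continuousAt.tendsto.eventually hbB] with x hx1 hx2 hxA
      refine ⟨hxA, ?_⟩
      have h1 : b (s x) = 0 := hx2.1 ⟨x, ⟨hxA, hx1⟩, rfl⟩
      simp [h1]
    obtain ⟨p, hp, hgp⟩ := ih r' hr' (ε / 2) (half_pos hε)
    refine ⟨p, ?_, hgp⟩
    have h1 : ‖(ContinuousLinearMap.fst ℂ _ _).comp r' -
        (ContinuousLinearMap.fst ℂ _ _).comp r‖ ≤ ε / 2 := by
      apply ContinuousLinearMap.opNorm_le_bound _ (half_pos hε).le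
      intro x
      have h2 : ((ContinuousLinearMap.fst ℂ _ _).comp r' -
          (ContinuousLinearMap.fst ℂ _ _).comp r) x = -(s₂ x • v.1) := by
        simp [r', s, l]
      rw [h2, norm_neg, norm_smul]
      have h3 : ‖s₂ x‖ ≤ (‖s₂‖ + 1) * ‖x‖ :=
        (s₂.le_opNorm x).trans (mul_le_mul_of_nonneg_right (by linarith) (norm_nonneg _))
      have h4 : ‖v.1‖ ≤ ε / 2 / (‖s₂‖ + 1) := (norm_fst_le v).trans hv.le
      calc ‖s₂ x‖ * ‖v.1‖ ≤ ((‖s₂‖ + 1) * ‖x‖) * (ε / 2 / (‖s₂‖ + 1)) :=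
            mul_le_mul h3 h4 (norm_nonneg _) (by positivity)
        _ = ε / 2 * ‖x‖ := by
            have : ‖s₂‖ + 1 ≠ 0 := by positivity
            field_simp
    calc ‖p - (ContinuousLinearMap.fst ℂ _ _).comp r‖
        ≤ ‖p - (ContinuousLinearMap.fst ℂ _ _).comp r'‖ +
          ‖(ContinuousLinearMap.fst ℂ _ _).comp r' - (ContinuousLinearMap.fst ℂ _ _).comp r‖ :=
          norm_sub_le_norm_sub_add_norm_sub _ _ _
      _ < ε / 2 + ε / 2 := add_lt_add_of_lt_of_le hp h1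
      _ = ε := add_halves ε

/-- If a dense part of `A` has real dimension at most `2 k`, good projections onto `ℂ ^ k` are
dense. -/
theorem exists_good_near {A : Set E} {a : E} (hA : AnAt A a) {h : E → ℂ}
    (hh : AnalyticAt ℂ h a) (hd : ∀ᶠ x in 𝓝 a, x ∈ A → x ∈ closure (A ∩ {y | h y ≠ 0}))
    {k : ℕ} (hdim : ∃ U ∈ 𝓝 a, dimH (A ∩ {y | h y ≠ 0} ∩ U) ≤ 2 * (k : ℝ≥0∞))
    (p₀ : E →L[ℂ] (Fin k → ℂ)) {ε : ℝ} (hε : 0 < ε) :
    ∃ p : E →L[ℂ] (Fin k → ℂ), ‖p - p₀‖ < ε ∧ Good A a p := by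
  let e : E ≃L[ℂ] (Fin (Module.finrank ℂ E) → ℂ) := ContinuousLinearEquiv.ofFinrankEq (by simp)
  have hinj : Function.Injective (p₀.prod (e : E →L[ℂ] (Fin (Module.finrank ℂ E) → ℂ))) :=
    fun x y hxy => e.injective (congrArg Prod.snd hxy)
  obtain ⟨p, hp, hg⟩ := exists_good_near_aux hA hh hd hdim _ _ (good_of_injective hinj) ε hε
  exact ⟨p, by simpa using hp, hg⟩

/-- Compact analytic subsets of the line are finite. -/
theorem finite_of_isCompact_of_anAt_line {K : Set ℂ} (hK : IsCompact K)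
    (hA : ∀ x ∈ K, AnAt K x) : K.Finite := by
  have hdich : ∀ x ∈ K, x ∈ interior K ∨ ∀ᶠ y in 𝓝[≠] x, y ∉ K := by
    intro x hx
    obtain ⟨n, g, hg, hgK⟩ := hA x hx
    rcases hg.eventually_eq_zero_or_eventually_ne_zero with h0 | h0
    · left
      rw [mem_interior_iff_mem_nhds]
      filter_upwards [hgK, h0] with y hy1 hy2
      exact hy1.2 hy2
    · right
      filter_upwards [h0, nhdsWithin_le_nhds hgK] with y hy1 hy2 hy
      exact hy1 (hy2.1 hy)
  have hcl : IsClosed (interior K) := by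
    rw [← closure_subset_iff_isClosed]
    intro x hx
    have hxK : x ∈ K := hK.isClosed.closure_subset_iff.2 interior_subset hx
    rcases hdich x hxK with h0 | h0
    · exact h0
    · rw [eventually_nhdsWithin_iff] at h0
      obtain ⟨y, hy1, hy2⟩ := ((mem_closure_iff_frequently.1 hx).and_eventually h0).exists
      by_cases hyx : y = x
      · rwa [hyx] at hy1
      · exact absurd (interior_subset hy1) (hy2 hyx)
  have hempty : interior K = ∅ := by
    rcases isClopen_iff.1 ⟨hcl, isOpen_interior⟩ with h0 | h0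
    · exact h0
    · exfalso
      have h1 : K = univ := eq_univ_of_univ_subset (h0 ▸ interior_subset)
      exact hK.ne_univ h1
  apply hK.finite
  rw [isDiscrete_iff_nhdsNE]
  intro x hx
  rcases hdich x hx with h0 | h0
  · rw [hempty] at h0
    exact absurd h0 (notMem_empty x)
  · exact inf_principal_eq_bot.2 h0

theorem finite_of_isCompact_of_anAt_aux (n : ℕ) :
    ∀ (E : Type) [NormedAddCommGroup E] [NormedSpace ℂ E] [FiniteDimensional ℂ E],
      Module.finrank ℂ E ≤ n → ∀ K : Set E, IsCompact K → (∀ x ∈ K, AnAt K x) → K.Finite := by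
  induction n with
  | zero =>
    intro E _ _ _ hE K _ _
    have : Subsingleton E := Module.finrank_zero_iff.1 (Nat.le_zero.1 hE)
    exact toFinite K
  | succ n ih =>
    intro E _ _ _ hE K hK hA
    rcases subsingleton_or_nontrivial E with hs | hs
    · exact toFinite K
    obtain ⟨v, hv0⟩ := exists_ne (0 : E)
    obtain ⟨S, e, hS, -⟩ := exists_equiv_prod hv0
    have hK' : IsCompact (e '' K) := hK.image e.continuous
    have hA' : ∀ z ∈ e '' K, AnAt (e '' K) z := by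
      rintro z ⟨x, hx, rfl⟩
      exact (hA x hx).image_equiv e
    have hfib : ∀ w : S, (e '' K ∩ Prod.fst ⁻¹' {w}).Finite := by
      intro w
      have h1 : IsCompact ((fun t : ℂ => (w, t)) ⁻¹' (e '' K)) := by
        refine (hK'.image continuous_snd).of_isClosed_subset
          (hK'.isClosed.preimage (by fun_prop)) ?_
        intro t ht
        exact ⟨(w, t), ht, rfl⟩
      have h2 := finite_of_isCompact_of_anAt_line h1 fun t ht =>
        AnAt.preimage (analyticAt_const.prod analyticAt_id) (hA' _ ht)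
      refine (h2.image fun t => (w, t)).subset ?_
      rintro ⟨w', t⟩ ⟨hz, hw⟩
      obtain rfl : w' = w := hw
      exact ⟨t, hz, rfl⟩
    have hstep : ∀ z ∈ e '' K, ∃ V ∈ 𝓝 z, AnAt (Prod.fst '' (e '' K ∩ V)) z.1 := by
      intro z hz
      have hg : Good (e '' K) z Prod.fst :=
        good_of_finite univ_mem (by simpa using hfib z.1)
      obtain ⟨V, hV, hB, -⟩ := elim_step (hA' z hz) hg
      exact ⟨V, hV, hB⟩
    choose! V hV hB using hstep
    have hfin : (Prod.fst '' (e '' K)).Finite := by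
      refine ih S (by omega) _ (hK'.image continuous_fst) ?_
      intro w _
      have h1 : AnAt (⋃ z ∈ e '' K ∩ Prod.fst ⁻¹' {w}, Prod.fst '' (e '' K ∩ V z)) w := by
        refine anAt_biUnion (hfib w) fun z hz => ?_
        have h2 := hB z hz.1
        rwa [show z.1 = w from hz.2] at h2
      refine h1.congr ?_
      have hO : IsOpen (⋃ z ∈ e '' K ∩ Prod.fst ⁻¹' {w}, interior (V z)) :=
        isOpen_biUnion fun z _ => isOpen_interior
      have hC : IsClosed (Prod.fst '' (e '' K \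
          ⋃ z ∈ e '' K ∩ Prod.fst ⁻¹' {w}, interior (V z))) :=
        ((hK'.diff hO).image continuous_fst).isClosed
      have hw : w ∉ Prod.fst '' (e '' K \ ⋃ z ∈ e '' K ∩ Prod.fst ⁻¹' {w}, interior (V z)) := by
        rintro ⟨z, ⟨hz1, hz2⟩, hzw⟩
        apply hz2
        simp only [mem_iUnion]
        exact ⟨z, ⟨hz1, hzw⟩, mem_interior_iff_mem_nhds.2 (hV z hz1)⟩
      filter_upwards [hC.isOpen_compl.mem_nhds hw] with y hy
      constructor
      · intro hy'
        simp only [mem_iUnion] at hy'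
        obtain ⟨z, -, z', hz', rfl⟩ := hy'
        exact ⟨z', hz'.1, rfl⟩
      · rintro ⟨z', hz', rfl⟩
        by_contra hcon
        apply hy
        refine ⟨z', ⟨hz', fun hmem => hcon ?_⟩, rfl⟩
        simp only [mem_iUnion] at hmem ⊢
        obtain ⟨z, hz, hzV⟩ := hmem
        exact ⟨z, hz, z', ⟨hz', interior_subset hzV⟩, rfl⟩
    have hfin' : (e '' K).Finite := by
      refine (hfin.biUnion fun w _ => hfib w).subset ?_
      intro z hz
      simp only [mem_iUnion]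
      exact ⟨z.1, ⟨z, hz, rfl⟩, hz, rfl⟩
    exact hfin'.of_finite_image e.injective.injOn

/-- Compact analytic subsets of `ℂ ^ n` are finite. -/
theorem finite_of_isCompact_of_anAt {K : Set E} (hK : IsCompact K) (hA : ∀ x ∈ K, AnAt K x) :
    K.Finite :=
  finite_of_isCompact_of_anAt_aux _ E le_rfl K hK hA

end Pool.Agent.Lib.MP_940f24_an
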