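import Pool.Agent.Lib.MP_940f24_an.Holo

/-!
Elementary properties of analytic germs `AnAt`, and good projections.
-/

open Set Filter Topology MeasureTheory Metric Complex

namespace Pool.Agent.Lib.MP_940f24_an

section
variable {E E' Y Y' : Type} [NormedAddCommGroup E] [NormedSpace ℂ E] [NormedAddCommGroup E']
  [NormedSpace ℂ E'] [NormedAddCommGroup Y] [NormedSpace ℂ Y] [NormedAddCommGroup Y']
  [NormedSpace ℂ Y']

theorem AnAt.of_finiteDimensional [FiniteDimensional ℂ Y] {A : Set E} {a : E} {g : E → Y}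
    (hg : AnalyticAt ℂ g a) (h : ∀ᶠ x in 𝓝 a, (x ∈ A ↔ g x = 0)) : AnAt A a := by
  have hd : Module.finrank ℂ Y = Module.finrank ℂ (Fin (Module.finrank ℂ Y) → ℂ) :=
    (Module.finrank_fin_fun ℂ).symm
  let e := ContinuousLinearEquiv.ofFinrankEq hd
  refine ⟨Module.finrank ℂ Y, fun x => e (g x), (e.analyticAt _).comp hg, ?_⟩
  filter_upwards [h] with x hx
  rw [hx, e.map_eq_zero_iff]

theorem AnAt.congr {A B : Set E} {a : E} (hA : AnAt A a) (h : ∀ᶠ x in 𝓝 a, (x ∈ A ↔ x ∈ B)) :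
    AnAt B a := by
  obtain ⟨r, g, hg, hA⟩ := hA
  refine ⟨r, g, hg, ?_⟩
  filter_upwards [h, hA] with x h1 h2
  rw [← h1, h2]

theorem AnAt.eventually {A : Set E} {a : E} (hA : AnAt A a) : ∀ᶠ x in 𝓝 a, AnAt A x := by
  obtain ⟨r, g, hg, hA⟩ := hA
  filter_upwards [hg.eventually_analyticAt, hA.eventually_nhds] with x h1 h2
  exact ⟨r, g, h1, h2⟩

theorem AnAt.inter {A B : Set E} {a : E} (hA : AnAt A a) (hB : AnAt B a) : AnAt (A ∩ B) a := by
  obtain ⟨r, g, hg, hA⟩ := hA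
  obtain ⟨r', g', hg', hB⟩ := hB
  refine AnAt.of_finiteDimensional (hg.prod hg') ?_
  filter_upwards [hA, hB] with x h1 h2
  rw [mem_inter_iff, h1, h2, Prod.mk_eq_zero]

theorem AnAt.union {A B : Set E} {a : E} (hA : AnAt A a) (hB : AnAt B a) : AnAt (A ∪ B) a := by
  obtain ⟨r, g, hg, hA⟩ := hA
  obtain ⟨r', g', hg', hB⟩ := hB
  refine AnAt.of_finiteDimensional (Y := Fin r × Fin r' → ℂ)
    (g := fun x ij => g x ij.1 * g' x ij.2) ?_ ?_
  · exact analyticAt_pi_iff.2 fun ij =>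
      (analyticAt_pi_iff.1 hg ij.1).mul (analyticAt_pi_iff.1 hg' ij.2)
  · filter_upwards [hA, hB] with x h1 h2
    rw [mem_union, h1, h2]
    constructor
    · rintro (h | h) <;> funext ij <;> simp [h]
    · intro h
      by_contra hn
      push Not at hn
      obtain ⟨i, hi⟩ := Function.ne_iff.1 hn.1
      obtain ⟨j, hj⟩ := Function.ne_iff.1 hn.2
      exact mul_ne_zero hi hj (congrFun h (i, j))

theorem anAt_empty (a : E) : AnAt (∅ : Set E) a := by
  refine AnAt.of_finiteDimensional (Y := ℂ) (g := fun _ => 1) analyticAt_const ?_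
  simp

theorem anAt_univ (a : E) : AnAt (univ : Set E) a := by
  refine AnAt.of_finiteDimensional (Y := ℂ) (g := fun _ => 0) analyticAt_const ?_
  simp

theorem anAt_singleton [FiniteDimensional ℂ E] (b a : E) : AnAt ({b} : Set E) a := by
  refine AnAt.of_finiteDimensional (g := fun x => x - b) (analyticAt_id.sub analyticAt_const) ?_
  simp [sub_eq_zero]

theorem anAt_biUnion {ι : Type} {s : Set ι} (hs : s.Finite) {A : ι → Set E} {a : E}
    (h : ∀ i ∈ s, AnAt (A i) a) : AnAt (⋃ i ∈ s, A i) a := by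
  induction s, hs using Set.Finite.induction_on with
  | empty => simpa using anAt_empty a
  | insert _ _ ih =>
    rw [biUnion_insert]
    exact (h _ (mem_insert _ _)).union (ih fun i hi => h i (mem_insert_of_mem _ hi))

theorem anAt_zero_set {q : E → ℂ} {a : E} (hq : AnalyticAt ℂ q a) : AnAt {x | q x = 0} a := by
  exact AnAt.of_finiteDimensional hq (Eventually.of_forall fun _ => Iff.rfl)

theorem AnAt.preimage {A : Set E'} {φ : E → E'} {a : E} (hφ : AnalyticAt ℂ φ a)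
    (hA : AnAt A (φ a)) : AnAt (φ ⁻¹' A) a := by
  obtain ⟨r, g, hg, hA⟩ := hA
  exact ⟨r, fun x => g (φ x), hg.comp hφ, hφ.continuousAt.eventually hA⟩

theorem AnAt.image_equiv {A : Set E} {a : E} (hA : AnAt A a) (e : E ≃L[ℂ] E') :
    AnAt (e '' A) (e a) := by
  rw [e.image_eq_preimage_symm]
  refine AnAt.preimage (e.symm.analyticAt _) ?_
  rwa [e.symm_apply_apply]

/-- The graph of a holomorphic map over an analytic germ. -/
theorem AnAt.graph [FiniteDimensional ℂ Y] {A : Set E} {a : E} (hA : AnAt A a) {h : E → Y}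
    (hh : AnalyticAt ℂ h a) : AnAt {p : E × Y | p.1 ∈ A ∧ p.2 = h p.1} (a, h a) := by
  have h1 : AnAt (Prod.fst ⁻¹' A : Set (E × Y)) (a, h a) := AnAt.preimage analyticAt_fst hA
  have h2 : AnAt {p : E × Y | p.2 = h p.1} (a, h a) := by
    refine AnAt.of_finiteDimensional (g := fun p : E × Y => p.2 - h p.1) ?_ ?_
    · exact analyticAt_snd.sub (AnalyticAt.comp (f := Prod.fst) hh analyticAt_fst)
    · simp [sub_eq_zero]
  exact h1.inter h2

theorem AnAt.mem_of_mem_closure {A : Set E} {a : E} (hA : AnAt A a) (ha : a ∈ closure A) :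
    a ∈ A := by
  obtain ⟨r, g, hg, hA⟩ := hA
  rw [hA.self_of_nhds]
  by_contra hne
  rw [mem_closure_iff_frequently] at ha
  obtain ⟨x, hx, h1, h2⟩ := (ha.and_eventually (hA.and (hg.continuousAt.eventually_ne hne))).exists
  exact h2 (h1.1 hx)

theorem anAt_of_notMem_closure {A : Set E} {a : E} (ha : a ∉ closure A) : AnAt A a := by
  refine (anAt_empty a).congr ?_
  filter_upwards [isClosed_closure.isOpen_compl.mem_nhds ha] with x hx
  exact ⟨fun h => h.elim, fun h => hx (subset_closure h)⟩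

theorem AnAt.inter_nhds {A V : Set E} {a : E} (hA : AnAt A a) (hV : V ∈ 𝓝 a) :
    AnAt (A ∩ V) a := by
  refine hA.congr ?_
  filter_upwards [hV] with x hx
  exact ⟨fun h => ⟨h, hx⟩, fun h => h.1⟩

end

/-- `a` is isolated in the fibre of `p` restricted to `A`. -/
def Good {E Y : Type} [TopologicalSpace E] (A : Set E) (a : E) (p : E → Y) : Prop :=
  ∀ᶠ x in 𝓝 a, x ∈ A → p x = p a → x = a

/-- `A` has dimension at most `d` at `a`. -/
def HasGood {E : Type} [NormedAddCommGroup E] [NormedSpace ℂ E] (A : Set E) (a : E) (d : ℕ) :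
    Prop :=
  ∃ p : E →L[ℂ] (Fin d → ℂ), Good A a p

section
variable {E Y Y' : Type} [TopologicalSpace E]

theorem Good.mono {A B : Set E} {a : E} {p : E → Y} (h : Good B a p)
    (hAB : ∀ᶠ x in 𝓝 a, x ∈ A → x ∈ B) : Good A a p := by
  filter_upwards [h, hAB] with x h1 h2 hx using h1 (h2 hx)

theorem Good.of_comp {A : Set E} {a : E} {p : E → Y} {l : Y → Y'} (h : Good A a (l ∘ p)) :
    Good A a p := by
  filter_upwards [h] with x h1 hx hp using h1 hx (congrArg l hp)

theorem Good.comp_injective {A : Set E} {a : E} {p : E → Y} {l : Y → Y'} (h : Good A a p)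
    (hl : Function.Injective l) : Good A a (l ∘ p) := by
  filter_upwards [h] with x h1 hx hp using h1 hx (hl hp)

theorem good_of_injective {A : Set E} {a : E} {p : E → Y} (hp : Function.Injective p) :
    Good A a p := by
  exact Eventually.of_forall fun _ _ h => hp h

/-- If the fibre of `p` in `A ∩ V` through `x` is finite, then `p` is good at `x`. -/
theorem good_of_finite [T1Space E] {A V : Set E} {x : E} {p : E → Y} (hV : V ∈ 𝓝 x)
    (hfin : (A ∩ V ∩ p ⁻¹' {p x}).Finite) : Good A x p := by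
  have hcl : IsClosed ((A ∩ V ∩ p ⁻¹' {p x}) \ {x}) := (hfin.subset sdiff_subset).isClosed
  have hx : x ∈ ((A ∩ V ∩ p ⁻¹' {p x}) \ {x})ᶜ := fun h => h.2 rfl
  filter_upwards [hV, hcl.isOpen_compl.mem_nhds hx] with y hy hy' hA hp
  by_contra hne
  exact hy' ⟨⟨⟨hA, hy⟩, hp⟩, hne⟩

end

section
variable {E Y : Type} [NormedAddCommGroup E] [NormedSpace ℂ E] [NormedAddCommGroup Y]
  [NormedSpace ℂ Y]

theorem HasGood.mono {A B : Set E} {a : E} {d : ℕ} (h : HasGood B a d)
    (hAB : ∀ᶠ x in 𝓝 a, x ∈ A → x ∈ B) : HasGood A a d := by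
  obtain ⟨p, hp⟩ := h
  exact ⟨p, hp.mono hAB⟩

theorem hasGood_finrank [FiniteDimensional ℂ E] (A : Set E) (a : E) :
    HasGood A a (Module.finrank ℂ E) := by
  have hd : Module.finrank ℂ E = Module.finrank ℂ (Fin (Module.finrank ℂ E) → ℂ) :=
    (Module.finrank_fin_fun ℂ).symm
  let e := ContinuousLinearEquiv.ofFinrankEq hd
  exact ⟨e, good_of_injective e.injective⟩

theorem HasGood.isolated {A : Set E} {a : E} (h : HasGood A a 0) :
    ∀ᶠ x in 𝓝 a, x ∈ A → x = a := by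
  obtain ⟨p, hp⟩ := h
  filter_upwards [hp] with x h1 hx using h1 hx (Subsingleton.elim _ _)

/-- Dropping one dimension inside a hypersurface, with a small perturbation. -/
theorem Good.drop_small {A : Set E} {a : E} {p : E →L[ℂ] Y × ℂ} (h : Good A a p)
    {q : Y × ℂ → ℂ} (hq : AnalyticAt ℂ q (p a)) (hne : ¬ q =ᶠ[𝓝 (p a)] 0) {ε : ℝ} (hε : 0 < ε) :
    ∃ v : Y, ‖v‖ < ε ∧ Good (A ∩ {x | q (p x) = 0}) a (fun x => (p x).1 - (p x).2 • v) := by
  have hd := dense_dir_not_eventuallyEq_zero hq hne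
  have hU : ∀ᶠ u : Y × ℂ in 𝓝 (0, 1), u.2 ≠ 0 ∧ ‖u.2⁻¹ • u.1‖ < ε := by
    have h1 : ContinuousAt (fun u : Y × ℂ => u.2) (0, 1) := continuousAt_snd
    have h2 : ContinuousAt (fun u : Y × ℂ => ‖u.2⁻¹ • u.1‖) (0, 1) :=
      ((h1.inv₀ one_ne_zero).smul continuousAt_fst).norm
    exact (h1.eventually_ne one_ne_zero).and (h2.eventually (gt_mem_nhds (by simpa using hε)))
  obtain ⟨u, hu, hu0, huε⟩ := hd.inter_nhds_nonempty hU
  refine ⟨u.2⁻¹ • u.1, huε, ?_⟩
  have han : AnalyticAt ℂ (fun t : ℂ => q (p a + t • u)) 0 :=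
    AnalyticAt.comp_of_eq (f := fun t : ℂ => p a + t • u) hq (by fun_prop) (by simp)
  have hiso : ∀ᶠ t in 𝓝 (0 : ℂ), t ≠ 0 → q (p a + t • u) ≠ 0 :=
    eventually_nhdsWithin_iff.1 (han.eventually_eq_zero_or_eventually_ne_zero.resolve_left hu)
  have hc : Tendsto (fun x => u.2⁻¹ * ((p x).2 - (p a).2)) (𝓝 a) (𝓝 0) := by
    have : Continuous fun x => u.2⁻¹ * ((p x).2 - (p a).2) := by fun_prop
    simpa using this.tendsto a
  filter_upwards [h, hc.eventually hiso] with x h1 h2 hx hp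
  have hpx : p x = p a + (u.2⁻¹ * ((p x).2 - (p a).2)) • u := by
    ext
    · have hp' : (p x).1 - (p x).2 • u.2⁻¹ • u.1 = (p a).1 - (p a).2 • u.2⁻¹ • u.1 := hp
      rw [Prod.fst_add, Prod.smul_fst, mul_comm, mul_smul, sub_smul]
      rw [sub_eq_iff_eq_add] at hp'
      rw [hp']
      abel
    · rw [Prod.snd_add, Prod.smul_snd, smul_eq_mul]
      field_simp
      ring
  refine h1 hx.1 ?_
  by_contra hne'
  refine h2 (fun h0 => hne' ?_) (hpx ▸ hx.2)
  rw [hpx, h0, zero_smul, add_zero]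

/-- Dropping one dimension inside a hypersurface. -/
theorem Good.drop {A : Set E} {a : E} {d : ℕ} {p : E →L[ℂ] (Fin (d + 1) → ℂ)} (h : Good A a p)
    {q : (Fin (d + 1) → ℂ) → ℂ} (hq : AnalyticAt ℂ q (p a)) (hne : ¬ q =ᶠ[𝓝 (p a)] 0) :
    HasGood (A ∩ {x | q (p x) = 0}) a d := by
  have hd : Module.finrank ℂ (Fin (d + 1) → ℂ) = Module.finrank ℂ ((Fin d → ℂ) × ℂ) := by
    simp
  let e := ContinuousLinearEquiv.ofFinrankEq hd
  let p' : E →L[ℂ] (Fin d → ℂ) × ℂ := (e : (Fin (d + 1) → ℂ) →L[ℂ] (Fin d → ℂ) × ℂ).comp p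
  have hp' : ∀ x, p' x = e (p x) := fun _ => rfl
  have h' : Good A a p' := h.comp_injective (l := e) e.injective
  have hq' : AnalyticAt ℂ (fun y => q (e.symm y)) (p' a) :=
    AnalyticAt.comp_of_eq hq (e.symm.analyticAt _) (by rw [hp', e.symm_apply_apply])
  have hne' : ¬ (fun y => q (e.symm y)) =ᶠ[𝓝 (p' a)] 0 := fun h0 => by
    apply hne
    have hc : Tendsto e (𝓝 (p a)) (𝓝 (p' a)) := e.continuous.tendsto _
    filter_upwards [hc.eventually h0] with y hy
    simpa using hy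
  obtain ⟨v, -, hv⟩ := h'.drop_small hq' hne' one_pos
  refine ⟨(ContinuousLinearMap.fst ℂ _ _).comp p' -
    ((ContinuousLinearMap.snd ℂ _ _).comp p').smulRight v, ?_⟩
  have hset : {x | q (e.symm (p' x)) = 0} = {x | q (p x) = 0} := by
    simp only [hp', e.symm_apply_apply]
  rw [← hset]
  exact hv

end

end Pool.Agent.Lib.MP_940f24_an
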