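import Pool.Agent.Lib.MP_940f24_an.Defs

/-!
Comparison of minors with the determinant of a pulled back Hermitian form.
-/

open Set Filter Topology
open scoped ComplexOrder Matrix

namespace Pool.Agent.Lib.MP_940f24_an

/-- Uniform coercivity of a compact family of positive definite matrices. -/
theorem exists_uniform_coercive (N : ℕ) {T : Type} [TopologicalSpace T] {K : Set T}
    (hK : IsCompact K) {h : T → Matrix (Fin N) (Fin N) ℂ}
    (hc : ∀ a b, ContinuousOn (fun y => h y a b) K) (hpos : ∀ y ∈ K, (h y).PosDef) :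
    ∃ δ : ℝ, 0 < δ ∧ ∀ y ∈ K, ∀ v : Fin N → ℂ, δ * ‖v‖ ^ 2 ≤ (star v ⬝ᵥ (h y *ᵥ v)).re := by
  have hK' : IsCompact (K ×ˢ Metric.sphere (0 : Fin N → ℂ) 1) := hK.prod (isCompact_sphere _ _)
  have hcont : ContinuousOn (fun p : T × (Fin N → ℂ) => (star p.2 ⬝ᵥ (h p.1 *ᵥ p.2)).re)
      (K ×ˢ Metric.sphere (0 : Fin N → ℂ) 1) := by
    refine Complex.continuous_re.comp_continuousOn ?_
    simp only [dotProduct, Matrix.mulVec]
    refine continuousOn_finsetSum _ fun a _ => ContinuousOn.mul ?_ ?_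
    · exact (continuous_star.comp ((continuous_apply a).comp continuous_snd)).continuousOn
    · refine continuousOn_finsetSum _ fun b _ => ContinuousOn.mul ?_ ?_
      · exact (hc a b).comp continuousOn_fst fun p hp => hp.1
      · exact ((continuous_apply b).comp continuous_snd).continuousOn
  have hp : ∀ p ∈ K ×ˢ Metric.sphere (0 : Fin N → ℂ) 1,
      (0 : ℝ) < (star p.2 ⬝ᵥ (h p.1 *ᵥ p.2)).re := by
    intro p hp
    have hne : p.2 ≠ 0 := by
      intro h0
      have := hp.2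
      rw [h0] at this
      simp at this
    exact (Complex.pos_iff.1 ((hpos p.1 hp.1).dotProduct_mulVec_pos hne)).1
  obtain ⟨δ, hδ, hle⟩ := hK'.exists_forall_le' hcont hp
  refine ⟨δ, hδ, fun y hy v => ?_⟩
  by_cases hv : v = 0
  · simp [hv]
  · have hn : ‖v‖ ≠ 0 := norm_ne_zero_iff.2 hv
    set u : Fin N → ℂ := ((‖v‖ : ℂ))⁻¹ • v with hu
    have hu1 : u ∈ Metric.sphere (0 : Fin N → ℂ) 1 := by
      rw [mem_sphere_zero_iff_norm, hu, norm_smul, norm_inv, Complex.norm_real, norm_norm,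
        inv_mul_cancel₀ hn]
    have hvu : v = (‖v‖ : ℂ) • u := by
      rw [hu, smul_smul, mul_inv_cancel₀ (Complex.ofReal_ne_zero.2 hn), one_smul]
    have h1 := hle (y, u) ⟨hy, hu1⟩
    have h2 : star v ⬝ᵥ (h y *ᵥ v) = ((‖v‖ ^ 2 : ℝ) : ℂ) * (star u ⬝ᵥ (h y *ᵥ u)) := by
      generalize ‖v‖ = r at hvu
      rw [hvu, star_smul, Matrix.mulVec_smul, smul_dotProduct, dotProduct_smul]
      simp only [smul_eq_mul, Complex.star_def, Complex.conj_ofReal, Complex.ofReal_pow]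
      ring
    rw [h2, Complex.re_ofReal_mul, mul_comm]
    exact mul_le_mul_of_nonneg_left h1 (sq_nonneg _)

/-- Lower bound for the determinant of a coercive Hermitian matrix. -/
theorem pow_le_det_re_of_coercive {k : ℕ} {M : Matrix (Fin k) (Fin k) ℂ} (hM : M.IsHermitian)
    {δ : ℝ} (hδ : 0 < δ) (h : ∀ v : Fin k → ℂ, δ * ‖v‖ ^ 2 ≤ (star v ⬝ᵥ (M *ᵥ v)).re) :
    (δ / (k + 1)) ^ k ≤ M.det.re := by
  have hev : ∀ i, δ / (k + 1) ≤ hM.eigenvalues i := by
    intro i
    rw [hM.eigenvalues_eq]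
    refine le_trans ?_ (h _)
    set v : Fin k → ℂ := ⇑(hM.eigenvectorBasis i) with hv
    have h1 : ‖hM.eigenvectorBasis i‖ ^ 2 = 1 := by
      rw [hM.eigenvectorBasis.orthonormal.1 i, one_pow]
    rw [EuclideanSpace.norm_sq_eq] at h1
    have h2 : ∑ j, ‖v j‖ ^ 2 ≤ ∑ _j : Fin k, ‖v‖ ^ 2 :=
      Finset.sum_le_sum fun j _ => pow_le_pow_left₀ (norm_nonneg _) (norm_le_pi_norm v j) 2
    rw [Finset.sum_const, Finset.card_univ, Fintype.card_fin, nsmul_eq_mul] at h2
    have h3 : 1 ≤ ((k : ℝ) + 1) * ‖v‖ ^ 2 := by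
      have : ∑ j, ‖v j‖ ^ 2 = 1 := h1
      nlinarith [sq_nonneg ‖v‖]
    rw [div_le_iff₀ (by positivity)]
    nlinarith
  rw [hM.det_eq_prod_eigenvalues]
  have h4 : (∏ i, ((hM.eigenvalues i : ℝ) : ℂ)) = ((∏ i, hM.eigenvalues i : ℝ) : ℂ) := by
    rw [Complex.ofReal_prod]
  have h5 : (∏ i, (RCLike.ofReal (hM.eigenvalues i) : ℂ)).re = ∏ i, hM.eigenvalues i := by
    have : (∏ i, (RCLike.ofReal (hM.eigenvalues i) : ℂ)) = ((∏ i, hM.eigenvalues i : ℝ) : ℂ) := h4
    rw [this, Complex.ofReal_re]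
  rw [h5]
  calc (δ / (k + 1)) ^ k = ∏ _i : Fin k, δ / (k + 1) := by
        rw [Finset.prod_const, Finset.card_univ, Fintype.card_fin]
    _ ≤ ∏ i, hM.eigenvalues i :=
      Finset.prod_le_prod (fun i _ => by positivity) fun i _ => hev i

theorem exists_minor_sq_le_det (k N : ℕ) {T : Type} [TopologicalSpace T] {K : Set T}
    (hK : IsCompact K) {h : T → Matrix (Fin N) (Fin N) ℂ}
    (hc : ∀ a b, ContinuousOn (fun y => h y a b) K) (hpos : ∀ y ∈ K, (h y).PosDef) :
    ∃ C : ℝ, 0 ≤ C ∧ ∀ y ∈ K, ∀ (J : Matrix (Fin N) (Fin k) ℂ) (s : Fin k → Fin N),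
      ‖(J.submatrix s id).det‖ ^ 2 ≤ C * (Jᴴ * h y * J).det.re := by
  obtain ⟨δ, hδ, hco⟩ := exists_uniform_coercive N hK hc hpos
  have hc0 : 0 < (δ / (k + 1)) ^ k := by positivity
  refine ⟨((δ / (k + 1)) ^ k)⁻¹, by positivity, fun y hy J s => ?_⟩
  set B : Matrix (Fin k) (Fin k) ℂ := J.submatrix s id with hB
  by_cases hdet : B.det = 0
  · rw [hdet, norm_zero, zero_pow two_ne_zero]
    refine mul_nonneg (by positivity) ?_
    exact (Complex.nonneg_iff.1
      (((hpos y hy).posSemidef.conjTranspose_mul_mul_same J).det_nonneg)).1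
  · have hu : IsUnit B.det := isUnit_iff_ne_zero.2 hdet
    set Q : Matrix (Fin N) (Fin k) ℂ := J * B⁻¹ with hQ
    have hJ : J = Q * B := by
      rw [hQ, Matrix.mul_assoc, Matrix.nonsing_inv_mul _ hu, Matrix.mul_one]
    have hQs : ∀ (v : Fin k → ℂ) (i : Fin k), (Q *ᵥ v) (s i) = v i := by
      intro v i
      have h1 : (Q *ᵥ v) (s i) = ((B * B⁻¹) *ᵥ v) i := by
        simp only [hQ, hB, Matrix.mulVec, dotProduct, Matrix.mul_apply, Matrix.submatrix_apply, id]
      rw [h1, Matrix.mul_nonsing_inv _ hu, Matrix.one_mulVec]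
    have hherm : (Qᴴ * h y * Q).IsHermitian :=
      ((hpos y hy).posSemidef.conjTranspose_mul_mul_same Q).isHermitian
    have hlow : (δ / (k + 1)) ^ k ≤ (Qᴴ * h y * Q).det.re := by
      refine pow_le_det_re_of_coercive hherm hδ fun v => ?_
      have h1 : star v ⬝ᵥ ((Qᴴ * h y * Q) *ᵥ v) = star (Q *ᵥ v) ⬝ᵥ (h y *ᵥ (Q *ᵥ v)) := by
        rw [Matrix.star_mulVec, ← Matrix.mulVec_mulVec, ← Matrix.mulVec_mulVec,
          Matrix.dotProduct_mulVec]
      rw [h1]
      refine le_trans ?_ (hco y hy (Q *ᵥ v))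
      have h2 : ‖v‖ ≤ ‖Q *ᵥ v‖ := by
        refine (pi_norm_le_iff_of_nonneg (norm_nonneg _)).2 fun i => ?_
        rw [← hQs v i]
        exact norm_le_pi_norm _ _
      exact mul_le_mul_of_nonneg_left (pow_le_pow_left₀ (norm_nonneg _) h2 2) hδ.le
    have hH : (Jᴴ * h y * J).det = ((‖B.det‖ ^ 2 : ℝ) : ℂ) * (Qᴴ * h y * Q).det := by
      have h1 : Jᴴ * h y * J = Bᴴ * (Qᴴ * h y * Q) * B := by
        conv_lhs => rw [hJ]
        simp only [Matrix.conjTranspose_mul, Matrix.mul_assoc]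
      rw [h1, Matrix.det_mul, Matrix.det_mul, Matrix.det_conjTranspose, ← Complex.normSq_eq_norm_sq,
        Complex.normSq_eq_conj_mul_self, Complex.star_def]
      ring
    rw [hH, Complex.re_ofReal_mul, ← div_eq_inv_mul, le_div_iff₀ hc0]
    exact mul_le_mul_of_nonneg_left hlow (sq_nonneg _)

/-- Polarization: a complex matrix is determined by its quadratic form. -/
theorem matrix_eq_of_quadratic_eq {k : ℕ} {M M' : Matrix (Fin k) (Fin k) ℂ}
    (h : ∀ v : Fin k → ℂ, star v ⬝ᵥ (M *ᵥ v) = star v ⬝ᵥ (M' *ᵥ v)) : M = M' := by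
  have key : ∀ (A : Matrix (Fin k) (Fin k) ℂ) (i j : Fin k) (c : ℂ),
      star (Pi.single i 1 + Pi.single j c : Fin k → ℂ) ⬝ᵥ
        (A *ᵥ (Pi.single i 1 + Pi.single j c : Fin k → ℂ)) =
        A i i + c * A i j + star c * A j i + star c * c * A j j := by
    intro A i j c
    simp only [star_add, Pi.star_single, star_one, Matrix.mulVec_add, add_dotProduct,
      single_dotProduct, Pi.add_apply, Matrix.mulVec_single, Matrix.col_apply, Pi.smul_apply,
      MulOpposite.smul_eq_mul_unop, MulOpposite.unop_op]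
    ring
  ext i j
  have h0 := h (Pi.single i 1 + Pi.single j 0)
  have h1 := h (Pi.single i 1 + Pi.single j 1)
  have h2 := h (Pi.single i 1 + Pi.single j (-1))
  have h3 := h (Pi.single i 1 + Pi.single j Complex.I)
  have h4 := h (Pi.single i 1 + Pi.single j (-Complex.I))
  rw [key, key] at h0 h1 h2 h3 h4
  simp only [star_neg, star_one, Complex.star_def, Complex.conj_I] at h1 h2 h3 h4
  have h5 : Complex.I * (4 * (M i j - M' i j)) = 0 := by
    linear_combination Complex.I * (h1 - h2) + (h3 - h4)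
  rcases mul_eq_zero.1 h5 with h6 | h6
  · exact absurd h6 Complex.I_ne_zero
  · linear_combination h6 / 4

end Pool.Agent.Lib.MP_940f24_an
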