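import Pool.Agent.Lib.MP_940f24_an.Struct
import Pool.Agent.Lib.MP_940f24_an.Proj

/-!
The Remmert-Stein theorem for a point.
-/

open Set Filter Topology MeasureTheory Metric Complex Polynomial
open scoped ENNReal

namespace Pool.Agent.Lib.MP_940f24_an

section
variable {E Y : Type} [NormedAddCommGroup E] [NormedSpace ℂ E] [FiniteDimensional ℂ E]
  [NormedAddCommGroup Y] [NormedSpace ℂ Y] [FiniteDimensional ℂ Y]

omit [FiniteDimensional ℂ Y] in
theorem rs_not_eventuallyEq_zero_prod {ι : Type} (s : Finset ι) {q : ι → Y → ℂ} {b : Y}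
    (h : ∀ i ∈ s, AnalyticAt ℂ (q i) b ∧ ¬ q i =ᶠ[𝓝 b] 0) :
    AnalyticAt ℂ (fun y => ∏ i ∈ s, q i y) b ∧ ¬ (fun y => ∏ i ∈ s, q i y) =ᶠ[𝓝 b] 0 := by
  classical
  induction s using Finset.induction_on with
  | empty =>
    refine ⟨by simpa using analyticAt_const, fun hz => ?_⟩
    simpa using hz.self_of_nhds
  | insert i s hi ih =>
    have h1 := h i (Finset.mem_insert_self _ _)
    have h2 := ih fun j hj => h j (Finset.mem_insert_of_mem hj)
    simp only [Finset.prod_insert hi]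
    exact ⟨h1.1.mul h2.1, not_eventuallyEq_zero_mul h1.1 h2.1 h1.2 h2.2⟩

/-- A compact piece of a fibre of an analytic set is finite. -/
theorem finite_fibre_of_isCompact {A O : Set E} {p : E →L[ℂ] Y} {w : Y} (hO : IsOpen O)
    (hA : ∀ x ∈ O, AnAt A x) (hK : IsCompact (A ∩ O ∩ p ⁻¹' {w})) :
    (A ∩ O ∩ p ⁻¹' {w}).Finite :=
  finite_of_isCompact_of_anAt hK fun x hx =>
    ((hA x hx.1.2).inter_nhds (hO.mem_nhds hx.1.2)).inter
      ((anAt_singleton w (p x)).preimage (p.analyticAt x))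

/-- Over a neighbourhood of a point with finite fibre, a set which is proper over the base is
an unramified cover off a hypersurface. -/
theorem exists_sheets_off_thin {A K : Set E} {p : E →L[ℂ] Y} {w₀ : Y} (hK : IsCompact K)
    (hAK : A ⊆ K) (hKA : ∀ x ∈ K, p x = w₀ → x ∈ A) (hfin : (A ∩ p ⁻¹' {w₀}).Finite)
    (hA : ∀ x ∈ A, p x = w₀ → AnAt A x) :
    ∃ q : Y → ℂ, AnalyticAt ℂ q w₀ ∧ ¬ q =ᶠ[𝓝 w₀] 0 ∧
      ∀ᶠ w in 𝓝 w₀, q w ≠ 0 → Sheets p A w := by
  classical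
  set F := A ∩ p ⁻¹' {w₀} with hF
  obtain ⟨U, hU, hUd⟩ := hfin.t2_separation
  have hloc : ∀ y ∈ F, ∃ V, IsOpen V ∧ y ∈ V ∧ V ⊆ U y ∧ ∃ q : Y → ℂ, AnalyticAt ℂ q w₀ ∧
      ¬ q =ᶠ[𝓝 w₀] 0 ∧ ∀ᶠ w in 𝓝 w₀, q w ≠ 0 → Sheets p (A ∩ V) w := by
    intro y hy
    have hpy : p y = w₀ := hy.2
    have hg : Good A y p := good_of_finite univ_mem (by rwa [inter_univ, hpy])
    obtain ⟨V, hVo, hyV, hVU, -, q, hq, hqne, hsh⟩ := local_param (hA y hy.1 hpy) hg
      ((hU y).2.mem_nhds (hU y).1)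
    rw [hpy] at hq hqne hsh
    exact ⟨V, hVo, hyV, hVU, q, hq, hqne, hsh⟩
  choose! V hVo hyV hVU q hq hqne hsh using hloc
  have hprod := rs_not_eventuallyEq_zero_prod hfin.toFinset (q := q) (b := w₀) fun y hy =>
    ⟨hq y (hfin.mem_toFinset.1 hy), hqne y (hfin.mem_toFinset.1 hy)⟩
  refine ⟨_, hprod.1, hprod.2, ?_⟩
  have hWo : IsOpen (⋃ y ∈ F, V y) := isOpen_biUnion hVo
  have hcl : IsClosed (p '' (K \ ⋃ y ∈ F, V y)) := ((hK.diff hWo).image p.continuous).isClosed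
  have hnot : w₀ ∉ p '' (K \ ⋃ y ∈ F, V y) := by
    rintro ⟨x, ⟨hxK, hxW⟩, hx⟩
    have hxF : x ∈ F := ⟨hKA x hxK hx, hx⟩
    exact hxW (mem_biUnion hxF (hyV x hxF))
  have h1 : ∀ᶠ w in 𝓝 w₀, w ∉ p '' (K \ ⋃ y ∈ F, V y) := hcl.isOpen_compl.mem_nhds hnot
  have h2 : ∀ᶠ w in 𝓝 w₀, ∀ y ∈ F, q y w ≠ 0 → Sheets p (A ∩ V y) w :=
    (hfin.eventually_all).2 hsh
  filter_upwards [h1.eventually_nhds, h2] with w hw1 hw2 hqw
  have hqy : ∀ y ∈ F, q y w ≠ 0 := fun y hy =>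
    Finset.prod_ne_zero_iff.1 hqw y (hfin.mem_toFinset.2 hy)
  have hd : F.PairwiseDisjoint fun y => A ∩ V y := fun y hy z hz hyz =>
    (hUd hy hz hyz).mono (inter_subset_right.trans (hVU y hy))
      (inter_subset_right.trans (hVU z hz))
  refine (sheets_biUnion hfin (fun y hy => hw2 y hy (hqy y hy)) hd).congr ?_
  filter_upwards [hw1] with v hv x hx
  constructor
  · intro h
    obtain ⟨y, -, hxy⟩ := mem_iUnion₂.1 h
    exact hxy.1
  · intro hxA
    by_contra hcon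
    refine hv ⟨x, ⟨hAK hxA, fun h => hcon ?_⟩, hx⟩
    obtain ⟨y, hy, hxy⟩ := mem_iUnion₂.1 h
    exact mem_biUnion hy ⟨hxA, hxy⟩

omit [FiniteDimensional ℂ E] [FiniteDimensional ℂ Y] in
/-- A point on a sheet lies in the closure of the part of the set over a dense subset. -/
theorem Sheets.mem_closure_inter_preimage {p : E →L[ℂ] Y} {S A : Set E} {G : Set Y} {x : E}
    (h : Sheets p S (p x)) (hx : x ∈ S) (hSA : S ⊆ A) (hG : p x ∈ closure G) :
    x ∈ closure (A ∩ p ⁻¹' G) := by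
  obtain ⟨σ, hσ, hσx, hσS, -⟩ := h.exists_section hx
  have ht : Tendsto σ (𝓝 (p x)) (𝓝 x) := by
    have := hσ.continuousAt.tendsto
    rwa [hσx] at this
  rw [mem_closure_iff_frequently] at hG ⊢
  refine ht.frequently ((hG.and_eventually hσS).mono fun w hw => ⟨hSA hw.2.1, ?_⟩)
  rw [mem_preimage, hw.2.2]
  exact hw.1

end

/-- A linear map whose kernel avoids the set on a sequence of spheres. -/
theorem exists_good_radii {k d : ℕ} {S : Set (Fin k → ℂ)} (hS : IsCompact S)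
    (hdim : dimH S ≤ 2 * (d : ℝ≥0∞)) {R : ℝ} (hR : 0 < R) :
    ∃ p : (Fin k → ℂ) →L[ℂ] (Fin d → ℂ), ∀ n : ℕ, ∃ ρ ∈ Ioo (R / (n + 2)) (R / (n + 1)),
      ∀ x ∈ S, p x = 0 → ‖x‖ ≠ ρ := by
  set j : (Fin k → ℂ) → (Fin d → ℂ) × (Fin k → ℂ) := fun x => (0, x) with hj
  have hlip : LipschitzWith 1 j := LipschitzWith.prodMk_left 0
  have hS' : IsCompact (j '' S) := hS.image hlip.continuous
  have hdim' : dimH (j '' S) ≤ 2 * (d : ℝ≥0∞) := (hlip.dimH_image_le S).trans hdim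
  have hod := fun n : ℕ => isOpen_dense_goodPlanes_radius hS' hdim'
    (r₁ := R / (n + 2)) (r₂ := R / (n + 1)) (by positivity)
    (div_lt_div_of_pos_left hR (by positivity) (by linarith))
  obtain ⟨p, hp⟩ := (dense_iInter_of_isOpen (fun n => (hod n).1) fun n => (hod n).2).nonempty
  refine ⟨p, fun n => ?_⟩
  obtain ⟨ρ, hρ, hgood⟩ := mem_iInter.1 hp n
  exact ⟨ρ, hρ, fun x hx hpx => hgood.2 (j x) ⟨x, hx, rfl⟩ hpx.symm⟩

theorem remmert_stein_step {k d : ℕ} {A : Set (Fin k → ℂ)}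
    (hA : ∀ᶠ x in 𝓝[≠] (0 : Fin k → ℂ), AnAt A x)
    (hiso : ∀ᶠ x in 𝓝[≠] (0 : Fin k → ℂ), x ∈ A → x ∈ closure (A \ {x}))
    (hg : ∀ᶠ x in 𝓝[≠] (0 : Fin k → ℂ), x ∈ A → HasGood A x (d + 1)) :
    ∃ T A' : Set (Fin k → ℂ), AnAt T 0 ∧ (∀ᶠ x in 𝓝[≠] (0 : Fin k → ℂ), AnAt A' x) ∧
      (∀ᶠ x in 𝓝[≠] (0 : Fin k → ℂ), x ∈ A' → x ∈ closure (A' \ {x})) ∧
      (∀ᶠ x in 𝓝[≠] (0 : Fin k → ℂ), x ∈ A' → HasGood A' x d) ∧
      ∀ᶠ x in 𝓝[≠] (0 : Fin k → ℂ), (x ∈ T ∪ A' ↔ x ∈ A) := by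
  obtain ⟨R, hR, hball⟩ := Metric.nhds_basis_closedBall.eventually_iff.1
    (eventually_nhdsWithin_iff.1 (hA.and (hiso.and hg)))
  have hb : ∀ x : Fin k → ℂ, ‖x‖ ≤ R → x ≠ 0 → AnAt A x ∧ (x ∈ A → x ∈ closure (A \ {x})) ∧
      (x ∈ A → HasGood A x (d + 1)) := fun x hx hx0 => hball (mem_closedBall_zero_iff.2 hx) hx0
  set S : Set (Fin k → ℂ) := (A ∪ {0}) ∩ closedBall 0 R with hSdef
  have hSc : IsCompact S := by
    refine (isCompact_closedBall (0 : Fin k → ℂ) R).of_isClosed_subset ?_ inter_subset_right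
    refine isClosed_of_closure_subset fun x hx => ?_
    have hxR : x ∈ closedBall (0 : Fin k → ℂ) R :=
      closure_minimal inter_subset_right isClosed_closedBall hx
    refine ⟨?_, hxR⟩
    by_cases hx0 : x = 0
    · exact Or.inr hx0
    · have h1 := closure_mono inter_subset_left hx
      rw [closure_union, closure_singleton] at h1
      exact Or.inl ((hb x (mem_closedBall_zero_iff.1 hxR) hx0).1.mem_of_mem_closure
        (h1.resolve_right hx0))
  have hSdim : dimH S ≤ 2 * ((d + 1 : ℕ) : ℝ≥0∞) := by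
    have h1 : dimH (S \ {0}) ≤ 2 * ((d + 1 : ℕ) : ℝ≥0∞) := by
      refine dimH_le_of_forall_nhdsWithin fun x hx => ?_
      have hxA : x ∈ A := hx.1.1.resolve_right hx.2
      have hbx := hb x (mem_closedBall_zero_iff.1 hx.1.2) hx.2
      obtain ⟨V, hV, hdim⟩ := (hbx.2.2 hxA).dimH_le hbx.1
      refine ⟨A ∩ V, ?_, hdim⟩
      filter_upwards [self_mem_nhdsWithin, mem_nhdsWithin_of_mem_nhds hV] with y hy hyV
      exact ⟨hy.1.1.resolve_right hy.2, hyV⟩
    refine (dimH_mono (t := (S \ {0}) ∪ {0}) fun x hx => ?_).trans ?_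
    · by_cases hx0 : x = 0
      · exact Or.inr hx0
      · exact Or.inl ⟨hx, hx0⟩
    · rw [dimH_union, dimH_singleton]
      exact max_le h1 zero_le
  obtain ⟨p, hp⟩ := exists_good_radii hSc hSdim hR
  obtain ⟨ρ, hρ, hρS⟩ := hp 0
  have hρ0 : 0 < ρ := lt_trans (by positivity) hρ.1
  have hρR : ρ < R := by simpa using hρ.2
  obtain ⟨r, hr, hrS⟩ : ∃ r > 0, ∀ x ∈ S, ‖x‖ = ρ → p x ∉ ball (0 : Fin (d + 1) → ℂ) r := by
    have hcl : IsClosed (p '' (S ∩ sphere 0 ρ)) :=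
      ((hSc.inter_right isClosed_sphere).image p.continuous).isClosed
    have hnot : (0 : Fin (d + 1) → ℂ) ∉ p '' (S ∩ sphere 0 ρ) := by
      rintro ⟨x, ⟨hxS, hxρ⟩, hx⟩
      exact hρS x hxS hx (mem_sphere_zero_iff_norm.1 hxρ)
    obtain ⟨r, hr, hsub⟩ := Metric.mem_nhds_iff.1 (hcl.isOpen_compl.mem_nhds hnot)
    exact ⟨r, hr, fun x hx hxρ hpx => hsub hpx ⟨x, ⟨hx, mem_sphere_zero_iff_norm.2 hxρ⟩, rfl⟩⟩
  set D : Set (Fin (d + 1) → ℂ) := ball 0 r with hD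
  set O : Set (Fin k → ℂ) := ball 0 ρ \ {0} with hO
  have hOo : IsOpen O := isOpen_ball.sdiff isClosed_singleton
  have hbO : ∀ x ∈ O, AnAt A x ∧ (x ∈ A → x ∈ closure (A \ {x})) ∧
      (x ∈ A → HasGood A x (d + 1)) := fun x hx =>
    hb x ((mem_ball_zero_iff.1 hx.1).le.trans hρR.le) hx.2
  set A₁ : Set (Fin k → ℂ) := A ∩ O with hA₁
  have hA₁an : ∀ x ∈ O, AnAt A₁ x := fun x hx => (hbO x hx).1.inter_nhds (hOo.mem_nhds hx)
  set K : Set (Fin k → ℂ) := S ∩ closedBall 0 ρ with hK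
  have hKc : IsCompact K := hSc.inter_right isClosed_closedBall
  have hA₁K : A₁ ⊆ K := fun x hx =>
    ⟨⟨Or.inl hx.1, mem_closedBall_zero_iff.2 ((mem_ball_zero_iff.1 hx.2.1).le.trans hρR.le)⟩,
      ball_subset_closedBall hx.2.1⟩
  have hKA₁ : ∀ x ∈ K, x ≠ 0 → p x ∈ D → x ∈ A₁ := fun x hx hx0 hpx =>
    ⟨hx.1.1.resolve_right hx0, mem_ball_zero_iff.2
      (lt_of_le_of_ne (mem_closedBall_zero_iff.1 hx.2) fun h => hrS x hx.1 h hpx), hx0⟩
  have hfin : ∀ w ∈ D \ {0}, (A₁ ∩ p ⁻¹' {w}).Finite := by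
    intro w hw
    refine finite_fibre_of_isCompact hOo (fun x hx => (hbO x hx).1) ?_
    have heq : A ∩ O ∩ p ⁻¹' {w} = K ∩ p ⁻¹' {w} := by
      refine Subset.antisymm (inter_subset_inter_left _ hA₁K) fun x hx => ⟨?_, hx.2⟩
      have hpx : p x = w := hx.2
      refine hKA₁ x hx.1 ?_ (hpx ▸ hw.1)
      rintro rfl
      exact hw.2 (by rw [← hpx, map_zero]; exact mem_singleton _)
    rw [heq]
    exact hKc.inter_right (isClosed_singleton.preimage p.continuous)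
  have hgood : ∀ y ∈ A₁, p y ∈ D → Good A₁ y p := by
    intro y hy hpy
    by_cases hp0 : p y = 0
    · have hy0 : 0 < ‖y‖ := norm_pos_iff.2 hy.2.2
      obtain ⟨n, hn⟩ := exists_nat_gt (R / ‖y‖)
      obtain ⟨ρ', hρ', hρ'S⟩ := hp n
      have hρ'0 : 0 < ρ' := lt_trans (by positivity) hρ'.1
      have hlt : ρ' < ‖y‖ := by
        refine hρ'.2.trans ?_
        rw [div_lt_iff₀ hy0] at hn
        rw [div_lt_iff₀ (by positivity)]
        nlinarith
      have hO'o : IsOpen (closedBall (0 : Fin k → ℂ) ρ')ᶜ := isClosed_closedBall.isOpen_compl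
      refine good_of_finite (hO'o.mem_nhds fun h => (not_le.2 hlt) (mem_closedBall_zero_iff.1 h)) ?_
      rw [hp0, hA₁, inter_assoc A O]
      refine finite_fibre_of_isCompact (hOo.inter hO'o) (fun x hx => (hbO x hx.1).1) ?_
      have heq : A ∩ (O ∩ (closedBall 0 ρ')ᶜ) ∩ p ⁻¹' {0} = K ∩ (ball 0 ρ')ᶜ ∩ p ⁻¹' {0} := by
        refine Subset.antisymm (fun x hx => ⟨⟨hA₁K ⟨hx.1.1, hx.1.2.1⟩,
          fun h => hx.1.2.2 (ball_subset_closedBall h)⟩, hx.2⟩) fun x hx => ⟨?_, hx.2⟩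
        have hpx : p x = 0 := hx.2
        have hx0 : x ≠ 0 := by
          rintro rfl
          exact hx.1.2 (mem_ball_self hρ'0)
        have hx1 := hKA₁ x hx.1.1 hx0 (by rw [hpx]; exact mem_ball_self hr)
        refine ⟨hx1.1, hx1.2, fun h => hx.1.2 (mem_ball_zero_iff.2 ?_)⟩
        exact lt_of_le_of_ne (mem_closedBall_zero_iff.1 h) (hρ'S x hx.1.1.1 hpx)
      rw [heq]
      exact (hKc.inter_right isOpen_ball.isClosed_compl).inter_right
        (isClosed_singleton.preimage p.continuous)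
    · exact good_of_finite univ_mem (by rw [inter_univ]; exact hfin _ ⟨hpy, hp0⟩)
  set G : Set (Fin (d + 1) → ℂ) := (D \ {0}) ∩ {w | Sheets p A₁ w} with hG
  have hD0 : IsOpen (D \ {0}) := isOpen_ball.sdiff isClosed_singleton
  have hrem : Removable D G := by
    refine (removable_diff_singleton (Nat.succ_pos d) isOpen_ball 0).trans
      (removable_of_thinIn hD0 ?_ inter_subset_left fun w hw => ?_)
    · rw [isOpen_iff_mem_nhds]
      exact fun w hw => inter_mem (hD0.mem_nhds hw.1) hw.2.eventually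
    · obtain ⟨q, hq, hqne, hsh⟩ := exists_sheets_off_thin (p := p) (w₀ := w) hKc hA₁K
        (fun x hx hpx => hKA₁ x hx (by
          rintro rfl
          exact hw.2 (by rw [← hpx, map_zero]; exact mem_singleton _)) (hpx ▸ hw.1))
        (hfin w hw) fun x hx _ => hA₁an x hx.2
      refine ⟨q, hq, hqne, ?_⟩
      filter_upwards [hsh] with y hy hyG
      by_contra hne
      exact hyG.2 ⟨hyG.1, hy hne⟩
  set T : Set (Fin k → ℂ) := closure (A₁ ∩ p ⁻¹' G) with hT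
  have hTan : ∀ y, p y ∈ D → AnAt T y :=
    anAt_closure_of_sheets isOpen_ball (convex_ball _ _).isPreconnected hrem
      (hKc.isBounded.subset hA₁K) fun w hw => hw.2
  have hnear : ∀ᶠ y in 𝓝[≠] (0 : Fin k → ℂ), y ∈ O ∧ p y ∈ D := by
    have h1 : p ⁻¹' D ∈ 𝓝 (0 : Fin k → ℂ) :=
      p.continuous.continuousAt.preimage_mem_nhds (by rw [map_zero]; exact ball_mem_nhds _ hr)
    filter_upwards [self_mem_nhdsWithin, mem_nhdsWithin_of_mem_nhds h1,
      mem_nhdsWithin_of_mem_nhds (ball_mem_nhds (0 : Fin k → ℂ) hρ0)] with y hy0 hy1 hy2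
    exact ⟨⟨hy2, hy0⟩, hy1⟩
  have hmem : ∀ y ∈ O, y ∈ closure (A₁ \ T) → y ∈ A₁ := fun y hy h =>
    (hA₁an y hy).mem_of_mem_closure (closure_mono sdiff_subset h)
  refine ⟨T, closure (A₁ \ T), hTan 0 (by rw [map_zero]; exact mem_ball_self hr), ?_, ?_, ?_, ?_⟩
  · filter_upwards [hnear] with y hy using (hA₁an y hy.1).closure_diff (hTan y hy.2)
  · filter_upwards [hnear] with y hy hyA'
    refine closure_mono (sdiff_subset_sdiff_left subset_closure) ?_
    by_cases hyT : y ∈ T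
    · have heq : (A₁ \ T) \ {y} = A₁ \ T := sdiff_singleton_eq_self fun h => h.2 hyT
      rwa [heq]
    · have h1 := (hbO y hy.1).2.1 (hmem y hy.1 hyA').1
      rw [mem_closure_iff_frequently] at h1 ⊢
      have h2 : ∀ᶠ x in 𝓝 y, x ∈ O ∧ x ∉ T :=
        inter_mem (hOo.mem_nhds hy.1) (isClosed_closure.isOpen_compl.mem_nhds hyT)
      exact (h1.and_eventually h2).mono fun x hx => ⟨⟨⟨hx.1.1, hx.2.1⟩, hx.2.2⟩, hx.1.2⟩
  · filter_upwards [hnear] with y hy hyA'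
    have hyA := hmem y hy.1 hyA'
    have hgy := hgood y hyA hy.2
    obtain ⟨V, hVo, hyV, -, -, q, hq, hqne, hsh⟩ := local_param (hA₁an y hy.1) hgy
      (V₀ := univ) univ_mem
    refine (hgy.drop hq hqne).mono ?_
    have h1 : ∀ᶠ x in 𝓝 y, x ∈ A₁ \ T → x ∈ A₁ ∩ {x | q (p x) = 0} := by
      filter_upwards [hVo.mem_nhds hyV, p.continuous.continuousAt.preimage_mem_nhds hsh,
        p.continuous.continuousAt.preimage_mem_nhds (isOpen_ball.mem_nhds hy.2)]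
        with x hxV hx1 hx2 hx
      refine ⟨hx.1, ?_⟩
      by_contra hne
      exact hx.2 ((hx1 hne).mem_closure_inter_preimage ⟨hx.1, hxV⟩ inter_subset_left
        (hrem.dense hx2))
    filter_upwards [eventually_mem_closure_mono h1,
      ((hA₁an y hy.1).inter_zero_comp p hq).eventually] with x hx1 hx2 hx
    exact hx2.mem_of_mem_closure (hx1 hx)
  · filter_upwards [hnear] with y hy
    constructor
    · rintro (h | h)
      · exact ((hA₁an y hy.1).mem_of_mem_closure (closure_mono inter_subset_left h)).1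
      · exact (hmem y hy.1 h).1
    · intro h
      by_cases hyT : y ∈ T
      · exact Or.inl hyT
      · exact Or.inr (subset_closure ⟨⟨h, hy.1⟩, hyT⟩)

theorem remmert_stein_aux {k : ℕ} (d : ℕ) : ∀ A : Set (Fin k → ℂ),
    (∀ᶠ x in 𝓝[≠] (0 : Fin k → ℂ), AnAt A x) →
    (∀ᶠ x in 𝓝[≠] (0 : Fin k → ℂ), x ∈ A → x ∈ closure (A \ {x})) →
    (∀ᶠ x in 𝓝[≠] (0 : Fin k → ℂ), x ∈ A → HasGood A x d) → AnAt (A ∪ {0}) 0 := by
  induction d with
  | zero =>
    intro A _ hiso hg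
    refine (anAt_singleton (0 : Fin k → ℂ) 0).congr ?_
    filter_upwards [eventually_nhdsWithin_iff.1 (hiso.and hg)] with x hx
    refine ⟨Or.inr, fun h => ?_⟩
    by_contra hx0
    have hxA : x ∈ A := h.resolve_right hx0
    have h1 := (hx hx0).1 hxA
    rw [mem_closure_iff_frequently] at h1
    obtain ⟨y, hy1, hy2⟩ := (h1.and_eventually ((hx hx0).2 hxA).isolated).exists
    exact hy1.2 (hy2 hy1.1)
  | succ d ih =>
    intro A hA hiso hg
    obtain ⟨T, A', hT, hA', hiso', hg', hun⟩ := remmert_stein_step hA hiso hg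
    refine (hT.union (ih A' hA' hiso' hg')).congr ?_
    filter_upwards [eventually_nhdsWithin_iff.1 hun] with x hx
    by_cases hx0 : x = 0
    · exact iff_of_true (Or.inr (Or.inr hx0)) (Or.inr hx0)
    · constructor
      · rintro (h | h | h)
        · exact Or.inl ((hx hx0).1 (Or.inl h))
        · exact Or.inl ((hx hx0).1 (Or.inr h))
        · exact Or.inr h
      · rintro (h | h)
        · rcases (hx hx0).2 h with h' | h'
          · exact Or.inl h'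
          · exact Or.inr (Or.inl h')
        · exact Or.inr (Or.inr h)

theorem remmert_stein_point {k : ℕ} {A : Set (Fin k → ℂ)}
    (hA : ∀ᶠ x in 𝓝[≠] (0 : Fin k → ℂ), AnAt A x)
    (hiso : ∀ᶠ x in 𝓝[≠] (0 : Fin k → ℂ), x ∈ A → x ∈ closure (A \ {x})) :
    AnAt (A ∪ {0}) 0 :=
  remmert_stein_aux _ A hA hiso (Eventually.of_forall fun x _ => hasGood_finrank A x)

end Pool.Agent.Lib.MP_940f24_an
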