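import Pool.Agent.Lib.MP_940f24_an.Bishop
import Pool.Agent.Lib.MP_940f24_an.LinAlg
import Pool.Agent.Lib.MP_940f24_an.RS

/-!
From the local theorem to the complex space `X`.
-/

open Set Filter Topology MeasureTheory Metric Complex
open scoped ENNReal Matrix

namespace Pool.Agent.Lib.MP_940f24_an

universe u

variable {X : Type u} [TopologicalSpace X] {𝒜 : ComplexAtlas X} {k : ℕ}

/-- The graph of `f` over `S`. -/
def graphOn (S : Set (Fin k → ℂ)) (f : (Fin k → ℂ) → X) : Set ((Fin k → ℂ) × X) :=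
  {p | p.1 ∈ S ∧ p.2 = f p.1}

theorem ComplexAtlas.continuousAt_chart {i : 𝒜.ι} {x : X} (hx : x ∈ 𝒜.source i) :
    ContinuousAt (𝒜.chart i) x := by
  have : ContinuousOn (𝒜.chart i) (𝒜.source i) :=
    continuousOn_iff_continuous_domRestrict.2 (𝒜.isEmbedding i).continuous
  exact this.continuousAt ((𝒜.isOpen_source i).mem_nhds hx)

theorem ComplexAtlas.chart_injOn (i : 𝒜.ι) : InjOn (𝒜.chart i) (𝒜.source i) := by
  intro x hx y hy h
  have := (𝒜.isEmbedding i).injective (a₁ := ⟨x, hx⟩) (a₂ := ⟨y, hy⟩) h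
  exact congrArg Subtype.val this

theorem ComplexAtlas.chart_mem_ambient {i : 𝒜.ι} {x : X} (hx : x ∈ 𝒜.source i) :
    𝒜.chart i x ∈ 𝒜.ambient i :=
  (𝒜.analytic_image i).1 ⟨x, hx, rfl⟩

theorem mem_closure_iff_chart {i : 𝒜.ι} {S : Set ((Fin k → ℂ) × X)} {z : Fin k → ℂ} {x : X}
    (hx : x ∈ 𝒜.source i) :
    (z, x) ∈ closure S ↔ (z, 𝒜.chart i x) ∈ closure (𝒜.chartImage i S) := by
  let Ψ : (Fin k → ℂ) × 𝒜.source i → (Fin k → ℂ) × (Fin (𝒜.dim i) → ℂ) :=
    Prod.map id fun y => 𝒜.chart i y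
  let j : (Fin k → ℂ) × 𝒜.source i → (Fin k → ℂ) × X := Prod.map id Subtype.val
  have hΨ : IsInducing Ψ := IsInducing.id.prodMap (𝒜.isEmbedding i).isInducing
  have hj : IsOpenEmbedding j :=
    IsOpenEmbedding.id.prodMap (𝒜.isOpen_source i).isOpenEmbedding_subtypeVal
  have h1 : Ψ '' (j ⁻¹' S) = 𝒜.chartImage i S := by
    ext p
    constructor
    · rintro ⟨q, hq, rfl⟩
      exact ⟨q.2.1, q.2.2, hq, rfl⟩
    · rintro ⟨y, hy, hyS, hp⟩
      exact ⟨(p.1, ⟨y, hy⟩), hyS, Prod.ext rfl hp⟩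
  have h2 : j ⁻¹' closure S = closure (j ⁻¹' S) :=
    hj.isOpenMap.preimage_closure_eq_closure_preimage hj.continuous S
  have h3 : closure (j ⁻¹' S) = Ψ ⁻¹' closure (Ψ '' (j ⁻¹' S)) :=
    hΨ.closure_eq_preimage_closure_image _
  have h4 : (z, (⟨x, hx⟩ : 𝒜.source i)) ∈ j ⁻¹' closure S ↔
      (z, (⟨x, hx⟩ : 𝒜.source i)) ∈ Ψ ⁻¹' closure (𝒜.chartImage i S) := by
    rw [h2, h3, h1]
  exact h4

theorem chartImage_closure (i : 𝒜.ι) (D : Set (Fin k → ℂ)) (S : Set ((Fin k → ℂ) × X)) :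
    𝒜.chartImage i (closure S ∩ D ×ˢ univ) =
      closure (𝒜.chartImage i S) ∩ D ×ˢ 𝒜.ambient i := by
  ext p
  constructor
  · rintro ⟨x, hx, ⟨hS, hD⟩, hp⟩
    refine ⟨?_, hD.1, hp ▸ 𝒜.chart_mem_ambient hx⟩
    have := (mem_closure_iff_chart hx).1 hS
    rwa [hp] at this
  · rintro ⟨hp, hD, hA⟩
    have h1 : p.2 ∈ closure (𝒜.chart i '' 𝒜.source i) := by
      refine map_mem_closure continuous_snd hp ?_
      rintro q ⟨y, hy, -, hq⟩
      exact ⟨y, hy, hq⟩
    obtain ⟨x, hx, hxp⟩ := ((𝒜.analytic_image i).2 _ hA).mem_of_mem_closure h1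
    refine ⟨x, hx, ⟨(mem_closure_iff_chart hx).2 ?_, hD, trivial⟩, hxp⟩
    rw [hxp]; exact hp

/-- An analytic subset of `D × X` is closed in `D × X`. -/
theorem IsAnalyticProd.mem_of_mem_closure {D : Set (Fin k → ℂ)} {S : Set ((Fin k → ℂ) × X)}
    (hS : 𝒜.IsAnalyticProd D S) {p : (Fin k → ℂ) × X} (hp : p ∈ closure S) (hD : p.1 ∈ D) :
    p ∈ S := by
  have hx := 𝒜.mem_source_chartAt p.2
  have h1 := (mem_closure_iff_chart (z := p.1) hx).1 hp
  have h2 := ((hS.2 _).2 (p.1, 𝒜.chart _ p.2)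
    ⟨hD, 𝒜.chart_mem_ambient hx⟩).mem_of_mem_closure h1
  obtain ⟨y, hy, hyS, hyp⟩ := h2
  have : y = p.2 := 𝒜.chart_injOn _ hy hx hyp
  rw [this] at hyS
  exact hyS

theorem IsAnalyticProd.restrict {D D' : Set (Fin k → ℂ)} {S : Set ((Fin k → ℂ) × X)}
    (hS : 𝒜.IsAnalyticProd D S) (hD' : IsOpen D') (hsub : D' ⊆ D) :
    𝒜.IsAnalyticProd D' (S ∩ D' ×ˢ univ) := by
  refine ⟨inter_subset_right, fun i => ⟨?_, fun a ha => ?_⟩⟩
  · rintro p ⟨x, hx, ⟨-, hD⟩, hp⟩
    exact ⟨hD.1, hp ▸ 𝒜.chart_mem_ambient hx⟩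
  · refine ((hS.2 i).2 a ⟨hsub ha.1, ha.2⟩).congr ?_
    have : ∀ᶠ x : (Fin k → ℂ) × (Fin (𝒜.dim i) → ℂ) in 𝓝 a, x.1 ∈ D' :=
      continuous_fst.continuousAt.preimage_mem_nhds (hD'.mem_nhds ha.1)
    filter_upwards [this] with p hp
    constructor
    · rintro ⟨x, hx, hS, h⟩
      exact ⟨x, hx, ⟨hS, hp, trivial⟩, h⟩
    · rintro ⟨x, hx, ⟨hS, -⟩, h⟩
      exact ⟨x, hx, hS, h⟩

theorem dense_compl_of_codim_two (hk : 0 < k) {I : Set (Fin k → ℂ)}
    (hI : μH[2 * (k : ℝ) - 2] I = 0) : Dense Iᶜ := by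
  apply dense_compl_of_dimH_lt_finrank
  have h1 : (((2 * (k - 1) : ℕ) : NNReal) : ℝ) = 2 * (k : ℝ) - 2 := by
    obtain ⟨n, rfl⟩ : ∃ n, k = n + 1 := ⟨k - 1, by omega⟩
    simp; ring
  have h2 : dimH I ≤ ((2 * (k - 1) : ℕ) : NNReal) := by
    apply dimH_le_of_hausdorffMeasure_ne_top
    rw [h1, hI]; exact ENNReal.zero_ne_top
  have h3 : Module.finrank ℝ (Fin k → ℂ) = 2 * k := by
    rw [Module.finrank_pi_fintype]; simp [mul_comm]
  rw [h3]
  refine h2.trans_lt ?_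
  have : 2 * (k - 1) < 2 * k := by omega
  exact_mod_cast this

variable {I : Set (Fin k → ℂ)} {f : (Fin k → ℂ) → X}

/-- The pulled back Hermitian matrix does not depend on the chart. -/
theorem HermitianForm.pullback_eq (om : HermitianForm 𝒜) {U : Set (Fin k → ℂ)} (hU : IsOpen U)
    (hf : 𝒜.Holomorphic U f) {z : Fin k → ℂ} (hz : z ∈ U) {i j : 𝒜.ι} (hi : f z ∈ 𝒜.source i)
    (hj : f z ∈ 𝒜.source j) : om.pullback i f z = om.pullback j f z := by
  apply matrix_eq_of_quadratic_eq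
  intro v
  let L : ℂ → (Fin k → ℂ) := fun t => z + t • v
  have hL : ∀ t, HasDerivAt L v t := fun t => by
    simpa [L] using ((hasDerivAt_id t).smul_const v).const_add z
  have hLc : Continuous L := by fun_prop
  have hL0 : L 0 = z := by simp [L]
  have hLa : ∀ t, AnalyticAt ℂ L t := fun t => by
    simp only [L]; fun_prop
  obtain ⟨r, hr, hball⟩ := Metric.isOpen_iff.1 (hU.preimage hLc) 0 (by simpa [hL0] using hz)
  have hγ : 𝒜.Holomorphic (ball 0 r) (f ∘ L) := by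
    refine ⟨hf.1.comp hLc.continuousOn hball, fun m t ht hm => ?_⟩
    exact AnalyticAt.comp (g := 𝒜.chart m ∘ f) (hf.2 m (L t) (hball ht) hm) (hLa t)
  have hγ0 : (f ∘ L) 0 = f z := by simp [hL0]
  have key : ∀ m, f z ∈ 𝒜.source m →
      deriv (𝒜.chart m ∘ (f ∘ L)) 0 = jac (𝒜.chart m ∘ f) z *ᵥ v := by
    intro m hm
    rw [jac_mulVec]
    have h1 : HasFDerivAt (𝒜.chart m ∘ f) (fderiv ℂ (𝒜.chart m ∘ f) z) (L 0) := by
      rw [hL0]; exact (hf.2 m z hz hm).differentiableAt.hasFDerivAt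
    exact (h1.comp_hasDerivAt 0 (hL 0)).deriv
  have h := om.compat i j (f ∘ L) r hr hγ (by rwa [hγ0]) (by rwa [hγ0])
  rw [key i hi, key j hj, hγ0] at h
  simp only [HermitianForm.pullback, ← Matrix.mulVec_mulVec, Matrix.dotProduct_mulVec,
    Matrix.star_mulVec] at h ⊢
  exact h

theorem eq_of_mem_closure_graphOn [T2Space X] {U : Set (Fin k → ℂ)} (hU : IsOpen U)
    (hf : ContinuousOn f U) {z : Fin k → ℂ} {x : X} (hz : z ∈ U)
    (h : (z, x) ∈ closure (graphOn U f)) : x = f z := by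
  have hc : ContinuousAt (fun p : (Fin k → ℂ) × X => (p.2, f p.1)) (z, x) :=
    continuousAt_snd.prodMk
      (ContinuousAt.comp (g := f) (hf.continuousAt (hU.mem_nhds hz)) continuousAt_fst)
  have h2 : (x, f z) ∈ closure (diagonal X) := by
    refine closure_mono ?_
      (mem_closure_image (f := fun p : (Fin k → ℂ) × X => (p.2, f p.1)) (x := (z, x)) hc h)
    rintro _ ⟨p, hp, rfl⟩
    exact hp.2
  rw [isClosed_diagonal.closure_eq] at h2
  exact h2

theorem IsAnalyticSubset.isOpen_diff {D I : Set (Fin k → ℂ)} (hD : IsOpen D)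
    (hI : IsAnalyticSubset D I) : IsOpen (D \ I) := by
  have : D \ I = D \ closure I := by
    ext z
    exact ⟨fun h => ⟨h.1, fun h' => h.2 ((hI.2 z h.1).mem_of_mem_closure h')⟩,
      fun h => ⟨h.1, fun h' => h.2 (subset_closure h')⟩⟩
  rw [this]
  exact hD.sdiff isClosed_closure

theorem closure_gr_eq (i : 𝒜.ι) (S : Set (Fin k → ℂ)) :
    closure (gr (𝒜.chart i ∘ f) '' (S ∩ f ⁻¹' 𝒜.source i)) =
      splitEquiv k (𝒜.dim i) ⁻¹' closure (𝒜.chartImage i (graphOn S f)) := by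
  have h1 : gr (𝒜.chart i ∘ f) '' (S ∩ f ⁻¹' 𝒜.source i) =
      splitEquiv k (𝒜.dim i) ⁻¹' (𝒜.chartImage i (graphOn S f)) := by
    ext x
    constructor
    · rintro ⟨z, hz, rfl⟩
      exact ⟨f z, hz.2, ⟨hz.1, rfl⟩, rfl⟩
    · rintro ⟨y, hy, ⟨hS, hyf⟩, hx⟩
      simp only [splitEquiv_apply] at hS hyf hx
      refine ⟨x ∘ Sum.inl, ⟨hS, by rw [mem_preimage, ← hyf]; exact hy⟩, ?_⟩
      ext m
      rcases m with l | m
      · rfl
      · have := congrFun hx m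
        simp only [gr, Sum.elim_inr, Function.comp_apply, ← hyf]
        exact this
  rw [h1]
  exact ((splitEquiv k (𝒜.dim i)).toHomeomorph.preimage_closure _).symm

theorem setup_of_meromorphic [T2Space X] (hk : 0 < k) (om : HermitianForm 𝒜)
    (hf : 𝒜.IsMeromorphic (polydisk k \ {0}) I f)
    (hvol : om.imageVolume ((polydisk k \ {0}) \ I) f < ⊤) (i : 𝒜.ι) :
    Setup (((polydisk k \ {0}) \ I) ∩ f ⁻¹' 𝒜.source i) I (𝒜.ambient i) (𝒜.chart i ∘ f) := by
  have hO : IsOpen ((polydisk k \ {0}) \ I) :=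
    hf.analytic_indet.isOpen_diff (isOpen_punctured k)
  have hW : IsOpen (((polydisk k \ {0}) \ I) ∩ f ⁻¹' 𝒜.source i) :=
    hf.holomorphic.1.isOpen_inter_preimage hO (𝒜.isOpen_source i)
  have han : AnalyticOnNhd ℂ (𝒜.chart i ∘ f) (((polydisk k \ {0}) \ I) ∩ f ⁻¹' 𝒜.source i) :=
    fun z hz => hf.holomorphic.2 i z hz.1 hz.2
  have hcl := chartImage_closure (𝒜 := 𝒜) i (polydisk k \ {0})
    (graphOn ((polydisk k \ {0}) \ I) f)
  refine ⟨hk, hW, 𝒜.isOpen_ambient i, inter_subset_left, han,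
    fun z hz => 𝒜.chart_mem_ambient hz.2, hf.analytic_indet.2,
    fun z _ => dense_compl_of_codim_two hk hf.codim_two z, ?_, ?_, ?_⟩
  · intro x hx hΩ hI
    rw [closure_gr_eq] at hx
    have h1 : splitEquiv k (𝒜.dim i) x ∈ 𝒜.chartImage i
        (closure (graphOn ((polydisk k \ {0}) \ I) f) ∩ (polydisk k \ {0}) ×ˢ univ) := by
      rw [hcl]; exact ⟨hx, hΩ⟩
    obtain ⟨y, hy, ⟨hyS, -⟩, hyx⟩ := h1
    simp only [splitEquiv_apply] at hyS hyx
    have h2 : y = f (x ∘ Sum.inl) :=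
      eq_of_mem_closure_graphOn hO hf.holomorphic.1 ⟨hΩ.1, hI⟩ hyS
    refine ⟨x ∘ Sum.inl, ⟨⟨hΩ.1, hI⟩, by rw [mem_preimage, ← h2]; exact hy⟩, ?_⟩
    ext m
    rcases m with l | m
    · rfl
    · have := congrFun hyx m
      simp only [gr, Sum.elim_inr, Function.comp_apply, ← h2]
      exact this
  · intro x hx
    rw [closure_gr_eq]
    refine AnAt.preimage ((splitEquiv k (𝒜.dim i)).toContinuousLinearMap.analyticAt x) ?_
    have h1 := (hf.analytic_graph.2 i).2 (splitEquiv k (𝒜.dim i) x) hx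
    refine h1.congr ?_
    have hn : (polydisk k \ {0}) ×ˢ 𝒜.ambient i ∈ 𝓝 (splitEquiv k (𝒜.dim i) x) :=
      ((isOpen_punctured k).prod (𝒜.isOpen_ambient i)).mem_nhds hx
    filter_upwards [hn] with p hp
    have : 𝒜.chartImage i (graphClosure (polydisk k \ {0}) I f) =
      closure (𝒜.chartImage i (graphOn ((polydisk k \ {0}) \ I) f)) ∩
        (polydisk k \ {0}) ×ˢ 𝒜.ambient i := hcl
    rw [this]
    exact ⟨fun h => h.1, fun h => ⟨h, hp⟩⟩
  · intro Q hQ hQU s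
    obtain ⟨C, hC0, hC⟩ := exists_minor_sq_le_det k (𝒜.dim i) hQ (h := om.h i)
      (fun a b => ((om.smooth i a b).continuousOn).mono hQU) (fun y hy => om.posDef i y (hQU hy))
    have hmeas := measurableSet_inter_preimage hW han.continuousOn hQ.isClosed
    refine ⟨?_, ?_⟩
    · refine ContinuousOn.aestronglyMeasurable ?_ hmeas
      intro z hz
      exact ((analyticAt_minor (han z hz.1) s).continuousAt.norm.pow 2).continuousWithinAt
    · rw [hasFiniteIntegral_iff_ofReal (Eventually.of_forall fun z => by positivity)]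
      have hle : ∫⁻ z in (((polydisk k \ {0}) \ I) ∩ f ⁻¹' 𝒜.source i) ∩ (𝒜.chart i ∘ f) ⁻¹' Q,
          ENNReal.ofReal (‖minor (𝒜.chart i ∘ f) s z‖ ^ 2) ≤
          ∫⁻ z in (((polydisk k \ {0}) \ I) ∩ f ⁻¹' 𝒜.source i) ∩ (𝒜.chart i ∘ f) ⁻¹' Q,
            ENNReal.ofReal C * ENNReal.ofReal
              (k.factorial * (om.pullback (𝒜.chartAt (f z)) f z).det.re) := by
        refine setLIntegral_mono' hmeas fun z hz => ?_
        have h1 := hC _ hz.2 (jac (𝒜.chart i ∘ f) z) s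
        have h2 : om.pullback (𝒜.chartAt (f z)) f z = om.pullback i f z :=
          om.pullback_eq hO hf.holomorphic hz.1.1 (𝒜.mem_source_chartAt _) hz.1.2
        rw [h2, ← ENNReal.ofReal_mul hC0]
        refine ENNReal.ofReal_le_ofReal_iff'.2 ?_
        change ‖minor (𝒜.chart i ∘ f) s z‖ ^ 2 ≤ C * (om.pullback i f z).det.re at h1
        rcases le_total 0 (om.pullback i f z).det.re with h0 | h0
        · left
          refine h1.trans (mul_le_mul_of_nonneg_left ?_ hC0)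
          have : (1 : ℝ) ≤ k.factorial := by exact_mod_cast k.factorial_pos
          nlinarith
        · right
          exact h1.trans (mul_nonpos_of_nonneg_of_nonpos hC0 h0)
      refine hle.trans_lt ?_
      rw [lintegral_const_mul' _ _ ENNReal.ofReal_ne_top]
      refine ENNReal.mul_lt_top ENNReal.ofReal_lt_top ?_
      exact (lintegral_mono_set (inter_subset_left.trans inter_subset_left)).trans_lt hvol

/-- The closure of the graph in `polydisk × X`. -/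
def fullGraph (I : Set (Fin k → ℂ)) (f : (Fin k → ℂ) → X) : Set ((Fin k → ℂ) × X) :=
  closure (graphOn ((polydisk k \ {0}) \ I) f) ∩ polydisk k ×ˢ univ

theorem isAnalyticProd_fullGraph [T2Space X] (hk : 0 < k) (om : HermitianForm 𝒜)
    (hf : 𝒜.IsMeromorphic (polydisk k \ {0}) I f)
    (hvol : om.imageVolume ((polydisk k \ {0}) \ I) f < ⊤) :
    𝒜.IsAnalyticProd (polydisk k) (fullGraph I f) := by
  refine ⟨inter_subset_right, fun i => ?_⟩
  have hcl : 𝒜.chartImage i (fullGraph I f) = _ :=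
    chartImage_closure (𝒜 := 𝒜) i (polydisk k) (graphOn ((polydisk k \ {0}) \ I) f)
  rw [hcl]
  refine ⟨inter_subset_right, fun a ha => ?_⟩
  refine AnAt.inter_nhds ?_ (((isOpen_polydisk k).prod (𝒜.isOpen_ambient i)).mem_nhds ha)
  have H := setup_of_meromorphic hk om hf hvol i
  have h1 : (splitEquiv k (𝒜.dim i)).symm a ∈ omega2 k (𝒜.ambient i) := by
    rw [splitEquiv_symm_apply]; exact ha
  have h2 := (H.anAt_closure h1).image_equiv (splitEquiv k (𝒜.dim i))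
  rw [closure_gr_eq, ContinuousLinearEquiv.apply_symm_apply,
    image_preimage_eq _ (splitEquiv k (𝒜.dim i)).surjective] at h2
  exact h2

theorem ComplexAtlas.eventually_chart_mem {i : 𝒜.ι} {x : X} (hx : x ∈ 𝒜.source i) {O : Set X}
    (hO : O ∈ 𝓝 x) : ∀ᶠ y in 𝓝 (𝒜.chart i x), ∀ x' ∈ 𝒜.source i, 𝒜.chart i x' = y → x' ∈ O := by
  have h1 : (Subtype.val ⁻¹' O : Set (𝒜.source i)) ∈ 𝓝 (⟨x, hx⟩ : 𝒜.source i) :=
    continuous_subtype_val.continuousAt.preimage_mem_nhds hO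
  rw [(𝒜.isEmbedding i).isInducing.nhds_eq_comap, mem_comap] at h1
  obtain ⟨t, ht, hsub⟩ := h1
  filter_upwards [ht] with y hy x' hx' hxy
  exact hsub (a := ⟨x', hx'⟩) (by rw [mem_preimage, hxy]; exact hy)

theorem eventually_mem_of_fibre_subset [CompactSpace X] {z₀ : Fin k → ℂ} (hz₀ : z₀ ∈ polydisk k)
    {O : Set X} (hO : IsOpen O) (hsub : ∀ x, (z₀, x) ∈ fullGraph I f → x ∈ O) :
    ∀ᶠ z in 𝓝 z₀, ∀ x, (z, x) ∈ fullGraph I f → x ∈ O := by
  have hcl : IsClosed (Prod.fst '' (closure (graphOn ((polydisk k \ {0}) \ I) f) ∩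
      Prod.snd ⁻¹' Oᶜ)) :=
    isClosedMap_fst_of_compactSpace _
      (isClosed_closure.inter (hO.isClosed_compl.preimage continuous_snd))
  have hn : z₀ ∉ Prod.fst '' (closure (graphOn ((polydisk k \ {0}) \ I) f) ∩
      Prod.snd ⁻¹' Oᶜ) := by
    rintro ⟨⟨z, x⟩, ⟨h1, h2⟩, rfl⟩
    exact h2 (hsub x ⟨h1, hz₀, trivial⟩)
  filter_upwards [hcl.isOpen_compl.mem_nhds hn] with z hz x hx
  by_contra hxO
  exact hz ⟨(z, x), ⟨hx.1, hxO⟩, rfl⟩

theorem mem_fullGraph_self {z : Fin k → ℂ} (hz : z ∈ (polydisk k \ {0}) \ I) :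
    (z, f z) ∈ fullGraph I f :=
  ⟨subset_closure ⟨hz, rfl⟩, hz.1.1, trivial⟩

theorem eq_of_mem_fullGraph [T2Space X] (hf : 𝒜.IsMeromorphic (polydisk k \ {0}) I f)
    {z : Fin k → ℂ} (hz : z ∈ (polydisk k \ {0}) \ I) {x : X} (hx : (z, x) ∈ fullGraph I f) :
    x = f z :=
  eq_of_mem_closure_graphOn (hf.analytic_indet.isOpen_diff (isOpen_punctured k))
    hf.holomorphic.1 hz hx.1

/-- Isolated points of `I` with at least two points in the fibre do not accumulate at `0`. -/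
theorem eventually_subsingleton_fibre [T2Space X] [CompactSpace X]
    (hf : 𝒜.IsMeromorphic (polydisk k \ {0}) I f)
    (hΓ : 𝒜.IsAnalyticProd (polydisk k) (fullGraph I f)) :
    ∀ᶠ a in 𝓝[≠] (0 : Fin k → ℂ), a ∉ closure (I \ {a}) →
      {x | (a, x) ∈ fullGraph I f}.Subsingleton := by
  by_contra hcon
  let P : Set ((Fin k → ℂ) × (X × X)) := {q | q.1 ≠ 0 ∧ q.1 ∉ closure (I \ {q.1}) ∧
    q.2.1 ≠ q.2.2 ∧ (q.1, q.2.1) ∈ fullGraph I f ∧ (q.1, q.2.2) ∈ fullGraph I f}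
  have h0 : (0 : Fin k → ℂ) ∈ closure (Prod.fst '' P) := by
    rw [mem_closure_iff_frequently]
    rw [not_eventually, frequently_nhdsWithin_iff] at hcon
    refine hcon.mono fun a ha => ?_
    obtain ⟨ha1, ha0⟩ := ha
    rw [Classical.not_imp, not_subsingleton_iff] at ha1
    obtain ⟨hI, x, hx, x', hx', hne⟩ := ha1
    exact ⟨(a, (x, x')), ⟨ha0, hI, hne, hx, hx'⟩, rfl⟩
  obtain ⟨⟨z₀, x₀, x₀'⟩, hq₀, hz₀⟩ := isClosedMap_fst_of_compactSpace.closure_image_subset P h0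
  simp only at hz₀
  subst hz₀
  set i := 𝒜.chartAt x₀
  set j := 𝒜.chartAt x₀'
  have hi : x₀ ∈ 𝒜.source i := 𝒜.mem_source_chartAt x₀
  have hj : x₀' ∈ 𝒜.source j := 𝒜.mem_source_chartAt x₀'
  have h0D : (0 : Fin k → ℂ) ∈ polydisk k := by simp [polydisk]
  let A : Set ((Fin k → ℂ) × ((Fin (𝒜.dim i) → ℂ) × (Fin (𝒜.dim j) → ℂ))) :=
    (fun y => (y.1, y.2.1)) ⁻¹' 𝒜.chartImage i (fullGraph I f) ∩
      (fun y => (y.1, y.2.2)) ⁻¹' 𝒜.chartImage j (fullGraph I f)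
  have hA : AnAt A (0, (𝒜.chart i x₀, 𝒜.chart j x₀')) := by
    refine AnAt.inter
      (AnAt.preimage (analyticAt_fst.prod (analyticAt_fst.comp analyticAt_snd)) ?_)
      (AnAt.preimage (analyticAt_fst.prod (analyticAt_snd.comp analyticAt_snd)) ?_)
    · exact (hΓ.2 i).2 _ ⟨h0D, 𝒜.chart_mem_ambient hi⟩
    · exact (hΓ.2 j).2 _ ⟨h0D, 𝒜.chart_mem_ambient hj⟩
  obtain ⟨V, hV, hfin⟩ := finite_locally_const_values_pi hA (h := Prod.fst) analyticAt_fst
  let Θ : (Fin k → ℂ) × (X × X) →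
      (Fin k → ℂ) × ((Fin (𝒜.dim i) → ℂ) × (Fin (𝒜.dim j) → ℂ)) :=
    fun q => (q.1, (𝒜.chart i q.2.1, 𝒜.chart j q.2.2))
  have hΘ : ContinuousAt Θ (0, (x₀, x₀')) := by
    refine continuousAt_fst.prodMk (ContinuousAt.prodMk ?_ ?_)
    · exact ContinuousAt.comp (g := 𝒜.chart i) (𝒜.continuousAt_chart hi)
        (continuousAt_fst.comp continuousAt_snd)
    · exact ContinuousAt.comp (g := 𝒜.chart j) (𝒜.continuousAt_chart hj)
        (continuousAt_snd.comp continuousAt_snd)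
  have e1 : ∀ᶠ q : (Fin k → ℂ) × (X × X) in 𝓝 (0, (x₀, x₀')), Θ q ∈ V :=
    hΘ.preimage_mem_nhds hV
  have e2 : ∀ᶠ q : (Fin k → ℂ) × (X × X) in 𝓝 (0, (x₀, x₀')), q.2.1 ∈ 𝒜.source i :=
    (continuous_fst.comp continuous_snd).continuousAt.preimage_mem_nhds
      ((𝒜.isOpen_source i).mem_nhds hi)
  have e3 : ∀ᶠ q : (Fin k → ℂ) × (X × X) in 𝓝 (0, (x₀, x₀')), q.2.2 ∈ 𝒜.source j :=
    (continuous_snd.comp continuous_snd).continuousAt.preimage_mem_nhds
      ((𝒜.isOpen_source j).mem_nhds hj)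
  have e4 := continuous_fst.continuousAt.preimage_mem_nhds
    (x := ((0 : Fin k → ℂ), (x₀, x₀')))
    ((hfin.subset (sdiff_subset (t := {0}))).isClosed.isOpen_compl.mem_nhds (fun h => h.2 rfl))
  obtain ⟨q, hqP, hq1, hq2, hq3, hq4⟩ :=
    ((mem_closure_iff_frequently.1 hq₀).and_eventually (e1.and (e2.and (e3.and e4)))).exists
  obtain ⟨hq0, hqI, hqne, hqa, hqb⟩ := hqP
  refine hq4 ⟨⟨Θ q, ⟨⟨⟨q.2.1, hq2, hqa, rfl⟩, ⟨q.2.2, hq3, hqb, rfl⟩⟩, hq1⟩, rfl, ?_⟩, hq0⟩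
  obtain ⟨O₁, O₂, hO₁, hO₂, hm₁, hm₂, hdisj⟩ := t2_separation hqne
  have f1 := ((continuous_fst.comp continuous_snd).tendsto (Θ q)).eventually
    (𝒜.eventually_chart_mem hq2 (hO₁.mem_nhds hm₁))
  have f2 := ((continuous_snd.comp continuous_snd).tendsto (Θ q)).eventually
    (𝒜.eventually_chart_mem hq3 (hO₂.mem_nhds hm₂))
  have f3 := continuous_fst.continuousAt.preimage_mem_nhds (x := Θ q)
    (isClosed_closure.isOpen_compl.mem_nhds hqI)
  have f4 := continuous_fst.continuousAt.preimage_mem_nhds (x := Θ q)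
    ((isOpen_punctured k).mem_nhds ⟨hqa.2.1, hq0⟩)
  filter_upwards [f1, f2, f3, f4] with y hy1 hy2 hy3 hy4 hyA
  obtain ⟨⟨x₁, hx₁, hx₁Γ, hx₁y⟩, ⟨x₂, hx₂, hx₂Γ, hx₂y⟩⟩ := hyA
  have hne : x₁ ≠ x₂ := fun h =>
    hdisj.notMem_of_mem_left (hy1 x₁ hx₁ hx₁y) (h ▸ hy2 x₂ hx₂ hx₂y)
  by_contra hyq
  have hyI : y.1 ∉ I := fun h => hy3 (subset_closure ⟨h, hyq⟩)
  exact hne ((eq_of_mem_fullGraph hf ⟨hy4, hyI⟩ hx₁Γ).trans
    (eq_of_mem_fullGraph hf ⟨hy4, hyI⟩ hx₂Γ).symm)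

theorem indet_eq_empty {D I : Set (Fin 1 → ℂ)} {f : (Fin 1 → ℂ) → X}
    (hf : 𝒜.IsMeromorphic D I f) : I = ∅ := by
  by_contra h
  have h1 := Measure.one_le_hausdorffMeasure_zero_of_nonempty (nonempty_iff_ne_empty.2 h)
  have h2 := hf.codim_two
  norm_num at h2
  rw [h2] at h1
  exact absurd h1 (by simp)

theorem finite_fibre_zero [T2Space X] [CompactSpace X] {I : Set (Fin 1 → ℂ)}
    {f : (Fin 1 → ℂ) → X} (hf : 𝒜.IsMeromorphic (polydisk 1 \ {0}) I f)
    (hΓ : 𝒜.IsAnalyticProd (polydisk 1) (fullGraph I f)) :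
    {x | ((0 : Fin 1 → ℂ), x) ∈ fullGraph I f}.Finite := by
  have h0D : (0 : Fin 1 → ℂ) ∈ polydisk 1 := by simp [polydisk]
  have hI := indet_eq_empty hf
  have hK : IsClosed {x | ((0 : Fin 1 → ℂ), x) ∈ fullGraph I f} := by
    have : {x | ((0 : Fin 1 → ℂ), x) ∈ fullGraph I f} =
        (fun x => ((0 : Fin 1 → ℂ), x)) ⁻¹' closure (graphOn ((polydisk 1 \ {0}) \ I) f) := by
      ext x; exact ⟨fun h => h.1, fun h => ⟨h, h0D, trivial⟩⟩
    rw [this]
    exact isClosed_closure.preimage (by fun_prop)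
  refine hK.isCompact.finite (isDiscrete_iff_nhdsNE.2 fun x hx => ?_)
  set i := 𝒜.chartAt x
  have hi : x ∈ 𝒜.source i := 𝒜.mem_source_chartAt x
  set A := 𝒜.chartImage i (fullGraph I f) with hAdef
  have hA : AnAt A (0, 𝒜.chart i x) := (hΓ.2 i).2 _ ⟨h0D, 𝒜.chart_mem_ambient hi⟩
  let h : (Fin 1 → ℂ) × (Fin (𝒜.dim i) → ℂ) → ℂ := fun p => p.1 0
  have hh : AnalyticAt ℂ h (0, 𝒜.chart i x) := analyticAt_pi_iff.1 analyticAt_fst 0
  have hne : ∀ z : Fin 1 → ℂ, z ≠ 0 ↔ z 0 ≠ 0 := fun z => by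
    rw [not_iff_not]
    exact ⟨fun h => by rw [h]; rfl, fun h => by ext l; rw [Subsingleton.elim l 0]; exact h⟩
  have hcl : A = _ :=
    chartImage_closure (𝒜 := 𝒜) i (polydisk 1) (graphOn ((polydisk 1 \ {0}) \ I) f)
  have hd : ∀ᶠ y in 𝓝 ((0 : Fin 1 → ℂ), 𝒜.chart i x),
      y ∈ A → y ∈ closure (A ∩ {y | h y ≠ 0}) := by
    refine Eventually.of_forall fun y hy => ?_
    rw [hcl] at hy
    refine closure_mono ?_ hy.1
    rintro p ⟨x', hx', hS, hp⟩
    refine ⟨⟨x', hx', ⟨subset_closure hS, hS.1.1.1, trivial⟩, hp⟩, (hne _).1 hS.1.1.2⟩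
  have hdim : ∃ U ∈ 𝓝 ((0 : Fin 1 → ℂ), 𝒜.chart i x),
      dimH (A ∩ {y | h y ≠ 0} ∩ U) ≤ 2 * ((1 : ℕ) : ℝ≥0∞) := by
    refine ⟨univ, univ_mem, le_trans (dimH_mono ?_) (dimH_image_le_of_analytic
      (W := ((polydisk 1 \ {0}) \ I) ∩ f ⁻¹' 𝒜.source i)
      (F := fun z => (z, 𝒜.chart i (f z))) ?_)⟩
    · rintro p ⟨⟨⟨x', hx', hS, hp⟩, hp0⟩, -⟩
      have hz : p.1 ∈ (polydisk 1 \ {0}) \ I :=
        ⟨⟨hS.2.1, (hne _).2 hp0⟩, by rw [hI]; exact notMem_empty _⟩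
      have := eq_of_mem_fullGraph hf hz hS
      subst this
      exact ⟨p.1, ⟨hz, hx'⟩, Prod.ext rfl hp⟩
    · exact fun z hz => analyticAt_id.prod (hf.holomorphic.2 i z hz.1 hz.2)
  obtain ⟨p, -, hp⟩ := exists_good_near hA hh hd hdim 0 one_pos
  obtain ⟨q, hq, hqne, hqz⟩ := thin_of_good hA hp hh hd
  have hiso := (Good.drop (d := 0) hp hq hqne).isolated
  have hc : ContinuousAt (fun x' => ((0 : Fin 1 → ℂ), 𝒜.chart i x')) x :=
    continuousAt_const.prodMk (𝒜.continuousAt_chart hi)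
  rw [← disjoint_iff, disjoint_principal_right, ← eventually_mem_set, eventually_nhdsWithin_iff]
  filter_upwards [hc.eventually hiso, hc.eventually hqz, (𝒜.isOpen_source i).mem_nhds hi]
    with x' h1 h2 h3 h4 h5
  have hx'A : ((0 : Fin 1 → ℂ), 𝒜.chart i x') ∈ A := ⟨x', h3, h5, rfl⟩
  have := h1 ⟨hx'A, h2 hx'A rfl⟩
  exact h4 (𝒜.chart_injOn i h3 hi (congrArg Prod.snd this))

/-- In dimension one the fibre over the origin is a single point. -/
theorem subsingleton_fibre_zero [T2Space X] [CompactSpace X] {I : Set (Fin 1 → ℂ)}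
    {f : (Fin 1 → ℂ) → X} (hf : 𝒜.IsMeromorphic (polydisk 1 \ {0}) I f)
    (hΓ : 𝒜.IsAnalyticProd (polydisk 1) (fullGraph I f)) :
    {x | ((0 : Fin 1 → ℂ), x) ∈ fullGraph I f}.Subsingleton := by
  have h0D : (0 : Fin 1 → ℂ) ∈ polydisk 1 := by simp [polydisk]
  have hI := indet_eq_empty hf
  have hfin := finite_fibre_zero hf hΓ
  intro x hx x' hx'
  by_contra hne
  obtain ⟨O₁, O₂, hO₁, hO₂, h₁, h₂, hdisj⟩ := SeparatedNhds.of_isCompact_isCompact
    (isCompact_singleton (x := x)) (hfin.subset (sdiff_subset (t := {x}))).isCompact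
    disjoint_sdiff_right
  have hev := eventually_mem_of_fibre_subset (I := I) (f := f) h0D (hO₁.union hO₂) (fun y hy => by
    by_cases hyx : y = x
    · exact Or.inl (h₁ hyx)
    · exact Or.inr (h₂ ⟨hy, hyx⟩))
  obtain ⟨r, hr, hball⟩ := Metric.eventually_nhds_iff_ball.1
    (hev.and ((isOpen_polydisk 1).mem_nhds h0D))
  have hmem : ∀ z ∈ ball (0 : Fin 1 → ℂ) r \ {0}, z ∈ (polydisk 1 \ {0}) \ I := fun z hz =>
    ⟨⟨(hball z hz.1).2, hz.2⟩, by rw [hI]; exact notMem_empty _⟩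
  have hO : IsOpen ((polydisk 1 \ {0}) \ I) :=
    hf.analytic_indet.isOpen_diff (isOpen_punctured 1)
  have hconst := (removable_diff_singleton one_pos (isOpen_ball (x := (0 : Fin 1 → ℂ)) (ε := r))
    0).const (convex_ball _ _).isPreconnected (s := fun z => f z ∈ O₁) (fun w hw => by
      have hc : ContinuousAt f w := hf.holomorphic.1.continuousAt (hO.mem_nhds (hmem w hw))
      rcases (hball w hw.1).1 _ (mem_fullGraph_self (hmem w hw)) with h | h
      · filter_upwards [hc.preimage_mem_nhds (hO₁.mem_nhds h)] with y hy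
        exact propext ⟨fun _ => h, fun _ => hy⟩
      · filter_upwards [hc.preimage_mem_nhds (hO₂.mem_nhds h)] with y hy
        exact propext ⟨fun h' => (hdisj.notMem_of_mem_left h' hy).elim,
          fun h' => (hdisj.notMem_of_mem_left h' h).elim⟩)
  have key : ∀ y O, IsOpen O → y ∈ O → ((0 : Fin 1 → ℂ), y) ∈ fullGraph I f →
      ∃ z ∈ ball (0 : Fin 1 → ℂ) r \ {0}, f z ∈ O := by
    intro y O hO hy hyΓ
    have hn : ball (0 : Fin 1 → ℂ) r ×ˢ O ∈ 𝓝 ((0 : Fin 1 → ℂ), y) :=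
      prod_mem_nhds (ball_mem_nhds _ hr) (hO.mem_nhds hy)
    obtain ⟨p, hp1, hp2⟩ := mem_closure_iff_nhds.1 hyΓ.1 _ hn
    exact ⟨p.1, ⟨hp1.1, hp2.1.1.2⟩, hp2.2 ▸ hp1.2⟩
  obtain ⟨z, hz, hz1⟩ := key x O₁ hO₁ (h₁ rfl) hx
  obtain ⟨z', hz', hz2⟩ := key x' O₂ hO₂ (h₂ ⟨hx', fun h => hne (Eq.symm h)⟩) hx'
  have : f z' ∈ O₁ := (hconst z hz z' hz').mp hz1
  exact hdisj.notMem_of_mem_left this hz2

/-- Isolated points of an analytic set do not accumulate. -/
theorem AnAt.eventually_mem_closure_diff {I : Set (Fin k → ℂ)} {p : Fin k → ℂ} (hI : AnAt I p) :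
    ∀ᶠ c in 𝓝[≠] p, c ∈ I → c ∈ closure (I \ {c}) := by
  obtain ⟨V, hV, hfin⟩ := finite_locally_const_values_pi hI (h := id) analyticAt_id
  have h1 := (hfin.subset (sdiff_subset (t := {p}))).isClosed.isOpen_compl.mem_nhds
    (fun h => h.2 rfl)
  rw [eventually_nhdsWithin_iff]
  filter_upwards [hV, h1] with c hc1 hc2 hcp hcI
  by_contra hcl
  refine hc2 ⟨⟨c, ⟨hcI, hc1⟩, rfl, ?_⟩, hcp⟩
  filter_upwards [isClosed_closure.isOpen_compl.mem_nhds hcl] with y hy hyI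
  by_contra hyc
  exact hy (subset_closure ⟨hyI, hyc⟩)

/-- The indeterminacy set of the extension. -/
def newIndet (I : Set (Fin k → ℂ)) (f : (Fin k → ℂ) → X) : Set (Fin k → ℂ) :=
  {z | z ∈ I ∪ {0} ∧
    (z ∈ closure ((I ∪ {0}) \ {z}) ∨ ¬ {x | (z, x) ∈ fullGraph I f}.Subsingleton)}

open Classical in
/-- The extension. -/
noncomputable def newMap (I : Set (Fin k → ℂ)) (f : (Fin k → ℂ) → X) (z : Fin k → ℂ) : X :=
  if z ∈ (polydisk k \ {0}) \ I then f z
  else if h : ∃ x, (z, x) ∈ fullGraph I f then h.choose else f z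

theorem newMap_eqOn : EqOn (newMap I f) f ((polydisk k \ {0}) \ I) :=
  fun _ hz => if_pos hz

theorem mem_closure_punctured (hk : 0 < k) (hI : Dense Iᶜ) {z : Fin k → ℂ}
    (hz : z ∈ polydisk k) : z ∈ closure ((polydisk k \ {0}) \ I) := by
  have h1 : z ∈ closure (polydisk k \ {0}) :=
    (removable_diff_singleton hk (isOpen_polydisk k) 0).dense hz
  have h2 : polydisk k \ {0} ⊆ closure ((polydisk k \ {0}) \ I) :=
    hI.open_subset_closure_inter (isOpen_punctured k)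
  exact closure_minimal h2 isClosed_closure h1

theorem newMap_mem [CompactSpace X] (hk : 0 < k) (hI : Dense Iᶜ) {z : Fin k → ℂ}
    (hz : z ∈ polydisk k) : (z, newMap I f z) ∈ fullGraph I f := by
  by_cases h : z ∈ (polydisk k \ {0}) \ I
  · rw [newMap_eqOn h]; exact mem_fullGraph_self h
  · have h1 : z ∈ closure (Prod.fst '' graphOn ((polydisk k \ {0}) \ I) f) :=
      closure_mono (fun y hy => (⟨(y, f y), ⟨hy, rfl⟩, rfl⟩ :
        y ∈ Prod.fst '' graphOn ((polydisk k \ {0}) \ I) f)) (mem_closure_punctured hk hI hz)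
    obtain ⟨⟨z', x⟩, hx, rfl⟩ := isClosedMap_fst_of_compactSpace.closure_image_subset _ h1
    have hex : ∃ x, (z', x) ∈ fullGraph I f := ⟨x, hx, hz, trivial⟩
    simp only [newMap] at h ⊢
    rw [if_neg h, dif_pos hex]
    exact hex.choose_spec

theorem anAt_newIndet_punctured (hI : IsAnalyticSubset (polydisk k \ {0}) I) {p : Fin k → ℂ}
    (hp : p ∈ polydisk k \ {0}) :
    AnAt (newIndet I f) p ∧ ∀ᶠ c in 𝓝[≠] p, (c ∈ newIndet I f ↔ c ∈ I) := by
  have h0 : ∀ᶠ c in 𝓝 p, c ≠ 0 := isOpen_compl_singleton.mem_nhds hp.2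
  have h1 : ∀ᶠ c in 𝓝[≠] p, (c ∈ newIndet I f ↔ c ∈ I) := by
    filter_upwards [(hI.2 p hp).eventually_mem_closure_diff, nhdsWithin_le_nhds h0] with c hc hc0
    refine ⟨fun h => h.1.resolve_right hc0, fun h => ⟨Or.inl h, Or.inl ?_⟩⟩
    exact closure_mono (sdiff_subset_sdiff_left subset_union_left) (hc h)
  refine ⟨?_, h1⟩
  rw [eventually_nhdsWithin_iff] at h1
  by_cases hpI : p ∈ newIndet I f ↔ p ∈ I
  · refine (hI.2 p hp).congr ?_
    filter_upwards [h1] with c hc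
    by_cases hcp : c = p
    · rw [hcp]; exact hpI.symm
    · exact (hc hcp).symm
  · have h2 : p ∉ newIndet I f := fun h => hpI ⟨fun _ => h.1.resolve_right hp.2, fun _ => h⟩
    have h3 : p ∈ I := by
      by_contra h
      exact hpI ⟨fun h' => (h2 h').elim, fun h' => (h h').elim⟩
    have h4 : p ∉ closure ((I ∪ {0}) \ {p}) := fun h => h2 ⟨Or.inl h3, Or.inl h⟩
    refine (anAt_empty p).congr ?_
    filter_upwards [isClosed_closure.isOpen_compl.mem_nhds h4] with c hc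
    refine ⟨fun h => h.elim, fun h => ?_⟩
    by_cases hcp : c = p
    · exact h2 (hcp ▸ h)
    · exact hc (subset_closure ⟨h.1, hcp⟩)

theorem isAnalyticSubset_newIndet [T2Space X] [CompactSpace X]
    (hf : 𝒜.IsMeromorphic (polydisk k \ {0}) I f)
    (hΓ : 𝒜.IsAnalyticProd (polydisk k) (fullGraph I f)) :
    IsAnalyticSubset (polydisk k) (newIndet I f) := by
  have h0D : (0 : Fin k → ℂ) ∈ polydisk k := by simp [polydisk]
  refine ⟨fun z hz => ?_, fun p hp => ?_⟩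
  · rcases hz.1 with h | h
    · exact (hf.analytic_indet.1 h).1
    · rw [h]; exact h0D
  by_cases hp0 : p ≠ 0
  · exact (anAt_newIndet_punctured hf.analytic_indet ⟨hp, hp0⟩).1
  rw [not_not] at hp0
  subst hp0
  by_cases h0 : (0 : Fin k → ℂ) ∈ newIndet I f
  · have hpunct : ∀ᶠ x in 𝓝[≠] (0 : Fin k → ℂ), x ∈ polydisk k \ {0} := by
      filter_upwards [nhdsWithin_le_nhds ((isOpen_polydisk k).mem_nhds h0D),
        self_mem_nhdsWithin] with x h1 h2 using ⟨h1, h2⟩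
    have h1 := remmert_stein_point (A := newIndet I f)
      (hpunct.mono fun x hx => (anAt_newIndet_punctured hf.analytic_indet hx).1) ?_
    · rwa [union_eq_self_of_subset_right (singleton_subset_iff.2 h0)] at h1
    filter_upwards [hpunct, eventually_subsingleton_fibre hf hΓ] with x hx hsub hxI
    have h2 : x ∈ closure (I \ {x}) := by
      by_contra h
      rcases hxI.2 with h3 | h3
      · refine h ?_
        have hn : ({0}ᶜ : Set (Fin k → ℂ)) ∈ 𝓝 x := isOpen_compl_singleton.mem_nhds hx.2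
        rw [mem_closure_iff_frequently] at h3 ⊢
        refine (h3.and_eventually hn).mono fun y hy => ⟨hy.1.1.resolve_right hy.2, hy.1.2⟩
      · exact h3 (hsub h)
    have h3 := (anAt_newIndet_punctured (f := f) hf.analytic_indet hx).2
    rw [eventually_nhdsWithin_iff] at h3
    rw [mem_closure_iff_frequently] at h2 ⊢
    exact (h2.and_eventually h3).mono fun y hy => ⟨(hy.2 hy.1.2).2 hy.1.1, hy.1.2⟩
  · have h4 : (0 : Fin k → ℂ) ∉ closure ((I ∪ {0}) \ {0}) :=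
      fun h => h0 ⟨Or.inr rfl, Or.inl h⟩
    refine (anAt_empty _).congr ?_
    filter_upwards [isClosed_closure.isOpen_compl.mem_nhds h4] with c hc
    refine ⟨fun h => h.elim, fun h => ?_⟩
    by_cases hcp : c = 0
    · exact h0 (hcp ▸ h)
    · exact hc (subset_closure ⟨h.1, hcp⟩)

theorem holomorphic_newMap [T2Space X] [CompactSpace X] (hk : 0 < k)
    (hf : 𝒜.IsMeromorphic (polydisk k \ {0}) I f) :
    𝒜.Holomorphic (polydisk k \ newIndet I f) (newMap I f) := by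
  have hO : IsOpen ((polydisk k \ {0}) \ I) :=
    hf.analytic_indet.isOpen_diff (isOpen_punctured k)
  have hI := dense_compl_of_codim_two hk hf.codim_two
  have hev : ∀ z ∈ (polydisk k \ {0}) \ I, newMap I f =ᶠ[𝓝 z] f := fun z hz =>
    eventuallyEq_of_mem (hO.mem_nhds hz) newMap_eqOn
  have hcont : ∀ z ∈ polydisk k \ newIndet I f, ContinuousAt (newMap I f) z := by
    intro z hz
    by_cases h : z ∈ (polydisk k \ {0}) \ I
    · exact (hf.holomorphic.1.continuousAt (hO.mem_nhds h)).congr (hev z h).symm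
    have hzJ : z ∈ I ∪ {0} := by
      by_contra h'
      exact h ⟨⟨hz.1, fun h0 => h' (Or.inr h0)⟩, fun h0 => h' (Or.inl h0)⟩
    have hsub : {x | (z, x) ∈ fullGraph I f}.Subsingleton := by
      by_contra h'
      exact hz.2 ⟨hzJ, Or.inr h'⟩
    rw [ContinuousAt, _root_.tendsto_nhds]
    intro O hOo hmem
    have h1 := eventually_mem_of_fibre_subset (I := I) (f := f) hz.1 hOo (fun x hx => by
      rw [hsub hx (newMap_mem hk hI hz.1)]; exact hmem)
    filter_upwards [h1, (isOpen_polydisk k).mem_nhds hz.1] with y hy1 hy2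
    exact hy1 _ (newMap_mem hk hI hy2)
  refine ⟨fun z hz => (hcont z hz).continuousWithinAt, fun i z hz hi => ?_⟩
  have han : ∀ y ∈ (polydisk k \ {0}) \ I, newMap I f y ∈ 𝒜.source i →
      AnalyticAt ℂ (𝒜.chart i ∘ newMap I f) y := fun y hy hyi => by
    rw [newMap_eqOn hy] at hyi
    exact (hf.holomorphic.2 i y hy hyi).congr ((hev y hy).symm.fun_comp _)
  by_cases h : z ∈ (polydisk k \ {0}) \ I
  · exact han z h hi
  have hzJ : z ∈ I ∪ {0} := by
    by_contra h'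
    exact h ⟨⟨hz.1, fun h0 => h' (Or.inr h0)⟩, fun h0 => h' (Or.inl h0)⟩
  have hiso : z ∉ closure ((I ∪ {0}) \ {z}) := fun h' => hz.2 ⟨hzJ, Or.inl h'⟩
  refine analyticAt_of_continuousAt_of_punctured hk
    (ContinuousAt.comp (𝒜.continuousAt_chart hi) (hcont z hz)) ?_
  rw [eventually_nhdsWithin_iff]
  filter_upwards [isClosed_closure.isOpen_compl.mem_nhds hiso, (isOpen_polydisk k).mem_nhds hz.1,
    (hcont z hz).preimage_mem_nhds ((𝒜.isOpen_source i).mem_nhds hi)] with y h1 h2 h3 h4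
  refine han y ⟨⟨h2, fun h0 => h1 (subset_closure ⟨Or.inr h0, h4⟩)⟩,
    fun h0 => h1 (subset_closure ⟨Or.inl h0, h4⟩)⟩ h3

theorem graphClosure_newMap [CompactSpace X] (hk : 0 < k) (hI : Dense Iᶜ) :
    graphClosure (polydisk k) (newIndet I f) (newMap I f) = fullGraph I f := by
  unfold graphClosure fullGraph
  congr 1
  refine subset_antisymm (closure_minimal ?_ isClosed_closure) (closure_mono ?_)
  · rintro ⟨z, x⟩ ⟨hz, hx⟩
    simp only at hz hx
    rw [hx]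
    exact (newMap_mem hk hI hz.1).1
  · rintro ⟨z, x⟩ ⟨hz, hx⟩
    simp only at hz hx
    refine ⟨⟨hz.1.1, fun h => ?_⟩, hx.trans (newMap_eqOn hz).symm⟩
    rcases h.1 with h | h
    · exact hz.2 h
    · exact hz.1.2 h

theorem fullGraph_inter : fullGraph I f ∩ (polydisk k \ {0}) ×ˢ univ =
    graphClosure (polydisk k \ {0}) I f := by
  ext p
  exact ⟨fun h => ⟨h.1.1, h.2⟩, fun h => ⟨⟨h.1, h.2.1.1, trivial⟩, h.2⟩⟩

theorem main [T2Space X] [CompactSpace X] (hk : 1 ≤ k) (om : HermitianForm 𝒜)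
    (hf : 𝒜.IsMeromorphic (polydisk k \ {0}) I f)
    (hvol : om.imageVolume ((polydisk k \ {0}) \ I) f < ⊤) :
    ∃ (I' : Set (Fin k → ℂ)) (F : (Fin k → ℂ) → X), 𝒜.IsMeromorphic (polydisk k) I' F ∧
      EqOn F f ((polydisk k \ {0}) \ I) ∧
      graphClosure (polydisk k) I' F ∩ (polydisk k \ {0}) ×ˢ univ =
        graphClosure (polydisk k \ {0}) I f := by
  have hΓ := isAnalyticProd_fullGraph hk om hf hvol
  have hI := dense_compl_of_codim_two hk hf.codim_two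
  have hgr := graphClosure_newMap (f := f) hk hI
  refine ⟨newIndet I f, newMap I f, ⟨isAnalyticSubset_newIndet hf hΓ, ?_,
    holomorphic_newMap hk hf, hgr ▸ hΓ, ?_⟩, newMap_eqOn, by rw [hgr, fullGraph_inter]⟩
  · rcases hk.eq_or_lt with h1 | h1
    · subst h1
      have : newIndet I f = ∅ := by
        refine eq_empty_of_forall_notMem fun z hz => ?_
        have hI0 := indet_eq_empty hf
        have hz0 : z = 0 := by simpa [hI0] using hz.1
        subst hz0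
        rcases hz.2 with h | h
        · simp [hI0] at h
        · exact h (subsingleton_fibre_zero hf hΓ)
      rw [this, measure_empty]
    · have hpos : (0 : ℝ) < 2 * (k : ℝ) - 2 := by
        have : (1 : ℝ) < k := by exact_mod_cast h1
        linarith
      have := Measure.nullSingletonClass_hausdorff (Fin k → ℂ) hpos
      exact measure_mono_null (fun z hz => hz.1)
        (measure_union_null hf.codim_two (measure_singleton _))
  · intro A₁ A₂ h₁ h₂ hA
    rw [hgr] at hA ⊢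
    have key : ∀ A, 𝒜.IsAnalyticProd (polydisk k) A → A ⊆ fullGraph I f →
        graphClosure (polydisk k \ {0}) I f = A ∩ (polydisk k \ {0}) ×ˢ univ →
        fullGraph I f = A := by
      intro A hAan hsub heq
      refine subset_antisymm (fun p hp => ?_) hsub
      refine IsAnalyticProd.mem_of_mem_closure hAan (closure_mono ?_ hp.1) hp.2.1
      intro q hq
      have : q ∈ graphClosure (polydisk k \ {0}) I f := ⟨subset_closure hq, hq.1.1, trivial⟩
      rw [heq] at this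
      exact this.1
    have h3 := hf.irreducible _ _
      (IsAnalyticProd.restrict h₁ (isOpen_punctured k) sdiff_subset)
      (IsAnalyticProd.restrict h₂ (isOpen_punctured k) sdiff_subset)
      (by rw [← fullGraph_inter, hA, union_inter_distrib_right])
    rcases h3 with h3 | h3
    · exact Or.inl (key A₁ h₁ (hA ▸ subset_union_left) h3)
    · exact Or.inr (key A₂ h₂ (hA ▸ subset_union_right) h3)

end Pool.Agent.Lib.MP_940f24_an
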