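import Pool.Agent.Lib.MP_940f24_an.Finite
import Pool.Agent.Lib.MP_940f24_an.Area

/-!
Local finiteness of the volume of an analytic set parametrized on a dense part.
-/

open Set Filter Topology MeasureTheory Metric Complex
open scoped ENNReal

namespace Pool.Agent.Lib.MP_940f24_an

theorem dimH_image_le_of_analytic {k : ℕ} {E : Type} [NormedAddCommGroup E] [NormedSpace ℂ E]
    [FiniteDimensional ℂ E] {W : Set (Fin k → ℂ)} {F : (Fin k → ℂ) → E}
    (hF : AnalyticOnNhd ℂ F W) : dimH (F '' W) ≤ 2 * (k : ℝ≥0∞) := by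
  have : CompleteSpace E := FiniteDimensional.complete ℂ E
  have h1 : dimH (F '' W) ≤ dimH W := by
    refine dimH_image_le_of_locally_lipschitzOn fun z hz => ?_
    obtain ⟨K, s, hs, hK⟩ := (hF z hz).hasStrictFDerivAt.exists_lipschitzOnWith
    exact ⟨K, s, mem_nhdsWithin_of_mem_nhds hs, hK⟩
  refine h1.trans ((dimH_mono (subset_univ W)).trans ?_)
  rw [Real.dimH_univ_eq_finrank, Module.finrank_pi_fintype]
  simp [Complex.finrank_real_complex, mul_comm]

/-- The coefficient vectors whose combination of minors is square integrable near `a`. -/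
def sqIntCoeff {k : ℕ} {ι : Type} [Fintype ι] (W : Set (Fin k → ℂ))
    (F : (Fin k → ℂ) → (ι → ℂ)) (a : ι → ℂ) : Submodule ℂ ((Fin k → ι) → ℂ) where
  carrier := {P | ∃ V, IsOpen V ∧ a ∈ V ∧
    MemLp (fun z => ∑ s, P s * minor F s z) 2 (volume.restrict (W ∩ F ⁻¹' V))}
  add_mem' := by
    rintro P Q ⟨V, hV, haV, hP⟩ ⟨V', hV', haV', hQ⟩
    refine ⟨V ∩ V', hV.inter hV', ⟨haV, haV'⟩, ?_⟩
    have h1 := hP.mono_measure (Measure.restrict_mono_set volume
      (show W ∩ F ⁻¹' (V ∩ V') ⊆ W ∩ F ⁻¹' V from fun z hz => ⟨hz.1, hz.2.1⟩))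
    have h2 := hQ.mono_measure (Measure.restrict_mono_set volume
      (show W ∩ F ⁻¹' (V ∩ V') ⊆ W ∩ F ⁻¹' V' from fun z hz => ⟨hz.1, hz.2.2⟩))
    have h3 : (fun z => ∑ s, (P + Q) s * minor F s z) =
        (fun z => ∑ s, P s * minor F s z) + fun z => ∑ s, Q s * minor F s z := by
      funext z
      simp only [Pi.add_apply, add_mul, Finset.sum_add_distrib]
    rw [h3]
    exact h1.add h2
  zero_mem' := ⟨univ, isOpen_univ, mem_univ _, by simp⟩
  smul_mem' := by
    rintro c P ⟨V, hV, haV, hP⟩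
    refine ⟨V, hV, haV, ?_⟩
    have h3 : (fun z => ∑ s, (c • P) s * minor F s z) =
        fun z => c * ∑ s, P s * minor F s z := by
      funext z
      simp only [Pi.smul_apply, smul_eq_mul, Finset.mul_sum, mul_assoc]
    rw [h3]
    exact hP.const_mul c

theorem mem_sqIntCoeff_of_good {k : ℕ} {ι : Type} [Fintype ι] [DecidableEq ι]
    {W : Set (Fin k → ℂ)} (hW : IsOpen W)
    {F : (Fin k → ℂ) → (ι → ℂ)} (hF : AnalyticOnNhd ℂ F W) (hinj : InjOn F W)
    {A : Set (ι → ℂ)} {a : ι → ℂ} (hA : AnAt A a) (hFA : MapsTo F W A)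
    {p : (ι → ℂ) →L[ℂ] (Fin k → ℂ)} (hp : Good A a p) :
    (fun s : Fin k → ι => ∏ i, p (Pi.single (s i) 1) i) ∈ sqIntCoeff W F a := by
  obtain ⟨V, hV, hVb, -, -, m, hm⟩ := finite_map hA hp (ball_mem_nhds a one_pos)
  refine ⟨interior V, isOpen_interior, mem_interior_iff_mem_nhds.2 hV, ?_⟩
  set W' : Set (Fin k → ℂ) := W ∩ F ⁻¹' interior V with hW'
  have hW'o : IsOpen W' := hF.continuousOn.isOpen_inter_preimage hW isOpen_interior
  have hg : AnalyticOnNhd ℂ (p ∘ F) W' := fun z hz => (p.analyticAt (F z)).comp (hF z hz.1)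
  have hb : Bornology.IsBounded ((p ∘ F) '' W') := by
    refine (p.lipschitz.isBounded_image (isBounded_ball (x := a) (r := 1))).subset ?_
    rintro _ ⟨z, hz, rfl⟩
    exact ⟨F z, hVb (interior_subset hz.2), rfl⟩
  have hfib : ∀ w, (W' ∩ (p ∘ F) ⁻¹' {w}).encard ≤ m := by
    intro w
    refine le_trans ?_ (hm w)
    rw [← (hinj.mono (show W' ∩ (p ∘ F) ⁻¹' {w} ⊆ W from fun z hz => hz.1.1)).encard_image]
    refine encard_le_encard ?_
    rintro _ ⟨z, hz, rfl⟩
    exact ⟨⟨hFA hz.1.1, interior_subset hz.1.2⟩, hz.2⟩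
  have hint := integrableOn_det_sq_of_encard_le hW'o hg hb hfib
  have hmem : MemLp (fun z => (jac (p ∘ F) z).det) 2 (volume.restrict W') :=
    (memLp_two_iff_integrable_sq_norm
      ((continuousOn_det_jac hg).aestronglyMeasurable hW'o.measurableSet)).2 hint
  refine hmem.ae_eq ?_
  filter_upwards [ae_restrict_mem hW'o.measurableSet] with z hz
  exact det_jac_comp (hF z hz.1).differentiableAt p

theorem lelong {k : ℕ} {ι : Type} [Fintype ι] {W : Set (Fin k → ℂ)} (hW : IsOpen W)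
    {F : (Fin k → ℂ) → (ι → ℂ)} (hF : AnalyticOnNhd ℂ F W) (hinj : InjOn F W)
    {A : Set (ι → ℂ)} {a : ι → ℂ} (hA : AnAt A a) (hFA : MapsTo F W A) {h : (ι → ℂ) → ℂ}
    (hh : AnalyticAt ℂ h a) (hd : ∀ᶠ x in 𝓝 a, x ∈ A → x ∈ closure (A ∩ {y | h y ≠ 0}))
    (hsub : ∀ᶠ x in 𝓝 a, x ∈ A → h x ≠ 0 → x ∈ F '' W) :
    ∃ V, IsOpen V ∧ a ∈ V ∧ IntegrableOn (vol F) (W ∩ F ⁻¹' V) := by
  classical
  have hdim : ∃ U ∈ 𝓝 a, dimH (A ∩ {y | h y ≠ 0} ∩ U) ≤ 2 * (k : ℝ≥0∞) := by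
    refine ⟨_, hsub, le_trans (dimH_mono ?_) (dimH_image_le_of_analytic hF)⟩
    intro x hx
    exact hx.2 hx.1.1 hx.1.2
  let Φ : ((ι → ℂ) →L[ℂ] (Fin k → ℂ)) → ((Fin k → ι) → ℂ) :=
    fun p s => ∏ i, p (Pi.single (s i) 1) i
  have hΦ : Continuous Φ := by
    refine continuous_pi fun s => continuous_finsetProd _ fun i _ => ?_
    exact (continuous_apply i).comp (continuous_eval_const _)
  have hclosed : IsClosed (sqIntCoeff W F a : Set ((Fin k → ι) → ℂ)) :=
    Submodule.closed_of_finiteDimensional _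
  have hall : ∀ p, Φ p ∈ sqIntCoeff W F a := by
    intro p
    have hc : IsClosed (Φ ⁻¹' (sqIntCoeff W F a : Set ((Fin k → ι) → ℂ))) := hclosed.preimage hΦ
    refine hc.closure_subset (Metric.mem_closure_iff.2 fun ε hε => ?_)
    obtain ⟨q, hq, hgood⟩ := exists_good_near hA hh hd hdim p hε
    refine ⟨q, mem_sqIntCoeff_of_good hW hF hinj hA hFA hgood, ?_⟩
    rw [dist_comm, dist_eq_norm]
    exact hq
  have hmin : ∀ s : Fin k → ι, ∃ V, IsOpen V ∧ a ∈ V ∧
      IntegrableOn (fun z => ‖minor F s z‖ ^ 2) (W ∩ F ⁻¹' V) := by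
    intro s₀
    obtain ⟨V, hV, haV, hmem⟩ := hall (sel s₀)
    refine ⟨V, hV, haV, ?_⟩
    have h1 : ∀ s, Φ (sel s₀) s = if s = s₀ then 1 else 0 := by
      intro s
      simp only [Φ, sel, ContinuousLinearMap.pi_apply, ContinuousLinearMap.proj_apply]
      split_ifs with hs
      · subst hs
        simp
      · obtain ⟨i, hi⟩ := Function.ne_iff.1 hs
        exact Finset.prod_eq_zero (Finset.mem_univ i) (Pi.single_eq_of_ne' hi _)
    have h2 : (fun z => ∑ s, Φ (sel s₀) s * minor F s z) = minor F s₀ := by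
      funext z
      simp [h1]
    rw [h2] at hmem
    exact (memLp_two_iff_integrable_sq_norm hmem.1).1 hmem
  choose V hV haV hint using hmin
  refine ⟨⋂ s, V s, isOpen_iInter_of_finite hV, mem_iInter.2 haV, ?_⟩
  refine integrable_finsetSum _ fun s _ => (hint s).mono_set ?_
  exact fun z hz => ⟨hz.1, mem_iInter.1 hz.2 s⟩

end Pool.Agent.Lib.MP_940f24_an
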