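import Pool.Agent.Lib.MP_940f24_an.Setup
import Pool.Agent.Lib.MP_940f24_an.Cutoff
import Pool.Agent.Lib.MP_940f24_an.Lelong

/-!
Finiteness of the volume of the graph and the Stokes formula across the removed sets.
-/

open Set Filter Topology MeasureTheory Metric Complex
open scoped ContDiff

namespace Pool.Agent.Lib.MP_940f24_an

variable {k N : ℕ} {W I : Set (Fin k → ℂ)} {U : Set (Fin N → ℂ)}
  {f : (Fin k → ℂ) → (Fin N → ℂ)}

theorem nsq_smul {κ : Type} [Fintype κ] (r : ℂ) (v : κ → ℂ) :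
    nsq (r • v) = ‖r‖ ^ 2 * nsq v := by
  simp [nsq, Finset.mul_sum, mul_pow]

theorem norm_apply_sq_le_nsq {κ : Type} [Fintype κ] (v : κ → ℂ) (i : κ) : ‖v i‖ ^ 2 ≤ nsq v :=
  Finset.single_le_sum (f := fun j => ‖v j‖ ^ 2) (fun _ _ => by positivity) (Finset.mem_univ i)

theorem continuous_nsq {κ : Type} [Fintype κ] : Continuous (nsq : (κ → ℂ) → ℝ) := by
  unfold nsq; fun_prop

theorem Setup.analyticOnNhd_gr (H : Setup W I U f) : AnalyticOnNhd ℂ (gr f) W :=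
  fun z hz => analyticAt_gr (H.analytic z hz)

theorem Setup.gr_mem_omega1 (H : Setup W I U f) {z : Fin k → ℂ} (hz : z ∈ W) :
    gr f z ∈ omega1 k U := ⟨(H.subset hz).1, H.mapsTo hz⟩

theorem Setup.measurableSet (H : Setup W I U f) {Q : Set (Fin k ⊕ Fin N → ℂ)} (hQ : IsClosed Q) :
    MeasurableSet (W ∩ gr f ⁻¹' Q) :=
  measurableSet_inter_preimage H.isOpen_W H.analyticOnNhd_gr.continuousOn hQ

/-- A normalized local equation of `I`. -/
theorem Setup.exists_equation (H : Setup W I U f) {z₀ : Fin k → ℂ}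
    (hz₀ : z₀ ∈ polydisk k \ {0}) :
    ∃ (r : ℕ) (g : (Fin k → ℂ) → (Fin r → ℂ)) (V : Set (Fin k → ℂ)), IsOpen V ∧ z₀ ∈ V ∧
      AnalyticOnNhd ℂ g V ∧ (∀ z ∈ V, z ∈ I ↔ g z = 0) ∧ ∀ z ∈ V, nsq (g z) ≤ 1 := by
  obtain ⟨r, g, hg, hI⟩ := H.anAt_I z₀ hz₀
  set M := nsq (g z₀) + 1 with hM
  have hM1 : 1 ≤ M := by have := nsq_nonneg (g z₀); linarith
  have hb : ∀ᶠ z in 𝓝 z₀, nsq (g z) < M :=
    (continuous_nsq.continuousAt.comp hg.continuousAt).eventually (gt_mem_nhds (by simp [hM]))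
  obtain ⟨V, hV, hVo, hz₀V⟩ := _root_.mem_nhds_iff.1 (hI.and (hb.and hg.eventually_analyticAt))
  have hM0 : (M : ℂ) ≠ 0 := by
    have : M ≠ 0 := by linarith
    exact_mod_cast this
  refine ⟨r, fun z => (M : ℂ)⁻¹ • g z, V, hVo, hz₀V,
    fun z hz => (hV hz).2.2.const_smul (c := (M : ℂ)⁻¹), fun z hz => ?_, fun z hz => ?_⟩
  · rw [(hV hz).1]; simp [hM0]
  · rw [nsq_smul, norm_inv, Complex.norm_real, Real.norm_of_nonneg (by linarith), inv_pow,
      inv_mul_le_iff₀ (by positivity)]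
    nlinarith [(hV hz).2.1]

/-- Finite volume away from the origin. -/
theorem Setup.integrableOn_vol₁ (H : Setup W I U f) {Q : Set (Fin k ⊕ Fin N → ℂ)}
    (hQ : IsCompact Q) (hQΩ : Q ⊆ omega1 k U) : IntegrableOn (vol (gr f)) (W ∩ gr f ⁻¹' Q) := by
  refine hQ.induction_on (p := fun S => IntegrableOn (vol (gr f)) (W ∩ gr f ⁻¹' S) volume)
    (by simp)
    (fun s t hst ht => ht.mono_set (inter_subset_inter_right _ (preimage_mono hst)))
    (fun s t hs ht => by rw [preimage_union, inter_union_distrib_left]; exact hs.union ht) ?_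
  intro x hx
  have hxΩ := hQΩ hx
  obtain ⟨r, g, V, hVo, hzV, hg, hI, -⟩ := H.exists_equation hxΩ.1
  have hne : ¬ g =ᶠ[𝓝 (x ∘ Sum.inl)] 0 := by
    intro h
    have h1 := mem_closure_iff_frequently.1 (H.dense_I _ hxΩ.1)
    obtain ⟨y, hy1, hy2, hy3⟩ := (h1.and_eventually (h.and (hVo.mem_nhds hzV))).exists
    exact hy1 ((hI y hy3).2 hy2)
  obtain ⟨i, hi⟩ := exists_comp_not_eventuallyEq_zero hne
  have hgi : AnalyticAt ℂ (fun y => g y i) (x ∘ Sum.inl) := analyticAt_pi_iff.1 (hg _ hzV) i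
  have hinl : AnalyticAt ℂ (fun y : Fin k ⊕ Fin N → ℂ => y ∘ Sum.inl) x :=
    analyticAt_pi_iff.2 fun l =>
      (ContinuousLinearMap.proj (R := ℂ) (φ := fun _ : Fin k ⊕ Fin N => ℂ) (Sum.inl l)).analyticAt x
  obtain ⟨V', hV', hV'o, hzV'⟩ :=
    _root_.mem_nhds_iff.1 (eventually_not_eventuallyEq_zero hgi hi)
  have hd : ∀ᶠ y in 𝓝 x, y ∈ closure (gr f '' W) →
      y ∈ closure (closure (gr f '' W) ∩ {y | g (y ∘ Sum.inl) i ≠ 0}) := by
    have hopen : IsOpen {y : Fin k ⊕ Fin N → ℂ | y ∘ Sum.inl ∈ V'} :=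
      hV'o.preimage continuous_comp_inl
    filter_upwards [hopen.mem_nhds hzV'] with y hy hyA
    refine closure_minimal ?_ isClosed_closure (hopen.inter_closure ⟨hy, hyA⟩)
    rintro _ ⟨hzV', z, hz, rfl⟩
    have h1 : ∃ᶠ w in 𝓝 z, g w i ≠ 0 := by
      have := (hV' hzV').2
      rwa [EventuallyEq, not_eventually] at this
    have h2 : z ∈ closure {w ∈ W | g w i ≠ 0} :=
      mem_closure_iff_frequently.2
        ((h1.and_eventually (H.isOpen_W.mem_nhds hz)).mono fun w hw => ⟨hw.2, hw.1⟩)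
    refine closure_mono ?_ (mem_closure_image (H.analyticOnNhd_gr z hz).continuousAt h2)
    rintro _ ⟨w, hw, rfl⟩
    exact ⟨subset_closure (mem_image_of_mem _ hw.1), hw.2⟩
  have hsub : ∀ᶠ y in 𝓝 x, y ∈ closure (gr f '' W) → g (y ∘ Sum.inl) i ≠ 0 →
      y ∈ gr f '' W := by
    filter_upwards [(hVo.preimage continuous_comp_inl).mem_nhds hzV,
      (isOpen_omega1 H.isOpen_U).mem_nhds hxΩ] with y hy hyΩ hyA hy0
    refine H.closed y hyA hyΩ fun hyI => hy0 ?_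
    rw [(hI _ hy).1 hyI]; rfl
  obtain ⟨O, hO, hxO, hint⟩ := lelong H.isOpen_W H.analyticOnNhd_gr (gr_injective f).injOn
    (H.anAt_graph x hxΩ) (fun z hz => subset_closure (mem_image_of_mem _ hz))
    (h := fun y => g (y ∘ Sum.inl) i) (AnalyticAt.comp (g := fun y => g y i) hgi hinl) hd hsub
  exact ⟨O, nhdsWithin_le_nhds (hO.mem_nhds hxO), hint⟩

section field
variable (p : (Fin k ⊕ Fin N → ℂ) →L[ℂ] (Fin k → ℂ)) (i₀ : Fin k)

theorem Setup.analyticOnNhd_vf (H : Setup W I U f) : AnalyticOnNhd ℂ (vf (p ∘ gr f) i₀) W :=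
  fun z hz => analyticAt_vf ((p.analyticAt _).comp (H.analyticOnNhd_gr z hz)) i₀

theorem Setup.cdiv_vf (H : Setup W I U f) : ∀ z ∈ W, cdiv (vf (p ∘ gr f) i₀) z = 0 :=
  fun z hz => MP_940f24_an.cdiv_vf ((p.analyticAt _).comp (H.analyticOnNhd_gr z hz)) i₀

theorem Setup.contDiffOn_comp (H : Setup W I U f) {Y : Type} [NormedAddCommGroup Y]
    [NormedSpace ℝ Y] {θ : (Fin k ⊕ Fin N → ℂ) → Y} (hθ : ContDiff ℝ 1 θ) :
    ContDiffOn ℝ 1 (fun z => θ (gr f z)) W :=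
  hθ.comp_contDiffOn
    ((H.analyticOnNhd_gr.contDiffOn H.isOpen_W.uniqueDiffOn).restrict_scalars ℝ)

/-- The energy of an ambient function is controlled by the volume. -/
theorem Setup.energy_comp (H : Setup W I U f) {θ : (Fin k ⊕ Fin N → ℂ) → ℂ} (hθ : ContDiff ℝ 1 θ)
    {Q : Set (Fin k ⊕ Fin N → ℂ)} (hQ : IsCompact Q)
    (hvol : IntegrableOn (vol (gr f)) (W ∩ gr f ⁻¹' Q)) :
    IntegrableOn (fun z => ‖dz (fun y => θ (gr f y)) z (vf (p ∘ gr f) i₀ z)‖ ^ 2)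
      (W ∩ gr f ⁻¹' Q) := by
  obtain ⟨C, hC⟩ := exists_fderiv_vf_le p i₀
  obtain ⟨L, hL⟩ := hQ.exists_bound_of_continuousOn
    (hθ.continuous_fderiv one_ne_zero).continuousOn
  have hmeas := H.measurableSet hQ.isClosed
  refine Integrable.mono' (hvol.const_mul (L ^ 2 * C)) ?_ ?_
  · refine ContinuousOn.aestronglyMeasurable ?_ hmeas
    exact (((continuousOn_dz H.isOpen_W (H.contDiffOn_comp hθ)
      (H.analyticOnNhd_vf p i₀).continuousOn).norm).pow 2).mono inter_subset_left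
  · refine (ae_restrict_iff' hmeas).2 (Eventually.of_forall fun z hz => ?_)
    have hd := (H.analyticOnNhd_gr z hz.1).differentiableAt
    rw [Real.norm_of_nonneg (by positivity),
      dz_comp_holo ((hθ.differentiable one_ne_zero) _) hd]
    have h1 := norm_dz_le θ (gr f z) (fderiv ℂ (gr f) z (vf (p ∘ gr f) i₀ z))
    have h2 := hL _ hz.2
    have h3 := hC (gr f) z hd
    have hL0 : 0 ≤ L := (norm_nonneg _).trans h2
    calc _ ≤ (L * ‖fderiv ℂ (gr f) z (vf (p ∘ gr f) i₀ z)‖) ^ 2 := by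
          gcongr; exact h1.trans (by gcongr)
      _ = L ^ 2 * ‖fderiv ℂ (gr f) z (vf (p ∘ gr f) i₀ z)‖ ^ 2 := by ring
      _ ≤ L ^ 2 * (C * vol (gr f) z) := by gcongr
      _ = _ := by ring

theorem Setup.dz_eq_zero (H : Setup W I U f) {a : (Fin k → ℂ) → ℂ}
    {Q : Set (Fin k ⊕ Fin N → ℂ)} (hQ : IsClosed Q) (ha : MapsTo (gr f) {z ∈ W | a z ≠ 0} Q)
    {z : Fin k → ℂ} (hz : z ∈ W) (hzQ : gr f z ∉ Q) (c : Fin k → ℂ) : dz a z c = 0 := by
  have : a =ᶠ[𝓝 z] fun _ => 0 := by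
    filter_upwards [H.isOpen_W.mem_nhds hz, (H.analyticOnNhd_gr z hz).continuousAt.preimage_mem_nhds
      (hQ.isOpen_compl.mem_nhds hzQ)] with y hy1 hy2
    by_contra h
    exact hy2 (ha ⟨hy1, h⟩)
  rw [dz_congr this, dz_const]

theorem Setup.energy_comp_of_support (H : Setup W I U f) {θ : (Fin k ⊕ Fin N → ℂ) → ℝ}
    (hθ : ContDiff ℝ 1 θ) (hQ : HasCompactSupport θ)
    (hvol : IntegrableOn (vol (gr f)) (W ∩ gr f ⁻¹' tsupport θ)) :
    IntegrableOn (fun z => ‖dz (fun y => (θ (gr f y) : ℂ)) z (vf (p ∘ gr f) i₀ z)‖ ^ 2) W := by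
  have h1 := H.energy_comp p i₀ (θ := fun x => (θ x : ℂ)) (ofRealCLM.contDiff.comp hθ) hQ hvol
  refine h1.of_forall_sdiff_eq_zero H.isOpen_W.measurableSet fun z hz => ?_
  rw [H.dz_eq_zero (isClosed_tsupport θ) (fun y hy => subset_tsupport _ ?_) hz.1
    (fun h => hz.2 ⟨hz.1, h⟩)]
  · simp
  · simpa using hy.2

/-- Multiplication by a bounded ambient function preserves the hypotheses of the Stokes
formula. -/
theorem Setup.mul_ambient (H : Setup W I U f) {θ : (Fin k ⊕ Fin N → ℂ) → ℂ} (hθ : ContDiff ℝ 1 θ)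
    (hθb : ∀ x, ‖θ x‖ ≤ 1) {Q : Set (Fin k ⊕ Fin N → ℂ)} (hQ : IsCompact Q)
    (hvol : IntegrableOn (vol (gr f)) (W ∩ gr f ⁻¹' Q)) {a : (Fin k → ℂ) → ℂ}
    (ha : ContDiffOn ℝ 1 a W) (haQ : MapsTo (gr f) {z ∈ W | a z ≠ 0} Q)
    (h2 : IntegrableOn (fun z => ‖a z‖ ^ 2) W)
    (h1 : IntegrableOn (fun z => dz a z (vf (p ∘ gr f) i₀ z)) W) :
    ContDiffOn ℝ 1 (fun z => θ (gr f z) * a z) W ∧
      IntegrableOn (fun z => ‖θ (gr f z) * a z‖ ^ 2) W ∧
      IntegrableOn (fun z => dz (fun y => θ (gr f y) * a y) z (vf (p ∘ gr f) i₀ z)) W := by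
  have hW := H.isOpen_W
  have hθf := H.contDiffOn_comp hθ
  have hC : ContDiffOn ℝ 1 (fun z => θ (gr f z) * a z) W := hθf.mul ha
  refine ⟨hC, ?_, ?_⟩
  · refine Integrable.mono' h2
      ((hC.continuousOn.norm.pow 2).aestronglyMeasurable hW.measurableSet)
      (Eventually.of_forall fun z => ?_)
    rw [Real.norm_of_nonneg (by positivity), norm_mul]
    gcongr
    exact mul_le_of_le_one_left (norm_nonneg _) (hθb _)
  · have hE := H.energy_comp p i₀ hθ hQ hvol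
    rw [← integrable_indicator_iff (H.measurableSet hQ.isClosed)] at hE
    refine Integrable.mono' ((hE.integrableOn.add h2).add h1.norm)
      ((continuousOn_dz hW hC (H.analyticOnNhd_vf p i₀).continuousOn).aestronglyMeasurable
        hW.measurableSet) ?_
    refine (ae_restrict_iff' hW.measurableSet).2 (Eventually.of_forall fun z hz => ?_)
    rw [dz_mul ((hθf.differentiableOn one_ne_zero z hz).differentiableAt (hW.mem_nhds hz))
      ((ha.differentiableOn one_ne_zero z hz).differentiableAt (hW.mem_nhds hz))]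
    refine (norm_add_le _ _).trans (add_le_add ?_ ?_)
    · simp only [Pi.add_apply]
      by_cases haz : a z = 0
      · rw [haz, mul_zero, norm_zero]
        exact add_nonneg (indicator_nonneg (fun _ _ => by positivity) _) (by positivity)
      · rw [indicator_of_mem (show z ∈ W ∩ gr f ⁻¹' Q from ⟨hz, haQ ⟨hz, haz⟩⟩), norm_mul]
        nlinarith [sq_nonneg (‖dz (fun y => θ (gr f y)) z (vf (p ∘ gr f) i₀ z)‖ - ‖a z‖),
          norm_nonneg (dz (fun y => θ (gr f y)) z (vf (p ∘ gr f) i₀ z)), norm_nonneg (a z)]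
    · rw [norm_mul]
      exact mul_le_of_le_one_left (norm_nonneg _) (hθb _)

theorem Setup.stokes_union (H : Setup W I U f) {O₁ O₂ : Set (Fin k ⊕ Fin N → ℂ)}
    (hO₁ : IsOpen O₁) (hO₂ : IsOpen O₂) (hΩ : O₁ ∪ O₂ ⊆ omega1 k U)
    (h₁ : Stokes W (vf (p ∘ gr f) i₀) (Adm f O₁)) (h₂ : Stokes W (vf (p ∘ gr f) i₀) (Adm f O₂)) :
    Stokes W (vf (p ∘ gr f) i₀) (Adm f (O₁ ∪ O₂)) := by
  rintro a ha ⟨Q, hQ, hQO, haQ⟩ h2 h1
  have hW := H.isOpen_W
  have hvol := H.integrableOn_vol₁ hQ (hQO.trans hΩ)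
  obtain ⟨Q₁, Q₂, hQ₁, hQ₂, hQO₁, hQO₂, hQeq⟩ := hQ.binary_compact_cover hO₁ hO₂ hQO
  obtain ⟨ρ, hρ, hρc, hρO, hρ1, hρb⟩ := exists_bump hQ₁ hO₁ hQO₁
  have hρ' : ContDiff ℝ 1 fun x => (ρ x : ℂ) :=
    ofRealCLM.contDiff.comp (hρ.of_le (by exact_mod_cast le_top))
  obtain ⟨a1, b1, c1⟩ := H.mul_ambient p i₀ (θ := fun x => (ρ x : ℂ)) hρ'
    (fun x => by rw [Complex.norm_real, Real.norm_of_nonneg (hρb x).1]; exact (hρb x).2)
    hQ hvol ha haQ h2 h1
  obtain ⟨a2, b2, c2⟩ := H.mul_ambient p i₀ (θ := fun x => 1 - (ρ x : ℂ))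
    (contDiff_const.sub hρ')
    (fun x => by
      rw [← ofReal_one, ← ofReal_sub, Complex.norm_real,
        Real.norm_of_nonneg (by linarith [(hρb x).2])]
      linarith [(hρb x).1])
    hQ hvol ha haQ h2 h1
  have e1 := h₁ _ a1 ⟨tsupport ρ, hρc, hρO, fun z hz => subset_tsupport _ (by
    have := left_ne_zero_of_mul hz.2
    simpa using this)⟩ b1 c1
  have e2 := h₂ _ a2 ⟨Q₂, hQ₂, hQO₂, fun z hz => by
    have h3 := haQ ⟨hz.1, right_ne_zero_of_mul hz.2⟩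
    rw [hQeq] at h3
    refine h3.resolve_left fun h4 => left_ne_zero_of_mul hz.2 ?_
    rw [hρ1 _ h4]; simp⟩ b2 c2
  rw [← zero_add (0 : ℂ)]
  nth_rewrite 1 [← e1]
  rw [← e2, ← integral_add c1 c2]
  refine setIntegral_congr_fun hW.measurableSet fun z hz => ?_
  rw [← dz_add ((a1.differentiableOn one_ne_zero z hz).differentiableAt (hW.mem_nhds hz))
    ((a2.differentiableOn one_ne_zero z hz).differentiableAt (hW.mem_nhds hz))]
  exact dz_congr (Eventually.of_forall fun y => by ring) _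

theorem Setup.stokes_local (H : Setup W I U f) {x : Fin k ⊕ Fin N → ℂ} (hx : x ∈ omega1 k U) :
    ∃ O, IsOpen O ∧ x ∈ O ∧ O ⊆ omega1 k U ∧ Stokes W (vf (p ∘ gr f) i₀) (Adm f O) := by
  obtain ⟨r, g, V, hVo, hzV, hg, hI, hg1⟩ := H.exists_equation hx.1
  have hW := H.isOpen_W
  have hO : IsOpen (omega1 k U ∩ {y | y ∘ Sum.inl ∈ V}) :=
    (isOpen_omega1 H.isOpen_U).inter (hVo.preimage continuous_comp_inl)
  refine ⟨_, hO, ⟨hx, hzV⟩, inter_subset_left, ?_⟩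
  rintro a ha ⟨Q, hQ, hQO, haQ⟩ h2 h1
  obtain ⟨ψ, hψ, hψc, hψO, hψ1, hψb⟩ := exists_bump hQ hO hQO
  have hψ' : ContDiff ℝ 1 ψ := hψ.of_le (by exact_mod_cast le_top)
  have hW' : IsOpen (W ∩ V) := hW.inter hVo
  have hc := (H.analyticOnNhd_vf p i₀).mono (inter_subset_left (t := V))
  have hcut : CutData (W ∩ V) (vf (p ∘ gr f) i₀) (fun S => ∃ K, IsCompact K ∧ K ⊆ W ∩ V ∧ S ⊆ K)
      g (fun z => ψ (gr f z)) := by
    refine ⟨hW', hc, stokes_compact hW' hc fun z hz => H.cdiv_vf p i₀ z hz.1, ?_,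
      hg.mono inter_subset_right, fun z hz h => (H.subset hz.1).2 ((hI z hz.2).2 h),
      fun z hz => hg1 z hz.2, ?_, (H.contDiffOn_comp hψ').mono inter_subset_left,
      fun z _ => by rw [abs_of_nonneg (hψb _).1]; exact (hψb _).2, ?_, ?_⟩
    · rintro S T hTS ⟨K, h1, h2, h3⟩
      exact ⟨K, h1, h2, hTS.trans h3⟩
    · rintro S - - ⟨K, hK, hKW, hSK⟩
      refine IntegrableOn.mono_set (ContinuousOn.integrableOn_compact hK ?_) hSK
      refine continuous_nsq.comp_continuousOn fun z hz => ?_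
      exact ((hg z (hKW hz).2).fderiv.continuousAt.clm_apply
        (hc z (hKW hz)).continuousAt).continuousWithinAt
    · intro δ hδ
      have hcl : IsClosed (tsupport ψ ∩ (fun y => nsq (g (y ∘ Sum.inl))) ⁻¹' Ici δ) := by
        refine ContinuousOn.preimage_isClosed_of_isClosed ?_ (isClosed_tsupport ψ) isClosed_Ici
        exact continuous_nsq.comp_continuousOn
          (hg.continuousOn.comp continuous_comp_inl.continuousOn fun y hy => (hψO hy).2)
      refine ⟨(fun y => y ∘ Sum.inl) '' ((tsupport ψ ∩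
        (fun y => nsq (g (y ∘ Sum.inl))) ⁻¹' Ici δ) ∩ closure (gr f '' W)),
        ((hψc.isCompact.of_isClosed_subset hcl inter_subset_left).inter_right
          isClosed_closure).image continuous_comp_inl, ?_, ?_⟩
      · rintro _ ⟨y, ⟨⟨hy1, hy2⟩, hy3⟩, rfl⟩
        have hyI : y ∘ Sum.inl ∉ I := fun h => by
          have h0 := (hI _ (hψO hy1).2).1 h
          simp only [mem_preimage, h0, mem_Ici, nsq] at hy2
          simp at hy2
          linarith
        obtain ⟨z, hz, rfl⟩ := H.closed y hy3 (hψO hy1).1 hyI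
        exact ⟨hz, (hψO hy1).2⟩
      · rintro z ⟨hz, hz1, hz2⟩
        exact ⟨gr f z, ⟨⟨subset_tsupport _ hz1, hz2⟩,
          subset_closure (mem_image_of_mem _ hz.1)⟩, rfl⟩
    · exact (H.energy_comp_of_support p i₀ hψ' hψc
        (H.integrableOn_vol₁ hψc (hψO.trans inter_subset_left))).mono_set inter_subset_left
  have h3 := hcut.stokes_step (ha.mono inter_subset_left)
    (fun z hz h => hψ1 _ (haQ ⟨hz.1, h⟩)) (h2.mono_set inter_subset_left)
    (h1.mono_set inter_subset_left)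
  rw [← h3]
  refine setIntegral_eq_of_subset_of_forall_sdiff_eq_zero hW.measurableSet inter_subset_left
    fun z hz => H.dz_eq_zero hQ.isClosed haQ hz.1 (fun h => hz.2 ⟨hz.1, (hQO h).2⟩) _

end field

/-- Stokes formula away from the origin. -/
theorem Setup.stokes₁ (H : Setup W I U f) (p : (Fin k ⊕ Fin N → ℂ) →L[ℂ] (Fin k → ℂ))
    (i₀ : Fin k) : Stokes W (vf (p ∘ gr f) i₀) (Adm f (omega1 k U)) := by
  rintro a ha ⟨Q, hQ, hQO, haQ⟩ h2 h1
  have : ∃ O, IsOpen O ∧ Q ⊆ O ∧ O ⊆ omega1 k U ∧ Stokes W (vf (p ∘ gr f) i₀) (Adm f O) := by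
    refine hQ.induction_on (p := fun S => ∃ O, IsOpen O ∧ S ⊆ O ∧ O ⊆ omega1 k U ∧
      Stokes W (vf (p ∘ gr f) i₀) (Adm f O)) ?_ ?_ ?_ ?_
    · refine ⟨∅, isOpen_empty, Subset.rfl, empty_subset _, ?_⟩
      rintro b - ⟨Q', hQ', hQ'e, hb⟩ - -
      refine setIntegral_eq_zero_of_forall_eq_zero fun z hz => ?_
      exact H.dz_eq_zero hQ'.isClosed hb hz (fun h => hQ'e h) _
    · rintro s t hst ⟨O, h1, h2, h3⟩
      exact ⟨O, h1, hst.trans h2, h3⟩
    · rintro s t ⟨O₁, h1, h2, h3, h4⟩ ⟨O₂, h5, h6, h7, h8⟩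
      exact ⟨O₁ ∪ O₂, h1.union h5, union_subset_union h2 h6, union_subset h3 h7,
        H.stokes_union p i₀ h1 h5 (union_subset h3 h7) h4 h8⟩
    · intro x hx
      obtain ⟨O, h1, h2, h3, h4⟩ := H.stokes_local p i₀ (hQO hx)
      exact ⟨O, nhdsWithin_le_nhds (h1.mem_nhds h2), O, h1, Subset.rfl, h3, h4⟩
  obtain ⟨O, -, hQO', -, hS⟩ := this
  exact hS a ha ⟨Q, hQ, hQO', haQ⟩ h2 h1

theorem Setup.nsq_vf_le (H : Setup W I U f) (p : (Fin k ⊕ Fin N → ℂ) →L[ℂ] (Fin k → ℂ))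
    (i₀ : Fin k) : ∃ C : ℝ, ∀ z ∈ W, nsq (vf (p ∘ gr f) i₀ z) ≤ C * vol (gr f) z := by
  obtain ⟨C, hC⟩ := exists_fderiv_vf_le p i₀
  refine ⟨k * C, fun z hz => ?_⟩
  have hd := (H.analytic z hz).differentiableAt
  have h1 := hC (gr f) z (H.analyticOnNhd_gr z hz).differentiableAt
  have h2 : ‖vf (p ∘ gr f) i₀ z‖ ≤ ‖fderiv ℂ (gr f) z (vf (p ∘ gr f) i₀ z)‖ := by
    refine (pi_norm_le_iff_of_nonneg (norm_nonneg _)).2 fun l => ?_
    have := norm_le_pi_norm (fderiv ℂ (gr f) z (vf (p ∘ gr f) i₀ z)) (Sum.inl l)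
    rwa [fderiv_gr hd, Sum.elim_inl, ← fderiv_gr hd] at this
  have h3 := nsq_le_card_mul (vf (p ∘ gr f) i₀ z)
  rw [Fintype.card_fin] at h3
  calc _ ≤ k * ‖vf (p ∘ gr f) i₀ z‖ ^ 2 := h3
    _ ≤ k * ‖fderiv ℂ (gr f) z (vf (p ∘ gr f) i₀ z)‖ ^ 2 := by gcongr
    _ ≤ k * (C * vol (gr f) z) := by gcongr
    _ = _ := by ring

theorem fderiv_smul_id (r : ℂ) (z c : Fin k → ℂ) :
    fderiv ℂ (fun y : Fin k → ℂ => r • y) z c = r • c := by
  have : HasFDerivAt (fun y : Fin k → ℂ => r • y) (r • ContinuousLinearMap.id ℂ _) z :=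
    (hasFDerivAt_id z).const_smul r
  rw [this.fderiv]; rfl

/-- The data for removing the origin. -/
theorem Setup.cutData_origin (H : Setup W I U f) (p : (Fin k ⊕ Fin N → ℂ) →L[ℂ] (Fin k → ℂ))
    (i₀ : Fin k) {ψ : (Fin k → ℂ) → ℝ} (hψ : ContDiffOn ℝ 1 ψ W) (hb : ∀ z ∈ W, |ψ z| ≤ 1)
    {Q : Set (Fin k ⊕ Fin N → ℂ)} (hQ : IsCompact Q) (hQΩ : Q ⊆ omega2 k U)
    (hψQ : ∀ z ∈ W, ψ z ≠ 0 → gr f z ∈ Q)
    (hE : IntegrableOn (fun z => ‖dz (fun y => (ψ y : ℂ)) z (vf (p ∘ gr f) i₀ z)‖ ^ 2) W) :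
    CutData W (vf (p ∘ gr f) i₀) (Adm f (omega1 k U)) (fun y => (k : ℂ)⁻¹ • y) ψ := by
  have hk : (1 : ℝ) ≤ k := by exact_mod_cast H.pos
  have hk0 : (k : ℂ) ≠ 0 := by exact_mod_cast H.pos.ne'
  refine ⟨H.isOpen_W, H.analyticOnNhd_vf p i₀, H.stokes₁ p i₀, Adm.mono,
    fun z _ => analyticAt_id.const_smul (c := (k : ℂ)⁻¹), fun z hz h => ?_, fun z hz => ?_, ?_,
    hψ, hb, fun δ hδ => ?_, hE⟩
  · exact (H.subset hz).1.2 (by simpa [hk0] using h)
  · have h1 := nsq_le_card_mul z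
    have h2 : ‖z‖ < 1 := by
      have := (H.subset hz).1.1
      rwa [polydisk_eq_ball, mem_ball_zero_iff] at this
    rw [Fintype.card_fin] at h1
    rw [nsq_smul, norm_inv, Complex.norm_natCast, inv_pow, inv_mul_le_iff₀ (by positivity)]
    have h3 : ‖z‖ ^ 2 ≤ 1 := by nlinarith [norm_nonneg z]
    nlinarith
  · rintro S hS hSW ⟨Q', hQ', hQ'Ω, hSQ'⟩
    obtain ⟨C, hC⟩ := H.nsq_vf_le p i₀
    have hvol := (H.integrableOn_vol₁ hQ' hQ'Ω).mono_set
      (show S ⊆ W ∩ gr f ⁻¹' Q' from fun z hz => ⟨hSW hz, hSQ' hz⟩)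
    simp only [fderiv_smul_id, nsq_smul]
    refine Integrable.const_mul (Integrable.mono' (hvol.const_mul C) ?_ ?_) _
    · exact (continuous_nsq.comp_continuousOn
        ((H.analyticOnNhd_vf p i₀).continuousOn.mono hSW)).aestronglyMeasurable hS
    · refine (ae_restrict_iff' hS).2 (Eventually.of_forall fun z hz => ?_)
      rw [Real.norm_of_nonneg (nsq_nonneg _)]
      exact hC z (hSW hz)
  · refine ⟨Q ∩ {y | δ ≤ nsq ((k : ℂ)⁻¹ • (y ∘ Sum.inl))}, hQ.inter_right ?_, ?_, ?_⟩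
    · exact isClosed_le continuous_const
        (continuous_nsq.comp (continuous_comp_inl.const_smul (k : ℂ)⁻¹))
    · rintro y ⟨hy1, hy2⟩
      refine ⟨⟨(hQΩ hy1).1, fun h => ?_⟩, (hQΩ hy1).2⟩
      rw [mem_singleton_iff] at h
      simp only [mem_ofPred_eq, h, nsq] at hy2
      simp at hy2
      linarith
    · rintro z ⟨hz, h1, h2⟩
      exact ⟨hψQ z hz h1, h2⟩

theorem isCompact_split {K₁ : Set (Fin k → ℂ)} {K₂ : Set (Fin N → ℂ)} (h₁ : IsCompact K₁)
    (h₂ : IsCompact K₂) :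
    IsCompact {y : Fin k ⊕ Fin N → ℂ | y ∘ Sum.inl ∈ K₁ ∧ y ∘ Sum.inr ∈ K₂} :=
  (splitEquiv k N).toHomeomorph.isCompact_preimage.2 (h₁.prod h₂)

theorem Setup.minor_step (H : Setup W I U f) {s : Fin k → Fin k ⊕ Fin N} {i₀ l : Fin k}
    (hs : s i₀ = Sum.inl l)
    (ih : ∀ m Q, IsCompact Q → Q ⊆ omega2 k U → IntegrableOn
      (fun z => ‖minor (gr f) (Function.update s i₀ (Sum.inr m)) z‖ ^ 2) (W ∩ gr f ⁻¹' Q))
    {Q : Set (Fin k ⊕ Fin N → ℂ)} (hQ : IsCompact Q) (hQΩ : Q ⊆ omega2 k U) :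
    IntegrableOn (fun z => ‖minor (gr f) s z‖ ^ 2) (W ∩ gr f ⁻¹' Q) := by
  have hW := H.isOpen_W
  set c := vf (sel s ∘ gr f) i₀ with hc
  obtain ⟨χ, hχ, hχc, hχO, hχ1, hχb⟩ := exists_bump
    ((hQ.image continuous_comp_inl).union (isCompact_closedBall (0 : Fin k → ℂ) (1 / 2)))
    (isOpen_polydisk k) (union_subset (by rintro _ ⟨y, hy, rfl⟩; exact (hQΩ hy).1)
      (by rw [polydisk_eq_ball]; exact closedBall_subset_ball (by norm_num)))
  obtain ⟨φ, hφ, hφc, hφO, hφ1, hφb⟩ := exists_bump (hQ.image continuous_comp_inr) H.isOpen_U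
    (by rintro _ ⟨y, hy, rfl⟩; exact (hQΩ hy).2)
  have hχ' : ContDiff ℝ 1 fun x => (χ x : ℂ) :=
    ofRealCLM.contDiff.comp (hχ.of_le (by exact_mod_cast le_top))
  have hφ' : ContDiff ℝ 1 fun x => (φ x : ℂ) :=
    ofRealCLM.contDiff.comp (hφ.of_le (by exact_mod_cast le_top))
  have hfC : ContDiffOn ℝ 1 f W :=
    (H.analytic.contDiffOn hW.uniqueDiffOn).restrict_scalars ℝ
  have hψ : ContDiffOn ℝ 1 (fun z => χ z * φ (f z)) W :=
    (hχ.of_le (by exact_mod_cast le_top)).contDiffOn.mul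
      ((hφ.of_le (by exact_mod_cast le_top)).comp_contDiffOn hfC)
  set Q' := {y : Fin k ⊕ Fin N → ℂ | y ∘ Sum.inl ∈ tsupport χ ∧ y ∘ Sum.inr ∈ tsupport φ}
  have hQ' : IsCompact Q' := isCompact_split hχc hφc
  have hQ'Ω : Q' ⊆ omega2 k U := fun y hy => ⟨hχO hy.1, hφO hy.2⟩
  set Q'' := {y : Fin k ⊕ Fin N → ℂ | y ∘ Sum.inl ∈ tsupport χ \ ball 0 (1 / 2) ∧
    y ∘ Sum.inr ∈ tsupport φ}
  have hQ'' : IsCompact Q'' := isCompact_split (hχc.isCompact.diff isOpen_ball) hφc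
  have hQ''Ω : Q'' ⊆ omega1 k U := fun y hy =>
    ⟨⟨hχO hy.1.1, fun h => hy.1.2 (by rw [mem_singleton_iff.1 h]; simp)⟩, hφO hy.2⟩
  obtain ⟨L₁, hL₁⟩ := (hχ'.continuous_fderiv one_ne_zero).bounded_above_of_compact_support
    ((hχc.comp_left (g := fun t : ℝ => (t : ℂ)) ofReal_zero).fderiv ℝ)
  obtain ⟨L₂, hL₂⟩ := (hφ'.continuous_fderiv one_ne_zero).bounded_above_of_compact_support
    ((hφc.comp_left (g := fun t : ℝ => (t : ℂ)) ofReal_zero).fderiv ℝ)
  obtain ⟨C, hC⟩ := H.nsq_vf_le (sel s) i₀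
  have hcomp : ∀ z ∈ W, ∀ m, Sum.elim (c z) (fderiv ℂ f z (c z)) m =
      minor (gr f) (Function.update s i₀ m) z := fun z hz m => by
    rw [← fderiv_gr (H.analytic z hz).differentiableAt,
      fderiv_vf_sel (H.analyticOnNhd_gr z hz).differentiableAt]
  have hE : IntegrableOn (fun z => ‖dz (fun y => ((χ y * φ (f y) : ℝ) : ℂ)) z (c z)‖ ^ 2) W := by
    have i1 := (H.integrableOn_vol₁ hQ'' hQ''Ω).const_mul (2 * L₁ ^ 2 * C)
    have i2 := (integrable_finsetSum Finset.univ fun m _ => ih m Q' hQ' hQ'Ω).const_mul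
      (2 * L₂ ^ 2)
    rw [← IntegrableOn, ← integrable_indicator_iff (H.measurableSet hQ''.isClosed)] at i1
    rw [← IntegrableOn, ← integrable_indicator_iff (H.measurableSet hQ'.isClosed)] at i2
    refine Integrable.mono' (i1.integrableOn.add i2.integrableOn) ?_ ?_
    · exact ((continuousOn_dz hW (ofRealCLM.contDiff.comp_contDiffOn hψ)
        (H.analyticOnNhd_vf _ i₀).continuousOn).norm.pow 2).aestronglyMeasurable hW.measurableSet
    refine (ae_restrict_iff' hW.measurableSet).2 (Eventually.of_forall fun z hz => ?_)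
    have hd := (H.analytic z hz).differentiableAt
    have hφd : DifferentiableAt ℝ (fun x => (φ x : ℂ)) (f z) := hφ'.differentiable one_ne_zero _
    simp only [ofReal_mul, Pi.add_apply]
    have hφf : DifferentiableAt ℝ (fun y => (φ (f y) : ℂ)) z := hφd.comp z (hd.restrictScalars ℝ)
    rw [Real.norm_of_nonneg (by positivity), dz_mul (hχ'.differentiable one_ne_zero _) hφf,
      dz_comp_holo hφd hd]
    have t1 : 2 * ‖dz (fun y => (χ y : ℂ)) z (c z) * (φ (f z) : ℂ)‖ ^ 2 ≤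
        (W ∩ gr f ⁻¹' Q'').indicator (fun z => 2 * L₁ ^ 2 * C * vol (gr f) z) z := by
      by_cases hzQ : gr f z ∈ Q''
      · rw [indicator_of_mem (show z ∈ W ∩ gr f ⁻¹' Q'' from ⟨hz, hzQ⟩), norm_mul]
        have h1 := (norm_dz_le (fun y => (χ y : ℂ)) z (c z)).trans
          (mul_le_mul_of_nonneg_right (hL₁ z) (norm_nonneg _))
        have h2 : ‖(φ (f z) : ℂ)‖ ≤ 1 := by
          rw [Complex.norm_real, Real.norm_of_nonneg (hφb _).1]; exact (hφb _).2
        have h3 := (norm_sq_le_nsq (c z)).trans (hC z hz)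
        have hL0 : 0 ≤ L₁ := (norm_nonneg _).trans (hL₁ 0)
        calc _ ≤ 2 * (L₁ * ‖c z‖ * 1) ^ 2 := by gcongr
          _ = 2 * L₁ ^ 2 * ‖c z‖ ^ 2 := by ring
          _ ≤ 2 * L₁ ^ 2 * (C * vol (gr f) z) := by gcongr
          _ = _ := by ring
      · rw [indicator_of_notMem (fun h => hzQ h.2)]
        have : dz (fun y => (χ y : ℂ)) z (c z) * (φ (f z) : ℂ) = 0 := by
          by_cases h1 : f z ∈ tsupport φ
          · have h2 : ∃ r : ℂ, (fun y => (χ y : ℂ)) =ᶠ[𝓝 z] fun _ => r := by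
              by_cases h3 : z ∈ tsupport χ
              · have h4 : z ∈ ball (0 : Fin k → ℂ) (1 / 2) := by
                  by_contra h4
                  exact hzQ ⟨⟨h3, h4⟩, h1⟩
                refine ⟨1, ?_⟩
                filter_upwards [isOpen_ball.mem_nhds h4] with y hy
                rw [hχ1 y (Or.inr (ball_subset_closedBall hy)), ofReal_one]
              · refine ⟨0, ?_⟩
                filter_upwards [notMem_tsupport_iff_eventuallyEq.1 h3] with y hy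
                rw [hy]; rfl
            obtain ⟨r, hr⟩ := h2
            rw [dz_congr hr, dz_const, zero_mul]
          · rw [image_eq_zero_of_notMem_tsupport h1]; simp
        rw [this]; simp
    have t2 : 2 * ‖(χ z : ℂ) * dz (fun y => (φ y : ℂ)) (f z) (fderiv ℂ f z (c z))‖ ^ 2 ≤
        (W ∩ gr f ⁻¹' Q').indicator (fun z => 2 * L₂ ^ 2 *
          ∑ m, ‖minor (gr f) (Function.update s i₀ (Sum.inr m)) z‖ ^ 2) z := by
      by_cases hzQ : gr f z ∈ Q'
      · rw [indicator_of_mem (show z ∈ W ∩ gr f ⁻¹' Q' from ⟨hz, hzQ⟩), norm_mul]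
        have h1 := (norm_dz_le (fun y => (φ y : ℂ)) (f z) (fderiv ℂ f z (c z))).trans
          (mul_le_mul_of_nonneg_right (hL₂ _) (norm_nonneg _))
        have h2 : ‖(χ z : ℂ)‖ ≤ 1 := by
          rw [Complex.norm_real, Real.norm_of_nonneg (hχb _).1]; exact (hχb _).2
        have h3 : ‖fderiv ℂ f z (c z)‖ ^ 2 ≤
            ∑ m, ‖minor (gr f) (Function.update s i₀ (Sum.inr m)) z‖ ^ 2 := by
          refine (norm_sq_le_nsq _).trans (le_of_eq ?_)
          refine Finset.sum_congr rfl fun m _ => ?_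
          rw [← hcomp z hz, Sum.elim_inr]
        have hL0 : 0 ≤ L₂ := (norm_nonneg _).trans (hL₂ 0)
        calc _ ≤ 2 * (1 * (L₂ * ‖fderiv ℂ f z (c z)‖)) ^ 2 := by gcongr
          _ = 2 * L₂ ^ 2 * ‖fderiv ℂ f z (c z)‖ ^ 2 := by ring
          _ ≤ _ := by gcongr
      · rw [indicator_of_notMem (fun h => hzQ h.2)]
        have : (χ z : ℂ) * dz (fun y => (φ y : ℂ)) (f z) (fderiv ℂ f z (c z)) = 0 := by
          by_cases h1 : z ∈ tsupport χ
          · have h3 : f z ∉ tsupport φ := fun h => hzQ ⟨h1, h⟩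
            have h2 : (fun y => (φ y : ℂ)) =ᶠ[𝓝 (f z)] fun _ => 0 := by
              filter_upwards [notMem_tsupport_iff_eventuallyEq.1 h3] with y hy
              rw [hy]; rfl
            rw [dz_congr h2, dz_const, mul_zero]
          · rw [image_eq_zero_of_notMem_tsupport h1]; simp
        rw [this]; simp
    refine le_trans ?_ (add_le_add t1 t2)
    set A := dz (fun y => (χ y : ℂ)) z (c z) * (φ (f z) : ℂ)
    set B := (χ z : ℂ) * dz (fun y => (φ y : ℂ)) (f z) (fderiv ℂ f z (c z))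
    calc ‖A + B‖ ^ 2 ≤ (‖A‖ + ‖B‖) ^ 2 := by gcongr; exact norm_add_le _ _
      _ ≤ _ := by nlinarith [sq_nonneg (‖A‖ - ‖B‖)]
  have hcut := H.cutData_origin (sel s) i₀ hψ (fun z _ => by
      rw [abs_of_nonneg (mul_nonneg (hχb _).1 (hφb _).1)]
      exact mul_le_one₀ (hχb _).2 (hφb _).1 (hφb _).2) hQ' hQ'Ω
    (fun z _ h => ⟨subset_tsupport _ (left_ne_zero_of_mul h),
      subset_tsupport _ (right_ne_zero_of_mul h)⟩) hE
  have hmeas := H.measurableSet hQ.isClosed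
  refine Integrable.mono' ((hcut.caccioppoli.mono_set inter_subset_left).const_mul ((k : ℝ) ^ 2))
    ?_ ?_
  · refine ContinuousOn.aestronglyMeasurable (fun z hz => ?_) hmeas
    exact ((analyticAt_minor (H.analyticOnNhd_gr z hz.1) s).continuousAt.norm.pow
      2).continuousWithinAt
  · refine (ae_restrict_iff' hmeas).2 (Eventually.of_forall fun z hz => ?_)
    have hk0 : (k : ℝ) ≠ 0 := by exact_mod_cast H.pos.ne'
    have h1 : χ z = 1 := hχ1 z (Or.inl ⟨gr f z, hz.2, rfl⟩)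
    have h2 : φ (f z) = 1 := hφ1 _ ⟨gr f z, hz.2, rfl⟩
    have h3 : minor (gr f) s z = c z l := by
      have := hcomp z hz.1 (Sum.inl l)
      rw [← hs, Function.update_eq_self, hs, Sum.elim_inl] at this
      exact this.symm
    rw [Real.norm_of_nonneg (by positivity), h1, h2, fderiv_smul_id, nsq_smul, h3, norm_inv,
      Complex.norm_natCast]
    field_simp
    exact norm_apply_sq_le_nsq _ _

theorem Setup.integrableOn_minor (H : Setup W I U f) (n : ℕ) :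
    ∀ s : Fin k → Fin k ⊕ Fin N, (Finset.univ.filter fun i => (s i).isLeft).card = n →
      ∀ Q, IsCompact Q → Q ⊆ omega2 k U →
        IntegrableOn (fun z => ‖minor (gr f) s z‖ ^ 2) (W ∩ gr f ⁻¹' Q) := by
  induction n with
  | zero =>
    intro s hs Q hQ hQΩ
    have h1 : ∀ i, ∃ m, s i = Sum.inr m := fun i => by
      have : i ∉ Finset.univ.filter fun i => (s i).isLeft := by
        rw [Finset.card_eq_zero.1 hs]; exact Finset.notMem_empty i
      rcases h : s i with l | m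
      · simp [h] at this
      · exact ⟨m, rfl⟩
    choose s' hs' using h1
    have h2 : s = Sum.inr ∘ s' := funext hs'
    have h3 := (H.top _ (hQ.image continuous_comp_inr)
      (by rintro _ ⟨y, hy, rfl⟩; exact (hQΩ hy).2) s').mono_set
      (show W ∩ gr f ⁻¹' Q ⊆ _ from fun z hz => ⟨hz.1, gr f z, hz.2, rfl⟩)
    refine h3.congr_fun (fun z hz => ?_) (H.measurableSet hQ.isClosed)
    simp only
    rw [h2, minor_gr_inr (H.analytic z hz.1).differentiableAt]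
  | succ n ih =>
    intro s hs Q hQ hQΩ
    obtain ⟨i₀, hi₀⟩ := Finset.card_pos.1 (lt_of_lt_of_eq n.succ_pos hs.symm)
    obtain ⟨l, hl⟩ := Sum.isLeft_iff.1 (Finset.mem_filter.1 hi₀).2
    refine H.minor_step hl (fun m => ih _ ?_) hQ hQΩ
    have : (Finset.univ.filter fun i => (Function.update s i₀ (Sum.inr m) i).isLeft) =
        (Finset.univ.filter fun i => (s i).isLeft).erase i₀ := by
      ext i
      by_cases h : i = i₀
      · simp [h]
      · simp [h]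
    rw [this, Finset.card_erase_of_mem hi₀, hs]; rfl

/-- Finite volume of the graph. -/
theorem Setup.integrableOn_vol₂ (H : Setup W I U f) {Q : Set (Fin k ⊕ Fin N → ℂ)}
    (hQ : IsCompact Q) (hQΩ : Q ⊆ omega2 k U) : IntegrableOn (vol (gr f)) (W ∩ gr f ⁻¹' Q) :=
  integrable_finsetSum Finset.univ fun s _ => H.integrableOn_minor _ s rfl Q hQ hQΩ

/-- Stokes formula across the origin. -/
theorem Setup.stokes₂ (H : Setup W I U f) (p : (Fin k ⊕ Fin N → ℂ) →L[ℂ] (Fin k → ℂ))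
    (i₀ : Fin k) : Stokes W (vf (p ∘ gr f) i₀) (Adm f (omega2 k U)) := by
  rintro a ha ⟨Q, hQ, hQO, haQ⟩ h2 h1
  obtain ⟨ψ, hψ, hψc, hψO, hψ1, hψb⟩ := exists_bump hQ (isOpen_omega2 H.isOpen_U) hQO
  have hψ' : ContDiff ℝ 1 ψ := hψ.of_le (by exact_mod_cast le_top)
  have hcut := H.cutData_origin p i₀ (ψ := fun z => ψ (gr f z)) (H.contDiffOn_comp hψ')
    (fun z _ => by rw [abs_of_nonneg (hψb _).1]; exact (hψb _).2) hψc hψO
    (fun z _ h => subset_tsupport _ h)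
    (H.energy_comp_of_support p i₀ hψ' hψc (H.integrableOn_vol₂ hψc hψO))
  exact hcut.stokes_step ha (fun z hz h => hψ1 _ (haQ ⟨hz, h⟩)) h2 h1

end Pool.Agent.Lib.MP_940f24_an
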