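import Pool.Agent.Lib.MP_940f24_an.Mixed

/-!
Finite volume of the graph and the Stokes formula over an open set `D` on which the closure of
the graph is analytic.
-/

open Set Filter Topology MeasureTheory Metric Complex
open scoped ContDiff

namespace Pool.Agent.Lib.MP_940f24_an

variable {k N : ℕ} {D W I : Set (Fin k → ℂ)} {U : Set (Fin N → ℂ)}
  {f : (Fin k → ℂ) → (Fin N → ℂ)}

/-- The set `D × U`. -/
def om (D : Set (Fin k → ℂ)) (U : Set (Fin N → ℂ)) : Set (Fin k ⊕ Fin N → ℂ) :=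
  {x | x ∘ Sum.inl ∈ D ∧ x ∘ Sum.inr ∈ U}

theorem isOpen_om (hD : IsOpen D) (hU : IsOpen U) : IsOpen (om D U) :=
  (hD.preimage continuous_comp_inl).inter (hU.preimage continuous_comp_inr)

/-- A holomorphic map on an open set. -/
structure Base (W : Set (Fin k → ℂ)) (f : (Fin k → ℂ) → (Fin N → ℂ)) : Prop where
  isOpen_W : IsOpen W
  analytic : AnalyticOnNhd ℂ f W

/-- The closure of the graph is analytic over `D`. -/
structure Pre (D W I : Set (Fin k → ℂ)) (U : Set (Fin N → ℂ))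
    (f : (Fin k → ℂ) → (Fin N → ℂ)) : Prop extends Base W f where
  isOpen_D : IsOpen D
  isOpen_U : IsOpen U
  subset : W ⊆ D \ I
  anAt_I : ∀ z ∈ D, AnAt I z
  dense_I : ∀ z ∈ D, z ∈ closure Iᶜ
  closed : ∀ x ∈ closure (gr f '' W), x ∈ om D U → x ∘ Sum.inl ∉ I → x ∈ gr f '' W
  anAt_graph : ∀ x ∈ om D U, AnAt (closure (gr f '' W)) x

theorem Base.analyticOnNhd_gr (H : Base W f) : AnalyticOnNhd ℂ (gr f) W :=
  fun z hz => analyticAt_gr (H.analytic z hz)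

theorem Base.measurableSet (H : Base W f) {Q : Set (Fin k ⊕ Fin N → ℂ)} (hQ : IsClosed Q) :
    MeasurableSet (W ∩ gr f ⁻¹' Q) :=
  measurableSet_inter_preimage H.isOpen_W H.analyticOnNhd_gr.continuousOn hQ

theorem Base.nsq_vf_le (H : Base W f) (p : (Fin k ⊕ Fin N → ℂ) →L[ℂ] (Fin k → ℂ))
    (i₀ : Fin k) : ∃ C : ℝ, ∀ z ∈ W, nsq (vf (p ∘ gr f) i₀ z) ≤ C * vol (gr f) z := by
  obtain ⟨C, hC⟩ := exists_fderiv_vf_le p i₀
  refine ⟨k * C, fun z hz => ?_⟩
  have hd := (H.analytic z hz).differentiableAt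
  have h1 := hC (gr f) z (H.analyticOnNhd_gr z hz).differentiableAt
  have h2 : ‖vf (p ∘ gr f) i₀ z‖ ≤ ‖fderiv ℂ (gr f) z (vf (p ∘ gr f) i₀ z)‖ := by
    refine (pi_norm_le_iff_of_nonneg (norm_nonneg _)).2 fun l => ?_
    have := norm_le_pi_norm (fderiv ℂ (gr f) z (vf (p ∘ gr f) i₀ z)) (Sum.inl l)
    rwa [fderiv_gr hd, Sum.elim_inl, ← fderiv_gr hd] at this
  have h3 := nsq_le_card_mul (vf (p ∘ gr f) i₀ z)
  rw [Fintype.card_fin] at h3
  calc _ ≤ k * ‖vf (p ∘ gr f) i₀ z‖ ^ 2 := h3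
    _ ≤ k * ‖fderiv ℂ (gr f) z (vf (p ∘ gr f) i₀ z)‖ ^ 2 := by gcongr
    _ ≤ k * (C * vol (gr f) z) := by gcongr
    _ = _ := by ring

section field
variable (p : (Fin k ⊕ Fin N → ℂ) →L[ℂ] (Fin k → ℂ)) (i₀ : Fin k)

theorem Base.analyticOnNhd_vf (H : Base W f) : AnalyticOnNhd ℂ (vf (p ∘ gr f) i₀) W :=
  fun z hz => analyticAt_vf ((p.analyticAt _).comp (H.analyticOnNhd_gr z hz)) i₀

theorem Base.cdiv_vf (H : Base W f) : ∀ z ∈ W, cdiv (vf (p ∘ gr f) i₀) z = 0 :=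
  fun z hz => MP_940f24_an.cdiv_vf ((p.analyticAt _).comp (H.analyticOnNhd_gr z hz)) i₀

theorem Base.contDiffOn_comp (H : Base W f) {Y : Type} [NormedAddCommGroup Y]
    [NormedSpace ℝ Y] {θ : (Fin k ⊕ Fin N → ℂ) → Y} (hθ : ContDiff ℝ 1 θ) :
    ContDiffOn ℝ 1 (fun z => θ (gr f z)) W :=
  hθ.comp_contDiffOn
    ((H.analyticOnNhd_gr.contDiffOn H.isOpen_W.uniqueDiffOn).restrict_scalars ℝ)

/-- The energy of an ambient function is controlled by the volume. -/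
theorem Base.energy_comp (H : Base W f) {θ : (Fin k ⊕ Fin N → ℂ) → ℂ} (hθ : ContDiff ℝ 1 θ)
    {Q : Set (Fin k ⊕ Fin N → ℂ)} (hQ : IsCompact Q)
    (hvol : IntegrableOn (vol (gr f)) (W ∩ gr f ⁻¹' Q)) :
    IntegrableOn (fun z => ‖dz (fun y => θ (gr f y)) z (vf (p ∘ gr f) i₀ z)‖ ^ 2)
      (W ∩ gr f ⁻¹' Q) := by
  obtain ⟨C, hC⟩ := exists_fderiv_vf_le p i₀
  obtain ⟨L, hL⟩ := hQ.exists_bound_of_continuousOn
    (hθ.continuous_fderiv one_ne_zero).continuousOn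
  have hmeas := H.measurableSet hQ.isClosed
  refine Integrable.mono' (hvol.const_mul (L ^ 2 * C)) ?_ ?_
  · refine ContinuousOn.aestronglyMeasurable ?_ hmeas
    exact (((continuousOn_dz H.isOpen_W (H.contDiffOn_comp hθ)
      (H.analyticOnNhd_vf p i₀).continuousOn).norm).pow 2).mono inter_subset_left
  · refine (ae_restrict_iff' hmeas).2 (Eventually.of_forall fun z hz => ?_)
    have hd := (H.analyticOnNhd_gr z hz.1).differentiableAt
    rw [Real.norm_of_nonneg (by positivity),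
      dz_comp_holo ((hθ.differentiable one_ne_zero) _) hd]
    have h1 := norm_dz_le θ (gr f z) (fderiv ℂ (gr f) z (vf (p ∘ gr f) i₀ z))
    have h2 := hL _ hz.2
    have h3 := hC (gr f) z hd
    have hL0 : 0 ≤ L := (norm_nonneg _).trans h2
    calc _ ≤ (L * ‖fderiv ℂ (gr f) z (vf (p ∘ gr f) i₀ z)‖) ^ 2 := by
          gcongr; exact h1.trans (by gcongr)
      _ = L ^ 2 * ‖fderiv ℂ (gr f) z (vf (p ∘ gr f) i₀ z)‖ ^ 2 := by ring
      _ ≤ L ^ 2 * (C * vol (gr f) z) := by gcongr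
      _ = _ := by ring

theorem Base.dz_eq_zero (H : Base W f) {a : (Fin k → ℂ) → ℂ}
    {Q : Set (Fin k ⊕ Fin N → ℂ)} (hQ : IsClosed Q) (ha : MapsTo (gr f) {z ∈ W | a z ≠ 0} Q)
    {z : Fin k → ℂ} (hz : z ∈ W) (hzQ : gr f z ∉ Q) (c : Fin k → ℂ) : dz a z c = 0 := by
  have : a =ᶠ[𝓝 z] fun _ => 0 := by
    filter_upwards [H.isOpen_W.mem_nhds hz, (H.analyticOnNhd_gr z hz).continuousAt.preimage_mem_nhds
      (hQ.isOpen_compl.mem_nhds hzQ)] with y hy1 hy2
    by_contra h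
    exact hy2 (ha ⟨hy1, h⟩)
  rw [dz_congr this, dz_const]

theorem Base.energy_comp_of_support (H : Base W f) {θ : (Fin k ⊕ Fin N → ℂ) → ℝ}
    (hθ : ContDiff ℝ 1 θ) (hQ : HasCompactSupport θ)
    (hvol : IntegrableOn (vol (gr f)) (W ∩ gr f ⁻¹' tsupport θ)) :
    IntegrableOn (fun z => ‖dz (fun y => (θ (gr f y) : ℂ)) z (vf (p ∘ gr f) i₀ z)‖ ^ 2) W := by
  have h1 := H.energy_comp p i₀ (θ := fun x => (θ x : ℂ)) (ofRealCLM.contDiff.comp hθ) hQ hvol
  refine h1.of_forall_sdiff_eq_zero H.isOpen_W.measurableSet fun z hz => ?_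
  rw [H.dz_eq_zero (isClosed_tsupport θ) (fun y hy => subset_tsupport _ ?_) hz.1
    (fun h => hz.2 ⟨hz.1, h⟩)]
  · simp
  · simpa using hy.2

/-- Multiplication by a bounded ambient function preserves the hypotheses of the Stokes
formula. -/
theorem Base.mul_ambient (H : Base W f) {θ : (Fin k ⊕ Fin N → ℂ) → ℂ} (hθ : ContDiff ℝ 1 θ)
    (hθb : ∀ x, ‖θ x‖ ≤ 1) {Q : Set (Fin k ⊕ Fin N → ℂ)} (hQ : IsCompact Q)
    (hvol : IntegrableOn (vol (gr f)) (W ∩ gr f ⁻¹' Q)) {a : (Fin k → ℂ) → ℂ}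
    (ha : ContDiffOn ℝ 1 a W) (haQ : MapsTo (gr f) {z ∈ W | a z ≠ 0} Q)
    (h2 : IntegrableOn (fun z => ‖a z‖ ^ 2) W)
    (h1 : IntegrableOn (fun z => dz a z (vf (p ∘ gr f) i₀ z)) W) :
    ContDiffOn ℝ 1 (fun z => θ (gr f z) * a z) W ∧
      IntegrableOn (fun z => ‖θ (gr f z) * a z‖ ^ 2) W ∧
      IntegrableOn (fun z => dz (fun y => θ (gr f y) * a y) z (vf (p ∘ gr f) i₀ z)) W := by
  have hW := H.isOpen_W
  have hθf := H.contDiffOn_comp hθ
  have hC : ContDiffOn ℝ 1 (fun z => θ (gr f z) * a z) W := hθf.mul ha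
  refine ⟨hC, ?_, ?_⟩
  · refine Integrable.mono' h2
      ((hC.continuousOn.norm.pow 2).aestronglyMeasurable hW.measurableSet)
      (Eventually.of_forall fun z => ?_)
    rw [Real.norm_of_nonneg (by positivity), norm_mul]
    gcongr
    exact mul_le_of_le_one_left (norm_nonneg _) (hθb _)
  · have hE := H.energy_comp p i₀ hθ hQ hvol
    rw [← integrable_indicator_iff (H.measurableSet hQ.isClosed)] at hE
    refine Integrable.mono' ((hE.integrableOn.add h2).add h1.norm)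
      ((continuousOn_dz hW hC (H.analyticOnNhd_vf p i₀).continuousOn).aestronglyMeasurable
        hW.measurableSet) ?_
    refine (ae_restrict_iff' hW.measurableSet).2 (Eventually.of_forall fun z hz => ?_)
    rw [dz_mul ((hθf.differentiableOn one_ne_zero z hz).differentiableAt (hW.mem_nhds hz))
      ((ha.differentiableOn one_ne_zero z hz).differentiableAt (hW.mem_nhds hz))]
    refine (norm_add_le _ _).trans (add_le_add ?_ ?_)
    · simp only [Pi.add_apply]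
      by_cases haz : a z = 0
      · rw [haz, mul_zero, norm_zero]
        exact add_nonneg (indicator_nonneg (fun _ _ => by positivity) _) (by positivity)
      · rw [indicator_of_mem (show z ∈ W ∩ gr f ⁻¹' Q from ⟨hz, haQ ⟨hz, haz⟩⟩), norm_mul]
        nlinarith [sq_nonneg (‖dz (fun y => θ (gr f y)) z (vf (p ∘ gr f) i₀ z)‖ - ‖a z‖),
          norm_nonneg (dz (fun y => θ (gr f y)) z (vf (p ∘ gr f) i₀ z)), norm_nonneg (a z)]
    · rw [norm_mul]
      exact mul_le_of_le_one_left (norm_nonneg _) (hθb _)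

end field

end Pool.Agent.Lib.MP_940f24_an
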