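import Pool.Agent.Lib.MP_940f24_an.Param

/-!
Consequences of local parametrization.
-/

open Set Filter Topology MeasureTheory Metric Complex Polynomial
open scoped ENNReal

namespace Pool.Agent.Lib.MP_940f24_an

variable {E : Type} [NormedAddCommGroup E] [NormedSpace ℂ E] [FiniteDimensional ℂ E]

omit [FiniteDimensional ℂ E] in
theorem AnAt.inter_zero_comp {Y : Type} [NormedAddCommGroup Y] [NormedSpace ℂ Y] {A : Set E}
    {a : E} (hA : AnAt A a) (p : E →L[ℂ] Y) {q : Y → ℂ} (hq : AnalyticAt ℂ q (p a)) :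
    AnAt (A ∩ {x | q (p x) = 0}) a :=
  hA.inter (anAt_zero_set (hq.comp (p.analyticAt a)))

/-- A local inclusion passes to the closures. -/
theorem eventually_mem_closure_mono {X : Type} [TopologicalSpace X] {S Z : Set X} {y : X}
    (h : ∀ᶠ x in 𝓝 y, x ∈ S → x ∈ Z) : ∀ᶠ x in 𝓝 y, x ∈ closure S → x ∈ closure Z := by
  filter_upwards [h.eventually_nhds] with x hx hxS
  rw [mem_closure_iff_frequently] at hxS ⊢
  exact (hxS.and_eventually hx).mono fun z hz => hz.2 hz.1

theorem finite_locally_const_values_aux {a : E} {h : E → ℂ} (hh : AnalyticAt ℂ h a) (d : ℕ) :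
    ∀ A : Set E, AnAt A a → HasGood A a d →
    ∃ V ∈ 𝓝 a, {c | ∃ x ∈ A ∩ V, h x = c ∧ ∀ᶠ y in 𝓝 x, y ∈ A → h y = c}.Finite := by
  induction d with
  | zero =>
    intro A _ hg
    refine ⟨_, hg.isolated, (finite_singleton (h a)).subset ?_⟩
    rintro c ⟨x, ⟨hxA, hxV⟩, rfl, -⟩
    rw [hxV hxA]
    exact mem_singleton _
  | succ d ih =>
    rintro A hA ⟨p, hg⟩
    obtain ⟨D, hD, m, P, hP, hPA, hroot⟩ := integral_of_good hA hg hh
    obtain ⟨V, hVo, haV, -, -, q, hq, hqne, hsh⟩ := local_param hA hg (V₀ := univ) univ_mem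
    obtain ⟨V', hV', hfin⟩ := ih _ (hA.inter_zero_comp p hq) (hg.drop hq hqne)
    obtain ⟨r, hr, hball⟩ := Metric.mem_nhds_iff.1 (inter_mem hD hsh)
    have hpre : p ⁻¹' ball (p a) r ∈ 𝓝 a :=
      p.continuous.continuousAt.preimage_mem_nhds (ball_mem_nhds _ hr)
    refine ⟨_, inter_mem (inter_mem hpre (hVo.mem_nhds haV)) (inter_mem hV' hPA.eventually_nhds),
      (hfin.insert (h a)).subset ?_⟩
    rintro c ⟨x, ⟨hxA, ⟨hxb, hxV⟩, hxV', hxP⟩, hc, hloc⟩
    by_cases hqx : q (p x) = 0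
    · refine mem_insert_of_mem _ ⟨x, ⟨⟨hxA, hqx⟩, hxV'⟩, hc, ?_⟩
      filter_upwards [hloc] with y hy hyA using hy hyA.1
    · left
      obtain ⟨σ, hσ, hσx, hσS, -⟩ := ((hball hxb).2 hqx).exists_section ⟨hxA, hxV⟩
      have ht : Tendsto σ (𝓝 (p x)) (𝓝 x) := by
        have := hσ.continuousAt.tendsto
        rwa [hσx] at this
      have hz : (fun w => (P w).eval c) =ᶠ[𝓝 (p x)] 0 := by
        filter_upwards [hσS, ht.eventually hloc, ht.eventually hxP] with w hw h1 h2
        have h3 := h2 hw.1.1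
        rwa [hw.2, h1 hw.1.1] at h3
      have han : AnalyticOnNhd ℂ (fun w => (P w).eval c) (ball (p a) r) := fun w hw =>
        hP.analyticAt_eval (φ := fun w => w) (g := fun _ => c) analyticAt_id analyticAt_const
          (hball hw).1
      exact hroot c (han.eqOn_zero_of_preconnected_of_eventuallyEq_zero
        (convex_ball _ _).isPreconnected hxb hz (mem_ball_self hr))

/-- A holomorphic function takes finitely many values at the points near `a` where it is locally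
constant on `A`. -/
theorem finite_locally_const_values {A : Set E} {a : E} (hA : AnAt A a) {h : E → ℂ}
    (hh : AnalyticAt ℂ h a) :
    ∃ V ∈ 𝓝 a, {c | ∃ x ∈ A ∩ V, h x = c ∧ ∀ᶠ y in 𝓝 x, y ∈ A → h y = c}.Finite :=
  finite_locally_const_values_aux hh _ A hA (hasGood_finrank A a)

theorem finite_locally_const_values_pi {A : Set E} {a : E} (hA : AnAt A a) {ι : Type}
    [Fintype ι] {h : E → (ι → ℂ)} (hh : AnalyticAt ℂ h a) :
    ∃ V ∈ 𝓝 a, {c | ∃ x ∈ A ∩ V, h x = c ∧ ∀ᶠ y in 𝓝 x, y ∈ A → h y = c}.Finite := by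
  have hi : ∀ i, AnalyticAt ℂ (fun x => h x i) a := fun i =>
    ((ContinuousLinearMap.proj i : (ι → ℂ) →L[ℂ] ℂ).analyticAt (h a)).comp hh
  choose V hV hfin using fun i => finite_locally_const_values hA (hi i)
  refine ⟨⋂ i, V i, iInter_mem.2 hV, (Finite.pi' hfin).subset ?_⟩
  rintro c ⟨x, ⟨hxA, hxV⟩, hc, hloc⟩ i
  refine ⟨x, ⟨hxA, mem_iInter.1 hxV i⟩, congrFun hc i, ?_⟩
  filter_upwards [hloc] with y hy hyA using congrFun (hy hyA) i

theorem dimH_le_of_forall_nhdsWithin {X : Type} [EMetricSpace X] [SecondCountableTopology X]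
    {S : Set X} {r : ℝ≥0∞} (h : ∀ x ∈ S, ∃ t ∈ 𝓝[S] x, dimH t ≤ r) : dimH S ≤ r := by
  by_contra hlt
  obtain ⟨x, hx, hall⟩ := exists_mem_nhdsWithin_lt_dimH_of_lt_dimH (not_le.1 hlt)
  obtain ⟨t, ht, hle⟩ := h x hx
  exact absurd (hall t ht) (not_lt.2 hle)

theorem dimH_univ_fin_complex (n : ℕ) : dimH (univ : Set (Fin n → ℂ)) = 2 * (n : ℝ≥0∞) := by
  rw [Real.dimH_univ_eq_finrank, Module.finrank_pi_fintype]
  simp [mul_comm]

theorem HasGood.dimH_le_aux {a : E} (d : ℕ) : ∀ A : Set E, AnAt A a → HasGood A a d →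
    ∃ V ∈ 𝓝 a, dimH (A ∩ V) ≤ 2 * (d : ℝ≥0∞) := by
  have : ProperSpace E := FiniteDimensional.proper ℂ E
  induction d with
  | zero =>
    intro A _ hg
    refine ⟨_, hg.isolated, ?_⟩
    have : (A ∩ {x | x ∈ A → x = a}).Subsingleton := fun x hx y hy =>
      (hx.2 hx.1).trans (hy.2 hy.1).symm
    rw [this.dimH_zero]
    exact zero_le
  | succ d ih =>
    rintro A hA ⟨p, hg⟩
    obtain ⟨V, hVo, haV, -, -, q, hq, hqne, hsh⟩ := local_param hA hg (V₀ := univ) univ_mem
    obtain ⟨V', hV', hdim⟩ := ih _ (hA.inter_zero_comp p hq) (hg.drop hq hqne)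
    have hpre := p.continuous.continuousAt.preimage_mem_nhds hsh
    refine ⟨_, inter_mem (inter_mem hpre (hVo.mem_nhds haV)) hV', ?_⟩
    set S : Set E := {x | x ∈ A ∩ V ∧ Sheets p (A ∩ V) (p x)} with hS
    have hSdim : dimH S ≤ 2 * ((d + 1 : ℕ) : ℝ≥0∞) := by
      refine dimH_le_of_forall_nhdsWithin fun x hx => ?_
      obtain ⟨σ, hσ, hσx, -, hσS⟩ := hx.2.exists_section hx.1
      obtain ⟨K, t, ht, hlip⟩ := (hσ.contDiffAt (n := 1)).exists_lipschitzOnWith
      refine ⟨σ '' t, ?_, ?_⟩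
      · have h1 := p.continuous.continuousAt.preimage_mem_nhds ht
        filter_upwards [self_mem_nhdsWithin, mem_nhdsWithin_of_mem_nhds h1,
          mem_nhdsWithin_of_mem_nhds hσS] with y hyS hyt hy
        exact ⟨p y, hyt, hy hyS.1⟩
      · exact hlip.dimH_image_le.trans
          ((dimH_mono (subset_univ t)).trans (dimH_univ_fin_complex _).le)
    refine le_trans (dimH_mono (t := S ∪ (A ∩ {x | q (p x) = 0} ∩ V')) ?_) ?_
    · rintro x ⟨hxA, ⟨hx1, hxV⟩, hxV'⟩
      by_cases hqx : q (p x) = 0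
      · exact Or.inr ⟨⟨hxA, hqx⟩, hxV'⟩
      · exact Or.inl ⟨⟨hxA, hxV⟩, hx1 hqx⟩
    · rw [dimH_union]
      refine max_le hSdim (hdim.trans ?_)
      gcongr
      exact Nat.le_succ d

theorem HasGood.dimH_le {A : Set E} {a : E} (hA : AnAt A a) {d : ℕ} (hg : HasGood A a d) :
    ∃ V ∈ 𝓝 a, dimH (A ∩ V) ≤ 2 * (d : ℝ≥0∞) :=
  HasGood.dimH_le_aux d A hA hg

/-- The nonvanishing locus of a holomorphic function which is nowhere locally zero. -/
theorem removable_ne_zero {Y : Type} [NormedAddCommGroup Y] [NormedSpace ℂ Y]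
    [FiniteDimensional ℂ Y] {D : Set Y} (hD : IsOpen D) {q : Y → ℂ}
    (hq : ∀ w ∈ D, AnalyticAt ℂ q w ∧ ¬ q =ᶠ[𝓝 w] 0) : Removable D (D ∩ {w | q w ≠ 0}) := by
  refine removable_of_thinIn hD ?_ inter_subset_left fun w hw => ⟨q, (hq w hw).1, (hq w hw).2, ?_⟩
  · rw [isOpen_iff_mem_nhds]
    rintro w ⟨hw, hqw⟩
    exact inter_mem (hD.mem_nhds hw) ((hq w hw).1.continuousAt.eventually_ne hqw)
  · refine Eventually.of_forall fun y hy => ?_
    by_contra hne
    exact hy.2 ⟨hy.1, hne⟩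

theorem AnAt.closure_diff_aux {B : Set E} {a : E} (hB : AnAt B a) (d : ℕ) :
    ∀ A : Set E, AnAt A a → HasGood A a d → AnAt (closure (A \ B)) a := by
  induction d with
  | zero =>
    intro A _ hg
    by_cases ha : a ∈ closure (A \ B)
    · refine (anAt_singleton a a).congr ?_
      have h1 : ∀ᶠ x in 𝓝 a, x ∈ A \ B → x ∈ ({a} : Set E) := by
        filter_upwards [hg.isolated] with x hx hxA using hx hxA.1
      filter_upwards [eventually_mem_closure_mono h1] with x hx
      rw [closure_singleton] at hx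
      refine ⟨fun h => ?_, hx⟩
      rw [mem_singleton_iff.1 h]
      exact ha
    · exact anAt_of_notMem_closure (by rwa [closure_closure])
  | succ d ih =>
    rintro A hA ⟨p, hg⟩
    obtain ⟨V, hVo, haV, hVsub, -, q, hq, hqne, hsh⟩ := local_param hA hg
      (inter_mem hB.eventually (ball_mem_nhds a one_pos))
    have hA' := ih _ (hA.inter_zero_comp p hq) (hg.drop hq hqne)
    obtain ⟨r, hr, hball⟩ := Metric.mem_nhds_iff.1
      (inter_mem (eventually_not_eventuallyEq_zero hq hqne) hsh)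
    have hR := removable_ne_zero (isOpen_ball (x := p a) (ε := r)) fun w hw => (hball hw).1
    have hbdd : Bornology.IsBounded (A ∩ V ∩ closure ((A ∩ V) \ B)) :=
      (isBounded_ball (x := a) (r := 1)).subset fun x hx => (hVsub hx.1.2).2
    have hT := anAt_closure_of_sheets (p := p) isOpen_ball (convex_ball _ _).isPreconnected hR hbdd
      (fun w hw => ((hball hw.1).2 hw.2).inter_closure_diff fun x hx _ => (hVsub hx.2).1) a
      (mem_ball_self hr)
    refine (hT.union hA').congr ?_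
    have hpre : p ⁻¹' ball (p a) r ∈ 𝓝 a :=
      p.continuous.continuousAt.preimage_mem_nhds (ball_mem_nhds _ hr)
    have h1 : ∀ᶠ x in 𝓝 a, x ∈ A \ B →
        x ∈ (A ∩ V ∩ closure ((A ∩ V) \ B) ∩ p ⁻¹' (ball (p a) r ∩ {w | q w ≠ 0})) ∪
          ((A ∩ {x | q (p x) = 0}) \ B) := by
      filter_upwards [hpre, hVo.mem_nhds haV] with x hx hxV hxA
      by_cases hqx : q (p x) = 0
      · exact Or.inr ⟨⟨hxA.1, hqx⟩, hxA.2⟩
      · exact Or.inl ⟨⟨⟨hxA.1, hxV⟩, subset_closure ⟨⟨hxA.1, hxV⟩, hxA.2⟩⟩, hx, hqx⟩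
    filter_upwards [eventually_mem_closure_mono h1] with x hx
    rw [closure_union] at hx
    refine ⟨?_, hx⟩
    rintro (h | h)
    · refine closure_minimal (fun y hy => ?_) isClosed_closure h
      exact closure_mono (sdiff_subset_sdiff_left inter_subset_left) hy.1.2
    · exact closure_mono (sdiff_subset_sdiff_left inter_subset_left) h

/-- The closure of a difference of analytic sets is analytic. -/
theorem AnAt.closure_diff {A B : Set E} {a : E} (hA : AnAt A a) (hB : AnAt B a) :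
    AnAt (closure (A \ B)) a :=
  hB.closure_diff_aux _ A hA (hasGood_finrank A a)

end Pool.Agent.Lib.MP_940f24_an
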