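import Pool.Agent.Lib.MP_940f24_an.Lelong
import Pool.Agent.Lib.MP_940f24_an.Struct

/-!
The converse: the closure of a graph which is analytic has locally finite volume.
-/

open Set Filter Topology MeasureTheory Metric Complex
open scoped ENNReal Matrix

namespace Pool.Agent.Lib.MP_940f24_an

variable {k : ℕ} {ι : Type} [Fintype ι]

theorem det_mul_eq_sum (P : Matrix (Fin k) ι ℂ) (J : Matrix ι (Fin k) ℂ) :
    (P * J).det = ∑ s : Fin k → ι, (∏ i, P i (s i)) * (J.submatrix s id).det := by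
  have h2 : (P * J).det = detCMM k (fun i => ∑ m, P i m • J m) := by
    refine congrArg Matrix.det ?_
    ext i l
    simp [Matrix.mul_apply]
  rw [h2, ContinuousMultilinearMap.map_sum]
  refine Finset.sum_congr rfl fun s _ => ?_
  rw [ContinuousMultilinearMap.map_smul_univ]
  rfl

theorem cauchy_binet (P : Matrix (Fin k) ι ℂ) (J : Matrix ι (Fin k) ℂ) :
    k.factorial * (P * J).det =
      ∑ s : Fin k → ι, (P.submatrix id s).det * (J.submatrix s id).det := by
  have h : ∀ σ : Equiv.Perm (Fin k), (P * J).det = ∑ s : Fin k → ι,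
      ((Equiv.Perm.sign σ : ℤ) * ∏ i, P i (s (σ i))) * (J.submatrix s id).det := fun σ => by
    rw [det_mul_eq_sum, ← (Equiv.arrowCongr σ.symm (Equiv.refl ι)).sum_comp]
    refine Finset.sum_congr rfl fun s _ => ?_
    have : J.submatrix ((Equiv.arrowCongr σ.symm (Equiv.refl ι)) s) id =
      (J.submatrix s id).submatrix σ id := rfl
    rw [this, Matrix.det_permute]
    simp only [Equiv.arrowCongr_apply, Equiv.symm_symm, Equiv.coe_refl, Function.comp_apply, id]
    ring
  calc _ = ∑ _σ : Equiv.Perm (Fin k), (P * J).det := by simp [Fintype.card_perm]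
    _ = _ := by
      rw [Finset.sum_congr rfl fun σ _ => h σ, Finset.sum_comm]
      refine Finset.sum_congr rfl fun s _ => ?_
      rw [← Finset.sum_mul, ← Matrix.det_transpose (P.submatrix id s),
        Matrix.det_apply' (P.submatrix id s)ᵀ]
      rfl

theorem factorial_mul_det_le {H : Matrix ι ι ℂ} {M : ℝ} (hM : ∀ a b, ‖H a b‖ ≤ M)
    (J : Matrix ι (Fin k) ℂ) : k.factorial * (Jᴴ * H * J).det.re ≤
      |M| ^ k * Fintype.card (Fin k → ι) * ∑ s : Fin k → ι, ‖(J.submatrix s id).det‖ ^ 2 := by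
  have h1 : ∀ s : Fin k → ι, ‖((Jᴴ * H).submatrix id s).det‖ ≤
      |M| ^ k * ∑ t : Fin k → ι, ‖(J.submatrix t id).det‖ := fun s => by
    have : (Jᴴ * H).submatrix id s = ((H.submatrix id s)ᴴ * J)ᴴ := by
      rw [Matrix.conjTranspose_mul, Matrix.conjTranspose_conjTranspose]
      rfl
    rw [this, Matrix.det_conjTranspose, norm_star, det_mul_eq_sum, Finset.mul_sum]
    refine (norm_sum_le _ _).trans (Finset.sum_le_sum fun t _ => ?_)
    rw [norm_mul, norm_prod]
    refine mul_le_mul_of_nonneg_right ?_ (norm_nonneg _)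
    calc _ ≤ ∏ _i : Fin k, |M| := Finset.prod_le_prod (fun _ _ => norm_nonneg _) fun i _ => by
          rw [Matrix.conjTranspose_apply, norm_star]
          exact (hM _ _).trans (le_abs_self M)
      _ = _ := by simp
  have h2 : k.factorial * (Jᴴ * H * J).det.re = (k.factorial * (Jᴴ * H * J).det).re := by simp
  rw [h2, cauchy_binet]
  refine (re_le_norm _).trans ((norm_sum_le _ _).trans ?_)
  calc _ ≤ ∑ s : Fin k → ι, (|M| ^ k * ∑ t : Fin k → ι, ‖(J.submatrix t id).det‖) *
        ‖(J.submatrix s id).det‖ := Finset.sum_le_sum fun s _ => by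
          rw [norm_mul]
          exact mul_le_mul_of_nonneg_right (h1 s) (norm_nonneg _)
    _ = |M| ^ k * (∑ s : Fin k → ι, ‖(J.submatrix s id).det‖) ^ 2 := by
          rw [← Finset.mul_sum]; ring
    _ ≤ _ := by
          rw [mul_assoc]
          exact mul_le_mul_of_nonneg_left sq_sum_le_card_mul_sum_sq (by positivity)

/-- An analytic set with a dense relatively open part of dimension at most `2 k`. -/
theorem dimH_le_of_dense {E : Type} [NormedAddCommGroup E] [NormedSpace ℂ E]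
    [FiniteDimensional ℂ E] {A G : Set E} {a : E} (hA : AnAt A a) (hG : dimH G ≤ 2 * (k : ℝ≥0∞))
    (hd : ∀ᶠ x in 𝓝 a, x ∈ A → x ∈ closure {y ∈ A | ∀ᶠ x in 𝓝 y, x ∈ A → x ∈ G}) :
    ∃ U ∈ 𝓝 a, dimH (A ∩ U) ≤ 2 * (k : ℝ≥0∞) := by
  have : CompleteSpace E := FiniteDimensional.complete ℂ E
  suffices h : ∀ d, HasGood A a d → _ from h _ (hasGood_finrank A a)
  intro d
  induction d with
  | zero => exact fun hg => (hg.dimH_le hA).imp fun U h => ⟨h.1, h.2.trans (by simp)⟩
  | succ d ih =>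
    intro hg
    rcases le_or_gt (d + 1) k with hk | hk
    · exact (hg.dimH_le hA).imp fun U h => ⟨h.1, h.2.trans (by gcongr)⟩
    obtain ⟨p, hg⟩ := hg
    obtain ⟨V, hVo, haV, -, -, q, hq, hqne, hsh⟩ := local_param hA hg (V₀ := univ) univ_mem
    refine ih ((hg.drop hq hqne).mono ?_)
    have hp := p.continuous.continuousAt (x := a)
    filter_upwards [hd, hVo.mem_nhds haV, hp.eventually hsh.eventually_nhds,
      hp.eventually hq.eventually_analyticAt] with x h1 h2 h3 h4 hx
    refine ⟨hx, by_contra fun h0 => ?_⟩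
    obtain ⟨y, ⟨k1, k2, k3⟩, k4, k5⟩ := mem_closure_iff_nhds.1 (h1 hx) _ (inter_mem
      (hVo.mem_nhds h2) (p.continuous.continuousAt.eventually
        (h3.and (h4.continuousAt.eventually_ne h0))))
    obtain ⟨σ, hσ, hσy, hσS, -⟩ := (k2 k3).exists_section ⟨k4, k1⟩
    have h5 : p '' G ∈ 𝓝 (p y) := by
      filter_upwards [hσS, hσ.continuousAt.eventually (hσy.symm ▸ k5)] with w k6 k7
      exact ⟨σ w, k7 k6.1.1, k6.2⟩
    have h6 := (p.lipschitz.dimH_image_le G).trans hG
    rw [Real.dimH_of_mem_nhds h5, ← Real.dimH_univ_eq_finrank, dimH_univ_fin_complex] at h6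
    have h7 : 2 * (d + 1) ≤ 2 * k := by exact_mod_cast h6
    omega

theorem lelong_of_dimH {W : Set (Fin k → ℂ)} (hW : IsOpen W)
    {F : (Fin k → ℂ) → (ι → ℂ)} (hF : AnalyticOnNhd ℂ F W) (hinj : InjOn F W)
    {A : Set (ι → ℂ)} {a : ι → ℂ} (hA : AnAt A a) (hFA : MapsTo F W A)
    (hdim : ∃ U ∈ 𝓝 a, dimH (A ∩ U) ≤ 2 * (k : ℝ≥0∞)) :
    ∃ V, IsOpen V ∧ a ∈ V ∧ IntegrableOn (vol F) (W ∩ F ⁻¹' V) := by
  classical
  let Φ : ((ι → ℂ) →L[ℂ] (Fin k → ℂ)) → ((Fin k → ι) → ℂ) :=
    fun p s => ∏ i, p (Pi.single (s i) 1) i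
  have hΦ : Continuous Φ := continuous_pi fun s => continuous_finsetProd _ fun i _ =>
    (continuous_apply i).comp (continuous_eval_const _)
  have hall : ∀ p, Φ p ∈ sqIntCoeff W F a := fun p => by
    refine ((sqIntCoeff W F a).closed_of_finiteDimensional.preimage hΦ).closure_subset
      (Metric.mem_closure_iff.2 fun ε hε => ?_)
    obtain ⟨q, hq, hgood⟩ := exists_good_near hA (h := fun _ => 1) analyticAt_const
      (Eventually.of_forall fun x hx => subset_closure ⟨hx, one_ne_zero⟩)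
      (hdim.imp fun U h => ⟨h.1, (dimH_mono (inter_subset_inter_left _
        inter_subset_left)).trans h.2⟩) p hε
    exact ⟨q, mem_sqIntCoeff_of_good hW hF hinj hA hFA hgood, by rwa [dist_comm, dist_eq_norm]⟩
  have hmin : ∀ s : Fin k → ι, ∃ V, IsOpen V ∧ a ∈ V ∧
      IntegrableOn (fun z => ‖minor F s z‖ ^ 2) (W ∩ F ⁻¹' V) := by
    intro s₀
    obtain ⟨V, hV, haV, hmem⟩ := hall (sel s₀)
    have hm := (hF.continuousOn.isOpen_inter_preimage hW hV).measurableSet
    refine ⟨V, hV, haV, ((memLp_two_iff_integrable_sq_norm hmem.1).1 hmem).congr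
      ((ae_restrict_iff' hm).2 (Eventually.of_forall fun z hz => ?_))⟩
    simp only [Φ, ← det_jac_comp (hF z hz.1).differentiableAt,
      det_jac_sel (hF z hz.1).differentiableAt]
  choose V hV haV hint using hmin
  exact ⟨⋂ s, V s, isOpen_iInter_of_finite hV, mem_iInter.2 haV, integrable_finsetSum _
    fun s _ => (hint s).mono_set fun z hz => ⟨hz.1, mem_iInter.1 hz.2 s⟩⟩

end Pool.Agent.Lib.MP_940f24_an
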