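import Pool.Agent.Lib.MP_940f24_an.Bishop
import Pool.Agent.Lib.MP_940f24_an.PBase

/-!
A graph of locally finite volume with the Stokes formula in `Ω`: dimension of the closure and a
proper projection.
-/

open Set Filter Topology MeasureTheory Metric Complex
open scoped ContDiff ENNReal ComplexConjugate

namespace Pool.Agent.Lib.MP_940f24_an

variable {k N : ℕ} {W : Set (Fin k → ℂ)} {Ω : Set (Fin k ⊕ Fin N → ℂ)}
  {f : (Fin k → ℂ) → (Fin N → ℂ)}

/-- Locally finite volume and the Stokes formula in the open set `Ω`. -/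
structure Core (W : Set (Fin k → ℂ)) (f : (Fin k → ℂ) → (Fin N → ℂ))
    (Ω : Set (Fin k ⊕ Fin N → ℂ)) : Prop extends Base W f where
  pos : 0 < k
  isOpen_Ω : IsOpen Ω
  integrableOn_vol₂ : ∀ {Q : Set (Fin k ⊕ Fin N → ℂ)}, IsCompact Q → Q ⊆ Ω →
    IntegrableOn (vol (gr f)) (W ∩ gr f ⁻¹' Q)
  stokes₂ : ∀ (p : (Fin k ⊕ Fin N → ℂ) →L[ℂ] (Fin k → ℂ)) (i₀ : Fin k),
    Stokes W (vf (p ∘ gr f) i₀) (Adm f Ω)

theorem Core.dimH_closure_le (H : Core W f Ω) {x : Fin k ⊕ Fin N → ℂ}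
    (hx : x ∈ Ω) :
    ∃ V ∈ 𝓝 x, dimH (closure (gr f '' W) ∩ V) ≤ 2 * (k : ℝ≥0∞) := by
  obtain ⟨R, hR, hsub⟩ := Metric.nhds_basis_closedBall.mem_iff.1
    (H.isOpen_Ω.mem_nhds hx)
  obtain ⟨c, hc, hden⟩ := exists_density_lower k H.pos (Fin k ⊕ Fin N)
  have hQ : IsCompact (closedBall x R) := isCompact_closedBall x R
  have hmeas := H.measurableSet hQ.isClosed
  have hvol := H.integrableOn_vol₂ hQ hsub
  set ν : Measure (Fin k → ℂ) := (volume.restrict (W ∩ gr f ⁻¹' closedBall x R)).withDensity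
    fun z => ENNReal.ofReal (vol (gr f) z) with hν
  have hae : AEMeasurable (gr f) ν :=
    ((H.analyticOnNhd_gr.continuousOn.mono inter_subset_left).aemeasurable hmeas).mono_ac
      (withDensity_absolutelyContinuous _ _)
  have hfin : IsFiniteMeasure ν := isFiniteMeasure_withDensity_ofReal hvol.2
  have hdim := dimH_closure_le_of_density (ν.map (gr f)) (S := gr f '' W ∩ ball x (R / 2))
    hc (half_pos hR) (d := 2 * k) (by
      rintro _ ⟨⟨z, hz, rfl⟩, hzx⟩ r hr hrR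
      have hball : closedBall (gr f z) r ⊆ closedBall x R :=
        closedBall_subset_closedBall' (by have := mem_ball.1 hzx; linarith)
      rw [Measure.map_apply_of_aemeasurable hae measurableSet_closedBall, hν, withDensity_apply',
        Measure.restrict_restrict' hmeas]
      refine (hden W (gr f) (Adm f Ω) H.isOpen_W H.analyticOnNhd_gr
        (fun s i₀ => H.stokes₂ (sel s) i₀) Adm.mono z hz
        ⟨Sum.inl, by rw [minor_gr_inl (H.analytic z hz).differentiableAt]; exact one_ne_zero⟩ r hr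
        ⟨_, hQ, hsub, fun y hy => hball hy.2⟩
        (hvol.mono_set (inter_subset_inter_right _ (preimage_mono hball)))).trans ?_
      exact lintegral_mono_set fun y hy => ⟨hy.2, hy.1, hball hy.2⟩)
  refine ⟨ball x (R / 2), ball_mem_nhds _ (half_pos hR), le_trans (dimH_mono ?_)
    (hdim.trans (by push_cast; exact le_rfl))⟩
  exact isOpen_ball.closure_inter

/-- A projection which is proper on the closure of the graph and generically unramified. -/
theorem Core.exists_projection (H : Core W f Ω) {x : Fin k ⊕ Fin N → ℂ}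
    (hx : x ∈ Ω) :
    ∃ (p : (Fin k ⊕ Fin N → ℂ) →L[ℂ] (Fin k → ℂ)) (O K : Set (Fin k ⊕ Fin N → ℂ)) (r : ℝ),
      IsOpen O ∧ x ∈ O ∧ IsCompact K ∧ K ⊆ O ∧ O ⊆ Ω ∧
      0 < r ∧ (∀ y ∈ closure (gr f '' W) ∩ O, p y ∈ ball (p x) r → y ∈ K) ∧
      W ⊆ closure {z ∈ W | (jac (p ∘ gr f) z).det ≠ 0} := by
  obtain ⟨V, hV, hdim⟩ := H.dimH_closure_le hx
  obtain ⟨R, hR, hsub⟩ := Metric.nhds_basis_closedBall.mem_iff.1
    (inter_mem hV (H.isOpen_Ω.mem_nhds hx))
  set S₀ := closure (gr f '' W) ∩ closedBall x R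
  have hS₀ : IsCompact S₀ := (isCompact_closedBall x R).inter_left isClosed_closure
  let T : (Fin k ⊕ Fin N → ℂ) → (Fin k → ℂ) × (Fin N → ℂ) := fun y => splitEquiv k N (y - x)
  obtain ⟨C, hT⟩ : ∃ C, LipschitzWith C T := by
    have h1 : LipschitzWith 1 fun y : Fin k ⊕ Fin N → ℂ => y - x :=
      LipschitzWith.of_dist_le_mul fun a b => by simp
    exact ⟨_, (splitEquiv k N).lipschitz.comp h1⟩
  have hS : IsCompact (T '' S₀) := hS₀.image hT.continuous
  have hSdim : dimH (T '' S₀) ≤ 2 * (k : ℝ≥0∞) :=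
    (hT.dimH_image_le _).trans ((dimH_mono (inter_subset_inter_right _
      (hsub.trans inter_subset_left))).trans hdim)
  obtain ⟨hUo, hUd⟩ := isOpen_dense_goodPlanes_radius hS hSdim le_rfl (half_pos hR)
  obtain ⟨t, htW, htc, hWt⟩ :=
    (TopologicalSpace.IsSeparable.of_separableSpace W).exists_countable_dense_subset
  have hd := dense_biInter_of_isOpen
    (fun z hz => (isOpen_dense_det_ne_zero (H.analytic z (htW hz))).1) htc
    (fun z hz => (isOpen_dense_det_ne_zero (H.analytic z (htW hz))).2)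
  obtain ⟨B, hB1, hB2, ρ, hρ, hgood⟩ := (hd.inter_of_isOpen_right hUd hUo).inter_open_nonempty
    (ball 0 (1 / 2)) isOpen_ball (nonempty_ball.2 (by norm_num))
  rw [mem_ball_zero_iff] at hB1
  have hcinr : Continuous fun y : Fin k ⊕ Fin N → ℂ => ‖(y - x) ∘ Sum.inr‖ :=
    (continuous_comp_inr.comp (continuous_id.sub continuous_const)).norm
  have hcp : Continuous fun y : Fin k ⊕ Fin N → ℂ => ‖planeProj B (y - x)‖ :=
    ((planeProj B).continuous.comp (continuous_id.sub continuous_const)).norm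
  obtain ⟨r₀, hr₀, hlow⟩ : ∃ r₀ : ℝ, 0 < r₀ ∧
      ∀ y ∈ S₀ ∩ {y | ‖(y - x) ∘ Sum.inr‖ = ρ}, r₀ ≤ ‖planeProj B (y - x)‖ := by
    refine (hS₀.inter_right (isClosed_eq hcinr continuous_const)).exists_forall_le'
      hcp.continuousOn fun y hy => norm_pos_iff.2 fun h0 => ?_
    rw [planeProj_apply, sub_eq_zero] at h0
    exact hgood.2 (T y) (mem_image_of_mem _ hy.1) h0 hy.2
  refine ⟨planeProj B, ball x R ∩ {y | ‖(y - x) ∘ Sum.inr‖ < ρ},
    S₀ ∩ ({y | ‖(y - x) ∘ Sum.inr‖ ≤ ρ} ∩ {y | ‖planeProj B (y - x)‖ ≤ min (r₀ / 2) (R / 4)}),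
    min (r₀ / 2) (R / 4), isOpen_ball.inter (isOpen_lt hcinr continuous_const),
    ⟨mem_ball_self hR, by simpa using hρ.1⟩,
    hS₀.inter_right ((isClosed_le hcinr continuous_const).inter (isClosed_le hcp continuous_const)),
    ?_, fun y hy => (hsub (ball_subset_closedBall hy.1)).2, by positivity, ?_, ?_⟩
  · rintro y ⟨hy1, hy2, hy3⟩
    simp only [mem_ofPred_eq] at hy2 hy3
    have h1 : ‖(y - x) ∘ Sum.inr‖ < ρ := by
      refine lt_of_le_of_ne hy2 fun h => ?_
      have := (hlow y ⟨hy1, h⟩).trans (hy3.trans (min_le_left _ _))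
      linarith
    refine ⟨?_, h1⟩
    have h2 : ‖(y - x) ∘ Sum.inl‖ < R := by
      have h3 : (y - x) ∘ Sum.inl = planeProj B (y - x) + B ((y - x) ∘ Sum.inr) := by
        rw [planeProj_apply, sub_add_cancel]
      have h4 : ‖B ((y - x) ∘ Sum.inr)‖ ≤ 1 / 2 * (R / 2) :=
        (B.le_opNorm _).trans (mul_le_mul hB1.le (h1.le.trans hρ.2.le) (norm_nonneg _)
          (by norm_num))
      have h5 := hy3.trans (min_le_right _ _)
      rw [h3]
      exact (norm_add_le _ _).trans_lt (by linarith)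
    rw [mem_ball_iff_norm, pi_norm_lt_iff hR]
    rintro (l | m)
    · exact (norm_le_pi_norm ((y - x) ∘ Sum.inl) l).trans_lt h2
    · exact (norm_le_pi_norm ((y - x) ∘ Sum.inr) m).trans_lt (by linarith [hρ.2])
  · rintro y ⟨hy1, hy2, hy3⟩ hy4
    have hy5 : ‖(y - x) ∘ Sum.inr‖ < ρ := hy3
    refine ⟨⟨hy1, ball_subset_closedBall hy2⟩, hy5.le, ?_⟩
    rw [mem_ball_iff_norm, ← map_sub] at hy4
    exact hy4.le
  · refine hWt.trans (closure_mono fun z hz => ⟨htW hz, ?_⟩)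
    exact mem_iInter₂.1 hB2 z hz

section cover
variable {p : (Fin k ⊕ Fin N → ℂ) →L[ℂ] (Fin k → ℂ)} {O K : Set (Fin k ⊕ Fin N → ℂ)}
  {D : Set (Fin k → ℂ)}

theorem Core.isOpen_part (H : Core W f Ω) (hO : IsOpen O) (hD : IsOpen D) :
    IsOpen (W ∩ gr f ⁻¹' (O ∩ p ⁻¹' D)) :=
  H.analyticOnNhd_gr.continuousOn.isOpen_inter_preimage H.isOpen_W
    (hO.inter (hD.preimage p.continuous))

theorem Core.analyticOnNhd_proj (H : Core W f Ω) : AnalyticOnNhd ℂ (p ∘ gr f) W :=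
  fun z hz => (p.analyticAt _).comp (H.analyticOnNhd_gr z hz)

theorem Core.integrableOn_det (H : Core W f Ω) (hO : IsOpen O) (hD : IsOpen D)
    (hK : IsCompact K) (hKΩ : K ⊆ Ω)
    (hprop : ∀ y ∈ closure (gr f '' W) ∩ O, p y ∈ D → y ∈ K) :
    IntegrableOn (fun z => ‖(jac (p ∘ gr f) z).det‖ ^ 2) (W ∩ gr f ⁻¹' (O ∩ p ⁻¹' D)) := by
  obtain ⟨C, hC⟩ := exists_det_jac_comp_le p
  have hmeas := (H.isOpen_part (p := p) hO hD).measurableSet
  have hvol := (H.integrableOn_vol₂ hK hKΩ).mono_set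
    (show W ∩ gr f ⁻¹' (O ∩ p ⁻¹' D) ⊆ _ from fun z hz =>
      ⟨hz.1, hprop _ ⟨subset_closure (mem_image_of_mem _ hz.1), hz.2.1⟩ hz.2.2⟩)
  refine Integrable.mono' (hvol.const_mul C) ?_ ?_
  · refine ContinuousOn.aestronglyMeasurable (fun z hz => ?_) hmeas
    exact ((analyticAt_det_jac (H.analyticOnNhd_proj z hz.1)).continuousAt.norm.pow
      2).continuousWithinAt
  · refine (ae_restrict_iff' hmeas).2 (Eventually.of_forall fun z hz => ?_)
    rw [Real.norm_of_nonneg (by positivity)]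
    exact hC _ z (H.analyticOnNhd_gr z hz.1).differentiableAt

end cover

end Pool.Agent.Lib.MP_940f24_an
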