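import Pool.Agent.Lib.MP_940f24_an.PCoreA

/-!
A graph of locally finite volume with the Stokes formula in `Ω` has analytic closure in `Ω`.
-/

open Set Filter Topology MeasureTheory Metric Complex
open scoped ContDiff ENNReal ComplexConjugate

namespace Pool.Agent.Lib.MP_940f24_an

variable {k N : ℕ} {W : Set (Fin k → ℂ)} {Ω : Set (Fin k ⊕ Fin N → ℂ)}
  {f : (Fin k → ℂ) → (Fin N → ℂ)}

section cover
variable {p : (Fin k ⊕ Fin N → ℂ) →L[ℂ] (Fin k → ℂ)} {O K : Set (Fin k ⊕ Fin N → ℂ)}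
  {D : Set (Fin k → ℂ)}

/-- The Stokes formula gives weak holomorphy of the trace. -/
theorem Core.integral_trace_eq_zero (H : Core W f Ω) (hO : IsOpen O) (hD : IsOpen D)
    (hK : IsCompact K) (hKO : K ⊆ O) (hKΩ : K ⊆ Ω)
    (hprop : ∀ y ∈ closure (gr f '' W) ∩ O, p y ∈ D → y ∈ K)
    {b : (Fin k ⊕ Fin N → ℂ) → ℂ} (hb : AnalyticOnNhd ℂ b univ) {η : (Fin k → ℂ) → ℂ}
    (hη : ContDiff ℝ ∞ η) (hηc : HasCompactSupport η) (hηD : tsupport η ⊆ D) (i : Fin k) :
    ∫ z in W ∩ gr f ⁻¹' (O ∩ p ⁻¹' D), conj (b (gr f z)) * dz η (p (gr f z)) (Pi.single i 1) *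
      ((‖(jac (p ∘ gr f) z).det‖ ^ 2 : ℝ) : ℂ) = 0 := by
  have hW := H.isOpen_W
  set W₀ := W ∩ gr f ⁻¹' (O ∩ p ⁻¹' D) with hW₀
  have hmeas : MeasurableSet W₀ := (H.isOpen_part (p := p) hO hD).measurableSet
  have hint := H.integrableOn_det hO hD hK hKΩ hprop
  have hη1 : ContDiff ℝ 1 η := hη.of_le (by exact_mod_cast le_top)
  obtain ⟨Mb, hMb⟩ := hK.exists_bound_of_continuousOn (hb.continuousOn.mono (subset_univ K))
  obtain ⟨Mη, hMη⟩ := hη.continuous.bounded_above_of_compact_support hηc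
  obtain ⟨L, hL⟩ := (hη1.continuous_fderiv one_ne_zero).bounded_above_of_compact_support
    (hηc.fderiv ℝ)
  have hK₀ : ∀ z ∈ W₀, gr f z ∈ K := fun z hz =>
    hprop _ ⟨subset_closure (mem_image_of_mem _ hz.1), hz.2.1⟩ hz.2.2
  let β : (Fin k → ℂ) → ℂ := fun z => b (gr f z) * (jac (p ∘ gr f) z).det
  have hβ : AnalyticOnNhd ℂ β W := fun z hz =>
    ((hb _ trivial).comp (H.analyticOnNhd_gr z hz)).mul
      (analyticAt_det_jac (H.analyticOnNhd_proj z hz))
  let a₀ : (Fin k → ℂ) → ℂ := fun z => η (p (gr f z)) * conj (β z)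
  let a : (Fin k → ℂ) → ℂ := (gr f ⁻¹' O).indicator a₀
  let e : (Fin k → ℂ) → ℂ := fun z => conj (b (gr f z)) * dz η (p (gr f z)) (Pi.single i 1) *
      ((‖(jac (p ∘ gr f) z).det‖ ^ 2 : ℝ) : ℂ)
  have hsupp : ∀ z ∈ W, a z ≠ 0 → z ∈ W₀ := fun z hz h => by
    have h1 : z ∈ gr f ⁻¹' O := mem_of_indicator_ne_zero h
    simp only [a, indicator_of_mem h1] at h
    exact ⟨hz, h1, hηD (subset_tsupport _ (left_ne_zero_of_mul h))⟩
  have haK : MapsTo (gr f) {z ∈ W | a z ≠ 0} K := fun z hz => hK₀ z (hsupp z hz.1 hz.2)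
  have hin : ∀ z ∈ W, gr f z ∈ O → a =ᶠ[𝓝 z] a₀ := fun z hz h => by
    filter_upwards [(H.analyticOnNhd_gr z hz).continuousAt.preimage_mem_nhds (hO.mem_nhds h)]
      with y hy using indicator_of_mem hy _
  have hout : ∀ z ∈ W, gr f z ∉ O → a =ᶠ[𝓝 z] fun _ => 0 := fun z hz h => by
    filter_upwards [hW.mem_nhds hz, (H.analyticOnNhd_gr z hz).continuousAt.preimage_mem_nhds
      (hK.isClosed.isOpen_compl.mem_nhds fun h' => h (hKO h'))] with y hy1 hy2
    by_contra h'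
    exact hy2 (haK ⟨hy1, h'⟩)
  have hηg : ∀ z ∈ W, ContDiffAt ℝ 1 (fun y => η (p (gr f y))) z := fun z hz =>
    hη1.contDiffAt.comp z ((H.analyticOnNhd_proj z hz).contDiffAt.restrict_scalars ℝ)
  have hβc : ∀ z ∈ W, ContDiffAt ℝ 1 (fun y => conj (β y)) z := fun z hz =>
    contDiffAt_conj ((hβ z hz).contDiffAt.restrict_scalars ℝ)
  have ha : ContDiffOn ℝ 1 a W := fun z hz => by
    refine ContDiffAt.contDiffWithinAt ?_
    by_cases h : gr f z ∈ O
    · exact ((hηg z hz).mul (hβc z hz)).congr_of_eventuallyEq (hin z hz h)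
    · exact contDiffAt_const.congr_of_eventuallyEq (hout z hz h)
  have hdz : ∀ z ∈ W, dz a z (vf (p ∘ gr f) i z) = W₀.indicator e z := fun z hz => by
    by_cases h : gr f z ∈ O
    · have h1 : dz a z (vf (p ∘ gr f) i z) = e z := by
        rw [dz_congr (hin z hz h), dz_mul ((hηg z hz).differentiableAt one_ne_zero)
          ((hβc z hz).differentiableAt one_ne_zero), dz_conj_holo (hβ z hz).differentiableAt,
          mul_zero, add_zero]
        have h2 := dz_comp_holo (G := p ∘ gr f) (z := z) (hη1.differentiable one_ne_zero _)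
          (H.analyticOnNhd_proj z hz).differentiableAt (vf (p ∘ gr f) i z)
        simp only [Function.comp_apply] at h2
        rw [h2, fderiv_vf_self, dz_smul_vec]
        simp only [e, β, map_mul, ofReal_pow, ← Complex.mul_conj']
        ring
      rw [h1]
      by_cases h3 : p (gr f z) ∈ D
      · rw [indicator_of_mem (show z ∈ W₀ from ⟨hz, h, h3⟩)]
      · rw [indicator_of_notMem (fun h4 => h3 h4.2.2)]
        have h4 : η =ᶠ[𝓝 (p (gr f z))] fun _ => 0 :=
          notMem_tsupport_iff_eventuallyEq.1 fun h5 => h3 (hηD h5)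
        simp only [e]
        rw [dz_congr h4, dz_const, mul_zero, zero_mul]
    · rw [dz_congr (hout z hz h), dz_const, indicator_of_notMem (fun h4 => h h4.2.1)]
  have hMb0 : ∀ z ∈ W₀, ‖b (gr f z)‖ ≤ Mb := fun z hz => hMb _ (hK₀ z hz)
  have h2 : IntegrableOn (fun z => ‖a z‖ ^ 2) W := by
    refine IntegrableOn.of_forall_sdiff_eq_zero (s := W₀) ?_ hW.measurableSet fun z hz => ?_
    · refine Integrable.mono' (hint.const_mul ((Mη * Mb) ^ 2))
        (((ha.continuousOn.mono inter_subset_left).norm.pow 2).aestronglyMeasurable hmeas) ?_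
      refine (ae_restrict_iff' hmeas).2 (Eventually.of_forall fun z hz => ?_)
      rw [Real.norm_of_nonneg (by positivity), ← mul_pow]
      have h3 : a z = a₀ z := indicator_of_mem (show z ∈ gr f ⁻¹' O from hz.2.1) _
      have h4 := hMb0 z hz
      have h5 := hMη (p (gr f z))
      have h6 : 0 ≤ Mη := (norm_nonneg _).trans h5
      rw [h3]
      simp only [a₀, β, norm_mul, Complex.norm_conj, mul_assoc]
      gcongr
    · have : a z = 0 := by
        by_contra h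
        exact hz.2 (hsupp z hz.1 h)
      rw [this]; simp
  have he : IntegrableOn e W₀ := by
    refine Integrable.mono' (hint.const_mul (Mb * L)) ?_ ?_
    · refine AEStronglyMeasurable.congr
        (((continuousOn_dz hW ha (H.analyticOnNhd_vf p i).continuousOn).mono
          inter_subset_left).aestronglyMeasurable hmeas) ?_
      refine (ae_restrict_iff' hmeas).2 (Eventually.of_forall fun z hz => ?_)
      exact (hdz z hz.1).trans (indicator_of_mem hz _)
    · refine (ae_restrict_iff' hmeas).2 (Eventually.of_forall fun z hz => ?_)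
      have h4 := hMb0 z hz
      have h5 : ‖dz η (p (gr f z)) (Pi.single i 1)‖ ≤ L := by
        refine (norm_dz_le _ _ _).trans ?_
        rw [Pi.norm_single, norm_one, mul_one]
        exact hL _
      have h6 : 0 ≤ Mb := (norm_nonneg _).trans h4
      simp only [e, norm_mul, Complex.norm_conj, Complex.norm_real]
      rw [Real.norm_of_nonneg (by positivity)]
      gcongr
  have h1 : IntegrableOn (fun z => dz a z (vf (p ∘ gr f) i z)) W :=
    (((integrable_indicator_iff hmeas).2 he).integrableOn).congr_fun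
      (fun z hz => (hdz z hz).symm) hW.measurableSet
  have h0 := H.stokes₂ p i a ha ⟨K, hK, hKΩ, haK⟩ h2 h1
  rw [setIntegral_congr_fun hW.measurableSet hdz, setIntegral_indicator hmeas,
    inter_eq_self_of_subset_right inter_subset_left] at h0
  exact h0

/-- The trace of a holomorphic function is holomorphic. -/
theorem Core.exists_trace (H : Core W f Ω) {w₀ : Fin k → ℂ} {r : ℝ} (hr : 0 < r)
    (hO : IsOpen O) (hK : IsCompact K) (hKO : K ⊆ O) (hKΩ : K ⊆ Ω)
    (hprop : ∀ y ∈ closure (gr f '' W) ∩ O, p y ∈ ball w₀ r → y ∈ K)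
    {b : (Fin k ⊕ Fin N → ℂ) → ℂ} (hb : AnalyticOnNhd ℂ b univ) :
    ∃ G : (Fin k → ℂ) → ℂ, AnalyticOnNhd ℂ G (ball w₀ (r / 2)) ∧ ∀ᵐ w, w ∈ ball w₀ (r / 2) →
      (∑ᶠ z ∈ regFibre (p ∘ gr f) (W ∩ gr f ⁻¹' (O ∩ p ⁻¹' ball w₀ r)) w, b (gr f z)) = G w := by
  set W₀ := W ∩ gr f ⁻¹' (O ∩ p ⁻¹' ball w₀ r) with hW₀
  have hW₀o : IsOpen W₀ := H.isOpen_part (p := p) hO isOpen_ball
  have hint := H.integrableOn_det hO isOpen_ball hK hKΩ hprop
  have hg : AnalyticOnNhd ℂ (p ∘ gr f) W₀ := H.analyticOnNhd_proj.mono inter_subset_left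
  obtain ⟨Mb, hMb⟩ := hK.exists_bound_of_continuousOn (hb.continuousOn.mono (subset_univ K))
  have hMb0 : ∀ z ∈ W₀, ‖b (gr f z)‖ ≤ Mb := fun z hz =>
    hMb _ (hprop _ ⟨subset_closure (mem_image_of_mem _ hz.1), hz.2.1⟩ hz.2.2)
  have hbc : ContinuousOn (fun z => b (gr f z)) W₀ := fun z hz =>
    ((hb _ trivial).comp (H.analyticOnNhd_gr z hz.1)).continuousAt.continuousWithinAt
  refine weyl (area_formula hW₀o hg hint hbc hMb0).1 hr fun η hη hηc hηD i => ?_
  have hη1 : ContDiff ℝ 1 η := hη.of_le (by exact_mod_cast le_top)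
  obtain ⟨L, hL⟩ := (hη1.continuous_fderiv one_ne_zero).bounded_above_of_compact_support
    (hηc.fderiv ℝ)
  have hdc : Continuous fun w => dz η w (Pi.single i 1) :=
    continuousOn_univ.1 (continuousOn_dz isOpen_univ hη1.contDiffOn continuousOn_const)
  have h1 := (area_formula hW₀o hg hint
    (b := fun z => conj (b (gr f z)) * dz η (p (gr f z)) (Pi.single i 1))
    ((continuous_conj.comp_continuousOn hbc).mul (hdc.comp_continuousOn hg.continuousOn))
    (M := Mb * L) (fun z hz => by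
      have h4 := hMb0 z hz
      have h5 : ‖dz η (p (gr f z)) (Pi.single i 1)‖ ≤ L := by
        refine (norm_dz_le _ _ _).trans ?_
        rw [Pi.norm_single, norm_one, mul_one]
        exact hL _
      have h6 : 0 ≤ Mb := (norm_nonneg _).trans h4
      rw [norm_mul, Complex.norm_conj]
      gcongr)).2
  rw [H.integral_trace_eq_zero hO isOpen_ball hK hKO hKΩ hprop hb hη hηc hηD i] at h1
  rw [← h1]
  refine integral_congr_ae ?_
  filter_upwards [ae_finite_regFibre hW₀o hg hint] with w hw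
  rw [finsum_mem_eq_finite_toFinset_sum _ hw, finsum_mem_eq_finite_toFinset_sum _ hw, map_sum,
    Finset.sum_mul]
  refine Finset.sum_congr rfl fun z hz => ?_
  have : p (gr f z) = w := (hw.mem_toFinset.1 hz).2.2
  rw [this]

end cover

theorem Core.anAt_closure (H : Core W f Ω) {x : Fin k ⊕ Fin N → ℂ} (hx : x ∈ Ω) :
    AnAt (closure (gr f '' W)) x := by
  obtain ⟨p, O, K, r, hO, hxO, hK, hKO, hOΩ, hr, hprop, hdense⟩ := H.exists_projection hx
  have hKΩ := hKO.trans hOΩ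
  set W₀ := W ∩ gr f ⁻¹' (O ∩ p ⁻¹' ball (p x) r) with hW₀
  set D := ball (p x) (r / 2) with hD
  have hW₀o : IsOpen W₀ := H.isOpen_part (p := p) hO isOpen_ball
  have hint := H.integrableOn_det hO isOpen_ball hK hKΩ hprop
  have hg : AnalyticOnNhd ℂ (p ∘ gr f) W₀ := H.analyticOnNhd_proj.mono inter_subset_left
  have hfin := ae_finite_regFibre hW₀o hg hint
  obtain ⟨G₀, hG₀, hG₀ae⟩ := H.exists_trace hr hO hK hKO hKΩ hprop (b := fun _ => 1)
    fun _ _ => analyticAt_const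
  have hcard : ∀ᵐ w, w ∈ D → ∀ hw : (regFibre (p ∘ gr f) W₀ w).Finite,
      G₀ w = hw.toFinset.card := by
    filter_upwards [hG₀ae] with w hw hwD hf
    rw [← hw hwD, finsum_mem_eq_finite_toFinset_sum _ hf]
    simp
  obtain ⟨m, hm⟩ := exists_const_nat (convex_ball (p x) (r / 2)).isPreconnected hG₀.continuousOn
    (subset_closure_of_ae isOpen_ball (by
      filter_upwards [hcard, hfin] with w h1 h2 h3
      exact ⟨_, (h1 h3 h2).symm⟩))
  obtain ⟨L, hL⟩ := exists_separating_family (Fin k ⊕ Fin N → ℂ) m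
  have htr : ∀ (l : (Fin k ⊕ Fin N → ℂ) →L[ℂ] ℂ) (j : ℕ), _ := fun l j =>
    H.exists_trace hr hO hK hKO hKΩ hprop (b := fun y => l y ^ j)
      fun y _ => (l.analyticAt y).pow j
  choose G hG hGae using htr
  let P : (Fin k → ℂ) → Prop := fun w => ∃ hw : (regFibre (p ∘ gr f) W₀ w).Finite,
    hw.toFinset.card = m ∧
      ∀ l ∈ L, ∀ j, (∑ᶠ z ∈ regFibre (p ∘ gr f) W₀ w, l (gr f z) ^ j) = G l j w
  have hPae : ∀ᵐ w, w ∈ D → P w := by
    have h1 : ∀ᵐ w, ∀ l ∈ L, ∀ j, w ∈ D →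
        (∑ᶠ z ∈ regFibre (p ∘ gr f) W₀ w, l (gr f z) ^ j) = G l j w :=
      (ae_ball_iff L.countable_toSet).2 fun l _ => ae_all_iff.2 fun j => hGae l j
    filter_upwards [hcard, hfin, h1] with w h2 h3 h4 h5
    refine ⟨h3, ?_, fun l hl j => h4 l hl j h5⟩
    have := (h2 h5 h3).symm.trans (hm w h5)
    exact_mod_cast this
  have hGd := subset_closure_of_ae isOpen_ball hPae
  classical
  let Z : (Fin k → ℂ) → Multiset (Fin k ⊕ Fin N → ℂ) := fun w =>
    if hw : (regFibre (p ∘ gr f) W₀ w).Finite then hw.toFinset.val.map (gr f) else 0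
  have hZ : ∀ w, P w → ∀ y, y ∈ Z w ↔ ∃ z ∈ regFibre (p ∘ gr f) W₀ w, gr f z = y := by
    rintro w ⟨hw, -⟩ y
    simp [Z, dif_pos hw]
  have hmain := anAt_closure_of_psum (p := p) (G := {w ∈ D | P w}) isOpen_ball (sep_subset _ _)
    hGd (m := m) Z (by
      rintro w ⟨-, hw, h1, -⟩
      simp [Z, dif_pos hw, h1])
    (by
      rintro w hw y hy
      obtain ⟨z, hz, rfl⟩ := (hZ w hw.2 y).1 hy
      exact hz.2.2) hK
    (by
      rintro w hw y hy
      obtain ⟨z, hz, rfl⟩ := (hZ w hw.2 y).1 hy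
      exact hprop _ ⟨subset_closure (mem_image_of_mem _ hz.1.1), hz.1.2.1⟩ hz.1.2.2) hL
    (fun l hl j => ⟨G l j, hG l j, by
      rintro w ⟨-, hw, -, h1⟩
      rw [← h1 l hl j, finsum_mem_eq_finite_toFinset_sum _ hw]
      simp only [Z, dif_pos hw, Multiset.map_map]
      rfl⟩) x (mem_ball_self (half_pos hr))
  refine hmain.congr ?_
  have hO' : IsOpen (O ∩ p ⁻¹' D) := hO.inter (isOpen_ball.preimage p.continuous)
  filter_upwards [hO'.mem_nhds ⟨hxO, mem_ball_self (half_pos hr)⟩] with y hy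
  constructor
  · refine fun h => closure_mono ?_ h
    rintro y ⟨w, hw, hy⟩
    obtain ⟨z, hz, rfl⟩ := (hZ w hw.2 y).1 hy
    exact mem_image_of_mem _ hz.1.1
  · intro h
    refine closure_minimal ?_ isClosed_closure (hO'.inter_closure ⟨hy, h⟩)
    rintro _ ⟨hzO, z, hz, rfl⟩
    have h1 : z ∈ closure {z' | z' ∈ W₀ ∧ (jac (p ∘ gr f) z').det ≠ 0 ∧
        p (gr f z') ∈ {w ∈ D | P w}} := by
      rw [_root_.mem_closure_iff]
      intro S hS hzS
      have hW₁ : IsOpen (W ∩ gr f ⁻¹' (O ∩ p ⁻¹' D)) := H.isOpen_part (p := p) hO isOpen_ball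
      obtain ⟨z₁, ⟨hz₁S, hz₁W⟩, -, hz₁d⟩ := _root_.mem_closure_iff.1 (hdense hz) _
        (hS.inter hW₁) ⟨hzS, hz, hzO⟩
      have hz₁a := H.analyticOnNhd_proj (p := p) z₁ hz₁W.1
      have hn : S ∩ (W ∩ gr f ⁻¹' (O ∩ p ⁻¹' D)) ∩ {z' | (jac (p ∘ gr f) z').det ≠ 0} ∈ 𝓝 z₁ :=
        inter_mem ((hS.inter hW₁).mem_nhds ⟨hz₁S, hz₁W⟩)
          ((analyticAt_det_jac hz₁a).continuousAt.eventually_ne hz₁d)
      obtain ⟨_, ⟨z₂, ⟨⟨h₁, h₂⟩, h₃⟩, rfl⟩, h₄⟩ := mem_closure_iff_nhds.1 (hGd hz₁W.2.2) _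
        (image_mem_nhds_of_det_ne_zero hz₁a hz₁d hn)
      exact ⟨z₂, h₁, ⟨h₂.1, h₂.2.1, ball_subset_ball (half_le_self hr.le) h₂.2.2⟩, h₃, h₄⟩
    refine closure_mono ?_ (mem_closure_image (H.analyticOnNhd_gr z hz).continuousAt h1)
    rintro _ ⟨z', ⟨h₁, h₂, h₃⟩, rfl⟩
    exact ⟨_, h₃, (hZ _ h₃.2 _).2 ⟨z', ⟨h₁, h₂, rfl⟩, rfl⟩⟩

end Pool.Agent.Lib.MP_940f24_an
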