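import Pool.Agent.Lib.MP_940f24_an.Cutoff

/-!
The basic identity of the Caccioppoli inequality for a positive function `w` with
plurisubharmonic logarithm: `b = X w`, `e = X (conj b)` and `|b| ^ 2 ≤ w e`.
-/

open Set Filter Topology MeasureTheory Metric Complex
open scoped ContDiff ComplexConjugate

namespace Pool.Agent.Lib.MP_940f24_an

variable {k : ℕ}

/-- A function `w` with values in `(0, 1]` whose logarithm is subharmonic along `c`. -/
structure PFun (W : Set (Fin k → ℂ)) (c : (Fin k → ℂ) → (Fin k → ℂ))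
    (𝒦 : Set (Fin k → ℂ) → Prop) (w : (Fin k → ℂ) → ℝ) (b : (Fin k → ℂ) → ℂ)
    (e : (Fin k → ℂ) → ℝ) : Prop where
  isOpen : IsOpen W
  hc : ContinuousOn c W
  stokes : Stokes W c 𝒦
  mono : ∀ S T, T ⊆ S → 𝒦 S → 𝒦 T
  hw : ∀ z ∈ W, ContDiffAt ℝ 1 w z
  mem : ∀ z ∈ W, w z ∈ Ioc (0 : ℝ) 1
  dzw : ∀ z ∈ W, dz (fun y => (w y : ℂ)) z (c z) = b z
  hb : ∀ z ∈ W, ContDiffAt ℝ 1 (fun y => conj (b y)) z
  dzb : ∀ z ∈ W, dz (fun y => conj (b y)) z (c z) = e z
  psh : ∀ z ∈ W, ‖b z‖ ^ 2 ≤ w z * e z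
  energy : ∀ S, MeasurableSet S → S ⊆ W → 𝒦 S → IntegrableOn e S

/-- Data for removing the set `w = 0`. -/
structure PCut (W : Set (Fin k → ℂ)) (c : (Fin k → ℂ) → (Fin k → ℂ))
    (𝒦 : Set (Fin k → ℂ) → Prop) (w : (Fin k → ℂ) → ℝ) (b : (Fin k → ℂ) → ℂ)
    (e ψ : (Fin k → ℂ) → ℝ) : Prop extends PFun W c 𝒦 w b e where
  hψ : ContDiffOn ℝ 1 ψ W
  bdd : ∀ z ∈ W, |ψ z| ≤ 1
  supp : ∀ δ : ℝ, 0 < δ → 𝒦 {z ∈ W | ψ z ≠ 0 ∧ δ ≤ w z}
  ψenergy : IntegrableOn (fun z => ‖dz (fun y => (ψ y : ℂ)) z (c z)‖ ^ 2) W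

namespace PCut

variable {W : Set (Fin k → ℂ)} {c : (Fin k → ℂ) → (Fin k → ℂ)}
  {𝒦 : Set (Fin k → ℂ) → Prop} {w e ψ : (Fin k → ℂ) → ℝ} {b : (Fin k → ℂ) → ℂ}

theorem contDiffAt_psi (H : PCut W c 𝒦 w b e ψ) {z : Fin k → ℂ} (hz : z ∈ W) :
    ContDiffAt ℝ 1 (fun y => (ψ y : ℂ)) z :=
  Complex.ofRealCLM.contDiff.contDiffAt.comp z (H.hψ.contDiffAt (H.isOpen.mem_nhds hz))

theorem contDiffAt_pu (H : PCut W c 𝒦 w b e ψ) {p : ℝ → ℝ}
    (hp : ∀ t ∈ Ioc (0 : ℝ) 1, ContDiffAt ℝ 1 p t) {z : Fin k → ℂ} (hz : z ∈ W) :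
    ContDiffAt ℝ 1 (fun y => (p (w y) : ℂ)) z :=
  Complex.ofRealCLM.contDiff.contDiffAt.comp z ((hp _ (H.mem z hz)).comp z (H.hw z hz))

theorem dz_pu (H : PCut W c 𝒦 w b e ψ) {p : ℝ → ℝ}
    (hp : ∀ t ∈ Ioc (0 : ℝ) 1, ContDiffAt ℝ 1 p t) {z : Fin k → ℂ} (hz : z ∈ W) :
    dz (fun y => (p (w y) : ℂ)) z (c z) = (deriv p (w z) : ℝ) * b z := by
  rw [← H.dzw z hz]
  exact dz_comp_real (u := w) ((hp _ (H.mem z hz)).differentiableAt (by simp)).hasDerivAt
    ((H.hw z hz).differentiableAt (by simp)) (c z)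

theorem continuousOn_u (H : PCut W c 𝒦 w b e ψ) : ContinuousOn w W :=
  fun z hz => (H.hw z hz).continuousAt.continuousWithinAt

theorem continuousOn_comp_u (H : PCut W c 𝒦 w b e ψ) {p : ℝ → ℝ}
    (hp : ∀ t ∈ Ioc (0 : ℝ) 1, ContinuousAt p t) : ContinuousOn (fun y => p (w y)) W :=
  fun z hz => (ContinuousAt.comp (f := w) (hp _ (H.mem z hz))
    (H.hw z hz).continuousAt).continuousWithinAt

theorem _root_.Pool.Agent.Lib.MP_940f24_an.PFun.continuousOn_e (H : PFun W c 𝒦 w b e) :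
    ContinuousOn e W :=
  (continuous_re.comp_continuousOn (continuousOn_dz H.isOpen
    (fun z hz => (H.hb z hz).contDiffWithinAt) H.hc)).congr fun z hz => by
      simp only [Function.comp_apply, H.dzb z hz, ofReal_re]

theorem _root_.Pool.Agent.Lib.MP_940f24_an.PFun.e_nonneg (H : PFun W c 𝒦 w b e) {z : Fin k → ℂ}
    (hz : z ∈ W) : 0 ≤ e z :=
  nonneg_of_mul_nonneg_right ((sq_nonneg _).trans (H.psh z hz)) (H.mem z hz).1

theorem continuousOn_nb (H : PCut W c 𝒦 w b e ψ) : ContinuousOn (fun z => ‖b z‖) W := by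
  have h1 : ContinuousOn (fun y => ‖conj (b y)‖) W :=
    fun z hz => (H.hb z hz).continuousAt.norm.continuousWithinAt
  simpa only [Complex.norm_conj] using h1

theorem continuousOn_Xpsi (H : PCut W c 𝒦 w b e ψ) :
    ContinuousOn (fun z => dz (fun y => (ψ y : ℂ)) z (c z)) W :=
  continuousOn_dz H.isOpen (fun _ hz => (H.contDiffAt_psi hz).contDiffWithinAt) H.hc

theorem nb_sq_le (H : PCut W c 𝒦 w b e ψ) {z : Fin k → ℂ} (hz : z ∈ W) : ‖b z‖ ^ 2 ≤ e z :=
  (H.psh z hz).trans (mul_le_of_le_one_left (H.e_nonneg hz) (H.mem z hz).2)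

/-- The energy density is integrable on the part of the support of `ψ` away from `h = 0`. -/
theorem exists_majorant (H : PCut W c 𝒦 w b e ψ) {δ : ℝ} (hδ : 0 < δ) :
    ∃ E : (Fin k → ℂ) → ℝ, IntegrableOn E W ∧ (∀ z, 0 ≤ E z) ∧
      ∀ z ∈ W, ψ z ≠ 0 → δ ≤ w z → E z = e z := by
  set S := {z ∈ W | ψ z ≠ 0 ∧ δ ≤ w z} with hS
  have hSm : MeasurableSet S := by
    have h1 : IsOpen (W ∩ ψ ⁻¹' {0}ᶜ) :=
      H.hψ.continuousOn.isOpen_inter_preimage H.isOpen isOpen_compl_singleton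
    have h2 : IsOpen (W ∩ w ⁻¹' Iio δ) :=
      H.continuousOn_u.isOpen_inter_preimage H.isOpen isOpen_Iio
    have h3 : S = (W ∩ ψ ⁻¹' {0}ᶜ) \ (W ∩ w ⁻¹' Iio δ) := by
      ext z
      simp only [hS, mem_ofPred_eq, Set.mem_sdiff, mem_inter_iff, mem_preimage, mem_compl_iff,
        mem_singleton_iff, mem_Iio, not_and, not_lt]
      tauto
    rw [h3]
    exact h1.measurableSet.diff h2.measurableSet
  have hi := H.energy S hSm (fun z hz => hz.1) (H.supp δ hδ)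
  refine ⟨S.indicator e,
    (hi.integrable_indicator hSm).integrableOn,
    fun z => indicator_nonneg (fun y hy => H.e_nonneg hy.1) z, fun z hz h1 h2 => ?_⟩
  exact indicator_of_mem (show z ∈ S from ⟨hz, h1, h2⟩) _

theorem key (H : PCut W c 𝒦 w b e ψ) {p : ℝ → ℝ}
    (hp : ∀ t ∈ Ioc (0 : ℝ) 1, ContDiffAt ℝ 1 p t) {δ : ℝ} (hδ : 0 < δ)
    (h0 : ∀ t ∈ Ioo 0 δ, p t = 0) :
    IntegrableOn (fun z => ψ z ^ 2 * (p (w z) * e z +
      deriv p (w z) * ‖b z‖ ^ 2)) W ∧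
    ∀ R : (Fin k → ℂ) → ℝ, IntegrableOn R W →
      (∀ z ∈ W, 2 * |ψ z| * |p (w z)| * ‖dz (fun y => (ψ y : ℂ)) z (c z)‖ *
        ‖b z‖ ≤ R z) →
      ∫ z in W, ψ z ^ 2 * (p (w z) * e z +
        deriv p (w z) * ‖b z‖ ^ 2) ≤ ∫ z in W, R z := by
  have hW := H.isOpen.measurableSet
  obtain ⟨E, hei, he0, he⟩ := H.exists_majorant hδ
  have h0' : ∀ t ∈ Ioo 0 δ, deriv p t = 0 := by
    intro t ht
    have : p =ᶠ[𝓝 t] fun _ => 0 := by
      filter_upwards [Ioo_mem_nhds ht.1 ht.2] with y hy using h0 y hy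
    rw [this.deriv_eq, deriv_const]
  have hsub : Icc δ 1 ⊆ Ioc (0 : ℝ) 1 := fun t ht => ⟨hδ.trans_le ht.1, ht.2⟩
  obtain ⟨M₁, hM₁⟩ := (isCompact_Icc (a := δ) (b := 1)).exists_bound_of_continuousOn
    (f := p) fun t ht => (hp t (hsub ht)).continuousAt.continuousWithinAt
  obtain ⟨M₂, hM₂⟩ := (isCompact_Icc (a := δ) (b := 1)).exists_bound_of_continuousOn
    (f := deriv p) fun t ht =>
      (continuousAt_deriv_of_contDiffAt (hp t (hsub ht))).continuousWithinAt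
  set M := max (max M₁ M₂) 0 with hM
  have hM0 : 0 ≤ M := le_max_right _ _
  -- the three alternatives at a point of `W`
  have alt : ∀ z ∈ W, ψ z = 0 ∨ (p (w z) = 0 ∧ deriv p (w z) = 0) ∨
      (ψ z ≠ 0 ∧ δ ≤ w z ∧ |p (w z)| ≤ M ∧ |deriv p (w z)| ≤ M) := by
    intro z hz
    by_cases h1 : ψ z = 0
    · exact Or.inl h1
    have hu := H.mem z hz
    rcases lt_or_ge (w z) δ with h2 | h2
    · exact Or.inr (Or.inl ⟨h0 _ ⟨hu.1, h2⟩, h0' _ ⟨hu.1, h2⟩⟩)
    · exact Or.inr (Or.inr ⟨h1, h2,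
        (hM₁ _ ⟨h2, hu.2⟩).trans ((le_max_left _ _).trans (le_max_left _ _)),
        (hM₂ _ ⟨h2, hu.2⟩).trans ((le_max_right _ _).trans (le_max_left _ _))⟩)
  set T₁ : (Fin k → ℂ) → ℝ := fun z => ψ z ^ 2 * (p (w z) * e z +
      deriv p (w z) * ‖b z‖ ^ 2) with hT₁
  set T₂ : (Fin k → ℂ) → ℂ := fun z => 2 * (ψ z : ℂ) * (p (w z) : ℂ) *
      dz (fun y => (ψ y : ℂ)) z (c z) * conj (b z) with hT₂
  set a : (Fin k → ℂ) → ℂ := fun z => (ψ z : ℂ) * (ψ z : ℂ) * (p (w z) : ℂ) *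
      conj (b z) with ha
  have hnT₂ : ∀ z, ‖T₂ z‖ = 2 * |ψ z| * |p (w z)| * ‖dz (fun y => (ψ y : ℂ)) z (c z)‖ *
      ‖b z‖ := by
    intro z
    simp only [hT₂, norm_mul, Complex.norm_conj, Complex.norm_real, Real.norm_eq_abs,
      Complex.norm_ofNat]
  have hna : ∀ z, ‖a z‖ = |ψ z| * |ψ z| * |p (w z)| *
      ‖b z‖ := by
    intro z
    simp only [ha, norm_mul, Complex.norm_conj, Complex.norm_real, Real.norm_eq_abs]
  have hpc : ContinuousOn (fun y => p (w y)) W :=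
    H.continuousOn_comp_u fun t ht => (hp t ht).continuousAt
  have hpc' : ContinuousOn (fun y => deriv p (w y)) W :=
    H.continuousOn_comp_u fun t ht => continuousAt_deriv_of_contDiffAt (hp t ht)
  have hac : ∀ z ∈ W, ContDiffAt ℝ 1 a z := fun z hz =>
    (((H.contDiffAt_psi hz).mul (H.contDiffAt_psi hz)).mul (H.contDiffAt_pu hp hz)).mul
      (H.hb _ hz)
  have hXa : ∀ z ∈ W, dz a z (c z) = (T₁ z : ℂ) + T₂ z := by
    intro z hz
    have d1 := (H.contDiffAt_psi hz).differentiableAt (by simp)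
    have d2 := (H.contDiffAt_pu hp hz).differentiableAt (by simp)
    have d3 := (H.hb _ hz).differentiableAt (by simp)
    have e1 := dz_mul ((d1.mul d1).mul d2) d3 (c z)
    have e2 := dz_mul (d1.mul d1) d2 (c z)
    have e3 := dz_mul d1 d1 (c z)
    simp only [Pi.mul_apply, Pi.mul_def] at e1 e2
    rw [ha, e1, e2, e3, H.dz_pu hp hz, H.dzb z hz]
    have e4 : ((‖b z‖ : ℂ)) ^ 2 =
        b z * conj (b z) := by
      rw [Complex.mul_conj, Complex.normSq_eq_norm_sq]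
      push_cast
      rfl
    simp only [hT₁, hT₂]
    push_cast
    rw [e4]
    ring
  have hψ2 : ∀ z ∈ W, ψ z ^ 2 ≤ 1 := fun z hz => by
    rw [← sq_abs]
    exact pow_le_one₀ (abs_nonneg _) (H.bdd z hz)
  have hT₁i : IntegrableOn T₁ W := by
    have hc : ContinuousOn T₁ W :=
      (H.hψ.continuousOn.pow 2).mul ((hpc.mul H.continuousOn_e).add
        (hpc'.mul (H.continuousOn_nb.pow 2)))
    refine Integrable.mono' (hei.const_mul (2 * M)) (hc.aestronglyMeasurable hW) ?_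
    refine (ae_restrict_iff' hW).2 (Eventually.of_forall fun z hz => ?_)
    have hez := he0 z
    rcases alt z hz with h1 | ⟨h1, h2⟩ | ⟨h1, h2, h3, h4⟩
    · simp only [hT₁, h1]
      simp
      positivity
    · simp only [hT₁, h1, h2]
      simp
      positivity
    · rw [he z hz h1 h2]
      have h5 := H.nb_sq_le hz
      have h6 := H.e_nonneg hz
      have h7 : |p (w z) * e z +
          deriv p (w z) * ‖b z‖ ^ 2| ≤
          2 * M * e z := by
        refine (abs_add_le _ _).trans ?_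
        rw [abs_mul, abs_mul, abs_of_nonneg h6,
          abs_of_nonneg (sq_nonneg ‖b z‖)]
        have h8 := mul_le_mul_of_nonneg_right h3 h6
        have h9 := mul_le_mul h4 h5 (sq_nonneg _) hM0
        linarith
      simp only [hT₁, Real.norm_eq_abs]
      rw [abs_mul, abs_of_nonneg (sq_nonneg _)]
      exact (mul_le_of_le_one_left (abs_nonneg _) (hψ2 z hz)).trans h7
  have hT₂i : IntegrableOn T₂ W := by
    have hc : ContinuousOn T₂ W := by
      refine ContinuousOn.mul (ContinuousOn.mul (ContinuousOn.mul (continuousOn_const.mul ?_) ?_)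
        H.continuousOn_Xpsi) ?_
      · exact fun _ hz => (H.contDiffAt_psi hz).continuousAt.continuousWithinAt
      · exact fun _ hz => (H.contDiffAt_pu hp hz).continuousAt.continuousWithinAt
      · exact fun _ hz => (H.hb _ hz).continuousAt.continuousWithinAt
    refine Integrable.mono' ((H.ψenergy.add hei).const_mul M) (hc.aestronglyMeasurable hW) ?_
    refine (ae_restrict_iff' hW).2 (Eventually.of_forall fun z hz => ?_)
    have hez := he0 z
    rw [hnT₂]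
    simp only [Pi.add_apply]
    rcases alt z hz with h1 | ⟨h1, h2⟩ | ⟨h1, h2, h3, h4⟩
    · rw [h1]
      simp
      positivity
    · rw [h1]
      simp
      positivity
    · rw [he z hz h1 h2]
      have h5 := H.nb_sq_le hz
      have h6 := H.bdd z hz
      set A := ‖dz (fun y => (ψ y : ℂ)) z (c z)‖
      set B := ‖b z‖
      have hA : 0 ≤ A := norm_nonneg _
      have hB : 0 ≤ B := norm_nonneg _
      calc 2 * |ψ z| * |p (w z)| * A * B ≤ 2 * 1 * M * A * B := by gcongr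
        _ = M * (2 * A * B) := by ring
        _ ≤ M * (A ^ 2 + e z) := by
          gcongr
          nlinarith [sq_nonneg (A - B)]
  have hai : IntegrableOn (fun z => ‖a z‖ ^ 2) W := by
    have hc : ContinuousOn (fun z => ‖a z‖ ^ 2) W :=
      fun _ hz => ((hac _ hz).continuousAt.norm.pow 2).continuousWithinAt
    refine Integrable.mono' (hei.const_mul (M ^ 2)) (hc.aestronglyMeasurable hW) ?_
    refine (ae_restrict_iff' hW).2 (Eventually.of_forall fun z hz => ?_)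
    have hez := he0 z
    rw [Real.norm_eq_abs, abs_of_nonneg (sq_nonneg _), hna]
    rcases alt z hz with h1 | ⟨h1, h2⟩ | ⟨h1, h2, h3, h4⟩
    · rw [h1]
      simp
      positivity
    · rw [h1]
      simp
      positivity
    · rw [he z hz h1 h2]
      have h5 := H.nb_sq_le hz
      have h6 := H.bdd z hz
      set B := ‖b z‖
      have hB : 0 ≤ B := norm_nonneg _
      calc (|ψ z| * |ψ z| * |p (w z)| * B) ^ 2 ≤ (1 * 1 * M * B) ^ 2 := by gcongr
        _ = M ^ 2 * B ^ 2 := by ring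
        _ ≤ _ := by gcongr
  have hK : 𝒦 {z ∈ W | a z ≠ 0} := by
    refine H.mono _ _ ?_ (H.supp δ hδ)
    rintro z ⟨hz, hz'⟩
    rcases alt z hz with h1 | ⟨h1, h2⟩ | ⟨h1, h2, -⟩
    · exact absurd (by simp [ha, h1]) hz'
    · exact absurd (by simp [ha, h1]) hz'
    · exact ⟨hz, h1, h2⟩
  have hT₁c : IntegrableOn (fun z => (T₁ z : ℂ)) W := hT₁i.ofReal
  have hsum : IntegrableOn (fun z => (T₁ z : ℂ) + T₂ z) W := hT₁c.add hT₂i
  have hst := H.stokes a (fun z hz => (hac z hz).contDiffWithinAt) hK hai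
    (hsum.congr_fun (fun z hz => (hXa z hz).symm) hW)
  rw [setIntegral_congr_fun hW hXa, integral_add hT₁c hT₂i, integral_complex_ofReal]
    at hst
  refine ⟨hT₁i, fun R hR hle => ?_⟩
  have h1 : ((∫ z in W, T₁ z : ℝ) : ℂ) = -∫ z in W, T₂ z := eq_neg_of_add_eq_zero_left hst
  calc ∫ z in W, T₁ z ≤ ‖((∫ z in W, T₁ z : ℝ) : ℂ)‖ := by
        rw [Complex.norm_real]
        exact le_abs_self _
    _ = ‖∫ z in W, T₂ z‖ := by rw [h1, norm_neg]
    _ ≤ ∫ z in W, ‖T₂ z‖ := norm_integral_le_integral_norm _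
    _ ≤ ∫ z in W, R z := by
      refine setIntegral_mono_on hT₂i.norm hR hW fun z hz => ?_
      rw [hnT₂]
      exact hle z hz

end PCut

end Pool.Agent.Lib.MP_940f24_an
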