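import Pool.Agent.Lib.MP_940f24_an.PCutA

/-!
Finite logarithmic energy, the Stokes formula across the set `w = 0`, and the Caccioppoli
inequality for a second function.
-/

open Set Filter Topology MeasureTheory Metric Complex
open scoped ContDiff ComplexConjugate

namespace Pool.Agent.Lib.MP_940f24_an

variable {k : ℕ} {W : Set (Fin k → ℂ)} {c : (Fin k → ℂ) → (Fin k → ℂ)}
  {𝒦 : Set (Fin k → ℂ) → Prop} {w e ψ : (Fin k → ℂ) → ℝ} {b : (Fin k → ℂ) → ℂ}

theorem fatou_of_eventually_eq (hW : MeasurableSet W) {Φ : (Fin k → ℂ) → ℝ}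
    {f : ℕ → (Fin k → ℂ) → ℝ} {C : ℝ} (hΦ : ContinuousOn Φ W)
    (hf : ∀ n, IntegrableOn (f n) W ∧ ∫ z in W, f n z ≤ C) (hf0 : ∀ n, ∀ z ∈ W, 0 ≤ f n z)
    (hl : ∀ z ∈ W, ∀ᶠ n in atTop, f n z = Φ z) : IntegrableOn Φ W ∧ ∫ z in W, Φ z ≤ C := by
  have hlim : ∀ z ∈ W, ‖Φ z‖ₑ = liminf (fun n => ‖f n z‖ₑ) atTop := fun z hz =>
    (Tendsto.liminf_eq (tendsto_const_nhds.congr' ((hl z hz).mono fun n hn => by
      simp only [hn]))).symm
  have hle : ∀ n, ∫⁻ z in W, ‖f n z‖ₑ ≤ ENNReal.ofReal C := by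
    intro n
    rw [← ofReal_integral_norm_eq_lintegral_enorm (hf n).1]
    refine ENNReal.ofReal_le_ofReal (le_trans (le_of_eq ?_) (hf n).2)
    exact setIntegral_congr_fun hW fun z hz => by
      simp only [Real.norm_eq_abs, abs_of_nonneg (hf0 n z hz)]
  have h1 : ∫⁻ z in W, ‖Φ z‖ₑ ≤ ENNReal.ofReal C :=
    calc ∫⁻ z in W, ‖Φ z‖ₑ = ∫⁻ z in W, liminf (fun n => ‖f n z‖ₑ) atTop :=
          setLIntegral_congr_fun hW hlim
      _ ≤ liminf (fun n => ∫⁻ z in W, ‖f n z‖ₑ) atTop :=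
          lintegral_liminf_le' fun n => (hf n).1.1.enorm
      _ ≤ ENNReal.ofReal C := liminf_le_of_frequently_le' (Frequently.of_forall hle)
  have hi : IntegrableOn Φ W := ⟨hΦ.aestronglyMeasurable hW, h1.trans_lt ENNReal.ofReal_lt_top⟩
  rw [← ofReal_integral_norm_eq_lintegral_enorm hi, ENNReal.ofReal_le_ofReal_iff
    ((setIntegral_nonneg hW (hf0 0)).trans (hf 0).2)] at h1
  exact ⟨hi, (le_abs_self _).trans ((norm_integral_le_integral_norm _).trans h1)⟩

namespace PCut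

/-- Weighted Caccioppoli inequality. -/
theorem weighted (H : PCut W c 𝒦 w b e ψ) {g : ℝ → ℝ}
    (hg : ∀ t ∈ Ioc (0 : ℝ) 1, ContDiffAt ℝ 1 g t) (hg0 : ∀ t ∈ Ioc (0 : ℝ) 1, 0 ≤ g t)
    (hΦ : ∀ z ∈ W, g (w z) ^ 2 * ‖b z‖ ^ 2 ≤
      g (w z) * e z +
        deriv g (w z) * ‖b z‖ ^ 2) :
    IntegrableOn (fun z => ψ z ^ 2 * (g (w z) * e z +
      deriv g (w z) * ‖b z‖ ^ 2)) W ∧
    ∫ z in W, ψ z ^ 2 * (g (w z) * e z + deriv g (w z) * ‖b z‖ ^ 2) ≤
      4 * ∫ z in W, ‖dz (fun y => (ψ y : ℂ)) z (c z)‖ ^ 2 := by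
  have hW := H.isOpen.measurableSet
  set Φ : (Fin k → ℂ) → ℝ := fun z => ψ z ^ 2 * (g (w z) * e z +
      deriv g (w z) * ‖b z‖ ^ 2) with hΦd
  have hΦc : ContinuousOn Φ W :=
    (H.hψ.continuousOn.pow 2).mul
      (((H.continuousOn_comp_u fun t ht => (hg t ht).continuousAt).mul H.continuousOn_e).add
        ((H.continuousOn_comp_u fun t ht => continuousAt_deriv_of_contDiffAt (hg t ht)).mul
          (H.continuousOn_nb.pow 2)))
  have hΦ0 : ∀ z ∈ W, 0 ≤ Φ z := fun z hz =>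
    mul_nonneg (sq_nonneg _) (le_trans (by positivity) (hΦ z hz))
  set f : ℕ → (Fin k → ℂ) → ℝ := fun n z => lcut n (w z) * Φ z with hf
  have hfc : ∀ n, ContinuousOn (f n) W := fun n =>
    (H.continuousOn_comp_u fun t ht => (contDiffAt_lcut n ht.1).continuousAt).mul hΦc
  have hf0 : ∀ n, ∀ z ∈ W, 0 ≤ f n z := fun n z hz => mul_nonneg (lcut_nonneg _ _) (hΦ0 z hz)
  set C : ℝ := ∫ z in W, ‖dz (fun y => (ψ y : ℂ)) z (c z)‖ ^ 2 with hC
  have hbound : ∀ n, IntegrableOn (f n) W ∧ ∫ z in W, f n z ≤ 4 * C := by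
    intro n
    obtain ⟨hi, hle⟩ := H.key (p := fun t => lcut n t * g t)
      (fun t ht => (contDiffAt_lcut n ht.1).mul (hg t ht)) (Real.exp_pos (-2 * (n + 1)))
      (fun t ht => by rw [lcut_eq_zero n ht, zero_mul])
    have hfle : ∀ z ∈ W, f n z ≤ ψ z ^ 2 * (lcut n (w z) * g (w z) *
        e z + deriv (fun t => lcut n t * g t) (w z) *
          ‖b z‖ ^ 2) := by
      intro z hz
      have hu := H.mem z hz
      rw [deriv_fun_mul ((contDiffAt_lcut n hu.1).differentiableAt (by simp))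
        ((hg _ hu).differentiableAt (by simp))]
      have h1 : 0 ≤ ψ z ^ 2 * (deriv (lcut n) (w z) * g (w z) *
          ‖b z‖ ^ 2) :=
        mul_nonneg (sq_nonneg _) (mul_nonneg (mul_nonneg (deriv_lcut_nonneg n hu.1) (hg0 _ hu))
          (sq_nonneg _))
      simp only [hf, hΦd]
      linarith
    have hfi : IntegrableOn (f n) W := by
      refine Integrable.mono' hi ((hfc n).aestronglyMeasurable hW) ?_
      refine (ae_restrict_iff' hW).2 (Eventually.of_forall fun z hz => ?_)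
      rw [Real.norm_eq_abs, abs_of_nonneg (hf0 n z hz)]
      exact hfle z hz
    refine ⟨hfi, ?_⟩
    have h1 := hle (fun z => 1 / 2 * f n z + 2 * ‖dz (fun y => (ψ y : ℂ)) z (c z)‖ ^ 2)
      (Integrable.fun_add (hfi.const_mul (1 / 2)) (H.ψenergy.const_mul 2)) (by
        intro z hz
        have hu := H.mem z hz
        have hq0 := lcut_nonneg n (w z)
        have hq1 := lcut_le_one n (w z)
        have hgz := hg0 _ hu
        have h2 := hΦ z hz
        rw [abs_of_nonneg (mul_nonneg hq0 hgz)]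
        simp only [hf, hΦd]
        set A := ‖dz (fun y => (ψ y : ℂ)) z (c z)‖
        set B := ‖b z‖
        set q := lcut n (w z)
        set G := g (w z)
        set P := G * e z + deriv g (w z) * B ^ 2
        have h3 : 2 * |ψ z| * G * A * B ≤ 1 / 2 * (ψ z ^ 2 * (G ^ 2 * B ^ 2)) + 2 * A ^ 2 := by
          rw [← sq_abs (ψ z)]
          nlinarith [sq_nonneg (|ψ z| * G * B - 2 * A)]
        have h4 : ψ z ^ 2 * (G ^ 2 * B ^ 2) ≤ ψ z ^ 2 * P := by gcongr
        calc 2 * |ψ z| * (q * G) * A * B = q * (2 * |ψ z| * G * A * B) := by ring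
          _ ≤ q * (1 / 2 * (ψ z ^ 2 * P) + 2 * A ^ 2) := by
            gcongr
            linarith
          _ = 1 / 2 * (q * (ψ z ^ 2 * P)) + q * (2 * A ^ 2) := by ring
          _ ≤ 1 / 2 * (q * (ψ z ^ 2 * P)) + 2 * A ^ 2 := by
            have := mul_le_of_le_one_left (by positivity : 0 ≤ 2 * A ^ 2) hq1
            linarith)
    rw [integral_add (hfi.const_mul _) (H.ψenergy.const_mul _), integral_const_mul,
      integral_const_mul] at h1
    have h2 := setIntegral_mono_on hfi hi hW hfle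
    linarith
  refine fatou_of_eventually_eq hW hΦc hbound hf0 fun z hz => ?_
  filter_upwards [eventually_lcut (H.mem z hz).1] with n hn
  simp only [hf, hn.1, one_mul]

/-- The logarithmic energy is finite. -/
theorem log_energy (H : PCut W c 𝒦 w b e ψ) :
    IntegrableOn (fun z => ψ z ^ 2 * (lwt (w z) ^ 2 *
      ‖b z‖ ^ 2)) W := by
  have hW := H.isOpen.measurableSet
  have hΦ : ∀ z ∈ W, lwt (w z) ^ 2 * ‖b z‖ ^ 2 ≤
      lwt (w z) * e z +
        deriv lwt (w z) * ‖b z‖ ^ 2 := by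
    intro z hz
    have hu := H.mem z hz
    rw [deriv_lwt hu]
    have h1 : ‖b z‖ ^ 2 / w z ≤ e z := by
      rw [div_le_iff₀' hu.1]
      exact H.psh z hz
    have h2 := mul_le_mul_of_nonneg_left h1 (lwt_pos hu).le
    have h3 : lwt (w z) * (‖b z‖ ^ 2 / w z) =
        lwt (w z) / w z * ‖b z‖ ^ 2 := by ring
    linarith
  have hi := (H.weighted (g := lwt) (fun t ht => contDiffAt_lwt ht)
    (fun t ht => (lwt_pos ht).le) hΦ).1
  have hc : ContinuousOn (fun z => ψ z ^ 2 * (lwt (w z) ^ 2 *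
      ‖b z‖ ^ 2)) W :=
    (H.hψ.continuousOn.pow 2).mul
      (((H.continuousOn_comp_u fun t ht => (contDiffAt_lwt ht).continuousAt).pow 2).mul
        (H.continuousOn_nb.pow 2))
  refine Integrable.mono' hi (hc.aestronglyMeasurable hW) ?_
  refine (ae_restrict_iff' hW).2 (Eventually.of_forall fun z hz => ?_)
  rw [Real.norm_eq_abs, abs_of_nonneg (by positivity)]
  exact mul_le_mul_of_nonneg_left (hΦ z hz) (sq_nonneg _)

/-- Stokes formula across the set `w = 0`. -/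
theorem stokes_step
    (H : PCut W c 𝒦 w b e ψ) {a : (Fin k → ℂ) → ℂ} (ha : ContDiffOn ℝ 1 a W)
    (hψa : ∀ z ∈ W, a z ≠ 0 → ψ z = 1) (h2 : IntegrableOn (fun z => ‖a z‖ ^ 2) W)
    (h1 : IntegrableOn (fun z => dz a z (c z)) W) : ∫ z in W, dz a z (c z) = 0 := by
  have hW := H.isOpen.measurableSet
  obtain ⟨L, hL⟩ := exists_deriv_lcut_le
  have hq : ∀ n, ∀ t ∈ Ioc (0 : ℝ) 1, ContDiffAt ℝ 1 (lcut n) t :=
    fun n t ht => contDiffAt_lcut n ht.1
  set A : ℕ → (Fin k → ℂ) → ℂ := fun n z => (lcut n (w z) : ℂ) * a z with hA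
  have hAc : ∀ n, ContDiffOn ℝ 1 (A n) W := fun n z hz =>
    (H.contDiffAt_pu (hq n) hz).contDiffWithinAt.mul (ha z hz)
  have hXA : ∀ n, ∀ z ∈ W, dz (A n) z (c z) =
      (deriv (lcut n) (w z) : ℝ) * b z * a z +
        (lcut n (w z) : ℂ) * dz a z (c z) := by
    intro n z hz
    rw [← H.dz_pu (hq n) hz]
    exact dz_mul ((H.contDiffAt_pu (hq n) hz).differentiableAt (by simp))
      ((ha.contDiffAt (H.isOpen.mem_nhds hz)).differentiableAt (by simp)) (c z)
  set R : (Fin k → ℂ) → ℝ := fun z => L ^ 2 * (ψ z ^ 2 * (lwt (w z) ^ 2 *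
      ‖b z‖ ^ 2)) + ‖a z‖ ^ 2 + ‖dz a z (c z)‖ with hR
  have hRi : IntegrableOn R W := ((H.log_energy.const_mul _).add h2).add h1.norm
  have hle : ∀ n, ∀ z ∈ W, ‖dz (A n) z (c z)‖ ≤ R z := by
    intro n z hz
    have hu := H.mem z hz
    rw [hXA n z hz]
    refine (norm_add_le _ _).trans (add_le_add ?_ ?_)
    · by_cases h0 : a z = 0
      · simp only [h0, mul_zero, norm_zero]
        positivity
      · rw [hψa z hz h0, norm_mul, norm_mul, Complex.norm_real, Real.norm_eq_abs,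
          abs_of_nonneg (deriv_lcut_nonneg n hu.1)]
        have h3 := hL n _ hu
        set B := ‖b z‖
        have hB : 0 ≤ B := norm_nonneg _
        have h4 : deriv (lcut n) (w z) * B * ‖a z‖ ≤ L * lwt (w z) * B * ‖a z‖ := by
          gcongr
        nlinarith [sq_nonneg (L * lwt (w z) * B - ‖a z‖),
          sq_nonneg (L * lwt (w z) * B), sq_nonneg ‖a z‖]
    · rw [norm_mul, Complex.norm_real, Real.norm_eq_abs, abs_of_nonneg (lcut_nonneg _ _)]
      exact mul_le_of_le_one_left (norm_nonneg _) (lcut_le_one _ _)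
  have hmeas : ∀ n, AEStronglyMeasurable (fun z => dz (A n) z (c z)) (volume.restrict W) :=
    fun n => (continuousOn_dz H.isOpen (hAc n) H.hc).aestronglyMeasurable hW
  have hle' : ∀ n, ∀ᵐ z ∂(volume.restrict W), ‖dz (A n) z (c z)‖ ≤ R z :=
    fun n => (ae_restrict_iff' hW).2 (Eventually.of_forall (hle n))
  have hzero : ∀ n, ∫ z in W, dz (A n) z (c z) = 0 := by
    intro n
    refine H.stokes (A n) (hAc n) ?_ ?_ (Integrable.mono' hRi (hmeas n) (hle' n))
    · refine H.mono _ _ ?_ (H.supp _ (Real.exp_pos (-2 * (n + 1))))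
      rintro z ⟨hz, hz'⟩
      have h3 : a z ≠ 0 := right_ne_zero_of_mul hz'
      have h4 : (lcut n (w z) : ℂ) ≠ 0 := left_ne_zero_of_mul hz'
      refine ⟨hz, by rw [hψa z hz h3]; exact one_ne_zero, ?_⟩
      by_contra h5
      exact h4 (by rw [lcut_eq_zero n ⟨(H.mem z hz).1, not_le.1 h5⟩, Complex.ofReal_zero])
    · refine Integrable.mono' h2 (((hAc n).continuousOn.norm.pow 2).aestronglyMeasurable hW) ?_
      refine Eventually.of_forall fun z => ?_
      rw [Real.norm_eq_abs, abs_of_nonneg (sq_nonneg _)]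
      simp only [hA]
      rw [norm_mul, Complex.norm_real, Real.norm_eq_abs, abs_of_nonneg (lcut_nonneg _ _)]
      have h3 := mul_le_of_le_one_left (norm_nonneg (a z)) (lcut_le_one n (w z))
      have h4 := mul_nonneg (lcut_nonneg n (w z)) (norm_nonneg (a z))
      gcongr
  have hlim : Tendsto (fun n => ∫ z in W, dz (A n) z (c z)) atTop
      (𝓝 (∫ z in W, dz a z (c z))) := by
    refine tendsto_integral_of_dominated_convergence R hmeas hRi hle' ?_
    refine (ae_restrict_iff' hW).2 (Eventually.of_forall fun z hz => ?_)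
    refine tendsto_const_nhds.congr' ?_
    filter_upwards [eventually_lcut (H.mem z hz).1] with n hn
    rw [hXA n z hz, hn.1, hn.2]
    simp
  simp only [hzero] at hlim
  exact tendsto_nhds_unique hlim tendsto_const_nhds

/-- Caccioppoli inequality for a second function. -/
theorem caccioppoli (H : PCut W c 𝒦 w b e ψ) {w₂ e₂ : (Fin k → ℂ) → ℝ} {b₂ : (Fin k → ℂ) → ℂ}
    (G : PFun W c 𝒦 w₂ b₂ e₂) : IntegrableOn (fun z => ψ z ^ 2 * e₂ z) W := by
  have hW := H.isOpen.measurableSet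
  obtain ⟨L, hL⟩ := exists_deriv_lcut_le
  have hq : ∀ n, ∀ t ∈ Ioc (0 : ℝ) 1, ContDiffAt ℝ 1 (lcut n) t :=
    fun n t ht => contDiffAt_lcut n ht.1
  set R : (Fin k → ℂ) → ℝ := fun z => 2 * L ^ 2 * (ψ z ^ 2 * (lwt (w z) ^ 2 * ‖b z‖ ^ 2)) +
    2 * ‖dz (fun y => (ψ y : ℂ)) z (c z)‖ ^ 2 with hR
  have hRi : IntegrableOn R W := (H.log_energy.const_mul _).add (H.ψenergy.const_mul _)
  have hc1 : ∀ n, ContDiffOn ℝ 1 (fun z => lcut n (w z) * ψ z) W := fun n z hz =>
    ((hq n _ (H.mem z hz)).comp z (H.hw z hz)).contDiffWithinAt.mul (H.hψ z hz)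
  have hle : ∀ n, ∀ z ∈ W, ‖dz (fun y => ((lcut n (w y) * ψ y : ℝ) : ℂ)) z (c z)‖ ^ 2 ≤ R z := by
    intro n z hz
    have hu := H.mem z hz
    simp only [ofReal_mul, hR]
    rw [dz_mul ((H.contDiffAt_pu (hq n) hz).differentiableAt (by simp))
      ((H.contDiffAt_psi hz).differentiableAt (by simp)), H.dz_pu (hq n) hz]
    refine (pow_le_pow_left₀ (norm_nonneg _) (norm_add_le _ _) 2).trans ?_
    simp only [norm_mul, Complex.norm_real, Real.norm_eq_abs]
    rw [abs_of_nonneg (deriv_lcut_nonneg n hu.1), abs_of_nonneg (lcut_nonneg _ _), ← sq_abs (ψ z)]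
    have h3 := hL n _ hu
    have h4 := deriv_lcut_nonneg n hu.1
    have h5 := lcut_nonneg n (w z)
    set A := ‖dz (fun y => (ψ y : ℂ)) z (c z)‖
    have h6 : lcut n (w z) * A ≤ A := mul_le_of_le_one_left (norm_nonneg _) (lcut_le_one _ _)
    calc _ ≤ (L * lwt (w z) * ‖b z‖ * |ψ z| + A) ^ 2 := by gcongr
      _ ≤ _ := by nlinarith [sq_nonneg (L * lwt (w z) * ‖b z‖ * |ψ z| - A)]
  have hE : ∀ n, IntegrableOn
      (fun z => ‖dz (fun y => ((lcut n (w y) * ψ y : ℝ) : ℂ)) z (c z)‖ ^ 2) W := fun n =>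
    Integrable.mono' hRi (((continuousOn_dz H.isOpen (ofRealCLM.contDiff.comp_contDiffOn (hc1 n))
      H.hc).norm.pow 2).aestronglyMeasurable hW) ((ae_restrict_iff' hW).2
        (Eventually.of_forall fun z hz => by
          rw [Real.norm_of_nonneg (by positivity)]; exact hle n z hz))
  have hcut : ∀ n, PCut W c 𝒦 w₂ b₂ e₂ fun z => lcut n (w z) * ψ z := fun n => by
    refine ⟨G, hc1 n, fun z hz => ?_, fun δ _ => ?_, hE n⟩
    · rw [abs_mul, abs_of_nonneg (lcut_nonneg _ _)]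
      exact mul_le_one₀ (lcut_le_one _ _) (abs_nonneg _) (H.bdd z hz)
    · refine H.mono _ _ ?_ (H.supp _ (Real.exp_pos (-2 * (n + 1))))
      rintro z ⟨hz, hz', -⟩
      refine ⟨hz, right_ne_zero_of_mul hz', not_lt.1 fun h5 => left_ne_zero_of_mul hz' ?_⟩
      exact lcut_eq_zero n ⟨(H.mem z hz).1, h5⟩
  refine (fatou_of_eventually_eq (f := fun n z => (lcut n (w z) * ψ z) ^ 2 * e₂ z)
    (Φ := fun z => ψ z ^ 2 * e₂ z) (C := 4 * ∫ z in W, R z) hW
    ((H.hψ.continuousOn.pow 2).mul G.continuousOn_e) (fun n => ?_)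
    (fun n z hz => mul_nonneg (sq_nonneg _) (G.e_nonneg hz)) fun z hz => ?_).1
  · have hi := (hcut n).weighted (g := fun _ => 1) (fun _ _ => contDiffAt_const)
      (fun _ _ => zero_le_one) (fun z hz => by simpa using (hcut n).nb_sq_le hz)
    simp only [deriv_const, zero_mul, add_zero, one_mul] at hi
    exact ⟨hi.1, hi.2.trans (mul_le_mul_of_nonneg_left
      (setIntegral_mono_on (hE n) hRi hW (hle n)) (by norm_num))⟩
  · filter_upwards [eventually_lcut (H.mem z hz).1] with n hn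
    rw [hn.1, one_mul]

end PCut

end Pool.Agent.Lib.MP_940f24_an
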