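import Pool.Agent.Lib.MP_940f24_an.Defs

/-!
Closed complete pluripolar sets and the volume of the image of a pair of maps.
-/

open Set Filter Topology MeasureTheory
open scoped Matrix ENNReal

namespace Pool.Agent.Lib.MP_940f24_an

universe u

/-- Four times the Levi form of `u` at `z` on the vector `v`: the Laplacian at `0` of
`t ↦ u (z + t v)`, `t ∈ ℂ`. -/
noncomputable def levi {k : ℕ} (u : (Fin k → ℂ) → ℝ) (z v : Fin k → ℂ) : ℝ :=
  fderiv ℝ (fderiv ℝ u) z v v + fderiv ℝ (fderiv ℝ u) z (Complex.I • v) (Complex.I • v)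

/-- `K` is closed in `D`, and some plurisubharmonic function of class `C²` on `D \ K` tends to
`-∞` at every point of `K`. -/
def IsPolarIn {k : ℕ} (D K : Set (Fin k → ℂ)) : Prop :=
  K ⊆ D ∧ IsOpen (D \ K) ∧ ∃ u : (Fin k → ℂ) → ℝ, ContDiffOn ℝ 2 u (D \ K) ∧
    (∀ z ∈ D \ K, ∀ v, 0 ≤ levi u z v) ∧ ∀ a ∈ K, Tendsto u (𝓝[D \ K] a) atBot

/-- `∫_U (f^* ω + g^* β) ^ k` for the Euclidean form `β` of `ℂ ^ m`: the volume of the image of
`(f, g)` in `X × ℂ ^ m`, counted with multiplicity. -/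
noncomputable def HermitianForm.jointVolume {X : Type u} [TopologicalSpace X] {𝒜 : ComplexAtlas X}
    (om : HermitianForm 𝒜) {k m : ℕ} (U : Set (Fin k → ℂ)) (f : (Fin k → ℂ) → X)
    (g : (Fin k → ℂ) → (Fin m → ℂ)) : ℝ≥0∞ :=
  ∫⁻ z in U, ENNReal.ofReal (k.factorial *
    (om.pullback (𝒜.chartAt (f z)) f z + (jac g z)ᴴ * jac g z).det.re)

end Pool.Agent.Lib.MP_940f24_an
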