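import Pool.Agent.Lib.MP_940f24_an.PGlob

/-!
Zero sets of holomorphic maps are closed complete pluripolar sets.
-/

open Set Filter Topology Complex
open scoped ComplexConjugate

namespace Pool.Agent.Lib.MP_940f24_an

variable {k : ℕ} {κ : Type} [Fintype κ] {h : (Fin k → ℂ) → (κ → ℂ)}

theorem nsq_pos_of_ne {v : κ → ℂ} (hv : v ≠ 0) : 0 < nsq v :=
  (pow_pos (norm_pos_iff.2 hv) 2).trans_le (norm_sq_le_nsq v)

theorem levi_log_nsq_nonneg {z : Fin k → ℂ} (hh : AnalyticAt ℂ h z) (h0 : h z ≠ 0)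
    (v : Fin k → ℂ) : 0 ≤ levi (fun y => Real.log (nsq (h y))) z v := by
  have hp := nsq_pos_of_ne h0
  have hn := contDiffAt_nsq hh
  have h1 := dz_conj_dz (c := fun _ => v) ((hn.of_le
    (WithTop.coe_le_coe.2 (le_top (a := (2 : ℕ∞))))).log hp.ne') analyticAt_const
  have h2 : (fun y => conj (dz (fun x => (Real.log (nsq (h x)) : ℂ)) y v)) =ᶠ[𝓝 z]
      fun y => ((nsq (h y))⁻¹ : ℝ) * conj (hdot (h y) (fderiv ℂ h y v)) := by
    filter_upwards [hh.eventually_analyticAt, hh.continuousAt.eventually_ne h0] with y hy hy0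
    rw [dz_comp_real (u := fun x => nsq (h x)) (Real.hasDerivAt_log (nsq_pos_of_ne hy0).ne')
      ((contDiffAt_nsq hy).differentiableAt (by simp)), dz_nsq hy, map_mul, conj_ofReal]
  have h3 := hn.differentiableAt (by simp)
  rw [dz_congr h2, dz_mul (a := fun y => (((nsq (h y))⁻¹ : ℝ) : ℂ))
    (ofRealCLM.differentiableAt.comp z (h3.inv hp.ne'))
    ((contDiffAt_conj_hdot (c := fun _ => v) hh analyticAt_const).differentiableAt (by simp)),
    dz_comp_real (p := fun t => t⁻¹) (u := fun x => nsq (h x)) (hasDerivAt_inv hp.ne') h3,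
    dz_nsq hh,
    dz_conj_hdot (c := fun _ => v) hh analyticAt_const, mul_assoc, Complex.mul_conj'] at h1
  have h4 : -(nsq (h z) ^ 2)⁻¹ * ‖hdot (h z) (fderiv ℂ h z v)‖ ^ 2 +
      (nsq (h z))⁻¹ * nsq (fderiv ℂ h z v) = levi (fun y => Real.log (nsq (h y))) z v / 4 := by
    exact_mod_cast h1
  have h5 := mul_le_mul_of_nonneg_left (norm_hdot_sq_le (h z) (fderiv ℂ h z v))
    (inv_nonneg.2 (sq_nonneg (nsq (h z))))
  have h6 : (nsq (h z) ^ 2)⁻¹ * (nsq (h z) * nsq (fderiv ℂ h z v)) =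
      (nsq (h z))⁻¹ * nsq (fderiv ℂ h z v) := by field_simp
  linarith

theorem isPolarIn_zero_set {D : Set (Fin k → ℂ)} (hD : IsOpen D) (hh : AnalyticOnNhd ℂ h D) :
    IsPolarIn D {z ∈ D | h z = 0} := by
  have hne : ∀ z ∈ D \ {z ∈ D | h z = 0}, h z ≠ 0 := fun z hz e => hz.2 ⟨hz.1, e⟩
  refine ⟨sep_subset _ _, ?_, fun y => Real.log (nsq (h y)), fun z hz => (((contDiffAt_nsq
    (hh z hz.1)).of_le (WithTop.coe_le_coe.2 (le_top (a := (2 : ℕ∞))))).log
      (nsq_pos_of_ne (hne z hz)).ne').contDiffWithinAt,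
    fun z hz => levi_log_nsq_nonneg (hh z hz.1) (hne z hz), fun a ha => ?_⟩
  · have : D \ {z ∈ D | h z = 0} = D ∩ h ⁻¹' {0}ᶜ :=
      Set.ext fun z => and_congr_right fun hz => not_congr (and_iff_right hz)
    exact this ▸ hh.continuousOn.isOpen_inter_preimage hD isOpen_compl_singleton
  · refine Real.tendsto_log_nhdsGT_zero.comp (tendsto_nhdsWithin_iff.2 ⟨?_,
      eventually_nhdsWithin_of_forall fun z hz => nsq_pos_of_ne (hne z hz)⟩)
    have := (contDiffAt_nsq (hh a ha.1)).continuousAt.tendsto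
    rw [ha.2, show nsq (0 : κ → ℂ) = 0 by simp [nsq]] at this
    exact this.mono_left nhdsWithin_le_nhds

end Pool.Agent.Lib.MP_940f24_an
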