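import Pool.Agent.Lib.MP_940f24_an.PLift
import Pool.Agent.Lib.MP_940f24_an.PConv
import Pool.Agent.Lib.MP_940f24_an.Global

/-!
Extension of the graph across a closed complete pluripolar set.
-/

open Set Filter Topology MeasureTheory Metric Complex
open scoped ENNReal Matrix

namespace Pool.Agent.Lib.MP_940f24_an

universe u

variable {X : Type u} [TopologicalSpace X] {𝒜 : ComplexAtlas X} {k m : ℕ}
  {D K I : Set (Fin k → ℂ)} {f : (Fin k → ℂ) → X} {g : (Fin k → ℂ) → (Fin m → ℂ)}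

theorem pre_of_meromorphic [T2Space X] (hk : 0 < k) (hD : IsOpen D)
    (hf : 𝒜.IsMeromorphic D I f) (i : 𝒜.ι) :
    Pre D ((D \ I) ∩ f ⁻¹' 𝒜.source i) I (𝒜.ambient i) (𝒜.chart i ∘ f) := by
  have hO : IsOpen (D \ I) := hf.analytic_indet.isOpen_diff hD
  have hcl := chartImage_closure (𝒜 := 𝒜) i D (graphOn (D \ I) f)
  refine ⟨⟨hf.holomorphic.1.isOpen_inter_preimage hO (𝒜.isOpen_source i),
    fun z hz => hf.holomorphic.2 i z hz.1 hz.2⟩, hD, 𝒜.isOpen_ambient i, inter_subset_left,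
    hf.analytic_indet.2, fun z _ => dense_compl_of_codim_two hk hf.codim_two z, ?_, ?_⟩
  · intro x hx hΩ hI
    rw [closure_gr_eq] at hx
    have h1 : splitEquiv k (𝒜.dim i) x ∈ 𝒜.chartImage i
        (closure (graphOn (D \ I) f) ∩ D ×ˢ univ) := by
      rw [hcl]; exact ⟨hx, hΩ⟩
    obtain ⟨y, hy, ⟨hyS, -⟩, hyx⟩ := h1
    simp only [splitEquiv_apply] at hyS hyx
    have h2 : y = f (x ∘ Sum.inl) :=
      eq_of_mem_closure_graphOn hO hf.holomorphic.1 ⟨hΩ.1, hI⟩ hyS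
    refine ⟨x ∘ Sum.inl, ⟨⟨hΩ.1, hI⟩, by rw [mem_preimage, ← h2]; exact hy⟩, ?_⟩
    ext m
    rcases m with l | m
    · rfl
    · have := congrFun hyx m
      simp only [gr, Sum.elim_inr, Function.comp_apply, ← h2]
      exact this
  · intro x hx
    rw [closure_gr_eq]
    refine AnAt.preimage ((splitEquiv k (𝒜.dim i)).toContinuousLinearMap.analyticAt x) ?_
    refine ((hf.analytic_graph.2 i).2 (splitEquiv k (𝒜.dim i) x) hx).congr ?_
    have hn : D ×ˢ 𝒜.ambient i ∈ 𝓝 (splitEquiv k (𝒜.dim i) x) :=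
      (hD.prod (𝒜.isOpen_ambient i)).mem_nhds hx
    filter_upwards [hn] with p hp
    have : 𝒜.chartImage i (graphClosure D I f) =
      closure (𝒜.chartImage i (graphOn (D \ I) f)) ∩ D ×ˢ 𝒜.ambient i := hcl
    rw [this]
    exact ⟨fun h => h.1, fun h => ⟨h, hp⟩⟩

theorem top_of_jointVolume (om : HermitianForm 𝒜) {S W : Set (Fin k → ℂ)} (hS : IsOpen S)
    (hf : 𝒜.Holomorphic S f) (hg : AnalyticOnNhd ℂ g W)
    (i : 𝒜.ι) (hW : IsOpen W) (hWS : W ⊆ S ∩ f ⁻¹' 𝒜.source i)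
    {Q : Set (Fin (𝒜.dim i + m) → ℂ)} (hQ : IsCompact Q)
    (hQU : ∀ y ∈ Q, y ∘ Fin.castAdd m ∈ 𝒜.ambient i)
    (hvol : om.jointVolume (W ∩ app (𝒜.chart i ∘ f) g ⁻¹' Q) f g < ⊤)
    (s : Fin k → Fin (𝒜.dim i + m)) :
    IntegrableOn (fun z => ‖minor (app (𝒜.chart i ∘ f) g) s z‖ ^ 2)
      (W ∩ app (𝒜.chart i ∘ f) g ⁻¹' Q) := by
  have ha : AnalyticOnNhd ℂ (𝒜.chart i ∘ f) W := fun z hz => hf.2 i z (hWS hz).1 (hWS hz).2
  have han : AnalyticOnNhd ℂ (app (𝒜.chart i ∘ f) g) W := fun z hz =>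
    analyticAt_append (ha z hz) (hg z hz)
  obtain ⟨C, hC0, hC⟩ := exists_minor_sq_le_det_add k (𝒜.dim i) m hQ
    (h := fun y => om.h i (y ∘ Fin.castAdd m))
    (fun a b => (om.smooth i a b).continuousOn.comp (by fun_prop) hQU)
    (fun y hy => om.posDef i _ (hQU y hy))
  have hmeas := measurableSet_inter_preimage hW han.continuousOn hQ.isClosed
  refine ⟨ContinuousOn.aestronglyMeasurable (fun z hz =>
    ((analyticAt_minor (han z hz.1) s).continuousAt.norm.pow 2).continuousWithinAt) hmeas, ?_⟩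
  rw [hasFiniteIntegral_iff_ofReal (Eventually.of_forall fun z => by positivity)]
  refine (setLIntegral_mono' (g := fun z => ENNReal.ofReal C * ENNReal.ofReal (k.factorial *
    (om.pullback (𝒜.chartAt (f z)) f z + (jac g z)ᴴ * jac g z).det.re)) hmeas
      fun z hz => ?_).trans_lt ?_
  · have h1 := hC _ hz.2 (jac (app (𝒜.chart i ∘ f) g) z) s
    have h3 : app (𝒜.chart i ∘ f) g z ∘ Fin.castAdd m = 𝒜.chart i (f z) := by
      ext j
      simp [app]
    rw [(jac_app (ha z hz.1) (hg z hz.1)).1, (jac_app (ha z hz.1) (hg z hz.1)).2, h3] at h1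
    rw [om.pullback_eq hS hf (hWS hz.1).1 (𝒜.mem_source_chartAt _) (hWS hz.1).2,
      ← ENNReal.ofReal_mul hC0]
    refine ENNReal.ofReal_le_ofReal_iff'.2 ?_
    change ‖minor (app (𝒜.chart i ∘ f) g) s z‖ ^ 2 ≤
      C * (om.pullback i f z + (jac g z)ᴴ * jac g z).det.re at h1
    rcases le_total 0 (om.pullback i f z + (jac g z)ᴴ * jac g z).det.re with h0 | h0
    · refine Or.inl (h1.trans (mul_le_mul_of_nonneg_left ?_ hC0))
      have : (1 : ℝ) ≤ k.factorial := by exact_mod_cast k.factorial_pos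
      nlinarith
    · exact Or.inr (h1.trans (mul_nonpos_of_nonneg_of_nonpos hC0 h0))
  · rw [lintegral_const_mul' _ _ ENNReal.ofReal_ne_top]
    exact ENNReal.mul_lt_top ENNReal.ofReal_lt_top hvol

theorem ComplexAtlas.isCompact_preimage (i : 𝒜.ι) {Q : Set (Fin (𝒜.dim i) → ℂ)}
    (hQ : IsCompact Q) (hQU : Q ⊆ 𝒜.ambient i) :
    IsCompact {x ∈ 𝒜.source i | 𝒜.chart i x ∈ Q} := by
  have h1 : IsCompact (Q ∩ closure (𝒜.chart i '' 𝒜.source i)) := hQ.inter_right isClosed_closure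
  have h2 := ((𝒜.isEmbedding i).isInducing.isCompact_preimage_iff fun y hy => by
    obtain ⟨x, hx, e⟩ := ((𝒜.analytic_image i).2 y (hQU hy.1)).mem_of_mem_closure hy.2
    exact ⟨⟨x, hx⟩, e⟩).2 h1
  convert h2.image continuous_subtype_val using 1
  ext x
  exact ⟨fun h => ⟨⟨x, h.1⟩, ⟨h.2, subset_closure ⟨x, h.1, rfl⟩⟩, rfl⟩,
    fun ⟨y, hy, e⟩ => e ▸ ⟨y.2, hy.1⟩⟩

theorem isClosed_level {u : (Fin k → ℂ) → ℝ} (hO : IsOpen (D \ K)) (hu : ContinuousOn u (D \ K))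
    (ht : ∀ a ∈ K, Tendsto u (𝓝[D \ K] a) atBot) {T : Set (Fin k → ℂ)} (hT : IsClosed T)
    (hTD : T ⊆ D) (δ : ℝ) : IsClosed (T ∩ {z ∈ D \ K | δ ≤ u z}) := by
  refine isClosed_of_closure_subset fun z hz => ?_
  have h1 : z ∈ T := hT.closure_subset (closure_mono inter_subset_left hz)
  have h2 := mem_closure_iff_nhdsWithin_neBot.1 hz
  have h3 : ∀ᶠ y in 𝓝[T ∩ {z ∈ D \ K | δ ≤ u z}] z, δ ≤ u y :=
    eventually_nhdsWithin_of_forall fun y hy => hy.2.2
  have h4 : z ∉ K := fun h => by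
    obtain ⟨y, k1, k2⟩ := (h3.and (((ht z h).mono_left (nhdsWithin_mono _ fun y hy =>
      hy.2.1)).eventually (eventually_lt_atBot δ))).exists
    exact k2.not_ge k1
  exact ⟨h1, ⟨hTD h1, h4⟩, ge_of_tendsto
    (hu.continuousAt (hO.mem_nhds ⟨hTD h1, h4⟩)).continuousWithinAt h3⟩

theorem anAt_across [T2Space X] (hk : 0 < k) (om : HermitianForm 𝒜) (hD : IsOpen D)
    (hK : IsPolarIn D K) (hg : AnalyticOnNhd ℂ g D) (hfib : ∀ c, IsCompact (K ∩ g ⁻¹' {c}))
    (hf : 𝒜.IsMeromorphic (D \ K) I f) (hvol : ∀ C : Set ((Fin k → ℂ) × X), IsCompact C →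
      C ⊆ D ×ˢ univ → om.jointVolume {z ∈ (D \ K) \ I | (z, f z) ∈ C} f g < ⊤) (i : 𝒜.ι)
    {x : Fin k ⊕ Fin (𝒜.dim i) → ℂ} (hx : x ∈ MP_940f24_an.om D (𝒜.ambient i)) :
    AnAt (closure (gr (𝒜.chart i ∘ f) '' (((D \ K) \ I) ∩ f ⁻¹' 𝒜.source i))) x := by
  obtain ⟨hKD, hO₀, u, hu, hl, ht⟩ := hK
  obtain ⟨T, hT, h1, hTD⟩ := exists_compact_between
    ((hfib (g (x ∘ Sum.inl))).insert (x ∘ Sum.inl)) hD
    (insert_subset hx.1 (inter_subset_left.trans hKD))
  have hTK : IsCompact (T \ (D \ K)) := hT.diff hO₀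
  have hS : IsCompact (g '' ((T \ (D \ K)) \ interior T)) :=
    (hTK.diff isOpen_interior).image_of_continuousOn
      (hg.continuousOn.mono fun z hz => hTD hz.1.1)
  set V := (g '' ((T \ (D \ K)) \ interior T))ᶜ
  have hV : IsOpen V := hS.isClosed.isOpen_compl
  have hO : IsOpen (interior T ∩ g ⁻¹' V) := (hg.continuousOn.mono
    (interior_subset.trans hTD)).isOpen_inter_preimage isOpen_interior hV
  set O := interior T ∩ g ⁻¹' V
  have hOT : O ⊆ T := inter_subset_left.trans interior_subset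
  have hgO := hg.mono (hOT.trans hTD)
  have hxO : x ∘ Sum.inl ∈ O := ⟨h1 (mem_insert _ _), fun ⟨z, hz, e⟩ => hz.2 (h1 (Or.inr
    ⟨by_contra fun h => hz.1.2 ⟨hTD hz.1.1, h⟩, e⟩))⟩
  obtain ⟨B, hB⟩ := (hT.of_isClosed_subset (isClosed_level hO₀ hu.continuousOn ht hT.isClosed
    hTD 0) inter_subset_left).bddAbove_image (hu.continuousOn.mono fun z hz => hz.2.1)
  obtain ⟨M, hM⟩ := hT.bddAbove_image (continuous_nsq (κ := Fin k)).continuousOn
  have H := (pre_of_meromorphic hk hO₀ hf i).append hO hgO hV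
  have P : Pol O (D \ K ∩ O) ((D \ K) \ I ∩ f ⁻¹' 𝒜.source i ∩ O) I
      {y | y ∘ Fin.castAdd m ∈ 𝒜.ambient i ∧ y ∘ Fin.natAdd (𝒜.dim i) ∈ V}
      (app (𝒜.chart i ∘ f) g) fun z => u z - max B 0 := by
    refine ⟨H, hk, hO, ⟨M, fun z hz => hM ⟨z, hOT hz.2, rfl⟩⟩,
      (hu.mono inter_subset_left).sub contDiffOn_const, fun z hz => sub_nonpos.2 ?_,
      fun z hz v => ?_, fun T' hT' hT'O δ => ?_, fun T' hT' hT'U => ?_, fun Q hQ hQU s =>
        top_of_jointVolume om (hf.analytic_indet.isOpen_diff hO₀) hf.holomorphic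
          (hgO.mono inter_subset_right) i H.isOpen_W inter_subset_left hQ
          (fun y hy => (hQU hy).1) (lt_of_le_of_lt (lintegral_mono_set ?_) (hvol _ (hT.prod
            (𝒜.isCompact_preimage i (hQ.image (f := (· ∘ Fin.castAdd m)) (by fun_prop))
              (by rintro _ ⟨y, hy, rfl⟩; exact (hQU hy).1))) (prod_mono hTD (subset_univ _)))) s⟩
    · rcases le_total 0 (u z) with h | h
      · exact le_max_of_le_left (hB ⟨z, ⟨hOT hz.2, hz.1.1.1, h⟩, rfl⟩)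
      · exact le_max_of_le_right h
    · have : fderiv ℝ (fun z => u z - max B 0) = fderiv ℝ u := funext fun y => fderiv_sub_const _
      simpa only [levi, this] using hl z hz.1.1.1 v
    · convert isClosed_level hO₀ hu.continuousOn ht hT'.isClosed (hT'O.trans (hOT.trans hTD))
        (δ + max B 0) using 1
      ext z
      exact and_congr_right fun h => and_congr (and_iff_left (hT'O h)) le_sub_iff_add_le
    · have hc : IsCompact ((fun y => y ∘ Fin.natAdd (𝒜.dim i)) '' T') := hT'.image (by fun_prop)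
      refine ⟨_, hTK.of_isClosed_subset ((hg.continuousOn.mono fun z hz =>
        hTD hz.1).preimage_isClosed_of_isClosed hTK.isClosed hc.isClosed) inter_subset_left,
        ?_, fun y hy hyT hy0 => ⟨⟨hOT hyT.1, fun h => hy0 ⟨h, hyT.1⟩⟩, _, hyT.2,
          sub_eq_zero.1 ((mem_closure_app hO hgO hyT.1).1 hy).2⟩⟩
      rintro z ⟨hz, y, hy, e⟩
      have h2 : g z ∈ V := e ▸ (hT'U hy).2
      exact ⟨by_contra fun h => h2 ⟨z, ⟨hz, h⟩, rfl⟩, h2⟩
    · exact fun z hz => ⟨hz.1.1.1, hOT hz.1.2, hz.1.1.2, _, hz.2, by ext j; simp [app]⟩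
  refine anAt_of_app hO hgO hxO (P.core.anAt_closure ⟨hxO, ?_, ?_⟩)
  · have : (liftG g x ∘ Sum.inr) ∘ Fin.castAdd m = x ∘ Sum.inr :=
      congrArg (· ∘ Sum.inr) (drop_liftG (g := g) x)
    exact this ▸ hx.2
  · exact (last_liftG (g := g) x).symm ▸ hxO.2

theorem polar_main [T2Space X] (hk : 0 < k) (om : HermitianForm 𝒜) (hD : IsOpen D)
    (hK : IsPolarIn D K) (hg : AnalyticOnNhd ℂ g D) (hfib : ∀ c, IsCompact (K ∩ g ⁻¹' {c}))
    (hf : 𝒜.IsMeromorphic (D \ K) I f) (hvol : ∀ C : Set ((Fin k → ℂ) × X), IsCompact C →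
      C ⊆ D ×ˢ univ → om.jointVolume {z ∈ (D \ K) \ I | (z, f z) ∈ C} f g < ⊤) :
    𝒜.IsAnalyticProd D (graphClosure D (K ∪ I) f) := by
  refine ⟨inter_subset_right, fun i => ?_⟩
  have hcl : 𝒜.chartImage i (graphClosure D (K ∪ I) f) = _ :=
    chartImage_closure (𝒜 := 𝒜) i D (graphOn (D \ (K ∪ I)) f)
  rw [hcl, ← sdiff_sdiff]
  refine ⟨inter_subset_right, fun a ha => ?_⟩
  refine AnAt.inter_nhds ?_ ((hD.prod (𝒜.isOpen_ambient i)).mem_nhds ha)
  have h2 := (anAt_across hk om hD hK hg hfib hf hvol i (x := (splitEquiv k (𝒜.dim i)).symm a)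
    (by rw [splitEquiv_symm_apply]; exact ha)).image_equiv (splitEquiv k (𝒜.dim i))
  rwa [closure_gr_eq, ContinuousLinearEquiv.apply_symm_apply,
    image_preimage_eq _ (splitEquiv k (𝒜.dim i)).surjective] at h2

theorem jac_gr {N : ℕ} {F : (Fin k → ℂ) → (Fin N → ℂ)} {z : Fin k → ℂ}
    (hF : DifferentiableAt ℂ F z) : jac (gr F) z = Matrix.fromRows 1 (jac F z) := by
  ext j l
  rcases j with j | j <;> simp [jac, fderiv_gr hF, Matrix.one_apply, Pi.single_apply]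

theorem polar_converse [T2Space X] (hk : 0 < k) (om : HermitianForm 𝒜) (hD : IsOpen D)
    (hO₀ : IsOpen (D \ K)) (hg : AnalyticOnNhd ℂ g D) (hf : 𝒜.IsMeromorphic (D \ K) I f)
    (hΓ : 𝒜.IsAnalyticProd D (graphClosure D (K ∪ I) f)) {C : Set ((Fin k → ℂ) × X)}
    (hC : IsCompact C) (hCD : C ⊆ D ×ˢ univ) :
    om.jointVolume {z ∈ (D \ K) \ I | (z, f z) ∈ C} f g < ⊤ := by
  refine hC.induction_on (p := fun C => om.jointVolume {z ∈ (D \ K) \ I | (z, f z) ∈ C} f g < ⊤)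
    (by simp [HermitianForm.jointVolume]) (fun s t hst h => lt_of_le_of_lt
      (lintegral_mono_set (by exact fun z hz => ⟨hz.1, hst hz.2⟩)) h) (fun s t hs ht => lt_of_le_of_lt
        ((lintegral_mono_set (by exact fun z hz => hz.2.imp (⟨hz.1, ·⟩) (⟨hz.1, ·⟩))).trans
          (lintegral_union_le _ _ _)) (ENNReal.add_lt_top.2 ⟨hs, ht⟩)) fun p hp => ?_
  set i := 𝒜.chartAt p.2
  have hi : p.2 ∈ 𝒜.source i := 𝒜.mem_source_chartAt _
  have H := pre_of_meromorphic hk hO₀ hf i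
  have hS := hf.analytic_indet.isOpen_diff hO₀
  set W := ((D \ K) \ I) ∩ f ⁻¹' 𝒜.source i
  set x : Fin k ⊕ Fin (𝒜.dim i) → ℂ := Sum.elim p.1 (𝒜.chart i p.2)
  have hx : x ∈ MP_940f24_an.om D (𝒜.ambient i) := ⟨(hCD hp).1, 𝒜.chart_mem_ambient hi⟩
  have hA : AnAt (closure (gr (𝒜.chart i ∘ f) '' W)) x := by
    rw [closure_gr_eq]
    refine AnAt.preimage ((splitEquiv k (𝒜.dim i)).toContinuousLinearMap.analyticAt x) ?_
    refine ((hΓ.2 i).2 (splitEquiv k (𝒜.dim i) x) hx).congr ?_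
    have hcl : 𝒜.chartImage i (graphClosure D (K ∪ I) f) = _ :=
      chartImage_closure (𝒜 := 𝒜) i D (graphOn (D \ (K ∪ I)) f)
    rw [hcl, ← Set.sdiff_sdiff]
    filter_upwards [(hD.prod (𝒜.isOpen_ambient i)).mem_nhds (x := splitEquiv k (𝒜.dim i) x) hx]
      with q hq using and_iff_left hq
  obtain ⟨V, hV, hxV, hint⟩ := lelong_of_dimH H.isOpen_W H.analyticOnNhd_gr
    (gr_injective _).injOn hA (fun z hz => subset_closure ⟨z, hz, rfl⟩) (dimH_le_of_dense hA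
      (dimH_image_le_of_analytic H.analyticOnNhd_gr) (Eventually.of_forall fun y hy => closure_mono
        (by
          rintro _ ⟨z, hz, rfl⟩
          refine ⟨subset_closure ⟨z, hz, rfl⟩, ?_⟩
          filter_upwards [(isOpen_om hS H.isOpen_U).mem_nhds (x := gr (𝒜.chart i ∘ f) z)
            ⟨hz.1, 𝒜.chart_mem_ambient hz.2⟩] with y hy h
            using H.closed y h ⟨hy.1.1, hy.2⟩ hy.1.2) hy))
  obtain ⟨Q, hQn, hQV, hQ⟩ := local_compact_nhds
    ((hV.inter (isOpen_om hD H.isOpen_U)).mem_nhds ⟨hxV, hx⟩)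
  obtain ⟨M, hM⟩ := hQ.exists_bound_of_continuousOn (E := _ → _ → ℂ) (f := fun y a b =>
      Matrix.fromBlocks ((jac g (y ∘ Sum.inl))ᴴ * jac g (y ∘ Sum.inl)) 0 0 (om.h i (y ∘ Sum.inr)) a b)
    (continuousOn_pi.2 fun a => continuousOn_pi.2 fun b => by
      have h1 : ∀ a b, ContinuousOn (fun y : Fin k ⊕ Fin (𝒜.dim i) → ℂ =>
          jac g (y ∘ Sum.inl) a b) Q := fun a b =>
        ContinuousOn.comp (g := fun z => jac g z a b) (t := D) (fun z hz =>
          (analyticAt_jac (hg z hz) a b).continuousAt.continuousWithinAt)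
          continuous_comp_inl.continuousOn fun y hy => (hQV hy).2.1
      rcases a with a | a <;> rcases b with b | b
      · exact continuousOn_finsetSum Finset.univ fun j _ => (h1 j a).star.mul (h1 j b)
      · exact continuousOn_const
      · exact continuousOn_const
      · exact (om.smooth i a b).continuousOn.comp continuous_comp_inr.continuousOn
          fun y hy => (hQV hy).2.2)
  refine ⟨{q | q.2 ∈ 𝒜.source i ∧ Sum.elim q.1 (𝒜.chart i q.2) ∈ Q}, mem_nhdsWithin_of_mem_nhds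
    (inter_mem (continuousAt_snd.preimage_mem_nhds ((𝒜.isOpen_source i).mem_nhds hi))
      (ContinuousAt.preimage_mem_nhds (continuousAt_pi.2 fun j => ?_) hQn)), ?_⟩
  · rcases j with j | j
    · exact (continuous_apply j).continuousAt.comp continuousAt_fst
    · exact (continuous_apply j).continuousAt.comp
        (ContinuousAt.comp (g := 𝒜.chart i) (𝒜.continuousAt_chart hi) continuousAt_snd)
  have hm := H.measurableSet hQ.isClosed
  refine lt_of_le_of_lt ((lintegral_mono_set (t := W ∩ gr (𝒜.chart i ∘ f) ⁻¹' Q) fun z hz =>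
    ⟨⟨hz.1, hz.2.1⟩, hz.2.2⟩).trans (setLIntegral_mono' hm fun z hz => ?_))
    ((hint.mono_set (inter_subset_inter_right _ fun y hy => (hQV hy).1)).const_mul
      (|M| ^ k * Fintype.card (Fin k → Fin k ⊕ Fin (𝒜.dim i)))).lintegral_lt_top
  refine ENNReal.ofReal_le_ofReal (le_trans (le_of_eq ?_) (factorial_mul_det_le (fun a b =>
    ((norm_le_pi_norm _ b).trans (norm_le_pi_norm _ a)).trans (hM _ hz.2)) (jac (gr _) z)))
  rw [om.pullback_eq hS hf.holomorphic hz.1.1 (𝒜.mem_source_chartAt _) hz.1.2,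
    jac_gr (H.analytic z hz.1).differentiableAt, add_comm]
  simp [Matrix.conjTranspose_fromRows_eq_fromCols_conjTranspose, Matrix.fromCols_mul_fromBlocks,
    Matrix.fromCols_mul_fromRows, HermitianForm.pullback, gr]

theorem irreducible_across (hO : IsOpen (D \ K)) (hf : 𝒜.IsMeromorphic (D \ K) I f) (A₁ A₂)
    (h₁ : 𝒜.IsAnalyticProd D A₁) (h₂ : 𝒜.IsAnalyticProd D A₂)
    (hA : graphClosure D (K ∪ I) f = A₁ ∪ A₂) :
    graphClosure D (K ∪ I) f = A₁ ∨ graphClosure D (K ∪ I) f = A₂ := by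
  have e : graphClosure D (K ∪ I) f ∩ (D \ K) ×ˢ univ = graphClosure (D \ K) I f := by
    unfold graphClosure
    rw [← sdiff_sdiff]
    ext p
    exact ⟨fun h => ⟨h.1.1, h.2⟩, fun h => ⟨⟨h.1, h.2.1.1, trivial⟩, h.2⟩⟩
  have key : ∀ A, 𝒜.IsAnalyticProd D A → A ⊆ graphClosure D (K ∪ I) f →
      graphClosure (D \ K) I f = A ∩ (D \ K) ×ˢ univ → graphClosure D (K ∪ I) f = A := by
    intro A hAan hsub heq
    refine subset_antisymm (fun p hp => ?_) hsub
    refine IsAnalyticProd.mem_of_mem_closure hAan (closure_mono (fun q hq => ?_) hp.1) hp.2.1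
    have : q ∈ graphClosure (D \ K) I f := e ▸
      ⟨⟨subset_closure hq, hq.1.1, trivial⟩, ⟨hq.1.1, fun h => hq.1.2 (Or.inl h)⟩, trivial⟩
    exact (heq ▸ this).1
  exact (hf.irreducible _ _ (IsAnalyticProd.restrict h₁ hO sdiff_subset)
    (IsAnalyticProd.restrict h₂ hO sdiff_subset) (by rw [← e, hA, union_inter_distrib_right])).imp
      (key A₁ h₁ (hA ▸ subset_union_left)) (key A₂ h₂ (hA ▸ subset_union_right))

end Pool.Agent.Lib.MP_940f24_an
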