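import Pool.Agent.Lib.MP_940f24_an.PMix
import Pool.Agent.Lib.MP_940f24_an.LinAlg

/-!
Appending a holomorphic map `g` to the target.
-/

open Set Filter Topology MeasureTheory Metric Complex
open scoped ComplexOrder Matrix

namespace Pool.Agent.Lib.MP_940f24_an

variable {k N m : ℕ} {D O W I : Set (Fin k → ℂ)} {U : Set (Fin N → ℂ)}
  {f : (Fin k → ℂ) → (Fin N → ℂ)} {g : (Fin k → ℂ) → (Fin m → ℂ)}

/-- The pair `(f, g)`. -/
def app (f : (Fin k → ℂ) → (Fin N → ℂ)) (g : (Fin k → ℂ) → (Fin m → ℂ)) (z : Fin k → ℂ) :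
    Fin (N + m) → ℂ := Fin.append (f z) (g z)

/-- The graph of `g` over `ℂ ^ (k + N)`. -/
def liftG (g : (Fin k → ℂ) → (Fin m → ℂ)) (x : Fin k ⊕ Fin N → ℂ) : Fin k ⊕ Fin (N + m) → ℂ :=
  Sum.elim (x ∘ Sum.inl) (Fin.append (x ∘ Sum.inr) (g (x ∘ Sum.inl)))

theorem analyticAt_reindex {α β : Type} [Fintype α] [Fintype β] (σ : β → α) (y : α → ℂ) :
    AnalyticAt ℂ (fun x : α → ℂ => x ∘ σ) y :=
  analyticAt_pi_iff.2 fun l =>
    (ContinuousLinearMap.proj (R := ℂ) (φ := fun _ : α => ℂ) (σ l)).analyticAt y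

theorem analyticAt_append {E : Type} [NormedAddCommGroup E] [NormedSpace ℂ E]
    {a : E → (Fin N → ℂ)} {b : E → (Fin m → ℂ)} {z : E} (ha : AnalyticAt ℂ a z)
    (hb : AnalyticAt ℂ b z) : AnalyticAt ℂ (fun y => Fin.append (a y) (b y)) z := by
  refine analyticAt_pi_iff.2 fun j => ?_
  induction j using Fin.addCases with
  | left j => simpa only [Fin.append_left] using analyticAt_pi_iff.1 ha j
  | right j => simpa only [Fin.append_right] using analyticAt_pi_iff.1 hb j

theorem analyticAt_liftG {x : Fin k ⊕ Fin N → ℂ} (hg : AnalyticAt ℂ g (x ∘ Sum.inl)) :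
    AnalyticAt ℂ (liftG g) x := by
  refine analyticAt_pi_iff.2 fun j => ?_
  rcases j with l | j
  · exact analyticAt_pi_iff.1 (analyticAt_reindex Sum.inl x) l
  · exact analyticAt_pi_iff.1 (analyticAt_append (analyticAt_reindex Sum.inr x)
      (AnalyticAt.comp (g := g) hg (analyticAt_reindex Sum.inl x))) j

theorem drop_liftG (x : Fin k ⊕ Fin N → ℂ) : liftG g x ∘ Sum.map id (Fin.castAdd m) = x := by
  ext j
  rcases j with l | j <;> simp [liftG]

theorem last_liftG (x : Fin k ⊕ Fin N → ℂ) :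
    liftG g x ∘ Sum.inr ∘ Fin.natAdd N = g (x ∘ Sum.inl) := by
  ext j
  simp [liftG]

theorem mem_closure_app (hO : IsOpen O) (hg : AnalyticOnNhd ℂ g O)
    {y : Fin k ⊕ Fin (N + m) → ℂ} (hy : y ∘ Sum.inl ∈ O) :
    y ∈ closure (gr (app f g) '' (W ∩ O)) ↔ y ∘ Sum.map id (Fin.castAdd m) ∈ closure (gr f '' W) ∧
      y ∘ Sum.inr ∘ Fin.natAdd N - g (y ∘ Sum.inl) = 0 := by
  constructor
  · refine fun h => ⟨closure_mono ?_ (mem_closure_image (f := fun x => x ∘ Sum.map id (Fin.castAdd m))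
      (analyticAt_reindex (Sum.map id (Fin.castAdd m)) y).continuousAt h), ?_⟩
    · rintro _ ⟨_, ⟨z, hz, rfl⟩, rfl⟩
      exact ⟨z, hz.1, (drop_liftG (g := g) (gr f z)).symm⟩
    · refine isClosed_singleton.closure_subset (closure_mono ?_ (mem_closure_image
        (f := fun x => x ∘ Sum.inr ∘ Fin.natAdd N - g (x ∘ Sum.inl)) ((analyticAt_reindex
          (Sum.inr ∘ Fin.natAdd N) y).sub (AnalyticAt.comp (g := g) (hg _ hy) (analyticAt_reindex Sum.inl y))).continuousAt h))
      rintro _ ⟨_, ⟨z, -, rfl⟩, rfl⟩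
      exact sub_eq_zero.2 (last_liftG (g := g) (gr f z))
  · rintro ⟨h1, h2⟩
    have h3 : liftG g (y ∘ Sum.map id (Fin.castAdd m)) = y := by
      ext j
      rcases j with l | j
      · rfl
      · induction j using Fin.addCases with
        | left j => simp [liftG]
        | right j =>
          simp only [liftG, Sum.elim_inr, Fin.append_right]
          exact (congrFun (sub_eq_zero.1 h2) j).symm
    rw [← h3]
    refine closure_mono ?_ (mem_closure_image (analyticAt_liftG (x := y ∘ Sum.map id (Fin.castAdd m))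
      (hg _ hy)).continuousAt ((hO.preimage continuous_comp_inl).inter_closure ⟨hy, h1⟩))
    rintro _ ⟨_, ⟨h4, z, hz, rfl⟩, rfl⟩
    exact ⟨z, ⟨hz, h4⟩, rfl⟩

theorem Pre.append (H : Pre D W I U f) (hO : IsOpen O) (hg : AnalyticOnNhd ℂ g O)
    {V : Set (Fin m → ℂ)} (hV : IsOpen V) :
    Pre (D ∩ O) (W ∩ O) I {y | y ∘ Fin.castAdd m ∈ U ∧ y ∘ Fin.natAdd N ∈ V} (app f g) := by
  refine ⟨⟨H.isOpen_W.inter hO, fun z hz => analyticAt_append (H.analytic z hz.1) (hg z hz.2)⟩,
    H.isOpen_D.inter hO, (H.isOpen_U.preimage (by fun_prop)).inter (hV.preimage (by fun_prop)),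
    fun z hz => ⟨⟨(H.subset hz.1).1, hz.2⟩, (H.subset hz.1).2⟩, fun z hz => H.anAt_I z hz.1,
    fun z hz => H.dense_I z hz.1, fun x hx hΩ hI => ?_, fun x hΩ => ?_⟩
  · obtain ⟨h1, h2⟩ := (mem_closure_app hO hg hΩ.1.2).1 hx
    obtain ⟨z, hz, h3⟩ := H.closed _ h1 ⟨hΩ.1.1, hΩ.2.1⟩ hI
    obtain rfl : z = x ∘ Sum.inl := congrArg (· ∘ Sum.inl) h3
    refine ⟨_, ⟨hz, hΩ.1.2⟩, funext fun j => ?_⟩
    rcases j with l | j
    · rfl
    · induction j using Fin.addCases with
      | left j => simpa [gr, app] using congrFun h3 (Sum.inr j)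
      | right j => simpa [gr, app] using (congrFun (sub_eq_zero.1 h2) j).symm
  · refine (((H.anAt_graph _ ⟨hΩ.1.1, hΩ.2.1⟩).preimage
      (analyticAt_reindex (Sum.map id (Fin.castAdd m)) x)).inter (AnAt.of_finiteDimensional
        (A := {y | y ∘ Sum.inr ∘ Fin.natAdd N - g (y ∘ Sum.inl) = 0})
        ((analyticAt_reindex (Sum.inr ∘ Fin.natAdd N) x).sub (AnalyticAt.comp (g := g)
          (hg _ hΩ.1.2) (analyticAt_reindex Sum.inl x)))
        (Eventually.of_forall fun _ => Iff.rfl))).congr ?_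
    filter_upwards [(hO.preimage continuous_comp_inl).mem_nhds hΩ.1.2] with y hy
    exact (mem_closure_app hO hg hy).symm

theorem anAt_of_app (hO : IsOpen O) (hg : AnalyticOnNhd ℂ g O) {x : Fin k ⊕ Fin N → ℂ}
    (hx : x ∘ Sum.inl ∈ O) (h : AnAt (closure (gr (app f g) '' (W ∩ O))) (liftG g x)) :
    AnAt (closure (gr f '' W)) x := by
  refine (h.preimage (analyticAt_liftG (hg _ hx))).congr ?_
  filter_upwards [(hO.preimage continuous_comp_inl).mem_nhds hx] with y hy
  rw [mem_preimage, mem_closure_app (y := liftG g y) hO hg hy, drop_liftG, last_liftG]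
  exact and_iff_left (sub_self _)

theorem jac_app {z : Fin k → ℂ} (hf : AnalyticAt ℂ f z) (hg : AnalyticAt ℂ g z) :
    (jac (app f g) z).submatrix (Fin.castAdd m) id = jac f z ∧
      (jac (app f g) z).submatrix (Fin.natAdd N) id = jac g z := by
  have h := (analyticAt_append hf hg).differentiableAt
  constructor <;> ext j l <;>
    simp only [jac, Matrix.submatrix_apply, Matrix.of_apply, id, ← fderiv_comp_apply (h := app f g) h,
      ← fderiv_comp_apply hf.differentiableAt, ← fderiv_comp_apply hg.differentiableAt, app,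
      Fin.append_left, Fin.append_right]

theorem exists_minor_sq_le_det_add (k N m : ℕ) {T : Type} [TopologicalSpace T] {K : Set T}
    (hK : IsCompact K) {h : T → Matrix (Fin N) (Fin N) ℂ}
    (hc : ∀ a b, ContinuousOn (fun y => h y a b) K) (hpos : ∀ y ∈ K, (h y).PosDef) :
    ∃ C : ℝ, 0 ≤ C ∧ ∀ y ∈ K, ∀ (J : Matrix (Fin (N + m)) (Fin k) ℂ) (s : Fin k → Fin (N + m)),
      ‖(J.submatrix s id).det‖ ^ 2 ≤ C * ((J.submatrix (Fin.castAdd m) id)ᴴ * h y *
        J.submatrix (Fin.castAdd m) id +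
          (J.submatrix (Fin.natAdd N) id)ᴴ * J.submatrix (Fin.natAdd N) id).det.re := by
  set P : Matrix (Fin N) (Fin (N + m)) ℂ := (1 : Matrix _ _ ℂ).submatrix (Fin.castAdd m) id
  set R : Matrix (Fin m) (Fin (N + m)) ℂ := (1 : Matrix _ _ ℂ).submatrix (Fin.natAdd N) id
  have hP : ∀ (x : Fin (N + m) → ℂ) j, (P *ᵥ x) j = x (Fin.castAdd m j) := fun x j => by
    simp [P, Matrix.mulVec, dotProduct, Matrix.one_apply]
  have hR : ∀ (x : Fin (N + m) → ℂ) j, (R *ᵥ x) j = x (Fin.natAdd N j) := fun x j => by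
    simp [R, Matrix.mulVec, dotProduct, Matrix.one_apply]
  obtain ⟨C, hC0, hC⟩ := exists_minor_sq_le_det k (N + m) hK
    (h := fun y => Pᴴ * h y * P + Rᴴ * (1 : Matrix (Fin m) (Fin m) ℂ) * R) (fun a b => by
      simp only [Matrix.add_apply, Matrix.mul_apply]
      exact (continuousOn_finsetSum _ fun i _ => (continuousOn_finsetSum _ fun j _ =>
        continuousOn_const.mul (hc j i)).mul continuousOn_const).add continuousOn_const)
    fun y hy => by
      refine Matrix.PosDef.of_dotProduct_mulVec_pos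
        (((hpos y hy).posSemidef.conjTranspose_mul_mul_same P).add
          (Matrix.PosSemidef.one.conjTranspose_mul_mul_same R)).isHermitian fun x hx => ?_
      simp only [Matrix.add_mulVec, dotProduct_add, ← Matrix.mulVec_mulVec,
        Matrix.dotProduct_mulVec (star x), ← Matrix.star_mulVec]
      by_cases h1 : P *ᵥ x = 0
      · refine add_pos_of_nonneg_of_pos ((hpos y hy).posSemidef.dotProduct_mulVec_nonneg _)
          (Matrix.PosDef.one.dotProduct_mulVec_pos fun h2 => hx (funext fun j => ?_))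
        induction j using Fin.addCases with
        | left j => exact (hP x j).symm.trans (congrFun h1 j)
        | right j => exact (hR x j).symm.trans (congrFun h2 j)
      · exact add_pos_of_pos_of_nonneg ((hpos y hy).dotProduct_mulVec_pos h1)
          (Matrix.PosSemidef.one.dotProduct_mulVec_nonneg _)
  refine ⟨C, hC0, fun y hy J s => (hC y hy J s).trans (le_of_eq ?_)⟩
  have h1 : J.submatrix (Fin.castAdd m) id = P * J := by
    ext a b
    simp [P, Matrix.mul_apply, Matrix.one_apply]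
  have h2 : J.submatrix (Fin.natAdd N) id = R * J := by
    ext a b
    simp [R, Matrix.mul_apply, Matrix.one_apply]
  rw [h1, h2]
  simp only [Matrix.conjTranspose_mul, Matrix.mul_add, Matrix.add_mul, Matrix.mul_assoc,
    Matrix.one_mul]

end Pool.Agent.Lib.MP_940f24_an
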