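import Pool.Agent.Lib.MP_940f24_an.PBase

/-!
Finite volume and the Stokes formula away from the removed set.
-/

open Set Filter Topology MeasureTheory Metric Complex
open scoped ContDiff

namespace Pool.Agent.Lib.MP_940f24_an

variable {k N : ℕ} {D W I : Set (Fin k → ℂ)} {U : Set (Fin N → ℂ)}
  {f : (Fin k → ℂ) → (Fin N → ℂ)}

/-- A normalized local equation of `I`. -/
theorem Pre.exists_equation (H : Pre D W I U f) {z₀ : Fin k → ℂ}
    (hz₀ : z₀ ∈ D) :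
    ∃ (r : ℕ) (g : (Fin k → ℂ) → (Fin r → ℂ)) (V : Set (Fin k → ℂ)), IsOpen V ∧ z₀ ∈ V ∧
      AnalyticOnNhd ℂ g V ∧ (∀ z ∈ V, z ∈ I ↔ g z = 0) ∧ ∀ z ∈ V, nsq (g z) ≤ 1 := by
  obtain ⟨r, g, hg, hI⟩ := H.anAt_I z₀ hz₀
  set M := nsq (g z₀) + 1 with hM
  have hM1 : 1 ≤ M := by have := nsq_nonneg (g z₀); linarith
  have hb : ∀ᶠ z in 𝓝 z₀, nsq (g z) < M :=
    (continuous_nsq.continuousAt.comp hg.continuousAt).eventually (gt_mem_nhds (by simp [hM]))
  obtain ⟨V, hV, hVo, hz₀V⟩ := _root_.mem_nhds_iff.1 (hI.and (hb.and hg.eventually_analyticAt))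
  have hM0 : (M : ℂ) ≠ 0 := by
    have : M ≠ 0 := by linarith
    exact_mod_cast this
  refine ⟨r, fun z => (M : ℂ)⁻¹ • g z, V, hVo, hz₀V,
    fun z hz => (hV hz).2.2.const_smul (c := (M : ℂ)⁻¹), fun z hz => ?_, fun z hz => ?_⟩
  · rw [(hV hz).1]; simp [hM0]
  · rw [nsq_smul, norm_inv, Complex.norm_real, Real.norm_of_nonneg (by linarith), inv_pow,
      inv_mul_le_iff₀ (by positivity)]
    nlinarith [(hV hz).2.1]

/-- Finite volume away from the origin. -/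
theorem Pre.integrableOn_vol₁ (H : Pre D W I U f) {Q : Set (Fin k ⊕ Fin N → ℂ)}
    (hQ : IsCompact Q) (hQΩ : Q ⊆ om D U) : IntegrableOn (vol (gr f)) (W ∩ gr f ⁻¹' Q) := by
  refine hQ.induction_on (p := fun S => IntegrableOn (vol (gr f)) (W ∩ gr f ⁻¹' S) volume)
    (by simp)
    (fun s t hst ht => ht.mono_set (inter_subset_inter_right _ (preimage_mono hst)))
    (fun s t hs ht => by rw [preimage_union, inter_union_distrib_left]; exact hs.union ht) ?_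
  intro x hx
  have hxΩ := hQΩ hx
  obtain ⟨r, g, V, hVo, hzV, hg, hI, -⟩ := H.exists_equation hxΩ.1
  have hne : ¬ g =ᶠ[𝓝 (x ∘ Sum.inl)] 0 := by
    intro h
    have h1 := mem_closure_iff_frequently.1 (H.dense_I _ hxΩ.1)
    obtain ⟨y, hy1, hy2, hy3⟩ := (h1.and_eventually (h.and (hVo.mem_nhds hzV))).exists
    exact hy1 ((hI y hy3).2 hy2)
  obtain ⟨i, hi⟩ := exists_comp_not_eventuallyEq_zero hne
  have hgi : AnalyticAt ℂ (fun y => g y i) (x ∘ Sum.inl) := analyticAt_pi_iff.1 (hg _ hzV) i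
  have hinl : AnalyticAt ℂ (fun y : Fin k ⊕ Fin N → ℂ => y ∘ Sum.inl) x :=
    analyticAt_pi_iff.2 fun l =>
      (ContinuousLinearMap.proj (R := ℂ) (φ := fun _ : Fin k ⊕ Fin N => ℂ) (Sum.inl l)).analyticAt x
  obtain ⟨V', hV', hV'o, hzV'⟩ :=
    _root_.mem_nhds_iff.1 (eventually_not_eventuallyEq_zero hgi hi)
  have hd : ∀ᶠ y in 𝓝 x, y ∈ closure (gr f '' W) →
      y ∈ closure (closure (gr f '' W) ∩ {y | g (y ∘ Sum.inl) i ≠ 0}) := by
    have hopen : IsOpen {y : Fin k ⊕ Fin N → ℂ | y ∘ Sum.inl ∈ V'} :=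
      hV'o.preimage continuous_comp_inl
    filter_upwards [hopen.mem_nhds hzV'] with y hy hyA
    refine closure_minimal ?_ isClosed_closure (hopen.inter_closure ⟨hy, hyA⟩)
    rintro _ ⟨hzV', z, hz, rfl⟩
    have h1 : ∃ᶠ w in 𝓝 z, g w i ≠ 0 := by
      have := (hV' hzV').2
      rwa [EventuallyEq, not_eventually] at this
    have h2 : z ∈ closure {w ∈ W | g w i ≠ 0} :=
      mem_closure_iff_frequently.2
        ((h1.and_eventually (H.isOpen_W.mem_nhds hz)).mono fun w hw => ⟨hw.2, hw.1⟩)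
    refine closure_mono ?_ (mem_closure_image (H.analyticOnNhd_gr z hz).continuousAt h2)
    rintro _ ⟨w, hw, rfl⟩
    exact ⟨subset_closure (mem_image_of_mem _ hw.1), hw.2⟩
  have hsub : ∀ᶠ y in 𝓝 x, y ∈ closure (gr f '' W) → g (y ∘ Sum.inl) i ≠ 0 →
      y ∈ gr f '' W := by
    filter_upwards [(hVo.preimage continuous_comp_inl).mem_nhds hzV,
      (isOpen_om H.isOpen_D H.isOpen_U).mem_nhds hxΩ] with y hy hyΩ hyA hy0
    refine H.closed y hyA hyΩ fun hyI => hy0 ?_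
    rw [(hI _ hy).1 hyI]; rfl
  obtain ⟨O, hO, hxO, hint⟩ := lelong H.isOpen_W H.analyticOnNhd_gr (gr_injective f).injOn
    (H.anAt_graph x hxΩ) (fun z hz => subset_closure (mem_image_of_mem _ hz))
    (h := fun y => g (y ∘ Sum.inl) i) (AnalyticAt.comp (g := fun y => g y i) hgi hinl) hd hsub
  exact ⟨O, nhdsWithin_le_nhds (hO.mem_nhds hxO), hint⟩

section field
variable (p : (Fin k ⊕ Fin N → ℂ) →L[ℂ] (Fin k → ℂ)) (i₀ : Fin k)

theorem Pre.stokes_union (H : Pre D W I U f) {O₁ O₂ : Set (Fin k ⊕ Fin N → ℂ)}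
    (hO₁ : IsOpen O₁) (hO₂ : IsOpen O₂) (hΩ : O₁ ∪ O₂ ⊆ om D U)
    (h₁ : Stokes W (vf (p ∘ gr f) i₀) (Adm f O₁)) (h₂ : Stokes W (vf (p ∘ gr f) i₀) (Adm f O₂)) :
    Stokes W (vf (p ∘ gr f) i₀) (Adm f (O₁ ∪ O₂)) := by
  rintro a ha ⟨Q, hQ, hQO, haQ⟩ h2 h1
  have hW := H.isOpen_W
  have hvol := H.integrableOn_vol₁ hQ (hQO.trans hΩ)
  obtain ⟨Q₁, Q₂, hQ₁, hQ₂, hQO₁, hQO₂, hQeq⟩ := hQ.binary_compact_cover hO₁ hO₂ hQO
  obtain ⟨ρ, hρ, hρc, hρO, hρ1, hρb⟩ := exists_bump hQ₁ hO₁ hQO₁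
  have hρ' : ContDiff ℝ 1 fun x => (ρ x : ℂ) :=
    ofRealCLM.contDiff.comp (hρ.of_le (by exact_mod_cast le_top))
  obtain ⟨a1, b1, c1⟩ := H.mul_ambient p i₀ (θ := fun x => (ρ x : ℂ)) hρ'
    (fun x => by rw [Complex.norm_real, Real.norm_of_nonneg (hρb x).1]; exact (hρb x).2)
    hQ hvol ha haQ h2 h1
  obtain ⟨a2, b2, c2⟩ := H.mul_ambient p i₀ (θ := fun x => 1 - (ρ x : ℂ))
    (contDiff_const.sub hρ')
    (fun x => by
      rw [← ofReal_one, ← ofReal_sub, Complex.norm_real,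
        Real.norm_of_nonneg (by linarith [(hρb x).2])]
      linarith [(hρb x).1])
    hQ hvol ha haQ h2 h1
  have e1 := h₁ _ a1 ⟨tsupport ρ, hρc, hρO, fun z hz => subset_tsupport _ (by
    have := left_ne_zero_of_mul hz.2
    simpa using this)⟩ b1 c1
  have e2 := h₂ _ a2 ⟨Q₂, hQ₂, hQO₂, fun z hz => by
    have h3 := haQ ⟨hz.1, right_ne_zero_of_mul hz.2⟩
    rw [hQeq] at h3
    refine h3.resolve_left fun h4 => left_ne_zero_of_mul hz.2 ?_
    rw [hρ1 _ h4]; simp⟩ b2 c2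
  rw [← zero_add (0 : ℂ)]
  nth_rewrite 1 [← e1]
  rw [← e2, ← integral_add c1 c2]
  refine setIntegral_congr_fun hW.measurableSet fun z hz => ?_
  rw [← dz_add ((a1.differentiableOn one_ne_zero z hz).differentiableAt (hW.mem_nhds hz))
    ((a2.differentiableOn one_ne_zero z hz).differentiableAt (hW.mem_nhds hz))]
  exact dz_congr (Eventually.of_forall fun y => by ring) _

theorem Pre.stokes_local (H : Pre D W I U f) {x : Fin k ⊕ Fin N → ℂ} (hx : x ∈ om D U) :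
    ∃ O, IsOpen O ∧ x ∈ O ∧ O ⊆ om D U ∧ Stokes W (vf (p ∘ gr f) i₀) (Adm f O) := by
  obtain ⟨r, g, V, hVo, hzV, hg, hI, hg1⟩ := H.exists_equation hx.1
  have hW := H.isOpen_W
  have hO : IsOpen (om D U ∩ {y | y ∘ Sum.inl ∈ V}) :=
    (isOpen_om H.isOpen_D H.isOpen_U).inter (hVo.preimage continuous_comp_inl)
  refine ⟨_, hO, ⟨hx, hzV⟩, inter_subset_left, ?_⟩
  rintro a ha ⟨Q, hQ, hQO, haQ⟩ h2 h1
  obtain ⟨ψ, hψ, hψc, hψO, hψ1, hψb⟩ := exists_bump hQ hO hQO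
  have hψ' : ContDiff ℝ 1 ψ := hψ.of_le (by exact_mod_cast le_top)
  have hW' : IsOpen (W ∩ V) := hW.inter hVo
  have hc := (H.analyticOnNhd_vf p i₀).mono (inter_subset_left (t := V))
  have hcut : CutData (W ∩ V) (vf (p ∘ gr f) i₀) (fun S => ∃ K, IsCompact K ∧ K ⊆ W ∩ V ∧ S ⊆ K)
      g (fun z => ψ (gr f z)) := by
    refine ⟨hW', hc, stokes_compact hW' hc fun z hz => H.cdiv_vf p i₀ z hz.1, ?_,
      hg.mono inter_subset_right, fun z hz h => (H.subset hz.1).2 ((hI z hz.2).2 h),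
      fun z hz => hg1 z hz.2, ?_, (H.contDiffOn_comp hψ').mono inter_subset_left,
      fun z _ => by rw [abs_of_nonneg (hψb _).1]; exact (hψb _).2, ?_, ?_⟩
    · rintro S T hTS ⟨K, h1, h2, h3⟩
      exact ⟨K, h1, h2, hTS.trans h3⟩
    · rintro S - - ⟨K, hK, hKW, hSK⟩
      refine IntegrableOn.mono_set (ContinuousOn.integrableOn_compact hK ?_) hSK
      refine continuous_nsq.comp_continuousOn fun z hz => ?_
      exact ((hg z (hKW hz).2).fderiv.continuousAt.clm_apply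
        (hc z (hKW hz)).continuousAt).continuousWithinAt
    · intro δ hδ
      have hcl : IsClosed (tsupport ψ ∩ (fun y => nsq (g (y ∘ Sum.inl))) ⁻¹' Ici δ) := by
        refine ContinuousOn.preimage_isClosed_of_isClosed ?_ (isClosed_tsupport ψ) isClosed_Ici
        exact continuous_nsq.comp_continuousOn
          (hg.continuousOn.comp continuous_comp_inl.continuousOn fun y hy => (hψO hy).2)
      refine ⟨(fun y => y ∘ Sum.inl) '' ((tsupport ψ ∩
        (fun y => nsq (g (y ∘ Sum.inl))) ⁻¹' Ici δ) ∩ closure (gr f '' W)),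
        ((hψc.isCompact.of_isClosed_subset hcl inter_subset_left).inter_right
          isClosed_closure).image continuous_comp_inl, ?_, ?_⟩
      · rintro _ ⟨y, ⟨⟨hy1, hy2⟩, hy3⟩, rfl⟩
        have hyI : y ∘ Sum.inl ∉ I := fun h => by
          have h0 := (hI _ (hψO hy1).2).1 h
          simp only [mem_preimage, h0, mem_Ici, nsq] at hy2
          simp at hy2
          linarith
        obtain ⟨z, hz, rfl⟩ := H.closed y hy3 (hψO hy1).1 hyI
        exact ⟨hz, (hψO hy1).2⟩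
      · rintro z ⟨hz, hz1, hz2⟩
        exact ⟨gr f z, ⟨⟨subset_tsupport _ hz1, hz2⟩,
          subset_closure (mem_image_of_mem _ hz.1)⟩, rfl⟩
    · exact (H.energy_comp_of_support p i₀ hψ' hψc
        (H.integrableOn_vol₁ hψc (hψO.trans inter_subset_left))).mono_set inter_subset_left
  have h3 := hcut.stokes_step (ha.mono inter_subset_left)
    (fun z hz h => hψ1 _ (haQ ⟨hz.1, h⟩)) (h2.mono_set inter_subset_left)
    (h1.mono_set inter_subset_left)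
  rw [← h3]
  refine setIntegral_eq_of_subset_of_forall_sdiff_eq_zero hW.measurableSet inter_subset_left
    fun z hz => H.dz_eq_zero hQ.isClosed haQ hz.1 (fun h => hz.2 ⟨hz.1, (hQO h).2⟩) _

end field

/-- Stokes formula away from the origin. -/
theorem Pre.stokes₁ (H : Pre D W I U f) (p : (Fin k ⊕ Fin N → ℂ) →L[ℂ] (Fin k → ℂ))
    (i₀ : Fin k) : Stokes W (vf (p ∘ gr f) i₀) (Adm f (om D U)) := by
  rintro a ha ⟨Q, hQ, hQO, haQ⟩ h2 h1
  have : ∃ O, IsOpen O ∧ Q ⊆ O ∧ O ⊆ om D U ∧ Stokes W (vf (p ∘ gr f) i₀) (Adm f O) := by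
    refine hQ.induction_on (p := fun S => ∃ O, IsOpen O ∧ S ⊆ O ∧ O ⊆ om D U ∧
      Stokes W (vf (p ∘ gr f) i₀) (Adm f O)) ?_ ?_ ?_ ?_
    · refine ⟨∅, isOpen_empty, Subset.rfl, empty_subset _, ?_⟩
      rintro b - ⟨Q', hQ', hQ'e, hb⟩ - -
      refine setIntegral_eq_zero_of_forall_eq_zero fun z hz => ?_
      exact H.dz_eq_zero hQ'.isClosed hb hz (fun h => hQ'e h) _
    · rintro s t hst ⟨O, h1, h2, h3⟩
      exact ⟨O, h1, hst.trans h2, h3⟩
    · rintro s t ⟨O₁, h1, h2, h3, h4⟩ ⟨O₂, h5, h6, h7, h8⟩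
      exact ⟨O₁ ∪ O₂, h1.union h5, union_subset_union h2 h6, union_subset h3 h7,
        H.stokes_union p i₀ h1 h5 (union_subset h3 h7) h4 h8⟩
    · intro x hx
      obtain ⟨O, h1, h2, h3, h4⟩ := H.stokes_local p i₀ (hQO hx)
      exact ⟨O, nhdsWithin_le_nhds (h1.mem_nhds h2), O, h1, Subset.rfl, h3, h4⟩
  obtain ⟨O, -, hQO', -, hS⟩ := this
  exact hS a ha ⟨Q, hQ, hQO', haQ⟩ h2 h1

end Pool.Agent.Lib.MP_940f24_an
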