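import Pool.Agent.Lib.MP_940f24_an.PPsh
import Pool.Agent.Lib.MP_940f24_an.PPre
import Pool.Agent.Lib.MP_940f24_an.PCoreB

/-!
All mixed minors are square integrable across a pluripolar set.
-/

open Set Filter Topology MeasureTheory Metric Complex
open scoped ContDiff

namespace Pool.Agent.Lib.MP_940f24_an

variable {k N : ℕ} {D D₀ W I : Set (Fin k → ℂ)} {U : Set (Fin N → ℂ)}
  {f : (Fin k → ℂ) → (Fin N → ℂ)} {u : (Fin k → ℂ) → ℝ}

/-- The local situation: the set `D \ D₀` is removed by means of the function `u`. -/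
structure Pol (D D₀ W I : Set (Fin k → ℂ)) (U : Set (Fin N → ℂ))
    (f : (Fin k → ℂ) → (Fin N → ℂ)) (u : (Fin k → ℂ) → ℝ) : Prop extends Pre D₀ W I U f where
  pos : 0 < k
  isOpen_big : IsOpen D
  bdd : ∃ M : ℝ, ∀ z ∈ W, nsq z ≤ M
  smooth : ContDiffOn ℝ 2 u D₀
  nonpos : ∀ z ∈ W, u z ≤ 0
  psh : ∀ z ∈ W, ∀ v, 0 ≤ levi u z v
  level : ∀ T, IsCompact T → T ⊆ D → ∀ δ : ℝ, IsClosed (T ∩ {z ∈ D₀ | δ ≤ u z})
  trap : ∀ T, IsCompact T → T ⊆ U → ∃ K₀, IsCompact K₀ ∧ K₀ ⊆ D ∧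
    ∀ y ∈ closure (gr f '' W), y ∈ om D T → y ∘ Sum.inl ∉ D₀ → y ∘ Sum.inl ∈ K₀
  top : ∀ Q, IsCompact Q → Q ⊆ U → ∀ s : Fin k → Fin N,
    IntegrableOn (fun z => ‖minor f s z‖ ^ 2) (W ∩ f ⁻¹' Q)

theorem Pre.pfun (H : Pre D₀ W I U f) (p : (Fin k ⊕ Fin N → ℂ) →L[ℂ] (Fin k → ℂ)) (i₀ : Fin k)
    {u' : (Fin k → ℂ) → ℝ} (hu : ContDiffOn ℝ 2 u' D₀) (h0 : ∀ z ∈ W, u' z ≤ 0)
    (hl : ∀ z ∈ W, ∀ v, 0 ≤ levi u' z v) :
    PFun W (vf (p ∘ gr f) i₀) (Adm f (om D₀ U)) (fun z => Real.exp (u' z))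
      (fun z => (Real.exp (u' z) : ℝ) * dz (fun x => (u' x : ℂ)) z (vf (p ∘ gr f) i₀ z))
      (fun z => Real.exp (u' z) * (‖dz (fun x => (u' x : ℂ)) z (vf (p ∘ gr f) i₀ z)‖ ^ 2 +
        levi u' z (vf (p ∘ gr f) i₀ z) / 4)) := by
  refine pfun_exp H.isOpen_D H.isOpen_W (fun z hz => (H.subset hz).1) (H.analyticOnNhd_vf p i₀)
    (H.stokes₁ p i₀) Adm.mono hu h0 (fun z hz => hl z hz _) ?_
  rintro S hS hSW ⟨Q', hQ', hQ'Ω, hSQ'⟩
  obtain ⟨C, hC⟩ := H.nsq_vf_le p i₀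
  have hvol := (H.integrableOn_vol₁ hQ' hQ'Ω).mono_set
    (show S ⊆ W ∩ gr f ⁻¹' Q' from fun z hz => ⟨hSW hz, hSQ' hz⟩)
  refine ⟨Integrable.mono' (hvol.const_mul C) ?_ ?_, _, hQ'.image continuous_comp_inl,
    by rintro _ ⟨y, hy, rfl⟩; exact (hQ'Ω hy).1, fun z hz => ⟨gr f z, hSQ' hz, rfl⟩⟩
  · exact (continuous_nsq.comp_continuousOn
      ((H.analyticOnNhd_vf p i₀).continuousOn.mono hSW)).aestronglyMeasurable hS
  · refine (ae_restrict_iff' hS).2 (Eventually.of_forall fun z hz => ?_)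
    rw [Real.norm_of_nonneg (nsq_nonneg _)]
    exact hC z (hSW hz)

theorem Pol.cut (H : Pol D D₀ W I U f u) (p : (Fin k ⊕ Fin N → ℂ) →L[ℂ] (Fin k → ℂ))
    (i₀ : Fin k) {ψ : (Fin k → ℂ) → ℝ} (hψ : ContDiffOn ℝ 1 ψ W) (hb : ∀ z ∈ W, |ψ z| ≤ 1)
    {Q : Set (Fin k ⊕ Fin N → ℂ)} (hQ : IsCompact Q) (hQΩ : Q ⊆ om D U)
    (hψQ : ∀ z ∈ W, ψ z ≠ 0 → gr f z ∈ Q)
    (hE : IntegrableOn (fun z => ‖dz (fun y => (ψ y : ℂ)) z (vf (p ∘ gr f) i₀ z)‖ ^ 2) W) :
    PCut W (vf (p ∘ gr f) i₀) (Adm f (om D₀ U)) (fun z => Real.exp (u z))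
      (fun z => (Real.exp (u z) : ℝ) * dz (fun x => (u x : ℂ)) z (vf (p ∘ gr f) i₀ z))
      (fun z => Real.exp (u z) * (‖dz (fun x => (u x : ℂ)) z (vf (p ∘ gr f) i₀ z)‖ ^ 2 +
        levi u z (vf (p ∘ gr f) i₀ z) / 4)) ψ := by
  refine ⟨H.pfun p i₀ H.smooth H.nonpos H.psh, hψ, hb, fun δ hδ => ⟨_, hQ.inter_right
    ((H.level _ (hQ.image continuous_comp_inl) (by rintro _ ⟨y, hy, rfl⟩; exact (hQΩ hy).1)
      (Real.log δ)).preimage continuous_comp_inl), fun y hy => ⟨hy.2.2.1, (hQΩ hy.1).2⟩, ?_⟩, hE⟩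
  rintro z ⟨hz, h1, h2⟩
  exact ⟨hψQ z hz h1, ⟨_, hψQ z hz h1, rfl⟩, (H.subset hz).1, (Real.log_le_iff_le_exp hδ).2 h2⟩

theorem Pol.minor_step (H : Pol D D₀ W I U f u) {s : Fin k → Fin k ⊕ Fin N} {i₀ l : Fin k}
    (hs : s i₀ = Sum.inl l)
    (ih : ∀ m Q, IsCompact Q → Q ⊆ om D U → IntegrableOn
      (fun z => ‖minor (gr f) (Function.update s i₀ (Sum.inr m)) z‖ ^ 2) (W ∩ gr f ⁻¹' Q))
    {Q : Set (Fin k ⊕ Fin N → ℂ)} (hQ : IsCompact Q) (hQΩ : Q ⊆ om D U) :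
    IntegrableOn (fun z => ‖minor (gr f) s z‖ ^ 2) (W ∩ gr f ⁻¹' Q) := by
  have hW := H.isOpen_W
  set c := vf (sel s ∘ gr f) i₀ with hc
  obtain ⟨φ, hφ, hφc, hφO, hφ1, hφb⟩ := exists_bump (hQ.image continuous_comp_inr) H.isOpen_U
    (by rintro _ ⟨y, hy, rfl⟩; exact (hQΩ hy).2)
  obtain ⟨K₀, hK₀, hK₀D, htrap⟩ := H.trap _ hφc hφO
  obtain ⟨K₁, hK₁, hK₀₁, hK₁D⟩ := exists_compact_between hK₀ H.isOpen_big hK₀D
  obtain ⟨χ, hχ, hχc, hχO, hχ1, hχb⟩ := exists_bump ((hQ.image continuous_comp_inl).union hK₁)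
    H.isOpen_big (union_subset (by rintro _ ⟨y, hy, rfl⟩; exact (hQΩ hy).1) hK₁D)
  have hχ' : ContDiff ℝ 1 fun x => (χ x : ℂ) :=
    ofRealCLM.contDiff.comp (hχ.of_le (by exact_mod_cast le_top))
  have hφ' : ContDiff ℝ 1 fun x => (φ x : ℂ) :=
    ofRealCLM.contDiff.comp (hφ.of_le (by exact_mod_cast le_top))
  have hfC : ContDiffOn ℝ 1 f W :=
    (H.analytic.contDiffOn hW.uniqueDiffOn).restrict_scalars ℝ
  have hψ : ContDiffOn ℝ 1 (fun z => χ z * φ (f z)) W :=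
    (hχ.of_le (by exact_mod_cast le_top)).contDiffOn.mul
      ((hφ.of_le (by exact_mod_cast le_top)).comp_contDiffOn hfC)
  set Q' := {y : Fin k ⊕ Fin N → ℂ | y ∘ Sum.inl ∈ tsupport χ ∧ y ∘ Sum.inr ∈ tsupport φ}
  have hQ' : IsCompact Q' := isCompact_split hχc hφc
  have hQ'Ω : Q' ⊆ om D U := fun y hy => ⟨hχO hy.1, hφO hy.2⟩
  set Q'' := {y : Fin k ⊕ Fin N → ℂ | y ∘ Sum.inl ∈ tsupport χ \ interior K₁ ∧
    y ∘ Sum.inr ∈ tsupport φ} ∩ closure (gr f '' W)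
  have hQ'' : IsCompact Q'' :=
    (isCompact_split (hχc.isCompact.diff isOpen_interior) hφc).inter_right isClosed_closure
  have hQ''Ω : Q'' ⊆ om D₀ U := fun y hy => ⟨by_contra fun h =>
    hy.1.1.2 (hK₀₁ (htrap y hy.2 ⟨hχO hy.1.1.1, hy.1.2⟩ h)), hφO hy.1.2⟩
  obtain ⟨L₁, hL₁⟩ := (hχ'.continuous_fderiv one_ne_zero).bounded_above_of_compact_support
    ((hχc.comp_left (g := fun t : ℝ => (t : ℂ)) ofReal_zero).fderiv ℝ)
  obtain ⟨L₂, hL₂⟩ := (hφ'.continuous_fderiv one_ne_zero).bounded_above_of_compact_support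
    ((hφc.comp_left (g := fun t : ℝ => (t : ℂ)) ofReal_zero).fderiv ℝ)
  obtain ⟨C, hC⟩ := H.nsq_vf_le (sel s) i₀
  have hcomp : ∀ z ∈ W, ∀ m, Sum.elim (c z) (fderiv ℂ f z (c z)) m =
      minor (gr f) (Function.update s i₀ m) z := fun z hz m => by
    rw [← fderiv_gr (H.analytic z hz).differentiableAt,
      fderiv_vf_sel (H.analyticOnNhd_gr z hz).differentiableAt]
  have hE : IntegrableOn (fun z => ‖dz (fun y => ((χ y * φ (f y) : ℝ) : ℂ)) z (c z)‖ ^ 2) W := by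
    have i1 := (H.integrableOn_vol₁ hQ'' hQ''Ω).const_mul (2 * L₁ ^ 2 * C)
    have i2 := (integrable_finsetSum Finset.univ fun m _ => ih m Q' hQ' hQ'Ω).const_mul
      (2 * L₂ ^ 2)
    rw [← IntegrableOn, ← integrable_indicator_iff (H.measurableSet hQ''.isClosed)] at i1
    rw [← IntegrableOn, ← integrable_indicator_iff (H.measurableSet hQ'.isClosed)] at i2
    refine Integrable.mono' (i1.integrableOn.add i2.integrableOn) ?_ ?_
    · exact ((continuousOn_dz hW (ofRealCLM.contDiff.comp_contDiffOn hψ)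
        (H.analyticOnNhd_vf _ i₀).continuousOn).norm.pow 2).aestronglyMeasurable hW.measurableSet
    refine (ae_restrict_iff' hW.measurableSet).2 (Eventually.of_forall fun z hz => ?_)
    have hd := (H.analytic z hz).differentiableAt
    have hφd : DifferentiableAt ℝ (fun x => (φ x : ℂ)) (f z) := hφ'.differentiable one_ne_zero _
    simp only [ofReal_mul, Pi.add_apply]
    have hφf : DifferentiableAt ℝ (fun y => (φ (f y) : ℂ)) z := hφd.comp z (hd.restrictScalars ℝ)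
    rw [Real.norm_of_nonneg (by positivity), dz_mul (hχ'.differentiable one_ne_zero _) hφf,
      dz_comp_holo hφd hd]
    have t1 : 2 * ‖dz (fun y => (χ y : ℂ)) z (c z) * (φ (f z) : ℂ)‖ ^ 2 ≤
        (W ∩ gr f ⁻¹' Q'').indicator (fun z => 2 * L₁ ^ 2 * C * vol (gr f) z) z := by
      by_cases hzQ : gr f z ∈ Q''
      · rw [indicator_of_mem (show z ∈ W ∩ gr f ⁻¹' Q'' from ⟨hz, hzQ⟩), norm_mul]
        have h1 := (norm_dz_le (fun y => (χ y : ℂ)) z (c z)).trans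
          (mul_le_mul_of_nonneg_right (hL₁ z) (norm_nonneg _))
        have h2 : ‖(φ (f z) : ℂ)‖ ≤ 1 := by
          rw [Complex.norm_real, Real.norm_of_nonneg (hφb _).1]; exact (hφb _).2
        have h3 := (norm_sq_le_nsq (c z)).trans (hC z hz)
        have hL0 : 0 ≤ L₁ := (norm_nonneg _).trans (hL₁ 0)
        calc _ ≤ 2 * (L₁ * ‖c z‖ * 1) ^ 2 := by gcongr
          _ = 2 * L₁ ^ 2 * ‖c z‖ ^ 2 := by ring
          _ ≤ 2 * L₁ ^ 2 * (C * vol (gr f) z) := by gcongr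
          _ = _ := by ring
      · rw [indicator_of_notMem (fun h => hzQ h.2)]
        have : dz (fun y => (χ y : ℂ)) z (c z) * (φ (f z) : ℂ) = 0 := by
          by_cases h1 : f z ∈ tsupport φ
          · have h2 : ∃ r : ℂ, (fun y => (χ y : ℂ)) =ᶠ[𝓝 z] fun _ => r := by
              by_cases h3 : z ∈ tsupport χ
              · have h4 : z ∈ interior K₁ := by
                  by_contra h4
                  exact hzQ ⟨⟨⟨h3, h4⟩, h1⟩, subset_closure (mem_image_of_mem _ hz)⟩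
                refine ⟨1, ?_⟩
                filter_upwards [isOpen_interior.mem_nhds h4] with y hy
                rw [hχ1 y (Or.inr (interior_subset hy)), ofReal_one]
              · refine ⟨0, ?_⟩
                filter_upwards [notMem_tsupport_iff_eventuallyEq.1 h3] with y hy
                rw [hy]; rfl
            obtain ⟨r, hr⟩ := h2
            rw [dz_congr hr, dz_const, zero_mul]
          · rw [image_eq_zero_of_notMem_tsupport h1]; simp
        rw [this]; simp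
    have t2 : 2 * ‖(χ z : ℂ) * dz (fun y => (φ y : ℂ)) (f z) (fderiv ℂ f z (c z))‖ ^ 2 ≤
        (W ∩ gr f ⁻¹' Q').indicator (fun z => 2 * L₂ ^ 2 *
          ∑ m, ‖minor (gr f) (Function.update s i₀ (Sum.inr m)) z‖ ^ 2) z := by
      by_cases hzQ : gr f z ∈ Q'
      · rw [indicator_of_mem (show z ∈ W ∩ gr f ⁻¹' Q' from ⟨hz, hzQ⟩), norm_mul]
        have h1 := (norm_dz_le (fun y => (φ y : ℂ)) (f z) (fderiv ℂ f z (c z))).trans
          (mul_le_mul_of_nonneg_right (hL₂ _) (norm_nonneg _))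
        have h2 : ‖(χ z : ℂ)‖ ≤ 1 := by
          rw [Complex.norm_real, Real.norm_of_nonneg (hχb _).1]; exact (hχb _).2
        have h3 : ‖fderiv ℂ f z (c z)‖ ^ 2 ≤
            ∑ m, ‖minor (gr f) (Function.update s i₀ (Sum.inr m)) z‖ ^ 2 := by
          refine (norm_sq_le_nsq _).trans (le_of_eq ?_)
          refine Finset.sum_congr rfl fun m _ => ?_
          rw [← hcomp z hz, Sum.elim_inr]
        have hL0 : 0 ≤ L₂ := (norm_nonneg _).trans (hL₂ 0)
        calc _ ≤ 2 * (1 * (L₂ * ‖fderiv ℂ f z (c z)‖)) ^ 2 := by gcongr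
          _ = 2 * L₂ ^ 2 * ‖fderiv ℂ f z (c z)‖ ^ 2 := by ring
          _ ≤ _ := by gcongr
      · rw [indicator_of_notMem (fun h => hzQ h.2)]
        have : (χ z : ℂ) * dz (fun y => (φ y : ℂ)) (f z) (fderiv ℂ f z (c z)) = 0 := by
          by_cases h1 : z ∈ tsupport χ
          · have h3 : f z ∉ tsupport φ := fun h => hzQ ⟨h1, h⟩
            have h2 : (fun y => (φ y : ℂ)) =ᶠ[𝓝 (f z)] fun _ => 0 := by
              filter_upwards [notMem_tsupport_iff_eventuallyEq.1 h3] with y hy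
              rw [hy]; rfl
            rw [dz_congr h2, dz_const, mul_zero]
          · rw [image_eq_zero_of_notMem_tsupport h1]; simp
        rw [this]; simp
    refine le_trans ?_ (add_le_add t1 t2)
    set A := dz (fun y => (χ y : ℂ)) z (c z) * (φ (f z) : ℂ)
    set B := (χ z : ℂ) * dz (fun y => (φ y : ℂ)) (f z) (fderiv ℂ f z (c z))
    calc ‖A + B‖ ^ 2 ≤ (‖A‖ + ‖B‖) ^ 2 := by gcongr; exact norm_add_le _ _
      _ ≤ _ := by nlinarith [sq_nonneg (‖A‖ - ‖B‖)]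
  have hcut := H.cut (sel s) i₀ hψ (fun z _ => by
      rw [abs_of_nonneg (mul_nonneg (hχb _).1 (hφb _).1)]
      exact mul_le_one₀ (hχb _).2 (hφb _).1 (hφb _).2) hQ' hQ'Ω
    (fun z _ h => ⟨subset_tsupport _ (left_ne_zero_of_mul h),
      subset_tsupport _ (right_ne_zero_of_mul h)⟩) hE
  have hmeas := H.measurableSet hQ.isClosed
  obtain ⟨M, hM⟩ := H.bdd
  have hG := H.pfun (sel s) i₀ (u' := fun y => nsq y - M) (fun z _ => (((contDiffAt_nsq
    (h := fun y => y) analyticAt_id).of_le (WithTop.coe_le_coe.2 (le_top (a := (2 : ℕ∞))))).sub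
      contDiffAt_const).contDiffWithinAt) (fun z hz => sub_nonpos.2 (hM z hz)) fun z _ v => by
        rw [levi_nsq (h := fun y => y) analyticAt_id]; exact mul_nonneg (by norm_num) (nsq_nonneg _)
  refine Integrable.mono' (((hcut.caccioppoli hG).mono_set inter_subset_left).const_mul
    (Real.exp M)) ?_ ?_
  · refine ContinuousOn.aestronglyMeasurable (fun z hz => ?_) hmeas
    exact ((analyticAt_minor (H.analyticOnNhd_gr z hz.1) s).continuousAt.norm.pow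
      2).continuousWithinAt
  · refine (ae_restrict_iff' hmeas).2 (Eventually.of_forall fun z hz => ?_)
    have h1 : χ z = 1 := hχ1 z (Or.inl ⟨gr f z, hz.2, rfl⟩)
    have h2 : φ (f z) = 1 := hφ1 _ ⟨gr f z, hz.2, rfl⟩
    have h3 : minor (gr f) s z = c z l := by
      have := hcomp z hz.1 (Sum.inl l)
      rw [← hs, Function.update_eq_self, hs, Sum.elim_inl] at this
      exact this.symm
    have h4 : 1 ≤ Real.exp M * Real.exp (nsq z - M) := by
      rw [← Real.exp_add, add_sub_cancel]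
      exact Real.one_le_exp (nsq_nonneg _)
    rw [Real.norm_of_nonneg (by positivity), h1, h2, h3, levi_nsq (h := fun y => y) analyticAt_id,
      fderiv_id', ContinuousLinearMap.id_apply, mul_one, one_pow, one_mul, ← mul_assoc]
    refine (norm_apply_sq_le_nsq _ _).trans (le_trans ?_ (le_mul_of_one_le_left
      (add_nonneg (sq_nonneg _) (by linarith [nsq_nonneg (c z)])) h4))
    linarith [sq_nonneg ‖dz (fun x => ((nsq x - M : ℝ) : ℂ)) z (c z)‖]

theorem Pol.integrableOn_minor (H : Pol D D₀ W I U f u) (n : ℕ) :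
    ∀ s : Fin k → Fin k ⊕ Fin N, (Finset.univ.filter fun i => (s i).isLeft).card = n →
      ∀ Q, IsCompact Q → Q ⊆ om D U →
        IntegrableOn (fun z => ‖minor (gr f) s z‖ ^ 2) (W ∩ gr f ⁻¹' Q) := by
  induction n with
  | zero =>
    intro s hs Q hQ hQΩ
    have h1 : ∀ i, ∃ m, s i = Sum.inr m := fun i => by
      have : i ∉ Finset.univ.filter fun i => (s i).isLeft := by
        rw [Finset.card_eq_zero.1 hs]; exact Finset.notMem_empty i
      rcases h : s i with l | m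
      · simp [h] at this
      · exact ⟨m, rfl⟩
    choose s' hs' using h1
    have h2 : s = Sum.inr ∘ s' := funext hs'
    have h3 := (H.top _ (hQ.image continuous_comp_inr)
      (by rintro _ ⟨y, hy, rfl⟩; exact (hQΩ hy).2) s').mono_set
      (show W ∩ gr f ⁻¹' Q ⊆ _ from fun z hz => ⟨hz.1, gr f z, hz.2, rfl⟩)
    refine h3.congr_fun (fun z hz => ?_) (H.measurableSet hQ.isClosed)
    simp only
    rw [h2, minor_gr_inr (H.analytic z hz.1).differentiableAt]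
  | succ n ih =>
    intro s hs Q hQ hQΩ
    obtain ⟨i₀, hi₀⟩ := Finset.card_pos.1 (lt_of_lt_of_eq n.succ_pos hs.symm)
    obtain ⟨l, hl⟩ := Sum.isLeft_iff.1 (Finset.mem_filter.1 hi₀).2
    refine H.minor_step hl (fun m => ih _ ?_) hQ hQΩ
    have : (Finset.univ.filter fun i => (Function.update s i₀ (Sum.inr m) i).isLeft) =
        (Finset.univ.filter fun i => (s i).isLeft).erase i₀ := by
      ext i
      by_cases h : i = i₀
      · simp [h]
      · simp [h]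
    rw [this, Finset.card_erase_of_mem hi₀, hs]; rfl

theorem Pol.core (H : Pol D D₀ W I U f u) : Core W f (om D U) := by
  have hv : ∀ {Q : Set (Fin k ⊕ Fin N → ℂ)}, IsCompact Q → Q ⊆ om D U →
      IntegrableOn (vol (gr f)) (W ∩ gr f ⁻¹' Q) := fun hQ hQΩ =>
    integrable_finsetSum Finset.univ fun s _ => H.integrableOn_minor _ s rfl _ hQ hQΩ
  have hΩ := isOpen_om H.isOpen_big H.isOpen_U
  refine ⟨H.toBase, H.pos, hΩ, hv, fun p i₀ => ?_⟩
  rintro a ha ⟨Q, hQ, hQO, haQ⟩ h2 h1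
  obtain ⟨ψ, hψ, hψc, hψO, hψ1, hψb⟩ := exists_bump hQ hΩ hQO
  have hψ' : ContDiff ℝ 1 ψ := hψ.of_le (by exact_mod_cast le_top)
  exact (H.cut p i₀ (ψ := fun z => ψ (gr f z)) (H.contDiffOn_comp hψ')
    (fun z _ => by rw [abs_of_nonneg (hψb _).1]; exact (hψb _).2) hψc hψO
    (fun z _ h => subset_tsupport _ h)
    (H.energy_comp_of_support p i₀ hψ' hψc (hv hψc hψO))).stokes_step ha
      (fun z hz h => hψ1 _ (haQ ⟨hz, h⟩)) h2 h1

end Pool.Agent.Lib.MP_940f24_an
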