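import Pool.Agent.Lib.MP_940f24_an.PCutB
import Pool.Agent.Lib.MP_940f24_an.PDefs

/-!
The exponential of a plurisubharmonic function of class `C²` as a cutoff variable.
-/

open Set Filter Topology MeasureTheory Metric Complex
open scoped ContDiff ComplexConjugate

namespace Pool.Agent.Lib.MP_940f24_an

variable {k : ℕ} {u : (Fin k → ℂ) → ℝ} {c : (Fin k → ℂ) → (Fin k → ℂ)} {z : Fin k → ℂ}

theorem conj_dz_eventuallyEq (hu : ContDiffAt ℝ 2 u z) :
    (fun y => conj (dz (fun x => (u x : ℂ)) y (c y))) =ᶠ[𝓝 z] fun y =>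
      (1 / 2 : ℂ) * ((fderiv ℝ u y (c y) : ℝ) + I * (fderiv ℝ u y (I • c y) : ℝ)) := by
  filter_upwards [hu.eventually (by simp)] with y hy
  have h1 : ∀ v, fderiv ℝ (fun x => (u x : ℂ)) y v = (fderiv ℝ u y v : ℝ) := fun v => by
    have := (ofRealCLM.hasFDerivAt.comp y (hy.differentiableAt (by simp)).hasFDerivAt).fderiv
    exact DFunLike.congr_fun this v
  simp only [dz, h1, map_mul, map_sub, conj_ofReal, conj_I, map_div₀, map_one, map_ofNat]
  ring

theorem contDiffAt_conj_dz (hu : ContDiffAt ℝ 2 u z) (hc : AnalyticAt ℂ c z) :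
    ContDiffAt ℝ 1 (fun y => conj (dz (fun x => (u x : ℂ)) y (c y))) z := by
  have h1 : ContDiffAt ℝ 1 (fderiv ℝ u) z := hu.fderiv_right (by norm_num)
  have h2 : ContDiffAt ℝ 1 c z := (contDiffAt_real_of_analyticAt hc).of_le (by simp)
  refine ContDiffAt.congr_of_eventuallyEq ?_ (conj_dz_eventuallyEq hu)
  exact contDiffAt_const.mul ((ofRealCLM.contDiff.contDiffAt.comp z (h1.clm_apply h2)).add
    (contDiffAt_const.mul (ofRealCLM.contDiff.contDiffAt.comp z
      (h1.clm_apply (h2.const_smul I)))))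

/-- `X (Xbar u)` is the Levi form for a holomorphic field `X`. -/
theorem dz_conj_dz (hu : ContDiffAt ℝ 2 u z) (hc : AnalyticAt ℂ c z) :
    dz (fun y => conj (dz (fun x => (u x : ℂ)) y (c y))) z (c z) = (levi u z (c z) / 4 : ℝ) := by
  have h1 := ((hu.fderiv_right (m := 1) (by norm_num)).differentiableAt (by simp)).hasFDerivAt
  have h2 := hc.differentiableAt.hasFDerivAt.restrictScalars ℝ
  have h3 := ((ofRealCLM.hasFDerivAt.comp z (h1.clm_apply h2)).add
    ((ofRealCLM.hasFDerivAt.comp z (h1.clm_apply (h2.const_smul I))).const_mul I)).const_mul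
      (1 / 2 : ℂ)
  have h4 := (hu.isSymmSndFDerivAt (by simp)).eq (c z) (I • c z)
  have h5 : I • I • fderiv ℂ c z (c z) = -fderiv ℂ c z (c z) := by
    rw [smul_smul, I_mul_I, neg_one_smul]
  rw [dz_congr (conj_dz_eventuallyEq hu), dz]
  erw [h3.fderiv]
  simp only [levi, smul_apply, add_apply,
    ContinuousLinearMap.comp_apply, ContinuousLinearMap.flip_apply, ofRealCLM_apply,
    ContinuousLinearMap.coe_restrictScalars', smul_eq_mul, Pi.smul_apply, map_smul, h5, map_neg,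
    h4]
  push_cast
  linear_combination (-(1 / 4 : ℂ) * (fderiv ℝ (fderiv ℝ u) z (I • c z) (I • c z) : ℝ) +
    (1 / 4 : ℂ) * (fderiv ℝ u z (fderiv ℂ c z (c z)) : ℝ)) * I_mul_I

theorem abs_levi_le (u : (Fin k → ℂ) → ℝ) (z v : Fin k → ℂ) :
    levi u z v ≤ 2 * ‖fderiv ℝ (fderiv ℝ u) z‖ * ‖v‖ ^ 2 := by
  have h1 := (le_abs_self _).trans ((fderiv ℝ (fderiv ℝ u) z).le_opNorm₂ v v)
  have h2 := (le_abs_self _).trans ((fderiv ℝ (fderiv ℝ u) z).le_opNorm₂ (I • v) (I • v))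
  rw [norm_smul, norm_I, one_mul] at h2
  unfold levi
  nlinarith

theorem pfun_exp {D W : Set (Fin k → ℂ)} {𝒦 : Set (Fin k → ℂ) → Prop} (hD : IsOpen D)
    (hW : IsOpen W) (hWD : W ⊆ D) (hc : AnalyticOnNhd ℂ c W) (hS : Stokes W c 𝒦)
    (hm : ∀ S T, T ⊆ S → 𝒦 S → 𝒦 T) (hu : ContDiffOn ℝ 2 u D) (h0 : ∀ z ∈ W, u z ≤ 0)
    (hl : ∀ z ∈ W, 0 ≤ levi u z (c z))
    (hE : ∀ S, MeasurableSet S → S ⊆ W → 𝒦 S →
      IntegrableOn (fun z => nsq (c z)) S ∧ ∃ T, IsCompact T ∧ T ⊆ D ∧ S ⊆ T) :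
    PFun W c 𝒦 (fun z => Real.exp (u z))
      (fun z => (Real.exp (u z) : ℝ) * dz (fun x => (u x : ℂ)) z (c z))
      (fun z => Real.exp (u z) * (‖dz (fun x => (u x : ℂ)) z (c z)‖ ^ 2 + levi u z (c z) / 4)) := by
  have hu' : ∀ z ∈ W, ContDiffAt ℝ 2 u z := fun z hz => hu.contDiffAt (hD.mem_nhds (hWD hz))
  have hw : ∀ z ∈ W, ContDiffAt ℝ 1 (fun z => Real.exp (u z)) z := fun z hz =>
    ((hu' z hz).of_le (by norm_num)).exp
  have hw' : ∀ z ∈ W, ContDiffAt ℝ 1 (fun z => (Real.exp (u z) : ℂ)) z := fun z hz =>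
    ofRealCLM.contDiff.contDiffAt.comp z (hw z hz)
  have hd : ∀ z ∈ W, dz (fun y => (Real.exp (u y) : ℂ)) z (c z) =
      (Real.exp (u z) : ℝ) * dz (fun x => (u x : ℂ)) z (c z) := fun z hz =>
    dz_comp_real (Real.hasDerivAt_exp _) ((hu' z hz).differentiableAt (by simp)) _
  have hb : ∀ z ∈ W, ContDiffAt ℝ 1
      (fun y => conj ((Real.exp (u y) : ℝ) * dz (fun x => (u x : ℂ)) y (c y))) z := fun z hz => by
    simp only [map_mul, conj_ofReal]
    exact (hw' z hz).mul (contDiffAt_conj_dz (hu' z hz) (hc z hz))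
  have hdb : ∀ z ∈ W, dz (fun y => conj ((Real.exp (u y) : ℝ) * dz (fun x => (u x : ℂ)) y (c y)))
      z (c z) = (Real.exp (u z) *
        (‖dz (fun x => (u x : ℂ)) z (c z)‖ ^ 2 + levi u z (c z) / 4) : ℝ) := fun z hz => by
    simp only [map_mul, conj_ofReal]
    rw [dz_mul ((hw' z hz).differentiableAt (by simp))
      ((contDiffAt_conj_dz (hu' z hz) (hc z hz)).differentiableAt (by simp)), hd z hz,
      dz_conj_dz (hu' z hz) (hc z hz), mul_assoc, Complex.mul_conj']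
    push_cast
    ring
  have h1 : ∀ z ∈ W, Real.exp (u z) ≤ 1 := fun z hz => Real.exp_le_one_iff.2 (h0 z hz)
  refine ⟨hW, hc.continuousOn, hS, hm, hw, fun z hz => ⟨Real.exp_pos _, h1 z hz⟩, hd, hb, hdb,
    fun z hz => ?_, fun S hSm hSW hK => ?_⟩
  · rw [norm_mul, Complex.norm_real, Real.norm_of_nonneg (Real.exp_pos _).le]
    nlinarith [mul_nonneg (sq_nonneg (Real.exp (u z))) (hl z hz)]
  · obtain ⟨hi, T, hT, hTD, hST⟩ := hE S hSm hSW hK
    have k1 : ContDiffOn ℝ 1 (fderiv ℝ u) D := hu.fderiv_of_isOpen hD (by norm_num)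
    have k2 : ContDiffOn ℝ 1 (fun x => (u x : ℂ)) D :=
      ofRealCLM.contDiff.comp_contDiffOn (hu.of_le (by norm_num))
    obtain ⟨A, hA⟩ := hT.exists_bound_of_continuousOn
      ((k1.continuousOn_fderiv_of_isOpen hD le_rfl).mono hTD)
    obtain ⟨B, hB⟩ := hT.exists_bound_of_continuousOn
      ((k2.continuousOn_fderiv_of_isOpen hD le_rfl).mono hTD)
    refine Integrable.mono' (hi.const_mul (B ^ 2 + A)) ((((continuous_re.comp_continuousOn
      (continuousOn_dz hW (fun z hz => (hb z hz).contDiffWithinAt) hc.continuousOn)).congr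
        fun z hz => by simp only [Function.comp_apply, hdb z hz, ofReal_re]).mono
          hSW).aestronglyMeasurable hSm) ((ae_restrict_iff' hSm).2
            (Eventually.of_forall fun z hz => ?_))
    have a1 := hl z (hSW hz)
    have a2 := (norm_dz_le (fun x => (u x : ℂ)) z (c z)).trans
      (mul_le_mul_of_nonneg_right (hB z (hST hz)) (norm_nonneg _))
    have a3 := abs_levi_le u z (c z)
    have a4 := hA z (hST hz)
    have a5 := norm_sq_le_nsq (c z)
    have a6 : 0 ≤ A := (norm_nonneg _).trans a4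
    have a7 := pow_le_pow_left₀ (norm_nonneg _) a2 2
    have a8 := mul_le_mul_of_nonneg_right a4 (sq_nonneg ‖c z‖)
    rw [Real.norm_of_nonneg (by positivity)]
    refine (mul_le_of_le_one_left (by positivity) (h1 z (hSW hz))).trans ?_
    nlinarith [mul_le_mul_of_nonneg_left a5 (add_nonneg (sq_nonneg B) a6),
      mul_nonneg a6 (sq_nonneg ‖c z‖)]

theorem levi_nsq {κ : Type} [Fintype κ] {h : (Fin k → ℂ) → (κ → ℂ)} (hh : AnalyticAt ℂ h z)
    (M : ℝ) (v : Fin k → ℂ) : levi (fun y => nsq (h y) - M) z v = 4 * nsq (fderiv ℂ h z v) := by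
  have h0 : ContDiffAt ℝ 2 (fun y => nsq (h y) - M) z :=
    ((contDiffAt_nsq hh).of_le (WithTop.coe_le_coe.2 (le_top (a := (2 : ℕ∞))))).sub
      contDiffAt_const
  have h1 := dz_conj_dz (c := fun _ => v) h0 analyticAt_const
  have h2 : (fun y => conj (dz (fun x => ((nsq (h x) - M : ℝ) : ℂ)) y v)) =ᶠ[𝓝 z]
      fun y => conj (hdot (h y) (fderiv ℂ h y v)) := by
    filter_upwards [hh.eventually_analyticAt] with y hy
    simp only [ofReal_sub]
    rw [dz_sub (a := fun x => (nsq (h x) : ℂ)) (ofRealCLM.differentiableAt.comp y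
      ((contDiffAt_nsq hy).differentiableAt (by simp))) (differentiableAt_const _), dz_nsq hy,
      dz_const, sub_zero]
  rw [dz_congr h2, dz_conj_hdot (c := fun _ => v) hh analyticAt_const, ofReal_inj] at h1
  linarith

end Pool.Agent.Lib.MP_940f24_an
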