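import Pool.Agent.Lib.MP_940f24_an.Holo

/-!
Riemann extension theorem across thin sets.
-/

open Set Filter Topology MeasureTheory Metric Complex

namespace Pool.Agent.Lib.MP_940f24_an

variable {E : Type} [NormedAddCommGroup E] [NormedSpace ℂ E]

/-- `T` is locally contained in the zero set of a nonzero holomorphic function, at every point
of `D`. -/
def ThinIn (D T : Set E) : Prop :=
  ∀ w ∈ D, ∃ q : E → ℂ, AnalyticAt ℂ q w ∧ ¬ q =ᶠ[𝓝 w] 0 ∧ ∀ᶠ y in 𝓝 w, y ∈ T → q y = 0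

/-- `G` is a dense open subset of `D` and bounded holomorphic functions on `G` extend to `D`. -/
structure Removable (D G : Set E) : Prop where
  isOpen : IsOpen G
  subset : G ⊆ D
  dense : D ⊆ closure G
  extend : ∀ f : E → ℂ, AnalyticOnNhd ℂ f G → (∃ M, ∀ x ∈ G, ‖f x‖ ≤ M) →
    ∃ g : E → ℂ, AnalyticOnNhd ℂ g D ∧ EqOn g f G

/-- Cauchy formula at the centre for a bounded function with isolated singularities. -/
theorem cauchy_center_of_punctured {φ : ℂ → ℂ} {ρ M : ℝ} (hρ : 0 < ρ)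
    (h : ∀ t₀ ∈ closedBall (0 : ℂ) ρ, ∀ᶠ t in 𝓝[≠] t₀, DifferentiableAt ℂ φ t ∧ ‖φ t‖ ≤ M)
    (h0 : ContinuousAt φ 0) (hs : ∀ t ∈ sphere (0 : ℂ) ρ, ContinuousAt φ t) :
    (∮ t in C(0, ρ), t⁻¹ • φ t) = (2 * Real.pi * I : ℂ) • φ 0 := by
  set ψ : ℂ → ℂ := fun t => limUnder (𝓝[≠] t) φ with hψ
  have hcont : ∀ t, ContinuousAt φ t → ψ t = φ t := fun t ht =>
    (ht.tendsto.mono_left nhdsWithin_le_nhds).limUnder_eq
  have hdiff : ∀ t₀ ∈ closedBall (0 : ℂ) ρ, DifferentiableAt ℂ ψ t₀ := by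
    intro t₀ ht₀
    have h1 := h t₀ ht₀
    rw [eventually_nhdsWithin_iff] at h1
    set s : Set ℂ := {t | t ∈ ({t₀}ᶜ : Set ℂ) → DifferentiableAt ℂ φ t ∧ ‖φ t‖ ≤ M} with hsdef
    have hsn : s ∈ 𝓝 t₀ := h1
    have hd : DifferentiableOn ℂ φ (s \ {t₀}) := fun t ht =>
      (ht.1 ht.2).1.differentiableWithinAt
    have hb : BddAbove (norm ∘ φ '' (s \ {t₀})) := by
      refine ⟨M, ?_⟩
      rintro _ ⟨t, ht, rfl⟩
      exact (ht.1 ht.2).2
    have h2 := (differentiableOn_update_limUnder_of_bddAbove hsn hd hb).differentiableAt hsn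
    refine h2.congr_of_eventuallyEq ?_
    filter_upwards [hsn] with t ht
    by_cases htt : t = t₀
    · subst htt
      simp [hψ]
    · rw [Function.update_of_ne htt]
      exact hcont t (ht htt).1.continuousAt
  have h3 := circleIntegral_sub_center_inv_smul_of_differentiable_on_off_countable hρ
    (f := ψ) (c := 0) (s := ∅) countable_empty
    (fun t ht => (hdiff t ht).continuousAt.continuousWithinAt)
    (fun t ht => hdiff t (ball_subset_closedBall ht.1))
  rw [hcont 0 h0] at h3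
  rw [← h3]
  refine circleIntegral.integral_congr hρ.le ?_
  intro t ht
  simp only [sub_zero]
  rw [hcont t (hs t ht)]

/-- Local form of the Riemann extension theorem. -/
theorem exists_local_extension [FiniteDimensional ℂ E] {G : Set E} {w₀ : E}
    {q : E → ℂ} (hq : AnalyticAt ℂ q w₀) (hne : ¬ q =ᶠ[𝓝 w₀] 0)
    (hqG : ∀ᶠ y in 𝓝 w₀, q y ≠ 0 → y ∈ G) {f : E → ℂ} (hf : AnalyticOnNhd ℂ f G) {M : ℝ}
    (hM : ∀ x ∈ G, ‖f x‖ ≤ M) :
    ∃ g : E → ℂ, AnalyticAt ℂ g w₀ ∧ ∀ᶠ w in 𝓝 w₀, w ∈ G → g w = f w := by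
  obtain ⟨v, hv⟩ := (dense_dir_not_eventuallyEq_zero hq hne).nonempty
  have hv' : ¬ (fun t : ℂ => q (w₀ + t • v)) =ᶠ[𝓝 0] 0 := hv
  obtain ⟨U, hUsub, hUo, hU0⟩ := _root_.mem_nhds_iff.1 (hq.eventually_analyticAt.and hqG)
  have hline : ∀ w : E, ∀ t : ℂ, AnalyticAt ℂ (fun t : ℂ => w + t • v) t := fun w t =>
    analyticAt_const.add (analyticAt_id.smul analyticAt_const)
  have hq0 : AnalyticAt ℂ (fun t : ℂ => q (w₀ + t • v)) 0 :=
    AnalyticAt.comp_of_eq hq (hline w₀ 0) (by simp)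
  have hne0 : ∀ᶠ t in 𝓝[≠] (0 : ℂ), q (w₀ + t • v) ≠ 0 :=
    hq0.eventually_eq_zero_or_eventually_ne_zero.resolve_left hv'
  have hU1 : ∀ᶠ t in 𝓝 (0 : ℂ), w₀ + t • v ∈ U :=
    (hline w₀ 0).continuousAt.eventually_mem (hUo.mem_nhds (by simpa using hU0))
  rw [eventually_nhdsWithin_iff] at hne0
  obtain ⟨ρ, hρ, hρs⟩ := Metric.nhds_basis_closedBall.eventually_iff.1 (hU1.and hne0)
  have hcont2 : Continuous fun z : E × ℂ => z.1 + z.2 • v := by fun_prop
  have hA : ∀ᶠ w in 𝓝 w₀, ∀ t ∈ closedBall (0 : ℂ) ρ, w + t • v ∈ U := by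
    refine (isCompact_closedBall (0 : ℂ) ρ).eventually_forall_of_forall_eventually
      (P := fun w t => w + t • v ∈ U) ?_
    intro t ht
    exact hcont2.continuousAt.eventually_mem (hUo.mem_nhds (hρs ht).1)
  have hB : ∀ᶠ w in 𝓝 w₀, ∀ t ∈ sphere (0 : ℂ) ρ, q (w + t • v) ≠ 0 := by
    refine (isCompact_sphere (0 : ℂ) ρ).eventually_forall_of_forall_eventually
      (P := fun w t => q (w + t • v) ≠ 0) ?_
    intro t ht
    have ht' := hρs (sphere_subset_closedBall ht)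
    have ht0 : t ≠ 0 := ne_of_mem_sphere ht hρ.ne'
    have hc : ContinuousAt (fun z : E × ℂ => q (z.1 + z.2 • v)) (w₀, t) :=
      ContinuousAt.comp (f := fun z : E × ℂ => z.1 + z.2 • v) (hUsub ht'.1).1.continuousAt
        hcont2.continuousAt
    exact hc.eventually_ne (ht'.2 ht0)
  obtain ⟨O, hOsub, hOo, hO0⟩ := _root_.mem_nhds_iff.1 (hA.and hB)
  have hOG : ∀ w ∈ O, ∀ t ∈ sphere (0 : ℂ) ρ, w + t • v ∈ G := fun w hw t ht =>
    (hUsub ((hOsub hw).1 t (sphere_subset_closedBall ht))).2 ((hOsub hw).2 t ht)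
  have hΦ : AnalyticOnNhd ℂ (fun z : E × ℂ => z.2⁻¹ • f (z.1 + z.2 • v))
      (O ×ˢ sphere (0 : ℂ) ρ) := by
    rintro ⟨w, t⟩ ⟨hw, ht⟩
    have ht0 : t ≠ 0 := ne_of_mem_sphere ht hρ.ne'
    have h1 : AnalyticAt ℂ (fun z : E × ℂ => z.1 + z.2 • v) (w, t) :=
      analyticAt_fst.add (analyticAt_snd.smul analyticAt_const)
    exact (analyticAt_snd.inv ht0).smul (AnalyticAt.comp (g := f) (hf _ (hOG w hw t ht)) h1)
  have hI := analyticOnNhd_circleIntegral hOo hρ.le hΦ
  refine ⟨fun w => (2 * Real.pi * I : ℂ)⁻¹ • ∮ t in C(0, ρ), t⁻¹ • f (w + t • v),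
    (analyticAt_const (v := (2 * Real.pi * I : ℂ)⁻¹)).smul (hI w₀ hO0), ?_⟩
  filter_upwards [hOo.mem_nhds hO0] with w hw hwG
  have hqa : AnalyticOnNhd ℂ (fun t : ℂ => q (w + t • v)) (closedBall 0 ρ) := fun t ht =>
    AnalyticAt.comp (g := q) (hUsub ((hOsub hw).1 t ht)).1 (hline w t)
  have hρs' : (ρ : ℂ) ∈ sphere (0 : ℂ) ρ := by simp [hρ.le]
  have key := cauchy_center_of_punctured (φ := fun t => f (w + t • v)) (M := M) hρ ?_ ?_ ?_
  · rw [key]
    have h2 : (2 * Real.pi * I : ℂ) ≠ 0 := by simp [Real.pi_ne_zero, I_ne_zero]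
    rw [inv_smul_smul₀ h2]
    simp
  · intro t₀ ht₀
    have h1 : ∀ᶠ t in 𝓝[≠] t₀, q (w + t • v) ≠ 0 := by
      refine (hqa t₀ ht₀).eventually_eq_zero_or_eventually_ne_zero.resolve_left ?_
      intro hz
      have := hqa.eqOn_zero_of_preconnected_of_eventuallyEq_zero
        (convex_closedBall (0 : ℂ) ρ).isPreconnected ht₀ hz (sphere_subset_closedBall hρs')
      exact (hOsub hw).2 _ hρs' this
    have h2 : ∀ᶠ t in 𝓝 t₀, w + t • v ∈ U :=
      (hline w t₀).continuousAt.eventually_mem (hUo.mem_nhds ((hOsub hw).1 t₀ ht₀))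
    filter_upwards [h1, nhdsWithin_le_nhds h2] with t ht1 ht2
    have hG' : w + t • v ∈ G := (hUsub ht2).2 ht1
    exact ⟨(AnalyticAt.comp (g := f) (f := fun t : ℂ => w + t • v) (hf _ hG')
      (hline w t)).differentiableAt, hM _ hG'⟩
  · exact (AnalyticAt.comp_of_eq (hf w hwG) (hline w 0) (by simp)).continuousAt
  · intro t ht
    exact (AnalyticAt.comp (g := f) (f := fun t : ℂ => w + t • v) (hf _ (hOG w hw t ht))
      (hline w t)).continuousAt

theorem removable_of_thinIn [FiniteDimensional ℂ E] {D G : Set E} (hD : IsOpen D)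
    (hG : IsOpen G) (hGD : G ⊆ D) (hT : ThinIn D (D \ G)) : Removable D G := by
  have hq : ∀ w ∈ D, ∃ q : E → ℂ, AnalyticAt ℂ q w ∧ ¬ q =ᶠ[𝓝 w] 0 ∧
      ∀ᶠ y in 𝓝 w, q y ≠ 0 → y ∈ G := by
    intro w hw
    obtain ⟨q, h1, h2, h3⟩ := hT w hw
    refine ⟨q, h1, h2, ?_⟩
    filter_upwards [h3, hD.mem_nhds hw] with y hy hyD hqy
    by_contra hyG
    exact hqy (hy ⟨hyD, hyG⟩)
  have hdense : D ⊆ closure G := by
    intro w hw
    obtain ⟨q, -, h2, h3⟩ := hq w hw
    rw [mem_closure_iff_frequently]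
    have h4 : ∃ᶠ y in 𝓝 w, q y ≠ 0 := by
      rw [Filter.EventuallyEq, not_eventually] at h2
      exact h2
    exact (h4.and_eventually h3).mono fun y hy => hy.2 hy.1
  refine ⟨hG, hGD, hdense, ?_⟩
  rintro f hf ⟨M, hM⟩
  refine ⟨fun w => limUnder (𝓝[G] w) f, ?_, ?_⟩
  · intro w₀ hw₀
    obtain ⟨q, h1, h2, h3⟩ := hq w₀ hw₀
    obtain ⟨g, hg, hgf⟩ := exists_local_extension h1 h2 h3 hf hM
    refine hg.congr ?_
    filter_upwards [hg.eventually_analyticAt, hgf.eventually_nhds, hD.mem_nhds hw₀]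
      with w hw1 hw2 hw3
    have : (𝓝[G] w).NeBot := mem_closure_iff_nhdsWithin_neBot.1 (hdense hw3)
    have h5 : g =ᶠ[𝓝[G] w] f := by
      filter_upwards [nhdsWithin_le_nhds hw2, self_mem_nhdsWithin] with y hy hyG using hy hyG
    exact ((hw1.continuousAt.tendsto.mono_left nhdsWithin_le_nhds).congr' h5).limUnder_eq.symm
  · intro w hw
    have : (𝓝[G] w).NeBot := mem_closure_iff_nhdsWithin_neBot.1 (subset_closure hw)
    exact ((hf w hw).continuousAt.tendsto.mono_left nhdsWithin_le_nhds).limUnder_eq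

theorem Removable.trans {D G G' : Set E} (h : Removable D G) (h' : Removable G G') :
    Removable D G' := by
  refine ⟨h'.isOpen, h'.subset.trans h.subset, ?_, ?_⟩
  · exact h.dense.trans (closure_minimal h'.dense isClosed_closure)
  · rintro f hf ⟨M, hM⟩
    obtain ⟨g₁, hg₁, he₁⟩ := h'.extend f hf ⟨M, hM⟩
    have hb : ∀ x ∈ G, ‖g₁ x‖ ≤ M := by
      intro x hx
      have h1 : ContinuousWithinAt (fun y => ‖g₁ y‖) G' x :=
        (hg₁ x hx).continuousAt.norm.continuousWithinAt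
      exact ContinuousWithinAt.closure_le (h'.dense hx) h1 continuousWithinAt_const
        fun y hy => by rw [he₁ hy]; exact hM y hy
    obtain ⟨g₂, hg₂, he₂⟩ := h.extend g₁ hg₁ ⟨M, hb⟩
    exact ⟨g₂, hg₂, fun x hx => (he₂ (h'.subset hx)).trans (he₁ hx)⟩

/-- A locally constant function on `G` is constant when `D` is connected. -/
theorem Removable.const {D G : Set E} (h : Removable D G) (hD : IsPreconnected D) {α : Type}
    {s : E → α} (hs : ∀ w ∈ G, ∀ᶠ y in 𝓝 w, s y = s w) : ∀ w ∈ G, ∀ w' ∈ G, s w = s w' := by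
  classical
  intro w hw w' hw'
  set f : E → ℂ := fun y => if s y = s w then 1 else 0 with hf
  have hfa : AnalyticOnNhd ℂ f G := by
    intro x hx
    refine (analyticAt_const (v := f x)).congr ?_
    filter_upwards [hs x hx] with y hy
    simp only [hf, hy]
  have hfT : ∀ x, f x ∈ ({1, 0} : Set ℂ) := by
    intro x
    simp only [hf]
    split_ifs <;> simp
  obtain ⟨g, hg, he⟩ := h.extend f hfa ⟨1, fun x _ => by
    rcases hfT x with h1 | h1 <;> simp [show f x = _ from h1]⟩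
  have hfin : ({1, 0} : Set ℂ).Finite := Set.toFinite _
  have hmaps : MapsTo g D ({1, 0} : Set ℂ) := by
    intro x hx
    have h1 : ContinuousWithinAt g G x := (hg x hx).continuousAt.continuousWithinAt
    have h2 := h1.mem_closure (h.dense hx) (t := {1, 0}) fun y hy => by
      rw [he hy]; exact hfT y
    rwa [hfin.isClosed.closure_eq] at h2
  have h3 := hD.constant_of_mapsTo hfin.isDiscrete hg.continuousOn hmaps (h.subset hw)
    (h.subset hw')
  rw [he hw, he hw'] at h3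
  by_contra hne
  have h4 : s w' ≠ s w := fun e => hne e.symm
  simp [hf, h4] at h3

/-- A point is removable in positive dimension. -/
theorem removable_diff_singleton {k : ℕ} (hk : 0 < k) {D : Set (Fin k → ℂ)} (hD : IsOpen D)
    (a : Fin k → ℂ) : Removable D (D \ {a}) := by
  refine removable_of_thinIn hD (hD.sdiff isClosed_singleton) sdiff_subset ?_
  intro w _
  set i : Fin k := ⟨0, hk⟩
  refine ⟨fun y => y i - a i, ?_, ?_, ?_⟩
  · exact ((ContinuousLinearMap.proj i : (Fin k → ℂ) →L[ℂ] ℂ).analyticAt w).sub analyticAt_const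
  · intro hz
    have hc : ContinuousAt (fun t : ℂ => w + fun _ : Fin k => t) 0 := by fun_prop
    have h1 : ∀ᶠ t in 𝓝 (0 : ℂ), w i + t - a i = 0 := by
      have h0 : (w + fun _ : Fin k => (0 : ℂ)) = w := by ext; simp
      have h2 : Tendsto (fun t : ℂ => w + fun _ : Fin k => t) (𝓝 0) (𝓝 w) := by
        simpa only [ContinuousAt, h0] using hc
      exact h2.eventually hz
    have h2 := h1.self_of_nhds
    have h3 : ∀ᶠ t in 𝓝[≠] (0 : ℂ), False := by
      filter_upwards [nhdsWithin_le_nhds h1, self_mem_nhdsWithin] with t ht ht0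
      apply ht0
      have : t = (w i + t - a i) - (w i + 0 - a i) := by ring
      rw [mem_singleton_iff, this, ht, h2, sub_zero]
    exact h3.exists.elim fun _ h => h
  · refine Eventually.of_forall fun y hy => ?_
    have : y = a := by
      by_contra hne
      exact hy.2 ⟨hy.1, hne⟩
    simp [this]

/-- Removable singularity at a point for continuous maps. -/
theorem analyticAt_of_continuousAt_of_punctured {k : ℕ} (hk : 0 < k) {ι : Type} [Fintype ι]
    {f : (Fin k → ℂ) → (ι → ℂ)} {a : Fin k → ℂ} (hc : ContinuousAt f a)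
    (hf : ∀ᶠ z in 𝓝[≠] a, AnalyticAt ℂ f z) : AnalyticAt ℂ f a := by
  rw [eventually_nhdsWithin_iff] at hf
  have hb : ∀ᶠ z in 𝓝 a, ‖f z‖ < ‖f a‖ + 1 := hc.norm.eventually (gt_mem_nhds (by simp))
  obtain ⟨D, hDsub, hDo, hDa⟩ := _root_.mem_nhds_iff.1 (hf.and hb)
  have hR := removable_diff_singleton hk hDo a
  rw [analyticAt_pi_iff]
  intro i
  obtain ⟨g, hg, he⟩ := hR.extend (fun z => f z i)
    (fun z hz => analyticAt_pi_iff.1 ((hDsub hz.1).1 hz.2) i)
    ⟨‖f a‖ + 1, fun z hz => (norm_le_pi_norm (f z) i).trans (hDsub hz.1).2.le⟩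
  have hga : g a = f a i := by
    have : (𝓝[D \ {a}] a).NeBot := mem_closure_iff_nhdsWithin_neBot.1 (hR.dense hDa)
    have h1 : Tendsto g (𝓝[D \ {a}] a) (𝓝 (g a)) :=
      (hg a hDa).continuousAt.tendsto.mono_left nhdsWithin_le_nhds
    have h2 : Tendsto (fun z => f z i) (𝓝[D \ {a}] a) (𝓝 (f a i)) :=
      ((continuous_apply i).continuousAt.comp hc).tendsto.mono_left nhdsWithin_le_nhds
    refine tendsto_nhds_unique (h1.congr' ?_) h2
    filter_upwards [self_mem_nhdsWithin] with z hz using he hz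
  refine (hg a hDa).congr ?_
  filter_upwards [hDo.mem_nhds hDa] with z hz
  by_cases hza : z = a
  · rw [hza, hga]
  · exact he ⟨hz, hza⟩

end Pool.Agent.Lib.MP_940f24_an
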