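import Pool.Agent.Lib.MP_940f24_an.Symm
import Pool.Agent.Lib.MP_940f24_an.Riemann

/-!
Sets which are locally finite disjoint unions of holomorphic sections of a projection.
-/

open Set Filter Topology MeasureTheory Metric Complex Polynomial

namespace Pool.Agent.Lib.MP_940f24_an

variable {E Y : Type} [NormedAddCommGroup E] [NormedSpace ℂ E]
  [NormedAddCommGroup Y] [NormedSpace ℂ Y]

/-- Over a neighbourhood of `w₀`, the set `S` is a finite disjoint union of holomorphic sections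
of `p`. -/
def Sheets (p : E →L[ℂ] Y) (S : Set E) (w₀ : Y) : Prop :=
  ∃ (s : ℕ) (σ : Fin s → Y → E), (∀ i, AnalyticAt ℂ (σ i) w₀) ∧
    ∀ᶠ w in 𝓝 w₀, (Function.Injective fun i => σ i w) ∧
      ∀ x, (x ∈ S ∧ p x = w) ↔ ∃ i, σ i w = x

theorem Sheets.of_fintype {p : E →L[ℂ] Y} {S : Set E} {w₀ : Y} {ι : Type} [Fintype ι]
    (σ : ι → Y → E) (hσ : ∀ i, AnalyticAt ℂ (σ i) w₀)
    (h : ∀ᶠ w in 𝓝 w₀, (Function.Injective fun i => σ i w) ∧
      ∀ x, (x ∈ S ∧ p x = w) ↔ ∃ i, σ i w = x) : Sheets p S w₀ := by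
  refine ⟨Fintype.card ι, fun i => σ ((Fintype.equivFin ι).symm i), fun i => hσ _, ?_⟩
  filter_upwards [h] with w hw
  refine ⟨fun i j hij => (Fintype.equivFin ι).symm.injective (hw.1 hij), fun x => ?_⟩
  rw [hw.2 x]
  constructor
  · rintro ⟨i, hi⟩
    exact ⟨Fintype.equivFin ι i, by simpa using hi⟩
  · rintro ⟨i, hi⟩
    exact ⟨_, hi⟩

theorem Sheets.eventually [CompleteSpace E] {p : E →L[ℂ] Y} {S : Set E} {w₀ : Y}
    (h : Sheets p S w₀) : ∀ᶠ w in 𝓝 w₀, Sheets p S w := by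
  obtain ⟨s, σ, hσ, h⟩ := h
  filter_upwards [eventually_all.2 fun i => (hσ i).eventually_analyticAt, h.eventually_nhds]
    with w hw1 hw2
  exact ⟨s, σ, hw1, hw2⟩

theorem Sheets.congr {p : E →L[ℂ] Y} {S S' : Set E} {w₀ : Y} (h : Sheets p S w₀)
    (hS : ∀ᶠ w in 𝓝 w₀, ∀ x, p x = w → (x ∈ S ↔ x ∈ S')) : Sheets p S' w₀ := by
  obtain ⟨s, σ, hσ, h⟩ := h
  refine ⟨s, σ, hσ, ?_⟩
  filter_upwards [h, hS] with w hw1 hw2
  refine ⟨hw1.1, fun x => ?_⟩
  rw [← hw1.2 x]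
  exact ⟨fun hx => ⟨(hw2 x hx.2).2 hx.1, hx.2⟩, fun hx => ⟨(hw2 x hx.2).1 hx.1, hx.2⟩⟩

theorem sheets_empty (p : E →L[ℂ] Y) (w₀ : Y) : Sheets p ∅ w₀ := by
  refine ⟨0, fun i => i.elim0, fun i => i.elim0, Eventually.of_forall fun w =>
    ⟨fun i => i.elim0, fun x => ?_⟩⟩
  simp

theorem Sheets.union {p : E →L[ℂ] Y} {S S' : Set E} {w₀ : Y} (h : Sheets p S w₀)
    (h' : Sheets p S' w₀) (hd : Disjoint S S') : Sheets p (S ∪ S') w₀ := by
  obtain ⟨s, σ, hσ, h⟩ := h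
  obtain ⟨s', σ', hσ', h'⟩ := h'
  refine Sheets.of_fintype (ι := Fin s ⊕ Fin s') (Sum.elim σ σ') ?_ ?_
  · rintro (i | i)
    · exact hσ i
    · exact hσ' i
  · filter_upwards [h, h'] with w hw hw'
    have h1 : ∀ i j, σ i w ≠ σ' j w := by
      intro i j hij
      have h2 := ((hw.2 (σ i w)).2 ⟨i, rfl⟩).1
      have h3 := ((hw'.2 (σ' j w)).2 ⟨j, rfl⟩).1
      rw [← hij] at h3
      exact Set.disjoint_left.1 hd h2 h3
    constructor
    · rintro (i | i) (j | j) hij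
      · exact congrArg Sum.inl (hw.1 hij)
      · exact (h1 i j hij).elim
      · exact (h1 j i hij.symm).elim
      · exact congrArg Sum.inr (hw'.1 hij)
    · intro x
      rw [Sum.exists]
      simp only [Sum.elim_inl, Sum.elim_inr]
      rw [← hw.2 x, ← hw'.2 x, mem_union, or_and_right]

theorem sheets_biUnion {p : E →L[ℂ] Y} {ι : Type} {s : Set ι} (hs : s.Finite) {S : ι → Set E}
    {w₀ : Y} (h : ∀ i ∈ s, Sheets p (S i) w₀) (hd : s.PairwiseDisjoint S) :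
    Sheets p (⋃ i ∈ s, S i) w₀ := by
  induction s, hs using Set.Finite.induction_on with
  | empty => simpa using sheets_empty p w₀
  | @insert a s ha _ ih =>
    rw [biUnion_insert]
    refine (h a (mem_insert _ _)).union
      (ih (fun i hi => h i (mem_insert_of_mem _ hi)) (hd.subset (subset_insert _ _))) ?_
    rw [disjoint_iUnion₂_right]
    intro i hi
    exact hd (mem_insert _ _) (mem_insert_of_mem _ hi) fun e => ha (e ▸ hi)

/-- Near a point of the sheet `i`, the set `S` is contained in that sheet. -/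
theorem eventually_eq_sheet {p : E →L[ℂ] Y} {S : Set E} {w₀ : Y} {s : ℕ} {σ : Fin s → Y → E}
    (hσ : ∀ i, ContinuousAt (σ i) w₀)
    (h : ∀ᶠ w in 𝓝 w₀, (Function.Injective fun i => σ i w) ∧
      ∀ x, (x ∈ S ∧ p x = w) ↔ ∃ i, σ i w = x) (i : Fin s) :
    ∀ᶠ x in 𝓝 (σ i w₀), x ∈ S → σ i (p x) = x := by
  have h0 := h.self_of_nhds
  have hp : p (σ i w₀) = w₀ := ((h0.2 _).2 ⟨i, rfl⟩).2
  have hpt : Tendsto p (𝓝 (σ i w₀)) (𝓝 w₀) := by
    have := p.continuous.tendsto (σ i w₀)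
    rwa [hp] at this
  have h1 : ∀ j, ∀ᶠ x in 𝓝 (σ i w₀), j ≠ i → σ j (p x) ≠ x := by
    intro j
    by_cases hj : j = i
    · exact Eventually.of_forall fun x hx => (hx hj).elim
    · have h2 : Tendsto (fun x => σ j (p x) - x) (𝓝 (σ i w₀)) (𝓝 (σ j w₀ - σ i w₀)) :=
        ((hσ j).tendsto.comp hpt).sub tendsto_id
      have h3 : σ j w₀ - σ i w₀ ≠ 0 := sub_ne_zero.2 fun e => hj (h0.1 e)
      filter_upwards [h2.eventually_ne h3] with x hx _ using sub_ne_zero.1 hx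
  filter_upwards [eventually_all.2 h1, hpt.eventually h] with x hx1 hx2 hxS
  obtain ⟨j, hj⟩ := (hx2.2 x).1 ⟨hxS, rfl⟩
  by_cases hji : j = i
  · rwa [hji] at hj
  · exact (hx1 j hji hj).elim

/-- Through a point of `S` over `w₀` there is a local section contained in `S`, and near that
point `S` is the image of the section. -/
theorem Sheets.exists_section {p : E →L[ℂ] Y} {S : Set E} {x₀ : E} (h : Sheets p S (p x₀))
    (hx : x₀ ∈ S) : ∃ σ : Y → E, AnalyticAt ℂ σ (p x₀) ∧ σ (p x₀) = x₀ ∧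
      (∀ᶠ w in 𝓝 (p x₀), σ w ∈ S ∧ p (σ w) = w) ∧ ∀ᶠ x in 𝓝 x₀, x ∈ S → σ (p x) = x := by
  obtain ⟨s, σ, hσ, h⟩ := h
  obtain ⟨i, hi⟩ := (h.self_of_nhds.2 x₀).1 ⟨hx, rfl⟩
  refine ⟨σ i, hσ i, hi, ?_, ?_⟩
  · filter_upwards [h] with w hw using (hw.2 _).2 ⟨i, rfl⟩
  · have := eventually_eq_sheet (fun j => (hσ j).continuousAt) h i
    rwa [hi] at this

/-- The sheets which are not contained in an analytic set `B` form a subcover. -/
theorem Sheets.inter_closure_diff [FiniteDimensional ℂ E] {p : E →L[ℂ] Y} {S B : Set E} {w₀ : Y}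
    (h : Sheets p S w₀) (hB : ∀ x ∈ S, p x = w₀ → AnAt B x) :
    Sheets p (S ∩ closure (S \ B)) w₀ := by
  classical
  have : CompleteSpace E := FiniteDimensional.complete ℂ E
  obtain ⟨s, σ, hσ, h⟩ := h
  have h0 := h.self_of_nhds
  -- each sheet is either contained in `B` or meets `B` in a nowhere dense set
  have key : ∀ i, (∀ᶠ w in 𝓝 w₀, σ i w ∈ B) ∨ ∀ᶠ w in 𝓝 w₀, ∃ᶠ y in 𝓝 w, σ i y ∉ B := by
    intro i
    have h1 := (h0.2 _).2 ⟨i, rfl⟩
    obtain ⟨r, g, hg, hgB⟩ := hB _ h1.1 h1.2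
    have h2 : ∀ᶠ w in 𝓝 w₀, σ i w ∈ B ↔ g (σ i w) = 0 := (hσ i).continuousAt.tendsto.eventually hgB
    by_cases hz : (fun w => g (σ i w)) =ᶠ[𝓝 w₀] 0
    · left
      filter_upwards [h2, hz] with w hw1 hw2 using hw1.2 hw2
    · right
      have h3 := eventually_not_eventuallyEq_zero (q := fun w => g (σ i w))
        (AnalyticAt.comp (g := g) hg (hσ i)) hz
      filter_upwards [h3, h2.eventually_nhds] with w hw1 hw2
      have h4 := hw1.2
      rw [Filter.EventuallyEq, not_eventually] at h4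
      exact (h4.and_eventually hw2).mono fun y hy hyB => hy.1 (hy.2.1 hyB)
  refine Sheets.of_fintype (ι := {i : Fin s // ¬ ∀ᶠ w in 𝓝 w₀, σ i w ∈ B})
    (fun i => σ i.1) (fun i => hσ i.1) ?_
  have hin : ∀ i, ∀ᶠ w in 𝓝 w₀, (∀ᶠ w in 𝓝 w₀, σ i w ∈ B) → ∀ᶠ y in 𝓝 w, σ i y ∈ B := by
    intro i
    by_cases hi : ∀ᶠ w in 𝓝 w₀, σ i w ∈ B
    · exact hi.eventually_nhds.mono fun w hw _ => hw
    · exact Eventually.of_forall fun w hw => (hi hw).elim
  have hout : ∀ i, ∀ᶠ w in 𝓝 w₀, (¬ ∀ᶠ w in 𝓝 w₀, σ i w ∈ B) → ∃ᶠ y in 𝓝 w, σ i y ∉ B := by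
    intro i
    rcases key i with hi | hi
    · exact Eventually.of_forall fun w hw => (hw hi).elim
    · exact hi.mono fun w hw _ => hw
  filter_upwards [h.eventually_nhds, eventually_all.2 hin, eventually_all.2 hout,
    eventually_all.2 fun i => (hσ i).eventually_analyticAt] with w hw hw1 hw2 hw3
  have hw0 := hw.self_of_nhds
  refine ⟨fun i j hij => Subtype.ext (hw0.1 hij), fun x => ⟨?_, ?_⟩⟩
  · rintro ⟨⟨hxS, hxc⟩, hxp⟩
    obtain ⟨i, rfl⟩ := (hw0.2 x).1 ⟨hxS, hxp⟩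
    by_cases hi : ∀ᶠ w in 𝓝 w₀, σ i w ∈ B
    · exfalso
      have hpt : Tendsto p (𝓝 (σ i w)) (𝓝 w) := by
        have := p.continuous.tendsto (σ i w)
        rwa [hxp] at this
      have h5 := eventually_eq_sheet (fun j => (hw3 j).continuousAt) hw i
      rw [mem_closure_iff_frequently] at hxc
      refine hxc ?_
      filter_upwards [h5, hpt.eventually (hw1 i hi)] with y hy1 hy2 hy
      rw [hy1 hy.1] at hy2
      exact hy.2 hy2
    · exact ⟨⟨i, hi⟩, rfl⟩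
  · rintro ⟨⟨i, hi⟩, rfl⟩
    have h5 := (hw0.2 _).2 ⟨i, rfl⟩
    refine ⟨⟨h5.1, ?_⟩, h5.2⟩
    refine mem_closure_of_frequently_of_tendsto ?_ (hw3 i).continuousAt.tendsto
    exact ((hw2 i hi).and_eventually hw).mono fun y hy => ⟨((hy.2.2 _).2 ⟨i, rfl⟩).1, hy.1⟩

open Classical in
/-- The fibre of `p` on `S` over `w` as a multiset (empty if the fibre is infinite). -/
noncomputable def fibreMultiset (p : E →L[ℂ] Y) (S : Set E) (w : Y) : Multiset E :=
  if h : {x | x ∈ S ∧ p x = w}.Finite then h.toFinset.val else 0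

theorem fibreMultiset_eq {p : E →L[ℂ] Y} {S : Set E} {w : Y} {s : ℕ} {τ : Fin s → E}
    (hτ : Function.Injective τ) (h : ∀ x, (x ∈ S ∧ p x = w) ↔ ∃ i, τ i = x) :
    fibreMultiset p S w = (Finset.univ : Finset (Fin s)).val.map τ := by
  have hfin : {x | x ∈ S ∧ p x = w}.Finite :=
    (finite_range τ).subset fun x hx => (h x).1 hx
  rw [fibreMultiset, dif_pos hfin]
  refine (Multiset.Nodup.ext hfin.toFinset.nodup (Finset.univ.nodup.map hτ)).2 fun x => ?_
  simp [h x]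

theorem Sheets.mem_fibreMultiset {p : E →L[ℂ] Y} {S : Set E} {w : Y} (h : Sheets p S w) (x : E) :
    x ∈ fibreMultiset p S w ↔ x ∈ S ∧ p x = w := by
  obtain ⟨s, σ, -, h⟩ := h
  have h0 := h.self_of_nhds
  rw [fibreMultiset_eq h0.1 h0.2, h0.2 x]
  simp

/-- The closure of a bounded unramified cover over `G` is analytic over `D`. -/
theorem anAt_closure_of_sheets [FiniteDimensional ℂ E] [FiniteDimensional ℂ Y] {p : E →L[ℂ] Y}
    {D G : Set Y} (hD : IsOpen D) (hDc : IsPreconnected D) (hR : Removable D G) {S : Set E}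
    (hS : Bornology.IsBounded S) (hsh : ∀ w ∈ G, Sheets p S w) :
    ∀ a, p a ∈ D → AnAt (closure (S ∩ p ⁻¹' G)) a := by
  intro a ha
  have : ProperSpace E := FiniteDimensional.proper ℂ E
  obtain ⟨w₁, hw₁⟩ : G.Nonempty := closure_nonempty_iff.1 ⟨_, hR.dense ha⟩
  set Z : Y → Multiset E := fibreMultiset p S with hZ
  set m : ℕ := Multiset.card (Z w₁) with hm
  have hcard : ∀ w ∈ G, Multiset.card (Z w) = m := by
    intro w hw
    refine hR.const hDc (s := fun w => Multiset.card (Z w)) ?_ w hw w₁ hw₁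
    intro w hw
    obtain ⟨s, σ, -, h⟩ := hsh w hw
    have h0 := h.self_of_nhds
    filter_upwards [h] with y hy
    rw [hZ, fibreMultiset_eq hy.1 hy.2, fibreMultiset_eq h0.1 h0.2]
    simp
  obtain ⟨L, hL⟩ := exists_separating_family E m
  obtain ⟨R, hR'⟩ := hS.exists_norm_le
  have hset : {x | ∃ w ∈ G, x ∈ Z w} = S ∩ p ⁻¹' G := by
    ext x
    constructor
    · rintro ⟨w, hw, hx⟩
      obtain ⟨h1, rfl⟩ := ((hsh w hw).mem_fibreMultiset x).1 hx
      exact ⟨h1, hw⟩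
    · rintro ⟨h1, h2⟩
      exact ⟨p x, h2, ((hsh _ h2).mem_fibreMultiset x).2 ⟨h1, rfl⟩⟩
  rw [← hset]
  refine anAt_closure_of_psum hD hR.subset hR.dense Z hcard
    (fun w hw x hx => (((hsh w hw).mem_fibreMultiset x).1 hx).2) hS.isCompact_closure
    (fun w hw x hx => subset_closure (((hsh w hw).mem_fibreMultiset x).1 hx).1) hL ?_ a ha
  intro l _ j
  refine (hR.extend (fun w => ((Z w).map fun x => l x ^ j).sum) ?_
    ⟨m * (‖l‖ * R) ^ j, ?_⟩).imp fun H hH => ⟨hH.1, fun w hw => hH.2 hw⟩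
  · intro w hw
    obtain ⟨s, σ, hσ, h⟩ := hsh w hw
    have h1 : AnalyticAt ℂ (fun y => ∑ i, l (σ i y) ^ j) w :=
      Finset.analyticAt_fun_sum _ fun i _ =>
        (AnalyticAt.comp (g := l) (l.analyticAt _) (hσ i)).pow j
    refine h1.congr ?_
    filter_upwards [h] with y hy
    rw [hZ, fibreMultiset_eq hy.1 hy.2, Multiset.map_map]
    rfl
  · intro w hw
    refine (norm_multiset_sum_le _).trans ?_
    rw [Multiset.map_map, ← hcard w hw, ← nsmul_eq_mul,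
      ← Multiset.card_map ((fun x => ‖x‖) ∘ fun x => l x ^ j)]
    refine Multiset.sum_le_card_nsmul _ _ fun t ht => ?_
    obtain ⟨x, hx, rfl⟩ := Multiset.mem_map.1 ht
    have hxS := (((hsh w hw).mem_fibreMultiset x).1 hx).1
    simp only [Function.comp, norm_pow]
    exact pow_le_pow_left₀ (norm_nonneg _) (l.le_of_opNorm_le_of_le le_rfl (hR' x hxS)) j

end Pool.Agent.Lib.MP_940f24_an
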