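import Pool.Agent.Lib.MP_940f24_an.Finite
import Pool.Agent.Lib.MP_940f24_an.Sheets

/-!
Local parametrization of analytic sets.
-/

open Set Filter Topology MeasureTheory Metric Complex Polynomial

namespace Pool.Agent.Lib.MP_940f24_an

theorem exists_clear_denom {R : Type} [CommRing R] [IsDomain R] (f : (FractionRing R)[X]) :
    ∃ (d : R) (g : R[X]), d ≠ 0 ∧
      g.map (algebraMap R (FractionRing R)) = C (algebraMap R (FractionRing R) d) * f := by
  obtain ⟨b, hb, h⟩ := IsLocalization.integerNormalization_spec (nonZeroDivisors R) f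
  refine ⟨b, IsLocalization.integerNormalization (nonZeroDivisors R) f,
    nonZeroDivisors.ne_zero hb, ?_⟩
  rw [h, ← smul_eq_C_mul, algebraMap_smul]

/-- Squarefree part of a monic polynomial over a domain of characteristic zero. -/
theorem exists_radical {R : Type} [CommRing R] [IsDomain R] [CharZero R] {P : R[X]}
    (hP : P.Monic) : ∃ (Q U V W₁ W₂ : R[X]) (c : R) (n : ℕ), c ≠ 0 ∧
      U * Q + V * derivative Q = C c ∧ C c * Q ^ n = P * W₁ ∧ C c * P = Q * W₂ := by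
  classical
  have hinj : Function.Injective (algebraMap R (FractionRing R)) :=
    IsFractionRing.injective R (FractionRing R)
  have : CharZero (FractionRing R) := charZero_of_injective_algebraMap hinj
  have hP0 : P.map (algebraMap R (FractionRing R)) ≠ 0 := (hP.map _).ne_zero
  obtain ⟨Q₀, n, hsq, ⟨W₂₀, hW₂⟩, ⟨W₁₀, hW₁⟩⟩ := exists_squarefree_dvd_pow_of_ne_zero hP0
  have hsep : Q₀.Separable := PerfectField.separable_iff_squarefree.2 hsq
  obtain ⟨U₀, V₀, hUV⟩ := (separable_def' _).1 hsep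
  obtain ⟨d₁, Q, h₁, hQ⟩ := exists_clear_denom Q₀
  obtain ⟨d₂, U, h₂, hU⟩ := exists_clear_denom U₀
  obtain ⟨d₃, V, h₃, hV⟩ := exists_clear_denom V₀
  obtain ⟨d₄, W₁, h₄, hW₁'⟩ := exists_clear_denom W₁₀
  obtain ⟨d₅, W₂, h₅, hW₂'⟩ := exists_clear_denom W₂₀
  have hQ' : (derivative Q).map (algebraMap R (FractionRing R)) =
      C (algebraMap R (FractionRing R) d₁) * derivative Q₀ := by
    rw [← derivative_map, hQ, derivative_C_mul]
  refine ⟨Q, C (d₃ * d₄ * d₅) * U, C (d₂ * d₄ * d₅) * V, C (d₁ * d₂ * d₃ * d₅ * d₁ ^ n) * W₁,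
    C (d₂ * d₃ * d₄) * W₂, d₁ * d₂ * d₃ * d₄ * d₅, n, ?_, ?_, ?_, ?_⟩
  · exact mul_ne_zero (mul_ne_zero (mul_ne_zero (mul_ne_zero h₁ h₂) h₃) h₄) h₅
  · apply map_injective _ hinj
    simp only [Polynomial.map_add, Polynomial.map_mul, map_C, hQ, hU, hV, hQ', map_mul]
    linear_combination (C (algebraMap R (FractionRing R) d₁) * C (algebraMap R (FractionRing R) d₂)
      * C (algebraMap R (FractionRing R) d₃) * C (algebraMap R (FractionRing R) d₄)
      * C (algebraMap R (FractionRing R) d₅)) * hUV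
  · apply map_injective _ hinj
    simp only [Polynomial.map_mul, Polynomial.map_pow, map_C, hQ, hW₁', map_mul, map_pow, mul_pow,
      hW₁]
    ring
  · apply map_injective _ hinj
    simp only [Polynomial.map_mul, map_C, hQ, hW₂', map_mul]
    rw [hW₂]
    ring

variable {E Y : Type} [NormedAddCommGroup E] [NormedSpace ℂ E] [FiniteDimensional ℂ E]
  [NormedAddCommGroup Y] [NormedSpace ℂ Y] [FiniteDimensional ℂ Y]

/-- The ring of restrictions to `D` of functions holomorphic on `D`. -/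
def holRing (D : Set Y) : Subring (D → ℂ) where
  carrier := {f | ∃ F : Y → ℂ, AnalyticOnNhd ℂ F D ∧ ∀ w : D, f w = F w}
  mul_mem' := by
    rintro f g ⟨F, hF, hf⟩ ⟨G, hG, hg⟩
    exact ⟨fun w => F w * G w, hF.mul hG, fun w => by simp [hf, hg]⟩
  one_mem' := ⟨fun _ => 1, analyticOnNhd_const, fun _ => rfl⟩
  add_mem' := by
    rintro f g ⟨F, hF, hf⟩ ⟨G, hG, hg⟩
    exact ⟨fun w => F w + G w, hF.add hG, fun w => by simp [hf, hg]⟩
  zero_mem' := ⟨fun _ => 0, analyticOnNhd_const, fun _ => rfl⟩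
  neg_mem' := by
    rintro f ⟨F, hF, hf⟩
    exact ⟨fun w => - F w, hF.neg, fun w => by simp [hf]⟩

/-- Evaluation at a point of `D`. -/
def holEval {D : Set Y} (w : D) : holRing D →+* ℂ :=
  (Pi.evalRingHom (fun _ : D => ℂ) w).comp (holRing D).subtype

omit [FiniteDimensional ℂ Y] in
theorem holEval_apply {D : Set Y} (w : D) (f : holRing D) : holEval w f = f.1 w := rfl

omit [FiniteDimensional ℂ Y] in
theorem holRing_isDomain {D : Set Y} (hD : IsOpen D) (hDc : IsPreconnected D)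
    (hne : D.Nonempty) : IsDomain (holRing D) := by
  obtain ⟨w₀, hw₀⟩ := hne
  have : Nontrivial (holRing D) := (holEval (⟨w₀, hw₀⟩ : D)).domain_nontrivial
  have : NoZeroDivisors (holRing D) := by
    refine ⟨fun {f g} hfg => ?_⟩
    by_contra hcon
    push Not at hcon
    obtain ⟨hf0, hg0⟩ := hcon
    obtain ⟨F, hF, hf⟩ := f.2
    obtain ⟨G, hG, hg⟩ := g.2
    have h1 : ∃ w : D, f.1 w ≠ 0 := by
      by_contra h
      push Not at h
      exact hf0 (Subtype.ext (funext h))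
    obtain ⟨w, hw⟩ := h1
    rw [hf] at hw
    have h2 : G =ᶠ[𝓝 (w : Y)] 0 := by
      filter_upwards [(hF w w.2).continuousAt.eventually_ne hw, hD.mem_nhds w.2] with y hy hyD
      have h3 := congrArg (holEval (⟨y, hyD⟩ : D)) hfg
      rw [map_mul, map_zero, holEval_apply, holEval_apply, hf, hg] at h3
      exact (mul_eq_zero.1 h3).resolve_left hy
    have h4 := hG.eqOn_zero_of_preconnected_of_eventuallyEq_zero hDc w.2 h2
    apply hg0
    refine Subtype.ext (funext fun y => ?_)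
    rw [hg]
    exact h4 y.2
  exact NoZeroDivisors.to_isDomain _

omit [FiniteDimensional ℂ Y] in
theorem exists_analytic_eval {D : Set Y} (Q : (holRing D)[X]) :
    ∃ Φ : Y × ℂ → ℂ, (∀ z : Y × ℂ, z.1 ∈ D → AnalyticAt ℂ Φ z) ∧
      ∀ (w : D) (t : ℂ), Φ (w, t) = (Q.map (holEval w)).eval t := by
  induction Q using Polynomial.induction_on' with
  | add p q hp hq =>
    obtain ⟨Φ, hΦ, h⟩ := hp
    obtain ⟨Ψ, hΨ, h'⟩ := hq
    exact ⟨fun z => Φ z + Ψ z, fun z hz => (hΦ z hz).add (hΨ z hz), fun w t => by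
      simp [h, h', Polynomial.map_add]⟩
  | monomial n a =>
    obtain ⟨F, hF, hf⟩ := a.2
    refine ⟨fun z => F z.1 * z.2 ^ n, fun z hz => ?_, fun w t => ?_⟩
    · exact ((hF z.1 hz).comp analyticAt_fst).mul (analyticAt_snd.pow n)
    · simp [holEval_apply, hf]

omit [FiniteDimensional ℂ Y] in
theorem HolMonic.exists_lift {D : Set Y} {m : ℕ} {P : Y → ℂ[X]}
    (hP : HolMonic D m P) :
    ∃ P' : (holRing D)[X], P'.Monic ∧ ∀ w : D, P'.map (holEval w) = P w := by
  classical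
  let c : ℕ → holRing D := fun j => ⟨fun w => (P w).coeff j, _, hP.coeff j, fun _ => rfl⟩
  have hco : ∀ j, (∑ i ∈ Finset.range (m + 1), monomial i (c i)).coeff j =
      if j < m + 1 then c j else 0 := by
    intro j
    simp only [finsetSum_coeff, coeff_monomial, Finset.sum_ite_eq', Finset.mem_range]
  refine ⟨∑ i ∈ Finset.range (m + 1), monomial i (c i), ?_, fun w => ?_⟩
  · refine monic_of_natDegree_le_of_coeff_eq_one m ?_ ?_
    · rw [natDegree_le_iff_coeff_eq_zero]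
      intro N hN
      rw [hco, if_neg (by omega)]
    · rw [hco, if_pos (by omega)]
      refine Subtype.ext (funext fun w => ?_)
      have := (hP.monic w).coeff_natDegree
      rw [hP.natDegree] at this
      exact this
  · ext j
    rw [coeff_map, hco]
    split_ifs with h
    · rfl
    · rw [map_zero, coeff_eq_zero_of_natDegree_lt]
      rw [hP.natDegree]
      omega

/-- Analytic implicit function theorem for one scalar equation. -/
theorem exists_implicit {Φ : Y × ℂ → ℂ} {w₀ : Y} {t₀ d : ℂ} (hΦ : AnalyticAt ℂ Φ (w₀, t₀))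
    (h0 : Φ (w₀, t₀) = 0) (hd : HasDerivAt (fun t => Φ (w₀, t)) d t₀) (hd0 : d ≠ 0) :
    ∃ τ : Y → ℂ, AnalyticAt ℂ τ w₀ ∧ τ w₀ = t₀ ∧ (∀ᶠ w in 𝓝 w₀, Φ (w, τ w) = 0) ∧
      ∃ O : Set ℂ, IsOpen O ∧ t₀ ∈ O ∧ ∀ᶠ w in 𝓝 w₀, ∀ t ∈ O, Φ (w, t) = 0 → τ w = t := by
  have : CompleteSpace Y := FiniteDimensional.complete ℂ Y
  have hc : ContDiffAt ℂ ⊤ Φ (w₀, t₀) := hΦ.contDiffAt
  have hinv : (fderiv ℂ Φ (w₀, t₀) ∘L ContinuousLinearMap.inr ℂ Y ℂ).IsInvertible := by
    have h1 : HasFDerivAt (fun t => Φ (w₀, t))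
        (fderiv ℂ Φ (w₀, t₀) ∘L ContinuousLinearMap.inr ℂ Y ℂ) t₀ :=
      hΦ.differentiableAt.hasFDerivAt.comp t₀ (hasFDerivAt_prodMk_right w₀ t₀)
    have h2 := h1.unique hd.hasFDerivAt
    rw [h2]
    refine ⟨ContinuousLinearEquiv.unitsEquivAut ℂ (Units.mk0 d hd0), ?_⟩
    ext
    simp
  refine ⟨hc.implicitFunction (by simp) hinv, ?_, ?_, ?_, ?_⟩
  · exact (hc.contDiffAt_implicitFunction (by simp) hinv).analyticAt
  · exact hc.implicitFunction_apply_self (by simp) hinv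
  · have := hc.eventually_apply_implicitFunction (by simp) hinv
    rw [h0] at this
    exact this
  · have := hc.eventually_apply_eq_iff_implicitFunction (by simp) hinv
    rw [h0, nhds_prod_eq, eventually_prod_iff] at this
    obtain ⟨pa, hpa, pb, hpb, h⟩ := this
    obtain ⟨O, hO, hOo, ht⟩ := _root_.eventually_nhds_iff.1 hpb
    refine ⟨O, hOo, ht, ?_⟩
    filter_upwards [hpa] with w hw t htO h0'
    exact (h hw (hO t htO)).1 h0'

/-- Off a thin set the roots of a monic holomorphic polynomial are given by finitely many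
distinct holomorphic functions. -/
theorem HolMonic.exists_root_sheets {D : Set Y} (hD : IsOpen D) (hDc : IsPreconnected D)
    (hne : D.Nonempty) {m : ℕ} {P : Y → ℂ[X]} (hP : HolMonic D m P) :
    ∃ q : Y → ℂ, AnalyticOnNhd ℂ q D ∧ (∃ w ∈ D, q w ≠ 0) ∧ ∀ w₀ ∈ D, q w₀ ≠ 0 →
      ∃ (s : ℕ) (τ : Fin s → Y → ℂ), (∀ i, AnalyticAt ℂ (τ i) w₀) ∧
        ∀ᶠ w in 𝓝 w₀, (Function.Injective fun i => τ i w) ∧
          ∀ t, (P w).eval t = 0 ↔ ∃ i, τ i w = t := by
  classical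
  have := holRing_isDomain hD hDc hne
  have : CharZero (holRing D) := (holEval (⟨hne.some, hne.some_mem⟩ : D)).charZero
  obtain ⟨P', hP'm, hP'⟩ := hP.exists_lift
  obtain ⟨Q, U, V, W₁, W₂, c, n, hc, h1, h2, h3⟩ := exists_radical hP'm
  obtain ⟨q, hq, hcq⟩ := c.2
  obtain ⟨Φ, hΦ, hΦQ⟩ := exists_analytic_eval Q
  have hPΦ : ∀ w ∈ D, q w ≠ 0 → ∀ t, (P w).eval t = 0 ↔ Φ (w, t) = 0 := by
    intro w hw hqw t
    have e2 := congrArg (fun f => (Polynomial.map (holEval (⟨w, hw⟩ : D)) f).eval t) h2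
    have e3 := congrArg (fun f => (Polynomial.map (holEval (⟨w, hw⟩ : D)) f).eval t) h3
    simp only [Polynomial.map_mul, Polynomial.map_pow, map_C, eval_mul, eval_C, eval_pow, hP',
      holEval_apply, hcq, ← hΦQ] at e2 e3
    constructor
    · intro h
      rw [h, zero_mul] at e2
      exact eq_zero_of_pow_eq_zero ((mul_eq_zero.1 e2).resolve_left hqw)
    · intro h
      rw [h, zero_mul] at e3
      exact (mul_eq_zero.1 e3).resolve_left hqw
  refine ⟨q, hq, ?_, fun w₀ hw₀ hq₀ => ?_⟩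
  · by_contra h
    push Not at h
    exact hc (Subtype.ext (funext fun w => by rw [hcq]; exact h w w.2))
  · have key : ∀ t₀ : ℂ, (P w₀).eval t₀ = 0 → ∃ τ : Y → ℂ, AnalyticAt ℂ τ w₀ ∧ τ w₀ = t₀ ∧
        (∀ᶠ w in 𝓝 w₀, Φ (w, τ w) = 0) ∧
        ∃ O : Set ℂ, IsOpen O ∧ t₀ ∈ O ∧ ∀ᶠ w in 𝓝 w₀, ∀ t ∈ O, Φ (w, t) = 0 → τ w = t := by
      intro t₀ ht₀
      have h0 := (hPΦ w₀ hw₀ hq₀ t₀).1 ht₀
      have hfun : (fun t => Φ (w₀, t)) = fun t => (Q.map (holEval (⟨w₀, hw₀⟩ : D))).eval t :=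
        funext fun t => hΦQ ⟨w₀, hw₀⟩ t
      refine exists_implicit (d := (derivative (Q.map (holEval (⟨w₀, hw₀⟩ : D)))).eval t₀)
        (hΦ _ hw₀) h0 ?_ ?_
      · rw [hfun]
        exact Polynomial.hasDerivAt _ _
      · intro hd
        have e1 := congrArg (fun f => (Polynomial.map (holEval (⟨w₀, hw₀⟩ : D)) f).eval t₀) h1
        simp only [Polynomial.map_mul, Polynomial.map_add, map_C, eval_mul, eval_add, eval_C,
          holEval_apply, hcq, ← derivative_map, hd] at e1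
        rw [← hΦQ ⟨w₀, hw₀⟩ t₀, h0] at e1
        simp only [mul_zero, add_zero] at e1
        exact hq₀ e1.symm
    set T := (P w₀).roots.toFinset with hT
    have hmem : ∀ t, t ∈ T ↔ (P w₀).eval t = 0 := by
      intro t
      rw [hT, Multiset.mem_toFinset, mem_roots (hP.monic w₀).ne_zero, IsRoot.def]
    choose τ hτa hτ0 hτr O hOo hOt hOu using fun i : Fin T.card =>
      key (T.equivFin.symm i) ((hmem _).1 (T.equivFin.symm i).2)
    refine ⟨T.card, τ, hτa, ?_⟩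
    have hinj : ∀ᶠ w in 𝓝 w₀, ∀ i j, i ≠ j → τ i w ≠ τ j w := by
      refine eventually_all.2 fun i => eventually_all.2 fun j => ?_
      by_cases hij : i = j
      · exact Eventually.of_forall fun w h => (h hij).elim
      · have hne' : τ i w₀ - τ j w₀ ≠ 0 := by
          rw [sub_ne_zero, hτ0, hτ0]
          intro h
          exact hij (T.equivFin.symm.injective (Subtype.ext h))
        filter_upwards [((hτa i).sub (hτa j)).continuousAt.eventually_ne hne'] with w hw _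
        exact sub_ne_zero.1 hw
    have hroots := hP.eventually_roots_mem hw₀ (isOpen_iUnion hOo) (fun t ht => by
      refine mem_iUnion.2 ⟨T.equivFin ⟨t, (hmem t).2 ht⟩, ?_⟩
      have := hOt (T.equivFin ⟨t, (hmem t).2 ht⟩)
      rwa [Equiv.symm_apply_apply] at this)
    filter_upwards [hinj, hroots, eventually_all.2 hτr, eventually_all.2 hOu, hD.mem_nhds hw₀,
      (hq w₀ hw₀).continuousAt.eventually_ne hq₀] with w hw1 hw2 hw3 hw4 hwD hwq
    refine ⟨fun i j hij => by_contra fun h => hw1 i j h hij, fun t => ⟨fun ht => ?_, ?_⟩⟩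
    · obtain ⟨i, hi⟩ := mem_iUnion.1 (hw2 t ht)
      exact ⟨i, hw4 i t hi ((hPΦ w hwD hwq t).1 ht)⟩
    · rintro ⟨i, rfl⟩
      exact (hPΦ w hwD hwq _).2 (hw3 i)

/-- Off a thin subset of the base, the zero set of a holomorphic function on `A` is open
in `A`. -/
theorem exists_zero_open_of_good {A : Set E} {a : E} {p : E →L[ℂ] Y} (hA : AnAt A a)
    (hg : Good A a p) {h : E → ℂ} (hh : AnalyticAt ℂ h a) :
    ∃ c : Y → ℂ, AnalyticAt ℂ c (p a) ∧ ¬ c =ᶠ[𝓝 (p a)] 0 ∧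
      ∀ᶠ x in 𝓝 a, c (p x) ≠ 0 → h x = 0 → ∀ᶠ y in 𝓝 x, y ∈ A → h y = 0 := by
  classical
  have : CompleteSpace Y := FiniteDimensional.complete ℂ Y
  obtain ⟨D, hD, m, P, hP, hrel, -⟩ := integral_of_good hA hg hh
  have hex : ∃ j, ¬ (fun w => (P w).coeff j) =ᶠ[𝓝 (p a)] 0 := by
    refine ⟨m, fun h0 => ?_⟩
    have h1 := h0.self_of_nhds
    have h2 := (hP.monic (p a)).coeff_natDegree
    rw [hP.natDegree] at h2
    simp [h2] at h1
  set e := Nat.find hex with he
  have hlow : ∀ᶠ w in 𝓝 (p a), ∀ j ∈ Finset.range e, (P w).coeff j = 0 := by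
    refine (eventually_all_finset _).2 fun j hj => ?_
    have := Nat.find_min hex (Finset.mem_range.1 hj)
    exact not_not.1 this
  refine ⟨fun w => (P w).coeff e, hP.coeff e _ (mem_of_mem_nhds hD), Nat.find_spec hex, ?_⟩
  have hlow' : ∀ᶠ x in 𝓝 a, ∀ j ∈ Finset.range e, (P (p x)).coeff j = 0 :=
    p.continuous.continuousAt.eventually hlow
  have hD' : ∀ᶠ x in 𝓝 a, p x ∈ D := p.continuous.continuousAt.eventually hD
  filter_upwards [hlow'.eventually_nhds, hrel.eventually_nhds, hD', hh.eventually_analyticAt]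
    with x hx1 hx2 hx3 hx4 hc h0
  have hS : ContinuousAt (fun y => ∑ j ∈ Finset.range (m + 1),
      (P (p y)).coeff (e + j) * h y ^ j) x := by
    refine tendsto_finsetSum _ fun j _ => ?_
    exact (((hP.coeff (e + j) _ hx3).continuousAt.comp p.continuous.continuousAt).mul
      (hx4.continuousAt.pow j))
  have hS0 : ∑ j ∈ Finset.range (m + 1), (P (p x)).coeff (e + j) * h x ^ j ≠ 0 := by
    rw [Finset.sum_range_succ', h0]
    simpa using hc
  filter_upwards [hx1, hx2, hS.eventually_ne hS0] with y hy1 hy2 hy3 hyA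
  have h1 := hy2 hyA
  rw [eval_eq_sum_range' (n := e + (m + 1)) (by rw [hP.natDegree]; omega), Finset.sum_range_add,
    Finset.sum_eq_zero (fun j hj => by rw [hy1 j hj, zero_mul]), zero_add] at h1
  have h2 : h y ^ e * ∑ j ∈ Finset.range (m + 1), (P (p y)).coeff (e + j) * h y ^ j = 0 := by
    rw [← h1, Finset.mul_sum]
    refine Finset.sum_congr rfl fun j _ => ?_
    ring
  exact eq_zero_of_pow_eq_zero ((mul_eq_zero.1 h2).resolve_right hy3)

omit [FiniteDimensional ℂ Y] in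
theorem not_eventuallyEq_zero_prod {ι : Type} (s : Finset ι) {q : ι → Y → ℂ} {b : Y}
    (h : ∀ i, AnalyticAt ℂ (q i) b) (hne : ∀ i, ¬ q i =ᶠ[𝓝 b] 0) :
    ¬ (fun y => ∏ i ∈ s, q i y) =ᶠ[𝓝 b] 0 := by
  classical
  induction s using Finset.induction_on with
  | empty =>
    intro h0
    simpa using h0.self_of_nhds
  | insert i s hi ih =>
    simp only [Finset.prod_insert hi]
    exact not_eventuallyEq_zero_mul (h i) (Finset.analyticAt_fun_prod s fun j _ => h j) (hne i) ih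

/-- Local parametrization. -/
theorem local_param {A : Set E} {a : E} {p : E →L[ℂ] Y} (hA : AnAt A a) (hg : Good A a p)
    {V₀ : Set E} (hV₀ : V₀ ∈ 𝓝 a) :
    ∃ V, IsOpen V ∧ a ∈ V ∧ V ⊆ V₀ ∧
      (∀ V' ∈ 𝓝 a, ∀ᶠ w in 𝓝 (p a), ∀ x ∈ A ∩ V, p x = w → x ∈ V') ∧
      ∃ q : Y → ℂ, AnalyticAt ℂ q (p a) ∧ ¬ q =ᶠ[𝓝 (p a)] 0 ∧
        ∀ᶠ w in 𝓝 (p a), q w ≠ 0 → Sheets p (A ∩ V) w := by
  classical
  have : CompleteSpace Y := FiniteDimensional.complete ℂ Y
  have : CompleteSpace E := FiniteDimensional.complete ℂ E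
  -- coordinates on `E`
  obtain ⟨n, ⟨e⟩⟩ : ∃ n : ℕ, Nonempty (E ≃L[ℂ] (Fin n → ℂ)) :=
    ⟨_, ⟨(Module.finBasis ℂ E).equivFunL⟩⟩
  have hea : ∀ (j : Fin n) (x : E), AnalyticAt ℂ (fun y => e y j) x := fun j x =>
    ((ContinuousLinearMap.proj j : (Fin n → ℂ) →L[ℂ] ℂ).comp (e : E →L[ℂ] (Fin n → ℂ))).analyticAt x
  choose D hD m P hP hrel hroot using fun j : Fin n => integral_of_good hA hg (hea j a)
  obtain ⟨r, g, hga, hAg⟩ := hA
  -- the candidates are close to `a`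
  have hcand : ∀ V' ∈ 𝓝 a, ∀ᶠ w in 𝓝 (p a), ∀ x, (∀ j, (P j w).eval (e x j) = 0) → x ∈ V' := by
    intro V' hV'
    have h1 : e.symm ⁻¹' V' ∈ 𝓝 (e a) := by
      refine e.symm.continuous.continuousAt.preimage_mem_nhds ?_
      rwa [e.symm_apply_apply]
    obtain ⟨ε, hε, hb⟩ := Metric.mem_nhds_iff.1 h1
    have h2 : ∀ᶠ w in 𝓝 (p a), ∀ j, ∀ t, (P j w).eval t = 0 → t ∈ ball (e a j) ε :=
      eventually_all.2 fun j => (hP j).eventually_roots_mem (mem_of_mem_nhds (hD j)) isOpen_ball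
        fun t ht => by rw [hroot j t ht]; exact mem_ball_self hε
    filter_upwards [h2] with w hw x hx
    have h3 : e x ∈ ball (e a) ε := by
      rw [mem_ball, dist_pi_lt_iff hε]
      exact fun j => hw j _ (hx j)
    simpa using hb h3
  -- the candidate set
  set Ct : Set (Y × E) := {z | ∀ j, (P j z.1).eval (e z.2 j) = 0} with hCt
  have hCA : AnAt Ct (p a, a) := by
    refine ⟨n, fun z j => (P j z.1).eval (e z.2 j), ?_, Eventually.of_forall fun z => ?_⟩
    · refine AnalyticAt.pi fun j => ?_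
      exact (hP j).analyticAt_eval (φ := Prod.fst) (g := fun z : Y × E => e z.2 j) analyticAt_fst
        ((hea j a).comp_of_eq analyticAt_snd rfl) (mem_of_mem_nhds (hD j))
    · exact funext_iff.symm
  have hCg : Good Ct (p a, a) (ContinuousLinearMap.fst ℂ Y E) := by
    refine Eventually.of_forall fun z hz h1 => ?_
    have h2 : z.1 = p a := h1
    refine Prod.ext h2 (e.injective (funext fun j => hroot j _ ?_))
    rw [← h2]
    exact hz j
  -- the equations of `A` and of the fibre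
  obtain ⟨N, ⟨e'⟩⟩ : ∃ N : ℕ, Nonempty (((Fin r → ℂ) × Y) ≃L[ℂ] (Fin N → ℂ)) :=
    ⟨_, ⟨(Module.finBasis ℂ _).equivFunL⟩⟩
  set H : Y × E → (Fin N → ℂ) := fun z => e' (g z.2, p z.2 - z.1) with hH
  have hHa : ∀ z : Y × E, AnalyticAt ℂ g z.2 → AnalyticAt ℂ H z := by
    intro z hz
    refine (e'.analyticAt _).comp ((hz.comp analyticAt_snd).prod ?_)
    exact ((p.analyticAt _).comp analyticAt_snd).sub analyticAt_fst
  have hH0 : ∀ z : Y × E, H z = 0 ↔ g z.2 = 0 ∧ p z.2 = z.1 := by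
    intro z
    simp only [hH, map_eq_zero_iff e' e'.injective, Prod.mk_eq_zero, sub_eq_zero]
  have hHi : ∀ i, AnalyticAt ℂ (fun z => H z i) (p a, a) := fun i =>
    ((ContinuousLinearMap.proj i : (Fin N → ℂ) →L[ℂ] ℂ).analyticAt _).comp (hHa (p a, a) hga)
  choose c hca hcne hc using fun i => exists_zero_open_of_good hCA hCg (hHi i)
  have hc' := eventually_all.2 hc
  rw [nhds_prod_eq, eventually_prod_iff] at hc'
  obtain ⟨pa, hpa, pb, hpb, hab⟩ := hc'
  -- the neighbourhood `V`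
  have hV1 : ∀ᶠ x in 𝓝 a, x ∈ V₀ ∧ pb x ∧ (x ∈ A ↔ g x = 0) ∧ AnalyticAt ℂ g x ∧
      ∀ j, x ∈ A → (P j (p x)).eval (e x j) = 0 :=
    (show ∀ᶠ x in 𝓝 a, x ∈ V₀ from hV₀).and (hpb.and (hAg.and (hga.eventually_analyticAt.and
      (eventually_all.2 hrel))))
  obtain ⟨V, hV, hVo, haV⟩ := _root_.eventually_nhds_iff.1 hV1
  -- the root sheets
  obtain ⟨ρ, hρ, hball⟩ := Metric.mem_nhds_iff.1 ((iInter_mem.2 hD : ⋂ j, D j ∈ 𝓝 (p a)))
  choose q hqa hqne hq using fun j => HolMonic.exists_root_sheets isOpen_ball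
    (convex_ball (p a) ρ).isPreconnected ⟨_, mem_ball_self hρ⟩
    ((hP j).mono (hball.trans (iInter_subset _ j)))
  have hqne' : ∀ j, ¬ q j =ᶠ[𝓝 (p a)] 0 := by
    intro j
    obtain ⟨w, hw, hw0⟩ := hqne j
    exact not_eventuallyEq_zero_of_preconnected (convex_ball (p a) ρ).isPreconnected (hqa j) hw
      (mem_ball_self hρ) (isOpen_ball.mem_nhds hw) fun h => hw0 h.self_of_nhds
  have hqa' : ∀ j, AnalyticAt ℂ (q j) (p a) := fun j => hqa j _ (mem_ball_self hρ)
  refine ⟨V, hVo, haV, fun x hx => (hV x hx).1, fun V' hV' => ?_,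
    fun w => (∏ j, q j w) * ∏ i, c i w, ?_, ?_, ?_⟩
  · filter_upwards [hcand V' hV'] with w hw x hx hxw
    refine hw x fun j => ?_
    rw [← hxw]
    exact (hV x hx.2).2.2.2.2 j hx.1
  · exact (Finset.analyticAt_fun_prod _ fun j _ => hqa' j).mul
      (Finset.analyticAt_fun_prod _ fun i _ => hca i)
  · exact not_eventuallyEq_zero_mul (Finset.analyticAt_fun_prod _ fun j _ => hqa' j)
      (Finset.analyticAt_fun_prod _ fun i _ => hca i)
      (not_eventuallyEq_zero_prod _ hqa' hqne') (not_eventuallyEq_zero_prod _ hca hcne)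
  filter_upwards [hpa, (hcand V (hVo.mem_nhds haV)).eventually_nhds, ball_mem_nhds _ hρ]
    with w₀ hw₁ hw₂ hw₃ hne
  have hq0 : ∀ j, q j w₀ ≠ 0 := fun j =>
    Finset.prod_ne_zero_iff.1 (mul_ne_zero_iff.1 hne).1 j (Finset.mem_univ j)
  have hc0 : ∀ i, c i w₀ ≠ 0 := fun i =>
    Finset.prod_ne_zero_iff.1 (mul_ne_zero_iff.1 hne).2 i (Finset.mem_univ i)
  choose s τ hτa hτ using fun j => hq j w₀ hw₃ (hq0 j)
  set σ : (∀ j, Fin (s j)) → Y → E := fun I w => e.symm fun j => τ j (I j) w with hσ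
  have hσa : ∀ I, AnalyticAt ℂ (σ I) w₀ := fun I =>
    (e.symm.analyticAt _).comp (AnalyticAt.pi fun j => hτa j (I j))
  have hτ' := eventually_all.2 hτ
  have hσC : ∀ᶠ w in 𝓝 w₀, ∀ I, (w, σ I w) ∈ Ct := by
    filter_upwards [hτ'] with w hw I j
    simp only [hσ, ContinuousLinearEquiv.apply_symm_apply]
    exact ((hw j).2 _).2 ⟨_, rfl⟩
  have hσV : ∀ᶠ w in 𝓝 w₀, ∀ I, σ I w ∈ V := by
    filter_upwards [hσC, hw₂] with w hw hw' I
    exact hw' _ (hw I)
  have hcont : ∀ I, ContinuousAt (fun w => (w, σ I w)) w₀ := fun I =>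
    continuousAt_id.prodMk (hσa I).continuousAt
  have hz : ∀ᶠ w in 𝓝 w₀, ∀ I, (H (w, σ I w) = 0 ↔ H (w₀, σ I w₀) = 0) := by
    refine eventually_all.2 fun I => ?_
    have hIV : σ I w₀ ∈ V := hσV.self_of_nhds I
    by_cases h0 : H (w₀, σ I w₀) = 0
    · have h1 : ∀ᶠ z in 𝓝 (w₀, σ I w₀), ∀ i, z ∈ Ct → H z i = 0 :=
        eventually_all.2 fun i => hab hw₁ (hV _ hIV).2.1 i (hc0 i) (congrFun h0 i)
      filter_upwards [(hcont I).eventually h1, hσC] with w hw hw'
      exact ⟨fun _ => h0, fun _ => funext fun i => hw i (hw' I)⟩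
    · have h1 : ContinuousAt (fun w => H (w, σ I w)) w₀ :=
        ContinuousAt.comp (g := H) (f := fun w => (w, σ I w))
          (hHa (w₀, σ I w₀) (hV _ hIV).2.2.2.1).continuousAt (hcont I)
      filter_upwards [h1.eventually_ne h0] with w hw
      exact ⟨fun h => (hw h).elim, fun h => (h0 h).elim⟩
  refine Sheets.of_fintype (ι := {I : ∀ j, Fin (s j) // H (w₀, σ I w₀) = 0})
    (fun I => σ I.1) (fun I => hσa I.1) ?_
  filter_upwards [hτ', hσV, hz] with w hw1 hw2 hw3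
  refine ⟨fun I J hIJ => ?_, fun x => ⟨?_, ?_⟩⟩
  · refine Subtype.ext (funext fun j => (hw1 j).1 ?_)
    exact congrFun (e.symm.injective hIJ) j
  · rintro ⟨⟨hxA, hxV⟩, hxw⟩
    have h1 : ∀ j, ∃ i, τ j i w = e x j := fun j => ((hw1 j).2 _).1 (by
      rw [← hxw]
      exact (hV x hxV).2.2.2.2 j hxA)
    choose I hI using h1
    have h2 : σ I w = x := by
      simp only [hσ, hI]
      exact e.symm_apply_apply x
    refine ⟨⟨I, (hw3 I).1 ?_⟩, h2⟩
    rw [h2, hH0]
    exact ⟨(hV x hxV).2.2.1.1 hxA, hxw⟩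
  · rintro ⟨I, rfl⟩
    have h1 := (hH0 _).1 ((hw3 I.1).2 I.2)
    exact ⟨⟨(hV _ (hw2 I.1)).2.2.1.2 h1.1, hw2 I.1⟩, h1.2⟩

end Pool.Agent.Lib.MP_940f24_an
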