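import Pool.Agent.Lib.MP_940f24_an.VField
import Pool.Agent.Lib.MP_940f24_an.Germ

/-!
The local situation in one chart.
-/

open Set Filter Topology MeasureTheory Metric Complex

namespace Pool.Agent.Lib.MP_940f24_an

variable {k N : ℕ}

/-- The graph map with values in `ℂ ^ (k + N)`. -/
def gr (f : (Fin k → ℂ) → (Fin N → ℂ)) (z : Fin k → ℂ) : Fin k ⊕ Fin N → ℂ :=
  Sum.elim z (f z)

/-- The open set `polydisk × U`. -/
def omega2 (k : ℕ) (U : Set (Fin N → ℂ)) : Set (Fin k ⊕ Fin N → ℂ) :=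
  {x | x ∘ Sum.inl ∈ polydisk k ∧ x ∘ Sum.inr ∈ U}

/-- The open set `punctured polydisk × U`. -/
def omega1 (k : ℕ) (U : Set (Fin N → ℂ)) : Set (Fin k ⊕ Fin N → ℂ) :=
  {x | x ∘ Sum.inl ∈ polydisk k \ {0} ∧ x ∘ Sum.inr ∈ U}

/-- Sets whose image under the graph map is relatively compact in `Ω`. -/
def Adm (f : (Fin k → ℂ) → (Fin N → ℂ)) (Ω : Set (Fin k ⊕ Fin N → ℂ)) (S : Set (Fin k → ℂ)) :
    Prop :=
  ∃ Q, IsCompact Q ∧ Q ⊆ Ω ∧ MapsTo (gr f) S Q

/-- The local situation: `f` is holomorphic on `W`, which is the part of the punctured polydisk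
minus `I` mapped into the chart with ambient open set `U`. -/
structure Setup (W I : Set (Fin k → ℂ)) (U : Set (Fin N → ℂ))
    (f : (Fin k → ℂ) → (Fin N → ℂ)) : Prop where
  pos : 0 < k
  isOpen_W : IsOpen W
  isOpen_U : IsOpen U
  subset : W ⊆ (polydisk k \ {0}) \ I
  analytic : AnalyticOnNhd ℂ f W
  mapsTo : MapsTo f W U
  anAt_I : ∀ z ∈ polydisk k \ {0}, AnAt I z
  dense_I : ∀ z ∈ polydisk k \ {0}, z ∈ closure Iᶜ
  closed : ∀ x ∈ closure (gr f '' W), x ∈ omega1 k U → x ∘ Sum.inl ∉ I → x ∈ gr f '' W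
  anAt_graph : ∀ x ∈ omega1 k U, AnAt (closure (gr f '' W)) x
  top : ∀ Q, IsCompact Q → Q ⊆ U → ∀ s : Fin k → Fin N,
    IntegrableOn (fun z => ‖minor f s z‖ ^ 2) (W ∩ f ⁻¹' Q)

theorem polydisk_eq_ball (k : ℕ) : polydisk k = ball 0 1 := by
  ext z
  simp [polydisk, pi_norm_lt_iff]

theorem isOpen_polydisk (k : ℕ) : IsOpen (polydisk k) := by
  rw [polydisk_eq_ball]; exact isOpen_ball

theorem isOpen_punctured (k : ℕ) : IsOpen (polydisk k \ {0}) :=
  (isOpen_polydisk k).sdiff isClosed_singleton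

theorem continuous_comp_inl :
    Continuous fun x : Fin k ⊕ Fin N → ℂ => x ∘ (Sum.inl : Fin k → Fin k ⊕ Fin N) :=
  continuous_pi fun _ => continuous_apply _

theorem continuous_comp_inr :
    Continuous fun x : Fin k ⊕ Fin N → ℂ => x ∘ (Sum.inr : Fin N → Fin k ⊕ Fin N) :=
  continuous_pi fun _ => continuous_apply _

theorem isOpen_omega2 {U : Set (Fin N → ℂ)} (hU : IsOpen U) : IsOpen (omega2 k U) :=
  ((isOpen_polydisk k).preimage continuous_comp_inl).inter (hU.preimage continuous_comp_inr)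

theorem isOpen_omega1 {U : Set (Fin N → ℂ)} (hU : IsOpen U) : IsOpen (omega1 k U) :=
  ((isOpen_punctured k).preimage continuous_comp_inl).inter (hU.preimage continuous_comp_inr)

theorem omega1_subset_omega2 (U : Set (Fin N → ℂ)) : omega1 k U ⊆ omega2 k U :=
  fun _ hx => ⟨hx.1.1, hx.2⟩

theorem Adm.mono {f : (Fin k → ℂ) → (Fin N → ℂ)} {Ω : Set (Fin k ⊕ Fin N → ℂ)}
    (S T : Set (Fin k → ℂ)) (hTS : T ⊆ S) (h : Adm f Ω S) : Adm f Ω T := by
  obtain ⟨Q, hQ, hQΩ, hS⟩ := h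
  exact ⟨Q, hQ, hQΩ, hS.mono_left hTS⟩

@[simp] theorem gr_comp_inl (f : (Fin k → ℂ) → (Fin N → ℂ)) (z : Fin k → ℂ) :
    gr f z ∘ Sum.inl = z := rfl

@[simp] theorem gr_comp_inr (f : (Fin k → ℂ) → (Fin N → ℂ)) (z : Fin k → ℂ) :
    gr f z ∘ Sum.inr = f z := rfl

theorem analyticAt_gr {f : (Fin k → ℂ) → (Fin N → ℂ)} {z : Fin k → ℂ} (hf : AnalyticAt ℂ f z) :
    AnalyticAt ℂ (gr f) z := by
  refine analyticAt_pi_iff.2 fun m => ?_
  rcases m with l | m
  · exact (ContinuousLinearMap.proj (R := ℂ) (φ := fun _ : Fin k => ℂ) l).analyticAt z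
  · exact analyticAt_pi_iff.1 hf m

theorem gr_injective (f : (Fin k → ℂ) → (Fin N → ℂ)) : Function.Injective (gr f) := by
  intro z z' h
  have := congrArg (fun x => x ∘ (Sum.inl : Fin k → Fin k ⊕ Fin N)) h
  simpa using this

theorem hasFDerivAt_gr {f : (Fin k → ℂ) → (Fin N → ℂ)} {z : Fin k → ℂ}
    (hf : DifferentiableAt ℂ f z) :
    HasFDerivAt (gr f) (ContinuousLinearMap.pi fun m => Sum.elim
      (fun l => ContinuousLinearMap.proj l)
      (fun j => (ContinuousLinearMap.proj j).comp (fderiv ℂ f z)) m) z := by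
  refine hasFDerivAt_pi.2 fun m => ?_
  rcases m with l | m
  · exact (ContinuousLinearMap.proj (R := ℂ) (φ := fun _ : Fin k => ℂ) l).hasFDerivAt
  · exact (ContinuousLinearMap.proj (R := ℂ) (φ := fun _ : Fin N => ℂ) m).hasFDerivAt.comp z
      hf.hasFDerivAt

theorem fderiv_gr {f : (Fin k → ℂ) → (Fin N → ℂ)} {z : Fin k → ℂ} (hf : DifferentiableAt ℂ f z)
    (c : Fin k → ℂ) : fderiv ℂ (gr f) z c = Sum.elim c (fderiv ℂ f z c) := by
  rw [(hasFDerivAt_gr hf).fderiv]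
  ext m
  rcases m with l | m <;> simp

theorem minor_gr_inl {f : (Fin k → ℂ) → (Fin N → ℂ)} {z : Fin k → ℂ}
    (hf : DifferentiableAt ℂ f z) : minor (gr f) Sum.inl z = 1 := by
  have : (jac (gr f) z).submatrix Sum.inl id = 1 := by
    ext i l
    simp [jac, fderiv_gr hf, Matrix.one_apply, Pi.single_apply]
  rw [minor, this, Matrix.det_one]

theorem minor_gr_inr {f : (Fin k → ℂ) → (Fin N → ℂ)} {z : Fin k → ℂ}
    (hf : DifferentiableAt ℂ f z) (s : Fin k → Fin N) :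
    minor (gr f) (Sum.inr ∘ s) z = minor f s z := by
  have : (jac (gr f) z).submatrix (Sum.inr ∘ s) id = (jac f z).submatrix s id := by
    ext i l
    simp [jac, fderiv_gr hf]
  rw [minor, this, minor]

theorem measurableSet_inter_preimage {Y : Type} [TopologicalSpace Y] {W : Set (Fin k → ℂ)}
    (hW : IsOpen W) {g : (Fin k → ℂ) → Y} (hg : ContinuousOn g W) {Q : Set Y} (hQ : IsClosed Q) :
    MeasurableSet (W ∩ g ⁻¹' Q) := by
  have h1 : IsOpen (W ∩ g ⁻¹' Qᶜ) := hg.isOpen_inter_preimage hW hQ.isOpen_compl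
  have : W ∩ g ⁻¹' Q = W \ (W ∩ g ⁻¹' Qᶜ) := by
    ext z; simp only [mem_inter_iff, mem_preimage, mem_diff, mem_compl_iff]; tauto
  rw [this]
  exact hW.measurableSet.diff h1.measurableSet

/-- The identification of `ℂ ^ (k + N)` with `ℂ ^ k × ℂ ^ N`. -/
noncomputable def splitEquiv (k N : ℕ) :
    (Fin k ⊕ Fin N → ℂ) ≃L[ℂ] (Fin k → ℂ) × (Fin N → ℂ) :=
  ContinuousLinearEquiv.sumPiEquivProdPi ℂ (Fin k) (Fin N) fun _ => ℂ

theorem splitEquiv_apply (x : Fin k ⊕ Fin N → ℂ) :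
    splitEquiv k N x = (x ∘ Sum.inl, x ∘ Sum.inr) := rfl

theorem splitEquiv_symm_apply (p : (Fin k → ℂ) × (Fin N → ℂ)) :
    (splitEquiv k N).symm p = Sum.elim p.1 p.2 := by
  apply (splitEquiv k N).injective
  rw [ContinuousLinearEquiv.apply_symm_apply, splitEquiv_apply]
  rfl

end Pool.Agent.Lib.MP_940f24_an
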