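import Pool.Agent.Lib.MP_940f24_an.Germ

/-!
Monic polynomials with holomorphic coefficients; from holomorphic power sums to analytic sets.
-/

open Set Filter Topology MeasureTheory Metric Complex Polynomial

namespace Pool.Agent.Lib.MP_940f24_an

variable {E Y : Type} [NormedAddCommGroup E] [NormedSpace ℂ E] [NormedAddCommGroup Y]
  [NormedSpace ℂ Y]

/-- A monic polynomial of degree `m` whose coefficients are holomorphic on `D`. -/
structure HolMonic (D : Set Y) (m : ℕ) (P : Y → ℂ[X]) : Prop where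
  monic : ∀ w, (P w).Monic
  natDegree : ∀ w, (P w).natDegree = m
  coeff : ∀ j, AnalyticOnNhd ℂ (fun w => (P w).coeff j) D

theorem HolMonic.mono {D D' : Set Y} {m : ℕ} {P : Y → ℂ[X]} (h : HolMonic D m P) (hD : D' ⊆ D) :
    HolMonic D' m P :=
  ⟨h.monic, h.natDegree, fun j => (h.coeff j).mono hD⟩

theorem HolMonic.analyticAt_eval {D : Set Y} {m : ℕ} {P : Y → ℂ[X]} (h : HolMonic D m P)
    {φ : E → Y} {g : E → ℂ} {x : E} (hφ : AnalyticAt ℂ φ x) (hg : AnalyticAt ℂ g x)
    (hx : φ x ∈ D) : AnalyticAt ℂ (fun y => (P (φ y)).eval (g y)) x := by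
  have e : (fun y => (P (φ y)).eval (g y)) =
      fun y => ∑ j ∈ Finset.range (m + 1), (P (φ y)).coeff j * g y ^ j := by
    funext y
    rw [eval_eq_sum_range, h.natDegree]
  rw [e]
  refine Finset.analyticAt_fun_sum _ fun j _ => ?_
  exact (AnalyticAt.comp (g := fun w => (P w).coeff j) (h.coeff j _ hx) hφ).mul (hg.pow j)

/-- Upper semicontinuity of the set of roots. -/
theorem HolMonic.eventually_roots_mem {D : Set Y} {m : ℕ} {P : Y → ℂ[X]} (h : HolMonic D m P)
    {w₀ : Y} (hw : w₀ ∈ D) {O : Set ℂ} (hO : IsOpen O)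
    (hroot : ∀ t, (P w₀).eval t = 0 → t ∈ O) :
    ∀ᶠ w in 𝓝 w₀, ∀ t, (P w).eval t = 0 → t ∈ O := by
  set M : ℝ := ∑ j ∈ Finset.range m, (‖(P w₀).coeff j‖ + 1) with hM
  have hM0 : 0 ≤ M := Finset.sum_nonneg fun j _ => by positivity
  have h1 : ∀ᶠ w in 𝓝 w₀, ∀ j ∈ Finset.range m, ‖(P w).coeff j‖ ≤ M := by
    rw [Filter.eventually_all_finset]
    intro j hj
    have hc : ContinuousAt (fun w => ‖(P w).coeff j‖) w₀ := (h.coeff j _ hw).continuousAt.norm
    have hlt : ∀ᶠ w in 𝓝 w₀, ‖(P w).coeff j‖ < ‖(P w₀).coeff j‖ + 1 :=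
      hc.eventually_lt continuousAt_const (lt_add_one _)
    filter_upwards [hlt] with w hw'
    refine hw'.le.trans ?_
    exact Finset.single_le_sum (f := fun j => ‖(P w₀).coeff j‖ + 1)
      (fun j _ => by positivity) hj
  have hK : IsCompact (closedBall (0 : ℂ) (M + 1) \ O) := (isCompact_closedBall _ _).diff hO
  have h2 : ∀ᶠ w in 𝓝 w₀, ∀ t ∈ closedBall (0 : ℂ) (M + 1) \ O, (P w).eval t ≠ 0 := by
    refine hK.eventually_forall_of_forall_eventually (P := fun w t => (P w).eval t ≠ 0) ?_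
    intro t ht
    have ha : AnalyticAt ℂ (fun z : Y × ℂ => (P z.1).eval z.2) (w₀, t) :=
      h.analyticAt_eval analyticAt_fst analyticAt_snd hw
    exact ha.continuousAt.eventually_ne fun h0 => ht.2 (hroot t h0)
  filter_upwards [h1, h2] with w hw1 hw2 t ht
  by_contra hn
  refine hw2 t ⟨?_, hn⟩ ht
  have hlt := IsRoot.norm_lt_cauchyBound (h.monic w).ne_zero (a := t) ht
  have hb : cauchyBound (P w) ≤ NNReal.mk M hM0 + 1 := by
    unfold cauchyBound
    rw [(h.monic w).leadingCoeff, nnnorm_one, div_one, h.natDegree]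
    gcongr
    refine Finset.sup_le fun j hj => ?_
    exact hw1 j hj
  have h3 : (‖t‖₊ : ℝ) ≤ ((NNReal.mk M hM0 + 1 : NNReal) : ℝ) :=
    NNReal.coe_le_coe.2 (hlt.le.trans hb)
  rw [mem_closedBall_zero_iff]
  simpa using h3

theorem exists_enum_multiset {α : Type} (s : Multiset α) {m : ℕ} (hm : Multiset.card s = m) :
    ∃ f : Fin m → α, Finset.univ.val.map f = s := by
  subst hm
  induction s using Quotient.inductionOn with
  | h l =>
    refine ⟨l.get, ?_⟩
    change Finset.univ.val.map (l.get : Fin l.length → α) = (l : Multiset α)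
    rw [Fin.univ_val_map, List.ofFn_get]

theorem newton_multiset (s : Multiset ℂ) (k : ℕ) :
    (k : ℂ) * s.esymm k = (-1) ^ (k + 1) *
      ∑ a ∈ Finset.HasAntidiagonal.antidiagonal k with a.1 < k,
        (-1) ^ a.1 * s.esymm a.1 * (s.map fun t => t ^ a.2).sum := by
  obtain ⟨m, hm⟩ : ∃ m, Multiset.card s = m := ⟨_, rfl⟩
  obtain ⟨f, rfl⟩ := exists_enum_multiset s hm
  have h := congrArg (MvPolynomial.aeval f) (MvPolynomial.mul_esymm_eq_sum (Fin m) ℂ k)
  simp only [map_mul, map_natCast, map_pow, map_neg, map_one, map_sum,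
    MvPolynomial.aeval_esymm_eq_multiset_esymm, MvPolynomial.psum, MvPolynomial.aeval_X] at h
  rw [h]
  simp only [Multiset.map_map, Function.comp_def]
  rfl

theorem exists_analytic_esymm {D G : Set Y} (Z : Y → Multiset ℂ)
    (h : ∀ j : ℕ, ∃ H : Y → ℂ, AnalyticOnNhd ℂ H D ∧
      ∀ w ∈ G, H w = ((Z w).map fun t => t ^ j).sum) (k : ℕ) :
    ∃ e : Y → ℂ, AnalyticOnNhd ℂ e D ∧ ∀ w ∈ G, e w = (Z w).esymm k := by
  choose H hH hHZ using h
  induction k using Nat.strong_induction_on with
  | _ k ih =>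
    rcases Nat.eq_zero_or_pos k with rfl | hk
    · exact ⟨fun _ => 1, analyticOnNhd_const, fun w _ => by simp [Multiset.esymm]⟩
    · choose! e he heZ using ih
      refine ⟨fun w => (k : ℂ)⁻¹ * ((-1) ^ (k + 1) *
        ∑ a ∈ Finset.HasAntidiagonal.antidiagonal k with a.1 < k,
          (-1) ^ a.1 * e a.1 w * H a.2 w), ?_, ?_⟩
      · intro w hw
        refine analyticAt_const.mul (analyticAt_const.mul ?_)
        refine Finset.analyticAt_fun_sum _ fun a ha => ?_
        exact (analyticAt_const.mul (he a.1 (Finset.mem_filter.1 ha).2 w hw)).mul (hH a.2 w hw)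
      · intro w hw
        have hk' : (k : ℂ) ≠ 0 := by exact_mod_cast hk.ne'
        have hs : ∑ a ∈ Finset.HasAntidiagonal.antidiagonal k with a.1 < k,
            (-1) ^ a.1 * e a.1 w * H a.2 w =
            ∑ a ∈ Finset.HasAntidiagonal.antidiagonal k with a.1 < k,
              (-1) ^ a.1 * (Z w).esymm a.1 * ((Z w).map fun t => t ^ a.2).sum :=
          Finset.sum_congr rfl fun a ha => by
            rw [heZ a.1 (Finset.mem_filter.1 ha).2 w hw, hHZ a.2 w hw]
        change (k : ℂ)⁻¹ * (_ * _) = _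
        rw [hs, ← newton_multiset, ← mul_assoc, inv_mul_cancel₀ hk', one_mul]

/-- Newton identities with holomorphic parameters. -/
theorem exists_holMonic_of_psum {D G : Set Y} {m : ℕ} (Z : Y → Multiset ℂ)
    (hcard : ∀ w ∈ G, Multiset.card (Z w) = m)
    (h : ∀ j : ℕ, ∃ H : Y → ℂ, AnalyticOnNhd ℂ H D ∧
      ∀ w ∈ G, H w = ((Z w).map fun t => t ^ j).sum) :
    ∃ P : Y → ℂ[X], HolMonic D m P ∧
      ∀ w ∈ G, P w = ((Z w).map fun t => X - C t).prod := by
  choose e he heZ using exists_analytic_esymm Z h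
  let c : ℕ → Y → ℂ := fun j w => if j = m then 1 else (-1) ^ (m - j) * e (m - j) w
  have hc : ∀ j, AnalyticOnNhd ℂ (c j) D := by
    intro j
    by_cases hj : j = m
    · simp only [c, hj, if_true]
      exact analyticOnNhd_const
    · simp only [c, hj, if_false]
      exact analyticOnNhd_const.mul (he _)
  let P : Y → ℂ[X] := fun w => ∑ j ∈ Finset.range (m + 1), monomial j (c j w)
  have hcoeff : ∀ w j, (P w).coeff j = if j < m + 1 then c j w else 0 := by
    intro w j
    simp only [P, finsetSum_coeff, coeff_monomial, Finset.sum_ite_eq', Finset.mem_range]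
  have hle : ∀ w, (P w).natDegree ≤ m := by
    intro w
    rw [natDegree_le_iff_coeff_eq_zero]
    intro N hN
    rw [hcoeff, if_neg (by omega)]
  have hm : ∀ w, (P w).coeff m = 1 := by
    intro w
    rw [hcoeff, if_pos (by omega)]
    simp [c]
  refine ⟨P, ⟨fun w => monic_of_natDegree_le_of_coeff_eq_one m (hle w) (hm w),
    fun w => natDegree_eq_of_le_of_coeff_ne_zero (hle w) (by rw [hm]; exact one_ne_zero),
    fun j => ?_⟩, fun w hw => ?_⟩
  · simp only [hcoeff]
    by_cases hj : j < m + 1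
    · simp only [hj, if_true]
      exact hc j
    · simp only [hj, if_false]
      exact analyticOnNhd_const
  · ext j
    rw [hcoeff]
    by_cases hj : j < m + 1
    · rw [if_pos hj, Multiset.prod_X_sub_C_coeff _ (by rw [hcard w hw]; omega), hcard w hw]
      by_cases hjm : j = m
      · simp [c, hjm, Multiset.esymm]
      · simp only [c, hjm, if_false]
        rw [heZ _ w hw]
    · rw [if_neg hj]
      symm
      apply coeff_eq_zero_of_natDegree_lt
      rw [natDegree_multiset_prod_X_sub_C_eq_card, hcard w hw]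
      omega

/-- A finite family of functionals such that any `m` nonzero vectors avoid the kernel of one
of them. -/
theorem exists_separating_family (E : Type) [NormedAddCommGroup E] [NormedSpace ℂ E]
    [FiniteDimensional ℂ E] (m : ℕ) :
    ∃ L : Finset (E →L[ℂ] ℂ), ∀ s : Multiset E, Multiset.card s ≤ m → (0 : E) ∉ s →
      ∃ l ∈ L, ∀ x ∈ s, l x ≠ 0 := by
  classical
  set n := Module.finrank ℂ E
  let b := Module.finBasis ℂ E
  let l : ℂ → (E →L[ℂ] ℂ) := fun z =>
    LinearMap.toContinuousLinearMap (∑ i : Fin n, z ^ (i : ℕ) • b.coord i)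
  let Q : E → ℂ[X] := fun x => ∑ i : Fin n, monomial (i : ℕ) (b.repr x i)
  have hQ : ∀ x z, (Q x).eval z = l z x := by
    intro x z
    simp [Q, l, eval_finsetSum, mul_comm]
  have hQd : ∀ x, (Q x).natDegree ≤ n := by
    intro x
    refine natDegree_sum_le_of_forall_le _ _ fun i _ => ?_
    exact (natDegree_monomial_le _).trans i.2.le
  have hQ0 : ∀ x, x ≠ 0 → Q x ≠ 0 := by
    intro x hx h0
    apply hx
    apply b.repr.injective
    ext i
    have := congrArg (fun q => Polynomial.coeff q i) h0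
    simp only [Q, finsetSum_coeff, coeff_monomial, coeff_zero, Fin.val_inj,
      Finset.sum_ite_eq', Finset.mem_univ, if_true] at this
    simpa using this
  let T : Finset ℂ := (Finset.range (m * n + 1)).image (Nat.cast : ℕ → ℂ)
  have hT : T.card = m * n + 1 := by
    rw [Finset.card_image_of_injective _ Nat.cast_injective, Finset.card_range]
  refine ⟨T.image l, fun s hs h0 => ?_⟩
  have hprod : (s.map Q).prod ≠ 0 := by
    refine Multiset.prod_ne_zero fun hm => ?_
    obtain ⟨x, hx, hx0⟩ := Multiset.mem_map.1 hm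
    exact hQ0 x (fun e => h0 (e ▸ hx)) hx0
  have hdeg : (s.map Q).prod.natDegree ≤ m * n := by
    refine (natDegree_multiset_prod_le _).trans ?_
    refine (Multiset.sum_le_card_nsmul _ n ?_).trans ?_
    · intro y hy
      obtain ⟨q, hq, rfl⟩ := Multiset.mem_map.1 hy
      obtain ⟨x, _, rfl⟩ := Multiset.mem_map.1 hq
      exact hQd x
    · simp only [Multiset.card_map, smul_eq_mul]
      exact Nat.mul_le_mul_right _ hs
  by_contra hcon
  apply hprod
  refine eq_zero_of_natDegree_lt_card_of_eval_eq_zero' _ T (fun z hz => ?_) (by omega)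
  by_contra hne
  refine hcon ⟨l z, Finset.mem_image_of_mem _ hz, fun x hx hx0 => hne ?_⟩
  rw [eval_multiset_prod]
  refine Multiset.prod_eq_zero ?_
  refine Multiset.mem_map.2 ⟨Q x, Multiset.mem_map_of_mem _ hx, ?_⟩
  rw [hQ, hx0]

/-- A family of `m` points over a dense set `G ⊆ D` with holomorphic power sums has analytic
closure over `D`. -/
theorem anAt_closure_of_psum [FiniteDimensional ℂ E] [FiniteDimensional ℂ Y] {p : E →L[ℂ] Y}
    {D G : Set Y} (hD : IsOpen D) (hGD : G ⊆ D) (hG : D ⊆ closure G) {m : ℕ}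
    (Z : Y → Multiset E) (hcard : ∀ w ∈ G, Multiset.card (Z w) = m)
    (hp : ∀ w ∈ G, ∀ x ∈ Z w, p x = w) {K : Set E} (hK : IsCompact K)
    (hZK : ∀ w ∈ G, ∀ x ∈ Z w, x ∈ K) {L : Finset (E →L[ℂ] ℂ)}
    (hL : ∀ s : Multiset E, Multiset.card s ≤ m → (0 : E) ∉ s → ∃ l ∈ L, ∀ x ∈ s, l x ≠ 0)
    (h : ∀ l ∈ L, ∀ j : ℕ, ∃ H : Y → ℂ, AnalyticOnNhd ℂ H D ∧
      ∀ w ∈ G, H w = ((Z w).map fun x => l x ^ j).sum) :
    ∀ a, p a ∈ D → AnAt (closure {x | ∃ w ∈ G, x ∈ Z w}) a := by
  classical
  have hP : ∀ l ∈ L, ∃ P : Y → ℂ[X], HolMonic D m P ∧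
      ∀ w ∈ G, P w = (((Z w).map l).map fun t => X - C t).prod := by
    intro l hl
    refine exists_holMonic_of_psum (fun w => (Z w).map l)
      (fun w hw => by rw [Multiset.card_map, hcard w hw]) fun j => ?_
    obtain ⟨H, hH, hHZ⟩ := h l hl j
    exact ⟨H, hH, fun w hw => by rw [hHZ w hw, Multiset.map_map]; rfl⟩
  choose! P hPm hPZ using hP
  have hev : ∀ l ∈ L, ∀ w ∈ G, ∀ t, (P l w).eval t = ((Z w).map fun y => t - l y).prod := by
    intro l hl w hw t
    rw [hPZ l hl w hw, eval_multiset_prod]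
    simp only [Multiset.map_map, Function.comp_def, eval_sub, eval_X, eval_C]
  have han : ∀ l ∈ L, ∀ x, p x ∈ D → AnalyticAt ℂ (fun y => (P l (p y)).eval (l y)) x :=
    fun l hl x hx => (hPm l hl).analyticAt_eval (p.analyticAt x) (l.analyticAt x) hx
  have key : ∀ x, p x ∈ D →
      (x ∈ closure {x | ∃ w ∈ G, x ∈ Z w} ↔ ∀ l ∈ L, (P l (p x)).eval (l x) = 0) := by
    intro x hx
    constructor
    · intro hcl l hl
      refine tendsto_nhds_unique_of_frequently_eq (han l hl x hx).continuousAt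
        (tendsto_const_nhds (x := (0 : ℂ))) ((mem_closure_iff_frequently.1 hcl).mono ?_)
      rintro y ⟨w, hw, hy⟩
      rw [hp w hw y hy, hev l hl w hw]
      exact Multiset.prod_eq_zero (Multiset.mem_map.2 ⟨y, hy, sub_self _⟩)
    · intro h0
      have henum : ∀ w ∈ G, ∃ f : Fin m → E, Finset.univ.val.map f = Z w :=
        fun w hw => exists_enum_multiset _ (hcard w hw)
      choose! y hy using henum
      have hmem : ∀ w ∈ G, ∀ j, y w j ∈ Z w := by
        intro w hw j
        rw [← hy w hw]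
        exact Multiset.mem_map_of_mem _ (Finset.mem_univ_val j)
      have : NeBot (𝓝[G] (p x)) := mem_closure_iff_nhdsWithin_neBot.1 (hG hx)
      have hKm : IsCompact (Set.pi univ fun _ : Fin m => K) := isCompact_univ_pi fun _ => hK
      have hle : Filter.map y (𝓝[G] (p x)) ≤ 𝓟 (Set.pi univ fun _ : Fin m => K) := by
        rw [Filter.le_principal_iff, Filter.mem_map]
        filter_upwards [self_mem_nhdsWithin] with w hw j _
        exact hZK w hw _ (hmem w hw j)
      obtain ⟨y₀, -, hy₀⟩ := hKm.exists_mapClusterPt hle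
      obtain ⟨U, hU, hUy⟩ := mapClusterPt_iff_ultrafilter.1 hy₀
      have hUG : ∀ᶠ w in (U : Filter Y), w ∈ G := hU self_mem_nhdsWithin
      have hUx : Tendsto (fun w : Y => w) U (𝓝 (p x)) := hU.trans nhdsWithin_le_nhds
      have hj : ∀ j, Tendsto (fun w => y w j) U (𝓝 (y₀ j)) := fun j => tendsto_pi_nhds.1 hUy j
      have hz : ∀ l ∈ L, ∏ j, (l x - l (y₀ j)) = 0 := by
        intro l hl
        have h1 : Tendsto (fun w => ∏ j, (l x - l (y w j))) U (𝓝 (∏ j, (l x - l (y₀ j)))) :=
          tendsto_finsetProd _ fun j _ =>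
            tendsto_const_nhds.sub ((l.continuous.tendsto _).comp (hj j))
        have h2 : Tendsto (fun w => (P l w).eval (l x)) U (𝓝 ((P l (p x)).eval (l x))) := by
          have ha : AnalyticAt ℂ (fun w => (P l w).eval (l x)) (p x) :=
            (hPm l hl).analyticAt_eval (φ := fun w => w) analyticAt_id analyticAt_const hx
          exact ha.continuousAt.tendsto.comp hUx
        rw [← h0 l hl]
        refine tendsto_nhds_unique_of_eventuallyEq h1 h2 ?_
        filter_upwards [hUG] with w hw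
        rw [hev l hl w hw, ← hy w hw, Multiset.map_map]
        rfl
      have hx0 : (0 : E) ∈ Finset.univ.val.map fun j => x - y₀ j := by
        by_contra hn
        obtain ⟨l, hl, hl0⟩ := hL _ (by simp) hn
        obtain ⟨j, -, hj0⟩ := Finset.prod_eq_zero_iff.1 (hz l hl)
        refine hl0 (x - y₀ j) (Multiset.mem_map_of_mem _ (Finset.mem_univ_val j)) ?_
        rw [map_sub, hj0]
      obtain ⟨j, -, hj0⟩ := Multiset.mem_map.1 hx0
      rw [sub_eq_zero.1 hj0]
      refine mem_closure_of_tendsto (hj j) ?_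
      filter_upwards [hUG] with w hw
      exact ⟨w, hw, hmem w hw j⟩
  intro a ha
  refine AnAt.of_finiteDimensional (Y := L → ℂ)
    (g := fun x (l : L) => (P l.1 (p x)).eval (l.1 x)) ?_ ?_
  · exact analyticAt_pi_iff.2 fun l => han l.1 l.2 a ha
  · have hn : ∀ᶠ x in 𝓝 a, p x ∈ D := p.continuous.continuousAt.preimage_mem_nhds (hD.mem_nhds ha)
    filter_upwards [hn] with x hx
    rw [key x hx, funext_iff]
    exact ⟨fun h l => h l.1 l.2, fun h l hl => h ⟨l, hl⟩⟩

end Pool.Agent.Lib.MP_940f24_an
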