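import Pool.Agent.Lib.MP_940f24_an.Holo

/-!
The Wirtinger derivative along a vector, divergence free holomorphic vector fields coming from
cofactors of Jacobian matrices, and the Stokes formula for compactly supported functions.
-/

open Set Filter Topology MeasureTheory Metric Complex
open scoped ContDiff ComplexConjugate Matrix

namespace Pool.Agent.Lib.MP_940f24_an

section dz
variable {E E' : Type} [NormedAddCommGroup E] [NormedSpace ℂ E] [NormedAddCommGroup E']
  [NormedSpace ℂ E']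

/-- The complex linear part of the real derivative of `a` at `z`, applied to `c`. -/
noncomputable def dz (a : E → ℂ) (z c : E) : ℂ :=
  (1 / 2 : ℂ) * (fderiv ℝ a z c - I * fderiv ℝ a z (I • c))

theorem dz_congr {a b : E → ℂ} {z : E} (h : a =ᶠ[𝓝 z] b) (c : E) : dz a z c = dz b z c := by
  unfold dz
  rw [h.fderiv_eq]

theorem dz_const (r : ℂ) (z c : E) : dz (fun _ => r) z c = 0 := by
  simp [dz]

theorem dz_add {a b : E → ℂ} {z : E} (ha : DifferentiableAt ℝ a z) (hb : DifferentiableAt ℝ b z)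
    (c : E) : dz (fun y => a y + b y) z c = dz a z c + dz b z c := by
  unfold dz
  rw [fderiv_fun_add ha hb]
  simp only [_root_.add_apply]
  ring

theorem dz_sub {a b : E → ℂ} {z : E} (ha : DifferentiableAt ℝ a z) (hb : DifferentiableAt ℝ b z)
    (c : E) : dz (fun y => a y - b y) z c = dz a z c - dz b z c := by
  unfold dz
  rw [fderiv_fun_sub ha hb]
  simp only [_root_.sub_apply]
  ring

theorem dz_mul {a b : E → ℂ} {z : E} (ha : DifferentiableAt ℝ a z) (hb : DifferentiableAt ℝ b z)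
    (c : E) : dz (fun y => a y * b y) z c = dz a z c * b z + a z * dz b z c := by
  unfold dz
  rw [fderiv_fun_mul ha hb]
  simp only [_root_.add_apply, _root_.smul_apply, smul_eq_mul]
  ring

theorem dz_sum {ι : Type} (s : Finset ι) {a : ι → E → ℂ} {z : E}
    (ha : ∀ i ∈ s, DifferentiableAt ℝ (a i) z) (c : E) :
    dz (fun y => ∑ i ∈ s, a i y) z c = ∑ i ∈ s, dz (a i) z c := by
  unfold dz
  rw [fderiv_fun_sum ha]
  simp only [_root_.sum_apply]
  rw [Finset.mul_sum, ← Finset.sum_sub_distrib, Finset.mul_sum]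

theorem fderiv_real_of_holo {F : Type} [NormedAddCommGroup F] [NormedSpace ℂ F] {a : E → F}
    {z : E} (ha : DifferentiableAt ℂ a z) (c : E) : fderiv ℝ a z c = fderiv ℂ a z c := by
  rw [ha.fderiv_restrictScalars ℝ]
  rfl

theorem dz_holo {a : E → ℂ} {z : E} (ha : DifferentiableAt ℂ a z) (c : E) :
    dz a z c = fderiv ℂ a z c := by
  unfold dz
  rw [fderiv_real_of_holo ha, fderiv_real_of_holo ha, map_smul, smul_eq_mul, ← mul_assoc,
    I_mul_I]
  ring

theorem fderiv_conj {a : E → ℂ} {z : E} (ha : DifferentiableAt ℝ a z) (c : E) :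
    fderiv ℝ (fun y => conj (a y)) z c = conj (fderiv ℝ a z c) := by
  have h := (conjCLE.toContinuousLinearMap.hasFDerivAt (x := a z)).comp z ha.hasFDerivAt
  have h2 : (fun y => conj (a y)) = (conjCLE.toContinuousLinearMap ∘ a) := by
    funext y; simp
  rw [h2, h.fderiv]
  simp

theorem differentiableAt_conj {a : E → ℂ} {z : E} (ha : DifferentiableAt ℝ a z) :
    DifferentiableAt ℝ (fun y => conj (a y)) z :=
  (conjCLE.toContinuousLinearMap.differentiableAt (x := a z)).comp z ha

theorem dz_conj_holo {a : E → ℂ} {z : E} (ha : DifferentiableAt ℂ a z) (c : E) :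
    dz (fun y => conj (a y)) z c = 0 := by
  unfold dz
  have ha' : DifferentiableAt ℝ a z := ha.restrictScalars ℝ
  rw [fderiv_conj ha', fderiv_conj ha', fderiv_real_of_holo ha, fderiv_real_of_holo ha, map_smul,
    smul_eq_mul, map_mul, conj_I, ← mul_assoc, mul_neg, I_mul_I]
  ring

theorem dz_smul_vec (a : E → ℂ) (z c : E) (r : ℂ) : dz a z (r • c) = r * dz a z c := by
  unfold dz
  have h1 : r • c = r.re • c + r.im • (I • c) := by
    conv_lhs => rw [← re_add_im r]
    rw [add_smul, mul_smul, Complex.coe_smul, Complex.coe_smul]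
  have h2 : I • r • c = r.re • (I • c) - r.im • c := by
    rw [h1, smul_add, smul_comm I r.re c, smul_comm I r.im (I • c), smul_smul I I c, I_mul_I,
      neg_smul, one_smul, smul_neg, sub_eq_add_neg]
  rw [h2, h1]
  simp only [map_add, map_sub, map_smul, real_smul]
  conv_rhs => rw [← re_add_im r]
  have : I * I = -1 := I_mul_I
  linear_combination (1 / 2 : ℂ) * (r.im : ℂ) * (fderiv ℝ a z (I • c)) * this

theorem dz_add_vec (a : E → ℂ) (z c c' : E) : dz a z (c + c') = dz a z c + dz a z c' := by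
  unfold dz
  rw [smul_add, map_add, map_add]
  ring

theorem norm_dz_le (a : E → ℂ) (z c : E) : ‖dz a z c‖ ≤ ‖fderiv ℝ a z‖ * ‖c‖ := by
  unfold dz
  have h1 := (fderiv ℝ a z).le_opNorm c
  have h2 := (fderiv ℝ a z).le_opNorm (I • c)
  rw [norm_smul, norm_I, one_mul] at h2
  have h3 := norm_sub_le (fderiv ℝ a z c) (I * fderiv ℝ a z (I • c))
  rw [norm_mul, norm_I, one_mul] at h3
  rw [norm_mul]
  have h4 : ‖(1 / 2 : ℂ)‖ = 1 / 2 := by simp
  rw [h4]
  linarith

/-- Chain rule with a holomorphic inner map. -/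
theorem dz_comp_holo {η : E' → ℂ} {G : E → E'} {z : E} (hη : DifferentiableAt ℝ η (G z))
    (hG : DifferentiableAt ℂ G z) (c : E) :
    dz (fun y => η (G y)) z c = dz η (G z) (fderiv ℂ G z c) := by
  unfold dz
  have hG' : DifferentiableAt ℝ G z := hG.restrictScalars ℝ
  rw [fderiv_fun_comp z hη hG']
  simp only [ContinuousLinearMap.comp_apply]
  rw [fderiv_real_of_holo hG, fderiv_real_of_holo hG, map_smul]

/-- Chain rule with a real outer function. -/
theorem dz_comp_real {p : ℝ → ℝ} {p' : ℝ} {u : E → ℝ} {z : E} (hp : HasDerivAt p p' (u z))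
    (hu : DifferentiableAt ℝ u z) (c : E) :
    dz (fun y => (p (u y) : ℂ)) z c = p' * dz (fun y => (u y : ℂ)) z c := by
  unfold dz
  have h1 : HasFDerivAt (fun y => (p (u y) : ℂ))
      (ofRealCLM.comp (p' • fderiv ℝ u z)) z :=
    (ofRealCLM.hasFDerivAt (x := p (u z))).comp z (hp.comp_hasFDerivAt z hu.hasFDerivAt)
  have h2 : HasFDerivAt (fun y => (u y : ℂ)) (ofRealCLM.comp (fderiv ℝ u z)) z :=
    (ofRealCLM.hasFDerivAt (x := u z)).comp z hu.hasFDerivAt
  rw [h1.fderiv, h2.fderiv]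
  simp only [ContinuousLinearMap.comp_apply, _root_.smul_apply, smul_eq_mul,
    ofRealCLM_apply, ofReal_mul]
  ring

end dz

section sq
variable {E : Type} [NormedAddCommGroup E] [NormedSpace ℂ E] {κ : Type} [Fintype κ]

/-- The squared Euclidean norm of a vector. -/
noncomputable def nsq (v : κ → ℂ) : ℝ := ∑ i, ‖v i‖ ^ 2

/-- The Hermitian product, linear in the second variable. -/
noncomputable def hdot (v w : κ → ℂ) : ℂ := ∑ i, conj (v i) * w i

theorem nsq_nonneg (v : κ → ℂ) : 0 ≤ nsq v :=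
  Finset.sum_nonneg fun _ _ => sq_nonneg _

theorem norm_sq_le_nsq (v : κ → ℂ) : ‖v‖ ^ 2 ≤ nsq v := by
  have h0 := nsq_nonneg v
  have h : ‖v‖ ≤ Real.sqrt (nsq v) := by
    rw [pi_norm_le_iff_of_nonneg (Real.sqrt_nonneg _)]
    intro i
    apply Real.le_sqrt_of_sq_le
    exact Finset.single_le_sum (f := fun i => ‖v i‖ ^ 2) (fun _ _ => sq_nonneg _)
      (Finset.mem_univ i)
  calc ‖v‖ ^ 2 ≤ (Real.sqrt (nsq v)) ^ 2 := by gcongr
    _ = nsq v := Real.sq_sqrt h0

theorem nsq_le_card_mul (v : κ → ℂ) : nsq v ≤ Fintype.card κ * ‖v‖ ^ 2 := by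
  unfold nsq
  calc ∑ i, ‖v i‖ ^ 2 ≤ ∑ _i : κ, ‖v‖ ^ 2 := by
        apply Finset.sum_le_sum
        intro i _
        have := norm_le_pi_norm v i
        gcongr
    _ = Fintype.card κ * ‖v‖ ^ 2 := by simp

theorem norm_hdot_sq_le (v w : κ → ℂ) : ‖hdot v w‖ ^ 2 ≤ nsq v * nsq w := by
  unfold hdot nsq
  have h1 : ‖∑ i, conj (v i) * w i‖ ≤ ∑ i, ‖v i‖ * ‖w i‖ := by
    refine (norm_sum_le _ _).trans (le_of_eq ?_)
    simp
  calc ‖∑ i, conj (v i) * w i‖ ^ 2 ≤ (∑ i, ‖v i‖ * ‖w i‖) ^ 2 := by gcongr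
    _ ≤ _ := Finset.sum_mul_sq_le_sq_mul_sq _ _ _

theorem ofReal_nsq (v : κ → ℂ) : (nsq v : ℂ) = hdot v v := by
  unfold nsq hdot
  push_cast
  refine Finset.sum_congr rfl fun i _ => ?_
  rw [Complex.conj_mul']

theorem analyticAt_comp_apply {h : E → (κ → ℂ)} {z : E} (hh : AnalyticAt ℂ h z) (i : κ) :
    AnalyticAt ℂ (fun y => h y i) z :=
  ((ContinuousLinearMap.proj (R := ℂ) (φ := fun _ : κ => ℂ) i).analyticAt (h z)).comp hh

theorem contDiffAt_real_of_analyticAt {F : Type} [NormedAddCommGroup F] [NormedSpace ℂ F]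
    [CompleteSpace F] {h : E → F} {z : E} (hh : AnalyticAt ℂ h z) : ContDiffAt ℝ ∞ h z :=
  (hh.contDiffAt (n := ∞)).restrict_scalars ℝ

theorem contDiffAt_nsq {h : E → (κ → ℂ)} {z : E} (hh : AnalyticAt ℂ h z) :
    ContDiffAt ℝ ∞ (fun y => nsq (h y)) z := by
  unfold nsq
  refine ContDiffAt.sum fun i _ => ?_
  exact (contDiffAt_real_of_analyticAt (analyticAt_comp_apply hh i)).norm_sq ℂ

omit [Fintype κ] in
theorem fderiv_comp_apply {h : E → (κ → ℂ)} {z : E} (hh : DifferentiableAt ℂ h z) (i : κ)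
    (c : E) : fderiv ℂ (fun y => h y i) z c = fderiv ℂ h z c i := by
  rw [fderiv_pi (differentiableAt_pi.1 hh)]
  rfl

theorem dz_nsq {h : E → (κ → ℂ)} {z : E} (hh : AnalyticAt ℂ h z) (c : E) :
    dz (fun y => (nsq (h y) : ℂ)) z c = hdot (h z) (fderiv ℂ h z c) := by
  simp only [ofReal_nsq]
  unfold hdot
  have hd : ∀ i, DifferentiableAt ℂ (fun y => h y i) z := fun i =>
    (analyticAt_comp_apply hh i).differentiableAt
  rw [dz_sum]
  · refine Finset.sum_congr rfl fun i _ => ?_
    rw [dz_mul (differentiableAt_conj ((hd i).restrictScalars ℝ)) ((hd i).restrictScalars ℝ),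
      dz_conj_holo (hd i), dz_holo (hd i), fderiv_comp_apply hh.differentiableAt]
    ring
  · intro i _
    exact (differentiableAt_conj ((hd i).restrictScalars ℝ)).mul ((hd i).restrictScalars ℝ)

theorem analyticAt_fderiv_apply {F : Type} [NormedAddCommGroup F] [NormedSpace ℂ F]
    [CompleteSpace F] {h : E → F} {c : E → E} {z : E} (hh : AnalyticAt ℂ h z)
    (hc : AnalyticAt ℂ c z) : AnalyticAt ℂ (fun y => fderiv ℂ h y (c y)) z :=
  ((ContinuousLinearMap.id ℂ (E →L[ℂ] F)).analyticAt_bilinear (fderiv ℂ h z, c z)).comp₂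
    hh.fderiv hc

theorem conj_hdot (v w : κ → ℂ) : conj (hdot v w) = ∑ i, v i * conj (w i) := by
  unfold hdot
  simp

theorem contDiffAt_conj {n : WithTop ℕ∞} {a : E → ℂ} {z : E} (ha : ContDiffAt ℝ n a z) :
    ContDiffAt ℝ n (fun y => conj (a y)) z :=
  (conjCLE.toContinuousLinearMap.contDiff.contDiffAt (x := a z)).comp z ha

theorem contDiffAt_conj_hdot {h : E → (κ → ℂ)} {c : E → E} {z : E} (hh : AnalyticAt ℂ h z)
    (hc : AnalyticAt ℂ c z) :
    ContDiffAt ℝ ∞ (fun y => conj (hdot (h y) (fderiv ℂ h y (c y)))) z := by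
  simp only [conj_hdot]
  refine ContDiffAt.sum fun i _ => ?_
  exact (contDiffAt_real_of_analyticAt (analyticAt_comp_apply hh i)).mul
    (contDiffAt_conj (contDiffAt_real_of_analyticAt
      (analyticAt_comp_apply (analyticAt_fderiv_apply hh hc) i)))

/-- `X (Xbar u) = |X h| ^ 2` for `u = |h| ^ 2`. -/
theorem dz_conj_hdot {h : E → (κ → ℂ)} {c : E → E} {z : E} (hh : AnalyticAt ℂ h z)
    (hc : AnalyticAt ℂ c z) :
    dz (fun y => conj (hdot (h y) (fderiv ℂ h y (c y)))) z (c z) =
      (nsq (fderiv ℂ h z (c z)) : ℂ) := by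
  rw [ofReal_nsq]
  simp only [conj_hdot]
  unfold hdot
  have hd : ∀ i, DifferentiableAt ℂ (fun y => h y i) z := fun i =>
    (analyticAt_comp_apply hh i).differentiableAt
  have hd2 : ∀ i, DifferentiableAt ℂ (fun y => fderiv ℂ h y (c y) i) z := fun i =>
    (analyticAt_comp_apply (analyticAt_fderiv_apply hh hc) i).differentiableAt
  rw [dz_sum]
  · refine Finset.sum_congr rfl fun i _ => ?_
    rw [dz_mul ((hd i).restrictScalars ℝ) (differentiableAt_conj ((hd2 i).restrictScalars ℝ)),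
      dz_conj_holo (hd2 i), dz_holo (hd i), fderiv_comp_apply hh.differentiableAt]
    ring
  · intro i _
    exact ((hd i).restrictScalars ℝ).mul (differentiableAt_conj ((hd2 i).restrictScalars ℝ))

end sq

section stokes
variable {k : ℕ}

/-- The complex divergence of a vector field on `ℂ ^ k`. -/
noncomputable def cdiv (c : (Fin k → ℂ) → (Fin k → ℂ)) (z : Fin k → ℂ) : ℂ :=
  ∑ l, fderiv ℂ c z (Pi.single l 1) l

/-- Stokes formula for the vector field `c` on `W`, for square integrable functions whose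
support is of class `𝒦`. -/
def Stokes (W : Set (Fin k → ℂ)) (c : (Fin k → ℂ) → (Fin k → ℂ))
    (𝒦 : Set (Fin k → ℂ) → Prop) : Prop :=
  ∀ a : (Fin k → ℂ) → ℂ, ContDiffOn ℝ 1 a W → 𝒦 {z ∈ W | a z ≠ 0} →
    IntegrableOn (fun z => ‖a z‖ ^ 2) W → IntegrableOn (fun z => dz a z (c z)) W →
      ∫ z in W, dz a z (c z) = 0

theorem continuousOn_dz {W : Set (Fin k → ℂ)} (hW : IsOpen W) {a : (Fin k → ℂ) → ℂ}
    (ha : ContDiffOn ℝ 1 a W) {c : (Fin k → ℂ) → (Fin k → ℂ)} (hc : ContinuousOn c W) :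
    ContinuousOn (fun z => dz a z (c z)) W := by
  unfold dz
  have h1 : ContinuousOn (fderiv ℝ a) W := ha.continuousOn_fderiv_of_isOpen hW le_rfl
  have h2 : ContinuousOn (fun z => fderiv ℝ a z (c z)) W := h1.clm_apply hc
  have h3 : ContinuousOn (fun z => fderiv ℝ a z (I • c z)) W :=
    h1.clm_apply (hc.const_smul I)
  exact continuousOn_const.mul (h2.sub (continuousOn_const.mul h3))

theorem integrable_fderiv_of_hasCompactSupport {b : (Fin k → ℂ) → ℂ} (hb : ContDiff ℝ 1 b)
    (hs : HasCompactSupport b) (v : Fin k → ℂ) : Integrable (fun z => fderiv ℝ b z v) := by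
  have h1 : Continuous (fun z => fderiv ℝ b z v) :=
    (hb.continuous_fderiv one_ne_zero).clm_apply continuous_const
  exact h1.integrable_of_hasCompactSupport (hs.fderiv_apply ℝ v)

theorem integral_fderiv_of_hasCompactSupport {b : (Fin k → ℂ) → ℂ} (hb : ContDiff ℝ 1 b)
    (hs : HasCompactSupport b) (v : Fin k → ℂ) : ∫ z, fderiv ℝ b z v = 0 := by
  have h := integral_mul_fderiv_eq_neg_fderiv_mul_of_integrable (μ := volume)
    (f := fun _ : Fin k → ℂ => (1 : ℂ)) (g := b) (v := v) (by simp)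
    (by simpa using integrable_fderiv_of_hasCompactSupport hb hs v)
    (by simpa using hb.continuous.integrable_of_hasCompactSupport hs)
    (fun x _ => differentiableAt_const _) (fun x _ => hb.differentiable one_ne_zero x)
  simpa using h

theorem integrable_dz_of_hasCompactSupport {b : (Fin k → ℂ) → ℂ} (hb : ContDiff ℝ 1 b)
    (hs : HasCompactSupport b) (v : Fin k → ℂ) : Integrable (fun z => dz b z v) := by
  unfold dz
  exact ((integrable_fderiv_of_hasCompactSupport hb hs v).sub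
    ((integrable_fderiv_of_hasCompactSupport hb hs (I • v)).const_mul I)).const_mul _

theorem integral_dz_of_hasCompactSupport {b : (Fin k → ℂ) → ℂ} (hb : ContDiff ℝ 1 b)
    (hs : HasCompactSupport b) (v : Fin k → ℂ) : ∫ z, dz b z v = 0 := by
  unfold dz
  rw [integral_const_mul, integral_sub (integrable_fderiv_of_hasCompactSupport hb hs v)
    ((integrable_fderiv_of_hasCompactSupport hb hs (I • v)).const_mul I), integral_const_mul,
    integral_fderiv_of_hasCompactSupport hb hs, integral_fderiv_of_hasCompactSupport hb hs]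
  simp

theorem dz_zero_vec {E : Type} [NormedAddCommGroup E] [NormedSpace ℂ E] (a : E → ℂ) (z : E) :
    dz a z 0 = 0 := by
  simp [dz]

theorem dz_sum_vec {E : Type} [NormedAddCommGroup E] [NormedSpace ℂ E] {ι : Type}
    (s : Finset ι) (a : E → ℂ) (z : E) (c : ι → E) :
    dz a z (∑ i ∈ s, c i) = ∑ i ∈ s, dz a z (c i) := by
  classical
  induction s using Finset.induction_on with
  | empty => simp [dz_zero_vec]
  | insert i s hi ih => rw [Finset.sum_insert hi, Finset.sum_insert hi, dz_add_vec, ih]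

theorem dz_eq_sum_single (a : (Fin k → ℂ) → ℂ) (z c : Fin k → ℂ) :
    dz a z c = ∑ l, dz a z (Pi.single l 1) * c l := by
  conv_lhs => rw [pi_eq_sum_univ' c]
  rw [dz_sum_vec]
  refine Finset.sum_congr rfl fun l _ => ?_
  rw [dz_smul_vec, mul_comm]

theorem stokes_compact {W : Set (Fin k → ℂ)} (hW : IsOpen W) {c : (Fin k → ℂ) → (Fin k → ℂ)}
    (hc : AnalyticOnNhd ℂ c W) (hdiv : ∀ z ∈ W, cdiv c z = 0) :
    Stokes W c (fun S => ∃ K, IsCompact K ∧ K ⊆ W ∧ S ⊆ K) := by
  rintro a ha ⟨K, hK, hKW, hSK⟩ - -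
  let b : Fin k → (Fin k → ℂ) → ℂ := fun l => W.indicator (fun z => a z * c z l)
  have hbW : ∀ l, ∀ z ∈ W, b l =ᶠ[𝓝 z] fun z => a z * c z l := by
    intro l z hz
    filter_upwards [hW.mem_nhds hz] with y hy
    exact indicator_of_mem hy _
  have hb0 : ∀ l, ∀ z, z ∉ K → b l z = 0 := by
    intro l z hz
    by_cases hzW : z ∈ W
    · have : a z = 0 := by
        by_contra hne
        exact hz (hSK ⟨hzW, hne⟩)
      simp [b, indicator_of_mem hzW, this]
    · exact indicator_of_notMem hzW _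
  have hbK : ∀ l, ∀ z, z ∉ K → b l =ᶠ[𝓝 z] fun _ => 0 := by
    intro l z hz
    filter_upwards [hK.isClosed.isOpen_compl.mem_nhds hz] with y hy
    exact hb0 l y hy
  have hca : ∀ l, ∀ z ∈ W, AnalyticAt ℂ (fun y => c y l) z := fun l z hz =>
    analyticAt_comp_apply (hc z hz) l
  have hbd : ∀ l, ContDiff ℝ 1 (b l) := by
    intro l
    rw [contDiff_iff_contDiffAt]
    intro z
    by_cases hzW : z ∈ W
    · refine ContDiffAt.congr_of_eventuallyEq ?_ (hbW l z hzW)
      exact (ha.contDiffAt (hW.mem_nhds hzW)).mul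
        ((contDiffAt_real_of_analyticAt (hca l z hzW)).of_le (by simp))
    · exact ContDiffAt.congr_of_eventuallyEq contDiffAt_const
        (hbK l z fun h => hzW (hKW h))
  have hbs : ∀ l, HasCompactSupport (b l) := fun l =>
    HasCompactSupport.intro hK (hb0 l)
  have hpt : ∀ z, W.indicator (fun z => dz a z (c z)) z = ∑ l, dz (b l) z (Pi.single l 1) := by
    intro z
    by_cases hzW : z ∈ W
    · rw [indicator_of_mem hzW]
      have had : DifferentiableAt ℝ a z :=
        (ha.contDiffAt (hW.mem_nhds hzW)).differentiableAt one_ne_zero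
      have h1 : ∀ l, dz (b l) z (Pi.single l 1) =
          dz a z (Pi.single l 1) * c z l + a z * fderiv ℂ c z (Pi.single l 1) l := by
        intro l
        rw [dz_congr (hbW l z hzW), dz_mul had ((hca l z hzW).differentiableAt.restrictScalars ℝ),
          dz_holo (hca l z hzW).differentiableAt, fderiv_comp_apply (hc z hzW).differentiableAt]
      simp only [h1]
      rw [Finset.sum_add_distrib, ← Finset.mul_sum, ← dz_eq_sum_single]
      have := hdiv z hzW
      unfold cdiv at this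
      rw [this]
      simp
    · rw [indicator_of_notMem hzW]
      symm
      refine Finset.sum_eq_zero fun l _ => ?_
      rw [dz_congr (hbK l z fun h => hzW (hKW h)), dz_const]
  rw [← integral_indicator hW.measurableSet]
  simp only [hpt]
  rw [integral_finsetSum _ fun l _ => integrable_dz_of_hasCompactSupport (hbd l) (hbs l) _]
  exact Finset.sum_eq_zero fun l _ => integral_dz_of_hasCompactSupport (hbd l) (hbs l) _

end stokes

section jacobian
variable {k : ℕ} {ι : Type} [Fintype ι]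

theorem jac_mulVec (F : (Fin k → ℂ) → (ι → ℂ)) (z c : Fin k → ℂ) :
    jac F z *ᵥ c = fderiv ℂ F z c := by
  funext m
  conv_rhs => rw [pi_eq_sum_univ' c]
  rw [map_sum]
  simp only [map_smul, Finset.sum_apply, Pi.smul_apply, smul_eq_mul]
  unfold jac Matrix.mulVec dotProduct
  refine Finset.sum_congr rfl fun l _ => ?_
  exact mul_comm _ _

theorem analyticAt_jac {F : (Fin k → ℂ) → (ι → ℂ)} {z : Fin k → ℂ} (hF : AnalyticAt ℂ F z)
    (m : ι) (l : Fin k) : AnalyticAt ℂ (fun y => jac F y m l) z :=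
  analyticAt_comp_apply
    (analyticAt_fderiv_apply (c := fun _ => Pi.single l 1) hF analyticAt_const) m

theorem analyticAt_det {E : Type} [NormedAddCommGroup E] [NormedSpace ℂ E]
    {A : E → Matrix (Fin k) (Fin k) ℂ} {z : E}
    (hA : ∀ i j, AnalyticAt ℂ (fun y => A y i j) z) : AnalyticAt ℂ (fun y => (A y).det) z := by
  simp only [Matrix.det_apply']
  refine Finset.analyticAt_fun_sum _ fun σ _ => analyticAt_const.mul ?_
  exact Finset.analyticAt_fun_prod _ fun i _ => hA _ _

theorem analyticAt_det_jac {G : (Fin k → ℂ) → (Fin k → ℂ)} {z : Fin k → ℂ}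
    (hG : AnalyticAt ℂ G z) : AnalyticAt ℂ (fun y => (jac G y).det) z :=
  analyticAt_det fun i j => analyticAt_jac hG i j

theorem det_jac_eq (G : (Fin k → ℂ) → (Fin k → ℂ)) (z : Fin k → ℂ) :
    (jac G z).det = (fderiv ℂ G z).det := by
  rw [ContinuousLinearMap.det, ← LinearMap.det_toMatrix']
  rfl

/-- The cofactor vector field. -/
noncomputable def vf (G : (Fin k → ℂ) → (Fin k → ℂ)) (i₀ : Fin k) (z : Fin k → ℂ) : Fin k → ℂ :=
  fun l => (jac G z).adjugate l i₀

theorem analyticAt_vf_apply {G : (Fin k → ℂ) → (Fin k → ℂ)} {z : Fin k → ℂ}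
    (hG : AnalyticAt ℂ G z) (i₀ l : Fin k) : AnalyticAt ℂ (fun y => vf G i₀ y l) z := by
  unfold vf
  simp only [Matrix.adjugate_apply]
  refine analyticAt_det fun i j => ?_
  by_cases hi : i = i₀
  · subst hi
    simp only [Matrix.updateRow_self]
    exact analyticAt_const
  · simp only [Matrix.updateRow_ne hi]
    exact analyticAt_jac hG i j

theorem analyticAt_vf {G : (Fin k → ℂ) → (Fin k → ℂ)} {z : Fin k → ℂ} (hG : AnalyticAt ℂ G z)
    (i₀ : Fin k) : AnalyticAt ℂ (vf G i₀) z :=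
  AnalyticAt.pi fun l => analyticAt_vf_apply hG i₀ l

theorem det_updateRow_eq_sum (A : Matrix (Fin k) (Fin k) ℂ) (i : Fin k) (w : Fin k → ℂ) :
    (A.updateRow i w).det = ∑ l, w l * (A.updateRow i (Pi.single l 1)).det := by
  simp only [← Matrix.cramer_transpose_apply]
  conv_lhs => rw [pi_eq_sum_univ' w]
  rw [map_sum]
  simp only [map_smul, Finset.sum_apply, Pi.smul_apply, smul_eq_mul]

/-- The determinant as a continuous multilinear function of the rows. -/
noncomputable def detCMM (k : ℕ) : ContinuousMultilinearMap ℂ (fun _ : Fin k => Fin k → ℂ) ℂ where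
  toMultilinearMap := (Matrix.detRowAlternating : (Fin k → ℂ) [⋀^Fin k]→ₗ[ℂ] ℂ).toMultilinearMap
  cont := by
    have : Continuous fun A : Matrix (Fin k) (Fin k) ℂ => A.det := continuous_id.matrix_det
    exact this

theorem fderiv_det {E : Type} [NormedAddCommGroup E] [NormedSpace ℂ E]
    {A : E → Matrix (Fin k) (Fin k) ℂ} {z : E}
    (hA : ∀ i j, DifferentiableAt ℂ (fun y => A y i j) z) (v : E) :
    fderiv ℂ (fun y => (A y).det) z v =
      ∑ i, ((A z).updateRow i (fun j => fderiv ℂ (fun y => A y i j) z v)).det := by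
  have h1 : ∀ i, HasFDerivAt (fun y => (A y i : Fin k → ℂ))
      (ContinuousLinearMap.pi fun j => fderiv ℂ (fun y => A y i j) z) z := fun i =>
    hasFDerivAt_pi.2 fun j => (hA i j).hasFDerivAt
  have h2 := HasFDerivAt.multilinear_comp (detCMM k) h1
  have h3 : (fun y => (A y).det) = fun y => detCMM k (fun i => A y i) := rfl
  rw [h3, h2.fderiv]
  simp only [_root_.sum_apply, ContinuousLinearMap.comp_apply]
  rfl

theorem det_updateRow_updateRow_antisymm (A : Matrix (Fin k) (Fin k) ℂ) {i j : Fin k}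
    (hij : i ≠ j) (u w : Fin k → ℂ) :
    ((A.updateRow i u).updateRow j w).det = - ((A.updateRow i w).updateRow j u).det := by
  have h0 : ∀ x : Fin k → ℂ, ((A.updateRow i x).updateRow j x).det = 0 := by
    intro x
    apply Matrix.det_zero_of_row_eq hij
    rw [Matrix.updateRow_ne hij, Matrix.updateRow_self, Matrix.updateRow_self]
  have h1 : ∀ x y y' : Fin k → ℂ, ((A.updateRow i x).updateRow j (y + y')).det =
      ((A.updateRow i x).updateRow j y).det + ((A.updateRow i x).updateRow j y').det :=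
    fun x y y' => Matrix.det_updateRow_add _ _ _ _
  have h2 : ∀ x x' y : Fin k → ℂ, ((A.updateRow i (x + x')).updateRow j y).det =
      ((A.updateRow i x).updateRow j y).det + ((A.updateRow i x').updateRow j y).det := by
    intro x x' y
    simp only [Matrix.updateRow_comm _ hij]
    exact Matrix.det_updateRow_add _ _ _ _
  have h3 := h0 (u + w)
  rw [h1, h2, h2, h0, h0] at h3
  linear_combination h3

theorem fderiv_jac_symm {G : (Fin k → ℂ) → (Fin k → ℂ)} {z : Fin k → ℂ} (hG : AnalyticAt ℂ G z)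
    (i l m : Fin k) :
    fderiv ℂ (fun y => jac G y i m) z (Pi.single l 1) =
      fderiv ℂ (fun y => jac G y i l) z (Pi.single m 1) := by
  have h1 : ∀ l m : Fin k, fderiv ℂ (fun y => jac G y i m) z (Pi.single l 1) =
      fderiv ℂ (fderiv ℂ G) z (Pi.single l 1) (Pi.single m 1) i := by
    intro l m
    have hd : DifferentiableAt ℂ (fderiv ℂ G) z := hG.fderiv.differentiableAt
    have h2 : (fun y => jac G y i m) =
        fun y => (fun y => fderiv ℂ G y (Pi.single m 1)) y i := rfl
    rw [h2, fderiv_comp_apply (hd.clm_apply (differentiableAt_const _)),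
      fderiv_clm_apply hd (differentiableAt_const _)]
    simp
  rw [h1, h1]
  have hs := (hG.contDiffAt (n := ω)).isSymmSndFDerivAt_of_omega
  rw [hs.eq]

/-- Piola identity. -/
theorem cdiv_vf {G : (Fin k → ℂ) → (Fin k → ℂ)} {z : Fin k → ℂ} (hG : AnalyticAt ℂ G z)
    (i₀ : Fin k) : cdiv (vf G i₀) z = 0 := by
  unfold cdiv
  have h1 : ∀ l, fderiv ℂ (vf G i₀) z (Pi.single l 1) l =
      ∑ i, (((jac G z).updateRow i₀ (Pi.single l 1)).updateRow i
        (fun j => fderiv ℂ (fun y => ((jac G y).updateRow i₀ (Pi.single l 1)) i j) z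
          (Pi.single l 1))).det := by
    intro l
    rw [← fderiv_comp_apply (analyticAt_vf hG i₀).differentiableAt]
    unfold vf
    simp only [Matrix.adjugate_apply]
    apply fderiv_det (A := fun y => (jac G y).updateRow i₀ (Pi.single l 1))
    intro i j
    by_cases hi : i = i₀
    · subst hi
      simp only [Matrix.updateRow_self]
      exact differentiableAt_const _
    · simp only [Matrix.updateRow_ne hi]
      exact (analyticAt_jac hG i j).differentiableAt
  simp only [h1]
  rw [Finset.sum_comm]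
  refine Finset.sum_eq_zero fun i _ => ?_
  by_cases hi : i = i₀
  · subst hi
    refine Finset.sum_eq_zero fun l _ => ?_
    rw [det_updateRow_eq_sum]
    simp
  · simp only [Matrix.updateRow_ne hi]
    have h2 : ∀ l, (((jac G z).updateRow i₀ (Pi.single l 1)).updateRow i
        (fun j => fderiv ℂ (fun y => jac G y i j) z (Pi.single l 1))).det =
        ∑ m, fderiv ℂ (fun y => jac G y i m) z (Pi.single l 1) *
          (((jac G z).updateRow i₀ (Pi.single l 1)).updateRow i (Pi.single m 1)).det :=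
      fun l => det_updateRow_eq_sum _ _ _
    simp only [h2]
    set S := ∑ l, ∑ m, fderiv ℂ (fun y => jac G y i m) z (Pi.single l 1) *
          (((jac G z).updateRow i₀ (Pi.single l 1)).updateRow i (Pi.single m 1)).det with hS
    have h3 : S = -S := by
      conv_lhs => rw [hS, Finset.sum_comm]
      rw [hS, ← Finset.sum_neg_distrib]
      refine Finset.sum_congr rfl fun l _ => ?_
      rw [← Finset.sum_neg_distrib]
      refine Finset.sum_congr rfl fun m _ => ?_
      rw [fderiv_jac_symm hG i m l, det_updateRow_updateRow_antisymm _ (Ne.symm hi)]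
      ring
    linear_combination (1 / 2 : ℂ) * h3

theorem fderiv_vf_self (G : (Fin k → ℂ) → (Fin k → ℂ)) (z : Fin k → ℂ) (i₀ : Fin k) :
    fderiv ℂ G z (vf G i₀ z) = (jac G z).det • (Pi.single i₀ 1 : Fin k → ℂ) := by
  rw [← jac_mulVec]
  funext i
  have h := congrFun (congrFun (Matrix.mul_adjugate (jac G z)) i) i₀
  rw [Matrix.mul_apply] at h
  unfold vf Matrix.mulVec dotProduct
  rw [h]
  simp [Matrix.one_apply, Pi.single_apply]

theorem fderiv_vf_apply (F : (Fin k → ℂ) → (ι → ℂ)) (G : (Fin k → ℂ) → (Fin k → ℂ))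
    (z : Fin k → ℂ) (i₀ : Fin k) (m : ι) :
    fderiv ℂ F z (vf G i₀ z) m = ((jac G z).updateRow i₀ (jac F z m)).det := by
  rw [← jac_mulVec, det_updateRow_eq_sum]
  unfold vf Matrix.mulVec dotProduct
  simp only [Matrix.adjugate_apply]

/-- The linear map selecting the coordinates `s`. -/
noncomputable def sel (s : Fin k → ι) : (ι → ℂ) →L[ℂ] (Fin k → ℂ) :=
  ContinuousLinearMap.pi fun i => ContinuousLinearMap.proj (s i)

/-- The minor of the Jacobian matrix with rows `s`. -/
noncomputable def minor (F : (Fin k → ℂ) → (ι → ℂ)) (s : Fin k → ι) (z : Fin k → ℂ) : ℂ :=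
  ((jac F z).submatrix s id).det

/-- The volume density of `F`, up to the factor `k!`. -/
noncomputable def vol (F : (Fin k → ℂ) → (ι → ℂ)) (z : Fin k → ℂ) : ℝ :=
  ∑ s : Fin k → ι, ‖minor F s z‖ ^ 2

theorem vol_nonneg (F : (Fin k → ℂ) → (ι → ℂ)) (z : Fin k → ℂ) : 0 ≤ vol F z :=
  Finset.sum_nonneg fun _ _ => sq_nonneg _

theorem analyticAt_minor {F : (Fin k → ℂ) → (ι → ℂ)} {z : Fin k → ℂ} (hF : AnalyticAt ℂ F z)
    (s : Fin k → ι) : AnalyticAt ℂ (minor F s) z :=
  analyticAt_det (A := fun y => (jac F y).submatrix s id) fun i j => analyticAt_jac hF (s i) j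

theorem continuousOn_vol {F : (Fin k → ℂ) → (ι → ℂ)} {W : Set (Fin k → ℂ)}
    (hF : AnalyticOnNhd ℂ F W) : ContinuousOn (vol F) W := by
  unfold vol
  refine continuousOn_finsetSum _ fun s _ => ?_
  intro z hz
  exact ((analyticAt_minor (hF z hz) s).continuousAt.norm.pow 2).continuousWithinAt

theorem jac_comp_apply {F : (Fin k → ℂ) → (ι → ℂ)} {z : Fin k → ℂ} (hF : DifferentiableAt ℂ F z)
    {κ : Type} [Fintype κ] (p : (ι → ℂ) →L[ℂ] (κ → ℂ)) (i : κ) (l : Fin k) :
    jac (p ∘ F) z i l = p (fderiv ℂ F z (Pi.single l 1)) i := by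
  unfold jac
  rw [(p.hasFDerivAt.comp z hF.hasFDerivAt).fderiv]
  rfl

theorem jac_sel {F : (Fin k → ℂ) → (ι → ℂ)} {z : Fin k → ℂ} (hF : DifferentiableAt ℂ F z)
    (s : Fin k → ι) : jac (sel s ∘ F) z = (jac F z).submatrix s id := by
  ext i l
  rw [jac_comp_apply hF]
  rfl

theorem det_jac_sel {F : (Fin k → ℂ) → (ι → ℂ)} {z : Fin k → ℂ} (hF : DifferentiableAt ℂ F z)
    (s : Fin k → ι) : (jac (sel s ∘ F) z).det = minor F s z := by
  rw [jac_sel hF]
  rfl

theorem fderiv_vf_sel {F : (Fin k → ℂ) → (ι → ℂ)} {z : Fin k → ℂ} (hF : DifferentiableAt ℂ F z)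
    (s : Fin k → ι) (i₀ : Fin k) (m : ι) :
    fderiv ℂ F z (vf (sel s ∘ F) i₀ z) m = minor F (Function.update s i₀ m) z := by
  rw [fderiv_vf_apply, jac_sel hF]
  unfold minor
  refine congrArg Matrix.det ?_
  ext i l
  by_cases hi : i = i₀
  · subst hi
    simp
  · simp [Matrix.updateRow_ne hi, Function.update_of_ne hi]

/-- Expansion of the Jacobian of `p ∘ F` in terms of the minors of `F`. -/
theorem det_jac_comp {F : (Fin k → ℂ) → (ι → ℂ)} {z : Fin k → ℂ} [DecidableEq ι]
    (hF : DifferentiableAt ℂ F z) (p : (ι → ℂ) →L[ℂ] (Fin k → ℂ)) :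
    (jac (p ∘ F) z).det = ∑ s : Fin k → ι, (∏ i, p (Pi.single (s i) 1) i) * minor F s z := by
  have h1 : jac (p ∘ F) z = fun i => ∑ m, p (Pi.single m 1) i • jac F z m := by
    funext i l
    rw [jac_comp_apply hF]
    conv_lhs => rw [pi_eq_sum_univ' (fderiv ℂ F z (Pi.single l 1))]
    rw [map_sum]
    simp only [map_smul, Finset.sum_apply, Pi.smul_apply, smul_eq_mul]
    refine Finset.sum_congr rfl fun m _ => ?_
    rw [mul_comm]
    rfl
  have h2 : (jac (p ∘ F) z).det =
      detCMM k (fun i => ∑ m, p (Pi.single m 1) i • jac F z m) := by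
    rw [h1]
    rfl
  rw [h2, ContinuousMultilinearMap.map_sum]
  refine Finset.sum_congr rfl fun s _ => ?_
  rw [ContinuousMultilinearMap.map_smul_univ]
  rfl

theorem exists_det_jac_comp_le (p : (ι → ℂ) →L[ℂ] (Fin k → ℂ)) :
    ∃ C : ℝ, ∀ (F : (Fin k → ℂ) → (ι → ℂ)) (z : Fin k → ℂ), DifferentiableAt ℂ F z →
      ‖(jac (p ∘ F) z).det‖ ^ 2 ≤ C * vol F z := by
  classical
  refine ⟨∑ s : Fin k → ι, ‖∏ i, p (Pi.single (s i) 1) i‖ ^ 2, fun F z hF => ?_⟩
  rw [det_jac_comp hF]
  unfold vol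
  have h1 : ‖∑ s : Fin k → ι, (∏ i, p (Pi.single (s i) 1) i) * minor F s z‖ ≤
      ∑ s : Fin k → ι, ‖∏ i, p (Pi.single (s i) 1) i‖ * ‖minor F s z‖ := by
    refine (norm_sum_le _ _).trans (le_of_eq ?_)
    simp only [norm_mul]
  calc _ ≤ (∑ s : Fin k → ι, ‖∏ i, p (Pi.single (s i) 1) i‖ * ‖minor F s z‖) ^ 2 := by gcongr
    _ ≤ _ := Finset.sum_mul_sq_le_sq_mul_sq _ _ _

theorem exists_fderiv_vf_le (p : (ι → ℂ) →L[ℂ] (Fin k → ℂ)) (i₀ : Fin k) :
    ∃ C : ℝ, ∀ (F : (Fin k → ℂ) → (ι → ℂ)) (z : Fin k → ℂ), DifferentiableAt ℂ F z →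
      ‖fderiv ℂ F z (vf (p ∘ F) i₀ z)‖ ^ 2 ≤ C * vol F z := by
  let q : ι → ((ι → ℂ) →L[ℂ] (Fin k → ℂ)) := fun m =>
    ContinuousLinearMap.pi fun i =>
      if i = i₀ then ContinuousLinearMap.proj m else (ContinuousLinearMap.proj i).comp p
  choose C hC using fun m => exists_det_jac_comp_le (k := k) (q m)
  refine ⟨∑ m, C m, fun F z hF => ?_⟩
  refine (norm_sq_le_nsq _).trans ?_
  unfold nsq
  rw [Finset.sum_mul]
  refine Finset.sum_le_sum fun m _ => ?_
  have h1 : (jac (p ∘ F) z).updateRow i₀ (jac F z m) = jac (q m ∘ F) z := by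
    ext i l
    rw [jac_comp_apply hF]
    by_cases hi : i = i₀
    · subst hi
      simp [q, jac]
    · rw [Matrix.updateRow_ne hi, jac_comp_apply hF]
      simp [q, hi]
  rw [fderiv_vf_apply, h1]
  exact hC m F z hF

end jacobian

end Pool.Agent.Lib.MP_940f24_an
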